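import Pool.Agent.H10.RP.FT

/-!
# Reversed primes: geometric sums (job RP-3)
-/

set_option autoImplicit false

open Finset

namespace Pool.Agent.H10.RP

theorem nd_nonneg (x : ℝ) : 0 ≤ nd x := abs_nonneg _

theorem nd_le_half (x : ℝ) : nd x ≤ 1 / 2 := abs_sub_round x

theorem nd_add_int (x : ℝ) (n : ℤ) : nd (x + n) = nd x := by
  unfold nd
  rw [round_add_intCast]
  push_cast
  congr 1
  ring

theorem nd_neg (x : ℝ) : nd (-x) = nd x := by
  have h : ∀ y : ℝ, nd (-y) ≤ nd y := by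
    intro y
    refine (round_le (-y) (-round y)).trans (le_of_eq ?_)
    unfold nd
    push_cast
    rw [← abs_neg]
    congr 1
    ring
  apply le_antisymm (h x)
  have := h (-x)
  rwa [neg_neg] at this

/-- `‖x‖` is the smallest distance to an integer -/
theorem nd_le (x : ℝ) (n : ℤ) : nd x ≤ |x - n| := round_le x n

theorem nd_add_le (x y : ℝ) : nd (x + y) ≤ nd x + nd y := by
  refine (nd_le (x + y) (round x + round y)).trans ?_
  unfold nd
  push_cast
  have h : x + y - (round x + round y) = (x - round x) + (y - round y) := by ring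
  rw [h]
  exact abs_add_le _ _

theorem gm_nonneg {K : ℝ} (hK : 0 ≤ K) (x : ℝ) : 0 ≤ gm K x := by
  unfold gm
  split_ifs
  · exact hK
  · exact div_nonneg zero_le_one (mul_nonneg zero_le_two (nd_nonneg x))

theorem gm_le {K : ℝ} (hK : 0 ≤ K) (x : ℝ) : gm K x ≤ K := by
  unfold gm
  split_ifs with h
  · exact le_rfl
  · have hn := nd_nonneg x
    have hpos : 0 < 2 * nd x := by
      by_contra h0
      have h1 : nd x = 0 := by linarith
      apply h
      rw [h1]
      norm_num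
    rw [div_le_iff₀ hpos]
    push Not at h
    linarith

/-- `gm K x ≤ K / T` if `2 K ‖x‖ ≥ T ≥ 1` -/
theorem gm_le_div {K T : ℝ} (hK : 0 < K) (hT : 1 ≤ T) (x : ℝ) (h : T ≤ 2 * K * nd x) :
    gm K x ≤ K / T := by
  unfold gm
  have hT0 : 0 < T := by linarith
  split_ifs with h2
  · have hT1 : T = 1 := le_antisymm (by linarith) hT
    rw [hT1, div_one]
  · have hpos : 0 < 2 * nd x := by
      by_contra h0
      have h1 : nd x = 0 := le_antisymm (by linarith) (nd_nonneg x)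
      rw [h1] at h
      linarith
    rw [div_le_div_iff₀ hpos hT0]
    linarith

/-- `gm K x ≤ 1 / (2 ‖x‖)` -/
theorem gm_le_inv {K : ℝ} (x : ℝ) (h : 0 < nd x) : gm K x ≤ 1 / (2 * nd x) := by
  unfold gm
  split_ifs with h2
  · rw [le_div_iff₀ (by linarith)]
    linarith
  · exact le_rfl

theorem gm_congr_nd {K x y : ℝ} (h : nd x = nd y) : gm K x = gm K y := by
  unfold gm
  rw [h]

/-- `|e(x) - 1| ≥ 4‖x‖` -/
theorem four_nd_le (x : ℝ) : 4 * nd x ≤ ‖ee x - 1‖ := by
  have h1 : ee x = ee (x - round x) := ee_congr ⟨round x, by ring⟩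
  rw [h1]
  have hnd : nd x = |x - round x| := rfl
  rw [hnd]
  generalize ht : x - round x = t
  have ht2 : |t| ≤ 1 / 2 := by
    rw [← ht]
    exact abs_sub_round x
  have h2 : ee t = Complex.exp (Complex.I * ((2 * Real.pi * t : ℝ) : ℂ)) := by
    unfold ee
    congr 1
    push_cast
    ring
  rw [h2, Complex.norm_exp_I_mul_ofReal_sub_one]
  have h3 : 2 * Real.pi * t / 2 = Real.pi * t := by ring
  rw [h3, Real.norm_eq_abs, abs_mul, abs_two]
  have hpi := Real.pi_pos
  have hsin : 2 / Real.pi * (Real.pi * |t|) ≤ Real.sin (Real.pi * |t|) :=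
    Real.mul_le_sin (by positivity) (by nlinarith)
  have h5 : 2 / Real.pi * (Real.pi * |t|) = 2 * |t| := by
    field_simp
  rw [h5] at hsin
  have h4 : Real.sin (Real.pi * |t|) ≤ |Real.sin (Real.pi * t)| := by
    rcases abs_cases t with ⟨h, h'⟩ | ⟨h, h'⟩
    · rw [h]
      exact le_abs_self _
    · rw [h, mul_neg, Real.sin_neg]
      exact neg_le_abs _
  linarith

/-- geometric sum; `|sin πx| ≥ 2‖x‖` -/
theorem norm_geom_le (K ξ : ℝ) (hK : 0 ≤ K) (a c : ℕ) (h : (c : ℝ) - a ≤ K) :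
    ‖∑ m ∈ Ico a c, ee (m * ξ)‖ ≤ gm K ξ := by
  unfold gm
  split_ifs with h2
  · refine (norm_sum_le _ _).trans ?_
    have h3 : ∀ m ∈ Ico a c, ‖ee ((m : ℝ) * ξ)‖ = 1 := fun m _ => norm_ee _
    rw [Finset.sum_congr rfl h3, Finset.sum_const, Nat.card_Ico, nsmul_eq_mul, mul_one]
    rcases le_total a c with hac | hac
    · rw [Nat.cast_sub hac]
      exact h
    · rw [Nat.sub_eq_zero_of_le hac]
      simpa using hK
  · have hnd : 0 < nd ξ := by
      by_contra h0
      have h1 : nd ξ = 0 := le_antisymm (by linarith) (nd_nonneg ξ)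
      apply h2
      rw [h1]
      norm_num
    rcases le_total a c with hac | hac
    swap
    · rw [Finset.Ico_eq_empty_of_le hac, Finset.sum_empty, norm_zero]
      positivity
    have hpow : ∀ m : ℕ, ee ((m : ℝ) * ξ) = ee ξ ^ m := by
      intro m
      induction m with
      | zero => simp [ee_zero]
      | succ m ih =>
        rw [pow_succ, ← ih, ← ee_add]
        congr 1
        push_cast
        ring
    have h4 := four_nd_le ξ
    have hne : ee ξ ≠ 1 := by
      intro h5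
      rw [h5, sub_self, norm_zero] at h4
      linarith
    have hgeo : ∑ m ∈ Ico a c, ee ((m : ℝ) * ξ) = (ee ξ ^ c - ee ξ ^ a) / (ee ξ - 1) := by
      rw [← geom_sum_Ico hne hac]
      exact Finset.sum_congr rfl fun m _ => hpow m
    rw [hgeo, norm_div]
    have h6 : ‖ee ξ ^ c - ee ξ ^ a‖ ≤ 2 := by
      refine (norm_sub_le _ _).trans ?_
      rw [norm_pow, norm_pow, norm_ee, one_pow, one_pow]
      norm_num
    have h7 : 0 < ‖ee ξ - 1‖ := by linarith
    rw [div_le_div_iff₀ h7 (by linarith)]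
    nlinarith [nd_nonneg ξ]

theorem sum_periodic (F : ℕ → ℝ) (M : ℕ) (hF : ∀ n, F (n + M) = F n) (Q : ℕ) :
    ∑ n ∈ range (M * Q), F n = Q * ∑ n ∈ range M, F n := by
  have hF2 : ∀ k n, F (M * k + n) = F n := by
    intro k
    induction k with
    | zero => intro n; simp
    | succ k ih =>
      intro n
      have e : M * (k + 1) + n = (M * k + n) + M := by ring
      rw [e, hF, ih]
  induction Q with
  | zero => simp
  | succ Q ih =>
    rw [mul_add, mul_one, Finset.sum_range_add, ih]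
    simp only [hF2]
    push_cast
    ring

theorem sum_inv_odd_le (M : ℕ) (m : ℕ) (hm : M ≤ m) (hM : 1 ≤ M) :
    ∑ j ∈ range (M - 1), (1 : ℝ) / (j + 1) ≤ 1 + Real.log m := by
  have h1 := harmonic_le_one_add_log (M - 1)
  have h2 : ((harmonic (M - 1) : ℚ) : ℝ) = ∑ j ∈ range (M - 1), (1 : ℝ) / (j + 1) := by
    unfold harmonic
    push_cast
    exact Finset.sum_congr rfl fun j _ => by rw [one_div]
  rw [← h2]
  refine h1.trans ?_
  have h3 : Real.log ((M - 1 : ℕ) : ℝ) ≤ Real.log m := by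
    rcases Nat.eq_zero_or_pos (M - 1) with h | h
    · rw [h]
      simp only [Nat.cast_zero, Real.log_zero]
      exact Real.log_natCast_nonneg m
    · apply Real.log_le_log (by exact_mod_cast h)
      exact_mod_cast (by omega : M - 1 ≤ m)
  linarith

/-- a complete system of residues -/
theorem sum_residues_le (M m : ℕ) (hM : 1 ≤ M) (hMm : M ≤ m) (θ K : ℝ) (hK : 1 ≤ K)
    (hθ : |θ| ≤ 1 / 2) :
    ∑ j ∈ range M, gm K (((j : ℝ) + θ) / M) ≤ gm K (|θ| / M) + M * (4 + 2 * Real.log m) := by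
  have hMR : (0 : ℝ) < M := by exact_mod_cast hM
  obtain ⟨M', rfl⟩ : ∃ M', M = M' + 1 := ⟨M - 1, by omega⟩
  rw [Finset.sum_range_succ']
  have h0 : gm K ((((0 : ℕ) : ℝ) + θ) / ((M' + 1 : ℕ) : ℝ)) = gm K (|θ| / ((M' + 1 : ℕ) : ℝ)) := by
    apply gm_congr_nd
    rcases abs_cases θ with ⟨h, _⟩ | ⟨h, _⟩
    · rw [h]
      simp
    · rw [h, neg_div, nd_neg]
      simp
  rw [h0]
  obtain ⟨hθ1, hθ2⟩ := abs_le.1 hθ
  have hterm : ∀ j ∈ range M', gm K ((((j + 1 : ℕ) : ℝ) + θ) / ((M' + 1 : ℕ) : ℝ)) ≤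
      ((M' + 1 : ℕ) : ℝ) * (1 / ((j : ℝ) + 1)) +
        ((M' + 1 : ℕ) : ℝ) * (1 / (((M' - 1 - j : ℕ) : ℝ) + 1)) := by
    intro j hj
    rw [Finset.mem_range] at hj
    have hj1 : (0 : ℝ) ≤ j := Nat.cast_nonneg j
    have hjM : (j : ℝ) + 1 ≤ M' := by exact_mod_cast hj
    have hcast : (((M' - 1 - j : ℕ) : ℝ) + 1) = (M' : ℝ) - j := by
      have : M' - 1 - j + 1 = M' - j := by omega
      have h2 : (((M' - 1 - j + 1 : ℕ)) : ℝ) = ((M' - j : ℕ) : ℝ) := by rw [this]
      rw [Nat.cast_sub (by omega)] at h2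
      push_cast at h2
      exact h2
    rw [hcast]
    have hM1 : ((M' + 1 : ℕ) : ℝ) = (M' : ℝ) + 1 := by push_cast; ring
    rw [hM1]
    have hj2 : (((j + 1 : ℕ) : ℝ)) = (j : ℝ) + 1 := by push_cast; ring
    rw [hj2]
    have hMp : (0 : ℝ) < (M' : ℝ) + 1 := by linarith
    -- lower bound for the distance
    have hnd : ∀ n : ℤ, ((j : ℝ) + 1) / (2 * ((M' : ℝ) + 1)) ≤ |((j : ℝ) + 1 + θ) / ((M' : ℝ) + 1) - n| ∨
        ((M' : ℝ) - j) / (2 * ((M' : ℝ) + 1)) ≤ |((j : ℝ) + 1 + θ) / ((M' : ℝ) + 1) - n| := by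
      intro n
      rcases le_or_gt n 0 with hn | hn
      · left
        have hn' : (n : ℝ) ≤ 0 := by exact_mod_cast hn
        refine le_trans ?_ (le_abs_self _)
        have h5 : ((j : ℝ) + 1) / (2 * ((M' : ℝ) + 1)) ≤ ((j : ℝ) + 1 + θ) / ((M' : ℝ) + 1) := by
          rw [div_le_div_iff₀ (by linarith) hMp]
          nlinarith
        linarith
      · right
        have hn' : (1 : ℝ) ≤ n := by exact_mod_cast hn
        refine le_trans ?_ (neg_le_abs _)
        have h5 : ((M' : ℝ) - j) / (2 * ((M' : ℝ) + 1)) ≤ 1 - ((j : ℝ) + 1 + θ) / ((M' : ℝ) + 1) := by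
          rw [le_sub_iff_add_le, div_add_div _ _ (by positivity) (by positivity),
            div_le_one (by positivity)]
          nlinarith
        linarith
    have hA : 0 < ((j : ℝ) + 1) / (2 * ((M' : ℝ) + 1)) := by positivity
    have hB : 0 < ((M' : ℝ) - j) / (2 * ((M' : ℝ) + 1)) := div_pos (by linarith) (by linarith)
    have e1 : 1 / (2 * (((j : ℝ) + 1) / (2 * ((M' : ℝ) + 1)))) =
        ((M' : ℝ) + 1) * (1 / ((j : ℝ) + 1)) := by
      have : (j : ℝ) + 1 ≠ 0 := by positivity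
      field_simp
    have e2 : 1 / (2 * (((M' : ℝ) - j) / (2 * ((M' : ℝ) + 1)))) =
        ((M' : ℝ) + 1) * (1 / ((M' : ℝ) - j)) := by
      have : (M' : ℝ) - j ≠ 0 := by linarith
      field_simp
    have p1 : 0 ≤ ((M' : ℝ) + 1) * (1 / ((j : ℝ) + 1)) := by positivity
    have p2 : 0 ≤ ((M' : ℝ) + 1) * (1 / ((M' : ℝ) - j)) := by
      rw [← e2]
      positivity
    rcases hnd (round (((j : ℝ) + 1 + θ) / ((M' : ℝ) + 1))) with h6 | h6
    · have h7 : ((j : ℝ) + 1) / (2 * ((M' : ℝ) + 1)) ≤ nd (((j : ℝ) + 1 + θ) / ((M' : ℝ) + 1)) := h6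
      have h8 := gm_le_inv (K := K) _ (lt_of_lt_of_le hA h7)
      have h9 : 1 / (2 * nd (((j : ℝ) + 1 + θ) / ((M' : ℝ) + 1))) ≤
          1 / (2 * (((j : ℝ) + 1) / (2 * ((M' : ℝ) + 1)))) := by
        apply one_div_le_one_div_of_le (by linarith) (by linarith)
      rw [e1] at h9
      linarith
    · have h7 : ((M' : ℝ) - j) / (2 * ((M' : ℝ) + 1)) ≤ nd (((j : ℝ) + 1 + θ) / ((M' : ℝ) + 1)) := h6
      have h8 := gm_le_inv (K := K) _ (lt_of_lt_of_le hB h7)
      have h9 : 1 / (2 * nd (((j : ℝ) + 1 + θ) / ((M' : ℝ) + 1))) ≤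
          1 / (2 * (((M' : ℝ) - j) / (2 * ((M' : ℝ) + 1)))) := by
        apply one_div_le_one_div_of_le (by linarith) (by linarith)
      rw [e2] at h9
      linarith
  have hsum := Finset.sum_le_sum hterm
  rw [Finset.sum_add_distrib, ← Finset.mul_sum, ← Finset.mul_sum] at hsum
  have hrefl : ∑ j ∈ range M', (1 : ℝ) / (((M' - 1 - j : ℕ) : ℝ) + 1) =
      ∑ j ∈ range M', (1 : ℝ) / ((j : ℝ) + 1) :=
    Finset.sum_range_reflect (fun j : ℕ => (1 : ℝ) / ((j : ℝ) + 1)) M'
  rw [hrefl] at hsum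
  have hh := sum_inv_odd_le (M' + 1) m hMm hM
  rw [Nat.add_sub_cancel] at hh
  have hfin : ((M' + 1 : ℕ) : ℝ) * ∑ j ∈ range M', (1 : ℝ) / ((j : ℝ) + 1) ≤
      ((M' + 1 : ℕ) : ℝ) * (1 + Real.log m) := mul_le_mul_of_nonneg_left hh hMR.le
  nlinarith

/-- Let `g = gcd (l, m)`, `M = m / g`. Over a complete period of `M` consecutive `n` the numbers
`(l n + s) / m` mod `1` are `(g j + ρ) / m`, `j` mod `M`, where `s = g * round (s / g) + ρ`,
`|ρ| = g ‖s/g‖ ≤ g / 2`. Choose representatives with `|j| ≤ M / 2`. `j = 0` gives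
`gm K (nd (s / g) * (g / m))`; for `j ≠ 0` one has `nd ((g j + ρ) / m) ≥ (|j| - 1/2) / M`
(as `(|j| - 1/2) / M ≤ |g j + ρ| / m ≤ 1/2 + 1/(2M)`, and `|j| ≤ M / 2`), so `gm ≤ M / (2|j| - 1)`, and
the sum over `j ≠ 0` is at most `2 M ∑_{k ≤ M/2} 1/(2k - 1) ≤ M (2 + log M)`. Since `N` consecutive
integers are covered by at most `N / M + 1` periods the claim follows. -/
theorem sum_gm_le (m : ℕ) (hm : 1 ≤ m) (l s : ℤ) (K : ℝ) (hK : 1 ≤ K) (N : ℕ) :
    ∑ n ∈ range N, gm K (((l : ℝ) * n + s) / m) ≤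
      ((N : ℝ) * (Int.gcd l m) / m + 1) * (gm K (nd ((s : ℝ) / (Int.gcd l m)) * ((Int.gcd l m) / m)) +
        (m / (Int.gcd l m)) * (4 + 2 * Real.log m)) := by
  have hgpos : 0 < Int.gcd l m := Int.gcd_pos_of_ne_zero_right _ (by exact_mod_cast (by omega : m ≠ 0))
  obtain ⟨M, hM⟩ : Int.gcd l m ∣ m := by
    have := Int.gcd_dvd_right l (m : ℤ)
    exact_mod_cast this
  obtain ⟨l', hl'⟩ : ((Int.gcd l m : ℕ) : ℤ) ∣ l := Int.gcd_dvd_left l (m : ℤ)
  have hcop : IsCoprime l' (M : ℤ) := by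
    have h1 := Int.gcd_eq_gcd_ab l m
    refine ⟨Int.gcdA l m, Int.gcdB l m, ?_⟩
    have hg0 : ((Int.gcd l m : ℕ) : ℤ) ≠ 0 := by exact_mod_cast hgpos.ne'
    apply mul_left_cancel₀ hg0
    have hM' : (m : ℤ) = ((Int.gcd l m : ℕ) : ℤ) * M := by exact_mod_cast hM
    calc ((Int.gcd l m : ℕ) : ℤ) * (Int.gcdA l m * l' + Int.gcdB l m * M)
        = (((Int.gcd l m : ℕ) : ℤ) * l') * Int.gcdA l m +
            (((Int.gcd l m : ℕ) : ℤ) * M) * Int.gcdB l m := by ring
      _ = l * Int.gcdA l m + m * Int.gcdB l m := by rw [← hl', ← hM']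
      _ = ((Int.gcd l m : ℕ) : ℤ) * 1 := by rw [← h1, mul_one]
  generalize Int.gcd l m = g at *
  have hMpos : 1 ≤ M := by
    rcases Nat.eq_zero_or_pos M with h | h
    · rw [h] at hM
      omega
    · exact h
  have hMm : M ≤ m := by
    rw [hM]
    exact Nat.le_mul_of_pos_left M hgpos
  have hgR : (0 : ℝ) < g := by exact_mod_cast hgpos
  have hMR : (0 : ℝ) < M := by exact_mod_cast hMpos
  have hmR : (m : ℝ) = g * M := by exact_mod_cast hM
  have hlR : (l : ℝ) = g * l' := by exact_mod_cast hl'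
  have hMZ : (0 : ℤ) < M := by exact_mod_cast hMpos
  set r : ℤ := round ((s : ℝ) / g) with hr
  set θ : ℝ := (s : ℝ) / g - r with hθ
  have hθ2 : |θ| ≤ 1 / 2 := abs_sub_round _
  set B : ℝ := gm K (|θ| / M) + M * (4 + 2 * Real.log m) with hB
  have hBeq : gm K (nd ((s : ℝ) / g) * (g / m)) + (m / g) * (4 + 2 * Real.log m) = B := by
    have e1 : (m : ℝ) / g = M := by
      rw [hmR]
      field_simp
    have e2 : nd ((s : ℝ) / g) * (g / m) = |θ| / M := by
      have : nd ((s : ℝ) / g) = |θ| := rfl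
      rw [this, hmR]
      field_simp
    rw [e1, e2]
  rw [hBeq]
  have hlog : 0 ≤ Real.log m := Real.log_natCast_nonneg m
  have hB0 : 0 ≤ B := add_nonneg (gm_nonneg (by linarith) _) (by positivity)
  -- the value of the terms
  have hval : ∀ n : ℕ, ((l : ℝ) * n + s) / m = (((l' * n + r : ℤ) : ℝ) + θ) / M := by
    intro n
    rw [hlR, hmR, hθ]
    push_cast
    field_simp
    ring
  set F : ℕ → ℝ := fun n => gm K (((l : ℝ) * n + s) / m) with hF
  have hper : ∀ n, F (n + M) = F n := by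
    intro n
    simp only [hF]
    apply gm_congr_nd
    rw [hval, hval]
    have e : (((l' * ((n + M : ℕ) : ℤ) + r : ℤ) : ℝ) + θ) / M =
        (((l' * n + r : ℤ) : ℝ) + θ) / M + (l' : ℤ) := by
      push_cast
      field_simp
      ring
    rw [e, nd_add_int]
  have hperiod : ∑ n ∈ range M, F n ≤ B := by
    let φ : ℕ → ℕ := fun n => ((l' * n + r) % M).toNat
    have hφ : ∀ n : ℕ, ((φ n : ℕ) : ℤ) = (l' * n + r) % M := fun n =>
      Int.toNat_of_nonneg (Int.emod_nonneg _ hMZ.ne')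
    have hmaps : ∀ n ∈ range M, φ n ∈ range M := by
      intro n _
      rw [Finset.mem_range]
      have h1 := Int.emod_lt_of_pos (l' * n + r) hMZ
      rw [← hφ] at h1
      exact_mod_cast h1
    have hinj : Set.InjOn φ (range M : Finset ℕ) := by
      intro a ha b hb hab
      have ha' : a < M := by simpa using ha
      have hb' : b < M := by simpa using hb
      have h1 : (l' * a + r) % M = (l' * b + r) % M := by
        rw [← hφ, ← hφ, hab]
      have h2 : (M : ℤ) ∣ l' * ((b : ℤ) - a) := by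
        have := Int.ModEq.dvd (show (l' * a + r) ≡ (l' * b + r) [ZMOD M] from h1)
        have e : l' * ((b : ℤ) - a) = (l' * b + r) - (l' * a + r) := by ring
        rwa [e]
      have h3 : (M : ℤ) ∣ (b : ℤ) - a := hcop.symm.dvd_of_dvd_mul_left h2
      have h4 : |(b : ℤ) - a| < M := by
        rw [abs_lt]
        constructor <;> omega
      have h5 := Int.eq_zero_of_abs_lt_dvd h3 h4
      omega
    have himg : (range M).image φ = range M := by
      apply Finset.eq_of_subset_of_card_le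
      · intro x hx
        obtain ⟨n, hn, rfl⟩ := Finset.mem_image.1 hx
        exact hmaps n hn
      · rw [Finset.card_image_of_injOn hinj]
    have hsum : ∑ j ∈ range M, gm K (((j : ℝ) + θ) / M) = ∑ n ∈ range M, F n := by
      conv_lhs => rw [← himg]
      rw [Finset.sum_image hinj]
      refine Finset.sum_congr rfl fun n _ => ?_
      simp only [hF]
      apply gm_congr_nd
      rw [hval]
      have e : (((l' * n + r : ℤ) : ℝ) + θ) / M =
          (((φ n : ℕ) : ℝ) + θ) / M + (((l' * n + r) / M : ℤ) : ℝ) := by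
        have h6 : ((φ n : ℕ) : ℤ) + M * ((l' * n + r) / M) = l' * n + r := by
          rw [hφ]
          exact Int.emod_add_mul_ediv _ _
        have h7 : ((φ n : ℕ) : ℝ) + M * (((l' * n + r) / M : ℤ) : ℝ) = ((l' * n + r : ℤ) : ℝ) := by
          exact_mod_cast h6
        rw [← h7]
        field_simp
        ring
      rw [e, nd_add_int]
    rw [← hsum]
    exact sum_residues_le M m hMpos hMm θ K hK hθ2
  have hcover : ∑ n ∈ range N, F n ≤ ∑ n ∈ range (M * (N / M + 1)), F n := by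
    apply Finset.sum_le_sum_of_subset_of_nonneg
    · intro n hn
      rw [Finset.mem_range] at hn ⊢
      exact hn.trans (Nat.lt_mul_div_succ N hMpos)
    · intro n _ _
      exact gm_nonneg (by linarith) _
  rw [sum_periodic F M hper] at hcover
  have hq : ((N / M + 1 : ℕ) : ℝ) ≤ (N : ℝ) * g / m + 1 := by
    have h8 : ((N / M : ℕ) : ℝ) ≤ (N : ℝ) / M := Nat.cast_div_le
    have e : (N : ℝ) * g / m = (N : ℝ) / M := by
      rw [hmR]
      field_simp
    rw [e]
    push_cast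
    linarith
  calc ∑ n ∈ range N, F n ≤ ((N / M + 1 : ℕ) : ℝ) * ∑ n ∈ range M, F n := hcover
    _ ≤ ((N / M + 1 : ℕ) : ℝ) * B := mul_le_mul_of_nonneg_left hperiod (Nat.cast_nonneg _)
    _ ≤ _ := mul_le_mul_of_nonneg_right hq hB0

end Pool.Agent.H10.RP
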