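import Mathlib

/-!
# Reversed primes: definitions

Project RP (MP_134091_nt): for every base `b ≥ 2` all but `O(X / (log X)^A)` of the admissible
integers `M ≤ X` are sums of a reversed prime and a prime.
-/

set_option autoImplicit false

open Finset

namespace Pool.Agent.H10.RP

/-- `e(x) = exp(2πix)` -/
noncomputable def ee (x : ℝ) : ℂ := Complex.exp (2 * Real.pi * x * Complex.I)

/-- distance to the nearest integer -/
noncomputable def nd (x : ℝ) : ℝ := |x - round x|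

/-- `min (K, 1 / (2‖x‖))` -/
noncomputable def gm (K x : ℝ) : ℝ := if 2 * K * nd x ≤ 1 then K else 1 / (2 * nd x)

/-- the `i`-th digit of `n` in base `q` -/
def dg (q i n : ℕ) : ℕ := n / q ^ i % q

/-- the digit function built from the `J` lowest digits -/
noncomputable def fd (q : ℕ) (φ : ℕ → ℕ → ℂ) (J n : ℕ) : ℂ := ∏ i ∈ range J, φ i (dg q i n)

/-- all digit functions are unimodular -/
def Uni (φ : ℕ → ℕ → ℂ) : Prop := ∀ i a, ‖φ i a‖ = 1

/-- modulus of the normalised Fourier transform of `φ i` at `y` -/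
noncomputable def Ps (q : ℕ) (φ : ℕ → ℕ → ℂ) (i : ℕ) (y : ℝ) : ℝ :=
  ‖∑ a ∈ range q, φ i a * ee (-(a * y))‖ / q

/-- the product of the first `δ` of the `lam` levels: level `j` belongs to the digit
`lam - 1 - j` -/
noncomputable def PP (q : ℕ) (φ : ℕ → ℕ → ℂ) (lam δ c : ℕ) : ℝ :=
  ∏ j ∈ range δ, Ps q φ (lam - 1 - j) (c / (q : ℝ) ^ (j + 1))

/-- normalised Fourier coefficient of the truncated digit function -/
noncomputable def Fc (q : ℕ) (φ : ℕ → ℕ → ℂ) (lam h : ℕ) : ℂ :=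
  (∑ n ∈ range (q ^ lam), fd q φ lam n * ee (-((h : ℝ) * n / (q : ℝ) ^ lam))) / (q : ℂ) ^ lam

/-- twist by `e(α n)` -/
noncomputable def tw (q : ℕ) (α : ℝ) (φ : ℕ → ℕ → ℂ) (i a : ℕ) : ℂ :=
  φ i a * ee (α * a * (q : ℝ) ^ i)

/-- strictness of Cauchy's inequality at one level, for every proper divisor `e` of `q`; for
`q = 4` (pairs of binary digits) the divisor `2` is excluded. -/
def Str (q : ℕ) (φ : ℕ → ℕ → ℂ) (κ : ℝ) : Prop :=
  ∀ e : ℕ, e ∣ q → e ≠ q → (q = 4 ∧ e = 2) ∨ ∀ (i : ℕ) (y : ℝ),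
    ∑ τ ∈ range e, (∑ t ∈ (range q).filter (fun t => t % e = τ), Ps q φ i (y + t / q)) ^ 2 ≤
      κ * (q / e)

/-- `∑_{c mod g} (∑_{h ≡ c mod g} PP h)²` -/
noncomputable def AA (q : ℕ) (φ : ℕ → ℕ → ℂ) (lam δ g : ℕ) : ℝ :=
  ∑ c ∈ range g, (∑ h ∈ (range (q ^ δ)).filter (fun h => h % g = c), PP q φ lam δ h) ^ 2

/-- the reverse of the `L`-digit string of `n` in base `b` -/
def revL (b L n : ℕ) : ℕ := ∑ i ∈ range L, dg b i n * b ^ (L - 1 - i)

/-- von Mangoldt as a complex number -/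
noncomputable def Lam (n : ℕ) : ℂ := ((ArithmeticFunction.vonMangoldt n : ℝ) : ℂ)

end Pool.Agent.H10.RP
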