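import Pool.Agent.H10.RP.Defs

/-!
# Reversed primes: finite Fourier analysis of digit functions (job RP-1)

Everything here is elementary. `sum_fd` : unfold the base `q` expansion (induction on `J`:
`n = n' + q ^ J a` with `n' < q ^ J`, `a < q`). `norm_Fc`: for `n < q ^ lam` one has
`n = ∑ i < lam, dg q i n * q ^ i`, so `fd q φ lam n * ee (-(h n / q ^ lam))` is `fd q φ' lam n` with
`φ' i a = φ i a * ee (-(a * (h / q ^ (lam - i))))`; apply `sum_fd`, take norms and reindex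
`i = lam - 1 - j`. `fd_fourier`: orthogonality `sum_ee_mod` and `fd_mod`.
`Ps_parseval`: expand the square and use orthogonality. `PP_parseval`: induction on `δ`, writing
`c = c' + q ^ δ t`, `c' < q ^ δ`, `t < q`:
`PP (δ + 1) c = PP δ c' * Ps _ _ (c' / q ^ (δ + 1) + t / q)`.
-/

set_option autoImplicit false

open Finset
open scoped ComplexConjugate

namespace Pool.Agent.H10.RP

theorem ft_ee_eq (x : ℝ) : ee x = Complex.exp (((2 * Real.pi * x : ℝ) : ℂ) * Complex.I) := by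
  unfold ee
  push_cast
  rfl

theorem norm_ee (x : ℝ) : ‖ee x‖ = 1 := by
  rw [ft_ee_eq, Complex.norm_exp_ofReal_mul_I]

theorem ee_zero : ee 0 = 1 := by
  simp [ee]

theorem ee_add (x y : ℝ) : ee (x + y) = ee x * ee y := by
  unfold ee
  rw [← Complex.exp_add]
  congr 1
  push_cast
  ring

theorem conj_ee (x : ℝ) : conj (ee x) = ee (-x) := by
  rw [ft_ee_eq, ft_ee_eq, ← Complex.exp_conj, map_mul, Complex.conj_ofReal, Complex.conj_I]
  congr 1
  push_cast
  ring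

theorem ee_int (n : ℤ) : ee n = 1 := by
  unfold ee
  rw [Complex.exp_eq_one_iff]
  exact ⟨n, by push_cast; ring⟩

theorem ee_congr {x y : ℝ} (h : ∃ n : ℤ, x - y = n) : ee x = ee y := by
  obtain ⟨n, hn⟩ := h
  have e : x = y + n := by linarith
  rw [e, ee_add, ee_int, mul_one]

theorem ft_ee_ne_zero (x : ℝ) : ee x ≠ 0 := Complex.exp_ne_zero _

theorem ft_ee_nat_mul (h : ℕ) (x : ℝ) : ee (h * x) = ee x ^ h := by
  induction h with
  | zero => simp [ee_zero]
  | succ h ih =>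
    have e : ((h + 1 : ℕ) : ℝ) * x = h * x + x := by push_cast; ring
    rw [e, ee_add, ih, pow_succ]

theorem ft_prod_ee {ι : Type*} (s : Finset ι) (f : ι → ℝ) : ∏ i ∈ s, ee (f i) = ee (∑ i ∈ s, f i) := by
  classical
  induction s using Finset.induction_on with
  | empty => simp [ee_zero]
  | insert a s ha ih => rw [prod_insert ha, sum_insert ha, ih, ee_add]

/-- `|e(x) - e(y)| ≤ 2π|x - y|` -/
theorem norm_ee_sub_le (x y : ℝ) : ‖ee x - ee y‖ ≤ 2 * Real.pi * |x - y| := by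
  have e : ee x - ee y = ee y * (ee (x - y) - 1) := by
    rw [mul_sub, ← ee_add, mul_one]
    congr 2
    ring
  rw [e, norm_mul, norm_ee, one_mul, ft_ee_eq, mul_comm _ Complex.I]
  refine (Real.norm_exp_I_mul_ofReal_sub_one_le).trans ?_
  rw [Real.norm_eq_abs, abs_mul, abs_of_nonneg (by positivity : (0 : ℝ) ≤ 2 * Real.pi)]

theorem ft_ee_eq_one {x : ℝ} (h : ee x = 1) : ∃ n : ℤ, x = n := by
  unfold ee at h
  rw [Complex.exp_eq_one_iff] at h
  obtain ⟨n, hn⟩ := h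
  refine ⟨n, ?_⟩
  have h1 : (x : ℂ) * (2 * Real.pi * Complex.I) = n * (2 * Real.pi * Complex.I) := by
    rw [← hn]; ring
  have h2 : (x : ℂ) = n := mul_right_cancel₀ Complex.two_pi_I_ne_zero h1
  exact_mod_cast h2

theorem sum_ee_mod (m : ℕ) (hm : 0 < m) (k : ℤ) :
    ∑ h ∈ range m, ee ((h : ℝ) * k / m) = if (m : ℤ) ∣ k then (m : ℂ) else 0 := by
  have hm' : (m : ℝ) ≠ 0 := by exact_mod_cast hm.ne'
  have e : ∀ h ∈ range m, ee ((h : ℝ) * k / m) = ee ((k : ℝ) / m) ^ h := by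
    intro h _
    rw [← ft_ee_nat_mul]
    congr 1
    ring
  rw [sum_congr rfl e]
  split_ifs with hdiv
  · obtain ⟨t, rfl⟩ := hdiv
    have e1 : ee (((m : ℤ) * t : ℤ) / (m : ℝ)) = 1 := by
      have : (((m : ℤ) * t : ℤ) : ℝ) / (m : ℝ) = ((t : ℤ) : ℝ) := by
        push_cast
        field_simp
      rw [this, ee_int]
    rw [e1]
    simp
  · have hne : ee ((k : ℝ) / m) ≠ 1 := by
      intro h1
      obtain ⟨n, hn⟩ := ft_ee_eq_one h1
      apply hdiv
      refine ⟨n, ?_⟩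
      rw [div_eq_iff hm'] at hn
      have : (k : ℝ) = ((m * n : ℤ) : ℝ) := by
        rw [hn]; push_cast; ring
      exact_mod_cast this
    rw [geom_sum_eq hne, ← ft_ee_nat_mul]
    have : (m : ℝ) * ((k : ℝ) / m) = ((k : ℤ) : ℝ) := by field_simp
    rw [this, ee_int, sub_self, zero_div]

variable {q : ℕ} (φ : ℕ → ℕ → ℂ)

theorem norm_fd (hφ : Uni φ) (J n : ℕ) : ‖fd q φ J n‖ = 1 := by
  unfold fd
  rw [norm_prod]
  exact prod_eq_one fun i _ => hφ i _

theorem ft_dg_add (i lam r t : ℕ) (hi : i < lam) : dg q i (r + q ^ lam * t) = dg q i r := by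
  unfold dg
  rcases Nat.eq_zero_or_pos q with h0 | h0
  · subst h0
    have : (0 : ℕ) ^ lam = 0 := Nat.zero_pow (by omega)
    rw [this, zero_mul, add_zero]
  · obtain ⟨d, rfl⟩ : ∃ d, lam = i + (d + 1) := ⟨lam - i - 1, by omega⟩
    have e : r + q ^ (i + (d + 1)) * t = r + q ^ i * (q * (q ^ d * t)) := by ring
    rw [e, Nat.add_mul_div_left _ _ (by positivity), Nat.add_mul_mod_self_left]

theorem ft_fd_add (lam r t : ℕ) : fd q φ lam (r + q ^ lam * t) = fd q φ lam r := by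
  unfold fd
  apply prod_congr rfl
  intro i hi
  rw [ft_dg_add i lam r t (mem_range.1 hi)]

theorem fd_mod (lam n : ℕ) : fd q φ lam (n % q ^ lam) = fd q φ lam n := by
  conv_rhs => rw [← Nat.mod_add_div n (q ^ lam)]
  rw [ft_fd_add]

theorem ft_sum_range_mul_eq {M : Type*} [AddCommMonoid M] (m k : ℕ) (f : ℕ → M) :
    ∑ n ∈ range (m * k), f n = ∑ a ∈ range k, ∑ r ∈ range m, f (r + m * a) := by
  induction k with
  | zero => simp
  | succ k ih =>
    rw [Nat.mul_succ, sum_range_add, ih, sum_range_succ]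
    congr 1
    apply sum_congr rfl
    intro r _
    rw [add_comm]

theorem ft_fd_succ_add (J r a : ℕ) (hr : r < q ^ J) (ha : a < q) :
    fd q φ (J + 1) (r + q ^ J * a) = fd q φ J r * φ J a := by
  have hq : 0 < q := by omega
  unfold fd
  rw [prod_range_succ]
  congr 1
  · apply prod_congr rfl
    intro i hi
    rw [ft_dg_add i J r a (mem_range.1 hi)]
  · congr 1
    unfold dg
    rw [Nat.add_mul_div_left _ _ (by positivity), Nat.div_eq_of_lt hr, zero_add,
      Nat.mod_eq_of_lt ha]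

theorem sum_fd (hq : 2 ≤ q) (J : ℕ) :
    ∑ n ∈ range (q ^ J), fd q φ J n = ∏ i ∈ range J, ∑ a ∈ range q, φ i a := by
  induction J with
  | zero => simp [fd]
  | succ J ih =>
    rw [pow_succ, ft_sum_range_mul_eq, prod_range_succ, ← ih, mul_sum]
    apply sum_congr rfl
    intro a ha
    rw [sum_mul]
    apply sum_congr rfl
    intro r hr
    exact ft_fd_succ_add φ J r a (mem_range.1 hr) (mem_range.1 ha)

theorem ft_sum_dg (J n : ℕ) : ∑ i ∈ range J, dg q i n * q ^ i = n % q ^ J := by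
  induction J with
  | zero => simp [Nat.mod_one]
  | succ J ih =>
    rw [sum_range_succ, ih, Nat.mod_pow_succ]
    unfold dg
    ring

/-- the twist of a digit function by `e(α n)` -/
theorem fd_tw (hq : 2 ≤ q) (α : ℝ) (J n : ℕ) (hn : n < q ^ J) :
    fd q (tw q α φ) J n = fd q φ J n * ee (α * n) := by
  unfold fd tw
  rw [prod_mul_distrib, ft_prod_ee]
  congr 2
  have h := ft_sum_dg (q := q) J n
  rw [Nat.mod_eq_of_lt hn] at h
  conv_rhs => rw [← h]
  push_cast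
  rw [mul_sum]
  apply sum_congr rfl
  intro i _
  ring

theorem uni_tw (hφ : Uni φ) (α : ℝ) : Uni (tw q α φ) := by
  intro i a
  unfold tw
  rw [norm_mul, norm_ee, mul_one]
  exact hφ i a

theorem fd_fourier (hq : 2 ≤ q) (lam n : ℕ) :
    fd q φ lam n = ∑ h ∈ range (q ^ lam), Fc q φ lam h * ee ((h : ℝ) * n / (q : ℝ) ^ lam) := by
  have hQ : 0 < q ^ lam := by positivity
  have hQc : ((q : ℂ) ^ lam) ≠ 0 := by
    have : (q : ℂ) ≠ 0 := by exact_mod_cast (by omega : q ≠ 0)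
    exact pow_ne_zero _ this
  have e1 : ∑ h ∈ range (q ^ lam), Fc q φ lam h * ee ((h : ℝ) * n / (q : ℝ) ^ lam) =
      (∑ m ∈ range (q ^ lam), fd q φ lam m *
        ∑ h ∈ range (q ^ lam), ee ((h : ℝ) * ((n : ℤ) - (m : ℤ) : ℤ) / ((q ^ lam : ℕ) : ℝ))) /
        (q : ℂ) ^ lam := by
    unfold Fc
    rw [eq_div_iff hQc, sum_mul]
    have e2 : ∀ h ∈ range (q ^ lam), (∑ n ∈ range (q ^ lam), fd q φ lam n *
        ee (-((h : ℝ) * n / (q : ℝ) ^ lam))) / (q : ℂ) ^ lam *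
        ee ((h : ℝ) * n / (q : ℝ) ^ lam) * (q : ℂ) ^ lam =
        ∑ m ∈ range (q ^ lam), fd q φ lam m *
          ee ((h : ℝ) * ((n : ℤ) - (m : ℤ) : ℤ) / ((q ^ lam : ℕ) : ℝ)) := by
      intro h _
      rw [mul_assoc, mul_comm (ee _) ((q : ℂ) ^ lam), ← mul_assoc, div_mul_cancel₀ _ hQc, sum_mul]
      apply sum_congr rfl
      intro m _
      rw [mul_assoc, ← ee_add]
      congr 2
      push_cast
      ring
    rw [sum_congr rfl e2, sum_comm]
    apply sum_congr rfl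
    intro m _
    rw [mul_sum]
  rw [e1, eq_div_iff hQc]
  have e3 : ∀ m ∈ range (q ^ lam), fd q φ lam m *
      ∑ h ∈ range (q ^ lam), ee ((h : ℝ) * ((n : ℤ) - (m : ℤ) : ℤ) / ((q ^ lam : ℕ) : ℝ)) =
      if m = n % q ^ lam then fd q φ lam n * (q : ℂ) ^ lam else 0 := by
    intro m hm
    rw [sum_ee_mod (q ^ lam) hQ]
    have hiff : ((q ^ lam : ℕ) : ℤ) ∣ (n : ℤ) - (m : ℤ) ↔ m = n % q ^ lam := by
      rw [mem_range] at hm
      constructor
      · intro hd
        have h1 : m ≡ n [MOD q ^ lam] := (Nat.modEq_iff_dvd).2 hd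
        unfold Nat.ModEq at h1
        rw [Nat.mod_eq_of_lt hm] at h1
        exact h1
      · intro h1
        apply (Nat.modEq_iff_dvd).1
        unfold Nat.ModEq
        rw [Nat.mod_eq_of_lt hm]
        exact h1
    by_cases hc : m = n % q ^ lam
    · rw [if_pos (hiff.2 hc), if_pos hc, hc, fd_mod]
      push_cast
      ring
    · rw [if_neg (fun h' => hc (hiff.1 h')), if_neg hc, mul_zero]
  rw [sum_congr rfl e3, sum_ite_eq', if_pos (mem_range.2 (Nat.mod_lt _ hQ))]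

theorem norm_Fc (hq : 2 ≤ q) (lam h : ℕ) : ‖Fc q φ lam h‖ = PP q φ lam lam h := by
  have hq0 : (q : ℝ) ≠ 0 := by exact_mod_cast (by omega : q ≠ 0)
  set α : ℝ := -((h : ℝ) / (q : ℝ) ^ lam) with hα
  have e1 : ∑ n ∈ range (q ^ lam), fd q φ lam n * ee (-((h : ℝ) * n / (q : ℝ) ^ lam)) =
      ∏ i ∈ range lam, ∑ a ∈ range q, tw q α φ i a := by
    rw [← sum_fd (tw q α φ) hq]
    apply sum_congr rfl
    intro n hn
    rw [fd_tw φ hq α lam n (mem_range.1 hn)]
    congr 2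
    rw [hα]
    ring
  have e2 : ‖Fc q φ lam h‖ = ∏ i ∈ range lam, Ps q φ i (h / (q : ℝ) ^ (lam - i)) := by
    unfold Fc
    rw [e1, norm_div, norm_prod, norm_pow, Complex.norm_natCast]
    have e3 : (q : ℝ) ^ lam = ∏ _i ∈ range lam, (q : ℝ) := by simp
    rw [e3, ← prod_div_distrib]
    apply prod_congr rfl
    intro i hi
    unfold Ps tw
    congr 2
    apply sum_congr rfl
    intro a _
    congr 2
    have hi' := mem_range.1 hi
    have e4 : (q : ℝ) ^ lam = (q : ℝ) ^ i * (q : ℝ) ^ (lam - i) := by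
      rw [← pow_add]
      congr 1
      omega
    rw [hα, e4]
    have h1 : (q : ℝ) ^ i ≠ 0 := pow_ne_zero _ hq0
    have h2 : (q : ℝ) ^ (lam - i) ≠ 0 := pow_ne_zero _ hq0
    field_simp
  rw [e2]
  unfold PP
  rw [← prod_range_reflect (fun i => Ps q φ i (h / (q : ℝ) ^ (lam - i))) lam]
  apply prod_congr rfl
  intro j hj
  have hj' := mem_range.1 hj
  have e5 : lam - (lam - 1 - j) = j + 1 := by omega
  rw [e5]

theorem Ps_nonneg (i : ℕ) (y : ℝ) : 0 ≤ Ps q φ i y :=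
  div_nonneg (norm_nonneg _) (Nat.cast_nonneg _)

theorem Ps_le_one (hφ : Uni φ) (i : ℕ) (y : ℝ) : Ps q φ i y ≤ 1 := by
  unfold Ps
  apply div_le_one_of_le₀ _ (Nat.cast_nonneg _)
  refine (norm_sum_le _ _).trans ?_
  have e : ∀ a ∈ range q, ‖φ i a * ee (-(a * y))‖ = 1 := by
    intro a _
    rw [norm_mul, norm_ee, hφ, one_mul]
  rw [sum_congr rfl e]
  simp

theorem Ps_int (i : ℕ) (y : ℝ) (n : ℤ) : Ps q φ i (y + n) = Ps q φ i y := by
  unfold Ps
  congr 2
  apply sum_congr rfl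
  intro a _
  congr 1
  apply ee_congr
  exact ⟨-(a * n), by push_cast; ring⟩

theorem Ps_parseval (hq : 2 ≤ q) (hφ : Uni φ) (i : ℕ) (y : ℝ) :
    ∑ t ∈ range q, Ps q φ i (y + t / q) ^ 2 = 1 := by
  have hq0 : 0 < q := by omega
  have hqr : (q : ℝ) ≠ 0 := by exact_mod_cast hq0.ne'
  have hqc : (q : ℂ) ≠ 0 := by exact_mod_cast hq0.ne'
  -- the sum of the squared norms
  have key : ∑ t ∈ range q, ((‖∑ a ∈ range q, φ i a * ee (-(a * (y + t / q)))‖ ^ 2 : ℝ) : ℂ) =
      (q : ℂ) ^ 2 := by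
    have e1 : ∀ t ∈ range q, ((‖∑ a ∈ range q, φ i a * ee (-(a * (y + t / q)))‖ ^ 2 : ℝ) : ℂ) =
        ∑ a ∈ range q, ∑ b ∈ range q, φ i a * conj (φ i b) * ee (((b : ℝ) - a) * y) *
          ee ((t : ℝ) * ((b : ℤ) - (a : ℤ) : ℤ) / q) := by
      intro t _
      rw [← Complex.normSq_eq_norm_sq, ← Complex.mul_conj, map_sum, sum_mul_sum]
      apply sum_congr rfl
      intro a _
      apply sum_congr rfl
      intro b _
      rw [map_mul, conj_ee]
      have e2 : φ i a * ee (-(a * (y + t / q))) * (conj (φ i b) * ee (-(-(b * (y + t / q))))) =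
          φ i a * conj (φ i b) * (ee (-(a * (y + t / q))) * ee (-(-(b * (y + t / q))))) := by ring
      rw [e2, ← ee_add, mul_assoc _ (ee _) (ee _), ← ee_add]
      congr 2
      push_cast
      ring
    rw [sum_congr rfl e1, sum_comm]
    have e3 : ∀ a ∈ range q, ∑ t ∈ range q, ∑ b ∈ range q, φ i a * conj (φ i b) *
        ee (((b : ℝ) - a) * y) * ee ((t : ℝ) * ((b : ℤ) - (a : ℤ) : ℤ) / q) = q := by
      intro a ha
      rw [sum_comm]
      have e4 : ∀ b ∈ range q, ∑ t ∈ range q, φ i a * conj (φ i b) *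
          ee (((b : ℝ) - a) * y) * ee ((t : ℝ) * ((b : ℤ) - (a : ℤ) : ℤ) / q) =
          if b = a then (q : ℂ) else 0 := by
        intro b hb
        rw [← mul_sum, sum_ee_mod q hq0]
        by_cases hab : b = a
        · subst hab
          rw [if_pos rfl, if_pos (by simp : (q : ℤ) ∣ (b : ℤ) - (b : ℤ))]
          have e5 : φ i b * conj (φ i b) = 1 := by
            rw [Complex.mul_conj, Complex.normSq_eq_norm_sq, hφ]
            simp
          rw [e5, sub_self, zero_mul, ee_zero, one_mul, one_mul]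
        · rw [if_neg hab, if_neg, mul_zero]
          intro hd
          apply hab
          have h1 : a ≡ b [MOD q] := (Nat.modEq_iff_dvd).2 hd
          unfold Nat.ModEq at h1
          rw [Nat.mod_eq_of_lt (mem_range.1 ha), Nat.mod_eq_of_lt (mem_range.1 hb)] at h1
          exact h1.symm
      rw [sum_congr rfl e4, sum_ite_eq', if_pos ha]
    rw [sum_congr rfl e3, sum_const, card_range, nsmul_eq_mul, sq]
  have key' : ∑ t ∈ range q, ‖∑ a ∈ range q, φ i a * ee (-(a * (y + t / q)))‖ ^ 2 =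
      (q : ℝ) ^ 2 := by
    exact_mod_cast key
  have e6 : ∀ t ∈ range q, Ps q φ i (y + t / q) ^ 2 =
      ‖∑ a ∈ range q, φ i a * ee (-(a * (y + t / q)))‖ ^ 2 / (q : ℝ) ^ 2 := by
    intro t _
    unfold Ps
    rw [div_pow]
  rw [sum_congr rfl e6, ← sum_div, key', div_self (pow_ne_zero _ hqr)]

theorem PP_nonneg (lam δ c : ℕ) : 0 ≤ PP q φ lam δ c :=
  prod_nonneg fun _ _ => Ps_nonneg φ _ _

theorem PP_le_one (hφ : Uni φ) (lam δ c : ℕ) : PP q φ lam δ c ≤ 1 :=
  prod_le_one (fun _ _ => Ps_nonneg φ _ _) (fun _ _ => Ps_le_one φ hφ _ _)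

theorem ft_PP_add (hq : 2 ≤ q) (lam δ r t : ℕ) : PP q φ lam δ (r + q ^ δ * t) = PP q φ lam δ r := by
  have hqr : (q : ℝ) ≠ 0 := by exact_mod_cast (by omega : q ≠ 0)
  unfold PP
  apply prod_congr rfl
  intro j hj
  have hj' := mem_range.1 hj
  have e : ((r + q ^ δ * t : ℕ) : ℝ) / (q : ℝ) ^ (j + 1) =
      (r : ℝ) / (q : ℝ) ^ (j + 1) + ((q ^ (δ - (j + 1)) * t : ℕ) : ℤ) := by
    have e1 : (q : ℝ) ^ δ = (q : ℝ) ^ (j + 1) * (q : ℝ) ^ (δ - (j + 1)) := by
      rw [← pow_add]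
      congr 1
      omega
    push_cast
    rw [e1]
    have h1 : (q : ℝ) ^ (j + 1) ≠ 0 := pow_ne_zero _ hqr
    field_simp
  rw [e, Ps_int]

theorem PP_mod (hq : 2 ≤ q) (lam δ c : ℕ) : PP q φ lam δ (c % q ^ δ) = PP q φ lam δ c := by
  conv_rhs => rw [← Nat.mod_add_div c (q ^ δ)]
  rw [ft_PP_add φ hq]

theorem PP_succ (lam δ c : ℕ) :
    PP q φ lam (δ + 1) c = PP q φ lam δ c * Ps q φ (lam - 1 - δ) (c / (q : ℝ) ^ (δ + 1)) := by
  unfold PP
  rw [prod_range_succ]

theorem PP_anti (hφ : Uni φ) (lam : ℕ) {δ δ' : ℕ} (h : δ ≤ δ') (c : ℕ) :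
    PP q φ lam δ' c ≤ PP q φ lam δ c := by
  induction δ', h using Nat.le_induction with
  | base => exact le_rfl
  | succ δ' _ ih =>
    rw [PP_succ]
    refine le_trans ?_ ih
    exact mul_le_of_le_one_right (PP_nonneg φ _ _ _) (Ps_le_one φ hφ _ _)

theorem PP_parseval (hq : 2 ≤ q) (hφ : Uni φ) (lam δ : ℕ) :
    ∑ c ∈ range (q ^ δ), PP q φ lam δ c ^ 2 = 1 := by
  have hqr : (q : ℝ) ≠ 0 := by exact_mod_cast (by omega : q ≠ 0)
  induction δ with
  | zero => simp [PP]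
  | succ δ ih =>
    rw [pow_succ, ft_sum_range_mul_eq, sum_comm, ← ih]
    apply sum_congr rfl
    intro r _
    have e : ∀ a ∈ range q, PP q φ lam (δ + 1) (r + q ^ δ * a) ^ 2 = PP q φ lam δ r ^ 2 *
        Ps q φ (lam - 1 - δ) ((r : ℝ) / (q : ℝ) ^ (δ + 1) + a / q) ^ 2 := by
      intro a _
      rw [PP_succ, ft_PP_add φ hq, mul_pow]
      congr 3
      push_cast
      rw [pow_succ]
      have h1 : (q : ℝ) ^ δ ≠ 0 := pow_ne_zero _ hqr
      field_simp
    rw [sum_congr rfl e, ← mul_sum, Ps_parseval φ hq hφ, mul_one]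

end Pool.Agent.H10.RP
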