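import Pool.Agent.H10.RP.Sine

/-!
# Reversed primes: sums of `min (M, 1/‖α h‖)` (job RP-16a)

PROOF of `block_gm`. For `|α - a/q| ≤ 1/q²` split `h` into blocks of length `q`; for `h = h0 + j`, `0 ≤ j < q`,
`α h = α h0 + a j / q + θ`, `|θ| ≤ 1/q`. As `j` runs over a block, `a j` runs over all residues mod `q`. So, with
`α h0 = (s + ρ) / q`, `s` an integer, `|ρ| ≤ 1/2`, `‖α h‖ ≥ (‖·‖ of (s + a j) / q) - 3 / (2 q)`: at most `5`
values of `j` where we use `gm ≤ M`, and for the others the distance of `s + a j` to the multiples of `q`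
is `k ≥ 2`, each `k` for at most two `j`, and `gm ≤ q / (2 (k - 3/2)) `; the sum over `2 ≤ k ≤ q / 2` is at
most `C q log (2 q)`. The number of blocks is at most `H / q + 1`.

PROOF of `small_gm`. For `1 ≤ m ≤ q / 2`: `|α m - a m / q| ≤ 1/(2 q)`, the residues `a m` mod `q` are distinct and
not `0`, so `‖α m‖ ≥ k / q - 1/(2 q) ≥ k / (2 q)`, where `k ≥ 1` is the distance of `a m` to `q ℤ`, and each `k` occurs
at most twice; `gm ≤ 1 / (2 ‖α m‖) ≤ q / k`.
-/

set_option autoImplicit false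

open Finset

namespace Pool.Agent.H10.RP

/-- the distance of the integer `n` to the multiples of `q` -/
private noncomputable def gd (q : ℕ) (n : ℤ) : ℕ := (n - q * round ((n : ℝ) / q)).natAbs

private theorem gd_nd {q : ℕ} (hq : 1 ≤ q) (n : ℤ) : nd ((n : ℝ) / q) = (gd q n : ℝ) / q := by
  have hq0 : (0 : ℝ) < q := by exact_mod_cast hq
  have h1 : (gd q n : ℝ) = |(n : ℝ) - q * round ((n : ℝ) / q)| := by
    unfold gd
    rw [Nat.cast_natAbs]
    push_cast
    rfl
  unfold nd
  rw [h1, eq_div_iff hq0.ne', ← abs_of_pos hq0, ← abs_mul, abs_of_pos hq0]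
  congr 1
  field_simp

private theorem gd_le {q : ℕ} (hq : 1 ≤ q) (n : ℤ) : gd q n ≤ q := by
  have hq0 : (0 : ℝ) < q := by exact_mod_cast hq
  have h1 := nd_le_half ((n : ℝ) / q)
  rw [gd_nd hq, div_le_iff₀ hq0] at h1
  have h2 : (gd q n : ℝ) ≤ q := by linarith
  exact_mod_cast h2

private theorem gd_cases {q : ℕ} {n : ℤ} {k : ℕ} (h : gd q n = k) :
    (q : ℤ) ∣ n - k ∨ (q : ℤ) ∣ n + k := by
  unfold gd at h
  rcases Int.natAbs_eq (n - q * round ((n : ℝ) / q)) with h1 | h1
  · left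
    rw [h] at h1
    exact ⟨round ((n : ℝ) / q), by linarith⟩
  · right
    rw [h] at h1
    exact ⟨round ((n : ℝ) / q), by linarith⟩

/-- fibres -/
private theorem gd_fib {q : ℕ} {S : Finset ℕ} {f : ℕ → ℤ}
    (hinj : ∀ i ∈ S, ∀ j ∈ S, (q : ℤ) ∣ f i - f j → i = j) (k : ℕ) :
    (S.filter (fun j => gd q (f j) = k)).card ≤ 2 := by
  classical
  have h1 : S.filter (fun j => gd q (f j) = k) ⊆
      S.filter (fun j => (q : ℤ) ∣ f j - k) ∪ S.filter (fun j => (q : ℤ) ∣ f j + k) := by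
    intro j hj
    rw [Finset.mem_filter] at hj
    rw [Finset.mem_union, Finset.mem_filter, Finset.mem_filter]
    rcases gd_cases hj.2 with h | h
    · exact Or.inl ⟨hj.1, h⟩
    · exact Or.inr ⟨hj.1, h⟩
  have h2 : (S.filter (fun j => (q : ℤ) ∣ f j - k)).card ≤ 1 := by
    rw [Finset.card_le_one]
    intro i hi j hj
    rw [Finset.mem_filter] at hi hj
    refine hinj i hi.1 j hj.1 ?_
    have := dvd_sub hi.2 hj.2
    have h3 : f i - k - (f j - k) = f i - f j := by ring
    rwa [h3] at this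
  have h3 : (S.filter (fun j => (q : ℤ) ∣ f j + k)).card ≤ 1 := by
    rw [Finset.card_le_one]
    intro i hi j hj
    rw [Finset.mem_filter] at hi hj
    refine hinj i hi.1 j hj.1 ?_
    have := dvd_sub hi.2 hj.2
    have h4 : f i + k - (f j + k) = f i - f j := by ring
    rwa [h4] at this
  have h4 := (Finset.card_le_card h1).trans (Finset.card_union_le _ _)
  omega

private theorem gd_sum {q : ℕ} (hq : 1 ≤ q) {S : Finset ℕ} {f : ℕ → ℤ}
    (hinj : ∀ i ∈ S, ∀ j ∈ S, (q : ℤ) ∣ f i - f j → i = j) (w : ℕ → ℝ) (hw : ∀ k, 0 ≤ w k) :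
    ∑ j ∈ S, w (gd q (f j)) ≤ 2 * ∑ k ∈ range (q + 1), w k := by
  classical
  rw [← Finset.sum_fiberwise_of_maps_to (s := S) (t := range (q + 1)) (g := fun j => gd q (f j))
    (fun j _ => Finset.mem_range.2 (Nat.lt_succ_of_le (gd_le hq _))), Finset.mul_sum]
  refine Finset.sum_le_sum fun k _ => ?_
  have h1 : ∑ j ∈ S.filter (fun j => gd q (f j) = k), w (gd q (f j)) =
      (S.filter (fun j => gd q (f j) = k)).card * w k := by
    rw [Finset.sum_congr rfl (fun j hj => by rw [(Finset.mem_filter.1 hj).2]), Finset.sum_const,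
      nsmul_eq_mul]
  rw [h1]
  refine mul_le_mul_of_nonneg_right ?_ (hw k)
  exact_mod_cast gd_fib hinj k

private theorem gm_le_inv_of_le {K t : ℝ} {x : ℝ} (ht : 0 < t) (h : t ≤ nd x) : gm K x ≤ 1 / (2 * t) := by
  unfold gm
  have h0 : 0 < nd x := lt_of_lt_of_le ht h
  have h1 : 1 / (2 * nd x) ≤ 1 / (2 * t) :=
    one_div_le_one_div_of_le (by positivity) (by linarith)
  split_ifs with h2
  · refine le_trans ?_ h1
    rw [le_div_iff₀ (by positivity)]
    linarith
  · exact h1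

private theorem nd_sub_le (x y : ℝ) : nd y - |x - y| ≤ nd x := by
  have h1 := nd_add_le (y - x) x
  have h2 : nd (y - x) ≤ |x - y| := by
    have := nd_le (y - x) 0
    rw [Int.cast_zero, sub_zero, abs_sub_comm] at this
    exact this
  have h3 : y - x + x = y := by ring
  rw [h3] at h1
  linarith

private theorem harm_le (q : ℕ) (hq : 1 ≤ q) :
    ∑ k ∈ range q, (q : ℝ) / ((k : ℝ) + 1) ≤ q * (2 * Real.log (2 * q)) := by
  have hq0 : (1 : ℝ) ≤ q := by exact_mod_cast hq
  have h1 := harmonic_le_one_add_log q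
  have h2 : ((harmonic q : ℚ) : ℝ) = ∑ k ∈ range q, ((k : ℝ) + 1)⁻¹ := by
    unfold harmonic
    push_cast
    rfl
  rw [h2] at h1
  have h3 : ∑ k ∈ range q, (q : ℝ) / ((k : ℝ) + 1) = q * ∑ k ∈ range q, ((k : ℝ) + 1)⁻¹ := by
    rw [Finset.mul_sum]
    rfl
  rw [h3]
  refine mul_le_mul_of_nonneg_left (h1.trans ?_) (by linarith)
  rw [Real.log_mul (by norm_num) (by positivity)]
  have h4 := Real.log_two_gt_d9
  have h5 := Real.log_nonneg hq0
  linarith

private theorem inj_mul {q : ℕ} {a : ℤ} (ha : IsCoprime a (q : ℤ)) (c : ℤ) {i j : ℕ} (hi : i < q)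
    (hj : j < q) (h : (q : ℤ) ∣ (c + a * i) - (c + a * j)) : i = j := by
  have h1 : (c + a * i) - (c + a * j) = a * ((i : ℤ) - j) := by ring
  rw [h1] at h
  have h2 : (q : ℤ) ∣ (i : ℤ) - j := ha.symm.dvd_of_dvd_mul_left h
  have h3 : (i : ℤ) - j = 0 := by
    refine Int.eq_zero_of_abs_lt_dvd h2 ?_
    rw [abs_lt]
    constructor <;> omega
  omega

private theorem block_one (α : ℝ) (q : ℕ) (hq : 1 ≤ q) (a : ℤ) (ha : IsCoprime a (q : ℤ))
    (hα : |α - (a : ℝ) / q| ≤ 1 / (q : ℝ) ^ 2) (M : ℝ) (hM : 1 ≤ M) (h0 : ℕ) :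
    ∑ j ∈ range q, gm M (α * ((h0 + j : ℕ) : ℝ)) ≤ 4 * (M + q * Real.log (2 * q)) := by
  have hq0 : (0 : ℝ) < q := by exact_mod_cast hq
  set s : ℤ := round (q * (α * h0)) with hs
  set w : ℕ → ℝ := fun k => if k ≤ 1 then M else (q : ℝ) / ((k : ℝ) - 1) with hw
  have hw0 : ∀ k, 0 ≤ w k := by
    intro k
    simp only [hw]
    split_ifs with h
    · linarith
    · push Not at h
      have : (1 : ℝ) < k := by exact_mod_cast h
      exact div_nonneg hq0.le (by linarith)
  have hb : ∀ j ∈ range q, gm M (α * ((h0 + j : ℕ) : ℝ)) ≤ w (gd q (s + a * j)) := by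
    intro j hj
    rw [Finset.mem_range] at hj
    simp only [hw]
    split_ifs with h
    · exact gm_le (by linarith) _
    · push Not at h
      have hjq : (j : ℝ) ≤ q := by exact_mod_cast hj.le
      -- the approximation
      have h1 : |α * ((h0 + j : ℕ) : ℝ) - ((s + a * j : ℤ) : ℝ) / q| ≤ 3 / (2 * q) := by
        have e1 : α * ((h0 + j : ℕ) : ℝ) - ((s + a * j : ℤ) : ℝ) / q =
            (q * (α * h0) - s) / q + (α - a / q) * j := by
          push_cast
          field_simp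
          ring
        rw [e1]
        refine (abs_add_le _ _).trans ?_
        have e2 : |(q * (α * h0) - s) / q| ≤ 1 / (2 * q) := by
          rw [abs_div, abs_of_pos hq0, div_le_div_iff₀ hq0 (by positivity)]
          have := abs_sub_round (q * (α * h0))
          rw [← hs] at this
          nlinarith
        have e3 : |(α - a / q) * j| ≤ 1 / q := by
          rw [abs_mul, Nat.abs_cast]
          calc |α - a / q| * j ≤ 1 / (q : ℝ) ^ 2 * q :=
                mul_le_mul hα hjq (Nat.cast_nonneg _) (by positivity)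
            _ = 1 / q := by field_simp
        have e4 : (3 : ℝ) / (2 * q) = 1 / (2 * q) + 1 / q := by
          field_simp
          norm_num
        rw [e4]
        exact add_le_add e2 e3
      have h2 := nd_sub_le (α * ((h0 + j : ℕ) : ℝ)) (((s + a * j : ℤ) : ℝ) / q)
      rw [gd_nd hq] at h2
      have h3 : ((gd q (s + a * j) : ℝ) - 3 / 2) / q ≤ nd (α * ((h0 + j : ℕ) : ℝ)) := by
        have e5 : ((gd q (s + a * j) : ℝ) - 3 / 2) / q =
            (gd q (s + a * j) : ℝ) / q - 3 / (2 * q) := by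
          field_simp
        rw [e5]
        linarith
      have hk : (2 : ℝ) ≤ gd q (s + a * j) := by exact_mod_cast h
      refine (gm_le_inv_of_le (t := ((gd q (s + a * j) : ℝ) - 3 / 2) / q)
        (div_pos (by linarith) hq0) h3).trans ?_
      have e6 : 1 / (2 * (((gd q (s + a * j) : ℝ) - 3 / 2) / q)) =
          q / (2 * (gd q (s + a * j) : ℝ) - 3) := by
        have : (2 * (gd q (s + a * j) : ℝ) - 3) ≠ 0 := by linarith
        have h6 : ((gd q (s + a * j) : ℝ) - 3 / 2) ≠ 0 := by linarith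
        field_simp
      rw [e6]
      exact div_le_div_of_nonneg_left hq0.le (by linarith) (by linarith)
  refine (Finset.sum_le_sum hb).trans ?_
  refine (gd_sum hq (S := range q) (f := fun j => s + a * j)
    (fun i hi j hj h => inj_mul ha s (Finset.mem_range.1 hi) (Finset.mem_range.1 hj) h) w hw0).trans ?_
  have h5 : ∑ k ∈ range (q + 1), w k ≤ 2 * M + ∑ k ∈ range q, (q : ℝ) / ((k : ℝ) + 1) := by
    obtain ⟨r, rfl⟩ : ∃ r, q = r + 1 := ⟨q - 1, by omega⟩
    have e1 : r + 1 + 1 = 2 + r := by ring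
    rw [e1, Finset.sum_range_add]
    have e2 : ∑ x ∈ range 2, w x = 2 * M := by
      rw [Finset.sum_range_succ, Finset.sum_range_one]
      simp only [hw]
      norm_num
      ring
    have e3 : ∑ x ∈ range r, w (2 + x) = ∑ k ∈ range r, ((r + 1 : ℕ) : ℝ) / ((k : ℝ) + 1) := by
      refine Finset.sum_congr rfl fun x _ => ?_
      simp only [hw]
      rw [if_neg (by omega)]
      congr 1
      push_cast
      ring
    rw [e2, e3, Finset.sum_range_succ (fun k : ℕ => ((r + 1 : ℕ) : ℝ) / ((k : ℝ) + 1))]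
    have : 0 ≤ ((r + 1 : ℕ) : ℝ) / ((r : ℝ) + 1) := by positivity
    linarith
  have h6 := harm_le q hq
  linarith

theorem block_gm : ∃ C : ℝ, 0 < C ∧ ∀ (α : ℝ) (q : ℕ), 1 ≤ q → ∀ a : ℤ, IsCoprime a (q : ℤ) →
    |α - (a : ℝ) / q| ≤ 1 / (q : ℝ) ^ 2 → ∀ (M : ℝ) (H : ℕ), 1 ≤ M →
    ∑ h ∈ Icc 1 H, gm M (α * h) ≤
      C * ((H : ℝ) / q + 1) * (M + q * Real.log (2 * q)) := by
  refine ⟨4, by norm_num, ?_⟩
  intro α q hq a ha hα M H hM
  have hq0 : (0 : ℝ) < q := by exact_mod_cast hq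
  have hblocks : ∀ B : ℕ, ∑ n ∈ range (B * q), gm M (α * ((1 + n : ℕ) : ℝ)) ≤
      B * (4 * (M + q * Real.log (2 * q))) := by
    intro B
    induction B with
    | zero => simp
    | succ B ih =>
      have e1 : (B + 1) * q = B * q + q := by ring
      rw [e1, Finset.sum_range_add]
      have h1 := block_one α q hq a ha hα M hM (1 + B * q)
      have e2 : ∑ x ∈ range q, gm M (α * ((1 + (B * q + x) : ℕ) : ℝ)) =
          ∑ j ∈ range q, gm M (α * ((1 + B * q + j : ℕ) : ℝ)) := by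
        refine Finset.sum_congr rfl fun x _ => ?_
        rw [add_assoc]
      rw [e2]
      push_cast at ih h1 ⊢
      linarith
  have hsub : ∑ h ∈ Icc 1 H, gm M (α * h) ≤
      ∑ n ∈ range ((H / q + 1) * q), gm M (α * ((1 + n : ℕ) : ℝ)) := by
    have e1 : ∑ h ∈ Icc 1 H, gm M (α * h) = ∑ n ∈ range H, gm M (α * ((1 + n : ℕ) : ℝ)) := by
      have e0 := Finset.sum_Ico_add' (fun h : ℕ => gm M (α * h)) 0 H 1
      have e00 : Icc 1 H = Ico (0 + 1) (H + 1) := by
        ext x
        rw [Finset.mem_Icc, Finset.mem_Ico]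
        omega
      rw [e00, ← e0, Finset.range_eq_Ico]
      refine Finset.sum_congr rfl fun x _ => ?_
      rw [add_comm x 1]
    rw [e1]
    refine Finset.sum_le_sum_of_subset_of_nonneg ?_ fun n _ _ => gm_nonneg (by linarith) _
    intro n hn
    rw [Finset.mem_range] at hn ⊢
    have h1 := Nat.lt_div_mul_add (a := H) (b := q) (by omega)
    have h2 : (H / q + 1) * q = H / q * q + q := by ring
    omega
  refine (hsub.trans (hblocks _)).trans ?_
  have h3 : ((H / q : ℕ) : ℝ) ≤ (H : ℝ) / q := Nat.cast_div_le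
  have h4 : 0 ≤ M + q * Real.log (2 * q) := by
    have : 0 ≤ Real.log (2 * q) := Real.log_nonneg (by
      have : (1 : ℝ) ≤ q := by exact_mod_cast hq
      linarith)
    positivity
  have h5 : ((H / q + 1 : ℕ) : ℝ) ≤ (H : ℝ) / q + 1 := by
    push_cast
    linarith
  calc ((H / q + 1 : ℕ) : ℝ) * (4 * (M + q * Real.log (2 * q))) ≤
        ((H : ℝ) / q + 1) * (4 * (M + q * Real.log (2 * q))) :=
        mul_le_mul_of_nonneg_right h5 (by positivity)
    _ = 4 * ((H : ℝ) / q + 1) * (M + q * Real.log (2 * q)) := by ring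

theorem small_gm : ∃ C : ℝ, 0 < C ∧ ∀ (α : ℝ) (q : ℕ), 1 ≤ q → ∀ a : ℤ, IsCoprime a (q : ℤ) →
    |α - (a : ℝ) / q| ≤ 1 / (q : ℝ) ^ 2 → ∀ (M : ℕ → ℝ), (∀ m, 1 ≤ M m) →
    ∑ m ∈ Icc 1 (q / 2), gm (M m) (α * m) ≤ C * (q * Real.log (2 * q)) := by
  refine ⟨4, by norm_num, ?_⟩
  intro α q hq a ha hα M hM
  have hq0 : (0 : ℝ) < q := by exact_mod_cast hq
  set w : ℕ → ℝ := fun k => (q : ℝ) / k with hw
  have hw0 : ∀ k, 0 ≤ w k := fun k => by simp only [hw]; positivity
  have hb : ∀ m ∈ Icc 1 (q / 2), gm (M m) (α * m) ≤ w (gd q (0 + a * m)) := by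
    intro m hm
    rw [Finset.mem_Icc] at hm
    have hmq : m < q := by omega
    have hm2 : 2 * (m : ℝ) ≤ q := by
      have : 2 * m ≤ q := by omega
      exact_mod_cast this
    have hd : 1 ≤ gd q (0 + a * m) := by
      by_contra hcon
      have h0 : gd q (0 + a * m) = 0 := by omega
      have h1 : (q : ℤ) ∣ (0 + a * m) - (0 + a * ((0 : ℕ) : ℤ)) := by
        rcases gd_cases h0 with h | h
        · simpa using h
        · simpa using h
      have h2 := inj_mul ha 0 hmq (show 0 < q by omega) h1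
      omega
    have h1 : |α * m - ((0 + a * m : ℤ) : ℝ) / q| ≤ 1 / (2 * q) := by
      have e1 : α * m - ((0 + a * m : ℤ) : ℝ) / q = (α - a / q) * m := by
        push_cast
        field_simp
        ring
      rw [e1, abs_mul, Nat.abs_cast]
      calc |α - a / q| * m ≤ 1 / (q : ℝ) ^ 2 * (q / 2) :=
            mul_le_mul hα (by linarith) (Nat.cast_nonneg _) (by positivity)
        _ = 1 / (2 * q) := by field_simp
    have h2 := nd_sub_le (α * m) (((0 + a * m : ℤ) : ℝ) / q)
    rw [gd_nd hq] at h2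
    have hd' : (1 : ℝ) ≤ gd q (0 + a * m) := by exact_mod_cast hd
    have h3 : (gd q (0 + a * m) : ℝ) / (2 * q) ≤ nd (α * m) := by
      have e2 : (gd q (0 + a * m) : ℝ) / q = (gd q (0 + a * m) : ℝ) / (2 * q) +
          (gd q (0 + a * m) : ℝ) / (2 * q) := by
        field_simp
        norm_num
      have e3 : 1 / (2 * (q : ℝ)) ≤ (gd q (0 + a * m) : ℝ) / (2 * q) :=
        div_le_div_of_nonneg_right hd' (by positivity)
      linarith
    refine (gm_le_inv_of_le (t := (gd q (0 + a * m) : ℝ) / (2 * q)) (by positivity) h3).trans ?_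
    apply le_of_eq
    simp only [hw]
    field_simp
  refine (Finset.sum_le_sum hb).trans ?_
  refine (gd_sum hq (S := Icc 1 (q / 2)) (f := fun m => 0 + a * m) (fun i hi j hj h => ?_) w hw0).trans ?_
  · rw [Finset.mem_Icc] at hi hj
    exact inj_mul ha 0 (by omega) (by omega) h
  have h5 : ∑ k ∈ range (q + 1), w k = ∑ k ∈ range q, (q : ℝ) / ((k : ℝ) + 1) := by
    rw [Finset.sum_range_succ']
    simp only [hw]
    push_cast
    simp
  rw [h5]
  have h6 := harm_le q hq
  linarith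

end Pool.Agent.H10.RP
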