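import Pool.Agent.H16.LSieve
import Pool.Agent.H10.RP.Defs

/-!
# Reversed primes: divisor moments (job RP-5b)

PROOF. Put `T_j(N) = ∑_{1 ≤ n ≤ N} τ(n)^j / n`. As `τ(m n) ≤ τ(m) τ(n)`, `T_{j+1}(N) =
∑_{m n ≤ N} τ(m n)^j / (m n) ≤ T_j(N)²` (compare `Pool.Agent.H16.sum_tau_mul_le`), and
`T_0(N) ≤ 1 + log N`; so `T_4 ≤ (1 + log N)^16`, `T_2 ≤ (1 + log N)^4`; and `∑ τ(n)^j ≤ N T_j(N)`.
-/

set_option autoImplicit false

open Finset

namespace Pool.Agent.H10.RP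

private lemma tauT_zero (N : ℕ) :
    ∑ n ∈ Icc 1 N, (n : ℝ)⁻¹ ≤ 1 + Real.log N := by
  have h := harmonic_le_one_add_log N
  rw [harmonic_eq_sum_Icc] at h
  push_cast at h
  exact h

private lemma tauT_bound (j : ℕ) (N : ℕ) :
    ∑ n ∈ Icc 1 N, H16.tauR n ^ j * (n : ℝ)⁻¹ ≤ (1 + Real.log N) ^ (2 ^ j) := by
  induction j with
  | zero => simpa using tauT_zero N
  | succ j ih =>
    have h1 := H16.sum_tau_mul_le (fun n => H16.tauR n ^ j * (n : ℝ)⁻¹)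
      (fun n => mul_nonneg (pow_nonneg (H16.tauR_nonneg n) j) (by positivity))
      (fun m n => by
        calc H16.tauR (m * n) ^ j * (((m * n : ℕ) : ℝ))⁻¹
            ≤ (H16.tauR m * H16.tauR n) ^ j * (((m * n : ℕ) : ℝ))⁻¹ := by
              apply mul_le_mul_of_nonneg_right _ (by positivity)
              exact pow_le_pow_left₀ (H16.tauR_nonneg _) (H16.tauR_mul_le m n) j
          _ = _ := by push_cast; rw [mul_inv, mul_pow]; ring) N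
    have h0 : 0 ≤ ∑ n ∈ Icc 1 N, H16.tauR n ^ j * (n : ℝ)⁻¹ :=
      Finset.sum_nonneg fun n _ => mul_nonneg (pow_nonneg (H16.tauR_nonneg n) j) (by positivity)
    calc ∑ n ∈ Icc 1 N, H16.tauR n ^ (j + 1) * (n : ℝ)⁻¹
        = ∑ n ∈ Icc 1 N, H16.tauR n * (H16.tauR n ^ j * (n : ℝ)⁻¹) := by
          apply Finset.sum_congr rfl; intro n _; ring
      _ ≤ (∑ n ∈ Icc 1 N, H16.tauR n ^ j * (n : ℝ)⁻¹) ^ 2 := h1
      _ ≤ ((1 + Real.log N) ^ (2 ^ j)) ^ 2 := pow_le_pow_left₀ h0 ih 2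
      _ = _ := by rw [← pow_mul, pow_succ]

private lemma sum_tau_pow (j : ℕ) (hj : j ≠ 0) (N : ℕ) :
    ∑ n ∈ range (N + 1), ((n.divisors.card : ℝ)) ^ j ≤ N * (1 + Real.log N) ^ (2 ^ j) := by
  have e : ∑ n ∈ range (N + 1), ((n.divisors.card : ℝ)) ^ j
      = ∑ n ∈ Icc 1 N, ((n.divisors.card : ℝ)) ^ j := by
    rw [Finset.range_eq_Ico, Finset.sum_eq_sum_Ico_succ_bot (by omega)]
    simp [hj]
    rfl
  rw [e]
  calc ∑ n ∈ Icc 1 N, ((n.divisors.card : ℝ)) ^ j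
      ≤ ∑ n ∈ Icc 1 N, (N : ℝ) * (H16.tauR n ^ j * (n : ℝ)⁻¹) := by
        apply Finset.sum_le_sum
        intro n hn
        rw [Finset.mem_Icc] at hn
        have hn0 : (0 : ℝ) < n := by exact_mod_cast (by omega : 0 < n)
        have hnN : (n : ℝ) ≤ N := by exact_mod_cast hn.2
        have h1 : 1 ≤ (N : ℝ) * (n : ℝ)⁻¹ := by
          rw [← div_eq_mul_inv, le_div_iff₀ hn0]; linarith
        have h2 : 0 ≤ H16.tauR n ^ j := pow_nonneg (H16.tauR_nonneg n) j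
        calc ((n.divisors.card : ℝ)) ^ j = H16.tauR n ^ j * 1 := by
              rw [mul_one]; rfl
          _ ≤ H16.tauR n ^ j * ((N : ℝ) * (n : ℝ)⁻¹) := mul_le_mul_of_nonneg_left h1 h2
          _ = _ := by ring
    _ = N * ∑ n ∈ Icc 1 N, H16.tauR n ^ j * (n : ℝ)⁻¹ := by rw [Finset.mul_sum]
    _ ≤ _ := mul_le_mul_of_nonneg_left (tauT_bound j N) (by positivity)

theorem sum_tau2 (N : ℕ) (hN : 1 ≤ N) :
    ∑ n ∈ range (N + 1), ((n.divisors.card : ℝ)) ^ 2 ≤ N * (1 + Real.log N) ^ 4 := by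
  simpa using sum_tau_pow 2 (by norm_num) N

theorem sum_tau4 (N : ℕ) (hN : 1 ≤ N) :
    ∑ n ∈ range (N + 1), ((n.divisors.card : ℝ)) ^ 4 ≤ N * (1 + Real.log N) ^ 16 := by
  simpa using sum_tau_pow 4 (by norm_num) N

end Pool.Agent.H10.RP
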