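import Pool.Agent.H10.RP.Vau
import Pool.Agent.H10.RP.Gm
import Pool.Agent.H10.RP.Tau

/-!
# Reversed primes: Vinogradov's estimate (job RP-16b)

PROOF. `vaughan_bound` with `f n = ee (α n)`, `X = x`, any `U` with `x ^ (1/3) ≤ U ≤ 2 x ^ (1/3)`. We may assume
`q ≤ x` (otherwise `√(x q) ≥ x` and the claim is trivial, `|∑ Λ ee| ≤ x log x`).
(1) Type I: `g m = 1 + gm (x / m + 1) (α m)` (`norm_geom_le`). `∑_{m ≤ U²} g m`: the `m ≤ q / 2` contribute
`≤ U² + C q log 2q` (`small_gm`); for dyadic blocks `m ∈ (D, 2D]`, `D ≥ q / 4`, use `gm` monotone in `K` and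
`block_gm` with `M = x / D + 1`, `H = 2 D`:
`≤ C (2 D / q + 1)(x / D + 1 + q log 2q) ≤ C' (x / q + D log 2q + q log 2q)` (`x / D ≤ 4 x / q`). Total
`≤ C (x / q + U² + q) log² x`, `U² ≤ 4 x ^ (2/3)`.
(2) Type II: `TIIB` with `B2`: for `U ≤ K ≤ √x`, `N = x / K + 1`, Cauchy over `m`:
`|S|² ≤ (∑ |a m|²) ∑_{n, n'} |b n b n'| |∑_{m} ee (α m (n - n'))| ≤
(∑ |a m|²) ∑_n |b n|² 2 (K + ∑_{1 ≤ h ≤ N} gm K (α h))` (the `m`-range is an interval inside `(K, 2K]`)
`≤ C K N (log x) ^ 12 (K + (N / q + 1)(K + q log 2q))`; as `K N ≤ 2 x`, `K ≤ √x`, `N ≤ 2 x ^ (2/3)`: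
`K N * (K + K N / q + N log + q log) ≤ C x (√x + x / q + x ^ (2/3) + q) log x`; take square roots.
Number of blocks `O(log x)`. The powers `x ^ (5/6)`, `(log x) ^ 12` in the statement are generous.
-/

set_option autoImplicit false

open Finset
open scoped ComplexConjugate

namespace Pool.Agent.H10.RP

theorem vino_gm_mono {K K' : ℝ} (h : K ≤ K') (x : ℝ) : gm K x ≤ gm K' x := by
  have hn := nd_nonneg x
  unfold gm
  split_ifs with h1 h2 h2
  · exact h
  · push Not at h2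
    have hx : 0 < nd x := by
      by_contra hc
      have : nd x = 0 := le_antisymm (not_lt.mp hc) hn
      rw [this] at h2
      norm_num at h2
    rw [le_div_iff₀ (by positivity)]
    linarith
  · exfalso
    push Not at h1
    have : 2 * K * nd x ≤ 2 * K' * nd x := by
      apply mul_le_mul_of_nonneg_right _ hn
      linarith
    linarith
  · exact le_refl _

theorem vino_gm_neg (K x : ℝ) : gm K (-x) = gm K x := by
  unfold gm
  rw [nd_neg]

theorem vino_gm_zero (K : ℝ) : gm K 0 = K := by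
  unfold gm
  have : nd 0 = 0 := by unfold nd; simp
  rw [this]
  simp

/-- the type I sums -/
theorem vino_typeI (x : ℕ) (α : ℝ) (m : ℕ) (hm : 1 ≤ m) (x' : ℕ) (hx' : x' ≤ x) :
    ‖∑ n ∈ (range x).filter (fun n => m * n < x'), ee (α * ((m * n : ℕ) : ℝ))‖ ≤
      1 + gm ((x : ℝ) / m + 1) (α * m) := by
  have hm0 : (0 : ℝ) < m := by exact_mod_cast hm
  have hset : (range x).filter (fun n => m * n < x') = Ico 0 ((x' + m - 1) / m) := by
    ext n
    simp only [mem_filter, mem_range, mem_Ico, zero_le, true_and]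
    constructor
    · rintro ⟨_, h2⟩
      rw [Nat.lt_iff_add_one_le, Nat.le_div_iff_mul_le (by omega)]
      have : (n + 1) * m = m * n + m := by ring
      omega
    · intro h
      rw [Nat.lt_iff_add_one_le, Nat.le_div_iff_mul_le (by omega)] at h
      have h3 : (n + 1) * m = m * n + m := by ring
      have h4 : m * n < x' := by omega
      refine ⟨?_, h4⟩
      have h5 : 1 * n ≤ m * n := Nat.mul_le_mul_right n hm
      omega
  rw [hset]
  have hsum : ∑ n ∈ Ico 0 ((x' + m - 1) / m), ee (α * ((m * n : ℕ) : ℝ)) =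
      ∑ n ∈ Ico 0 ((x' + m - 1) / m), ee ((n : ℝ) * (α * m)) := by
    apply sum_congr rfl
    intro n _
    congr 1
    push_cast
    ring
  rw [hsum]
  have h1 : (((x' + m - 1) / m : ℕ) : ℝ) - ((0 : ℕ) : ℝ) ≤ (x : ℝ) / m + 1 := by
    have h2 : (((x' + m - 1) / m : ℕ) : ℝ) ≤ ((x' + m - 1 : ℕ) : ℝ) / m := Nat.cast_div_le
    have h3 : ((x' + m - 1 : ℕ) : ℝ) ≤ (x : ℝ) + m := by
      have : x' + m - 1 ≤ x + m := by omega
      exact_mod_cast this
    have h4 : ((x' + m - 1 : ℕ) : ℝ) / m ≤ ((x : ℝ) + m) / m :=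
      div_le_div_of_nonneg_right h3 hm0.le
    have h5 : ((x : ℝ) + m) / m = (x : ℝ) / m + 1 := by field_simp
    rw [Nat.cast_zero, sub_zero]
    linarith
  have h6 := norm_geom_le ((x : ℝ) / m + 1) (α * m) (by positivity) 0 ((x' + m - 1) / m) h1
  linarith

/-- one dyadic block of the type I sum -/
theorem vino_block (C : ℝ) (hC : 0 < C) (hblock : ∀ (α : ℝ) (q : ℕ), 1 ≤ q → ∀ a : ℤ,
    IsCoprime a (q : ℤ) → |α - (a : ℝ) / q| ≤ 1 / (q : ℝ) ^ 2 → ∀ (M : ℝ) (H : ℕ), 1 ≤ M →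
    ∑ h ∈ Icc 1 H, gm M (α * h) ≤ C * ((H : ℝ) / q + 1) * (M + q * Real.log (2 * q)))
    (x : ℕ) (α : ℝ) (q : ℕ) (hq : 1 ≤ q) (a : ℤ) (ha : IsCoprime a (q : ℤ))
    (h : |α - (a : ℝ) / q| ≤ 1 / (q : ℝ) ^ 2) (i : ℕ) (hi : q ≤ 4 * 2 ^ i) :
    ∑ m ∈ Ico ((2 : ℕ) ^ i) (2 ^ (i + 1)), gm ((x : ℝ) / m + 1) (α * m) ≤
      15 * C * ((x : ℝ) / q + 2 ^ i * Real.log (2 * q)) := by
  have hq0 : (0 : ℝ) < q := by exact_mod_cast hq
  have hq1 : (1 : ℝ) ≤ q := by exact_mod_cast hq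
  have hp : (0 : ℝ) < 2 ^ i := by positivity
  have hi' : (q : ℝ) ≤ 4 * 2 ^ i := by exact_mod_cast hi
  have hlog : 0.69 ≤ Real.log (2 * q) := by
    have h1 : Real.log 2 ≤ Real.log (2 * q) := Real.log_le_log (by norm_num) (by linarith)
    have h2 := Real.log_two_gt_d9
    linarith
  have h1 : ∑ m ∈ Ico ((2 : ℕ) ^ i) (2 ^ (i + 1)), gm ((x : ℝ) / m + 1) (α * m) ≤
      ∑ m ∈ Icc (1 : ℕ) (2 ^ (i + 1)), gm ((x : ℝ) / 2 ^ i + 1) (α * m) := by
    calc ∑ m ∈ Ico ((2 : ℕ) ^ i) (2 ^ (i + 1)), gm ((x : ℝ) / m + 1) (α * m) ≤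
          ∑ m ∈ Ico ((2 : ℕ) ^ i) (2 ^ (i + 1)), gm ((x : ℝ) / 2 ^ i + 1) (α * m) := by
          apply sum_le_sum
          intro m hm
          rw [mem_Ico] at hm
          apply vino_gm_mono
          have : ((2 : ℝ) ^ i) ≤ m := by exact_mod_cast hm.1
          gcongr
      _ ≤ _ := by
          apply sum_le_sum_of_subset_of_nonneg
          · intro m hm
            rw [mem_Ico] at hm
            rw [mem_Icc]
            have : 1 ≤ 2 ^ i := Nat.one_le_two_pow
            omega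
          · intro m _ _
            exact gm_nonneg (by positivity) _
  have h2 := hblock α q hq a ha h ((x : ℝ) / 2 ^ i + 1) (2 ^ (i + 1)) (by
    have : 0 ≤ (x : ℝ) / 2 ^ i := by positivity
    linarith)
  refine h1.trans (h2.trans ?_)
  push_cast
  have e1 : (2 : ℝ) ^ (i + 1) / q + 1 ≤ 6 * (2 ^ i / q) := by
    have : (1 : ℝ) ≤ 4 * ((2 : ℝ) ^ i / q) := by
      rw [← mul_div_assoc, le_div_iff₀ hq0]
      linarith
    have e : (2 : ℝ) ^ (i + 1) / q = 2 * (2 ^ i / q) := by rw [pow_succ]; ring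
    linarith
  have hpq : (2 : ℝ) ^ i / q ≤ 2 ^ i := div_le_self hp.le hq1
  have hnn : 0 ≤ (x : ℝ) / 2 ^ i + 1 + q * Real.log (2 * q) := by positivity
  calc C * ((2 : ℝ) ^ (i + 1) / q + 1) * ((x : ℝ) / 2 ^ i + 1 + q * Real.log (2 * q)) ≤
        C * (6 * (2 ^ i / q)) * ((x : ℝ) / 2 ^ i + 1 + q * Real.log (2 * q)) := by gcongr
    _ = 6 * C * ((x : ℝ) / q + 2 ^ i / q + 2 ^ i * Real.log (2 * q)) := by field_simp
    _ ≤ 6 * C * ((x : ℝ) / q + 1.5 * (2 ^ i * Real.log (2 * q)) + 2 ^ i * Real.log (2 * q)) := by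
        gcongr
        have : (2 : ℝ) ^ i ≤ 1.5 * (2 ^ i * Real.log (2 * q)) := by nlinarith
        linarith
    _ ≤ 15 * C * ((x : ℝ) / q + 2 ^ i * Real.log (2 * q)) := by
        have : 0 ≤ (x : ℝ) / q := by positivity
        nlinarith

/-- the type I sum -/
theorem vino_B1 : ∃ C : ℝ, 0 < C ∧ ∀ x : ℕ, 3 ≤ x → ∀ (α : ℝ) (q : ℕ), 1 ≤ q → ∀ a : ℤ,
    IsCoprime a (q : ℤ) → |α - (a : ℝ) / q| ≤ 1 / (q : ℝ) ^ 2 → ∀ V : ℕ, 1 ≤ V →
    ∑ m ∈ Icc 1 V, (1 + gm ((x : ℝ) / m + 1) (α * m)) ≤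
      C * ((x : ℝ) / q + V + q) * ((Nat.log 2 V : ℝ) + 1) * Real.log (2 * q) := by
  obtain ⟨C1, hC1, h1⟩ := small_gm
  obtain ⟨C2, hC2, h2⟩ := block_gm
  refine ⟨2 + C1 + 60 * C2, by positivity, ?_⟩
  intro x hx α q hq a ha hα V hV
  have hq0 : (0 : ℝ) < q := by exact_mod_cast hq
  have hq1 : (1 : ℝ) ≤ q := by exact_mod_cast hq
  have hV1 : (1 : ℝ) ≤ V := by exact_mod_cast hV
  set l := Real.log (2 * q) with hl
  set L := (Nat.log 2 V : ℝ) + 1 with hL
  have hlog : 0.69 ≤ l := by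
    have h1 : Real.log 2 ≤ Real.log (2 * q) := Real.log_le_log (by norm_num) (by linarith)
    have h2 := Real.log_two_gt_d9
    linarith
  have hL1 : 1 ≤ L := by
    have : (0 : ℝ) ≤ (Nat.log 2 V : ℝ) := Nat.cast_nonneg _
    linarith
  have hA : ∑ m ∈ Icc 1 V, gm ((x : ℝ) / m + 1) (α * m) ≤
      C1 * (q * l) + 15 * C2 * (L * (x / q) + 2 * V * l) := by
    have hnn : ∀ m : ℕ, 0 ≤ gm ((x : ℝ) / m + 1) (α * m) := fun m => gm_nonneg (by positivity) _
    calc ∑ m ∈ Icc 1 V, gm ((x : ℝ) / m + 1) (α * m) ≤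
          ∑ m ∈ Icc 1 (q / 2), gm ((x : ℝ) / m + 1) (α * m) +
          ∑ m ∈ ((range (Nat.log 2 V + 1)).filter (fun i => q ≤ 4 * 2 ^ i)).biUnion
            (fun i => Ico ((2 : ℕ) ^ i) (2 ^ (i + 1))), gm ((x : ℝ) / m + 1) (α * m) := by
          rw [← sum_union_inter]
          have hsub : Icc 1 V ⊆ Icc 1 (q / 2) ∪
              ((range (Nat.log 2 V + 1)).filter (fun i => q ≤ 4 * 2 ^ i)).biUnion
              (fun i => Ico ((2 : ℕ) ^ i) (2 ^ (i + 1))) := by
            intro m hm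
            rw [mem_Icc] at hm
            rw [mem_union]
            by_cases hmq : m ≤ q / 2
            · left; rw [mem_Icc]; exact ⟨hm.1, hmq⟩
            · right
              rw [mem_biUnion]
              have hm0 : m ≠ 0 := by omega
              have e1 : 2 ^ Nat.log 2 m ≤ m := Nat.pow_log_le_self 2 hm0
              have e2 : m < 2 ^ (Nat.log 2 m + 1) := Nat.lt_pow_succ_log_self (by norm_num) m
              refine ⟨Nat.log 2 m, ?_, ?_⟩
              · rw [mem_filter, mem_range]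
                refine ⟨?_, ?_⟩
                · have : Nat.log 2 m ≤ Nat.log 2 V := Nat.log_mono_right hm.2
                  omega
                · rw [pow_succ] at e2
                  omega
              · rw [mem_Ico]; exact ⟨e1, e2⟩
          refine (sum_le_sum_of_subset_of_nonneg hsub (fun m _ _ => hnn m)).trans ?_
          exact le_add_of_nonneg_right (sum_nonneg fun m _ => hnn m)
      _ ≤ C1 * (q * l) + ∑ i ∈ (range (Nat.log 2 V + 1)).filter (fun i => q ≤ 4 * 2 ^ i),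
            ∑ m ∈ Ico ((2 : ℕ) ^ i) (2 ^ (i + 1)), gm ((x : ℝ) / m + 1) (α * m) := by
          apply add_le_add
          · exact h1 α q hq a ha hα (fun m => (x : ℝ) / m + 1) (fun m => by
              have : 0 ≤ (x : ℝ) / m := by positivity
              linarith)
          · rw [sum_biUnion]
            intro i _ j _ hij
            rw [Function.onFun, disjoint_left]
            intro m hm1 hm2
            rw [mem_Ico] at hm1 hm2
            apply hij
            have k1 : Nat.log 2 m = i := (Nat.log_eq_iff (Or.inr ⟨by norm_num, by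
              have : 1 ≤ 2 ^ i := Nat.one_le_two_pow
              omega⟩)).mpr hm1
            have k2 : Nat.log 2 m = j := (Nat.log_eq_iff (Or.inr ⟨by norm_num, by
              have : 1 ≤ 2 ^ i := Nat.one_le_two_pow
              omega⟩)).mpr hm2
            omega
      _ ≤ C1 * (q * l) + ∑ i ∈ (range (Nat.log 2 V + 1)).filter (fun i => q ≤ 4 * 2 ^ i),
            15 * C2 * ((x : ℝ) / q + 2 ^ i * l) := by
          gcongr with i hi
          rw [mem_filter] at hi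
          exact vino_block C2 hC2 h2 x α q hq a ha hα i hi.2
      _ ≤ C1 * (q * l) + ∑ i ∈ range (Nat.log 2 V + 1), 15 * C2 * ((x : ℝ) / q + 2 ^ i * l) := by
          refine add_le_add (le_refl _) ?_
          apply sum_le_sum_of_subset_of_nonneg (filter_subset _ _)
          intro i _ _
          positivity
      _ ≤ C1 * (q * l) + 15 * C2 * (L * (x / q) + 2 * V * l) := by
          rw [← mul_sum, sum_add_distrib, sum_const, card_range, ← sum_mul, nsmul_eq_mul]
          have hgeo : ∑ i ∈ range (Nat.log 2 V + 1), (2 : ℝ) ^ i ≤ 2 * V := by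
            rw [geom_sum_eq (by norm_num)]
            have e1 : 2 ^ Nat.log 2 V ≤ V := Nat.pow_log_le_self 2 (by omega)
            have e2 : (2 : ℝ) ^ Nat.log 2 V ≤ V := by exact_mod_cast e1
            rw [pow_succ]
            linarith
          have : ((Nat.log 2 V + 1 : ℕ) : ℝ) = L := by rw [hL]; push_cast; ring
          rw [this]
          gcongr
  rw [sum_add_distrib, sum_const, Nat.card_Icc, nsmul_eq_mul, mul_one]
  have hVc : ((V + 1 - 1 : ℕ) : ℝ) = V := by simp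
  rw [hVc]
  have hxq : 0 ≤ (x : ℝ) / q := by positivity
  have b1 : (V : ℝ) ≤ 2 * ((x / q + V + q) * L * l) := by
    have : (V : ℝ) * 1 * 0.69 ≤ (x / q + V + q) * L * l := by gcongr; linarith
    linarith
  have b2 : (q : ℝ) * l ≤ (x / q + V + q) * L * l := by
    have : (q : ℝ) * 1 * l ≤ (x / q + V + q) * L * l := by gcongr; linarith
    linarith
  have b3 : L * (x / q) ≤ 2 * ((x / q + V + q) * L * l) := by
    have : (x / q : ℝ) * L * 0.69 ≤ (x / q + V + q) * L * l := by gcongr; linarith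
    nlinarith
  have b4 : (V : ℝ) * l ≤ (x / q + V + q) * L * l := by
    have : (V : ℝ) * 1 * l ≤ (x / q + V + q) * L * l := by gcongr; linarith
    linarith
  set T := (x / q + V + q : ℝ) * L * l with hT
  have hT0 : 0 ≤ T := by positivity
  calc (V : ℝ) + ∑ m ∈ Icc 1 V, gm ((x : ℝ) / m + 1) (α * m) ≤
        2 * T + (C1 * T + 15 * C2 * (2 * T + 2 * T)) := by
        have c1 : C1 * (q * l) ≤ C1 * T := by gcongr
        have c2 : 15 * C2 * (L * (x / q) + 2 * V * l) ≤ 15 * C2 * (2 * T + 2 * T) := by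
          apply mul_le_mul_of_nonneg_left _ (by positivity)
          linarith
        linarith
    _ = (2 + C1 + 60 * C2) * T := by ring
    _ = _ := by rw [hT]; ring

/-! ### type II -/

theorem vino_interval (K : ℕ) (P : ℕ → Prop) [DecidablePred P]
    (hP : ∀ m m', m ≤ m' → P m' → P m) (L : ℕ) :
    ∃ c, c ≤ K + 1 + L ∧ (Ico (K + 1) (K + 1 + L)).filter P = Ico (K + 1) c := by
  induction L with
  | zero => exact ⟨K + 1, by omega, by simp⟩
  | succ L ih =>
    by_cases hc : P (K + 1 + L)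
    · refine ⟨K + 1 + (L + 1), le_refl _, ?_⟩
      apply filter_true_of_mem
      intro m hm
      rw [mem_Ico] at hm
      exact hP m (K + 1 + L) (by omega) hc
    · obtain ⟨c, hc1, hc2⟩ := ih
      refine ⟨c, by omega, ?_⟩
      rw [← hc2]
      ext m
      simp only [mem_filter, mem_Ico]
      constructor
      · rintro ⟨⟨h1, h2⟩, h3⟩
        refine ⟨⟨h1, ?_⟩, h3⟩
        by_contra h4
        have : m = K + 1 + L := by omega
        rw [this] at h3
        exact hc h3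
      · rintro ⟨⟨h1, h2⟩, h3⟩
        exact ⟨⟨h1, by omega⟩, h3⟩

/-- the sum over `m` -/
theorem vino_inner (α : ℝ) (K x' n n' : ℕ) :
    ‖∑ m ∈ Ioc K (2 * K), (if m * n < x' then ee (α * ((m * n : ℕ) : ℝ)) else 0) *
      conj (if m * n' < x' then ee (α * ((m * n' : ℕ) : ℝ)) else 0)‖ ≤
      gm K (α * ((n : ℝ) - n')) := by
  have h1 : ∑ m ∈ Ioc K (2 * K), (if m * n < x' then ee (α * ((m * n : ℕ) : ℝ)) else 0) *
      conj (if m * n' < x' then ee (α * ((m * n' : ℕ) : ℝ)) else 0) =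
      ∑ m ∈ (Ico (K + 1) (K + 1 + K)).filter (fun m => m * n < x' ∧ m * n' < x'),
        ee ((m : ℝ) * (α * ((n : ℝ) - n'))) := by
    rw [sum_filter]
    have hI : Ioc K (2 * K) = Ico (K + 1) (K + 1 + K) := by
      ext m
      simp only [mem_Ioc, mem_Ico]
      omega
    rw [hI]
    apply sum_congr rfl
    intro m _
    by_cases c1 : m * n < x'
    · by_cases c2 : m * n' < x'
      · rw [if_pos c1, if_pos c2, if_pos ⟨c1, c2⟩, conj_ee, ← ee_add]
        congr 1
        push_cast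
        ring
      · simp [c2]
    · simp [c1]
  rw [h1]
  obtain ⟨c, hc1, hc2⟩ := vino_interval K (fun m => m * n < x' ∧ m * n' < x') (by
    rintro m m' hm ⟨k1, k2⟩
    exact ⟨(Nat.mul_le_mul_right n hm).trans_lt k1, (Nat.mul_le_mul_right n' hm).trans_lt k2⟩) K
  rw [hc2]
  apply norm_geom_le _ _ (Nat.cast_nonneg K)
  have : (c : ℝ) ≤ (K : ℝ) + 1 + K := by exact_mod_cast hc1
  push_cast
  linarith

/-- the sum of the kernel -/
theorem vino_kernel (α : ℝ) (K N n : ℕ) (hn : n < N) :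
    ∑ n' ∈ range N, gm K (α * ((n : ℝ) - n')) ≤ 2 * (K + ∑ h ∈ Icc 1 N, gm K (α * h)) := by
  have hnn : ∀ y : ℝ, 0 ≤ gm K y := fun y => gm_nonneg (Nat.cast_nonneg K) y
  have hR : ∑ h ∈ range N, gm K (α * h) ≤ K + ∑ h ∈ Icc 1 N, gm K (α * h) := by
    have hsub : range N ⊆ insert 0 (Icc 1 N) := by
      intro h hh
      rw [mem_range] at hh
      rw [mem_insert, mem_Icc]
      omega
    refine (sum_le_sum_of_subset_of_nonneg hsub (fun h _ _ => hnn _)).trans ?_
    rw [sum_insert (by simp)]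
    rw [Nat.cast_zero, mul_zero, vino_gm_zero]
  have h1 : ∑ n' ∈ (range N).filter (fun n' => n' ≤ n), gm K (α * ((n : ℝ) - n')) ≤
      ∑ h ∈ range N, gm K (α * h) := by
    have e : ∑ n' ∈ (range N).filter (fun n' => n' ≤ n), gm K (α * ((n : ℝ) - n')) =
        ∑ h ∈ ((range N).filter (fun n' => n' ≤ n)).image (fun n' => n - n'), gm K (α * h) := by
      rw [sum_image]
      · apply sum_congr rfl
        intro n' hn'
        rw [mem_filter] at hn'
        rw [Nat.cast_sub hn'.2]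
      · intro u hu v hv huv
        simp only [coe_filter, mem_range, Set.mem_ofPred_eq] at hu hv
        simp only at huv
        omega
    rw [e]
    apply sum_le_sum_of_subset_of_nonneg
    · intro h hh
      rw [mem_image] at hh
      obtain ⟨n', _, rfl⟩ := hh
      rw [mem_range]
      omega
    · intro h _ _
      exact hnn _
  have h2 : ∑ n' ∈ (range N).filter (fun n' => ¬ n' ≤ n), gm K (α * ((n : ℝ) - n')) ≤
      ∑ h ∈ range N, gm K (α * h) := by
    have e : ∑ n' ∈ (range N).filter (fun n' => ¬ n' ≤ n), gm K (α * ((n : ℝ) - n')) =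
        ∑ h ∈ ((range N).filter (fun n' => ¬ n' ≤ n)).image (fun n' => n' - n), gm K (α * h) := by
      rw [sum_image]
      · apply sum_congr rfl
        intro n' hn'
        rw [mem_filter] at hn'
        rw [Nat.cast_sub (by omega), ← vino_gm_neg]
        congr 1
        ring
      · intro u hu v hv huv
        simp only [coe_filter, mem_range, Set.mem_ofPred_eq] at hu hv
        simp only at huv
        omega
    rw [e]
    apply sum_le_sum_of_subset_of_nonneg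
    · intro h hh
      rw [mem_image] at hh
      obtain ⟨n', hn', rfl⟩ := hh
      rw [mem_filter, mem_range] at hn'
      rw [mem_range]
      omega
    · intro h _ _
      exact hnn _
  rw [← sum_filter_add_sum_filter_not (range N) (fun n' => n' ≤ n)]
  linarith

theorem vino_bilinear (α : ℝ) (K N x' : ℕ) (b : ℕ → ℂ) :
    ∑ m ∈ Ioc K (2 * K), ‖∑ n ∈ (range N).filter (fun n => m * n < x'),
      b n * ee (α * ((m * n : ℕ) : ℝ))‖ ^ 2 ≤
      (∑ n ∈ range N, ‖b n‖ ^ 2) * (2 * (K + ∑ h ∈ Icc 1 N, gm K (α * h))) := by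
  have hnn : ∀ y : ℝ, 0 ≤ gm K y := fun y => gm_nonneg (Nat.cast_nonneg K) y
  set T : ℕ → ℂ := fun m => ∑ n ∈ range N, b n * (if m * n < x' then ee (α * ((m * n : ℕ) : ℝ)) else 0)
    with hT
  have hT' : ∀ m, ∑ n ∈ (range N).filter (fun n => m * n < x'),
      b n * ee (α * ((m * n : ℕ) : ℝ)) = T m := by
    intro m
    rw [sum_filter, hT]
    apply sum_congr rfl
    intro n _
    split_ifs <;> simp
  simp_rw [hT']
  have hsq : ((∑ m ∈ Ioc K (2 * K), ‖T m‖ ^ 2 : ℝ) : ℂ) =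
      ∑ n ∈ range N, ∑ n' ∈ range N, b n * conj (b n') * ∑ m ∈ Ioc K (2 * K),
        (if m * n < x' then ee (α * ((m * n : ℕ) : ℝ)) else 0) *
        conj (if m * n' < x' then ee (α * ((m * n' : ℕ) : ℝ)) else 0) := by
    rw [Complex.ofReal_sum]
    simp only [Complex.ofReal_pow]
    calc ∑ m ∈ Ioc K (2 * K), ((‖T m‖ : ℂ)) ^ 2 = ∑ m ∈ Ioc K (2 * K), T m * conj (T m) := by
          apply sum_congr rfl
          intro m _
          rw [Complex.mul_conj']
      _ = ∑ m ∈ Ioc K (2 * K), ∑ n ∈ range N, ∑ n' ∈ range N, b n * conj (b n') *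
            ((if m * n < x' then ee (α * ((m * n : ℕ) : ℝ)) else 0) *
            conj (if m * n' < x' then ee (α * ((m * n' : ℕ) : ℝ)) else 0)) := by
          apply sum_congr rfl
          intro m _
          rw [hT, map_sum, sum_mul_sum]
          apply sum_congr rfl
          intro n _
          apply sum_congr rfl
          intro n' _
          rw [map_mul]
          ring
      _ = _ := by
          rw [sum_comm]
          apply sum_congr rfl
          intro n _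
          rw [sum_comm]
          apply sum_congr rfl
          intro n' _
          rw [mul_sum]
  have hle : ∑ m ∈ Ioc K (2 * K), ‖T m‖ ^ 2 ≤
      ∑ n ∈ range N, ∑ n' ∈ range N, ‖b n‖ * ‖b n'‖ * gm K (α * ((n : ℝ) - n')) := by
    have h0 : 0 ≤ ∑ m ∈ Ioc K (2 * K), ‖T m‖ ^ 2 := by positivity
    have h1 : ∑ m ∈ Ioc K (2 * K), ‖T m‖ ^ 2 = ‖((∑ m ∈ Ioc K (2 * K), ‖T m‖ ^ 2 : ℝ) : ℂ)‖ := by
      rw [Complex.norm_real, Real.norm_of_nonneg h0]
    rw [h1, hsq]
    refine (norm_sum_le _ _).trans (sum_le_sum fun n _ => ?_)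
    refine (norm_sum_le _ _).trans (sum_le_sum fun n' _ => ?_)
    rw [norm_mul, norm_mul, RCLike.norm_conj]
    exact mul_le_mul_of_nonneg_left (vino_inner α K x' n n') (by positivity)
  refine hle.trans ?_
  have hsym : ∀ n n' : ℕ, gm K (α * ((n : ℝ) - n')) = gm K (α * ((n' : ℝ) - n)) := by
    intro n n'
    rw [← vino_gm_neg]
    congr 1
    ring
  calc ∑ n ∈ range N, ∑ n' ∈ range N, ‖b n‖ * ‖b n'‖ * gm K (α * ((n : ℝ) - n')) ≤
        ∑ n ∈ range N, ∑ n' ∈ range N, ((‖b n‖ ^ 2 * gm K (α * ((n : ℝ) - n'))) / 2 +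
          (‖b n'‖ ^ 2 * gm K (α * ((n' : ℝ) - n))) / 2) := by
        apply sum_le_sum
        intro n _
        apply sum_le_sum
        intro n' _
        rw [hsym n' n]
        have h1 : ‖b n‖ * ‖b n'‖ ≤ (‖b n‖ ^ 2 + ‖b n'‖ ^ 2) / 2 := by
          nlinarith [sq_nonneg (‖b n‖ - ‖b n'‖)]
        have h2 := mul_le_mul_of_nonneg_right h1 (hnn (α * ((n : ℝ) - n')))
        linarith
    _ = ∑ n ∈ range N, ‖b n‖ ^ 2 * ∑ n' ∈ range N, gm K (α * ((n : ℝ) - n')) := by
        have e1 : ∑ n ∈ range N, ∑ n' ∈ range N, (‖b n'‖ ^ 2 * gm K (α * ((n' : ℝ) - n))) / 2 =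
            ∑ n ∈ range N, ∑ n' ∈ range N, (‖b n‖ ^ 2 * gm K (α * ((n : ℝ) - n'))) / 2 := sum_comm
        simp_rw [sum_add_distrib]
        rw [e1, ← sum_add_distrib]
        apply sum_congr rfl
        intro n _
        rw [← sum_add_distrib, mul_sum]
        apply sum_congr rfl
        intro n' _
        ring
    _ ≤ ∑ n ∈ range N, ‖b n‖ ^ 2 * (2 * (K + ∑ h ∈ Icc 1 N, gm K (α * h))) := by
        apply sum_le_sum
        intro n hn
        rw [mem_range] at hn
        exact mul_le_mul_of_nonneg_left (vino_kernel α K N n hn) (by positivity)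
    _ = _ := by rw [sum_mul]

/-! ### numerics -/

theorem vino_log_ge_one (x : ℕ) (hx : 3 ≤ x) : 1 ≤ Real.log x := by
  have h1 : (3 : ℝ) ≤ x := by exact_mod_cast hx
  rw [Real.le_log_iff_exp_le (by linarith)]
  have := Real.exp_one_lt_d9
  linarith

theorem vino_log_two_mul (x : ℕ) (hx : 3 ≤ x) (y : ℝ) (hy : 1 ≤ y) (hyx : y ≤ 2 * x) :
    Real.log y ≤ 2 * Real.log x := by
  have h1 : (3 : ℝ) ≤ x := by exact_mod_cast hx
  have h2 : Real.log y ≤ Real.log (2 * x) := Real.log_le_log (by linarith) hyx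
  have h3 : Real.log (2 * x) = Real.log 2 + Real.log x :=
    Real.log_mul (by norm_num) (by linarith)
  have h4 : Real.log 2 ≤ Real.log x := Real.log_le_log (by norm_num) (by linarith)
  linarith

theorem vino_sum_tau (x : ℕ) (hx : 3 ≤ x) (N : ℕ) (hN : 1 ≤ N) (hNx : N ≤ 2 * x) (S : Finset ℕ)
    (hS : S ⊆ range (N + 1)) (b : ℕ → ℂ)
    (hb : ∀ n, ‖b n‖ ≤ Real.log x * (n.divisors.card : ℝ)) :
    ∑ n ∈ S, ‖b n‖ ^ 2 ≤ 81 * N * Real.log x ^ 6 := by
  have hl := vino_log_ge_one x hx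
  set l := Real.log x with hlx
  have h1 : ∑ n ∈ S, ‖b n‖ ^ 2 ≤ l ^ 2 * ∑ n ∈ range (N + 1), ((n.divisors.card : ℝ)) ^ 2 := by
    rw [mul_sum]
    refine (sum_le_sum_of_subset_of_nonneg hS (fun n _ _ => by positivity)).trans ?_
    apply sum_le_sum
    intro n _
    rw [← mul_pow]
    exact pow_le_pow_left₀ (norm_nonneg _) (hb n) 2
  have h2 := sum_tau2 N hN
  have h3 : Real.log N ≤ 2 * l := vino_log_two_mul x hx N (by exact_mod_cast hN) (by exact_mod_cast hNx)
  have h30 : 0 ≤ Real.log N := Real.log_natCast_nonneg N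
  have h4 : (1 + Real.log N) ^ 4 ≤ (3 * l) ^ 4 := pow_le_pow_left₀ (by linarith) (by linarith) 4
  calc ∑ n ∈ S, ‖b n‖ ^ 2 ≤ l ^ 2 * ∑ n ∈ range (N + 1), ((n.divisors.card : ℝ)) ^ 2 := h1
    _ ≤ l ^ 2 * (N * (1 + Real.log N) ^ 4) := mul_le_mul_of_nonneg_left h2 (by positivity)
    _ ≤ l ^ 2 * (N * (3 * l) ^ 4) := by gcongr
    _ = 81 * N * l ^ 6 := by ring

/-- the size `x/√q + x^(5/6) + √(xq)` -/
noncomputable def vinoE (x q : ℕ) : ℝ :=
  x / Real.sqrt q + (x : ℝ) ^ (5 / 6 : ℝ) + Real.sqrt (x * q)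

theorem vinoE_sq (x q : ℕ) (hx : 3 ≤ x) (hq : 1 ≤ q) :
    (x : ℝ) * ((x : ℝ) / q + (x : ℝ) ^ (2 / 3 : ℝ) + q) ≤ vinoE x q ^ 2 := by
  have hx0 : (0 : ℝ) < x := by exact_mod_cast (by omega : 0 < x)
  have hq0 : (0 : ℝ) < q := by exact_mod_cast (by omega : 0 < q)
  have e1 : ((x : ℝ) / Real.sqrt q) ^ 2 = x * (x / q) := by
    rw [div_pow, Real.sq_sqrt hq0.le]; ring
  have e2 : ((x : ℝ) ^ (5 / 6 : ℝ)) ^ 2 = x * (x : ℝ) ^ (2 / 3 : ℝ) := by
    rw [← Real.rpow_natCast, ← Real.rpow_mul hx0.le]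
    nth_rw 2 [← Real.rpow_one (x : ℝ)]
    rw [← Real.rpow_add hx0]
    norm_num
  have e3 : (Real.sqrt (x * q)) ^ 2 = x * q := Real.sq_sqrt (by positivity)
  have p1 : 0 ≤ (x : ℝ) / Real.sqrt q := by positivity
  have p2 : 0 ≤ (x : ℝ) ^ (5 / 6 : ℝ) := by positivity
  have p3 : 0 ≤ Real.sqrt (x * q) := Real.sqrt_nonneg _
  have : vinoE x q ^ 2 = ((x : ℝ) / Real.sqrt q) ^ 2 + ((x : ℝ) ^ (5 / 6 : ℝ)) ^ 2 +
      (Real.sqrt (x * q)) ^ 2 + 2 * ((x : ℝ) / Real.sqrt q * (x : ℝ) ^ (5 / 6 : ℝ) +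
      (x : ℝ) / Real.sqrt q * Real.sqrt (x * q) + (x : ℝ) ^ (5 / 6 : ℝ) * Real.sqrt (x * q)) := by
    unfold vinoE; ring
  rw [this, e1, e2, e3]
  have : 0 ≤ 2 * ((x : ℝ) / Real.sqrt q * (x : ℝ) ^ (5 / 6 : ℝ) +
      (x : ℝ) / Real.sqrt q * Real.sqrt (x * q) + (x : ℝ) ^ (5 / 6 : ℝ) * Real.sqrt (x * q)) := by
    positivity
  linarith

theorem vinoE_ge (x q : ℕ) (hx : 3 ≤ x) (hq : 1 ≤ q) (hqx : q ≤ x) :
    (x : ℝ) / q + (x : ℝ) ^ (2 / 3 : ℝ) + q ≤ vinoE x q := by
  have hx0 : (0 : ℝ) < x := by exact_mod_cast (by omega : 0 < x)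
  have hx1 : (1 : ℝ) ≤ x := by exact_mod_cast (by omega : 1 ≤ x)
  have hq0 : (0 : ℝ) < q := by exact_mod_cast (by omega : 0 < q)
  have hq1 : (1 : ℝ) ≤ q := by exact_mod_cast hq
  have hqx' : (q : ℝ) ≤ x := by exact_mod_cast hqx
  have h1 : (x : ℝ) / q ≤ x / Real.sqrt q := by
    apply div_le_div_of_nonneg_left hx0.le (Real.sqrt_pos.mpr hq0)
    rw [Real.sqrt_le_left (by linarith)]
    nlinarith
  have h2 : (x : ℝ) ^ (2 / 3 : ℝ) ≤ (x : ℝ) ^ (5 / 6 : ℝ) :=
    Real.rpow_le_rpow_of_exponent_le hx1 (by norm_num)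
  have h3 : (q : ℝ) ≤ Real.sqrt (x * q) := by
    apply Real.le_sqrt_of_sq_le
    nlinarith
  unfold vinoE
  linarith

theorem vino_typeII : ∃ C : ℝ, 0 < C ∧ ∀ x : ℕ, 3 ≤ x → ∀ (α : ℝ) (q : ℕ), 1 ≤ q → q ≤ x →
    ∀ a : ℤ, IsCoprime a (q : ℤ) → |α - (a : ℝ) / q| ≤ 1 / (q : ℝ) ^ 2 → ∀ U : ℕ, 1 ≤ U →
    (x : ℝ) ^ (1 / 3 : ℝ) ≤ U →
    TIIB (fun n => ee (α * n)) x U (C * Real.log x ^ 7 * vinoE x q) := by
  obtain ⟨C2, hC2, hb2⟩ := block_gm
  set C4 : ℝ := 4 * 6561 * (2 + 10 * C2) with hC4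
  have hC40 : 0 < C4 := by positivity
  refine ⟨1 + C4, by positivity, ?_⟩
  intro x hx α q hq hqx r hr hα U hU1 hU a b ha hb x' hx' K hUK hKK
  have hl := vino_log_ge_one x hx
  set l := Real.log x with hlx
  have hx0 : (0 : ℝ) < x := by exact_mod_cast (by omega : 0 < x)
  have hq0 : (0 : ℝ) < q := by exact_mod_cast (by omega : 0 < q)
  have hq1 : (1 : ℝ) ≤ q := by exact_mod_cast hq
  have hqx' : (q : ℝ) ≤ x := by exact_mod_cast hqx
  have hK1 : 1 ≤ K := by omega
  have hK0 : (0 : ℝ) < K := by exact_mod_cast hK1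
  have hK1' : (1 : ℝ) ≤ K := by exact_mod_cast hK1
  have hKx : K ≤ x := by nlinarith
  have hKK' : (K : ℝ) * K ≤ x := by exact_mod_cast hKK
  set N := x / K + 1 with hN
  have hN1 : 1 ≤ N := Nat.le_add_left 1 _
  have hNr : (N : ℝ) ≤ x / K + 1 := by
    rw [hN]; push_cast
    have : ((x / K : ℕ) : ℝ) ≤ (x : ℝ) / K := Nat.cast_div_le
    linarith
  have hxK1 : 1 ≤ (x : ℝ) / K := by
    rw [le_div_iff₀ hK0]
    have : (K : ℝ) ≤ x := by exact_mod_cast hKx
    linarith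
  have hN2 : (N : ℝ) ≤ 2 * (x / K) := by linarith
  have hNx : N ≤ 2 * x := by
    have h1 : x / K ≤ x := Nat.div_le_self _ _
    rw [hN]
    generalize x / K = w at h1 ⊢
    omega
  -- `x / K ≤ x ^ (2/3)`, `K ≤ x ^ (2/3)`
  set X := (x : ℝ) ^ (2 / 3 : ℝ) with hX
  have hX0 : 0 < X := by positivity
  have hUX : (x : ℝ) ^ (1 / 3 : ℝ) * X = x := by
    rw [hX, ← Real.rpow_add hx0]; norm_num
  have hxKX : (x : ℝ) / K ≤ X := by
    rw [div_le_iff₀ hK0]
    have h1 : (x : ℝ) ^ (1 / 3 : ℝ) ≤ K := hU.trans (by exact_mod_cast hUK)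
    nlinarith
  have hKX : (K : ℝ) ≤ X := by
    have h1 : (K : ℝ) ≤ x / K := by rw [le_div_iff₀ hK0]; exact hKK'
    linarith
  -- Cauchy
  set T : ℕ → ℂ := fun m => ∑ n ∈ (range N).filter (fun n => m * n < x'),
      b n * ee (α * ((m * n : ℕ) : ℝ)) with hT
  have hS : ‖∑ m ∈ Ioc K (2 * K), ∑ n ∈ (range (x / K + 1)).filter (fun n => m * n < x'),
      a m * b n * (fun n : ℕ => ee (α * n)) (m * n)‖ ≤ ∑ m ∈ Ioc K (2 * K), ‖a m‖ * ‖T m‖ := by
    refine (norm_sum_le _ _).trans (sum_le_sum fun m _ => ?_)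
    rw [← norm_mul, hT]
    simp only
    rw [mul_sum]
    apply le_of_eq
    congr 1
    apply sum_congr rfl
    intro n _
    ring
  have hA := vino_sum_tau x hx (2 * K) (by omega) (by omega) (Ioc K (2 * K)) (by
    intro m hm
    rw [mem_Ioc] at hm
    rw [mem_range]
    omega) a ha
  have hB := vino_sum_tau x hx N hN1 hNx (range N) (by
    intro m hm
    rw [mem_range] at hm ⊢
    omega) b hb
  have hT2 := vino_bilinear α K N x' b
  have hG := hb2 α q hq r hr hα (K : ℝ) N hK1'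
  have hlq : Real.log (2 * q) ≤ 2 * l := vino_log_two_mul x hx _ (by linarith) (by linarith)
  have hlq0 : 0 ≤ Real.log (2 * q) := Real.log_nonneg (by linarith)
  have hG2 : 2 * ((K : ℝ) + ∑ h ∈ Icc 1 N, gm K (α * h)) ≤
      (2 + 10 * C2) * l * ((x : ℝ) / q + X + q) := by
    have g1 : ((N : ℝ) / q + 1) * (K + q * Real.log (2 * q)) ≤
        2 * ((x : ℝ) / q) + 5 * l * X + 2 * l * q := by
      have e : ((N : ℝ) / q + 1) * (K + q * Real.log (2 * q)) =
          (N * K) / q + N * Real.log (2 * q) + K + q * Real.log (2 * q) := by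
        field_simp
        ring
      rw [e]
      have s1 : (N : ℝ) * K / q ≤ 2 * (x / q) := by
        have : (N : ℝ) * K ≤ 2 * x := by
          have := mul_le_mul_of_nonneg_right hN2 hK0.le
          have e2 : 2 * ((x : ℝ) / K) * K = 2 * x := by field_simp
          linarith
        calc (N : ℝ) * K / q ≤ 2 * x / q := by gcongr
          _ = 2 * (x / q) := by ring
      have s2 : (N : ℝ) * Real.log (2 * q) ≤ (2 * X) * (2 * l) := by
        apply mul_le_mul (by linarith) hlq hlq0 (by linarith)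
      have s3 : (q : ℝ) * Real.log (2 * q) ≤ q * (2 * l) := by gcongr
      have s4 : (K : ℝ) ≤ l * X := by
        have : X ≤ l * X := le_mul_of_one_le_left hX0.le hl
        linarith
      have e3 : (2 * X) * (2 * l) = 4 * (l * X) := by ring
      have e4 : (q : ℝ) * (2 * l) = 2 * l * q := by ring
      have e5 : 5 * l * X = 4 * (l * X) + l * X := by ring
      rw [e3] at s2
      rw [e4] at s3
      rw [e5]
      linarith
    have g2 : ∑ h ∈ Icc 1 N, gm K (α * h) ≤ C2 * (2 * ((x : ℝ) / q) + 5 * l * X + 2 * l * q) := by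
      refine hG.trans ?_
      rw [mul_assoc]
      exact mul_le_mul_of_nonneg_left g1 hC2.le
    have hxq : 0 ≤ (x : ℝ) / q := by positivity
    have t1 : (x : ℝ) / q ≤ l * (x / q) := le_mul_of_one_le_left hxq hl
    have t2 : (K : ℝ) ≤ l * X := by
      have : X ≤ l * X := le_mul_of_one_le_left hX0.le hl
      linarith
    have t3 : 0 ≤ l * X := by positivity
    have t4 : 0 ≤ l * q := by positivity
    have t5 : 0 ≤ l * (x / q) := by positivity
    have g3 : C2 * (2 * ((x : ℝ) / q) + 5 * l * X + 2 * l * q) ≤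
        C2 * (5 * (l * (x / q)) + 5 * (l * X) + 5 * (l * q)) := by
      apply mul_le_mul_of_nonneg_left _ hC2.le
      have e1 : 5 * l * X = 5 * (l * X) := by ring
      have e2 : 2 * l * (q : ℝ) = 2 * (l * q) := by ring
      rw [e1, e2]
      linarith
    calc 2 * ((K : ℝ) + ∑ h ∈ Icc 1 N, gm K (α * h)) ≤
          2 * (l * X + C2 * (5 * (l * (x / q)) + 5 * (l * X) + 5 * (l * q))) := by linarith
      _ = (2 + 10 * C2) * l * ((x : ℝ) / q + X + q) - 2 * (l * (x / q)) - 2 * (l * q) := by ring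
      _ ≤ (2 + 10 * C2) * l * ((x : ℝ) / q + X + q) := by linarith
  have hCS : (∑ m ∈ Ioc K (2 * K), ‖a m‖ * ‖T m‖) ^ 2 ≤
      (∑ m ∈ Ioc K (2 * K), ‖a m‖ ^ 2) * ∑ m ∈ Ioc K (2 * K), ‖T m‖ ^ 2 :=
    sum_mul_sq_le_sq_mul_sq _ _ _
  have hE := vinoE_sq x q hx hq
  have hE0 : 0 ≤ vinoE x q := by unfold vinoE; positivity
  have hfin : (∑ m ∈ Ioc K (2 * K), ‖a m‖ * ‖T m‖) ^ 2 ≤ ((1 + C4) * l ^ 7 * vinoE x q) ^ 2 := by
    have u1 : (∑ n ∈ range N, ‖b n‖ ^ 2) * (2 * ((K : ℝ) + ∑ h ∈ Icc 1 N, gm K (α * h))) ≤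
        (81 * N * l ^ 6) * ((2 + 10 * C2) * l * ((x : ℝ) / q + X + q)) := by
      apply mul_le_mul hB hG2 _ (by positivity)
      have : 0 ≤ ∑ h ∈ Icc 1 N, gm K (α * h) := sum_nonneg fun h _ => gm_nonneg hK0.le _
      positivity
    calc (∑ m ∈ Ioc K (2 * K), ‖a m‖ * ‖T m‖) ^ 2 ≤
          (∑ m ∈ Ioc K (2 * K), ‖a m‖ ^ 2) * ∑ m ∈ Ioc K (2 * K), ‖T m‖ ^ 2 := hCS
      _ ≤ (81 * ((2 * K : ℕ) : ℝ) * l ^ 6) *
          ((81 * N * l ^ 6) * ((2 + 10 * C2) * l * ((x : ℝ) / q + X + q))) := by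
          apply mul_le_mul hA (hT2.trans u1) (by positivity) (by positivity)
      _ = 6561 * 2 * (K * N) * (2 + 10 * C2) * l ^ 13 * ((x : ℝ) / q + X + q) := by
          push_cast; ring
      _ ≤ 6561 * 2 * (2 * x) * (2 + 10 * C2) * l ^ 13 * ((x : ℝ) / q + X + q) := by
          have : (K : ℝ) * N ≤ 2 * x := by
            have := mul_le_mul_of_nonneg_left hN2 hK0.le
            have e2 : (K : ℝ) * (2 * ((x : ℝ) / K)) = 2 * x := by field_simp
            linarith
          gcongr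
      _ = C4 * l ^ 13 * (x * ((x : ℝ) / q + X + q)) := by rw [hC4]; ring
      _ ≤ C4 * l ^ 13 * vinoE x q ^ 2 := by gcongr
      _ ≤ (1 + C4) ^ 2 * l ^ 14 * vinoE x q ^ 2 := by
          have v1 : C4 ≤ (1 + C4) ^ 2 := by nlinarith
          have v2 : l ^ 13 ≤ l ^ 14 := pow_le_pow_right₀ hl (by norm_num)
          gcongr
      _ = ((1 + C4) * l ^ 7 * vinoE x q) ^ 2 := by ring
  have hfin2 : ∑ m ∈ Ioc K (2 * K), ‖a m‖ * ‖T m‖ ≤ (1 + C4) * l ^ 7 * vinoE x q := by
    apply abs_le_of_sq_le_sq' hfin (by positivity) |>.2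
  exact hS.trans hfin2

theorem vinog : ∃ C : ℝ, 0 < C ∧ ∀ x : ℕ, 3 ≤ x → ∀ (α : ℝ) (q : ℕ), 1 ≤ q → ∀ a : ℤ,
    IsCoprime a (q : ℤ) → |α - (a : ℝ) / q| ≤ 1 / (q : ℝ) ^ 2 →
    ‖∑ n ∈ range x, Lam n * ee (α * n)‖ ≤
      C * (x / Real.sqrt q + (x : ℝ) ^ (5 / 6 : ℝ) + Real.sqrt (x * q)) * (Real.log x) ^ 12 := by
  obtain ⟨C1, hC1, h1⟩ := vino_B1
  obtain ⟨C2, hC2, h2⟩ := vino_typeII
  refine ⟨2 + 200 * C1 + 5 * C2, by positivity, ?_⟩
  intro x hx α q hq a ha hα
  have hl := vino_log_ge_one x hx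
  set l := Real.log x with hlx
  have hx0 : (0 : ℝ) < x := by exact_mod_cast (by omega : 0 < x)
  have hx1 : (1 : ℝ) ≤ x := by exact_mod_cast (by omega : 1 ≤ x)
  have hx3 : (3 : ℝ) ≤ x := by exact_mod_cast hx
  have hq0 : (0 : ℝ) < q := by exact_mod_cast (by omega : 0 < q)
  have hq1 : (1 : ℝ) ≤ q := by exact_mod_cast hq
  change ‖∑ n ∈ range x, Lam n * ee (α * n)‖ ≤ (2 + 200 * C1 + 5 * C2) * vinoE x q * l ^ 12
  have hE0 : 0 ≤ vinoE x q := by unfold vinoE; positivity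
  have hpow : ∀ k : ℕ, k ≤ 12 → l ^ k ≤ l ^ 12 := fun k hk => pow_le_pow_right₀ hl hk
  by_cases hqx : q ≤ x
  · have hqx' : (q : ℝ) ≤ x := by exact_mod_cast hqx
    set U := ⌈(x : ℝ) ^ (1 / 3 : ℝ)⌉₊ with hU
    have hx13 : 1 ≤ (x : ℝ) ^ (1 / 3 : ℝ) := Real.one_le_rpow hx1 (by norm_num)
    have hU1 : (x : ℝ) ^ (1 / 3 : ℝ) ≤ U := Nat.le_ceil _
    have hU2 : (U : ℝ) ≤ 2 * (x : ℝ) ^ (1 / 3 : ℝ) := by
      have := Nat.ceil_lt_add_one (show 0 ≤ (x : ℝ) ^ (1 / 3 : ℝ) by positivity)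
      rw [← hU] at this
      linarith
    have hU1n : 1 ≤ U := by
      have : (1 : ℝ) ≤ U := hx13.trans hU1
      exact_mod_cast this
    have hV : ((U * U : ℕ) : ℝ) ≤ 4 * (x : ℝ) ^ (2 / 3 : ℝ) := by
      push_cast
      have e : (x : ℝ) ^ (2 / 3 : ℝ) = (x : ℝ) ^ (1 / 3 : ℝ) * (x : ℝ) ^ (1 / 3 : ℝ) := by
        rw [← Real.rpow_add hx0]; norm_num
      rw [e]
      have hU0 : (0 : ℝ) ≤ U := Nat.cast_nonneg U
      nlinarith
    have hV1 : 1 ≤ U * U := Nat.mul_pos hU1n hU1n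
    have hB1 := h1 x hx α q hq a ha hα (U * U) hV1
    have hTII := h2 x hx α q hq hqx a ha hα U hU1n hU1
    have hlq : Real.log (2 * q) ≤ 2 * l := vino_log_two_mul x hx _ (by linarith) (by linarith)
    have hlq0 : 0 ≤ Real.log (2 * q) := Real.log_nonneg (by linarith)
    have hlog2 := Real.log_two_gt_d9
    have hnl : ∀ V : ℕ, 1 ≤ V → (Nat.log 2 V : ℝ) * 0.69 ≤ Real.log V := by
      intro V hV
      have e1 : 2 ^ Nat.log 2 V ≤ V := Nat.pow_log_le_self 2 (by omega)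
      have e2 : (2 : ℝ) ^ Nat.log 2 V ≤ V := by exact_mod_cast e1
      have e3 := Real.log_le_log (by positivity) e2
      rw [Real.log_pow] at e3
      have e4 : (0 : ℝ) ≤ (Nat.log 2 V : ℝ) := Nat.cast_nonneg _
      nlinarith
    have hVx : Real.log ((U * U : ℕ) : ℝ) ≤ 3 * l := by
      have h3 : ((U * U : ℕ) : ℝ) ≤ 4 * x := by
        refine hV.trans ?_
        have : (x : ℝ) ^ (2 / 3 : ℝ) ≤ (x : ℝ) ^ (1 : ℝ) :=
          Real.rpow_le_rpow_of_exponent_le hx1 (by norm_num)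
        rw [Real.rpow_one] at this
        linarith
      have h4 : Real.log ((U * U : ℕ) : ℝ) ≤ Real.log (4 * x) :=
        Real.log_le_log (by exact_mod_cast hV1) h3
      have h5 : Real.log (4 * x) = Real.log 4 + Real.log x := Real.log_mul (by norm_num) hx0.ne'
      have h6 : Real.log 4 = 2 * Real.log 2 := by
        rw [show (4 : ℝ) = 2 ^ 2 by norm_num, Real.log_pow]; norm_num
      have h7 : Real.log 2 ≤ l := Real.log_le_log (by norm_num) (by linarith)
      rw [← hlx] at h5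
      linarith
    have hL1 : (Nat.log 2 (U * U) : ℝ) + 1 ≤ 6 * l := by
      have := hnl (U * U) hV1
      nlinarith
    have hL2 : (Nat.log 2 x : ℝ) + 1 ≤ 2.5 * l := by
      have := hnl x (by omega)
      nlinarith
    have hEge := vinoE_ge x q hx hq hqx
    set X := (x : ℝ) ^ (2 / 3 : ℝ) with hX
    have hX0 : 0 < X := by positivity
    have hB1' : ∑ m ∈ Icc 1 (U * U), (1 + gm ((x : ℝ) / m + 1) (α * m)) ≤
        48 * C1 * l ^ 2 * vinoE x q := by
      refine hB1.trans ?_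
      calc C1 * ((x : ℝ) / q + ((U * U : ℕ) : ℝ) + q) * ((Nat.log 2 (U * U) : ℝ) + 1) * Real.log (2 * q) ≤
            C1 * ((x : ℝ) / q + 4 * X + q) * (6 * l) * (2 * l) := by gcongr
        _ ≤ C1 * (4 * ((x : ℝ) / q + X + q)) * (6 * l) * (2 * l) := by
            have : 0 ≤ (x : ℝ) / q := by positivity
            gcongr
            linarith
        _ ≤ C1 * (4 * vinoE x q) * (6 * l) * (2 * l) := by gcongr
        _ = _ := by ring
    have hmain := vaughan_bound (fun n : ℕ => ee (α * n)) x U (48 * C1 * l ^ 2 * vinoE x q)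
      (C2 * l ^ 7 * vinoE x q) (fun n => by rw [norm_ee])
      (fun m => 1 + gm ((x : ℝ) / m + 1) (α * m))
      (fun m => by
        have : 0 ≤ gm ((x : ℝ) / m + 1) (α * m) := gm_nonneg (by positivity) _
        linarith)
      (fun m hm _ x' hx' => vino_typeI x α m hm x' hx') hB1' (by positivity) hTII hU1n hx x le_rfl
    refine hmain.trans ?_
    rw [← hlx]
    have hUE : (U : ℝ) ≤ 2 * vinoE x q := by
      have h3 : (x : ℝ) ^ (1 / 3 : ℝ) ≤ X := Real.rpow_le_rpow_of_exponent_le hx1 (by norm_num)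
      have : 0 ≤ (x : ℝ) / q := by positivity
      linarith
    calc (U : ℝ) * l + 4 * l * (48 * C1 * l ^ 2 * vinoE x q) +
          2 * ((Nat.log 2 x : ℝ) + 1) * (C2 * l ^ 7 * vinoE x q) ≤
          (2 * vinoE x q) * l + 4 * l * (48 * C1 * l ^ 2 * vinoE x q) +
          2 * (2.5 * l) * (C2 * l ^ 7 * vinoE x q) := by gcongr
      _ = vinoE x q * (2 * l ^ 1 + 192 * C1 * l ^ 3 + 5 * C2 * l ^ 8) := by ring
      _ ≤ vinoE x q * (2 * l ^ 12 + 192 * C1 * l ^ 12 + 5 * C2 * l ^ 12) := by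
          have k1 := hpow 1 (by norm_num)
          have k3 := hpow 3 (by norm_num)
          have k8 := hpow 8 (by norm_num)
          gcongr
      _ = (2 + 200 * C1 + 5 * C2) * vinoE x q * l ^ 12 - 8 * (C1 * (vinoE x q * l ^ 12)) := by ring
      _ ≤ (2 + 200 * C1 + 5 * C2) * vinoE x q * l ^ 12 := by
          have : 0 ≤ C1 * (vinoE x q * l ^ 12) := by positivity
          linarith
  · push Not at hqx
    have hqx' : (x : ℝ) ≤ q := by exact_mod_cast hqx.le
    have hE1 : (x : ℝ) ≤ vinoE x q := by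
      have h3 : (x : ℝ) ≤ Real.sqrt (x * q) := by
        apply Real.le_sqrt_of_sq_le
        nlinarith
      have p1 : 0 ≤ (x : ℝ) / Real.sqrt q := by positivity
      have p2 : 0 ≤ (x : ℝ) ^ (5 / 6 : ℝ) := by positivity
      unfold vinoE
      linarith
    have htriv : ‖∑ n ∈ range x, Lam n * ee (α * n)‖ ≤ x * l := by
      calc ‖∑ n ∈ range x, Lam n * ee (α * n)‖ ≤ ∑ n ∈ range x, l := by
            refine (norm_sum_le _ _).trans (sum_le_sum fun n hn => ?_)
            rw [norm_mul, norm_ee, mul_one]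
            unfold Lam
            rw [Complex.norm_real, Real.norm_of_nonneg ArithmeticFunction.vonMangoldt_nonneg]
            refine ArithmeticFunction.vonMangoldt_le_log.trans ?_
            rw [mem_range] at hn
            rcases Nat.eq_zero_or_pos n with rfl | hn0
            · simp; linarith
            · exact Real.log_le_log (by exact_mod_cast hn0) (by exact_mod_cast hn.le)
        _ = x * l := by rw [sum_const, card_range, nsmul_eq_mul]
    calc ‖∑ n ∈ range x, Lam n * ee (α * n)‖ ≤ x * l := htriv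
      _ ≤ vinoE x q * l ^ 12 := by
          have := hpow 1 (by norm_num)
          rw [pow_one] at this
          exact mul_le_mul hE1 this (by linarith) hE0
      _ ≤ (1 + (1 + 200 * C1 + 5 * C2)) * (vinoE x q * l ^ 12) := by
          apply le_mul_of_one_le_left (by positivity)
          have : 0 ≤ 1 + 200 * C1 + 5 * C2 := by positivity
          linarith
      _ = (2 + 200 * C1 + 5 * C2) * vinoE x q * l ^ 12 := by ring

end Pool.Agent.H10.RP
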