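import Mathlib

/-!
# Reversed primes: conductors of quadratic characters (job RP-12a)

PROOF of `quad_conductor`. Let `ψ` be the primitive character of `χ`, mod `f` (`f` the conductor);
`ψ ^ 2 = 1`. It is enough that `p ^ 2 ∤ f` for odd primes `p` and `16 ∤ f` (then every `p`-part of `f` divides
the `p`-part of `8 * ∏ p`; for `p = 2` the part is `1, 2, 4` or `8`). Suppose `p ^ 2 ∣ f`, `p` odd. The kernel
of `(ℤ/f)ˣ → (ℤ/(f/p))ˣ` consists of the `1 + (f/p) k`, `k mod p` (its `p`-th power is `1`: `(f/p)² ≡ 0 mod f`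
because `p² ∣ f`, so `(1 + (f/p) k) ^ n = 1 + n (f/p) k`). `ψ` of such an element `x` satisfies
`ψ(x) ^ p = 1` and `ψ(x) ^ 2 = 1`, so `ψ(x) = 1` and `ψ` factors through `f / p`, contradicting
primitivity (`DirichletCharacter.factorsThrough_iff_ker_unitsMap` or similar; `conductor` is the least
such level). If `16 ∣ f`: the kernel for `f / 2` is `{1, 1 + f/2}` and `1 + f/2 = (1 + f/4) ^ 2` mod `f`
(`(f/4)² = f (f/16) ≡ 0`), so `ψ(1 + f/2) = ψ(1 + f/4) ^ 2 = 1`, again a contradiction.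
-/

set_option autoImplicit false

open Finset

namespace Pool.Agent.H10.RP

/-- a primitive quadratic character does not factor through `f / m` if all elements of the
kernel are squares -/
theorem qc_aux {f : ℕ} [NeZero f] (ψ : DirichletCharacter ℂ f) (h2 : ψ ^ 2 = 1)
    (hp : ψ.IsPrimitive) (d : ℕ) (hd : d ∣ f) (hdf : d < f)
    (hsq : ∀ k : ℤ, ∃ z : ZMod f, (1 + (d : ZMod f) * k) = z * z) : False := by
  have hft : ψ.FactorsThrough d := by
    rw [DirichletCharacter.factorsThrough_iff_ker_unitsMap hd]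
    intro x hx
    rw [MonoidHom.mem_ker] at hx ⊢
    -- x = 1 + d k
    have h1 : ((x : ZMod f).cast : ZMod d) = 1 := by
      rw [← ZMod.unitsMap_val hd x, hx]
      rfl
    have h3 : ∃ k : ℤ, (x : ZMod f) = 1 + (d : ZMod f) * k := by
      have h4 : (((x : ZMod f).val : ℤ) : ZMod d) = ((1 : ℤ) : ZMod d) := by
        rw [Int.cast_one, ← h1, ZMod.cast_eq_val, Int.cast_natCast]
      rw [ZMod.intCast_eq_intCast_iff_dvd_sub] at h4
      obtain ⟨k, hk⟩ := h4
      refine ⟨-k, ?_⟩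
      have h5 : (((x : ZMod f).val : ℤ)) = 1 + (d : ℤ) * (-k) := by linarith
      have h6 := congrArg (fun t : ℤ => (t : ZMod f)) h5
      simp only [Int.cast_natCast, Int.cast_add, Int.cast_one, Int.cast_mul] at h6
      rw [ZMod.natCast_zmod_val] at h6
      exact h6
    obtain ⟨k, hk⟩ := h3
    obtain ⟨z, hz⟩ := hsq k
    have hz' : (x : ZMod f) = z * z := by rw [hk, hz]
    have hzu : IsUnit z := by
      have : IsUnit (z * z) := by rw [← hz']; exact x.isUnit
      exact isUnit_of_mul_isUnit_left this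
    obtain ⟨u, hu⟩ := hzu
    have h7 : ψ (x : ZMod f) = 1 := by
      rw [hz', map_mul, ← pow_two, ← MulChar.pow_apply' ψ two_ne_zero, h2, ← hu]
      exact MulChar.one_apply_coe u
    apply Units.ext
    rw [MulChar.coe_toUnitHom, h7]
    rfl
  have h8 : ψ.conductor ≤ d := Nat.sInf_le hft
  rw [hp] at h8
  omega

theorem qc_odd {f : ℕ} [NeZero f] (ψ : DirichletCharacter ℂ f) (h2 : ψ ^ 2 = 1)
    (hp : ψ.IsPrimitive) (p : ℕ) (hpp : p.Prime) (hodd : p ≠ 2) : ¬ p ^ 2 ∣ f := by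
  rintro ⟨m, hm⟩
  have hf : f ≠ 0 := NeZero.ne f
  have hm0 : 0 < m := by
    rcases Nat.eq_zero_or_pos m with h | h
    · rw [h, mul_zero] at hm
      exact absurd hm hf
    · exact h
  have hf2 : f = p * (p * m) := by rw [hm]; ring
  have hdd : p * m ∣ f := Dvd.intro_left p hf2.symm
  have h1p := hpp.one_lt
  have hlt : p * m < f := by
    rw [hf2]
    have : 0 < p * m := Nat.mul_pos (by omega) hm0
    nlinarith
  obtain ⟨t, ht⟩ : ∃ t, p = 2 * t + 1 := by
    rcases hpp.eq_two_or_odd' with h | h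
    · exact absurd h hodd
    · exact h
  refine qc_aux ψ h2 hp (p * m) hdd hlt fun k => ?_
  refine ⟨1 + ((t + 1 : ℕ) : ZMod f) * (((p * m : ℕ) : ZMod f) * k), ?_⟩
  have e1 : ((p * m : ℕ) : ZMod f) * ((p * m : ℕ) : ZMod f) = 0 := by
    rw [← Nat.cast_mul]
    rw [ZMod.natCast_eq_zero_iff]
    exact ⟨m, by rw [hm]; ring⟩
  have e2 : ((p : ℕ) : ZMod f) * ((p * m : ℕ) : ZMod f) = 0 := by
    rw [← Nat.cast_mul, ← hf2]
    exact ZMod.natCast_self f
  have e3 : 2 * ((t + 1 : ℕ) : ZMod f) = (p : ℕ) + 1 := by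
    have : 2 * (t + 1) = p + 1 := by omega
    exact_mod_cast congrArg (fun t : ℕ => (t : ZMod f)) this
  linear_combination (-(((p * m : ℕ) : ZMod f) * k)) * e3 - k * e2 -
    (((t + 1 : ℕ) : ZMod f) * k) ^ 2 * e1

theorem qc_two {f : ℕ} [NeZero f] (ψ : DirichletCharacter ℂ f) (h2 : ψ ^ 2 = 1)
    (hp : ψ.IsPrimitive) : ¬ 16 ∣ f := by
  rintro ⟨m, hm⟩
  have hf : f ≠ 0 := NeZero.ne f
  have hm0 : 0 < m := by omega
  refine qc_aux ψ h2 hp (8 * m) ⟨2, by rw [hm]; ring⟩ (by omega) fun k => ?_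
  refine ⟨1 + ((4 * m : ℕ) : ZMod f) * k, ?_⟩
  have e1 : ((4 * m : ℕ) : ZMod f) * ((4 * m : ℕ) : ZMod f) = 0 := by
    rw [← Nat.cast_mul]
    rw [ZMod.natCast_eq_zero_iff]
    exact ⟨m, by rw [hm]; ring⟩
  have e3 : ((8 * m : ℕ) : ZMod f) = 2 * ((4 * m : ℕ) : ZMod f) := by
    have : 8 * m = 2 * (4 * m) := by omega
    exact_mod_cast congrArg (fun t : ℕ => (t : ZMod f)) this
  linear_combination k * e3 - (k : ZMod f) ^ 2 * e1

theorem qc_dvd {f : ℕ} [NeZero f] (ψ : DirichletCharacter ℂ f) (h2 : ψ ^ 2 = 1)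
    (hp : ψ.IsPrimitive) : f ∣ 8 * ∏ p ∈ f.primeFactors, p := by
  have hf : f ≠ 0 := NeZero.ne f
  rw [Nat.dvd_iff_prime_pow_dvd_dvd]
  intro p k hpp hk
  by_cases h : p = 2
  · subst h
    have h4 : k ≤ 3 := by
      by_contra hcon
      have : 2 ^ 4 ∣ f := (pow_dvd_pow 2 (by omega)).trans hk
      exact qc_two ψ h2 hp (by simpa using this)
    exact ((pow_dvd_pow 2 h4).trans (by norm_num)).trans (Dvd.intro _ rfl)
  · have h4 : k ≤ 1 := by
      by_contra hcon
      exact qc_odd ψ h2 hp p hpp h ((pow_dvd_pow p (by omega)).trans hk)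
    rcases Nat.eq_zero_or_pos k with h5 | h5
    · rw [h5, pow_zero]
      exact one_dvd _
    · have h6 : k = 1 := by omega
      rw [h6, pow_one] at hk ⊢
      exact (dvd_prod_of_mem (fun p => p) (Nat.mem_primeFactors.mpr ⟨hpp, hk, hf⟩)).trans
        (Dvd.intro_left _ rfl)

theorem quad_conductor {q : ℕ} [NeZero q] (χ : DirichletCharacter ℂ q) (h2 : χ ^ 2 = 1) :
    χ.conductor ∣ 8 * ∏ p ∈ χ.conductor.primeFactors, p := by
  have hne : NeZero χ.conductor := ⟨χ.conductor_ne_zero⟩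
  have h3 : χ.primitiveCharacter ^ 2 = 1 := by
    apply DirichletCharacter.changeLevel_injective χ.conductor_dvd_level
    rw [map_pow, DirichletCharacter.changeLevel_primitiveCharacter, h2, map_one]
  exact qc_dvd χ.primitiveCharacter h3 χ.primitiveCharacter_isPrimitive

end Pool.Agent.H10.RP
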