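import Pool.Agent.H10.RP.CharT

/-!
# Reversed primes: character sums over primes, moduli with fixed prime factors (job RP-13b)

PROOF of `char_sharp`. Let `c n = χ n Λ n`, `|c| ≤ Λ`, `G u = ∑_{n ≤ e^u} c n (u - log n)`,
`S u = ∑_{n ≤ e^u} c n`. Since `tent x0 y = (log x0 + 1 - log y)_+ - 2 (log x0 - log y)_+ +
(log x0 - 1 - log y)_+`, `char_tent` (with a large exponent `A'`) says
`|G (u + 1) - 2 G u + G (u - 1)| ≤ 3 e^u (u + log 3) ^ (-A')` for `u ≥ L0`
(`u = ℓ - log 3`, `e^{u + 1} < e^ℓ`). Summing over `u - 1, u - 2, ...` down to about `u / 2` and using the trivial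
bound `|G v| ≤ v ∑_{n ≤ e^v} Λ n ≤ v² e^v` at the end: `|G u - G (u - 1)| ≤ C e^u u ^ (-A')`, and summing
again `|G u| ≤ C' e^u u ^ (-A')`. Finally
`G (u + δ) - G u = δ S u + ∑_{e^u < n ≤ e^(u + δ)} c n (u + δ - log n)`, the last sum is at most
`δ (u + 1) (e^u (e^δ - 1) + 1)`; `δ = u ^ (-A'/2)` gives `|S u| ≤ C'' e^u u ^ (1 - A'/2)`. The condition on `N` in
`char_tent` at all the scales `u' ≥ u / 2 - 1` used follows from `N ≤ (log x) ^ A`.
-/

set_option autoImplicit false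

open Finset

namespace Pool.Agent.H10.RP

/-- the smoothed sum of the unsmoothing argument -/
noncomputable def csg (M : ℕ) (c : ℕ → ℂ) (t : ℝ) : ℂ :=
  ∑ n ∈ Icc 1 M, c n * ((max 0 (t - Real.log n) : ℝ) : ℂ)

theorem cs_iter (g : ℝ → ℂ) (u : ℝ) (J : ℕ) :
    g u = ∑ j ∈ range J, ((j : ℂ) + 1) *
        (g (u - 1 - j + 1) - 2 * g (u - 1 - j) + g (u - 1 - j - 1)) +
      ((J : ℂ) + 1) * g (u - J) - J * g (u - J - 1) := by
  induction J with
  | zero => simp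
  | succ J ih =>
    rw [Finset.sum_range_succ]
    have h1 : (u - 1 - J + 1 : ℝ) = u - J := by ring
    have h2 : (u - ((J + 1 : ℕ) : ℝ) : ℝ) = u - 1 - J := by push_cast; ring
    have h3 : (u - J - 1 : ℝ) = u - 1 - J := by ring
    rw [h3] at ih
    rw [h1, h2]
    rw [ih]
    push_cast
    ring

theorem cs_triv (M : ℕ) (c : ℕ → ℂ) (hc : ∀ n ∈ Icc 1 M, ‖c n‖ ≤ Real.log n) (t T : ℝ)
    (htT : t ≤ T) (hT : 0 ≤ T) : ‖csg M c t‖ ≤ T ^ 2 * Real.exp T := by
  unfold csg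
  refine (norm_sum_le _ _).trans ?_
  have h1 : ∀ n ∈ Icc 1 M, ‖c n * ((max 0 (t - Real.log n) : ℝ) : ℂ)‖ ≤
      if (n : ℝ) ≤ Real.exp T then T ^ 2 else 0 := by
    intro n hn
    have hn1 : (1 : ℝ) ≤ n := by exact_mod_cast (Finset.mem_Icc.1 hn).1
    have hlog0 : 0 ≤ Real.log n := Real.log_nonneg hn1
    rw [norm_mul, Complex.norm_real, Real.norm_eq_abs, abs_of_nonneg (le_max_left _ _)]
    split_ifs with h
    · by_cases h2 : Real.log n ≤ T
      · rw [sq]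
        refine mul_le_mul ((hc n hn).trans h2) ?_ (le_max_left _ _) hT
        exact max_le hT (by linarith)
      · exact absurd ((Real.log_le_iff_le_exp (by linarith)).2 h) h2
    · have h2 : T < Real.log n := by
        rw [Real.lt_log_iff_exp_lt (by linarith)]; exact not_le.1 h
      rw [max_eq_left (by linarith), mul_zero]
  refine (Finset.sum_le_sum h1).trans ?_
  rw [← Finset.sum_filter, Finset.sum_const, nsmul_eq_mul, mul_comm]
  refine mul_le_mul_of_nonneg_left ?_ (sq_nonneg _)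
  have hsub : (Icc 1 M).filter (fun n : ℕ => (n : ℝ) ≤ Real.exp T) ⊆ Icc 1 ⌊Real.exp T⌋₊ := by
    intro n hn
    rw [Finset.mem_filter, Finset.mem_Icc] at hn
    rw [Finset.mem_Icc]
    exact ⟨hn.1.1, Nat.le_floor hn.2⟩
  have hcard := Finset.card_le_card hsub
  rw [Nat.card_Icc, Nat.add_sub_cancel] at hcard
  calc (((Icc 1 M).filter (fun n : ℕ => (n : ℝ) ≤ Real.exp T)).card : ℝ) ≤ (⌊Real.exp T⌋₊ : ℝ) := by
        exact_mod_cast hcard
    _ ≤ Real.exp T := Nat.floor_le (Real.exp_pos T).le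

theorem cs_bound (M : ℕ) (c : ℕ → ℂ) (hc : ∀ n ∈ Icc 1 M, ‖c n‖ ≤ Real.log n) (u u' E : ℝ)
    (hu : 1 ≤ u) (hE : 0 ≤ E) (h1 : u ≤ u') (h2 : u' ≤ u + 1)
    (hD : ∀ v, u / 2 ≤ v → v ≤ u + 1 →
      ‖csg M c (v + 1) - 2 * csg M c v + csg M c (v - 1)‖ ≤ E * Real.exp v) :
    ‖csg M c u'‖ ≤ E * u * Real.exp (u + 1) +
      (u + 1) * ((u / 2 + 2) ^ 2 * Real.exp (u / 2 + 2)) := by
  set J := ⌊u / 2⌋₊ with hJ
  have hJle : (J : ℝ) ≤ u / 2 := Nat.floor_le (by linarith)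
  have hJge : u / 2 - 1 < (J : ℝ) := by
    have := Nat.lt_floor_add_one (u / 2)
    rw [← hJ] at this
    linarith
  have hJ0 : (0 : ℝ) ≤ J := Nat.cast_nonneg J
  rw [cs_iter (csg M c) u' J]
  have hT1 : ‖csg M c (u' - J)‖ ≤ (u / 2 + 2) ^ 2 * Real.exp (u / 2 + 2) :=
    cs_triv M c hc _ _ (by linarith) (by linarith)
  have hT2 : ‖csg M c (u' - J - 1)‖ ≤ (u / 2 + 2) ^ 2 * Real.exp (u / 2 + 2) :=
    cs_triv M c hc _ _ (by linarith) (by linarith)
  have hsum : ‖∑ j ∈ range J, ((j : ℂ) + 1) *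
        (csg M c (u' - 1 - j + 1) - 2 * csg M c (u' - 1 - j) + csg M c (u' - 1 - j - 1))‖ ≤
      E * u * Real.exp (u + 1) := by
    refine (norm_sum_le _ _).trans ?_
    calc ∑ j ∈ range J, ‖((j : ℂ) + 1) *
        (csg M c (u' - 1 - j + 1) - 2 * csg M c (u' - 1 - j) + csg M c (u' - 1 - j - 1))‖
        ≤ ∑ j ∈ range J, E * Real.exp (u + 1) := by
          refine Finset.sum_le_sum fun j hj => ?_
          have hj1 : (j : ℝ) + 1 ≤ J := by exact_mod_cast Finset.mem_range.1 hj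
          have hj0 : (0 : ℝ) ≤ j := Nat.cast_nonneg j
          have hd := hD (u' - 1 - j) (by linarith) (by linarith)
          rw [norm_mul]
          have hn : ‖(j : ℂ) + 1‖ = (j : ℝ) + 1 := by
            have : ((j : ℂ) + 1) = (((j : ℝ) + 1 : ℝ) : ℂ) := by push_cast; ring
            rw [this, Complex.norm_real, Real.norm_eq_abs, abs_of_nonneg (by linarith)]
          rw [hn]
          calc ((j : ℝ) + 1) * ‖csg M c (u' - 1 - j + 1) - 2 * csg M c (u' - 1 - j) +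
                csg M c (u' - 1 - j - 1)‖
              ≤ Real.exp (j + 1) * (E * Real.exp (u' - 1 - j)) := by
                refine mul_le_mul ?_ hd (norm_nonneg _) (Real.exp_pos _).le
                have := Real.add_one_le_exp ((j : ℝ) + 1)
                linarith
            _ = E * Real.exp u' := by
                rw [mul_left_comm, ← Real.exp_add]; congr 2; ring
            _ ≤ E * Real.exp (u + 1) :=
                mul_le_mul_of_nonneg_left (Real.exp_le_exp.2 h2) hE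
      _ = J * (E * Real.exp (u + 1)) := by rw [Finset.sum_const, Finset.card_range, nsmul_eq_mul]
      _ ≤ u * (E * Real.exp (u + 1)) := by
          refine mul_le_mul_of_nonneg_right (by linarith) ?_
          exact mul_nonneg hE (Real.exp_pos _).le
      _ = E * u * Real.exp (u + 1) := by ring
  have hr : ‖((J : ℂ) + 1) * csg M c (u' - J)‖ ≤
      ((J : ℝ) + 1) * ((u / 2 + 2) ^ 2 * Real.exp (u / 2 + 2)) := by
    rw [norm_mul]
    have hn : ‖(J : ℂ) + 1‖ = (J : ℝ) + 1 := by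
      have : ((J : ℂ) + 1) = (((J : ℝ) + 1 : ℝ) : ℂ) := by push_cast; ring
      rw [this, Complex.norm_real, Real.norm_eq_abs, abs_of_nonneg (by linarith)]
    rw [hn]
    exact mul_le_mul_of_nonneg_left hT1 (by linarith)
  have hr2 : ‖(J : ℂ) * csg M c (u' - J - 1)‖ ≤
      (J : ℝ) * ((u / 2 + 2) ^ 2 * Real.exp (u / 2 + 2)) := by
    rw [norm_mul, Complex.norm_natCast]
    exact mul_le_mul_of_nonneg_left hT2 hJ0
  have hpos : 0 ≤ (u / 2 + 2) ^ 2 * Real.exp (u / 2 + 2) := by positivity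
  calc ‖∑ j ∈ range J, ((j : ℂ) + 1) *
        (csg M c (u' - 1 - j + 1) - 2 * csg M c (u' - 1 - j) + csg M c (u' - 1 - j - 1)) +
      ((J : ℂ) + 1) * csg M c (u' - J) - J * csg M c (u' - J - 1)‖
      ≤ ‖∑ j ∈ range J, ((j : ℂ) + 1) *
        (csg M c (u' - 1 - j + 1) - 2 * csg M c (u' - 1 - j) + csg M c (u' - 1 - j - 1))‖ +
        ‖((J : ℂ) + 1) * csg M c (u' - J)‖ + ‖(J : ℂ) * csg M c (u' - J - 1)‖ :=
        (norm_sub_le _ _).trans (add_le_add (norm_add_le _ _) le_rfl)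
    _ ≤ E * u * Real.exp (u + 1) + ((J : ℝ) + 1) * ((u / 2 + 2) ^ 2 * Real.exp (u / 2 + 2)) +
        (J : ℝ) * ((u / 2 + 2) ^ 2 * Real.exp (u / 2 + 2)) := add_le_add (add_le_add hsum hr) hr2
    _ = E * u * Real.exp (u + 1) + (2 * (J : ℝ) + 1) * ((u / 2 + 2) ^ 2 * Real.exp (u / 2 + 2)) := by
        ring
    _ ≤ E * u * Real.exp (u + 1) + (u + 1) * ((u / 2 + 2) ^ 2 * Real.exp (u / 2 + 2)) := by
        have : (2 * (J : ℝ) + 1) ≤ u + 1 := by linarith
        have := mul_le_mul_of_nonneg_right this hpos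
        linarith

theorem cs_diff (M : ℕ) (c : ℕ → ℂ) (hc : ∀ n ∈ Icc 1 M, ‖c n‖ ≤ Real.log n) (u δ : ℝ)
    (hu : 1 ≤ u) (hδ : 0 < δ) (hδ1 : δ ≤ 1) :
    δ * ‖∑ n ∈ (Icc 1 M).filter (fun n : ℕ => Real.log (n : ℝ) ≤ u), c n‖ ≤
      ‖csg M c (u + δ)‖ + ‖csg M c u‖ + δ * ((u + 1) * (2 * δ * Real.exp u + 1)) := by
  have hkey : (δ : ℂ) * ∑ n ∈ (Icc 1 M).filter (fun n : ℕ => Real.log (n : ℝ) ≤ u), c n =
      csg M c (u + δ) - csg M c u - ∑ n ∈ (Icc 1 M).filter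
        (fun n : ℕ => ¬ Real.log (n : ℝ) ≤ u), c n * ((max 0 (u + δ - Real.log n) : ℝ) : ℂ) := by
    unfold csg
    rw [← Finset.sum_filter_add_sum_filter_not (Icc 1 M) (fun n : ℕ => Real.log (n : ℝ) ≤ u)
      (fun n : ℕ => c n * ((max 0 (u + δ - Real.log n) : ℝ) : ℂ)),
      ← Finset.sum_filter_add_sum_filter_not (Icc 1 M) (fun n : ℕ => Real.log (n : ℝ) ≤ u)
      (fun n : ℕ => c n * ((max 0 (u - Real.log n) : ℝ) : ℂ))]
    have h0 : ∑ n ∈ (Icc 1 M).filter (fun n : ℕ => ¬ Real.log (n : ℝ) ≤ u),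
        c n * ((max 0 (u - Real.log n) : ℝ) : ℂ) = 0 := by
      refine Finset.sum_eq_zero fun n hn => ?_
      have := not_le.1 (Finset.mem_filter.1 hn).2
      rw [max_eq_left (by linarith)]; simp
    rw [h0, add_zero, add_sub_right_comm, add_sub_cancel_right, Finset.mul_sum,
      ← Finset.sum_sub_distrib]
    refine Finset.sum_congr rfl fun n hn => ?_
    have := (Finset.mem_filter.1 hn).2
    rw [max_eq_right (by linarith), max_eq_right (by linarith)]
    push_cast; ring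
  have hn : ‖(δ : ℂ) * ∑ n ∈ (Icc 1 M).filter (fun n : ℕ => Real.log (n : ℝ) ≤ u), c n‖ =
      δ * ‖∑ n ∈ (Icc 1 M).filter (fun n : ℕ => Real.log (n : ℝ) ≤ u), c n‖ := by
    rw [norm_mul, Complex.norm_real, Real.norm_eq_abs, abs_of_pos hδ]
  rw [← hn, hkey]
  refine (norm_sub_le _ _).trans (add_le_add (norm_sub_le _ _) ?_)
  refine (norm_sum_le _ _).trans ?_
  have h1 : ∀ n ∈ (Icc 1 M).filter (fun n : ℕ => ¬ Real.log (n : ℝ) ≤ u),
      ‖c n * ((max 0 (u + δ - Real.log n) : ℝ) : ℂ)‖ ≤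
      if (n : ℝ) ≤ Real.exp (u + δ) then δ * (u + 1) else 0 := by
    intro n hn
    rw [Finset.mem_filter] at hn
    have hn1 : (1 : ℝ) ≤ n := by exact_mod_cast (Finset.mem_Icc.1 hn.1).1
    have hlt := not_le.1 hn.2
    rw [norm_mul, Complex.norm_real, Real.norm_eq_abs, abs_of_nonneg (le_max_left _ _)]
    split_ifs with h
    · have h2 : Real.log n ≤ u + δ := (Real.log_le_iff_le_exp (by linarith)).2 h
      rw [mul_comm]
      refine mul_le_mul (max_le hδ.le (by linarith)) ((hc n hn.1).trans (by linarith))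
        (norm_nonneg _) hδ.le
    · have h2 : u + δ < Real.log n := by
        rw [Real.lt_log_iff_exp_lt (by linarith)]; exact not_le.1 h
      rw [max_eq_left (by linarith), mul_zero]
  refine (Finset.sum_le_sum h1).trans ?_
  rw [← Finset.sum_filter, Finset.sum_const, nsmul_eq_mul]
  have hsub : ((Icc 1 M).filter (fun n : ℕ => ¬ Real.log (n : ℝ) ≤ u)).filter
      (fun n : ℕ => (n : ℝ) ≤ Real.exp (u + δ)) ⊆ Ioc ⌊Real.exp u⌋₊ ⌊Real.exp (u + δ)⌋₊ := by
    intro n hn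
    rw [Finset.mem_filter, Finset.mem_filter, Finset.mem_Icc] at hn
    obtain ⟨⟨⟨hn1, _⟩, hn2⟩, hn3⟩ := hn
    rw [Finset.mem_Ioc]
    have hn0 : (0 : ℝ) < n := by exact_mod_cast hn1
    refine ⟨?_, Nat.le_floor hn3⟩
    rw [Nat.floor_lt (Real.exp_pos u).le]
    exact (Real.lt_log_iff_exp_lt hn0).1 (not_le.1 hn2)
  have hcard := Finset.card_le_card hsub
  rw [Nat.card_Ioc] at hcard
  have hmono : Real.exp u ≤ Real.exp (u + δ) := Real.exp_le_exp.2 (by linarith)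
  have hfl : ⌊Real.exp u⌋₊ ≤ ⌊Real.exp (u + δ)⌋₊ := Nat.floor_le_floor hmono
  have hcardR : ((((Icc 1 M).filter (fun n : ℕ => ¬ Real.log (n : ℝ) ≤ u)).filter
      (fun n : ℕ => (n : ℝ) ≤ Real.exp (u + δ))).card : ℝ) ≤ 2 * δ * Real.exp u + 1 := by
    calc ((((Icc 1 M).filter (fun n : ℕ => ¬ Real.log (n : ℝ) ≤ u)).filter
      (fun n : ℕ => (n : ℝ) ≤ Real.exp (u + δ))).card : ℝ)
        ≤ ((⌊Real.exp (u + δ)⌋₊ - ⌊Real.exp u⌋₊ : ℕ) : ℝ) := by exact_mod_cast hcard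
      _ = (⌊Real.exp (u + δ)⌋₊ : ℝ) - ⌊Real.exp u⌋₊ := Nat.cast_sub hfl
      _ ≤ Real.exp (u + δ) - (Real.exp u - 1) := by
          have h3 := Nat.floor_le (Real.exp_pos (u + δ)).le
          have h4 := Nat.lt_floor_add_one (Real.exp u)
          linarith
      _ ≤ 2 * δ * Real.exp u + 1 := by
          rw [Real.exp_add]
          have h5 : Real.exp δ ≤ 1 + 2 * δ := by
            have := Real.abs_exp_sub_one_sub_id_le (x := δ) (by rw [abs_of_pos hδ]; exact hδ1)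
            have h6 := (abs_le.1 this).2
            nlinarith
          nlinarith [Real.exp_pos u]
  calc ((((Icc 1 M).filter (fun n : ℕ => ¬ Real.log (n : ℝ) ≤ u)).filter
      (fun n : ℕ => (n : ℝ) ≤ Real.exp (u + δ))).card : ℝ) * (δ * (u + 1))
      ≤ (2 * δ * Real.exp u + 1) * (δ * (u + 1)) :=
        mul_le_mul_of_nonneg_right hcardR (by positivity)
    _ = δ * ((u + 1) * (2 * δ * Real.exp u + 1)) := by ring

theorem cs_generic (M : ℕ) (c : ℕ → ℂ) (hc : ∀ n ∈ Icc 1 M, ‖c n‖ ≤ Real.log n) (u E δ : ℝ)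
    (hu : 1 ≤ u) (hE : 0 ≤ E) (hδ : 0 < δ) (hδ1 : δ ≤ 1)
    (hD : ∀ v, u / 2 ≤ v → v ≤ u + 1 →
      ‖csg M c (v + 1) - 2 * csg M c v + csg M c (v - 1)‖ ≤ E * Real.exp v) :
    ‖∑ n ∈ (Icc 1 M).filter (fun n : ℕ => Real.log (n : ℝ) ≤ u), c n‖ ≤
      2 / δ * (E * u * Real.exp (u + 1) + (u + 1) * ((u / 2 + 2) ^ 2 * Real.exp (u / 2 + 2))) +
      (u + 1) * (2 * δ * Real.exp u + 1) := by
  have h1 := cs_diff M c hc u δ hu hδ hδ1
  have h2 := cs_bound M c hc u u E hu hE le_rfl (by linarith) hD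
  have h3 := cs_bound M c hc u (u + δ) E hu hE (by linarith) (by linarith) hD
  set X := ‖∑ n ∈ (Icc 1 M).filter (fun n : ℕ => Real.log (n : ℝ) ≤ u), c n‖
  set R := E * u * Real.exp (u + 1) + (u + 1) * ((u / 2 + 2) ^ 2 * Real.exp (u / 2 + 2))
  set Y := (u + 1) * (2 * δ * Real.exp u + 1)
  have h4 : δ * X ≤ 2 * R + δ * Y := by linarith
  have h5 : 2 / δ * R + Y = (2 * R + δ * Y) / δ := by field_simp
  rw [h5, le_div_iff₀ hδ]
  linarith

end Pool.Agent.H10.RP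

namespace Pool.Agent.H10.RP

open Pool.Agent.H16 Filter Topology

theorem cs_tent_eq (v : ℝ) (n : ℕ) (hn : 1 ≤ n) :
    tent (Real.exp v) n = max 0 (v + 1 - Real.log n) - 2 * max 0 (v - Real.log n) +
      max 0 (v - 1 - Real.log n) := by
  have hn0 : (n : ℝ) ≠ 0 := by
    have : n ≠ 0 := by omega
    exact_mod_cast this
  unfold tent kfun
  rw [← Real.exp_add, ← Real.exp_sub, Real.log_div hn0 (Real.exp_pos _).ne',
    Real.log_div hn0 (Real.exp_pos _).ne', Real.log_div hn0 (Real.exp_pos _).ne', Real.log_exp,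
    Real.log_exp, Real.log_exp]
  have h1 : -(Real.log n - (1 + v)) = v + 1 - Real.log n := by ring
  have h2 : -(Real.log n - v) = v - Real.log n := by ring
  have h3 : -(Real.log n - (v - 1)) = v - 1 - Real.log n := by ring
  rw [h1, h2, h3]

theorem cs_second (M : ℕ) (c : ℕ → ℂ) (v : ℝ) :
    csg M c (v + 1) - 2 * csg M c v + csg M c (v - 1) =
      ∑ n ∈ Icc 1 M, c n * ((tent (Real.exp v) n : ℝ) : ℂ) := by
  unfold csg
  rw [Finset.mul_sum, ← Finset.sum_sub_distrib, ← Finset.sum_add_distrib]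
  refine Finset.sum_congr rfl fun n hn => ?_
  rw [cs_tent_eq v n (Finset.mem_Icc.1 hn).1]
  push_cast
  ring

theorem cs_trunc (M : ℕ) (c : ℕ → ℂ) (ℓ : ℝ) (hM : ⌊Real.exp ℓ⌋₊ ≤ M) :
    ∑ n ∈ Icc 1 M, c n * ((tent (Real.exp ℓ / 3) n : ℝ) : ℂ) =
      ∑ n ∈ Icc 1 ⌊Real.exp ℓ⌋₊, c n * ((tent (Real.exp ℓ / 3) n : ℝ) : ℂ) := by
  symm
  refine Finset.sum_subset (Finset.Icc_subset_Icc le_rfl hM) fun n hn hn' => ?_
  have hn1 := (Finset.mem_Icc.1 hn).1
  have h2 : Real.exp ℓ < n := by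
    rw [Finset.mem_Icc] at hn'
    have : ⌊Real.exp ℓ⌋₊ < n := by
      by_contra h
      exact hn' ⟨hn1, not_lt.1 h⟩
    exact (Nat.floor_lt (Real.exp_pos _).le).1 this
  have h3 : Real.exp ℓ / 3 = Real.exp (ℓ - Real.log 3) := by
    rw [Real.exp_sub, Real.exp_log (by norm_num)]
  have h4 : (1 : ℝ) < Real.log 3 := by
    rw [Real.lt_log_iff_exp_lt (by norm_num)]
    exact Real.exp_one_lt_d9.trans (by norm_num)
  have h5 : ℓ < Real.log n := by
    rw [Real.lt_log_iff_exp_lt (by exact_mod_cast hn1)]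
    exact h2
  rw [h3, cs_tent_eq _ n hn1, max_eq_left (by linarith), max_eq_left (by linarith),
    max_eq_left (by linarith)]
  simp

theorem cs_event (A : ℝ) (hA : 1 ≤ A) (L0 : ℝ) : ∃ U : ℝ, ∀ u : ℝ, U ≤ u →
    4 ≤ u ∧ 2 * L0 ≤ u ∧ 4 * A * Real.log (2 * u) ^ 3 ≤ u ∧
    2 * u ^ (A + 2) * (3 * (u / 2) ^ (-(2 * A + 10)) * u * Real.exp (u + 1) +
      (u + 1) * ((u / 2 + 2) ^ 2 * Real.exp (u / 2 + 2))) +
      (u + 1) * (2 * u ^ (-(A + 2)) * Real.exp u + 1) + u ≤ Real.exp u * u ^ (-A) := by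
  have e1 : ∀ᶠ u : ℝ in atTop, 4 ≤ u := eventually_ge_atTop 4
  have e2 : ∀ᶠ u : ℝ in atTop, 2 * L0 ≤ u := eventually_ge_atTop _
  have e3 : ∀ᶠ u : ℝ in atTop, 4 * A * Real.log (2 * u) ^ 3 ≤ u := by
    have h1 := Real.isLittleO_pow_log_id_atTop (n := 3)
    have h2 := h1.bound (c := 1 / (8 * A)) (by positivity)
    have h3 : Tendsto (fun u : ℝ => 2 * u) atTop atTop := tendsto_id.const_mul_atTop (by norm_num)
    filter_upwards [h3.eventually h2, e1] with u hu hu4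
    simp only [id, Real.norm_eq_abs] at hu
    rw [abs_of_nonneg (pow_nonneg (Real.log_nonneg (by linarith)) 3),
      abs_of_nonneg (by linarith)] at hu
    calc 4 * A * Real.log (2 * u) ^ 3 ≤ 4 * A * (1 / (8 * A) * (2 * u)) :=
          mul_le_mul_of_nonneg_left hu (by linarith)
      _ = u := by field_simp; ring
  -- four small terms
  have t1 : Tendsto (fun u : ℝ => 18 * 2 ^ (2 * A + 10) * u ^ (-(7 : ℝ))) atTop (𝓝 0) := by
    have := (tendsto_rpow_neg_atTop (y := 7) (by norm_num)).const_mul (18 * (2 : ℝ) ^ (2 * A + 10))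
    simpa using this
  have t2 : Tendsto (fun u : ℝ => 36 * Real.exp 2 * (u ^ (2 * A + 5) * Real.exp (-(1 / 2) * u)))
      atTop (𝓝 0) := by
    have := (tendsto_rpow_mul_exp_neg_mul_atTop_nhds_zero (2 * A + 5) (1 / 2)
      (by norm_num)).const_mul (36 * Real.exp 2)
    simpa using this
  have t3 : Tendsto (fun u : ℝ => 4 * u ^ (-(1 : ℝ))) atTop (𝓝 0) := by
    have := (tendsto_rpow_neg_atTop (y := 1) (by norm_num)).const_mul (4 : ℝ)
    simpa using this
  have t4 : Tendsto (fun u : ℝ => 3 * (u ^ (A + 1) * Real.exp (-1 * u))) atTop (𝓝 0) := by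
    have := (tendsto_rpow_mul_exp_neg_mul_atTop_nhds_zero (A + 1) 1
      (by norm_num)).const_mul (3 : ℝ)
    simpa using this
  have t5 := ((t1.add t2).add t3).add t4
  simp only [add_zero] at t5
  have e5 := (tendsto_order.1 t5).2 1 (by norm_num)
  obtain ⟨U, hU⟩ := eventually_atTop.1 (e1.and (e2.and (e3.and e5)))
  refine ⟨U, fun u hu => ?_⟩
  obtain ⟨hu4, hu2, hu3, hu5⟩ := hU u hu
  refine ⟨hu4, hu2, hu3, ?_⟩
  have hu0 : (0 : ℝ) < u := by linarith
  have hm : 0 < Real.exp u * u ^ (-A) := by positivity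
  have hmul := mul_le_mul_of_nonneg_left hu5.le hm.le
  rw [mul_one] at hmul
  refine le_trans ?_ hmul
  have p1 : 2 * u ^ (A + 2) * (3 * (u / 2) ^ (-(2 * A + 10)) * u * Real.exp (u + 1)) ≤
      Real.exp u * u ^ (-A) * (18 * 2 ^ (2 * A + 10) * u ^ (-(7 : ℝ))) := by
    have h1 : (u / 2) ^ (-(2 * A + 10)) = 2 ^ (2 * A + 10) * u ^ (-(2 * A + 10)) := by
      rw [Real.div_rpow hu0.le (by norm_num), Real.rpow_neg (by norm_num : (0:ℝ) ≤ 2)]
      field_simp
    have h2 : u ^ (A + 2) * u ^ (-(2 * A + 10)) * u = u ^ (-A) * u ^ (-(7 : ℝ)) := by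
      rw [← Real.rpow_add hu0, ← Real.rpow_add hu0]
      nth_rewrite 2 [← Real.rpow_one u]
      rw [← Real.rpow_add hu0]
      congr 1; ring
    have h3 : Real.exp 1 ≤ 3 := Real.exp_one_lt_d9.le.trans (by norm_num)
    calc 2 * u ^ (A + 2) * (3 * (u / 2) ^ (-(2 * A + 10)) * u * Real.exp (u + 1))
        = 6 * 2 ^ (2 * A + 10) * (u ^ (A + 2) * u ^ (-(2 * A + 10)) * u) * Real.exp u *
          Real.exp 1 := by rw [h1, Real.exp_add]; ring
      _ ≤ 6 * 2 ^ (2 * A + 10) * (u ^ (A + 2) * u ^ (-(2 * A + 10)) * u) * Real.exp u * 3 :=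
          mul_le_mul_of_nonneg_left h3 (by positivity)
      _ = Real.exp u * u ^ (-A) * (18 * 2 ^ (2 * A + 10) * u ^ (-(7 : ℝ))) := by rw [h2]; ring
  have p2 : 2 * u ^ (A + 2) * ((u + 1) * ((u / 2 + 2) ^ 2 * Real.exp (u / 2 + 2))) ≤
      Real.exp u * u ^ (-A) *
        (36 * Real.exp 2 * (u ^ (2 * A + 5) * Real.exp (-(1 / 2) * u))) := by
    have h1 : Real.exp (u / 2 + 2) = Real.exp u * Real.exp (-(1 / 2) * u) * Real.exp 2 := by
      rw [← Real.exp_add, ← Real.exp_add]; congr 1; ring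
    have h2 : u ^ (-A) * u ^ (2 * A + 5) = u ^ (A + 2) * u ^ 3 := by
      rw [← Real.rpow_add hu0, ← Real.rpow_natCast, ← Real.rpow_add hu0]
      congr 1; push_cast; ring
    have h3 : (u + 1) * (u / 2 + 2) ^ 2 ≤ 18 * u ^ 3 := by
      have a1 : u + 1 ≤ 2 * u := by linarith
      have a2 : u / 2 + 2 ≤ 3 * u := by linarith
      calc (u + 1) * (u / 2 + 2) ^ 2 ≤ (2 * u) * (3 * u) ^ 2 := by gcongr
        _ = 18 * u ^ 3 := by ring
    calc 2 * u ^ (A + 2) * ((u + 1) * ((u / 2 + 2) ^ 2 * Real.exp (u / 2 + 2)))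
        = 2 * u ^ (A + 2) * ((u + 1) * (u / 2 + 2) ^ 2) *
          (Real.exp u * Real.exp (-(1 / 2) * u) * Real.exp 2) := by rw [h1]; ring
      _ ≤ 2 * u ^ (A + 2) * (18 * u ^ 3) *
          (Real.exp u * Real.exp (-(1 / 2) * u) * Real.exp 2) := by gcongr
      _ = Real.exp u * (u ^ (A + 2) * u ^ 3) *
          (36 * Real.exp 2 * Real.exp (-(1 / 2) * u)) := by ring
      _ = _ := by rw [← h2]; ring
  have p3 : (u + 1) * (2 * u ^ (-(A + 2)) * Real.exp u) ≤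
      Real.exp u * u ^ (-A) * (4 * u ^ (-(1 : ℝ))) := by
    have h1 : u ^ (-A) * u ^ (-(1 : ℝ)) = u ^ (-(A + 2)) * u := by
      nth_rewrite 4 [← Real.rpow_one u]
      rw [← Real.rpow_add hu0, ← Real.rpow_add hu0]
      congr 1; ring
    calc (u + 1) * (2 * u ^ (-(A + 2)) * Real.exp u)
        ≤ (2 * u) * (2 * u ^ (-(A + 2)) * Real.exp u) := by
          refine mul_le_mul_of_nonneg_right (by linarith) (by positivity)
      _ = 4 * Real.exp u * (u ^ (-(A + 2)) * u) := by ring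
      _ = _ := by rw [← h1]; ring
  have p4 : (u + 1) * 1 + u ≤ Real.exp u * u ^ (-A) * (3 * (u ^ (A + 1) * Real.exp (-1 * u))) := by
    have h1 : u ^ (-A) * u ^ (A + 1) = u := by
      rw [← Real.rpow_add hu0]
      have : -A + (A + 1) = 1 := by ring
      rw [this, Real.rpow_one]
    have h2 : Real.exp u * Real.exp (-1 * u) = 1 := by
      rw [← Real.exp_add]
      have : u + -1 * u = 0 := by ring
      rw [this, Real.exp_zero]
    calc (u + 1) * 1 + u ≤ 3 * u := by linarith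
      _ = 3 * (u ^ (-A) * u ^ (A + 1)) * (Real.exp u * Real.exp (-1 * u)) := by rw [h1, h2]; ring
      _ = _ := by ring
  calc _ = 2 * u ^ (A + 2) * (3 * (u / 2) ^ (-(2 * A + 10)) * u * Real.exp (u + 1)) +
        2 * u ^ (A + 2) * ((u + 1) * ((u / 2 + 2) ^ 2 * Real.exp (u / 2 + 2))) +
        (u + 1) * (2 * u ^ (-(A + 2)) * Real.exp u) + ((u + 1) * 1 + u) := by ring
    _ ≤ _ := by
        refine (add_le_add (add_le_add (add_le_add p1 p2) p3) p4).trans ?_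
        apply le_of_eq; ring

theorem cs_sharp (R : ℕ) (hR : R ≠ 0) (A : ℝ) (hA : 1 ≤ A) : ∃ x0 : ℕ, ∀ x : ℕ, x0 ≤ x →
    ∀ N : ℕ, 1 ≤ N →
    (N : ℝ) ≤ (Real.log x) ^ A → N.primeFactors ⊆ R.primeFactors →
    ∀ χ : DirichletCharacter ℂ N, χ ≠ 1 →
    ‖∑ n ∈ range x, χ (n : ℕ) * Lam n‖ ≤ x * (Real.log x) ^ (-A) ∧ 1 ≤ Real.log x := by
  obtain ⟨L0, hL0⟩ := char_tent R hR (2 * A + 10)
  obtain ⟨U, hU⟩ := cs_event A hA L0
  have hx0 : ∃ x0 : ℕ, 1 ≤ x0 ∧ U ≤ Real.log x0 := by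
    refine ⟨⌈Real.exp U⌉₊, ?_, ?_⟩
    · exact Nat.one_le_ceil_iff.2 (Real.exp_pos _)
    · rw [Real.le_log_iff_exp_le]
      · exact Nat.le_ceil _
      · exact_mod_cast Nat.ceil_pos.2 (Real.exp_pos _)
  obtain ⟨x0, hx01, hx0U⟩ := hx0
  refine ⟨x0, fun x hx N hN hNA hNR χ hχ => ?_⟩
  have hxpos : (0 : ℝ) < x := by
    have : 0 < x := by omega
    exact_mod_cast this
  set u := Real.log x with hu
  have hexp : Real.exp u = x := by rw [hu, Real.exp_log hxpos]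
  have hUu : U ≤ u := by
    refine hx0U.trans (Real.log_le_log ?_ ?_)
    · exact_mod_cast hx01
    · exact_mod_cast hx
  obtain ⟨hu4, huL, hulog, hfin⟩ := hU u hUu
  have hu0 : (0 : ℝ) < u := by linarith
  refine ⟨?_, by linarith⟩
  set c : ℕ → ℂ := fun n => χ (n : ℕ) * Lam n with hcdef
  set M : ℕ := ⌈Real.exp (u + 3)⌉₊ with hM
  have hc : ∀ n ∈ Icc 1 M, ‖c n‖ ≤ Real.log n := by
    intro n _
    rw [hcdef]
    simp only
    rw [norm_mul]
    unfold Lam
    rw [Complex.norm_real, Real.norm_eq_abs,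
      abs_of_nonneg ArithmeticFunction.vonMangoldt_nonneg]
    calc ‖χ n‖ * ArithmeticFunction.vonMangoldt n ≤ 1 * ArithmeticFunction.vonMangoldt n :=
          mul_le_mul_of_nonneg_right (DirichletCharacter.norm_le_one χ _)
            ArithmeticFunction.vonMangoldt_nonneg
      _ ≤ Real.log n := by rw [one_mul]; exact ArithmeticFunction.vonMangoldt_le_log
  have hlog3 : (0 : ℝ) < Real.log 3 := Real.log_pos (by norm_num)
  have hlog3' : Real.log 3 ≤ 2 := by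
    rw [Real.log_le_iff_le_exp (by norm_num)]
    have := Real.add_one_le_exp (2 : ℝ)
    linarith
  have hD : ∀ v, u / 2 ≤ v → v ≤ u + 1 →
      ‖csg M c (v + 1) - 2 * csg M c v + csg M c (v - 1)‖ ≤
        (3 * (u / 2) ^ (-(2 * A + 10))) * Real.exp v := by
    intro v hv1 hv2
    set ℓ := v + Real.log 3 with hℓ
    have hev : Real.exp ℓ / 3 = Real.exp v := by
      rw [hℓ, Real.exp_add, Real.exp_log (by norm_num)]; field_simp
    have hℓ1 : u / 2 ≤ ℓ := by linarith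
    have hℓ2 : ℓ ≤ u + 3 := by linarith
    have hℓ3 : 1 < ℓ := by linarith
    have hfl : ⌊Real.exp ℓ⌋₊ ≤ M := by
      have h1 := Nat.floor_le (Real.exp_pos ℓ).le
      have h2 := Nat.le_ceil (Real.exp (u + 3))
      have h3 := Real.exp_le_exp.2 hℓ2
      exact_mod_cast (h1.trans h3).trans h2
    rw [cs_second, ← hev, cs_trunc M c ℓ hfl]
    have hcond : Real.log N ≤ ℓ / (2 * (Real.log ℓ) ^ 2) := by
      have hlogℓ : 0 < Real.log ℓ := Real.log_pos hℓ3
      have hlogℓ' : Real.log ℓ ≤ Real.log (2 * u) :=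
        Real.log_le_log (by linarith) (by linarith)
      have hlogu : 0 ≤ Real.log u := Real.log_nonneg (by linarith)
      have hlogu' : Real.log u ≤ Real.log (2 * u) := Real.log_le_log hu0 (by linarith)
      have hlogN : Real.log N ≤ A * Real.log u := by
        have hN0 : (0 : ℝ) < N := by exact_mod_cast hN
        have := Real.log_le_log hN0 hNA
        rwa [Real.log_rpow hu0] at this
      rw [le_div_iff₀ (by positivity)]
      calc Real.log N * (2 * Real.log ℓ ^ 2)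
          ≤ (A * Real.log (2 * u)) * (2 * Real.log (2 * u) ^ 2) := by
            refine mul_le_mul (hlogN.trans ?_) ?_ (by positivity) ?_
            · exact mul_le_mul_of_nonneg_left hlogu' (by linarith)
            · gcongr
            · exact mul_nonneg (by linarith) (hlogu.trans hlogu')
        _ = (4 * A * Real.log (2 * u) ^ 3) / 2 := by ring
        _ ≤ u / 2 := by linarith
        _ ≤ ℓ := hℓ1
    have h := hL0 ℓ (by linarith) N hN hcond hNR χ hχ
    refine h.trans ?_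
    have h1 : ℓ ^ (-(2 * A + 10)) ≤ (u / 2) ^ (-(2 * A + 10)) :=
      Real.rpow_le_rpow_of_nonpos (by linarith) hℓ1 (by linarith)
    calc Real.exp ℓ * ℓ ^ (-(2 * A + 10)) ≤ Real.exp ℓ * (u / 2) ^ (-(2 * A + 10)) :=
          mul_le_mul_of_nonneg_left h1 (Real.exp_pos _).le
      _ = 3 * (u / 2) ^ (-(2 * A + 10)) * (Real.exp ℓ / 3) := by ring
  have hδ1 : u ^ (-(A + 2)) ≤ 1 := by
    apply Real.rpow_le_one_of_one_le_of_nonpos (by linarith) (by linarith)
  have hgen := cs_generic M c hc u (3 * (u / 2) ^ (-(2 * A + 10))) (u ^ (-(A + 2))) (by linarith)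
    (by positivity) (by positivity) hδ1 hD
  have hset : (Icc 1 M).filter (fun n : ℕ => Real.log (n : ℝ) ≤ u) = Icc 1 x := by
    ext n
    rw [Finset.mem_filter, Finset.mem_Icc, Finset.mem_Icc]
    constructor
    · rintro ⟨⟨h1, _⟩, h3⟩
      refine ⟨h1, ?_⟩
      have : (n : ℝ) ≤ x := by
        rw [← hexp]
        exact (Real.log_le_iff_le_exp (by exact_mod_cast h1)).1 h3
      exact_mod_cast this
    · rintro ⟨h1, h2⟩
      have h2' : (n : ℝ) ≤ x := by exact_mod_cast h2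
      refine ⟨⟨h1, ?_⟩, ?_⟩
      · have h3 : (n : ℝ) ≤ M := by
          calc (n : ℝ) ≤ x := h2'
            _ = Real.exp u := hexp.symm
            _ ≤ Real.exp (u + 3) := Real.exp_le_exp.2 (by linarith)
            _ ≤ M := Nat.le_ceil _
        exact_mod_cast h3
      · rw [Real.log_le_iff_le_exp (by exact_mod_cast h1), hexp]
        exact h2'
  rw [hset] at hgen
  have hx1 : 1 ≤ x := by omega
  have hrange : ∑ n ∈ range x, c n = ∑ n ∈ Icc 1 x, c n - c x := by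
    have h1 : ∑ n ∈ range (x + 1), c n = ∑ n ∈ range x, c n + c x := Finset.sum_range_succ _ _
    have h2 : ∑ n ∈ range (x + 1), c n = ∑ n ∈ Icc 1 x, c n := by
      rw [Finset.range_eq_Ico, Finset.sum_eq_sum_Ico_succ_bot (by omega)]
      have h0 : c 0 = 0 := by simp [hcdef, Lam]
      rw [h0, zero_add]
      rfl
    rw [← h2, h1]; ring
  have hcx : ‖c x‖ ≤ u := by
    refine hc x ?_
    have hmem : x ∈ (Icc 1 M).filter (fun n : ℕ => Real.log (n : ℝ) ≤ u) := by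
      rw [hset, Finset.mem_Icc]; exact ⟨hx1, le_rfl⟩
    exact (Finset.mem_filter.1 hmem).1
  have hdiv : 2 / u ^ (-(A + 2)) = 2 * u ^ (A + 2) := by
    rw [Real.rpow_neg hu0.le]; field_simp
  rw [hdiv] at hgen
  calc ‖∑ n ∈ range x, c n‖ = ‖∑ n ∈ Icc 1 x, c n - c x‖ := by rw [hrange]
    _ ≤ ‖∑ n ∈ Icc 1 x, c n‖ + ‖c x‖ := norm_sub_le _ _
    _ ≤ _ := (add_le_add hgen hcx).trans hfin
    _ = x * u ^ (-A) := by rw [hexp]

theorem char_sharp (R : ℕ) (hR : R ≠ 0) (A : ℝ) : ∃ x0 : ℕ, ∀ x : ℕ, x0 ≤ x → ∀ N : ℕ, 1 ≤ N →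
    (N : ℝ) ≤ (Real.log x) ^ A → N.primeFactors ⊆ R.primeFactors →
    ∀ χ : DirichletCharacter ℂ N, χ ≠ 1 →
    ‖∑ n ∈ range x, χ (n : ℕ) * Lam n‖ ≤ x * (Real.log x) ^ (-A) := by
  obtain ⟨x0, hx0⟩ := cs_sharp R hR (max A 1) (le_max_right _ _)
  refine ⟨max x0 3, fun x hx N hN hNA hNR χ hχ => ?_⟩
  have hx3 : (3 : ℝ) ≤ x := by exact_mod_cast (le_max_right x0 3).trans hx
  have hlog : 1 ≤ Real.log x := by
    rw [Real.le_log_iff_exp_le (by linarith)]
    exact (Real.exp_one_lt_d9.le.trans (by norm_num)).trans hx3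
  have h1 : (N : ℝ) ≤ (Real.log x) ^ (max A 1) :=
    hNA.trans (Real.rpow_le_rpow_of_exponent_le hlog (le_max_left _ _))
  refine (hx0 x ((le_max_left _ _).trans hx) N hN h1 hNR χ hχ).1.trans ?_
  refine mul_le_mul_of_nonneg_left ?_ (by linarith)
  exact Real.rpow_le_rpow_of_exponent_le hlog (neg_le_neg (le_max_left _ _))

end Pool.Agent.H10.RP
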