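import Pool.Agent.H10.RP.FT

/-!
# Reversed primes: type I sums (job RP-6)

`prefix_le`: for `x < q ^ J` with digits `x_j`, `{k < x}` is the disjoint union over `j < J` and
`a < x_j` of the `k` whose digits above `j` agree with those of `x`, whose `j`-th digit is `a` and
whose lower digits are free; the sum over such a block is a unimodular number times
`∑ k < q ^ j, fd q φ j k = q ^ j * Fc q φ j 0`, of modulus `q ^ j * PP q φ j j 0`. (Induction on `J`: with
`x = x' + q ^ J a`, `x' < q ^ J`, `a < q`.) For `x = q ^ J` the sum is `q ^ J * Fc q φ J 0`.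

`typeI_mult`: `∑_{k < x, m ∣ k} f k = (1/m) ∑_{j < m} ∑_{k < x} f k ee (j k / m)`.

`typeI_log`: partial summation with the nondecreasing weights `log n` (`log 0 = 0`): with
`S n = ∑ k ≤ n, g k`, `g k = if m k < x then f (m k) else 0`:
`∑_{n ≤ N} w n g n = w N S N - ∑_{n < N} (w (n + 1) - w n) S n`, and `|S n| ≤ B` by the hypothesis with
`x' = min x (m (n + 1))`.
-/

set_option autoImplicit false

open Finset
open scoped ComplexConjugate

namespace Pool.Agent.H10.RP

/-- the sum over a full block, in terms of `PP` -/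
private theorem norm_sum_block {q : ℕ} (φ : ℕ → ℕ → ℂ) (hq : 2 ≤ q) (j : ℕ) :
    ‖∑ k ∈ range (q ^ j), fd q φ j k‖ = (q : ℝ) ^ j * PP q φ j j 0 := by
  have h := norm_Fc (q := q) φ hq j 0
  unfold Fc at h
  have hq0 : (0 : ℝ) < (q : ℝ) ^ j := by positivity
  have e1 : ∀ n ∈ range (q ^ j), fd q φ j n * ee (-(((0 : ℕ) : ℝ) * n / (q : ℝ) ^ j)) = fd q φ j n := by
    intro n _
    rw [show -(((0 : ℕ) : ℝ) * n / (q : ℝ) ^ j) = 0 by simp, ee_zero, mul_one]
  rw [Finset.sum_congr rfl e1, norm_div, norm_pow, Complex.norm_natCast] at h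
  rw [← h]
  field_simp

private theorem fd_split {q : ℕ} (φ : ℕ → ℕ → ℂ) (hq : 2 ≤ q) (J t k : ℕ) (ht : t < q)
    (hk : k < q ^ J) : fd q φ (J + 1) (q ^ J * t + k) = φ J t * fd q φ J k := by
  have h1 : fd q φ J (q ^ J * t + k) = fd q φ J k := by
    rw [← fd_mod φ J (q ^ J * t + k), Nat.mul_add_mod, Nat.mod_eq_of_lt hk]
  have h2 : dg q J (q ^ J * t + k) = t := by
    unfold dg
    rw [Nat.mul_add_div (by positivity), Nat.div_eq_of_lt hk, add_zero, Nat.mod_eq_of_lt ht]
  have h3 : fd q φ (J + 1) (q ^ J * t + k) =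
      fd q φ J (q ^ J * t + k) * φ J (dg q J (q ^ J * t + k)) := by
    unfold fd
    rw [Finset.prod_range_succ]
  rw [h3, h1, h2, mul_comm]

private theorem prefix_lt {q : ℕ} (φ : ℕ → ℕ → ℂ) (hq : 2 ≤ q) (hφ : Uni φ) (J : ℕ) :
    ∀ x : ℕ, x < q ^ J → ‖∑ k ∈ range x, fd q φ J k‖ ≤
      ∑ j ∈ range J, q * ((q : ℝ) ^ j * PP q φ j j 0) := by
  induction J with
  | zero =>
    intro x hx
    have : x = 0 := by simpa using hx
    subst this
    simp
  | succ J ih =>
    intro x hx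
    have hqJ : 0 < q ^ J := by positivity
    obtain ⟨a, x', hx', ha, rfl⟩ : ∃ a x' : ℕ, x' < q ^ J ∧ a < q ∧ x = q ^ J * a + x' := by
      refine ⟨x / q ^ J, x % q ^ J, Nat.mod_lt _ hqJ, ?_, (Nat.div_add_mod x (q ^ J)).symm⟩
      rw [Nat.div_lt_iff_lt_mul hqJ]
      rw [pow_succ] at hx
      linarith [mul_comm q (q ^ J)]
    have key : ∀ a : ℕ, a < q → ∑ k ∈ range (q ^ J * a), fd q φ (J + 1) k =
        (∑ t ∈ range a, φ J t) * ∑ k ∈ range (q ^ J), fd q φ J k := by
      intro a ha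
      induction a with
      | zero => simp
      | succ a iha =>
        rw [Nat.mul_succ, Finset.sum_range_add, iha (by omega), Finset.sum_range_succ, add_mul]
        congr 1
        rw [Finset.mul_sum]
        refine Finset.sum_congr rfl fun k hk => ?_
        exact fd_split φ hq J a k (by omega) (Finset.mem_range.mp hk)
    rw [Finset.sum_range_add, key a ha]
    have e2 : ∑ k ∈ range x', fd q φ (J + 1) (q ^ J * a + k) =
        φ J a * ∑ k ∈ range x', fd q φ J k := by
      rw [Finset.mul_sum]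
      refine Finset.sum_congr rfl fun k hk => ?_
      exact fd_split φ hq J a k ha (lt_trans (Finset.mem_range.mp hk) hx')
    rw [e2]
    have b1 : ‖∑ t ∈ range a, φ J t‖ ≤ q := by
      refine (norm_sum_le _ _).trans ?_
      rw [Finset.sum_congr rfl fun t _ => hφ J t]
      simp only [Finset.sum_const, Finset.card_range, nsmul_eq_mul, mul_one]
      exact_mod_cast ha.le
    have b2 := norm_sum_block φ hq J
    calc ‖(∑ t ∈ range a, φ J t) * ∑ k ∈ range (q ^ J), fd q φ J k +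
          φ J a * ∑ k ∈ range x', fd q φ J k‖ ≤
        ‖∑ t ∈ range a, φ J t‖ * ‖∑ k ∈ range (q ^ J), fd q φ J k‖ +
          ‖∑ k ∈ range x', fd q φ J k‖ := by
          refine (norm_add_le _ _).trans ?_
          rw [norm_mul, norm_mul, hφ J a, one_mul]
      _ ≤ q * ((q : ℝ) ^ J * PP q φ J J 0) + ∑ j ∈ range J, q * ((q : ℝ) ^ j * PP q φ j j 0) := by
          rw [← b2]
          exact add_le_add (mul_le_mul_of_nonneg_right b1 (norm_nonneg _)) (ih x' hx')
      _ = _ := by rw [Finset.sum_range_succ, add_comm]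

theorem prefix_le {q : ℕ} (φ : ℕ → ℕ → ℂ) (hq : 2 ≤ q) (hφ : Uni φ) (J x : ℕ) (hx : x ≤ q ^ J) :
    ‖∑ k ∈ range x, fd q φ J k‖ ≤ ∑ j ∈ range (J + 1), q * (q : ℝ) ^ j * PP q φ j j 0 := by
  have hnn : ∀ j, 0 ≤ (q : ℝ) * (q : ℝ) ^ j * PP q φ j j 0 := fun j =>
    mul_nonneg (by positivity) (PP_nonneg φ j j 0)
  rcases hx.lt_or_eq with h | h
  · refine (prefix_lt φ hq hφ J x h).trans ?_
    rw [Finset.sum_range_succ]
    have := hnn J
    have e : ∑ j ∈ range J, (q : ℝ) * ((q : ℝ) ^ j * PP q φ j j 0) =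
        ∑ j ∈ range J, (q : ℝ) * (q : ℝ) ^ j * PP q φ j j 0 :=
      Finset.sum_congr rfl fun j _ => by ring
    rw [e]
    linarith
  · subst h
    rw [norm_sum_block φ hq J, Finset.sum_range_succ]
    have h1 : 0 ≤ ∑ j ∈ range J, (q : ℝ) * (q : ℝ) ^ j * PP q φ j j 0 :=
      Finset.sum_nonneg fun j _ => hnn j
    have h2 : (1 : ℝ) ≤ q := by exact_mod_cast (by omega : 1 ≤ q)
    have h3 : 0 ≤ (q : ℝ) ^ J * PP q φ J J 0 := mul_nonneg (by positivity) (PP_nonneg φ J J 0)
    nlinarith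

/-- all twisted partial sums are at most `B` -/
def SupB (f : ℕ → ℂ) (X : ℕ) (B : ℝ) : Prop :=
  ∀ (α : ℝ) (x : ℕ), x ≤ X → ‖∑ k ∈ range x, f k * ee (α * k)‖ ≤ B

theorem typeI_mult (f : ℕ → ℂ) (X : ℕ) (B : ℝ) (hB : SupB f X B) (m x : ℕ) (hm : 1 ≤ m)
    (hx : x ≤ X) : ‖∑ n ∈ (range X).filter (fun n => m * n < x), f (m * n)‖ ≤ B := by
  have e1 : ∑ n ∈ (range X).filter (fun n => m * n < x), f (m * n) =
      ∑ k ∈ (range x).filter (fun k => m ∣ k), f k := by
    refine Finset.sum_nbij' (fun n => m * n) (fun k => k / m) ?_ ?_ ?_ ?_ ?_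
    · intro n hn
      simp only [Finset.mem_filter, Finset.mem_range] at hn ⊢
      exact ⟨hn.2, dvd_mul_right m n⟩
    · intro k hk
      simp only [Finset.mem_filter, Finset.mem_range] at hk ⊢
      rw [Nat.mul_div_cancel' hk.2]
      exact ⟨lt_of_le_of_lt (Nat.div_le_self k m) (by omega), hk.1⟩
    · intro n _
      exact Nat.mul_div_cancel_left n hm
    · intro k hk
      simp only [Finset.mem_filter] at hk
      exact Nat.mul_div_cancel' hk.2
    · intro n _
      rfl
  have e2 : ∑ j ∈ range m, ∑ k ∈ range x, f k * ee ((j : ℝ) / m * k) =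
      m * ∑ k ∈ (range x).filter (fun k => m ∣ k), f k := by
    rw [Finset.sum_comm, Finset.mul_sum, Finset.sum_filter]
    refine Finset.sum_congr rfl fun k _ => ?_
    have h := sum_ee_mod m hm (k : ℤ)
    have h' : ∑ j ∈ range m, ee ((j : ℝ) / m * k) = if (m : ℤ) ∣ (k : ℤ) then (m : ℂ) else 0 := by
      rw [← h]
      refine Finset.sum_congr rfl fun j _ => ?_
      congr 1
      push_cast
      ring
    rw [← Finset.mul_sum, h']
    by_cases hd : m ∣ k
    · rw [if_pos (by exact_mod_cast hd), if_pos hd, mul_comm]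
    · rw [if_neg (by exact_mod_cast hd), if_neg hd, mul_zero]
  have hm0 : (0 : ℝ) < m := by exact_mod_cast hm
  have e3 : (m : ℝ) * ‖∑ k ∈ (range x).filter (fun k => m ∣ k), f k‖ ≤ m * B := by
    calc (m : ℝ) * ‖∑ k ∈ (range x).filter (fun k => m ∣ k), f k‖ =
        ‖∑ j ∈ range m, ∑ k ∈ range x, f k * ee ((j : ℝ) / m * k)‖ := by
          rw [e2, norm_mul, Complex.norm_natCast]
      _ ≤ ∑ j ∈ range m, ‖∑ k ∈ range x, f k * ee ((j : ℝ) / m * k)‖ := norm_sum_le _ _
      _ ≤ ∑ _j ∈ range m, B := Finset.sum_le_sum fun j _ => hB _ x hx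
      _ = m * B := by simp
  rw [e1]
  exact le_of_mul_le_mul_left e3 hm0

theorem typeI_log (f : ℕ → ℂ) (X : ℕ) (B : ℝ) (m : ℕ) (hm : 1 ≤ m) (hX : 1 ≤ X)
    (hB : ∀ x : ℕ, x ≤ X → ‖∑ n ∈ (range X).filter (fun n => m * n < x), f (m * n)‖ ≤ B)
    (x : ℕ) (hx : x ≤ X) :
    ‖∑ n ∈ (range X).filter (fun n => m * n < x), ((Real.log n : ℝ) : ℂ) * f (m * n)‖ ≤
      2 * Real.log X * B := by
  have hB0 : 0 ≤ B := (norm_nonneg _).trans (hB x hx)
  set g : ℕ → ℂ := fun n => if m * n < x then f (m * n) else 0 with hg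
  have hS : ∀ n, n ≤ X → ‖∑ k ∈ range n, g k‖ ≤ B := by
    intro n hn
    have e : ∑ k ∈ range n, g k = ∑ k ∈ (range X).filter (fun k => m * k < min x (m * n)), f (m * k) := by
      rw [hg, ← Finset.sum_filter]
      refine Finset.sum_congr ?_ fun _ _ => rfl
      ext k
      simp only [Finset.mem_filter, Finset.mem_range, lt_min_iff]
      constructor
      · rintro ⟨h1, h2⟩
        exact ⟨by omega, h2, Nat.mul_lt_mul_of_pos_left h1 hm⟩
      · rintro ⟨_, h2, h3⟩
        exact ⟨lt_of_mul_lt_mul_left h3 (Nat.zero_le m), h2⟩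
    rw [e]
    exact hB _ ((min_le_left _ _).trans hx)
  have e1 : ∑ n ∈ (range X).filter (fun n => m * n < x), ((Real.log n : ℝ) : ℂ) * f (m * n) =
      ∑ n ∈ range X, ((Real.log n : ℝ) : ℂ) • g n := by
    rw [Finset.sum_filter]
    refine Finset.sum_congr rfl fun n _ => ?_
    simp only [hg, smul_eq_mul]
    split_ifs <;> simp
  have hmono : ∀ n : ℕ, Real.log n ≤ Real.log ((n + 1 : ℕ) : ℝ) := by
    intro n
    rcases Nat.eq_zero_or_pos n with h | h
    · subst h; simp
    · exact Real.log_le_log (by exact_mod_cast h) (by push_cast; linarith)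
  have hlog0 : ∀ n : ℕ, 0 ≤ Real.log (n : ℝ) := fun n => Real.log_natCast_nonneg n
  rw [e1, Finset.sum_range_by_parts]
  have hsum : ∑ i ∈ range (X - 1), (Real.log ((i + 1 : ℕ) : ℝ) - Real.log (i : ℝ)) =
      Real.log ((X - 1 : ℕ) : ℝ) := by
    rw [Finset.sum_range_sub (fun i : ℕ => Real.log (i : ℝ))]
    simp
  have hXl : Real.log ((X - 1 : ℕ) : ℝ) ≤ Real.log X := by
    have := hmono (X - 1)
    rwa [Nat.sub_add_cancel hX] at this
  calc ‖((Real.log ((X - 1 : ℕ) : ℝ) : ℝ) : ℂ) • ∑ i ∈ range X, g i -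
        ∑ i ∈ range (X - 1), (((Real.log ((i + 1 : ℕ) : ℝ) : ℝ) : ℂ) - ((Real.log (i : ℝ) : ℝ) : ℂ)) •
          ∑ j ∈ range (i + 1), g j‖ ≤
      Real.log ((X - 1 : ℕ) : ℝ) * B +
        ∑ i ∈ range (X - 1), (Real.log ((i + 1 : ℕ) : ℝ) - Real.log (i : ℝ)) * B := by
        refine (norm_sub_le _ _).trans (add_le_add ?_ ((norm_sum_le _ _).trans
          (Finset.sum_le_sum fun i hi => ?_)))
        · rw [norm_smul, Complex.norm_real, Real.norm_of_nonneg (hlog0 _)]
          exact mul_le_mul_of_nonneg_left (hS X le_rfl) (hlog0 _)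
        · rw [norm_smul, ← Complex.ofReal_sub, Complex.norm_real,
            Real.norm_of_nonneg (sub_nonneg.mpr (hmono i))]
          refine mul_le_mul_of_nonneg_left (hS _ ?_) (sub_nonneg.mpr (hmono i))
          have := Finset.mem_range.mp hi
          omega
    _ = 2 * Real.log ((X - 1 : ℕ) : ℝ) * B := by
        rw [← Finset.sum_mul, hsum]; ring
    _ ≤ 2 * Real.log X * B := by
        refine mul_le_mul_of_nonneg_right ?_ hB0
        linarith

/-- Abel summation against `ee (β n)` -/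
theorem abel_ee (g : ℕ → ℂ) (x : ℕ) (B β : ℝ) (hB : ∀ y : ℕ, y ≤ x → ‖∑ n ∈ range y, g n‖ ≤ B) :
    ‖∑ n ∈ range x, g n * ee (β * n)‖ ≤ B * (1 + 2 * Real.pi * |β| * x) := by
  have hB0 : 0 ≤ B := (norm_nonneg _).trans (hB 0 (Nat.zero_le _))
  have hpi := Real.pi_pos
  have e1 : ∑ n ∈ range x, g n * ee (β * n) = ∑ n ∈ range x, ee (β * n) • g n :=
    Finset.sum_congr rfl fun n _ => by rw [smul_eq_mul, mul_comm]
  rw [e1, Finset.sum_range_by_parts]
  calc ‖ee (β * ((x - 1 : ℕ) : ℝ)) • ∑ i ∈ range x, g i -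
        ∑ i ∈ range (x - 1), (ee (β * ((i + 1 : ℕ) : ℝ)) - ee (β * (i : ℝ))) •
          ∑ j ∈ range (i + 1), g j‖ ≤
      B + ∑ _i ∈ range (x - 1), 2 * Real.pi * |β| * B := by
        refine (norm_sub_le _ _).trans (add_le_add ?_ ((norm_sum_le _ _).trans
          (Finset.sum_le_sum fun i hi => ?_)))
        · rw [norm_smul, norm_ee, one_mul]
          exact hB x le_rfl
        · rw [norm_smul]
          have h1 := norm_ee_sub_le (β * ((i + 1 : ℕ) : ℝ)) (β * (i : ℝ))
          have h2 : |β * ((i + 1 : ℕ) : ℝ) - β * (i : ℝ)| = |β| := by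
            congr 1
            push_cast
            ring
          rw [h2] at h1
          have hi' := Finset.mem_range.mp hi
          exact mul_le_mul h1 (hB _ (by omega)) (norm_nonneg _) (by positivity)
    _ = B + (x - 1 : ℕ) * (2 * Real.pi * |β| * B) := by simp
    _ ≤ B + x * (2 * Real.pi * |β| * B) := by
        have : ((x - 1 : ℕ) : ℝ) ≤ x := by exact_mod_cast Nat.sub_le x 1
        have h3 : 0 ≤ 2 * Real.pi * |β| * B := by positivity
        nlinarith
    _ = _ := by ring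

end Pool.Agent.H10.RP
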