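import Pool.Agent.H10.RP.CharSum
import Pool.Agent.H10.RP.TypeI

/-!
# Reversed primes: primes in progressions, moduli with fixed prime factors (job RP-15)

PROOF of `primes_ap`. Orthogonality of the characters mod `N` (`r` a unit):
`φ(N) ∑_{n ≡ r} Λ n = ∑_χ conj χ(r) ∑_n χ(n) Λ n`; `χ ≠ 1`: `char_sharp`; `χ = 1`: the sum of `Λ n` over `n < x`
coprime to `N`, which differs from `∑_{n < x} Λ n` by at most `∑_{p ∣ N} log p * (log x / log p + 1)
≤ 2 ω(N) log x...` (prime powers dividing into `N`), negligible.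

PROOF of `expo_nonsq`. First `β = 0`, `y ≤ x`: for `y ≤ x (log x) ^ (-3A - 3)` trivial (`∑_{n<y} Λ ≤ y log x`).
Otherwise `∑_{n < y} Λ n ee (a n / N) = ∑_{r unit mod N} ee (a r / N) ψ(y; N, r) + O(ω(N) log² x)` and by
`primes_ap` (with a larger exponent; `log y ≥ (log x) / 2`) this is
`(∑_{r unit} ee (a r / N)) ψ(y) / φ(N) + N * error`, and `ramanujan_zero`. Then `abel_ee`.

PROOF of `ramanujan_zero`. Let `p ^ 2 ∣ N`. `r ↦ r + N / p` permutes the units mod `N` (every prime
factor of `N` divides `N / p`), so the sum `s` satisfies `s = ee (a / p) s`, and `ee (a / p) ≠ 1` as `p ∤ a`.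
-/

set_option autoImplicit false

open Finset

namespace Pool.Agent.H10.RP

theorem aps_ee_ne_one {p : ℕ} (hp : p.Prime) {a : ℤ} (ha : ¬ (p : ℤ) ∣ a) :
    ee ((a : ℝ) / p) ≠ 1 := by
  unfold ee
  intro h
  rw [Complex.exp_eq_one_iff] at h
  obtain ⟨n, hn⟩ := h
  have hpi : (2 * Real.pi * Complex.I : ℂ) ≠ 0 := Complex.two_pi_I_ne_zero
  have h1 : (((a : ℝ) / p : ℝ) : ℂ) = (n : ℂ) := by
    apply mul_right_cancel₀ hpi
    rw [← hn]
    ring
  have h2 : (a : ℝ) / p = n := by exact_mod_cast h1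
  have hp0 : (p : ℝ) ≠ 0 := by exact_mod_cast hp.ne_zero
  rw [div_eq_iff hp0] at h2
  have h3 : a = n * p := by exact_mod_cast h2
  exact ha ⟨n, by rw [h3, mul_comm]⟩

theorem ramanujan_zero (N : ℕ) (hN : 1 ≤ N) (hsq : ¬ Squarefree N) (a : ℤ)
    (ha : IsCoprime a (N : ℤ)) :
    ∑ r ∈ (range N).filter (fun r => r.Coprime N), ee ((a : ℝ) * r / N) = 0 := by
  rw [Nat.squarefree_iff_prime_squarefree] at hsq
  push Not at hsq
  obtain ⟨p, hp, hpp⟩ := hsq
  obtain ⟨m, hm⟩ := hpp
  set M := p * m with hM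
  have hNM : N = p * M := by rw [hM, hm, mul_assoc]
  have hp0 := hp.pos
  have hm0 : 0 < m := by
    rcases Nat.eq_zero_or_pos m with h | h
    · subst h; simp at hm; omega
    · exact h
  have hM0 : 0 < M := Nat.mul_pos hp0 hm0
  have hMN : M < N := by
    rw [hNM]
    calc M = 1 * M := (one_mul M).symm
      _ < p * M := Nat.mul_lt_mul_of_pos_right hp.one_lt hM0
  have hdvd : ∀ ℓ : ℕ, ℓ.Prime → ℓ ∣ N → ℓ ∣ M := by
    intro ℓ hℓ h
    rw [hNM] at h
    rcases (Nat.Prime.dvd_mul hℓ).1 h with h1 | h1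
    · rw [(Nat.prime_dvd_prime_iff_eq hℓ hp).1 h1]
      exact ⟨m, rfl⟩
    · exact h1
  have hcop : ∀ r k : ℕ, (∀ ℓ : ℕ, ℓ.Prime → ℓ ∣ N → ℓ ∣ k) → r.Coprime N →
      ((r + k) % N).Coprime N := by
    intro r k hk hr
    have h1 : Nat.gcd ((r + k) % N) N = Nat.gcd (r + k) N := (Nat.mod_modEq (r + k) N).gcd_eq
    have h2 : (r + k).Coprime N := by
      by_contra h3
      rw [Nat.Prime.not_coprime_iff_dvd] at h3
      obtain ⟨ℓ, hℓ, h4, h5⟩ := h3
      have h6 : ℓ ∣ r := (Nat.dvd_add_left (hk ℓ hℓ h5)).1 h4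
      have h7 : ℓ ∣ Nat.gcd r N := Nat.dvd_gcd h6 h5
      rw [hr] at h7
      exact hℓ.one_lt.ne' (Nat.dvd_one.1 h7)
    unfold Nat.Coprime
    rw [h1]
    exact h2
  set s := ∑ r ∈ (range N).filter (fun r => r.Coprime N), ee ((a : ℝ) * r / N) with hs
  have hN0 : (N : ℝ) ≠ 0 := by
    have : (0 : ℝ) < N := by exact_mod_cast hN
    exact this.ne'
  have hp0' : (p : ℝ) ≠ 0 := by exact_mod_cast hp.ne_zero
  have hM0' : (M : ℝ) ≠ 0 := by exact_mod_cast hM0.ne'
  have hval : ∀ r : ℕ, ee ((a : ℝ) * ((r + M) % N : ℕ) / N) = ee ((a : ℝ) / p) * ee ((a : ℝ) * r / N) := by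
    intro r
    rw [← ee_add]
    apply ee_congr
    have h2 := Nat.mod_add_div (r + M) N
    obtain ⟨t, ht⟩ : ∃ t : ℕ, t = (r + M) / N := ⟨_, rfl⟩
    rw [← ht] at h2
    refine ⟨-(a * (t : ℤ)), ?_⟩
    have h1 : (((r + M) % N : ℕ) : ℝ) = r + M - N * (t : ℝ) := by
      have h3 : (((r + M) % N + N * t : ℕ) : ℝ) = ((r + M : ℕ) : ℝ) := by rw [h2]
      push_cast at h3
      linarith
    rw [h1]
    have h4 : (N : ℝ) = p * M := by rw [hNM]; push_cast; ring
    push_cast
    have h5 : (a : ℝ) / p = a * M / N := by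
      rw [h4]
      field_simp
    rw [h5]
    field_simp
    ring
  have hbij : s = ∑ r ∈ (range N).filter (fun r => r.Coprime N), ee ((a : ℝ) * ((r + M) % N : ℕ) / N) := by
    rw [hs]
    symm
    refine Finset.sum_nbij' (fun r => (r + M) % N) (fun r => (r + (N - M)) % N) ?_ ?_ ?_ ?_ ?_
    · intro r hr
      rw [mem_filter, mem_range] at hr ⊢
      exact ⟨Nat.mod_lt _ hN, hcop r M hdvd hr.2⟩
    · intro r hr
      rw [mem_filter, mem_range] at hr ⊢
      refine ⟨Nat.mod_lt _ hN, hcop r (N - M) ?_ hr.2⟩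
      intro ℓ hℓ h
      exact Nat.dvd_sub h (hdvd ℓ hℓ h)
    · intro r hr
      rw [mem_filter, mem_range] at hr
      rw [Nat.mod_add_mod, add_assoc, Nat.add_sub_cancel' hMN.le, Nat.add_mod_right,
        Nat.mod_eq_of_lt hr.1]
    · intro r hr
      rw [mem_filter, mem_range] at hr
      rw [Nat.mod_add_mod, add_assoc, Nat.sub_add_cancel hMN.le, Nat.add_mod_right,
        Nat.mod_eq_of_lt hr.1]
    · intro r _
      rfl
  have hfin : s = ee ((a : ℝ) / p) * s := by
    conv_lhs => rw [hbij]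
    rw [hs, Finset.mul_sum]
    exact Finset.sum_congr rfl fun r _ => hval r
  have hpa : ¬ (p : ℤ) ∣ a := by
    intro h
    have h1 : (p : ℤ) ∣ (N : ℤ) := by
      exact_mod_cast (⟨M, hNM⟩ : p ∣ N)
    have h2 := ha.isUnit_of_dvd' h h1
    rw [Int.isUnit_iff] at h2
    have := hp.one_lt
    omega
  have h1 : (1 - ee ((a : ℝ) / p)) * s = 0 := by
    rw [sub_mul, one_mul, ← hfin, sub_self]
  rcases mul_eq_zero.1 h1 with h2 | h2
  · exact absurd (sub_eq_zero.1 h2).symm (aps_ee_ne_one hp hpa)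
  · exact h2

theorem aps_ev (C r s : ℝ) (hs : 0 < s) :
    ∀ᶠ x : ℕ in Filter.atTop, C * (Real.log x) ^ r ≤ (x : ℝ) ^ s := by
  have h1 := (isLittleO_log_rpow_rpow_atTop r hs).def (c := 1 / (|C| + 1)) (by positivity)
  have h2 : ∀ᶠ x : ℝ in Filter.atTop, C * (Real.log x) ^ r ≤ x ^ s := by
    filter_upwards [h1, Filter.eventually_ge_atTop 1] with x hx hx1
    have hl : 0 ≤ Real.log x := Real.log_nonneg hx1
    rw [Real.norm_of_nonneg (Real.rpow_nonneg hl r),
      Real.norm_of_nonneg (Real.rpow_nonneg (by linarith) s)] at hx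
    have h3 : 0 ≤ (Real.log x) ^ r := Real.rpow_nonneg hl r
    have h5 : 0 ≤ x ^ s := Real.rpow_nonneg (by linarith) s
    calc C * (Real.log x) ^ r ≤ (|C| + 1) * (Real.log x) ^ r := by
          apply mul_le_mul_of_nonneg_right _ h3
          linarith [le_abs_self C]
      _ ≤ (|C| + 1) * (1 / (|C| + 1) * x ^ s) := by
          apply mul_le_mul_of_nonneg_left hx (by positivity)
      _ = x ^ s := by field_simp
  exact tendsto_natCast_atTop_atTop.eventually h2

theorem aps_noncop (R : ℕ) (hR : R ≠ 0) : ∃ C : ℝ, 0 ≤ C ∧ ∀ x : ℕ, 2 ≤ x → ∀ N : ℕ, 1 ≤ N →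
    N.primeFactors ⊆ R.primeFactors →
    ∑ n ∈ (range x).filter (fun n => ¬ n.Coprime N), ArithmeticFunction.vonMangoldt n ≤
      C * (Real.log x) ^ 2 := by
  refine ⟨4 * R.primeFactors.card, by positivity, ?_⟩
  intro x hx N hN hNR
  have hx0 : (0 : ℝ) < x := by exact_mod_cast (by omega : 0 < x)
  have hlog : Real.log 2 ≤ Real.log x := Real.log_le_log (by norm_num) (by exact_mod_cast hx)
  have hlog2 : (1 : ℝ) / 2 < Real.log 2 := by
    have := Real.log_two_gt_d9
    linarith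
  have hlx : 0 < Real.log x := by linarith
  set Y := (R.primeFactors ×ˢ range (Nat.log 2 x + 1)).image (fun pk : ℕ × ℕ => pk.1 ^ pk.2)
    with hY
  have h1 : ∑ n ∈ (range x).filter (fun n => ¬ n.Coprime N), ArithmeticFunction.vonMangoldt n ≤
      ∑ n ∈ Y, Real.log x := by
    have h2 : ∑ n ∈ (range x).filter (fun n => ¬ n.Coprime N), ArithmeticFunction.vonMangoldt n =
        ∑ n ∈ ((range x).filter (fun n => ¬ n.Coprime N)).filter
          (fun n => ArithmeticFunction.vonMangoldt n ≠ 0), ArithmeticFunction.vonMangoldt n := by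
      rw [Finset.sum_filter_ne_zero]
    rw [h2]
    have hsub : ((range x).filter (fun n => ¬ n.Coprime N)).filter
          (fun n => ArithmeticFunction.vonMangoldt n ≠ 0) ⊆ Y := by
      intro n hn
      rw [mem_filter, mem_filter, mem_range] at hn
      obtain ⟨⟨hnx, hnN⟩, hn0⟩ := hn
      rw [ArithmeticFunction.vonMangoldt_ne_zero_iff, isPrimePow_nat_iff] at hn0
      obtain ⟨p, k, hp, hk, rfl⟩ := hn0
      rw [Nat.Prime.not_coprime_iff_dvd] at hnN
      obtain ⟨ℓ, hℓ, h3, h4⟩ := hnN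
      have h5 : ℓ ∣ p := hℓ.dvd_of_dvd_pow h3
      rw [Nat.prime_dvd_prime_iff_eq hℓ hp] at h5
      subst h5
      rw [hY, Finset.mem_image]
      refine ⟨(ℓ, k), ?_, rfl⟩
      rw [mem_product]
      refine ⟨hNR (Nat.mem_primeFactors.2 ⟨hℓ, h4, by omega⟩), ?_⟩
      rw [mem_range]
      have h6 : 2 ^ k ≤ x := (Nat.pow_le_pow_left hℓ.two_le k).trans hnx.le
      have := Nat.le_log_of_pow_le (by norm_num) h6
      omega
    calc ∑ n ∈ ((range x).filter (fun n => ¬ n.Coprime N)).filter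
          (fun n => ArithmeticFunction.vonMangoldt n ≠ 0), ArithmeticFunction.vonMangoldt n
        ≤ ∑ n ∈ ((range x).filter (fun n => ¬ n.Coprime N)).filter
          (fun n => ArithmeticFunction.vonMangoldt n ≠ 0), Real.log x := by
          refine Finset.sum_le_sum fun n hn => ?_
          rw [mem_filter, mem_filter, mem_range] at hn
          have h3 : n ≠ 0 := by
            rintro rfl
            simp at hn
          refine ArithmeticFunction.vonMangoldt_le_log.trans (Real.log_le_log ?_ ?_)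
          · exact_mod_cast Nat.pos_of_ne_zero h3
          · exact_mod_cast hn.1.1.le
      _ ≤ ∑ n ∈ Y, Real.log x :=
          Finset.sum_le_sum_of_subset_of_nonneg hsub (fun _ _ _ => hlx.le)
  refine h1.trans ?_
  rw [Finset.sum_const, nsmul_eq_mul]
  have h2 : (Y.card : ℝ) ≤ R.primeFactors.card * ((Nat.log 2 x : ℝ) + 1) := by
    have h3 : Y.card ≤ R.primeFactors.card * (Nat.log 2 x + 1) := by
      refine Finset.card_image_le.trans ?_
      rw [Finset.card_product, Finset.card_range]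
    exact_mod_cast h3
  have h4 : (Nat.log 2 x : ℝ) * Real.log 2 ≤ Real.log x := by
    rw [← Real.log_pow]
    apply Real.log_le_log (by positivity)
    exact_mod_cast Nat.pow_log_le_self 2 (by omega)
  have h5 : (Nat.log 2 x : ℝ) + 1 ≤ 4 * Real.log x := by
    have h6 : (0 : ℝ) ≤ (Nat.log 2 x : ℝ) := Nat.cast_nonneg _
    nlinarith
  calc (Y.card : ℝ) * Real.log x ≤ (R.primeFactors.card * ((Nat.log 2 x : ℝ) + 1)) * Real.log x := by
        gcongr
    _ ≤ (R.primeFactors.card * (4 * Real.log x)) * Real.log x := by gcongr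
    _ = 4 * R.primeFactors.card * (Real.log x) ^ 2 := by ring

theorem aps_Lam_sum (S : Finset ℕ) :
    ∑ n ∈ S, Lam n = ((∑ n ∈ S, ArithmeticFunction.vonMangoldt n : ℝ) : ℂ) := by
  unfold Lam
  push_cast
  rfl

theorem aps_char (N : ℕ) (hN : 1 ≤ N) (r : ℕ) (hr : r.Coprime N) (x : ℕ) (B : ℝ)
    (hB0 : 0 ≤ B)
    (hB : ∀ χ : DirichletCharacter ℂ N, χ ≠ 1 → ‖∑ n ∈ range x, χ (n : ℕ) * Lam n‖ ≤ B) :
    |∑ n ∈ (range x).filter (fun n => n % N = r % N), ArithmeticFunction.vonMangoldt n -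
      (∑ n ∈ range x, ArithmeticFunction.vonMangoldt n) / N.totient| ≤
    ∑ n ∈ (range x).filter (fun n => ¬ n.Coprime N), ArithmeticFunction.vonMangoldt n + B := by
  haveI : NeZero N := ⟨by omega⟩
  have hu : IsUnit (r : ZMod N) := (ZMod.isUnit_iff_coprime r N).2 hr
  have hφ : 0 < N.totient := Nat.totient_pos.2 hN
  have hφ' : (0 : ℝ) < N.totient := by exact_mod_cast hφ
  have hφ1 : (1 : ℝ) ≤ N.totient := by exact_mod_cast hφ
  set Sr := ∑ n ∈ (range x).filter (fun n => n % N = r % N), ArithmeticFunction.vonMangoldt n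
    with hSr
  set P := ∑ n ∈ range x, ArithmeticFunction.vonMangoldt n with hP
  set NC := ∑ n ∈ (range x).filter (fun n => ¬ n.Coprime N), ArithmeticFunction.vonMangoldt n
    with hNC
  have hNC0 : 0 ≤ NC := Finset.sum_nonneg fun n _ => ArithmeticFunction.vonMangoldt_nonneg
  -- orthogonality
  have h1 : ∑ χ : DirichletCharacter ℂ N, χ ((r : ZMod N)⁻¹) *
      ∑ n ∈ range x, χ (n : ℕ) * Lam n = (N.totient : ℂ) * (Sr : ℂ) := by
    simp_rw [Finset.mul_sum]
    rw [Finset.sum_comm]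
    have h2 : ∀ n ∈ range x, ∑ χ : DirichletCharacter ℂ N,
        χ ((r : ZMod N)⁻¹) * (χ (n : ℕ) * Lam n) =
        if n % N = r % N then (N.totient : ℂ) * Lam n else 0 := by
      intro n _
      have h3 := DirichletCharacter.sum_char_inv_mul_char_eq ℂ hu (n : ZMod N)
      have h4 : ∑ χ : DirichletCharacter ℂ N, χ ((r : ZMod N)⁻¹) * (χ (n : ℕ) * Lam n) =
          (∑ χ : DirichletCharacter ℂ N, χ ((r : ZMod N)⁻¹) * χ (n : ℕ)) * Lam n := by
        rw [Finset.sum_mul]
        exact Finset.sum_congr rfl fun χ _ => (mul_assoc _ _ _).symm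
      rw [h4, h3]
      by_cases h5 : n % N = r % N
      · rw [if_pos h5, if_pos ((ZMod.natCast_eq_natCast_iff' r n N).2 h5.symm)]
      · rw [if_neg h5, if_neg (fun h => h5 ((ZMod.natCast_eq_natCast_iff' r n N).1 h).symm),
          zero_mul]
    rw [Finset.sum_congr rfl h2, ← Finset.sum_filter, ← Finset.mul_sum, aps_Lam_sum]
  have h2 : ∑ n ∈ range x, (1 : DirichletCharacter ℂ N) (n : ℕ) * Lam n = ((P - NC : ℝ) : ℂ) := by
    have h3 : ∀ n ∈ range x, (1 : DirichletCharacter ℂ N) (n : ℕ) * Lam n =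
        Lam n - if ¬ n.Coprime N then Lam n else 0 := by
      intro n _
      by_cases h4 : n.Coprime N
      · rw [MulChar.one_apply ((ZMod.isUnit_iff_coprime n N).2 h4), if_neg (not_not.2 h4), one_mul,
          sub_zero]
      · rw [MulChar.map_nonunit _ (fun h => h4 ((ZMod.isUnit_iff_coprime n N).1 h)), if_pos h4,
          zero_mul, sub_self]
    rw [Finset.sum_congr rfl h3, Finset.sum_sub_distrib, ← Finset.sum_filter, aps_Lam_sum,
      aps_Lam_sum, Complex.ofReal_sub]
  have h3 : (N.totient : ℂ) * (Sr : ℂ) - (P : ℂ) = -(NC : ℂ) +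
      ∑ χ ∈ (Finset.univ : Finset (DirichletCharacter ℂ N)).erase 1, χ ((r : ZMod N)⁻¹) *
      ∑ n ∈ range x, χ (n : ℕ) * Lam n := by
    rw [← h1, ← Finset.add_sum_erase _ _ (Finset.mem_univ (1 : DirichletCharacter ℂ N)), h2]
    have h4 : (1 : DirichletCharacter ℂ N) ((r : ZMod N)⁻¹) = 1 := by
      apply MulChar.one_apply
      rw [← hu.unit_spec, ZMod.inv_coe_unit]
      exact Units.isUnit _
    rw [h4]
    push_cast
    ring
  have h4 : ‖(N.totient : ℂ) * (Sr : ℂ) - (P : ℂ)‖ ≤ NC + N.totient * B := by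
    rw [h3]
    refine (norm_add_le _ _).trans ?_
    have h5 : ‖-(NC : ℂ)‖ = NC := by
      rw [norm_neg, Complex.norm_real, Real.norm_of_nonneg hNC0]
    rw [h5]
    gcongr
    refine (norm_sum_le _ _).trans ?_
    have h6 : ∀ χ ∈ (Finset.univ : Finset (DirichletCharacter ℂ N)).erase 1,
        ‖χ ((r : ZMod N)⁻¹) * ∑ n ∈ range x, χ (n : ℕ) * Lam n‖ ≤ B := by
      intro χ hχ
      rw [Finset.mem_erase] at hχ
      rw [norm_mul]
      calc ‖χ ((r : ZMod N)⁻¹)‖ * ‖∑ n ∈ range x, χ (n : ℕ) * Lam n‖ ≤ 1 * B :=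
            mul_le_mul (DirichletCharacter.norm_le_one χ _) (hB χ hχ.1) (norm_nonneg _)
              zero_le_one
        _ = B := one_mul B
    refine (Finset.sum_le_card_nsmul _ _ _ h6).trans ?_
    rw [nsmul_eq_mul]
    apply mul_le_mul_of_nonneg_right _ hB0
    have h7 : ((Finset.univ : Finset (DirichletCharacter ℂ N)).erase 1).card ≤ N.totient := by
      refine (Finset.card_erase_le).trans ?_
      rw [Finset.card_univ, ← Nat.card_eq_fintype_card,
        DirichletCharacter.card_eq_totient_of_hasEnoughRootsOfUnity]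
    exact_mod_cast h7
  have h5 : ‖(N.totient : ℂ) * (Sr : ℂ) - (P : ℂ)‖ = N.totient * |Sr - P / N.totient| := by
    have h6 : (N.totient : ℂ) * (Sr : ℂ) - (P : ℂ) =
        ((N.totient * (Sr - P / N.totient) : ℝ) : ℂ) := by
      have h7 : (N.totient : ℂ) ≠ 0 := by exact_mod_cast hφ.ne'
      push_cast
      field_simp
    rw [h6, Complex.norm_real, norm_mul, Real.norm_of_nonneg hφ'.le, Real.norm_eq_abs]
  rw [h5] at h4
  have h6 : N.totient * |Sr - P / N.totient| ≤ N.totient * (NC + B) := by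
    refine h4.trans ?_
    nlinarith
  exact le_of_mul_le_mul_left h6 hφ'

theorem primes_ap (R : ℕ) (hR : R ≠ 0) (A : ℝ) : ∃ x0 : ℕ, ∀ x : ℕ, x0 ≤ x → ∀ N : ℕ, 1 ≤ N →
    (N : ℝ) ≤ (Real.log x) ^ A → N.primeFactors ⊆ R.primeFactors → ∀ r : ℕ, r.Coprime N →
    |∑ n ∈ (range x).filter (fun n => n % N = r % N), ArithmeticFunction.vonMangoldt n -
      (∑ n ∈ range x, ArithmeticFunction.vonMangoldt n) / N.totient| ≤
        x * (Real.log x) ^ (-A) := by
  obtain ⟨C, hC0, hC⟩ := aps_noncop R hR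
  set A' := |A| + 1 with hA'
  have hAA' : A + 1 ≤ A' := by
    rw [hA']
    linarith [le_abs_self A]
  obtain ⟨x1, hx1⟩ := char_sharp R hR A'
  obtain ⟨x2, hx2⟩ := Filter.eventually_atTop.1 (aps_ev (2 * C) (2 + A) 1 one_pos)
  obtain ⟨x3, hx3⟩ := Filter.eventually_atTop.1
    ((Real.tendsto_log_atTop.comp tendsto_natCast_atTop_atTop).eventually
      (Filter.eventually_ge_atTop (2 : ℝ)))
  refine ⟨max (max x1 x2) (max x3 2), ?_⟩
  intro x hx N hN hNA hNR r hr
  have hxx1 : x1 ≤ x := (le_max_left _ _).trans ((le_max_left _ _).trans hx)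
  have hxx2 : x2 ≤ x := (le_max_right _ _).trans ((le_max_left _ _).trans hx)
  have hxx3 : x3 ≤ x := (le_max_left _ _).trans ((le_max_right _ _).trans hx)
  have hx2' : 2 ≤ x := (le_max_right _ _).trans ((le_max_right _ _).trans hx)
  have hlog : 2 ≤ Real.log x := hx3 x hxx3
  have hlog0 : 0 < Real.log x := by linarith
  have hx0 : (0 : ℝ) < x := by exact_mod_cast (by omega : 0 < x)
  have hNA' : (N : ℝ) ≤ (Real.log x) ^ A' :=
    hNA.trans (Real.rpow_le_rpow_of_exponent_le (by linarith) (by linarith))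
  have h1 := aps_char N hN r hr x (x * (Real.log x) ^ (-A')) (by positivity)
    (hx1 x hxx1 N hN hNA' hNR)
  refine h1.trans ?_
  have h2 := hC x hx2' N hN hNR
  have h3 : C * (Real.log x) ^ 2 ≤ x * (Real.log x) ^ (-A) / 2 := by
    have h4 := hx2 x hxx2
    rw [Real.rpow_one, Real.rpow_add hlog0] at h4
    have h5 : (Real.log x) ^ (2 : ℝ) = (Real.log x) ^ 2 := by norm_cast
    rw [h5] at h4
    rw [Real.rpow_neg hlog0.le]
    have h6 : 0 < (Real.log x) ^ A := Real.rpow_pos_of_pos hlog0 A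
    rw [le_div_iff₀ (by norm_num : (0 : ℝ) < 2), ← div_eq_mul_inv, le_div_iff₀ h6]
    linarith
  have h4 : x * (Real.log x) ^ (-A') ≤ x * (Real.log x) ^ (-A) / 2 := by
    have h5 : (Real.log x) ^ (-A') ≤ (Real.log x) ^ (-A) / 2 := by
      have h6 : (Real.log x) ^ (-A') ≤ (Real.log x) ^ (-A - 1) :=
        Real.rpow_le_rpow_of_exponent_le (by linarith) (by linarith)
      have h7 : (Real.log x) ^ (-A - 1) = (Real.log x) ^ (-A) / Real.log x := by
        rw [Real.rpow_sub hlog0, Real.rpow_one]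
      rw [h7] at h6
      refine h6.trans ?_
      have h8 : 0 < (Real.log x) ^ (-A) := Real.rpow_pos_of_pos hlog0 _
      exact div_le_div_of_nonneg_left h8.le (by norm_num) hlog
    calc x * (Real.log x) ^ (-A') ≤ x * ((Real.log x) ^ (-A) / 2) := by gcongr
      _ = x * (Real.log x) ^ (-A) / 2 := by ring
  linarith

/-- the sum over the residue classes -/
theorem aps_split (N : ℕ) (hN : 1 ≤ N) (hsq : ¬ Squarefree N) (a : ℤ)
    (ha : IsCoprime a (N : ℤ)) (y : ℕ) (E : ℝ)
    (hE : ∀ r : ℕ, r.Coprime N →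
      |∑ n ∈ (range y).filter (fun n => n % N = r % N), ArithmeticFunction.vonMangoldt n -
        (∑ n ∈ range y, ArithmeticFunction.vonMangoldt n) / N.totient| ≤ E) :
    ‖∑ n ∈ range y, Lam n * ee ((a : ℝ) * n / N)‖ ≤ N * E +
      ∑ n ∈ (range y).filter (fun n => ¬ n.Coprime N), ArithmeticFunction.vonMangoldt n := by
  have hE0 : 0 ≤ E := (abs_nonneg _).trans (hE 1 (Nat.coprime_one_left N))
  have hN0 : (N : ℝ) ≠ 0 := by
    have : (0 : ℝ) < N := by exact_mod_cast hN
    exact this.ne'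
  set D := (∑ n ∈ range y, ArithmeticFunction.vonMangoldt n) / (N.totient : ℝ) with hD
  set S : ℕ → ℝ := fun r =>
    ∑ n ∈ (range y).filter (fun n => n % N = r % N), ArithmeticFunction.vonMangoldt n with hS
  have h1 : ∑ n ∈ range y, Lam n * ee ((a : ℝ) * n / N) =
      ∑ n ∈ (range y).filter (fun n => n.Coprime N), Lam n * ee ((a : ℝ) * n / N) +
      ∑ n ∈ (range y).filter (fun n => ¬ n.Coprime N), Lam n * ee ((a : ℝ) * n / N) :=
    (Finset.sum_filter_add_sum_filter_not _ _ _).symm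
  have h2 : ‖∑ n ∈ (range y).filter (fun n => ¬ n.Coprime N), Lam n * ee ((a : ℝ) * n / N)‖ ≤
      ∑ n ∈ (range y).filter (fun n => ¬ n.Coprime N), ArithmeticFunction.vonMangoldt n := by
    refine (norm_sum_le _ _).trans (Finset.sum_le_sum fun n _ => ?_)
    rw [norm_mul, norm_ee, mul_one]
    unfold Lam
    rw [Complex.norm_real, Real.norm_of_nonneg ArithmeticFunction.vonMangoldt_nonneg]
  have h3 : ∑ n ∈ (range y).filter (fun n => n.Coprime N), Lam n * ee ((a : ℝ) * n / N) =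
      ∑ r ∈ (range N).filter (fun r => r.Coprime N), ee ((a : ℝ) * r / N) * (S r : ℂ) := by
    have hmaps : ∀ n ∈ (range y).filter (fun n => n.Coprime N),
        n % N ∈ (range N).filter (fun r => r.Coprime N) := by
      intro n hn
      rw [mem_filter] at hn ⊢
      refine ⟨mem_range.2 (Nat.mod_lt _ hN), ?_⟩
      have h4 : Nat.gcd (n % N) N = Nat.gcd n N := (Nat.mod_modEq n N).gcd_eq
      unfold Nat.Coprime
      rw [h4]
      exact hn.2
    rw [← Finset.sum_fiberwise_of_maps_to hmaps]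
    refine Finset.sum_congr rfl fun r hr => ?_
    rw [mem_filter, mem_range] at hr
    have h5 : ((range y).filter (fun n => n.Coprime N)).filter (fun n => n % N = r) =
        (range y).filter (fun n => n % N = r % N) := by
      ext n
      rw [mem_filter, mem_filter, mem_filter, Nat.mod_eq_of_lt hr.1]
      constructor
      · rintro ⟨⟨h6, -⟩, h7⟩
        exact ⟨h6, h7⟩
      · rintro ⟨h6, h7⟩
        refine ⟨⟨h6, ?_⟩, h7⟩
        have h4 : Nat.gcd (n % N) N = Nat.gcd n N := (Nat.mod_modEq n N).gcd_eq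
        unfold Nat.Coprime
        rw [← h4, h7]
        exact hr.2
    rw [h5, hS]
    simp only
    rw [← aps_Lam_sum, Finset.mul_sum]
    refine Finset.sum_congr rfl fun n hn => ?_
    rw [mem_filter, Nat.mod_eq_of_lt hr.1] at hn
    rw [mul_comm]
    congr 1
    apply ee_congr
    have h6 := Nat.mod_add_div n N
    rw [hn.2] at h6
    obtain ⟨t, ht⟩ : ∃ t : ℕ, t = n / N := ⟨_, rfl⟩
    rw [← ht] at h6
    refine ⟨a * (t : ℤ), ?_⟩
    rw [← h6]
    push_cast
    field_simp
    ring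
  have h4 : ∑ r ∈ (range N).filter (fun r => r.Coprime N), ee ((a : ℝ) * r / N) * (S r : ℂ) =
      ∑ r ∈ (range N).filter (fun r => r.Coprime N), ee ((a : ℝ) * r / N) * ((S r - D : ℝ) : ℂ) := by
    have h5 := ramanujan_zero N hN hsq a ha
    have h6 : ∑ r ∈ (range N).filter (fun r => r.Coprime N), ee ((a : ℝ) * r / N) * (D : ℂ) = 0 := by
      rw [← Finset.sum_mul, h5, zero_mul]
    rw [← sub_zero (∑ r ∈ (range N).filter (fun r => r.Coprime N), ee ((a : ℝ) * r / N) * (S r : ℂ)),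
      ← h6, ← Finset.sum_sub_distrib]
    refine Finset.sum_congr rfl fun r _ => ?_
    push_cast
    ring
  rw [h1, h3, h4]
  refine (norm_add_le _ _).trans (add_le_add ?_ h2)
  refine (norm_sum_le _ _).trans ?_
  have h7 : ∀ r ∈ (range N).filter (fun r => r.Coprime N),
      ‖ee ((a : ℝ) * r / N) * ((S r - D : ℝ) : ℂ)‖ ≤ E := by
    intro r hr
    rw [mem_filter] at hr
    rw [norm_mul, norm_ee, one_mul, Complex.norm_real, Real.norm_eq_abs]
    exact hE r hr.2
  refine (Finset.sum_le_card_nsmul _ _ _ h7).trans ?_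
  rw [nsmul_eq_mul]
  apply mul_le_mul_of_nonneg_right _ hE0
  have h8 : ((range N).filter (fun r => r.Coprime N)).card ≤ N := by
    refine (Finset.card_filter_le _ _).trans ?_
    rw [card_range]
  exact_mod_cast h8

theorem aps_triv (y x : ℕ) (hx : 2 ≤ x) (hyx : y ≤ x) (a : ℤ) (N : ℕ) :
    ‖∑ n ∈ range y, Lam n * ee ((a : ℝ) * n / N)‖ ≤ y * Real.log x := by
  have hx0 : (0 : ℝ) < x := by exact_mod_cast (by omega : 0 < x)
  have hlx : 0 ≤ Real.log x := Real.log_nonneg (by exact_mod_cast (by omega : 1 ≤ x))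
  refine (norm_sum_le _ _).trans ?_
  have h7 : ∀ n ∈ range y, ‖Lam n * ee ((a : ℝ) * n / N)‖ ≤ Real.log x := by
    intro n hn
    rw [mem_range] at hn
    rw [norm_mul, norm_ee, mul_one]
    unfold Lam
    rw [Complex.norm_real, Real.norm_of_nonneg ArithmeticFunction.vonMangoldt_nonneg]
    rcases Nat.eq_zero_or_pos n with h | h
    · subst h
      simpa using hlx
    · refine ArithmeticFunction.vonMangoldt_le_log.trans (Real.log_le_log ?_ ?_)
      · exact_mod_cast h
      · exact_mod_cast (by omega : n ≤ x)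
  refine (Finset.sum_le_card_nsmul _ _ _ h7).trans ?_
  rw [nsmul_eq_mul, card_range]

theorem expo_nonsq (R : ℕ) (hR : R ≠ 0) (A : ℝ) : ∃ x0 : ℕ, ∀ x : ℕ, x0 ≤ x → ∀ N : ℕ, 1 ≤ N →
    (N : ℝ) ≤ (Real.log x) ^ A → N.primeFactors ⊆ R.primeFactors → ¬ Squarefree N →
    ∀ a : ℤ, IsCoprime a (N : ℤ) → ∀ β : ℝ, |β| ≤ (Real.log x) ^ A / x →
    ‖∑ n ∈ range x, Lam n * ee (((a : ℝ) / N + β) * n)‖ ≤ x * (Real.log x) ^ (-A) := by
  have hlogt : Filter.Tendsto (fun x : ℕ => Real.log x) Filter.atTop Filter.atTop :=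
    Real.tendsto_log_atTop.comp tendsto_natCast_atTop_atTop
  rcases le_or_gt A 0 with hA | hA
  · obtain ⟨x3, hx3⟩ := Filter.eventually_atTop.1
      (hlogt.eventually (Filter.eventually_ge_atTop (1 : ℝ)))
    refine ⟨x3, ?_⟩
    intro x hx N hN hNA _ hsq
    exfalso
    apply hsq
    have h1 : (Real.log x) ^ A ≤ 1 := Real.rpow_le_one_of_one_le_of_nonpos (hx3 x hx) hA
    have h2 : (N : ℝ) ≤ 1 := hNA.trans h1
    have h3 : N = 1 := by
      have : N ≤ 1 := by exact_mod_cast h2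
      omega
    rw [h3]
    exact squarefree_one
  obtain ⟨C, hC0, hC⟩ := aps_noncop R hR
  set K := 3 * A + 1 with hK
  obtain ⟨x1, hx1⟩ := primes_ap R hR K
  set c : ℝ := 2 ^ K + 1 with hc
  have h2K : (0 : ℝ) < (2 : ℝ) ^ K := Real.rpow_pos_of_pos (by norm_num) K
  have hc0 : 0 < c := by rw [hc]; linarith
  obtain ⟨x2, hx2⟩ := Filter.eventually_atTop.1 (aps_ev 1 (2 * A + 2) (1 / 2) (by norm_num))
  obtain ⟨x3, hx3⟩ := Filter.eventually_atTop.1
    (hlogt.eventually (Filter.eventually_ge_atTop (max (8 * c) 4)))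
  obtain ⟨x4, hx4⟩ := Filter.eventually_atTop.1 (aps_ev C (2 * A + 3) 1 one_pos)
  refine ⟨max (max x2 x3) (max x4 (max 2 ((max x1 2) ^ 2))), ?_⟩
  intro x hx N hN hNA hNR hsq a ha β hβ
  have hxx2 : x2 ≤ x := (le_max_left _ _).trans ((le_max_left _ _).trans hx)
  have hxx3 : x3 ≤ x := (le_max_right _ _).trans ((le_max_left _ _).trans hx)
  have hxx4 : x4 ≤ x := (le_max_left _ _).trans ((le_max_right _ _).trans hx)
  have hx2' : 2 ≤ x := (le_max_left _ _).trans ((le_max_right _ _).trans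
    ((le_max_right _ _).trans hx))
  have hxsq : (max x1 2) ^ 2 ≤ x := (le_max_right _ _).trans ((le_max_right _ _).trans
    ((le_max_right _ _).trans hx))
  set T := Real.log x with hT
  have hT1 : max (8 * c) 4 ≤ T := hx3 x hxx3
  have hT8 : 8 * c ≤ T := (le_max_left _ _).trans hT1
  have hT4 : 4 ≤ T := (le_max_right _ _).trans hT1
  have hT0 : 0 < T := by linarith
  have hx0 : (0 : ℝ) < x := by exact_mod_cast (by omega : 0 < x)
  have hTA : 1 ≤ T ^ A := Real.one_le_rpow (by linarith) hA.le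
  -- the bound for the partial sums
  have key : ∀ y : ℕ, y ≤ x → ‖∑ n ∈ range y, Lam n * ee ((a : ℝ) * n / N)‖ ≤
      c * (x * T ^ (-(2 * A + 1))) := by
    intro y hyx
    have hpos : 0 < x * T ^ (-(2 * A + 1)) := mul_pos hx0 (Real.rpow_pos_of_pos hT0 _)
    rcases le_or_gt (y : ℝ) (x * T ^ (-(2 * A + 2))) with hy | hy
    · refine (aps_triv y x hx2' hyx a N).trans ?_
      have h1 : (y : ℝ) * T ≤ x * T ^ (-(2 * A + 1)) := by
        calc (y : ℝ) * T ≤ (x * T ^ (-(2 * A + 2))) * T := by gcongr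
          _ = x * (T ^ (-(2 * A + 2)) * T ^ (1 : ℝ)) := by rw [Real.rpow_one]; ring
          _ = x * T ^ (-(2 * A + 1)) := by
              rw [← Real.rpow_add hT0]
              congr 2
              ring
      refine h1.trans ?_
      have hc1 : 1 ≤ c := by rw [hc]; linarith
      nlinarith
    · -- `y` is large
      have h1 : (x : ℝ) ^ (1 / 2 : ℝ) ≤ x * T ^ (-(2 * A + 2)) := by
        have h2 := hx2 x hxx2
        rw [one_mul] at h2
        rw [Real.rpow_neg hT0.le, ← div_eq_mul_inv, le_div_iff₀ (Real.rpow_pos_of_pos hT0 _)]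
        calc (x : ℝ) ^ (1 / 2 : ℝ) * T ^ (2 * A + 2) ≤ (x : ℝ) ^ (1 / 2 : ℝ) * (x : ℝ) ^ (1 / 2 : ℝ) := by
              gcongr
          _ = x := by
              rw [← Real.rpow_add hx0]
              norm_num
      have hyx' : (x : ℝ) ^ (1 / 2 : ℝ) < y := lt_of_le_of_lt h1 hy
      have hmax : (max x1 2 : ℕ) ≤ y := by
        have h2 : ((max x1 2 : ℕ) : ℝ) ≤ (x : ℝ) ^ (1 / 2 : ℝ) := by
          rw [← Real.sqrt_eq_rpow]
          apply Real.le_sqrt_of_sq_le
          exact_mod_cast hxsq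
        have h3 : ((max x1 2 : ℕ) : ℝ) ≤ y := h2.trans hyx'.le
        exact_mod_cast h3
      have hyx1 : x1 ≤ y := (le_max_left _ _).trans hmax
      have hy2 : 2 ≤ y := (le_max_right _ _).trans hmax
      have hy0 : (0 : ℝ) < y := by exact_mod_cast (by omega : 0 < y)
      have hlogy : T / 2 ≤ Real.log y := by
        have h2 := Real.log_le_log (Real.rpow_pos_of_pos hx0 _) hyx'.le
        rw [Real.log_rpow hx0] at h2
        linarith
      have hlogy2 : 2 ≤ Real.log y := by linarith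
      have hlogyT : Real.log y ≤ T := Real.log_le_log hy0 (by exact_mod_cast hyx)
      have hNK : (N : ℝ) ≤ (Real.log y) ^ K := by
        refine hNA.trans ?_
        calc T ^ A ≤ (2 * Real.log y) ^ A := by
              apply Real.rpow_le_rpow hT0.le _ hA.le
              linarith
          _ = 2 ^ A * (Real.log y) ^ A := Real.mul_rpow (by norm_num) (by linarith)
          _ ≤ (Real.log y) ^ A * (Real.log y) ^ A := by
              gcongr
          _ = (Real.log y) ^ (A + A) := by rw [← Real.rpow_add (by linarith)]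
          _ ≤ (Real.log y) ^ K :=
              Real.rpow_le_rpow_of_exponent_le (by linarith) (by rw [hK]; linarith)
      have h2 := aps_split N hN hsq a ha y (y * (Real.log y) ^ (-K))
        (hx1 y hyx1 N hN hNK hNR)
      refine h2.trans ?_
      have h3 := hC y hy2 N hN hNR
      have h4 : C * (Real.log y) ^ 2 ≤ x * T ^ (-(2 * A + 1)) := by
        have h5 : C * (Real.log y) ^ 2 ≤ C * T ^ 2 := by
          have : 0 ≤ Real.log y := by linarith
          gcongr
        refine h5.trans ?_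
        have h6 := hx4 x hxx4
        rw [Real.rpow_one] at h6
        rw [Real.rpow_neg hT0.le, ← div_eq_mul_inv, le_div_iff₀ (Real.rpow_pos_of_pos hT0 _)]
        calc C * T ^ 2 * T ^ (2 * A + 1) = C * (T ^ (2 : ℝ) * T ^ (2 * A + 1)) := by
              norm_cast
              ring
          _ = C * T ^ (2 * A + 3) := by
              rw [← Real.rpow_add hT0]
              congr 2
              ring
          _ ≤ x := h6
      have h5 : (N : ℝ) * (y * (Real.log y) ^ (-K)) ≤ 2 ^ K * (x * T ^ (-(2 * A + 1))) := by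
        have h6 : (Real.log y) ^ (-K) ≤ 2 ^ K * T ^ (-K) := by
          have h7 : (Real.log y) ^ (-K) ≤ (T / 2) ^ (-K) := by
            apply Real.rpow_le_rpow_of_nonpos (by linarith) hlogy
            rw [hK]
            linarith
          refine h7.trans (le_of_eq ?_)
          rw [Real.div_rpow hT0.le (by norm_num), Real.rpow_neg (by norm_num : (0 : ℝ) ≤ 2)]
          field_simp
        have h8 : (0 : ℝ) ≤ (Real.log y) ^ (-K) := Real.rpow_nonneg (by linarith) _
        calc (N : ℝ) * (y * (Real.log y) ^ (-K)) ≤ T ^ A * (x * (2 ^ K * T ^ (-K))) := by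
              have : (y : ℝ) ≤ x := by exact_mod_cast hyx
              gcongr
          _ = 2 ^ K * (x * (T ^ A * T ^ (-K))) := by ring
          _ = 2 ^ K * (x * T ^ (-(2 * A + 1))) := by
              rw [← Real.rpow_add hT0]
              congr 3
              rw [hK]
              ring
      have h6 : c * (x * T ^ (-(2 * A + 1))) =
          2 ^ K * (x * T ^ (-(2 * A + 1))) + x * T ^ (-(2 * A + 1)) := by
        rw [hc]; ring
      rw [h6]
      linarith
  have h1 := abel_ee (fun n => Lam n * ee ((a : ℝ) * n / N)) x _ β key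
  have h2 : ∀ n ∈ range x, Lam n * ee (((a : ℝ) / N + β) * n) =
      Lam n * ee ((a : ℝ) * n / N) * ee (β * n) := by
    intro n _
    rw [mul_assoc, ← ee_add]
    congr 2
    ring
  rw [Finset.sum_congr rfl h2]
  refine h1.trans ?_
  have h3 : |β| * x ≤ T ^ A := by
    rw [le_div_iff₀ hx0] at hβ
    exact hβ
  have h4 : 1 + 2 * Real.pi * |β| * x ≤ 8 * T ^ A := by
    have hpi := Real.pi_lt_d2
    have hpi0 := Real.pi_pos
    have h5 : 2 * Real.pi * |β| * x = 2 * Real.pi * (|β| * x) := by ring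
    rw [h5]
    have h6 : 2 * Real.pi * (|β| * x) ≤ 2 * Real.pi * T ^ A := by gcongr
    nlinarith
  have hpos : 0 < x * T ^ (-(2 * A + 1)) := mul_pos hx0 (Real.rpow_pos_of_pos hT0 _)
  calc c * (x * T ^ (-(2 * A + 1))) * (1 + 2 * Real.pi * |β| * x)
      ≤ c * (x * T ^ (-(2 * A + 1))) * (8 * T ^ A) := by gcongr
    _ = (8 * c) * (x * (T ^ (-(2 * A + 1)) * T ^ A)) := by ring
    _ ≤ T * (x * (T ^ (-(2 * A + 1)) * T ^ A)) := by gcongr
    _ = x * (T ^ (1 : ℝ) * (T ^ (-(2 * A + 1)) * T ^ A)) := by rw [Real.rpow_one]; ring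
    _ = x * T ^ (-A) := by
        rw [← Real.rpow_add hT0, ← Real.rpow_add hT0]
        congr 2
        ring

end Pool.Agent.H10.RP
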