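import Pool.Agent.H10.RP.Scale

/-!
# Reversed primes: sums over primes of digit functions, abstract form (job RP-8b)

PROOF. Let `X = q ^ J`, `ℓ = log J`, `w ≤ C0 ℓ` from the hypothesis.
(i) `SupB`: for `k < q ^ J`, `fd q φ J k * ee (α k) = fd q (tw q α φ) J k` (`fd_tw`), so by `prefix_le` the
sum is at most `∑ j ≤ J, q q ^ j PP q (tw q α φ) j j 0`. The `j ≤ J / 2` contribute at most
`2 q² q ^ (J / 2)`, the others at most `2 q q ^ J (1 - c) ^ ((J / 2) / w)`; the exponent is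
`≥ J / (2 C0 ℓ) - 2`. So the bound is `B1 := q ^ J exp (-c' J / ℓ)` for large `J`.
(ii) `U = ⌈exp (ℓ ^ 3)⌉₊`; `U ^ 2 = exp (O(ℓ ^ 3))` is negligible against `exp (c' J / ℓ)`.
(iii) `kp = ⌈C1 ℓ⌉₊` with a large constant `C1 = C1(A, κ, q)`. In `sig`: `Nat.log q U ≥ ℓ ^ 3 / log q - 1`, so
`κ ^ (Nat.log q U) ≤ exp (-c1 ℓ ^ 3) / κ` (if `κ = 0` trivial) and
`(1 - c) ^ (Nat.log q U / w) ≤ exp (-c2 ℓ ^ 2) / (1 - c)²` beat every power of `J = exp ℓ` and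
`q ^ kp ≤ q J ^ (C1 log q)`; `κ ^ kp ≤ J ^ (-C1 log (1/κ))`. So
`tii_explicit` gives `TIIB` with `B2 = q ^ J J ^ (-A - 3)`. Use `PP q φ = PP q (tw q 0 φ)` (`ee 0 = 1`).
(iv) `vaughan_bound` (`f = fd q φ J`, `|f| = 1`, `g` constant by `typeI_mult`).
-/

set_option autoImplicit false

open Finset
open scoped ComplexConjugate

namespace Pool.Agent.H10.RP

private theorem abs_geom (q : ℕ) (hq : 2 ≤ q) (n : ℕ) :
    ∑ j ∈ range (n + 1), (q : ℝ) * (q : ℝ) ^ j ≤ (q : ℝ) ^ (n + 2) := by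
  have hq' : (2 : ℝ) ≤ q := by exact_mod_cast hq
  induction n with
  | zero =>
    simp only [zero_add, Finset.sum_range_one, pow_zero, mul_one]
    nlinarith
  | succ n ih =>
    rw [Finset.sum_range_succ]
    have h1 : (q : ℝ) * (q : ℝ) ^ (n + 1) = (q : ℝ) ^ (n + 2) := by ring
    have h2 : (q : ℝ) ^ (n + 1 + 2) = q * (q : ℝ) ^ (n + 2) := by ring
    have h3 : 0 < (q : ℝ) ^ (n + 2) := by positivity
    rw [h1, h2]
    nlinarith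

theorem supB_explicit {q : ℕ} (hq : 2 ≤ q) (φ : ℕ → ℕ → ℂ) (hφ : Uni φ) (c : ℝ) (hc0 : 0 ≤ c)
    (hc1 : c ≤ 1) (J w : ℕ) (hsup : ∀ (α : ℝ) (lam δ c' : ℕ), lam ≤ J → δ ≤ lam →
        PP q (tw q α φ) lam δ c' ≤ (1 - c) ^ (δ / w)) :
    SupB (fd q φ J) (q ^ J)
      ((q : ℝ) ^ (J / 2 + 2) + (q : ℝ) ^ (J + 2) * (1 - c) ^ ((J / 2) / w)) := by
  intro α x hx
  have hq0 : (0 : ℝ) < q := by exact_mod_cast (by omega : 0 < q)
  have h1 : ∑ k ∈ range x, fd q φ J k * ee (α * k) = ∑ k ∈ range x, fd q (tw q α φ) J k := by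
    apply Finset.sum_congr rfl
    intro k hk
    rw [fd_tw φ hq α J k (lt_of_lt_of_le (Finset.mem_range.mp hk) hx)]
  rw [h1]
  refine (prefix_le (tw q α φ) hq (uni_tw φ hφ α) J x hx).trans ?_
  have h2 : ∀ j ∈ range (J + 1), (q : ℝ) * (q : ℝ) ^ j * PP q (tw q α φ) j j 0 ≤
      (if j < J / 2 + 1 then (q : ℝ) * (q : ℝ) ^ j else 0) +
        (q : ℝ) * (q : ℝ) ^ j * (1 - c) ^ ((J / 2) / w) := by
    intro j hj
    have hj' : j ≤ J := Nat.lt_succ_iff.mp (Finset.mem_range.mp hj)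
    have hp0 : 0 < (q : ℝ) * (q : ℝ) ^ j := by positivity
    have hc2 : 0 ≤ (1 - c) := by linarith
    split_ifs with hlt
    · have h3 := PP_le_one (q := q) (tw q α φ) (uni_tw φ hφ α) j j 0
      have h4 : 0 ≤ (q : ℝ) * (q : ℝ) ^ j * (1 - c) ^ ((J / 2) / w) := by positivity
      nlinarith
    · have h3 := hsup α j j 0 hj' le_rfl
      have h4 : (1 - c) ^ (j / w) ≤ (1 - c) ^ ((J / 2) / w) :=
        pow_le_pow_of_le_one hc2 (by linarith) (Nat.div_le_div_right (by omega))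
      rw [zero_add]
      exact mul_le_mul_of_nonneg_left (h3.trans h4) hp0.le
  refine (Finset.sum_le_sum h2).trans ?_
  rw [Finset.sum_add_distrib]
  apply add_le_add
  · rw [← Finset.sum_filter]
    refine le_trans ?_ (abs_geom q hq (J / 2))
    apply Finset.sum_le_sum_of_subset_of_nonneg
    · intro j hj
      rw [Finset.mem_filter] at hj
      exact Finset.mem_range.mpr hj.2
    · intro j _ _
      positivity
  · rw [← Finset.sum_mul]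
    apply mul_le_mul_of_nonneg_right (abs_geom q hq J)
    have hc2 : 0 ≤ (1 - c) := by linarith
    positivity

private theorem tw_zero (q : ℕ) (φ : ℕ → ℕ → ℂ) : tw q 0 φ = φ := by
  funext i a
  simp [tw, ee_zero]

private theorem s1_exp {lq γ C1 A3 ℓ : ℝ} (hlq0 : 0 < lq) (hγ0 : 0 < γ) (hC10 : 0 < C1)
    (hA3 : 0 ≤ A3) (hℓ1 : 1 ≤ ℓ)
    (hD : (Real.log (3 * (4 + 2 * lq)) + 6 * lq + γ + 4 * lq * C1 + 4 * A3 + 11) * lq / γ ≤ ℓ) :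
    3 * Real.exp (lq * (4 * C1 * ℓ + 6)) * ((4 + 2 * lq) * Real.exp ℓ) *
      Real.exp (-(γ * (ℓ ^ 3 / lq - 1))) ≤ Real.exp (-((4 * A3 + 10) * ℓ)) := by
  have hlog12 : 0 ≤ Real.log (3 * (4 + 2 * lq)) := Real.log_nonneg (by linarith)
  set a := Real.log (3 * (4 + 2 * lq)) with ha
  have hea : Real.exp a = 3 * (4 + 2 * lq) := Real.exp_log (by positivity)
  set K1 : ℝ := a + 6 * lq + γ + 4 * lq * C1 + 4 * A3 + 11 with hK1
  have hK10 : 0 < K1 := by positivity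
  have h5 : 3 * Real.exp (lq * (4 * C1 * ℓ + 6)) * ((4 + 2 * lq) * Real.exp ℓ) *
        Real.exp (-(γ * (ℓ ^ 3 / lq - 1))) =
      Real.exp (a + (lq * (4 * C1 * ℓ + 6) + (ℓ + -(γ * (ℓ ^ 3 / lq - 1))))) := by
    rw [Real.exp_add a, hea, Real.exp_add (lq * (4 * C1 * ℓ + 6)), Real.exp_add ℓ]
    generalize Real.exp (lq * (4 * C1 * ℓ + 6)) = e1
    generalize Real.exp ℓ = e2
    generalize Real.exp (-(γ * (ℓ ^ 3 / lq - 1))) = e3
    ring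
  rw [h5]
  apply Real.exp_le_exp.mpr
  have h6 : K1 * ℓ ≤ γ / lq * ℓ ^ 3 := by
    have h8 : K1 * lq / γ ≤ ℓ ^ 2 := hD.trans (le_self_pow₀ hℓ1 (by norm_num))
    have h9 : K1 ≤ γ / lq * ℓ ^ 2 := by
      rw [div_le_iff₀ hγ0] at h8
      rw [div_mul_eq_mul_div, le_div_iff₀ hlq0]
      linarith
    calc K1 * ℓ ≤ (γ / lq * ℓ ^ 2) * ℓ := by gcongr
      _ = _ := by ring
  have h10 : γ * (ℓ ^ 3 / lq - 1) = γ / lq * ℓ ^ 3 - γ := by field_simp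
  rw [h10]
  have h11 : K1 * ℓ = a * ℓ + 6 * lq * ℓ + γ * ℓ + 4 * lq * C1 * ℓ +
      4 * A3 * ℓ + 11 * ℓ := by rw [hK1]; ring
  have h12 : a ≤ a * ℓ := le_mul_of_one_le_right hlog12 hℓ1
  have h13 : 6 * lq ≤ 6 * lq * ℓ := le_mul_of_one_le_right (by positivity) hℓ1
  have h14 : γ ≤ γ * ℓ := le_mul_of_one_le_right hγ0.le hℓ1
  linarith

private theorem s4_exp {lq β C0 C1 A3 ℓ r g : ℝ} (hlq0 : 0 < lq) (hβ0 : 0 < β) (hC0 : 0 < C0)
    (hC10 : 0 < C1) (hA3 : 0 ≤ A3) (hℓ1 : 1 ≤ ℓ) (hr : 0 ≤ r) (hg : 0 ≤ g)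
    (hD : (g + Real.log 2 + 8 * lq + 2 * β * (1 / C0 + 1) + (r + 7 * lq * C1 + 4 * A3 + 10)) *
      (lq * C0) / (2 * β) ≤ ℓ) :
    Real.exp (g + r * ℓ) * (2 * Real.exp (lq * (7 * C1 * ℓ + 8)) *
      Real.exp (-(2 * β * (ℓ ^ 2 / (lq * C0) - 1 / C0 - 1)))) ≤
        Real.exp (-((4 * A3 + 10) * ℓ)) := by
  have hlog2 : 0 < Real.log 2 := Real.log_pos (by norm_num)
  set a := Real.log 2 with ha
  have hea : Real.exp a = 2 := Real.exp_log (by norm_num)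
  set K2 : ℝ := g + a + 8 * lq + 2 * β * (1 / C0 + 1) + (r + 7 * lq * C1 + 4 * A3 + 10) with hK2
  have hK20 : 0 < K2 := by positivity
  have h3 : Real.exp (g + r * ℓ) * (2 * Real.exp (lq * (7 * C1 * ℓ + 8)) *
        Real.exp (-(2 * β * (ℓ ^ 2 / (lq * C0) - 1 / C0 - 1)))) =
      Real.exp (g + r * ℓ + (a + (lq * (7 * C1 * ℓ + 8) +
        -(2 * β * (ℓ ^ 2 / (lq * C0) - 1 / C0 - 1))))) := by
    rw [Real.exp_add (g + r * ℓ), Real.exp_add a, hea, Real.exp_add (lq * (7 * C1 * ℓ + 8))]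
    ring
  rw [h3]
  apply Real.exp_le_exp.mpr
  have h6 : K2 * ℓ ≤ 2 * β / (lq * C0) * ℓ ^ 2 := by
    have h7 := hD
    rw [div_le_iff₀ (by positivity)] at h7
    have h8 : K2 ≤ 2 * β / (lq * C0) * ℓ := by
      rw [div_mul_eq_mul_div, le_div_iff₀ (by positivity)]
      linarith
    calc K2 * ℓ ≤ (2 * β / (lq * C0) * ℓ) * ℓ := by gcongr
      _ = _ := by ring
  have h10 : 2 * β * (ℓ ^ 2 / (lq * C0) - 1 / C0 - 1) =
      2 * β / (lq * C0) * ℓ ^ 2 - 2 * β * (1 / C0 + 1) := by ring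
  rw [h10]
  set z := 2 * β * (1 / C0 + 1) with hz
  have hz0 : 0 ≤ z := by positivity
  have h11 : K2 * ℓ = g * ℓ + a * ℓ + 8 * lq * ℓ +
      z * ℓ + (r + 7 * lq * C1 + 4 * A3 + 10) * ℓ := by rw [hK2]; ring
  have h12 : g ≤ g * ℓ := le_mul_of_one_le_right hg hℓ1
  have h13 : a ≤ a * ℓ := le_mul_of_one_le_right hlog2.le hℓ1
  have h14 : 8 * lq ≤ 8 * lq * ℓ := le_mul_of_one_le_right (by positivity) hℓ1
  have h15 : z ≤ z * ℓ := le_mul_of_one_le_right hz0 hℓ1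
  linarith

/-- the saving is an arbitrary power of `J` -/
private theorem sig_small (q : ℕ) (hq : 2 ≤ q) (κ c : ℝ) (hκ0 : 0 ≤ κ) (hκ1 : κ < 1) (hc0 : 0 < c)
    (hc1 : c < 1) (A3 C0 : ℝ) (hA3 : 0 ≤ A3) (hC0 : 0 < C0) : ∃ C1 D : ℝ, 0 < C1 ∧ 1 ≤ D ∧
    ∀ (J w U kp : ℕ), D ≤ Real.log J → 1 ≤ w → (w : ℝ) ≤ C0 * Real.log J →
      U = ⌈Real.exp (Real.log J ^ 3)⌉₊ → kp = ⌈C1 * Real.log J⌉₊ →
      Real.sqrt (4 / (q : ℝ) ^ kp + 8 * Real.sqrt (2 * sig q J kp w U κ c + 16 / (q : ℝ) ^ kp)) ≤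
        Real.exp (-(A3 * Real.log J)) := by
  have hq' : (2 : ℝ) ≤ q := by exact_mod_cast hq
  have hq0 : (0 : ℝ) < q := by linarith
  set lq := Real.log q with hlq
  have hlq0 : 0 < lq := Real.log_pos (by linarith)
  have hexpq : Real.exp lq = q := Real.exp_log hq0
  set κ' := max κ (1 / 2) with hκ'
  have hκ'0 : 0 < κ' := lt_of_lt_of_le (by norm_num) (le_max_right _ _)
  have hκ'1 : κ' < 1 := max_lt hκ1 (by norm_num)
  set γ := -Real.log κ' with hγ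
  have hγ0 : 0 < γ := by
    rw [hγ]
    have := Real.log_neg hκ'0 hκ'1
    linarith
  have hexpκ : Real.exp (-γ) = κ' := by rw [hγ, neg_neg, Real.exp_log hκ'0]
  set β := -Real.log (1 - c) with hβ
  have h1c : 0 < 1 - c := by linarith
  have hβ0 : 0 < β := by
    rw [hβ]
    have := Real.log_neg h1c (by linarith)
    linarith
  have hexpc : Real.exp (-β) = 1 - c := by rw [hβ, neg_neg, Real.exp_log h1c]
  set M : ℝ := 4 * A3 + q + 30 with hM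
  have hM0 : 0 < M := by positivity
  set C1 : ℝ := M / γ + M / lq with hC1
  have hC10 : 0 < C1 := by positivity
  have hγC1 : M ≤ γ * C1 := by
    have : γ * C1 = M + γ * (M / lq) := by rw [hC1]; field_simp
    have h2 : 0 < γ * (M / lq) := by positivity
    linarith
  have hlqC1 : M ≤ lq * C1 := by
    have : lq * C1 = M + lq * (M / γ) := by rw [hC1]; field_simp; ring
    have h2 : 0 < lq * (M / γ) := by positivity
    linarith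
  set K1 : ℝ := Real.log (3 * (4 + 2 * lq)) + 6 * lq + γ + 4 * lq * C1 + 4 * A3 + 11 with hK1
  have hlog12 : 0 ≤ Real.log (3 * (4 + 2 * lq)) := Real.log_nonneg (by linarith)
  have hK10 : 0 < K1 := by positivity
  set K2 : ℝ := q * Real.log (2 * q) + Real.log 2 + 8 * lq + 2 * β * (1 / C0 + 1) +
    (q + 7 * lq * C1 + 4 * A3 + 10) with hK2
  have hlog2q : 0 ≤ Real.log (2 * q) := Real.log_nonneg (by linarith)
  have hlog2 : 0 < Real.log 2 := Real.log_pos (by norm_num)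
  have hK20 : 0 < K2 := by positivity
  refine ⟨C1, 1 + K1 * lq / γ + q * Real.log (2 * q) + K2 * (lq * C0) / (2 * β), hC10, ?_, ?_⟩
  · have h1 : 0 ≤ K1 * lq / γ := by positivity
    have h2 : 0 ≤ q * Real.log (2 * q) := by positivity
    have h3 : 0 ≤ K2 * (lq * C0) / (2 * β) := by positivity
    linarith
  intro J w U kp hD hw hwC hU hkp
  set ℓ := Real.log J with hℓ
  have a1 : 0 ≤ K1 * lq / γ := by positivity
  have a2 : 0 ≤ q * Real.log (2 * q) := by positivity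
  have a3 : 0 ≤ K2 * (lq * C0) / (2 * β) := by positivity
  have hℓ1 : 1 ≤ ℓ := by linarith
  have hℓ0 : 0 < ℓ := by linarith
  have hJ1 : 1 ≤ J := by
    by_contra h
    have hJ0 : J = 0 := by omega
    rw [hℓ, hJ0] at hℓ1
    simp at hℓ1
    linarith
  have hJ0 : (0 : ℝ) < J := by exact_mod_cast hJ1
  have hJ1' : (1 : ℝ) ≤ J := by exact_mod_cast hJ1
  have hexpJ : Real.exp ℓ = J := Real.exp_log hJ0
  have hpow : ∀ n : ℕ, (q : ℝ) ^ n = Real.exp (lq * n) := by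
    intro n
    rw [mul_comm, Real.exp_nat_mul, hexpq]
  -- bounds for kp
  have hkp1 : C1 * ℓ ≤ kp := by rw [hkp]; exact Nat.le_ceil _
  have hkp2 : (kp : ℝ) ≤ C1 * ℓ + 1 := by
    rw [hkp]; exact (Nat.ceil_lt_add_one (by positivity)).le
  have hqkp : Real.exp (M * ℓ) ≤ (q : ℝ) ^ kp := by
    rw [hpow]
    apply Real.exp_le_exp.mpr
    have h1 : lq * (C1 * ℓ) ≤ lq * kp := by gcongr
    have h2 : M * ℓ ≤ lq * C1 * ℓ := by gcongr
    linarith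
  have hqkp0 : 0 < (q : ℝ) ^ kp := by positivity
  have hinv : 1 / (q : ℝ) ^ kp ≤ Real.exp (-(M * ℓ)) := by
    rw [Real.exp_neg, ← one_div]
    exact one_div_le_one_div_of_le (Real.exp_pos _) hqkp
  -- the number of levels
  set n := Nat.log q U with hn
  have hn1 : ℓ ^ 3 / lq - 1 ≤ n := by
    have h1 : U < q ^ (n + 1) := Nat.lt_pow_succ_log_self (by omega) U
    have h2 : Real.exp (ℓ ^ 3) ≤ U := by rw [hU]; exact Nat.le_ceil _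
    have h3 : (U : ℝ) < (q : ℝ) ^ (n + 1) := by exact_mod_cast h1
    rw [hpow] at h3
    have h4 : ℓ ^ 3 < lq * ((n + 1 : ℕ) : ℝ) := Real.exp_lt_exp.mp (lt_of_le_of_lt h2 h3)
    push_cast at h4
    have h5 : ℓ ^ 3 / lq < n + 1 := by
      rw [div_lt_iff₀ hlq0]; linarith
    linarith
  have hw0 : (0 : ℝ) < w := by exact_mod_cast hw
  have hnw : ℓ ^ 2 / (lq * C0) - 1 / C0 - 1 ≤ ((n / w : ℕ) : ℝ) := by
    have h1 : (n : ℝ) < w * ((n / w : ℕ) : ℝ) + w := by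
      have h2 := Nat.div_add_mod n w
      have h3 := Nat.mod_lt n (by omega : w > 0)
      have h4 : n < w * (n / w) + w := by omega
      exact_mod_cast h4
    have h5 : (n : ℝ) / w < ((n / w : ℕ) : ℝ) + 1 := by
      rw [div_lt_iff₀ hw0]; linarith
    have h6 : (n : ℝ) / (C0 * ℓ) ≤ n / w := by
      apply div_le_div_of_nonneg_left (Nat.cast_nonneg _) hw0 hwC
    have h7 : (ℓ ^ 3 / lq - 1) / (C0 * ℓ) ≤ n / (C0 * ℓ) := by
      apply div_le_div_of_nonneg_right hn1 (by positivity)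
    have h8 : (ℓ ^ 3 / lq - 1) / (C0 * ℓ) = ℓ ^ 2 / (lq * C0) - 1 / (C0 * ℓ) := by
      field_simp
    have h9 : 1 / (C0 * ℓ) ≤ 1 / C0 := by
      apply one_div_le_one_div_of_le hC0
      exact le_mul_of_one_le_right hC0.le hℓ1
    linarith
  -- powers of κ and 1 - c
  have hκpow : ∀ k : ℕ, κ ^ k ≤ Real.exp (-(γ * k)) := by
    intro k
    have h1 : κ ^ k ≤ κ' ^ k := pow_le_pow_left₀ hκ0 (le_max_left _ _) k
    have h2 : Real.exp (-(γ * k)) = κ' ^ k := by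
      rw [← hexpκ, ← Real.exp_nat_mul]; congr 1; ring
    rw [h2]; exact h1
  have hcpow : ((1 - c) ^ (n / w)) ^ 2 ≤ Real.exp (-(2 * β * (ℓ ^ 2 / (lq * C0) - 1 / C0 - 1))) := by
    have h2 : ((1 - c) ^ (n / w)) ^ 2 = Real.exp (-(2 * β * ((n / w : ℕ) : ℝ))) := by
      rw [← hexpc, ← Real.exp_nat_mul, ← Real.exp_nat_mul]; congr 1; push_cast; ring
    rw [h2]
    apply Real.exp_le_exp.mpr
    have : 2 * β * (ℓ ^ 2 / (lq * C0) - 1 / C0 - 1) ≤ 2 * β * ((n / w : ℕ) : ℝ) :=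
      mul_le_mul_of_nonneg_left hnw (by positivity)
    linarith
  -- the four terms
  have hlogX : Real.log ((q : ℝ) ^ J) = J * lq := by rw [Real.log_pow]
  set E : ℝ := Real.exp (-((4 * A3 + 10) * ℓ)) with hE
  have hE0 : 0 < E := Real.exp_pos _
  have s1 : 3 * (q : ℝ) ^ (4 * kp + 2) * (4 + 2 * Real.log ((q : ℝ) ^ J)) * κ ^ n ≤ E := by
    have h1 : (q : ℝ) ^ (4 * kp + 2) ≤ Real.exp (lq * (4 * C1 * ℓ + 6)) := by
      rw [hpow]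
      apply Real.exp_le_exp.mpr
      apply mul_le_mul_of_nonneg_left _ hlq0.le
      push_cast
      linarith
    have h2 : 4 + 2 * Real.log ((q : ℝ) ^ J) ≤ (4 + 2 * lq) * Real.exp ℓ := by
      rw [hlogX, hexpJ]
      have h9 : (4 + 2 * lq) * (J : ℝ) = 4 * J + 2 * (J * lq) := by ring
      linarith
    have h2' : 0 ≤ 4 + 2 * Real.log ((q : ℝ) ^ J) := by rw [hlogX]; positivity
    have h3 : κ ^ n ≤ Real.exp (-(γ * (ℓ ^ 3 / lq - 1))) := by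
      refine (hκpow n).trans (Real.exp_le_exp.mpr ?_)
      have := mul_le_mul_of_nonneg_left hn1 hγ0.le
      linarith
    have h4 : 3 * (q : ℝ) ^ (4 * kp + 2) * (4 + 2 * Real.log ((q : ℝ) ^ J)) * κ ^ n ≤
        3 * Real.exp (lq * (4 * C1 * ℓ + 6)) * ((4 + 2 * lq) * Real.exp ℓ) *
          Real.exp (-(γ * (ℓ ^ 3 / lq - 1))) := by
      have hκn : 0 ≤ κ ^ n := pow_nonneg hκ0 n
      gcongr
    refine h4.trans (s1_exp hlq0 hγ0 hC10 hA3 hℓ1 ?_)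
    linarith
  have hJJ : ((q : ℝ) * (J + 1)) ^ q ≤ Real.exp (q * Real.log (2 * q) + q * ℓ) := by
    have h1 : (q : ℝ) * (J + 1) ≤ 2 * q * J := by
      have h9 : (q : ℝ) ≤ q * J := le_mul_of_one_le_right hq0.le hJ1'
      linarith
    have h2 : ((q : ℝ) * (J + 1)) ^ q ≤ (2 * q * J) ^ q :=
      pow_le_pow_left₀ (by positivity) h1 q
    refine h2.trans (le_of_eq ?_)
    rw [← mul_add, Real.exp_nat_mul, Real.exp_add, Real.exp_log (by positivity), hexpJ]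
  have hq20 : q * Real.log (2 * q) ≤ 20 * ℓ := by linarith
  have s2 : ((q : ℝ) * (J + 1)) ^ q * κ ^ kp ≤ E := by
    have h1 : κ ^ kp ≤ Real.exp (-(M * ℓ)) := by
      refine (hκpow kp).trans (Real.exp_le_exp.mpr ?_)
      have h2 : M * ℓ ≤ γ * C1 * ℓ := by gcongr
      have h3 : γ * (C1 * ℓ) ≤ γ * kp := by gcongr
      linarith
    calc ((q : ℝ) * (J + 1)) ^ q * κ ^ kp ≤
        Real.exp (q * Real.log (2 * q) + q * ℓ) * Real.exp (-(M * ℓ)) := by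
          have := pow_nonneg hκ0 kp
          gcongr
      _ = Real.exp (q * Real.log (2 * q) + q * ℓ + -(M * ℓ)) := (Real.exp_add _ _).symm
      _ ≤ E := by
          rw [hE]
          apply Real.exp_le_exp.mpr
          rw [hM]
          linarith
  have s3 : ((q : ℝ) * (J + 1)) ^ q * (1 / (q : ℝ) ^ kp) ≤ E := by
    calc ((q : ℝ) * (J + 1)) ^ q * (1 / (q : ℝ) ^ kp) ≤
        Real.exp (q * Real.log (2 * q) + q * ℓ) * Real.exp (-(M * ℓ)) := by gcongr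
      _ = Real.exp (q * Real.log (2 * q) + q * ℓ + -(M * ℓ)) := (Real.exp_add _ _).symm
      _ ≤ E := by
          rw [hE]
          apply Real.exp_le_exp.mpr
          rw [hM]
          linarith
  have s4 : ((q : ℝ) * (J + 1)) ^ q * (2 * (q : ℝ) ^ (7 * kp + 1) * ((1 - c) ^ (n / w)) ^ 2) ≤ E := by
    have h1 : (q : ℝ) ^ (7 * kp + 1) ≤ Real.exp (lq * (7 * C1 * ℓ + 8)) := by
      rw [hpow]
      apply Real.exp_le_exp.mpr
      apply mul_le_mul_of_nonneg_left _ hlq0.le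
      push_cast
      linarith
    have h2 : ((q : ℝ) * (J + 1)) ^ q * (2 * (q : ℝ) ^ (7 * kp + 1) * ((1 - c) ^ (n / w)) ^ 2) ≤
        Real.exp (q * Real.log (2 * q) + q * ℓ) * (2 * Real.exp (lq * (7 * C1 * ℓ + 8)) *
          Real.exp (-(2 * β * (ℓ ^ 2 / (lq * C0) - 1 / C0 - 1)))) := by gcongr
    refine h2.trans (s4_exp hlq0 hβ0 hC0 hC10 hA3 hℓ1 (by positivity) a2 ?_)
    linarith
  have hsig : sig q J kp w U κ c ≤ 4 * E := by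
    unfold sig
    rw [← hn]
    have : ((q : ℝ) * (J + 1)) ^ q * (κ ^ kp + 1 / (q : ℝ) ^ kp +
      2 * (q : ℝ) ^ (7 * kp + 1) * ((1 - c) ^ (n / w)) ^ 2) =
      ((q : ℝ) * (J + 1)) ^ q * κ ^ kp + ((q : ℝ) * (J + 1)) ^ q * (1 / (q : ℝ) ^ kp) +
      ((q : ℝ) * (J + 1)) ^ q * (2 * (q : ℝ) ^ (7 * kp + 1) * ((1 - c) ^ (n / w)) ^ 2) := by ring
    rw [this]
    linarith
  have hqℓ : 0 ≤ (q : ℝ) * ℓ := by positivity
  have hAℓ : 0 ≤ A3 * ℓ := by positivity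
  have hME : Real.exp (-(M * ℓ)) ≤ E := by
    rw [hE]
    apply Real.exp_le_exp.mpr
    rw [hM]
    linarith
  have hin : 2 * sig q J kp w U κ c + 16 / (q : ℝ) ^ kp ≤ 24 * E := by
    have h1 : 16 / (q : ℝ) ^ kp = 16 * (1 / (q : ℝ) ^ kp) := by ring
    rw [h1]
    linarith
  set F : ℝ := Real.exp (-((2 * A3 + 5) * ℓ)) with hF
  have hF0 : 0 < F := Real.exp_pos _
  have hFE : F ^ 2 = E := by
    rw [hF, hE, ← Real.exp_nat_mul]; congr 1; push_cast; ring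
  have hsq1 : Real.sqrt (2 * sig q J kp w U κ c + 16 / (q : ℝ) ^ kp) ≤ 5 * F := by
    rw [Real.sqrt_le_left (by positivity)]
    rw [mul_pow, hFE]
    linarith
  have hMF : Real.exp (-(M * ℓ)) ≤ F := by
    rw [hF]
    apply Real.exp_le_exp.mpr
    rw [hM]
    linarith
  have hout : 4 / (q : ℝ) ^ kp + 8 * Real.sqrt (2 * sig q J kp w U κ c + 16 / (q : ℝ) ^ kp) ≤
      44 * F := by
    have h1 : 4 / (q : ℝ) ^ kp = 4 * (1 / (q : ℝ) ^ kp) := by ring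
    rw [h1]
    linarith
  rw [Real.sqrt_le_left (Real.exp_pos _).le]
  refine hout.trans ?_
  have h1 : Real.exp (-(A3 * ℓ)) ^ 2 = F * Real.exp (5 * ℓ) := by
    rw [hF, ← Real.exp_add, ← Real.exp_nat_mul]; congr 1; push_cast; ring
  rw [h1, mul_comm]
  apply mul_le_mul_of_nonneg_left _ hF0.le
  have h2 : Real.exp 5 ≤ Real.exp (5 * ℓ) := Real.exp_le_exp.mpr (by linarith)
  have h3 : (44 : ℝ) ≤ Real.exp 5 := by
    have h4 : Real.exp 5 = Real.exp 1 ^ 5 := by rw [← Real.exp_nat_mul]; norm_num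
    rw [h4]
    have h5 : (2.7 : ℝ) ≤ Real.exp 1 := by
      have := Real.exp_one_gt_d9
      linarith
    calc (44 : ℝ) ≤ 2.7 ^ 5 := by norm_num
      _ ≤ _ := by gcongr
  linarith

private theorem conds (D D' : ℝ) : ∃ J0 : ℕ, ∀ J : ℕ, J0 ≤ J →
    D ≤ Real.log J ∧ D' * Real.log J ^ 4 ≤ J := by
  have h1 : Filter.Tendsto (fun J : ℕ => Real.log J) Filter.atTop Filter.atTop :=
    Real.tendsto_log_atTop.comp tendsto_natCast_atTop_atTop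
  have h2 : ∀ᶠ J : ℕ in Filter.atTop, D ≤ Real.log J := h1.eventually_ge_atTop D
  have h3 : (fun x : ℝ => Real.log x ^ 4) =o[Filter.atTop] (id : ℝ → ℝ) :=
    Real.isLittleO_pow_log_id_atTop
  have h4 : ∀ᶠ J : ℕ in Filter.atTop, D' * Real.log J ^ 4 ≤ J := by
    have h5 : (0 : ℝ) < 1 / (|D'| + 1) := by positivity
    have h7 := (tendsto_natCast_atTop_atTop (R := ℝ)).eventually (h3.bound h5)
    filter_upwards [h7] with J hJ
    have h8 : 0 ≤ Real.log (J : ℝ) ^ 4 := by positivity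
    have h9 : (0 : ℝ) < |D'| + 1 := by positivity
    simp only [id, Real.norm_eq_abs, abs_of_nonneg h8, Nat.abs_cast] at hJ
    rw [div_mul_eq_mul_div, one_mul, le_div_iff₀ h9] at hJ
    have h10 : D' * Real.log (J : ℝ) ^ 4 ≤ |D'| * Real.log (J : ℝ) ^ 4 :=
      mul_le_mul_of_nonneg_right (le_abs_self D') h8
    nlinarith
  obtain ⟨J0, hJ0⟩ := Filter.eventually_atTop.mp (h2.and h4)
  exact ⟨J0, hJ0⟩

/-- the bound of `supB_explicit` is very small -/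
private theorem b1_small (q : ℕ) (hq : 2 ≤ q) (c : ℝ) (hc0 : 0 < c) (hc1 : c < 1) (M C0 : ℝ)
    (hM : 0 ≤ M) (hC0 : 0 < C0) : ∃ C2 D D' : ℝ, 0 < C2 ∧ 1 ≤ D ∧ 0 < D' ∧
    ∀ (J w : ℕ), D ≤ Real.log J → D' * Real.log J ^ 4 ≤ J → 1 ≤ w → (w : ℝ) ≤ C0 * Real.log J →
      (q : ℝ) ^ (J / 2 + 2) + (q : ℝ) ^ (J + 2) * (1 - c) ^ ((J / 2) / w) ≤
        (q : ℝ) ^ J * (C2 * Real.exp (-(M * Real.log J ^ 3))) := by
  have hq' : (2 : ℝ) ≤ q := by exact_mod_cast hq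
  have hq0 : (0 : ℝ) < q := by linarith
  set lq := Real.log q with hlq
  have hlq0 : 0 < lq := Real.log_pos (by linarith)
  have hexpq : Real.exp lq = q := Real.exp_log hq0
  set β := -Real.log (1 - c) with hβ
  have h1c : 0 < 1 - c := by linarith
  have hβ0 : 0 < β := by
    rw [hβ]
    have := Real.log_neg h1c (by linarith)
    linarith
  have hexpc : Real.exp (-β) = 1 - c := by rw [hβ, neg_neg, Real.exp_log h1c]
  refine ⟨q ^ 2 * (1 + Real.exp (2 * β)), max 1 (1 / (2 * C0)), 2 * M / lq + 2 * C0 * M / β + 1,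
    by positivity, le_max_left _ _, by positivity, ?_⟩
  intro J w hD hD' hw hwC
  set ℓ := Real.log (J : ℝ) with hℓ
  have hℓ1 : 1 ≤ ℓ := (le_max_left _ _).trans hD
  have hℓ0 : 0 < ℓ := by linarith
  have hℓ2 : 1 / (2 * C0) ≤ ℓ := (le_max_right _ _).trans hD
  have hw0 : (0 : ℝ) < w := by exact_mod_cast (by omega : 0 < w)
  have hℓ34 : ℓ ^ 3 ≤ ℓ ^ 4 := pow_le_pow_right₀ hℓ1 (by norm_num)
  have h4 : 0 < ℓ ^ 4 := by positivity
  have h3 : 0 < ℓ ^ 3 := by positivity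
  have hJa : 2 * M / lq * ℓ ^ 4 ≤ J := by
    refine le_trans ?_ hD'
    apply mul_le_mul_of_nonneg_right _ h4.le
    have : 0 ≤ 2 * C0 * M / β := by positivity
    linarith
  have hJb : 2 * C0 * M / β * ℓ ^ 4 ≤ J := by
    refine le_trans ?_ hD'
    apply mul_le_mul_of_nonneg_right _ h4.le
    have : 0 ≤ 2 * M / lq := by positivity
    linarith
  -- first term
  have t1 : (q : ℝ) ^ (J / 2 + 2) ≤ (q : ℝ) ^ J * ((q : ℝ) ^ 2 * Real.exp (-(M * ℓ ^ 3))) := by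
    have e1 : (q : ℝ) ^ (J / 2) ≤ Real.exp (lq * (J / 2)) := by
      rw [← hexpq, ← Real.exp_nat_mul]
      apply Real.exp_le_exp.mpr
      have : ((J / 2 : ℕ) : ℝ) ≤ (J : ℝ) / 2 := Nat.cast_div_le
      nlinarith
    have e2 : (q : ℝ) ^ J = Real.exp (lq * J) := by
      rw [← hexpq, ← Real.exp_nat_mul, mul_comm]
    have e3 : Real.exp (lq * (J / 2)) ≤ (q : ℝ) ^ J * Real.exp (-(M * ℓ ^ 3)) := by
      rw [e2, ← Real.exp_add]
      apply Real.exp_le_exp.mpr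
      have e4 : M * ℓ ^ 3 ≤ lq * (J / 2) := by
        have e5 : lq / 2 * (2 * M / lq * ℓ ^ 4) ≤ lq / 2 * J := mul_le_mul_of_nonneg_left hJa (by positivity)
        have e6 : lq / 2 * (2 * M / lq * ℓ ^ 4) = M * ℓ ^ 4 := by field_simp
        have e7 : M * ℓ ^ 3 ≤ M * ℓ ^ 4 := mul_le_mul_of_nonneg_left hℓ34 hM
        linarith
      linarith
    have hq2 : 0 < (q : ℝ) ^ 2 := by positivity
    calc (q : ℝ) ^ (J / 2 + 2) = (q : ℝ) ^ 2 * (q : ℝ) ^ (J / 2) := by ring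
      _ ≤ (q : ℝ) ^ 2 * ((q : ℝ) ^ J * Real.exp (-(M * ℓ ^ 3))) :=
        mul_le_mul_of_nonneg_left (e1.trans e3) hq2.le
      _ = _ := by ring
  have t2 : (1 - c) ^ ((J / 2) / w) ≤ Real.exp (2 * β) * Real.exp (-(M * ℓ ^ 3)) := by
    rw [← hexpc, ← Real.exp_nat_mul, ← Real.exp_add]
    apply Real.exp_le_exp.mpr
    -- lower bound of the exponent
    have e1 : (((J / 2 : ℕ) : ℝ) / w) - 1 ≤ ((J / 2 / w : ℕ) : ℝ) := by
      have := Nat.lt_floor_add_one (((J / 2 : ℕ) : ℝ) / w)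
      rw [Nat.floor_div_eq_div] at this
      linarith
    have e2 : ((J : ℝ) - 1) / 2 ≤ ((J / 2 : ℕ) : ℝ) := by
      have : J ≤ 2 * (J / 2) + 1 := by omega
      have h : (J : ℝ) ≤ 2 * ((J / 2 : ℕ) : ℝ) + 1 := by exact_mod_cast this
      linarith
    have e3 : ((J : ℝ) - 1) / 2 / (C0 * ℓ) ≤ ((J / 2 : ℕ) : ℝ) / w := by
      have hJ0 : (0 : ℝ) ≤ ((J / 2 : ℕ) : ℝ) := Nat.cast_nonneg _
      have hCl : 0 < C0 * ℓ := by positivity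
      calc ((J : ℝ) - 1) / 2 / (C0 * ℓ) ≤ ((J / 2 : ℕ) : ℝ) / (C0 * ℓ) :=
            div_le_div_of_nonneg_right e2 hCl.le
        _ ≤ _ := div_le_div_of_nonneg_left hJ0 hw0 hwC
    have e4 : 1 / 2 / (C0 * ℓ) ≤ 1 := by
      rw [div_le_one (by positivity)]
      rw [div_le_iff₀ (by positivity)] at hℓ2
      nlinarith
    have e5 : (J : ℝ) / 2 / (C0 * ℓ) - 2 ≤ ((J / 2 / w : ℕ) : ℝ) := by
      have : ((J : ℝ) - 1) / 2 / (C0 * ℓ) = (J : ℝ) / 2 / (C0 * ℓ) - 1 / 2 / (C0 * ℓ) := by ring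
      linarith
    have e6 : M * ℓ ^ 3 ≤ β * ((J : ℝ) / 2 / (C0 * ℓ)) := by
      have e7 : β * ((2 * C0 * M / β * ℓ ^ 4) / 2 / (C0 * ℓ)) ≤ β * ((J : ℝ) / 2 / (C0 * ℓ)) := by
        gcongr
      have e8 : β * ((2 * C0 * M / β * ℓ ^ 4) / 2 / (C0 * ℓ)) = M * ℓ ^ 3 := by
        field_simp
      linarith
    have e9 : β * ((J : ℝ) / 2 / (C0 * ℓ) - 2) ≤ β * ((J / 2 / w : ℕ) : ℝ) :=
      mul_le_mul_of_nonneg_left e5 hβ0.le
    have e10 : ((J / 2 / w : ℕ) : ℝ) * -β = -(β * ((J / 2 / w : ℕ) : ℝ)) := by ring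
    rw [e10]
    linarith
  calc (q : ℝ) ^ (J / 2 + 2) + (q : ℝ) ^ (J + 2) * (1 - c) ^ ((J / 2) / w)
      ≤ (q : ℝ) ^ J * ((q : ℝ) ^ 2 * Real.exp (-(M * ℓ ^ 3))) +
        (q : ℝ) ^ (J + 2) * (Real.exp (2 * β) * Real.exp (-(M * ℓ ^ 3))) :=
        add_le_add t1 (mul_le_mul_of_nonneg_left t2 (by positivity))
    _ = _ := by ring

private theorem num_a {lq a ℓ X Ea Q U : ℝ} (hlq : 0 < lq) (ha : 0 ≤ a) (hℓ : 1 ≤ ℓ)
    (hX : Real.exp ((a + 5) * ℓ ^ 3) ≤ X) (hEa : Ea = Real.exp (-(a * ℓ))) (hQ : Q ≤ Real.exp ℓ)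
    (hQ1 : 8 * lq ≤ Q) (hU : U ≤ 2 * Real.exp (ℓ ^ 3)) :
    U * (lq * Real.exp ℓ) ≤ X * Ea / 4 := by
  have hℓ3 : ℓ ≤ ℓ ^ 3 := le_self_pow₀ hℓ (by norm_num)
  have e1 : U * (lq * Real.exp ℓ) ≤ 2 * Real.exp (ℓ ^ 3) * (lq * Real.exp ℓ) :=
    mul_le_mul_of_nonneg_right hU (by positivity)
  have e2 : Real.exp (5 * ℓ ^ 3) ≤ X * Ea := by
    rw [hEa]
    refine le_trans ?_ (mul_le_mul_of_nonneg_right hX (Real.exp_pos _).le)
    rw [← Real.exp_add]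
    apply Real.exp_le_exp.mpr
    have : a * ℓ ≤ a * ℓ ^ 3 := mul_le_mul_of_nonneg_left hℓ3 ha
    linarith
  have e3 : 2 * Real.exp (ℓ ^ 3) * (lq * Real.exp ℓ) ≤ Real.exp (5 * ℓ ^ 3) / 4 := by
    have e4 : 8 * lq ≤ Real.exp ℓ := hQ1.trans hQ
    have e5 : 2 * Real.exp (ℓ ^ 3) * (lq * Real.exp ℓ) =
        (8 * lq) * (Real.exp (ℓ ^ 3) * Real.exp ℓ) / 4 := by ring
    rw [e5]
    apply div_le_div_of_nonneg_right _ (by norm_num)
    refine (mul_le_mul_of_nonneg_right e4 (by positivity)).trans ?_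
    rw [← Real.exp_add, ← Real.exp_add]
    apply Real.exp_le_exp.mpr
    linarith
  linarith

private theorem num_b {lq a ℓ X Ea Q U C2 B1 : ℝ} (hlq : 0 < lq) (ha : 0 ≤ a) (hℓ : 1 ≤ ℓ)
    (hX : 0 < X) (hEa : Ea = Real.exp (-(a * ℓ))) (hQ : Q ≤ Real.exp ℓ) (hC2 : 0 < C2)
    (hB0 : 0 ≤ B1) (hB : B1 ≤ X * (C2 * Real.exp (-((a + 5) * ℓ ^ 3))))
    (hQ1 : 64 * lq * C2 ≤ Q) (hU0 : 0 ≤ U) (hU : U ≤ 2 * Real.exp (ℓ ^ 3)) :
    4 * (lq * Real.exp ℓ) * (U * U * B1) ≤ X * Ea / 4 := by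
  have hℓ3 : ℓ ≤ ℓ ^ 3 := le_self_pow₀ hℓ (by norm_num)
  have e1 : U * U ≤ (2 * Real.exp (ℓ ^ 3)) * (2 * Real.exp (ℓ ^ 3)) :=
    mul_le_mul hU hU hU0 (by positivity)
  have e2 : 4 * (lq * Real.exp ℓ) * (U * U * B1) ≤
      4 * (lq * Real.exp ℓ) * ((2 * Real.exp (ℓ ^ 3)) * (2 * Real.exp (ℓ ^ 3)) *
        (X * (C2 * Real.exp (-((a + 5) * ℓ ^ 3))))) := by
    apply mul_le_mul_of_nonneg_left _ (by positivity)
    exact mul_le_mul e1 hB hB0 (by positivity)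
  refine e2.trans ?_
  have e3 : 4 * (lq * Real.exp ℓ) * ((2 * Real.exp (ℓ ^ 3)) * (2 * Real.exp (ℓ ^ 3)) *
        (X * (C2 * Real.exp (-((a + 5) * ℓ ^ 3))))) =
      (64 * lq * C2) * X * (Real.exp ℓ * Real.exp (ℓ ^ 3) * Real.exp (ℓ ^ 3) *
        Real.exp (-((a + 5) * ℓ ^ 3))) / 4 := by ring
  rw [e3]
  apply div_le_div_of_nonneg_right _ (by norm_num)
  have e4 : 64 * lq * C2 ≤ Real.exp ℓ := hQ1.trans hQ
  have e5 : (64 * lq * C2) * X * (Real.exp ℓ * Real.exp (ℓ ^ 3) * Real.exp (ℓ ^ 3) *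
        Real.exp (-((a + 5) * ℓ ^ 3))) ≤ Real.exp ℓ * X * (Real.exp ℓ * Real.exp (ℓ ^ 3) *
        Real.exp (ℓ ^ 3) * Real.exp (-((a + 5) * ℓ ^ 3))) :=
    mul_le_mul_of_nonneg_right (mul_le_mul_of_nonneg_right e4 hX.le) (by positivity)
  refine e5.trans ?_
  have e6 : Real.exp ℓ * X * (Real.exp ℓ * Real.exp (ℓ ^ 3) *
        Real.exp (ℓ ^ 3) * Real.exp (-((a + 5) * ℓ ^ 3))) =
      X * Real.exp (ℓ + ℓ + ℓ ^ 3 + ℓ ^ 3 + -((a + 5) * ℓ ^ 3)) := by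
    rw [Real.exp_add, Real.exp_add, Real.exp_add, Real.exp_add]; ring
  rw [e6, hEa]
  apply mul_le_mul_of_nonneg_left _ hX.le
  apply Real.exp_le_exp.mpr
  have : a * ℓ ≤ a * ℓ ^ 3 := mul_le_mul_of_nonneg_left hℓ3 ha
  linarith

private theorem num_c {lq a ℓ X Ea Q L : ℝ} (hlq : 0 < lq) (hℓ : 1 ≤ ℓ)
    (hX : 0 < X) (hEa : Ea = Real.exp (-(a * ℓ))) (hQ : Q ≤ Real.exp ℓ)
    (hQ1 : 16 * (2 * lq + 1) * (1 + lq) ^ 8 ≤ Q) (hL0 : 0 ≤ L)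
    (hL : L + 1 ≤ (2 * lq + 1) * Real.exp ℓ) :
    2 * (L + 1) * (2 * X * (1 + lq * Real.exp ℓ) ^ 8 * Real.exp (-((a + 20) * ℓ))) ≤
      X * Ea / 4 := by
  have hexp1 : 1 ≤ Real.exp ℓ := Real.one_le_exp (by linarith)
  have e1 : (1 + lq * Real.exp ℓ) ^ 8 ≤ ((1 + lq) * Real.exp ℓ) ^ 8 := by
    apply pow_le_pow_left₀ (by positivity)
    linarith
  have e2 : 2 * (L + 1) * (2 * X * (1 + lq * Real.exp ℓ) ^ 8 * Real.exp (-((a + 20) * ℓ))) ≤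
      2 * ((2 * lq + 1) * Real.exp ℓ) * (2 * X * ((1 + lq) * Real.exp ℓ) ^ 8 *
        Real.exp (-((a + 20) * ℓ))) := by
    gcongr
  refine e2.trans ?_
  have e3 : 2 * ((2 * lq + 1) * Real.exp ℓ) * (2 * X * ((1 + lq) * Real.exp ℓ) ^ 8 *
        Real.exp (-((a + 20) * ℓ))) = (16 * (2 * lq + 1) * (1 + lq) ^ 8) *
        (X * (Real.exp ℓ ^ 9 * Real.exp (-((a + 20) * ℓ)))) / 4 := by ring
  rw [e3]
  apply div_le_div_of_nonneg_right _ (by norm_num)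
  refine (mul_le_mul_of_nonneg_right (hQ1.trans hQ) (by positivity)).trans ?_
  have e4 : Real.exp ℓ * (X * (Real.exp ℓ ^ 9 * Real.exp (-((a + 20) * ℓ)))) =
      X * (Real.exp ℓ ^ 10 * Real.exp (-((a + 20) * ℓ))) := by ring
  rw [e4, hEa, ← Real.exp_nat_mul, ← Real.exp_add]
  apply mul_le_mul_of_nonneg_left _ hX.le
  apply Real.exp_le_exp.mpr
  push_cast
  linarith

private theorem num_d {a ℓ X Ea Q C2 B1 : ℝ} (ha : 0 ≤ a) (hℓ : 1 ≤ ℓ)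
    (hX : 0 < X) (hEa : Ea = Real.exp (-(a * ℓ))) (hQ : Q ≤ Real.exp ℓ)
    (hB : B1 ≤ X * (C2 * Real.exp (-((a + 5) * ℓ ^ 3)))) (hQ1 : C2 ≤ Q) :
    B1 ≤ X * Ea := by
  have hℓ3 : ℓ ≤ ℓ ^ 3 := le_self_pow₀ hℓ (by norm_num)
  refine hB.trans ?_
  apply mul_le_mul_of_nonneg_left _ hX.le
  refine (mul_le_mul_of_nonneg_right (hQ1.trans hQ) (Real.exp_pos _).le).trans ?_
  rw [hEa, ← Real.exp_add]
  apply Real.exp_le_exp.mpr
  have : a * ℓ ≤ a * ℓ ^ 3 := mul_le_mul_of_nonneg_left hℓ3 ha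
  linarith

theorem absB (q : ℕ) (hq : 2 ≤ q) (κ c : ℝ) (hκ0 : 0 ≤ κ) (hκ1 : κ < 1) (hc0 : 0 < c) (hc1 : c < 1)
    (A C0 : ℝ) (hC0 : 0 < C0) : ∃ J0 : ℕ, ∀ J : ℕ, J0 ≤ J → ∀ φ : ℕ → ℕ → ℂ, Uni φ → Str q φ κ →
      (∃ w : ℕ, 1 ≤ w ∧ (w : ℝ) ≤ C0 * Real.log J ∧ ∀ (α : ℝ) (lam δ c' : ℕ), lam ≤ J → δ ≤ lam →
        PP q (tw q α φ) lam δ c' ≤ (1 - c) ^ (δ / w)) →
      (∀ x : ℕ, x ≤ q ^ J → ‖∑ n ∈ range x, Lam n * fd q φ J n‖ ≤ (q : ℝ) ^ J * (J : ℝ) ^ (-A)) ∧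
        SupB (fd q φ J) (q ^ J) ((q : ℝ) ^ J * (J : ℝ) ^ (-A)) := by
  have hq' : (2 : ℝ) ≤ q := by exact_mod_cast hq
  have hq0 : (0 : ℝ) < q := by linarith
  obtain ⟨a, haA, ha0⟩ : ∃ a : ℝ, A ≤ a ∧ 0 ≤ a := ⟨max A 0, le_max_left _ _, le_max_right _ _⟩
  obtain ⟨C1, D1, hC1, hD1, hsig⟩ := sig_small q hq κ c hκ0 hκ1 hc0 hc1 (a + 20) C0
    (by linarith) hC0
  obtain ⟨C2, D2, D2', hC2, hD2, hD2', hb⟩ := b1_small q hq c hc0 hc1 (a + 5) C0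
    (by linarith) hC0
  obtain ⟨lq, hlq⟩ : ∃ lq : ℝ, lq = Real.log q := ⟨_, rfl⟩
  have hlq0 : 0 < lq := by rw [hlq]; exact Real.log_pos (by linarith)
  have hexpq : Real.exp lq = q := by rw [hlq]; exact Real.exp_log hq0
  obtain ⟨Q, hQdef⟩ : ∃ Q : ℝ, Q = 8 * lq + 64 * lq * C2 + 16 * (2 * lq + 1) * (1 + lq) ^ 8 + C2 :=
    ⟨_, rfl⟩
  have hp1 : 0 ≤ 8 * lq := by positivity
  have hp2 : 0 ≤ 64 * lq * C2 := by positivity
  have hp3 : 0 ≤ 16 * (2 * lq + 1) * (1 + lq) ^ 8 := by positivity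
  have hQ1 : 8 * lq ≤ Q := by linarith
  have hQ2 : 64 * lq * C2 ≤ Q := by linarith
  have hQ3 : 16 * (2 * lq + 1) * (1 + lq) ^ 8 ≤ Q := by linarith
  have hQ4 : C2 ≤ Q := by linarith
  obtain ⟨J0, hJ0⟩ := conds (D1 + D2 + Q) (D2' + (4 * C1 + 6) + (a + 5) / lq)
  refine ⟨J0, fun J hJ φ hφ hS hwex => ?_⟩
  obtain ⟨w, hw1, hwC, hsup⟩ := hwex
  obtain ⟨hD, hD'⟩ := hJ0 J hJ
  have hQ0 : 0 ≤ Q := by linarith
  obtain ⟨ℓ, hℓ⟩ : ∃ ℓ : ℝ, ℓ = Real.log (J : ℝ) := ⟨_, rfl⟩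
  rw [← hℓ] at hD hD' hwC
  have hℓ1 : 1 ≤ ℓ := by linarith
  have hℓ0 : 0 < ℓ := by linarith
  have hJpos : (0 : ℝ) < J := by
    rcases Nat.eq_zero_or_pos J with h | h
    · subst h
      simp at hℓ
      linarith
    · exact_mod_cast h
  have hexpJ : Real.exp ℓ = J := by rw [hℓ]; exact Real.exp_log hJpos
  have hQe : Q ≤ Real.exp ℓ := by
    have := Real.add_one_le_exp ℓ
    linarith
  have hℓ4 : 1 ≤ ℓ ^ 4 := one_le_pow₀ hℓ1
  have hℓ4' : ℓ ≤ ℓ ^ 4 := le_self_pow₀ hℓ1 (by norm_num)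
  have hℓ34 : ℓ ^ 3 ≤ ℓ ^ 4 := pow_le_pow_right₀ hℓ1 (by norm_num)
  have hd1 : 0 ≤ D2' * ℓ ^ 4 := by positivity
  have hd2 : 0 ≤ (4 * C1 + 6) * ℓ ^ 4 := by positivity
  have hd3 : 0 ≤ (a + 5) / lq * ℓ ^ 4 := by positivity
  have hD'' : D2' * ℓ ^ 4 + (4 * C1 + 6) * ℓ ^ 4 + (a + 5) / lq * ℓ ^ 4 ≤ J := by
    rw [← add_mul, ← add_mul]; exact hD'
  have hJ1 : D2' * ℓ ^ 4 ≤ J := by linarith
  have hJ2 : (4 * C1 + 6) * ℓ ^ 4 ≤ J := by linarith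
  have hJ3 : (a + 5) / lq * ℓ ^ 4 ≤ J := by linarith
  have hJ4 : 4 * C1 * ℓ + 6 ≤ J := by
    refine le_trans ?_ hJ2
    have : 4 * C1 * ℓ ≤ 4 * C1 * ℓ ^ 4 := mul_le_mul_of_nonneg_left hℓ4' (by positivity)
    linarith
  have hX0 : (0 : ℝ) < (q : ℝ) ^ J := by positivity
  have hXexp : (q : ℝ) ^ J = Real.exp (lq * J) := by
    rw [← hexpq, ← Real.exp_nat_mul, mul_comm]
  have hXbig : Real.exp ((a + 5) * ℓ ^ 3) ≤ (q : ℝ) ^ J := by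
    rw [hXexp]
    apply Real.exp_le_exp.mpr
    have e1 : lq * ((a + 5) / lq * ℓ ^ 4) ≤ lq * J := mul_le_mul_of_nonneg_left hJ3 hlq0.le
    have e2 : lq * ((a + 5) / lq * ℓ ^ 4) = (a + 5) * ℓ ^ 4 := by field_simp
    have e3 : (a + 5) * ℓ ^ 3 ≤ (a + 5) * ℓ ^ 4 := mul_le_mul_of_nonneg_left hℓ34 (by linarith)
    linarith
  have hlogX : Real.log ((q : ℝ) ^ J) = lq * Real.exp ℓ := by
    rw [Real.log_pow, hexpJ, hlq, mul_comm]
  obtain ⟨Ea, hEa⟩ : ∃ Ea : ℝ, Ea = Real.exp (-(a * ℓ)) := ⟨_, rfl⟩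
  have hEA : (q : ℝ) ^ J * Ea ≤ (q : ℝ) ^ J * (J : ℝ) ^ (-A) := by
    apply mul_le_mul_of_nonneg_left _ hX0.le
    rw [Real.rpow_def_of_pos hJpos, ← hℓ, hEa]
    apply Real.exp_le_exp.mpr
    have : A * ℓ ≤ a * ℓ := mul_le_mul_of_nonneg_right haA hℓ0.le
    linarith
  -- the number `B1`
  obtain ⟨B1, hB1⟩ : ∃ B1 : ℝ, B1 = (q : ℝ) ^ (J / 2 + 2) + (q : ℝ) ^ (J + 2) *
    (1 - c) ^ ((J / 2) / w) := ⟨_, rfl⟩
  have hB1b : B1 ≤ (q : ℝ) ^ J * (C2 * Real.exp (-((a + 5) * ℓ ^ 3))) := by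
    rw [hB1, hℓ]
    exact hb J w (by rw [← hℓ]; linarith) (by rw [← hℓ]; exact hJ1) hw1 (by rw [← hℓ]; exact hwC)
  have hc2 : 0 ≤ 1 - c := by linarith
  have hB11 : 1 ≤ B1 := by
    have e1 : 1 ≤ (q : ℝ) ^ (J / 2 + 2) := one_le_pow₀ (by linarith)
    have e2 : 0 ≤ (q : ℝ) ^ (J + 2) * (1 - c) ^ ((J / 2) / w) := by positivity
    linarith
  have hsupB : SupB (fd q φ J) (q ^ J) B1 := by
    rw [hB1]
    exact supB_explicit hq φ hφ c hc0.le hc1.le J w hsup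
  refine ⟨?_, ?_⟩
  swap
  · intro α x hx
    refine (hsupB α x hx).trans (le_trans ?_ hEA)
    exact num_d ha0 hℓ1 hX0 hEa hQe hB1b hQ4
  -- the first conclusion
  intro x hx
  obtain ⟨U, hU⟩ : ∃ U : ℕ, U = ⌈Real.exp (Real.log (J : ℝ) ^ 3)⌉₊ := ⟨_, rfl⟩
  obtain ⟨kp, hkp⟩ : ∃ kp : ℕ, kp = ⌈C1 * Real.log (J : ℝ)⌉₊ := ⟨_, rfl⟩
  have hexp3 : 1 ≤ ℓ ^ 3 := one_le_pow₀ hℓ1
  have he2 : 1 < Real.exp (ℓ ^ 3) := Real.one_lt_exp_iff.mpr (by linarith)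
  have hU2 : 2 ≤ U := by
    rw [hU, ← hℓ]
    have : 1 < ⌈Real.exp (ℓ ^ 3)⌉₊ := by
      rw [Nat.lt_ceil]; exact_mod_cast he2
    omega
  have hUle : (U : ℝ) ≤ 2 * Real.exp (ℓ ^ 3) := by
    rw [hU, ← hℓ]
    have := (Nat.ceil_lt_add_one (Real.exp_pos (ℓ ^ 3)).le).le
    linarith
  have hkp1 : 1 ≤ kp := by
    rw [hkp, ← hℓ]
    exact Nat.one_le_ceil_iff.mpr (by positivity)
  have hkpJ : 4 * kp + 2 ≤ J := by
    have e1 : (kp : ℝ) ≤ C1 * ℓ + 1 := by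
      rw [hkp, ← hℓ]
      exact (Nat.ceil_lt_add_one (by positivity)).le
    have e2 : ((4 * kp + 2 : ℕ) : ℝ) ≤ J := by push_cast; linarith
    exact_mod_cast e2
  have hsg := hsig J w U kp (by rw [← hℓ]; linarith) hw1 (by rw [← hℓ]; exact hwC) hU hkp
  rw [← hℓ] at hsg
  have hsup0 : ∀ lam δ c' : ℕ, lam ≤ J → δ ≤ lam → PP q φ lam δ c' ≤ (1 - c) ^ (δ / w) := by
    intro lam δ c' h1 h2
    have := hsup 0 lam δ c' h1 h2
    rwa [tw_zero] at this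
  have hT := tii_explicit φ hq hφ κ c hκ0 hκ1.le hS hc0.le hc1.le J kp w U hw1 hkp1 hkpJ hU2 hsup0
  have hlogX0 : 0 ≤ lq * Real.exp ℓ := by positivity
  obtain ⟨B2, hB2⟩ : ∃ B2 : ℝ, B2 = 2 * (q : ℝ) ^ J * (1 + lq * Real.exp ℓ) ^ 8 *
    Real.exp (-((a + 20) * ℓ)) := ⟨_, rfl⟩
  have hT2 : TIIB (fd q φ J) (q ^ J) U B2 := by
    intro a' b' h1 h2 y hy K hK1 hK2
    refine (hT a' b' h1 h2 y hy K hK1 hK2).trans ?_
    rw [hlogX, hB2]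
    exact mul_le_mul_of_nonneg_left hsg (by positivity)
  have hB20 : 0 ≤ B2 := by rw [hB2]; positivity
  have hJN : 2 ≤ J := by omega
  have hX3 : 3 ≤ q ^ J := by
    calc 3 ≤ 2 ^ 2 := by norm_num
      _ ≤ 2 ^ J := Nat.pow_le_pow_right (by norm_num) hJN
      _ ≤ q ^ J := Nat.pow_le_pow_left hq J
  have hV := vaughan_bound (fd q φ J) (q ^ J) U (U * U * B1) B2
    (fun n => (norm_fd φ hφ J n).le) (fun _ => B1) (fun _ => hB11)
    (fun m hm1 _ y hy => typeI_mult (fd q φ J) (q ^ J) B1 hsupB m y hm1 hy)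
    (by
      rw [Finset.sum_const, Nat.card_Icc, nsmul_eq_mul]
      push_cast [Nat.add_sub_cancel]
      exact le_rfl)
    hB20 hT2 (by omega) hX3 x hx
  refine hV.trans (le_trans ?_ hEA)
  have hcast : ((q ^ J : ℕ) : ℝ) = (q : ℝ) ^ J := by push_cast; ring
  rw [hcast, hlogX]
  have hlog2 : ((Nat.log 2 (q ^ J) : ℕ) : ℝ) + 1 ≤ (2 * lq + 1) * Real.exp ℓ := by
    have e1 : ((Nat.log 2 (q ^ J) : ℕ) : ℝ) * Real.log 2 ≤ Real.log ((q : ℝ) ^ J) := by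
      rw [← Real.log_pow]
      apply Real.log_le_log (by positivity)
      have := Nat.pow_log_le_self 2 (x := q ^ J) (by positivity)
      exact_mod_cast this
    have e2 : (1 : ℝ) / 2 ≤ Real.log 2 := by
      have := Real.log_two_gt_d9
      linarith
    have e3 : (0 : ℝ) ≤ ((Nat.log 2 (q ^ J) : ℕ) : ℝ) := Nat.cast_nonneg _
    rw [hlogX] at e1
    have e4 : ((Nat.log 2 (q ^ J) : ℕ) : ℝ) * (1 / 2) ≤ lq * Real.exp ℓ :=
      (mul_le_mul_of_nonneg_left e2 e3).trans e1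
    have e5 : 1 ≤ Real.exp ℓ := Real.one_le_exp hℓ0.le
    linarith
  have n1 := num_a (U := (U : ℝ)) hlq0 ha0 hℓ1 hXbig hEa hQe hQ1 hUle
  have n2 := num_b (U := (U : ℝ)) hlq0 ha0 hℓ1 hX0 hEa hQe hC2 (by linarith) hB1b hQ2
    (Nat.cast_nonneg _) hUle
  have n3 := num_c (L := ((Nat.log 2 (q ^ J) : ℕ) : ℝ)) hlq0 hℓ1 hX0 hEa hQe hQ3
    (Nat.cast_nonneg _) hlog2
  rw [← hB2] at n3
  have hpos : 0 ≤ (q : ℝ) ^ J * Ea := by rw [hEa]; positivity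
  linarith

end Pool.Agent.H10.RP
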