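import Pool.Agent.H10.RP.Base

/-!
# Reversed primes: decay of the Fourier transform (job RP-10)

PROOF of `decay`. `PP` with `tw_phi`: the factor of level `j` is `ψ(x_i)` with `i = lam - 1 - j`,
`ψ(x) = |∑_{a < b} ee (a x)| / b`, `x_i = θ i + α b ^ i - c / b ^ (lam - i)`, and
`b x_i - x_{i+1} = b θ_i - θ_{i+1}` exactly. `ψ ≤ 1` and `ψ(x) ≤ 1 - (8 / b) ‖x‖²`:
`|∑ ee (a x)| ≤ |1 + ee x| + (b - 2)`, `|1 + ee x| = 2 |cos πx| ≤ 2 (1 - 4 ‖x‖²)`. Cut the digit positions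
`[lam - δ, lam)` into `δ / w` disjoint windows of length `w`. In each window some `i` has
`1/(2b) ≤ ‖b x_i - x_{i+1}‖ ≤ b ‖x_i‖ + ‖x_{i+1}‖`, so `‖x_i‖` or `‖x_{i+1}‖` is at least
`1 / (2 b (b + 1))`, and this factor is at most `1 - 2 / (b ^ 3 (b + 1) ^ 2)`.

PROOF of `window`. `v i = (a / q)(b² - 1) b ^ (L - 2 - i)`, `i ≤ L - 2`, is never an integer (hypothesis), so
`‖v i‖ ≥ 1 / q`; `v (i - 1) = b v i`. If `‖v i‖ < 1 / (2 b)` then `‖v (i - 1)‖ = b ‖v i‖`. Start at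
`i = s + w - 2` and go down: after at most `log_b q` steps the value is `≥ 1 / (2 b)` (use
`q ≤ b ^ (w - 2)`). Here `b θ_i - θ_{i+1} = v i` for `θ_i = (a / q) b ^ (L - 1 - i)`, `i ≤ L - 2`.
-/

set_option autoImplicit false

open Finset

namespace Pool.Agent.H10.RP

private lemma dc_ee_add (x y : ℝ) : ee (x + y) = ee x * ee y := by
  rw [ee, ee, ee, ← Complex.exp_add]
  congr 1
  push_cast
  ring

private lemma dc_ee_zero : ee 0 = 1 := by simp [ee]

private lemma dc_ee_form (x : ℝ) : ee x = Complex.exp ((2 * Real.pi * x : ℝ) * Complex.I) := by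
  rw [ee]; push_cast; rfl

private lemma dc_norm_ee (x : ℝ) : ‖ee x‖ = 1 := by
  rw [dc_ee_form]
  exact Complex.norm_exp_ofReal_mul_I _

/-- `2 t² ≤ sin² (π t / 2)` for `0 ≤ t ≤ 1/2` -/
private lemma dc_cos_le (t : ℝ) (h0 : 0 ≤ t) (h1 : t ≤ 1 / 2) :
    Real.cos (Real.pi * t) ≤ 1 - 4 * t ^ 2 := by
  have m0 : (0 : ℝ) ∈ Set.Icc 0 Real.pi := ⟨le_rfl, Real.pi_pos.le⟩
  have m1 : Real.pi / 4 ∈ Set.Icc 0 Real.pi := ⟨by positivity, by linarith [Real.pi_pos]⟩
  have hc := strictConcaveOn_sin_Icc.concaveOn.2 m0 m1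
    (show 0 ≤ 1 - 2 * t by linarith) (show 0 ≤ 2 * t by linarith) (by ring)
  simp only [smul_eq_mul, Real.sin_zero, mul_zero, zero_add, Real.sin_pi_div_four] at hc
  have e1 : 2 * t * (Real.pi / 4) = Real.pi * t / 2 := by ring
  rw [e1] at hc
  have e2 : Real.cos (Real.pi * t) = 1 - 2 * Real.sin (Real.pi * t / 2) ^ 2 := by
    have := Real.cos_two_mul (Real.pi * t / 2)
    rw [Real.cos_sq'] at this
    rw [show Real.pi * t = 2 * (Real.pi * t / 2) by ring, this]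
    ring_nf
  rw [e2]
  have h2 : (2 * t * (Real.sqrt 2 / 2)) ^ 2 ≤ Real.sin (Real.pi * t / 2) ^ 2 := by
    gcongr
  have h3 : (2 * t * (Real.sqrt 2 / 2)) ^ 2 = 2 * t ^ 2 := by
    have : Real.sqrt 2 ^ 2 = 2 := Real.sq_sqrt (by norm_num)
    nlinarith
  rw [h3] at h2
  linarith

private lemma dc_norm_one_add (x : ℝ) : ‖1 + ee x‖ = 2 * |Real.cos (Real.pi * x)| := by
  have h : 1 + ee x = Complex.exp (((Real.pi * x : ℝ) : ℂ) * Complex.I) *
      (2 * Complex.cos ((Real.pi * x : ℝ))) := by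
    rw [Complex.cos, dc_ee_form]
    have e1 : (((2 * Real.pi * x : ℝ) : ℂ)) * Complex.I =
        ((Real.pi * x : ℝ) : ℂ) * Complex.I + ((Real.pi * x : ℝ) : ℂ) * Complex.I := by
      push_cast; ring
    rw [e1, Complex.exp_add]
    have e2 : Complex.exp (((Real.pi * x : ℝ) : ℂ) * Complex.I) *
        Complex.exp (-((Real.pi * x : ℝ) : ℂ) * Complex.I) = 1 := by
      rw [← Complex.exp_add]; simp
    linear_combination (-1 : ℂ) * e2
  rw [h, norm_mul, Complex.norm_exp_ofReal_mul_I, one_mul, norm_mul, ← Complex.ofReal_cos,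
    Complex.norm_real]
  simp

private lemma dc_norm_one_add_le (x : ℝ) : ‖1 + ee x‖ ≤ 2 * (1 - 4 * nd x ^ 2) := by
  rw [dc_norm_one_add]
  have h1 : |Real.cos (Real.pi * x)| = Real.cos (Real.pi * nd x) := by
    have e : Real.pi * (x - round x) = Real.pi * x - round x * Real.pi := by ring
    have h2 : |Real.cos (Real.pi * x)| = |Real.cos (Real.pi * (x - round x))| := by
      rw [e, Real.cos_sub_int_mul_pi, abs_mul]
      have : |(-1 : ℝ) ^ round x| = 1 := by rw [abs_zpow]; simp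
      rw [this, one_mul]
    have hy1 : |x - round x| ≤ 1 / 2 := abs_sub_round x
    rw [h2]
    have h3 : Real.cos (Real.pi * (x - round x)) = Real.cos (Real.pi * nd x) := by
      unfold nd
      rcases le_total 0 (x - round x) with h | h
      · rw [abs_of_nonneg h]
      · rw [abs_of_nonpos h, mul_neg, Real.cos_neg]
    rw [h3, abs_of_nonneg]
    apply Real.cos_nonneg_of_neg_pi_div_two_le_of_le
    · have : 0 ≤ Real.pi * nd x := mul_nonneg Real.pi_pos.le (nd_nonneg x)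
      linarith [Real.pi_pos]
    · have := nd_le_half x
      nlinarith [Real.pi_pos]
  rw [h1]
  have := dc_cos_le (nd x) (nd_nonneg x) (nd_le_half x)
  linarith

private lemma dc_Ps (b : ℕ) (θ : ℕ → ℝ) (i : ℕ) (y : ℝ) :
    Ps b (phi θ) i y = ‖∑ a ∈ range b, ee (a * (θ i - y))‖ / b := by
  unfold Ps phi
  congr 2
  apply sum_congr rfl
  intro a _
  rw [← dc_ee_add]
  congr 1
  ring

private lemma dc_psi_le (b : ℕ) (hb : 2 ≤ b) (x : ℝ) :
    ‖∑ a ∈ range b, ee (a * x)‖ / b ≤ 1 - 8 / b * nd x ^ 2 := by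
  obtain ⟨c, rfl⟩ : ∃ c, b = c + 2 := ⟨b - 2, by omega⟩
  have hb0 : (0 : ℝ) < ((c + 2 : ℕ) : ℝ) := by positivity
  have h1 : ‖∑ a ∈ range (c + 2), ee (a * x)‖ ≤ 2 * (1 - 4 * nd x ^ 2) + c := by
    rw [show c + 2 = 2 + c by ring, sum_range_add]
    refine (norm_add_le _ _).trans ?_
    apply add_le_add
    · rw [sum_range_succ, sum_range_one]
      have := dc_norm_one_add_le x
      simpa [dc_ee_zero] using this
    · refine (norm_sum_le _ _).trans ?_
      simp [dc_norm_ee]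
  rw [div_le_iff₀ hb0]
  refine h1.trans (le_of_eq ?_)
  have : (8 : ℝ) / ((c + 2 : ℕ) : ℝ) * nd x ^ 2 * ((c + 2 : ℕ) : ℝ) = 8 * nd x ^ 2 := by
    field_simp
  rw [sub_mul, this]
  push_cast
  ring

private lemma dc_windows (f : ℕ → ℝ) (κ : ℝ) (hκ : 0 ≤ κ) (h0 : ∀ i, 0 ≤ f i) (h1 : ∀ i, f i ≤ 1)
    (w : ℕ) (s : ℕ) (k : ℕ)
    (h : ∀ t, s ≤ t → t + w ≤ s + k * w → ∃ i, t ≤ i ∧ i < t + w ∧ f i ≤ κ) :
    ∏ i ∈ Ico s (s + k * w), f i ≤ κ ^ k := by
  induction k with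
  | zero => simp
  | succ k ih =>
    have ih' := ih (fun t ht ht' => h t ht (ht'.trans (by gcongr; omega)))
    have e : s + (k + 1) * w = s + k * w + w := by ring
    rw [e, ← prod_Ico_consecutive f (m := s) (n := s + k * w) (k := s + k * w + w)
      (by omega) (by omega), pow_succ]
    have h2 : ∏ i ∈ Ico (s + k * w) (s + k * w + w), f i ≤ κ := by
      obtain ⟨i, hi1, hi2, hi3⟩ := h (s + k * w) (by omega) (by rw [e])
      have hi : i ∈ Ico (s + k * w) (s + k * w + w) := mem_Ico.2 ⟨hi1, hi2⟩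
      rw [← mul_prod_erase _ _ hi]
      calc f i * ∏ x ∈ (Ico (s + k * w) (s + k * w + w)).erase i, f x ≤ κ * 1 := by
            apply mul_le_mul hi3 _ (prod_nonneg fun x _ => h0 x) hκ
            exact prod_le_one (fun x _ => h0 x) (fun x _ => h1 x)
        _ = κ := mul_one _
    exact mul_le_mul ih' h2 (prod_nonneg fun x _ => h0 x) (pow_nonneg hκ _)

theorem decay (b : ℕ) (hb : 2 ≤ b) (θ : ℕ → ℝ) (L w : ℕ) (hw : 1 ≤ w)
    (hD : ∀ s : ℕ, s + w ≤ L → ∃ i : ℕ, s ≤ i ∧ i + 1 < s + w ∧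
      1 / (2 * (b : ℝ)) ≤ nd (b * θ i - θ (i + 1)))
    (α : ℝ) (lam δ c : ℕ) (hlam : lam ≤ L) (hδ : δ ≤ lam) :
    PP b (tw b α (phi θ)) lam δ c ≤ (1 - 2 / ((b : ℝ) ^ 3 * (b + 1) ^ 2)) ^ (δ / w) := by
  have hb0 : (0 : ℝ) < b := by positivity
  have hb2 : (2 : ℝ) ≤ b := by exact_mod_cast hb
  set x : ℕ → ℝ := fun i => θ i + α * (b : ℝ) ^ i - c / (b : ℝ) ^ (lam - i) with hx
  set f : ℕ → ℝ := fun i => ‖∑ a ∈ range b, ee (a * x i)‖ / b with hf
  have hf0 : ∀ i, 0 ≤ f i := fun i => by positivity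
  have hfle : ∀ i, f i ≤ 1 - 8 / b * nd (x i) ^ 2 := fun i => dc_psi_le b hb (x i)
  have hf1 : ∀ i, f i ≤ 1 := fun i => (hfle i).trans (by
    have : 0 ≤ 8 / (b : ℝ) * nd (x i) ^ 2 := by positivity
    linarith)
  have e1 : PP b (tw b α (phi θ)) lam δ c = ∏ i ∈ Ico (lam - δ) lam, f i := by
    unfold PP
    rw [tw_phi]
    rw [prod_Ico_eq_prod_range]
    have e : lam - (lam - δ) = δ := by omega
    rw [e, ← prod_range_reflect]
    apply prod_congr rfl
    intro j hj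
    rw [mem_range] at hj
    rw [dc_Ps]
    have e3 : lam - 1 - (δ - 1 - j) = lam - δ + j := by omega
    have e4 : δ - 1 - j + 1 = lam - (lam - δ + j) := by omega
    rw [e3, e4]
  have hκ : (0 : ℝ) ≤ 1 - 2 / ((b : ℝ) ^ 3 * (b + 1) ^ 2) := by
    have : 2 / ((b : ℝ) ^ 3 * (b + 1) ^ 2) ≤ 1 := by
      rw [div_le_one (by positivity)]
      have h1 : (8 : ℝ) ≤ (b : ℝ) ^ 3 := by
        calc (8 : ℝ) = 2 ^ 3 := by norm_num
          _ ≤ (b : ℝ) ^ 3 := by gcongr
      have h2 : (1 : ℝ) ≤ (b + 1 : ℝ) ^ 2 := by nlinarith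
      nlinarith
    linarith
  have hwin : ∀ t, lam - δ ≤ t → t + w ≤ lam →
      ∃ i, t ≤ i ∧ i < t + w ∧ f i ≤ 1 - 2 / ((b : ℝ) ^ 3 * (b + 1) ^ 2) := by
    intro t _ ht
    obtain ⟨i, hi1, hi2, hi3⟩ := hD t (ht.trans hlam)
    have e : b * θ i - θ (i + 1) = b * x i - x (i + 1) := by
      simp only [hx]
      have e2 : lam - i = (lam - (i + 1)) + 1 := by omega
      rw [e2, pow_succ, pow_succ]
      field_simp
      ring
    have h1 : nd (b * x i - x (i + 1)) ≤ b * nd (x i) + nd (x (i + 1)) := by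
      have e3 : b * x i - x (i + 1) = b * x i + -(x (i + 1)) := by ring
      rw [e3]
      refine (nd_add_le _ _).trans ?_
      rw [nd_neg]
      gcongr
      have := nd_le (b * x i) ((b : ℤ) * round (x i))
      refine this.trans (le_of_eq ?_)
      push_cast
      rw [← mul_sub, abs_mul, Nat.abs_cast]
      rfl
    have key : ∀ j, 1 / (2 * (b : ℝ) * (b + 1)) ≤ nd (x j) →
        f j ≤ 1 - 2 / ((b : ℝ) ^ 3 * (b + 1) ^ 2) := by
      intro j hj
      refine (hfle j).trans ?_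
      have h2 : (1 / (2 * (b : ℝ) * (b + 1))) ^ 2 ≤ nd (x j) ^ 2 := by gcongr
      have h3 : 2 / ((b : ℝ) ^ 3 * (b + 1) ^ 2) = 8 / b * (1 / (2 * (b : ℝ) * (b + 1))) ^ 2 := by
        field_simp
        norm_num
      rw [h3]
      gcongr
    by_cases hA : 1 / (2 * (b : ℝ) * (b + 1)) ≤ nd (x i)
    · exact ⟨i, hi1, by omega, key i hA⟩
    · refine ⟨i + 1, by omega, by omega, key (i + 1) ?_⟩
      push Not at hA
      rw [e] at hi3
      have h4 : 1 / (2 * (b : ℝ)) ≤ b * nd (x i) + nd (x (i + 1)) := hi3.trans h1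
      have h5 : b * nd (x i) ≤ b * (1 / (2 * (b : ℝ) * (b + 1))) := by gcongr
      have h6 : 1 / (2 * (b : ℝ)) = b * (1 / (2 * (b : ℝ) * (b + 1))) + 1 / (2 * (b : ℝ) * (b + 1)) := by
        field_simp
      linarith
  rw [e1]
  set k := δ / w with hk
  have hkw : k * w ≤ δ := Nat.div_mul_le_self δ w
  have e5 : Ico (lam - δ) lam = Ico (lam - δ) (lam - δ + δ) := by rw [Nat.sub_add_cancel hδ]
  rw [e5, ← prod_Ico_consecutive f (m := lam - δ) (n := lam - δ + k * w) (k := lam - δ + δ)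
    (by omega) (by omega)]
  have h7 := dc_windows f _ hκ hf0 hf1 w (lam - δ) k
    (fun t ht ht' => hwin t ht (by omega))
  calc (∏ i ∈ Ico (lam - δ) (lam - δ + k * w), f i) * ∏ i ∈ Ico (lam - δ + k * w) (lam - δ + δ), f i
      ≤ (1 - 2 / ((b : ℝ) ^ 3 * (b + 1) ^ 2)) ^ k * 1 := by
        apply mul_le_mul h7 _ (prod_nonneg fun x _ => hf0 x) (pow_nonneg hκ _)
        exact prod_le_one (fun x _ => hf0 x) (fun x _ => hf1 x)
    _ = _ := mul_one _

private lemma dc_nd_mul (b : ℕ) (hb : 1 ≤ b) (x : ℝ) (h : nd x ≤ 1 / (2 * b)) :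
    nd (b * x) = b * nd x := by
  have hb0 : (0 : ℝ) < b := by exact_mod_cast hb
  have e : (b : ℝ) * x = b * (x - round x) + ((b * round x : ℤ) : ℝ) := by push_cast; ring
  have h2 : |(b : ℝ) * (x - round x)| ≤ 1 / 2 := by
    rw [abs_mul, Nat.abs_cast]
    have h' : |x - round x| ≤ 1 / (2 * b) := h
    calc (b : ℝ) * |x - round x| ≤ b * (1 / (2 * b)) := by gcongr
      _ = 1 / 2 := by field_simp
  have h3 : ∀ y : ℝ, |y| ≤ 1 / 2 → nd y = |y| := by
    intro y hy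
    apply le_antisymm
    · simpa using nd_le y 0
    · by_cases h0 : round y = 0
      · unfold nd; rw [h0]; simp
      · have h1 : (1 : ℝ) ≤ |(round y : ℝ)| := by
          have : (1 : ℤ) ≤ |round y| := Int.one_le_abs h0
          exact_mod_cast this
        have h2 : |(round y : ℝ)| ≤ nd y + |y| := by
          have e : (round y : ℝ) = -(y - round y) + y := by ring
          calc |(round y : ℝ)| = |-(y - round y) + y| := by rw [← e]
            _ ≤ |-(y - round y)| + |y| := abs_add_le _ _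
            _ = nd y + |y| := by rw [abs_neg]; rfl
        linarith
  rw [e, nd_add_int, h3 _ h2, abs_mul, Nat.abs_cast]
  rfl

theorem window (b : ℕ) (hb : 2 ≤ b) (q : ℕ) (hq : 1 ≤ q) (a : ℤ) (L w : ℕ)
    (ha : ∀ k : ℕ, ¬ (q : ℤ) ∣ a * ((b : ℤ) ^ 2 - 1) * (b : ℤ) ^ k) (hw : 2 ≤ w)
    (hqw : q ≤ b ^ (w - 2)) (s : ℕ) (hs : s + w ≤ L) : ∃ i : ℕ, s ≤ i ∧ i + 1 < s + w ∧
      1 / (2 * (b : ℝ)) ≤ nd (b * ((a : ℝ) / q * (b : ℝ) ^ (L - 1 - i)) -
        (a : ℝ) / q * (b : ℝ) ^ (L - 1 - (i + 1))) := by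
  have hb0 : (0 : ℝ) < b := by positivity
  have hq0 : (0 : ℝ) < q := by exact_mod_cast hq
  set v : ℕ → ℝ := fun k => (a : ℝ) / q * ((b : ℝ) ^ 2 - 1) * (b : ℝ) ^ k with hv
  have hv1 : ∀ k, 1 / (q : ℝ) ≤ nd (v k) := by
    intro k
    have e : v k - round (v k) =
        ((a * ((b : ℤ) ^ 2 - 1) * (b : ℤ) ^ k - q * round (v k) : ℤ) : ℝ) / q := by
      push_cast
      rw [eq_div_iff hq0.ne']
      simp only [hv]
      field_simp
    have hne : a * ((b : ℤ) ^ 2 - 1) * (b : ℤ) ^ k - q * round (v k) ≠ 0 := by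
      intro h0
      exact ha k ⟨round (v k), by linarith⟩
    unfold nd
    rw [e, abs_div, abs_of_pos hq0]
    gcongr
    have := Int.one_le_abs hne
    rw [← Int.cast_abs]
    exact_mod_cast this
  have hv2 : ∀ k, v (k + 1) = b * v k := by
    intro k
    simp only [hv, pow_succ]
    ring
  -- the value at position `i` is `v (L - 2 - i)`
  have hval : ∀ i, i + 2 ≤ L → b * ((a : ℝ) / q * (b : ℝ) ^ (L - 1 - i)) -
        (a : ℝ) / q * (b : ℝ) ^ (L - 1 - (i + 1)) = v (L - 2 - i) := by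
    intro i hi
    have e1 : L - 1 - i = (L - 2 - i) + 1 := by omega
    have e2 : L - 1 - (i + 1) = L - 2 - i := by omega
    rw [e1, e2, pow_succ]
    simp only [hv]
    ring
  by_contra hcon
  push Not at hcon
  -- all values small
  set k0 := L - 2 - (s + w - 2) with hk0
  have hsmall : ∀ j, j ≤ w - 2 → nd (v (k0 + j)) < 1 / (2 * (b : ℝ)) := by
    intro j hj
    have := hcon (s + w - 2 - j) (by omega) (by omega)
    rw [hval _ (by omega)] at this
    have e : L - 2 - (s + w - 2 - j) = k0 + j := by omega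
    rwa [e] at this
  have hgrow : ∀ j, j ≤ w - 2 → nd (v (k0 + j)) = (b : ℝ) ^ j * nd (v k0) := by
    intro j
    induction j with
    | zero => intro _; simp
    | succ j ih =>
      intro hj
      rw [← add_assoc, hv2, dc_nd_mul b (by omega) _ (hsmall j (by omega)).le, ih (by omega), pow_succ]
      ring
  have h1 := hgrow (w - 2) le_rfl
  have h2 := hsmall (w - 2) le_rfl
  rw [h1] at h2
  have h3 : (1 : ℝ) ≤ (b : ℝ) ^ (w - 2) * nd (v k0) := by
    have h4 : (q : ℝ) ≤ (b : ℝ) ^ (w - 2) := by exact_mod_cast hqw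
    calc (1 : ℝ) = q * (1 / q) := by field_simp
      _ ≤ (b : ℝ) ^ (w - 2) * nd (v k0) := by
        apply mul_le_mul h4 (hv1 k0) (by positivity) (by positivity)
  have h5 : 1 / (2 * (b : ℝ)) ≤ 1 := by
    rw [div_le_one (by positivity)]
    have : (2 : ℝ) ≤ b := by exact_mod_cast hb
    linarith
  linarith

end Pool.Agent.H10.RP
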