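import Pool.Agent.H10.RP.Abs
import Pool.Agent.H10.RP.Decay

/-!
# Reversed primes: exponential sums over primes with the reversal (job RP-11)

PROOF. For `n < b ^ L`: `ee (α n + a / q * revL b L n) = fd b (tw b α (phi θ)) L n`,
`θ i = (a / q) b ^ (L - 1 - i)` (`revL` is additive in the digits; `fd_tw`). Let `w` be `2 +` the least `k` with
`q ≤ b ^ k` (so `w = O(log L)` as `q ≤ L ^ C`), `window` gives the hypothesis of `decay`.
* `b ≥ 3`: apply `absB` with `q := b`, `J := L`, `φ := tw b α (phi θ)` = `phi θ'` (`tw_phi`), `κ` from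
  `str_base`, `c = 2 / (b ^ 3 (b + 1) ^ 2)`; `tw (tw _)` is again a twist.
* `b = 2`: let `J = (L + 1) / 2`, so `2 J = L` or `2 J = L + 1`, `4 ^ J ≤ 2 * 2 ^ L`. `fd_four`, `PP_four`,
  `tw_phi4`, `str_four`: apply `absB` with `q := 4`, `φ := phi4 θ'`. For `2 J = L + 1` the additional
  top binary digit of `n < 2 ^ L` is `0` (so `fd 2 _ (L + 1) n = fd 2 _ L n`), and every window of length
  `w + 1` in `[0, L + 1)` contains a window of length `w` in `[0, L)`. Window lengths in base 4: from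
  `(1 - c) ^ (2 δ / (w + 1)) ≤ (1 - c) ^ (δ / (w + 1))`.
The second bound of the conclusion is the `SupB` part with `α := 0` in `SupB`.
-/

set_option autoImplicit false

open Finset

namespace Pool.Agent.H10.RP

theorem thmB_ee_sum {ι : Type*} (s : Finset ι) (f : ι → ℝ) :
    ee (∑ i ∈ s, f i) = ∏ i ∈ s, ee (f i) := by
  classical
  induction s using Finset.induction_on with
  | empty => simp [ee_zero]
  | insert a s ha ih => rw [Finset.sum_insert ha, Finset.prod_insert ha, ee_add, ih]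

theorem thmB_fd (b L : ℕ) (β : ℝ) (n : ℕ) :
    fd b (phi fun i => β * (b : ℝ) ^ (L - 1 - i)) L n = ee (β * revL b L n) := by
  unfold fd phi revL
  push_cast
  rw [Finset.mul_sum, thmB_ee_sum]
  refine Finset.prod_congr rfl fun i _ => ?_
  congr 1
  ring

theorem thmB_tw_tw (q : ℕ) (α α' : ℝ) (φ : ℕ → ℕ → ℂ) :
    tw q α' (tw q α φ) = tw q (α + α') φ := by
  funext i a
  unfold tw
  rw [mul_assoc, ← ee_add]
  congr 2
  ring

/-- the window length -/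
theorem thmB_w (C : ℝ) (b : ℕ) (hb : 2 ≤ b) (L : ℕ) (hL : 1 ≤ Real.log L) (q : ℕ) (hq : 1 ≤ q)
    (hqL : (q : ℝ) ≤ (L : ℝ) ^ C) : ∃ w : ℕ, 2 ≤ w ∧ q ≤ b ^ (w - 2) ∧
      (w : ℝ) ≤ (|C| / Real.log 2 + 3) * Real.log L := by
  refine ⟨Nat.log 2 q + 3, by omega, ?_, ?_⟩
  · have h1 : q < 2 ^ (Nat.log 2 q + 1) := Nat.lt_pow_succ_log_self (by norm_num) q
    have h2 : 2 ^ (Nat.log 2 q + 1) ≤ b ^ (Nat.log 2 q + 1) := Nat.pow_le_pow_left hb _
    have h3 : Nat.log 2 q + 3 - 2 = Nat.log 2 q + 1 := by omega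
    rw [h3]
    omega
  · have hlog2 : 0 < Real.log 2 := Real.log_pos (by norm_num)
    have hL0 : (0 : ℝ) < L := by
      rcases Nat.eq_zero_or_pos L with h | h
      · rw [h] at hL
        norm_num at hL
      · exact_mod_cast h
    have h1 : (2 : ℝ) ^ (Nat.log 2 q) ≤ (L : ℝ) ^ C := by
      have : 2 ^ Nat.log 2 q ≤ q := Nat.pow_log_le_self 2 (by omega)
      calc (2 : ℝ) ^ (Nat.log 2 q) = ((2 ^ Nat.log 2 q : ℕ) : ℝ) := by push_cast; rfl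
        _ ≤ (q : ℝ) := by exact_mod_cast this
        _ ≤ _ := hqL
    have h2 : (Nat.log 2 q : ℝ) * Real.log 2 ≤ C * Real.log L := by
      have := Real.log_le_log (by positivity) h1
      rwa [Real.log_pow, Real.log_rpow hL0] at this
    have h3 : C * Real.log L ≤ |C| * Real.log L :=
      mul_le_mul_of_nonneg_right (le_abs_self C) (by linarith)
    have h4 : (Nat.log 2 q : ℝ) ≤ |C| / Real.log 2 * Real.log L := by
      rw [div_mul_eq_mul_div, le_div_iff₀ hlog2]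
      linarith
    push_cast
    nlinarith

theorem thmB_ge3 (b : ℕ) (hb : 3 ≤ b) (A C : ℝ) : ∃ L0 : ℕ, ∀ L : ℕ, L0 ≤ L → ∀ q : ℕ, 1 ≤ q →
    (q : ℝ) ≤ (L : ℝ) ^ C → ∀ a : ℤ, (∀ k : ℕ, ¬ (q : ℤ) ∣ a * ((b : ℤ) ^ 2 - 1) * (b : ℤ) ^ k) →
    ∀ (α : ℝ) (x : ℕ), x ≤ b ^ L →
      ‖∑ n ∈ range x, Lam n * ee (α * n + (a : ℝ) / q * revL b L n)‖ ≤
        (b : ℝ) ^ L * (L : ℝ) ^ (-A) ∧
      ‖∑ n ∈ range x, ee (α * n + (a : ℝ) / q * revL b L n)‖ ≤ (b : ℝ) ^ L * (L : ℝ) ^ (-A) := by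
  have hb2 : 2 ≤ b := by omega
  obtain ⟨κ, hκ0, hκ1, hκ⟩ := str_base b hb
  have hb3 : (3 : ℝ) ≤ b := by exact_mod_cast hb
  have hden : (2 : ℝ) < (b : ℝ) ^ 3 * ((b : ℝ) + 1) ^ 2 := by
    have h1 : (3 : ℝ) ^ 3 ≤ (b : ℝ) ^ 3 := pow_le_pow_left₀ (by norm_num) hb3 3
    have h2 : (1 : ℝ) ≤ ((b : ℝ) + 1) ^ 2 := by nlinarith
    nlinarith
  have hden0 : (0 : ℝ) < (b : ℝ) ^ 3 * ((b : ℝ) + 1) ^ 2 := by linarith
  have hc0 : (0 : ℝ) < 2 / ((b : ℝ) ^ 3 * ((b : ℝ) + 1) ^ 2) := by positivity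
  have hc1 : 2 / ((b : ℝ) ^ 3 * ((b : ℝ) + 1) ^ 2) < 1 := by
    rw [div_lt_one hden0]; exact hden
  have hlog2 : 0 < Real.log 2 := Real.log_pos (by norm_num)
  obtain ⟨J0, hJ0⟩ := absB b hb2 κ (2 / ((b : ℝ) ^ 3 * ((b : ℝ) + 1) ^ 2)) hκ0 hκ1 hc0 hc1 A
    (|C| / Real.log 2 + 3) (by positivity)
  refine ⟨max J0 3, fun L hL q hq hqL a ha α x hx => ?_⟩
  have hL3 : 3 ≤ L := le_trans (le_max_right _ _) hL
  have hlogL : 1 ≤ Real.log L := by
    have h1 : Real.exp 1 ≤ (3 : ℝ) := by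
      have := Real.exp_one_lt_d9
      linarith
    have h2 : (3 : ℝ) ≤ L := by exact_mod_cast hL3
    rw [Real.le_log_iff_exp_le (by linarith)]
    linarith
  obtain ⟨w, hw2, hqw, hwL⟩ := thmB_w C b hb2 L hlogL q hq hqL
  set θ : ℕ → ℝ := fun i => (a : ℝ) / q * (b : ℝ) ^ (L - 1 - i) with hθ
  have hD : ∀ s : ℕ, s + w ≤ L → ∃ i : ℕ, s ≤ i ∧ i + 1 < s + w ∧
      1 / (2 * (b : ℝ)) ≤ nd (b * θ i - θ (i + 1)) := fun s hs =>
    window b hb2 q hq a L w ha hw2 hqw s hs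
  have hstr : Str b (tw b α (phi θ)) κ := by
    rw [tw_phi]
    exact hκ _
  obtain ⟨h1, h2⟩ := hJ0 L (le_trans (le_max_left _ _) hL) (tw b α (phi θ))
    (uni_tw _ (uni_phi θ) α) hstr ⟨w, by omega, hwL, fun α' lam δ c' hlam hδ => by
      rw [thmB_tw_tw]
      exact decay b hb2 θ L w (by omega) hD (α + α') lam δ c' hlam hδ⟩
  have hfd : ∀ n, n < b ^ L → fd b (tw b α (phi θ)) L n =
      ee (α * n + (a : ℝ) / q * revL b L n) := by
    intro n hn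
    rw [fd_tw _ hb2 α L n hn, hθ, thmB_fd, add_comm, ee_add]
  have hsum1 : ∑ n ∈ range x, Lam n * ee (α * n + (a : ℝ) / q * revL b L n) =
      ∑ n ∈ range x, Lam n * fd b (tw b α (phi θ)) L n :=
    Finset.sum_congr rfl fun n hn => by
      rw [hfd n (lt_of_lt_of_le (Finset.mem_range.mp hn) hx)]
  have hsum2 : ∑ n ∈ range x, ee (α * n + (a : ℝ) / q * revL b L n) =
      ∑ n ∈ range x, fd b (tw b α (phi θ)) L n * ee (0 * n) :=
    Finset.sum_congr rfl fun n hn => by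
      rw [hfd n (lt_of_lt_of_le (Finset.mem_range.mp hn) hx), zero_mul, ee_zero, mul_one]
  rw [hsum1, hsum2]
  exact ⟨h1 x hx, h2 0 x hx⟩

theorem thmB_two (A C : ℝ) (hA : 0 ≤ A) : ∃ L0 : ℕ, ∀ L : ℕ, L0 ≤ L → ∀ q : ℕ, 1 ≤ q →
    (q : ℝ) ≤ (L : ℝ) ^ C → ∀ a : ℤ, (∀ k : ℕ, ¬ (q : ℤ) ∣ a * ((2 : ℤ) ^ 2 - 1) * (2 : ℤ) ^ k) →
    ∀ (α : ℝ) (x : ℕ), x ≤ 2 ^ L →
      ‖∑ n ∈ range x, Lam n * ee (α * n + (a : ℝ) / q * revL 2 L n)‖ ≤
        (2 : ℝ) ^ L * (L : ℝ) ^ (-A) ∧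
      ‖∑ n ∈ range x, ee (α * n + (a : ℝ) / q * revL 2 L n)‖ ≤ (2 : ℝ) ^ L * (L : ℝ) ^ (-A) := by
  have hs2 : Real.sqrt 2 < 2 := by
    rw [Real.sqrt_lt' (by norm_num)]; norm_num
  have hs0 : 0 ≤ Real.sqrt 2 := Real.sqrt_nonneg 2
  have hlog2 : 0 < Real.log 2 := Real.log_pos (by norm_num)
  obtain ⟨J0, hJ0⟩ := absB 4 (by norm_num) ((2 + Real.sqrt 2) / 4) (1 / 36) (by positivity)
    (by linarith) (by norm_num) (by norm_num) (A + 1) (2 * (|C| / Real.log 2 + 4)) (by positivity)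
  obtain ⟨N, hN⟩ := exists_nat_ge ((2 : ℝ) ^ (A + 2))
  refine ⟨max (2 * J0) (max 4 N), fun L hL q hq hqL a ha α x hx => ?_⟩
  have hLJ : 2 * J0 ≤ L := le_trans (le_max_left _ _) hL
  have hL4 : 4 ≤ L := le_trans (le_trans (le_max_left _ _) (le_max_right _ _)) hL
  have hLN : N ≤ L := le_trans (le_trans (le_max_right _ _) (le_max_right _ _)) hL
  have hL4' : (4 : ℝ) ≤ L := by exact_mod_cast hL4
  have hlogL : 1 ≤ Real.log L := by
    have h1 : Real.exp 1 ≤ (3 : ℝ) := by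
      have := Real.exp_one_lt_d9
      linarith
    rw [Real.le_log_iff_exp_le (by linarith)]
    linarith
  obtain ⟨w, hw2, hqw, hwL⟩ := thmB_w C 2 le_rfl L hlogL q hq hqL
  set J : ℕ := (L + 1) / 2 with hJ
  have hJL1 : L ≤ 2 * J := by omega
  have hJL2 : 2 * J ≤ L + 1 := by omega
  have hJR : (L : ℝ) / 2 ≤ J := by
    have : (L : ℝ) ≤ 2 * (J : ℝ) := by exact_mod_cast hJL1
    linarith
  have hJ0' : (0 : ℝ) < J := by linarith
  have hlogJ : Real.log L ≤ 2 * Real.log J := by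
    have h1 : Real.log ((L : ℝ) / 2) ≤ Real.log J := Real.log_le_log (by linarith) hJR
    rw [Real.log_div (by linarith) (by norm_num)] at h1
    have h2 : 2 * Real.log 2 ≤ Real.log L := by
      have h3 : Real.log ((2 : ℝ) ^ 2) ≤ Real.log L := by
        apply Real.log_le_log (by norm_num)
        norm_num
        exact_mod_cast hL4
      rw [Real.log_pow] at h3
      exact_mod_cast h3
    linarith
  set θ : ℕ → ℝ := fun i => (a : ℝ) / q * ((2 : ℕ) : ℝ) ^ (L - 1 - i) with hθ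
  have hD : ∀ s : ℕ, s + (w + 1) ≤ 2 * J → ∃ i : ℕ, s ≤ i ∧ i + 1 < s + (w + 1) ∧
      1 / (2 * ((2 : ℕ) : ℝ)) ≤ nd (((2 : ℕ) : ℝ) * θ i - θ (i + 1)) := by
    intro s hs
    obtain ⟨i, h1, h2, h3⟩ := window 2 le_rfl q hq a L w (by exact_mod_cast ha) hw2 hqw s (by omega)
    exact ⟨i, h1, by omega, h3⟩
  have hconv : ∀ β : ℝ, tw 4 β (phi4 θ) = phi4 (fun i => θ i + β * (2 : ℝ) ^ i) := fun β =>
    tw_phi4 β θ
  have hconv2 : ∀ β : ℝ, phi (fun i => θ i + β * (2 : ℝ) ^ i) = tw 2 β (phi θ) := by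
    intro β
    rw [tw_phi]
    norm_num
  have hstr : Str 4 (tw 4 α (phi4 θ)) ((2 + Real.sqrt 2) / 4) := by
    rw [hconv]
    exact str_four _
  have hw' : ((w + 1 : ℕ) : ℝ) ≤ 2 * (|C| / Real.log 2 + 4) * Real.log J := by
    have h0 : 0 ≤ |C| / Real.log 2 := by positivity
    push_cast
    nlinarith
  obtain ⟨h1, h2⟩ := hJ0 J (by omega) (tw 4 α (phi4 θ))
    (uni_tw _ (uni_phi4 θ) α) hstr ⟨w + 1, by omega, hw', fun α' lam δ c' hlam hδ => by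
      rw [thmB_tw_tw, hconv, PP_four _ lam δ c' hδ, hconv2]
      have h3 := decay 2 le_rfl θ (2 * J) (w + 1) (by omega) hD (α + α') (2 * lam) (2 * δ) c'
        (by omega) (by omega)
      refine h3.trans ?_
      have h4 : (1 - 2 / ((((2 : ℕ) : ℝ)) ^ 3 * (((2 : ℕ) : ℝ) + 1) ^ 2)) = 1 - 1 / 36 := by
        norm_num
      rw [h4]
      exact pow_le_pow_of_le_one (by norm_num) (by norm_num)
        (Nat.div_le_div_right (by omega))⟩
  have hfd : ∀ n, n < 2 ^ L → fd 4 (tw 4 α (phi4 θ)) J n =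
      ee (α * n + (a : ℝ) / q * revL 2 L n) := by
    intro n hn
    have hn' : n < 2 ^ (2 * J) := lt_of_lt_of_le hn (Nat.pow_le_pow_right (by norm_num) hJL1)
    have e1 : fd 2 (tw 2 α (phi θ)) (2 * J) n = fd 2 (phi θ) (2 * J) n * ee (α * n) :=
      fd_tw _ le_rfl α (2 * J) n hn'
    have e2 : fd 2 (phi θ) (2 * J) n = fd 2 (phi θ) L n := by
      rcases Nat.lt_or_ge L (2 * J) with h | h
      · have h5 : 2 * J = L + 1 := by omega
        rw [h5]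
        unfold fd
        rw [Finset.prod_range_succ]
        have h6 : dg 2 L n = 0 := by
          unfold dg
          rw [Nat.div_eq_of_lt hn]
        rw [h6]
        unfold phi
        rw [Nat.cast_zero, mul_zero, ee_zero, mul_one]
      · have h5 : 2 * J = L := by omega
        rw [h5]
    rw [hconv, fd_four, hconv2, e1, e2, hθ, thmB_fd, add_comm, ee_add]
  have hfin : ∀ S : ℝ, S ≤ ((4 : ℕ) : ℝ) ^ J * (J : ℝ) ^ (-(A + 1)) →
      S ≤ (2 : ℝ) ^ L * (L : ℝ) ^ (-A) := by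
    intro S hS
    refine hS.trans ?_
    have hL0 : (0 : ℝ) < L := by linarith
    have e1 : ((4 : ℕ) : ℝ) ^ J ≤ 2 * (2 : ℝ) ^ L := by
      have : (4 : ℝ) ^ J = (2 : ℝ) ^ (2 * J) := by
        rw [pow_mul]; norm_num
      push_cast
      rw [this]
      calc (2 : ℝ) ^ (2 * J) ≤ (2 : ℝ) ^ (L + 1) := pow_le_pow_right₀ (by norm_num) hJL2
        _ = 2 * (2 : ℝ) ^ L := by rw [pow_succ]; ring
    have e2 : (J : ℝ) ^ (-(A + 1)) ≤ ((L : ℝ) / 2) ^ (-(A + 1)) :=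
      Real.rpow_le_rpow_of_nonpos (by linarith) hJR (by linarith)
    have e3 : ((L : ℝ) / 2) ^ (-(A + 1)) = (2 : ℝ) ^ (A + 1) * (L : ℝ) ^ (-A) * (L : ℝ)⁻¹ := by
      rw [Real.div_rpow hL0.le (by norm_num), Real.rpow_neg (by norm_num : (0 : ℝ) ≤ 2),
        div_inv_eq_mul, neg_add, Real.rpow_add hL0, Real.rpow_neg_one]
      ring
    have e4 : (2 : ℝ) * (2 : ℝ) ^ (A + 1) ≤ L := by
      have : (2 : ℝ) * (2 : ℝ) ^ (A + 1) = (2 : ℝ) ^ (A + 2) := by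
        have h7 : A + 2 = (A + 1) + 1 := by ring
        rw [h7, Real.rpow_add_one (by norm_num) (A + 1)]
        ring
      rw [this]
      exact hN.trans (by exact_mod_cast hLN)
    have hLA : (0 : ℝ) < (L : ℝ) ^ (-A) := Real.rpow_pos_of_pos hL0 _
    calc ((4 : ℕ) : ℝ) ^ J * (J : ℝ) ^ (-(A + 1)) ≤
          (2 * (2 : ℝ) ^ L) * ((2 : ℝ) ^ (A + 1) * (L : ℝ) ^ (-A) * (L : ℝ)⁻¹) := by
          rw [← e3]
          exact mul_le_mul e1 e2 (by positivity) (by positivity)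
      _ = (2 : ℝ) ^ L * (L : ℝ) ^ (-A) * ((2 * (2 : ℝ) ^ (A + 1)) * (L : ℝ)⁻¹) := by ring
      _ ≤ (2 : ℝ) ^ L * (L : ℝ) ^ (-A) * 1 := by
          apply mul_le_mul_of_nonneg_left _ (by positivity)
          rw [← div_eq_mul_inv, div_le_one hL0]
          exact e4
      _ = _ := mul_one _
  have hsum1 : ∑ n ∈ range x, Lam n * ee (α * n + (a : ℝ) / q * revL 2 L n) =
      ∑ n ∈ range x, Lam n * fd 4 (tw 4 α (phi4 θ)) J n :=
    Finset.sum_congr rfl fun n hn => by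
      rw [hfd n (lt_of_lt_of_le (Finset.mem_range.mp hn) hx)]
  have hsum2 : ∑ n ∈ range x, ee (α * n + (a : ℝ) / q * revL 2 L n) =
      ∑ n ∈ range x, fd 4 (tw 4 α (phi4 θ)) J n * ee (0 * n) :=
    Finset.sum_congr rfl fun n hn => by
      rw [hfd n (lt_of_lt_of_le (Finset.mem_range.mp hn) hx), zero_mul, ee_zero, mul_one]
  have hx4 : x ≤ 4 ^ J := by
    have : 2 ^ L ≤ 4 ^ J := by
      calc 2 ^ L ≤ 2 ^ (2 * J) := Nat.pow_le_pow_right (by norm_num) hJL1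
        _ = 4 ^ J := by rw [pow_mul]; norm_num
    omega
  rw [hsum1, hsum2]
  exact ⟨hfin _ (h1 x hx4), hfin _ (h2 0 x hx4)⟩

theorem thmB (b : ℕ) (hb : 2 ≤ b) (A C : ℝ) : ∃ L0 : ℕ, ∀ L : ℕ, L0 ≤ L → ∀ q : ℕ, 1 ≤ q →
    (q : ℝ) ≤ (L : ℝ) ^ C → ∀ a : ℤ, (∀ k : ℕ, ¬ (q : ℤ) ∣ a * ((b : ℤ) ^ 2 - 1) * (b : ℤ) ^ k) →
    ∀ (α : ℝ) (x : ℕ), x ≤ b ^ L →
      ‖∑ n ∈ range x, Lam n * ee (α * n + (a : ℝ) / q * revL b L n)‖ ≤
        (b : ℝ) ^ L * (L : ℝ) ^ (-A) ∧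
      ‖∑ n ∈ range x, ee (α * n + (a : ℝ) / q * revL b L n)‖ ≤ (b : ℝ) ^ L * (L : ℝ) ^ (-A) := by
  rcases Nat.lt_or_ge b 3 with h | h
  · have hb' : b = 2 := by omega
    subst hb'
    obtain ⟨L0, hL0⟩ := thmB_two (max A 0) C (le_max_right _ _)
    refine ⟨max L0 1, fun L hL q hq hqL a ha α x hx => ?_⟩
    obtain ⟨h1, h2⟩ := hL0 L (le_trans (le_max_left _ _) hL) q hq hqL a (by exact_mod_cast ha) α x hx
    have hL1 : (1 : ℝ) ≤ L := by exact_mod_cast le_trans (le_max_right _ _) hL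
    have h3 : (L : ℝ) ^ (-(max A 0)) ≤ (L : ℝ) ^ (-A) :=
      Real.rpow_le_rpow_of_exponent_le hL1 (by linarith [le_max_left A 0])
    have h4 : (2 : ℝ) ^ L * (L : ℝ) ^ (-(max A 0)) ≤ ((2 : ℕ) : ℝ) ^ L * (L : ℝ) ^ (-A) := by
      push_cast
      exact mul_le_mul_of_nonneg_left h3 (by positivity)
    exact ⟨h1.trans h4, h2.trans h4⟩
  · exact thmB_ge3 b h A C

end Pool.Agent.H10.RP
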