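import Pool.Agent.H10.RP.Rev
import Pool.Agent.H10.RP.ThmB

/-!
# Reversed primes: major arcs where the reversed primes are equidistributed (job RP-19b)

`Hs b L a1 c α = ∑_{n ∈ SS} (Λ n - kap) ee (α revL n)`. `m = b² - 1`.

PROOF of `altB` (`q ∤ a m b ^ k` for all `k`). Again `beta` with such a `K`. For fixed `r` write
`1[n ≡ r mod b ^ K] 1[n ≡ c mod m] = (1 / (m b ^ K)) ∑_{j < b ^ K} ∑_{j' < m} ee (j (n - r) / b ^ K + j' (n - c) / m)`
(`r` coprime to `b`, otherwise the class is empty; then `n.Coprime b` is automatic as `K ≥ 1`) and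
`1[n / b ^ (L - 1) = a1] = 1[n < (a1 + 1) b ^ (L - 1)] - 1[n < a1 b ^ (L - 1)]`: the inner sums are at most
`2 b ^ L L ^ (-A')` by `thmB` (both for `Λ` and for the constant `kap ≤ c2`).
-/

set_option autoImplicit false

open Finset

namespace Pool.Agent.H10.RP

namespace AltBAux

/-- restriction to a residue class does not increase the sup of the exponential sums -/
theorem class_bound (I : Finset ℕ) (F : ℕ → ℂ) (B : ℝ)
    (hB : ∀ α : ℝ, ‖∑ n ∈ I, F n * ee (α * n)‖ ≤ B) (N r : ℕ) (hN : 0 < N) (hr : r < N) (α : ℝ) :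
    ‖∑ n ∈ I.filter (fun n => n % N = r), F n * ee (α * n)‖ ≤ B := by
  have hN0 : (N : ℂ) ≠ 0 := by exact_mod_cast hN.ne'
  have hN1 : (N : ℝ) ≠ 0 := by exact_mod_cast hN.ne'
  have h1 : ∀ n : ℕ, (if n % N = r then (1 : ℂ) else 0) =
      (N : ℂ)⁻¹ * ∑ h ∈ range N, ee ((h : ℝ) * ((n : ℤ) - (r : ℤ) : ℤ) / N) := by
    intro n
    rw [sum_ee_mod N hN]
    by_cases h : n % N = r
    · have h2 : (N : ℤ) ∣ (n : ℤ) - (r : ℤ) := by
        rw [← h]
        exact_mod_cast (Int.dvd_self_sub_emod : (N : ℤ) ∣ (n : ℤ) - (n : ℤ) % (N : ℤ))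
      rw [if_pos h, if_pos h2, inv_mul_cancel₀ hN0]
    · have h2 : ¬ (N : ℤ) ∣ (n : ℤ) - (r : ℤ) := by
        intro h3
        apply h
        have h4 : (r : ℤ) ≡ (n : ℤ) [ZMOD (N : ℤ)] := Int.modEq_iff_dvd.2 h3
        have h5 : r ≡ n [MOD N] := Int.natCast_modEq_iff.1 h4
        have h6 : r % N = n % N := h5
        rw [← h6, Nat.mod_eq_of_lt hr]
      rw [if_neg h, if_neg h2, mul_zero]
  have h2 : ∑ n ∈ I.filter (fun n => n % N = r), F n * ee (α * n) =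
      (N : ℂ)⁻¹ * ∑ h ∈ range N, ee (-((h : ℝ) * r / N)) *
        ∑ n ∈ I, F n * ee ((α + (h : ℝ) / N) * n) := by
    rw [sum_filter]
    have h3 : ∀ n ∈ I, (if n % N = r then F n * ee (α * n) else 0) =
        (N : ℂ)⁻¹ * ∑ h ∈ range N, ee (-((h : ℝ) * r / N)) * (F n * ee ((α + (h : ℝ) / N) * n)) := by
      intro n _
      have h4 : (if n % N = r then F n * ee (α * n) else 0) =
          (if n % N = r then (1 : ℂ) else 0) * (F n * ee (α * n)) := by
        split_ifs <;> simp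
      rw [h4, h1, mul_assoc, sum_mul]
      congr 1
      refine sum_congr rfl fun h _ => ?_
      have h5 : ee ((h : ℝ) * ((n : ℤ) - (r : ℤ) : ℤ) / N) * ee (α * n) =
          ee (-((h : ℝ) * r / N)) * ee ((α + (h : ℝ) / N) * n) := by
        rw [← ee_add, ← ee_add]
        congr 1
        push_cast
        field_simp
        ring
      calc ee ((h : ℝ) * ((n : ℤ) - (r : ℤ) : ℤ) / N) * (F n * ee (α * n))
          = F n * (ee ((h : ℝ) * ((n : ℤ) - (r : ℤ) : ℤ) / N) * ee (α * n)) := by ring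
        _ = _ := by rw [h5]; ring
    rw [sum_congr rfl h3, ← mul_sum, sum_comm]
    congr 1
    refine sum_congr rfl fun h _ => ?_
    rw [mul_sum]
  rw [h2, norm_mul, norm_inv, Complex.norm_natCast]
  have h6 : ‖∑ h ∈ range N, ee (-((h : ℝ) * r / N)) * ∑ n ∈ I, F n * ee ((α + (h : ℝ) / N) * n)‖ ≤
      N * B := by
    refine (norm_sum_le _ _).trans ?_
    have h7 : ∀ h ∈ range N,
        ‖ee (-((h : ℝ) * r / N)) * ∑ n ∈ I, F n * ee ((α + (h : ℝ) / N) * n)‖ ≤ B := by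
      intro h _
      rw [norm_mul, norm_ee, one_mul]
      exact hB _
    refine (sum_le_sum h7).trans ?_
    rw [sum_const, card_range, nsmul_eq_mul]
  calc (N : ℝ)⁻¹ * ‖∑ h ∈ range N, ee (-((h : ℝ) * r / N)) *
        ∑ n ∈ I, F n * ee ((α + (h : ℝ) / N) * n)‖ ≤ (N : ℝ)⁻¹ * (N * B) := by
        gcongr
    _ = B := by field_simp

/-- the sums over intervals -/
theorem interval_bound (b L : ℕ) (γ κ D : ℝ) (hκ : 0 ≤ κ)
    (h : ∀ (α : ℝ) (x : ℕ), x ≤ b ^ L →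
      ‖∑ n ∈ range x, Lam n * ee (α * n + γ * revL b L n)‖ ≤ D ∧
      ‖∑ n ∈ range x, ee (α * n + γ * revL b L n)‖ ≤ D) (lo hi : ℕ) (hlh : lo ≤ hi)
    (hhi : hi ≤ b ^ L) (α : ℝ) :
    ‖∑ n ∈ Ico lo hi, (((ArithmeticFunction.vonMangoldt n - κ : ℝ) : ℂ) *
      ee (γ * revL b L n)) * ee (α * n)‖ ≤ 2 * (1 + κ) * D := by
  have h1 : ∀ x : ℕ, x ≤ b ^ L → ‖∑ n ∈ range x, (((ArithmeticFunction.vonMangoldt n - κ : ℝ) : ℂ) *
      ee (γ * revL b L n)) * ee (α * n)‖ ≤ (1 + κ) * D := by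
    intro x hx
    obtain ⟨h2, h3⟩ := h α x hx
    have h4 : ∑ n ∈ range x, (((ArithmeticFunction.vonMangoldt n - κ : ℝ) : ℂ) *
        ee (γ * revL b L n)) * ee (α * n) = ∑ n ∈ range x, Lam n * ee (α * n + γ * revL b L n) -
          (κ : ℂ) * ∑ n ∈ range x, ee (α * n + γ * revL b L n) := by
      rw [mul_sum, ← sum_sub_distrib]
      refine sum_congr rfl fun n _ => ?_
      rw [ee_add, Lam]
      push_cast
      ring
    rw [h4]
    refine (norm_sub_le _ _).trans ?_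
    rw [norm_mul, Complex.norm_real, Real.norm_eq_abs, abs_of_nonneg hκ]
    have h5 : κ * ‖∑ n ∈ range x, ee (α * n + γ * revL b L n)‖ ≤ κ * D :=
      mul_le_mul_of_nonneg_left h3 hκ
    linarith
  rw [sum_Ico_eq_sub _ hlh]
  refine (norm_sub_le _ _).trans ?_
  have h6 := h1 hi hhi
  have h7 := h1 lo (hlh.trans hhi)
  linarith

theorem filter_eq (b : ℕ) (hb : 2 ≤ b) (L a1 c K r : ℕ) (hL : 1 ≤ L) (ha1 : a1 < b) (hK : 1 ≤ K)
    (hr : r < b ^ K) (hrb : r.Coprime b) :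
    (SS b L a1 c).filter (fun n => n % b ^ K = r) =
      ((Ico (a1 * b ^ (L - 1)) ((a1 + 1) * b ^ (L - 1))).filter
        (fun n => n % (b ^ 2 - 1) = c)).filter (fun n => n % b ^ K = r) := by
  have hy : 0 < b ^ (L - 1) := by positivity
  have hbL : b ^ L = b * b ^ (L - 1) := by
    obtain ⟨L, rfl⟩ : ∃ L', L = L' + 1 := ⟨L - 1, by omega⟩
    rw [pow_succ, Nat.add_sub_cancel, mul_comm]
  ext n
  simp only [SS, mem_filter, mem_range, mem_Ico]
  constructor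
  · rintro ⟨⟨h1, h2, h3, h4⟩, h5⟩
    refine ⟨⟨⟨?_, ?_⟩, h3⟩, h5⟩
    · rw [← h2]
      exact Nat.div_mul_le_self n _
    · rw [← h2, add_mul, one_mul]
      exact Nat.lt_div_mul_add hy
  · rintro ⟨⟨⟨h1, h2⟩, h3⟩, h5⟩
    refine ⟨⟨?_, ?_, h3, ?_⟩, h5⟩
    · rw [hbL]
      refine h2.trans_le ?_
      exact Nat.mul_le_mul_right _ ha1
    · exact Nat.div_eq_of_lt_le h1 h2
    · have h6 : n ≡ r [MOD b ^ K] := by
        rw [Nat.ModEq, h5, Nat.mod_eq_of_lt hr]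
      have h7 : n ≡ r [MOD b] := h6.of_dvd (dvd_pow_self b (by omega))
      rw [Nat.Coprime, h7.gcd_eq]
      exact hrb

theorem filter_empty (b : ℕ) (L a1 c K r : ℕ) (hK : 1 ≤ K)
    (hr : r < b ^ K) (hrb : ¬ r.Coprime b) :
    (SS b L a1 c).filter (fun n => n % b ^ K = r) = ∅ := by
  rw [filter_eq_empty_iff]
  intro n hn h5
  simp only [SS, mem_filter] at hn
  have h6 : n ≡ r [MOD b ^ K] := by
    rw [Nat.ModEq, h5, Nat.mod_eq_of_lt hr]
  have h7 : n ≡ r [MOD b] := h6.of_dvd (dvd_pow_self b (by omega))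
  apply hrb
  rw [Nat.Coprime, ← h7.gcd_eq]
  exact hn.2.2.2

/-- the trivial bound for the weights -/
theorem weight_bound (b : ℕ) (hb : 2 ≤ b) (L a1 c : ℕ) (κ : ℝ) (hκ : 0 ≤ κ) :
    ∑ n ∈ SS b L a1 c, |ArithmeticFunction.vonMangoldt n - κ| ≤ (b : ℝ) ^ L * (L * b + κ) := by
  have h1 : ∀ n ∈ SS b L a1 c, |ArithmeticFunction.vonMangoldt n - κ| ≤ L * b + κ := by
    intro n hn
    simp only [SS, mem_filter, mem_range] at hn
    have h2 : (0 : ℝ) ≤ ArithmeticFunction.vonMangoldt n := ArithmeticFunction.vonMangoldt_nonneg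
    have h3 : ArithmeticFunction.vonMangoldt n ≤ Real.log n :=
      ArithmeticFunction.vonMangoldt_le_log
    have h4 : Real.log n ≤ L * b := by
      rcases Nat.eq_zero_or_pos n with h0 | h0
      · rw [h0]
        simp only [Nat.cast_zero, Real.log_zero]
        positivity
      · have h5 : Real.log n ≤ Real.log ((b : ℝ) ^ L) := by
          apply Real.log_le_log
          · exact_mod_cast h0
          · exact_mod_cast hn.1.le
        rw [Real.log_pow] at h5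
        have h6 : Real.log b ≤ b := by
          have := Real.log_le_sub_one_of_pos (show (0 : ℝ) < b by positivity)
          linarith
        exact h5.trans (by gcongr)
    rw [abs_le]
    constructor <;> linarith [show (0 : ℝ) ≤ L * b by positivity]
  refine (sum_le_sum h1).trans ?_
  rw [sum_const, nsmul_eq_mul]
  have h7 : ((SS b L a1 c).card : ℝ) ≤ (b : ℝ) ^ L := by
    have := (card_filter_le (range (b ^ L))
      (fun n => n / b ^ (L - 1) = a1 ∧ n % (b ^ 2 - 1) = c ∧ n.Coprime b))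
    rw [card_range] at this
    exact_mod_cast this
  gcongr

theorem exists_large (b : ℕ) (hb : 2 ≤ b) (E : ℝ) : ∃ L0 : ℕ, ∀ L : ℕ, L0 ≤ L →
    (L : ℝ) ^ E < (b : ℝ) ^ L := by
  obtain ⟨k, hk⟩ := exists_nat_ge E
  have h1 := tendsto_pow_const_div_const_pow_of_one_lt k (show (1 : ℝ) < 2 by norm_num)
  have h2 := h1.eventually (gt_mem_nhds (show (0 : ℝ) < 1 by norm_num))
  obtain ⟨L0, hL0⟩ := Filter.eventually_atTop.1 h2
  refine ⟨max L0 1, fun L hL => ?_⟩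
  have h3 := hL0 L ((le_max_left _ _).trans hL)
  have hL1 : (1 : ℝ) ≤ L := by exact_mod_cast (le_max_right _ _).trans hL
  rw [div_lt_one (by positivity)] at h3
  calc (L : ℝ) ^ E ≤ (L : ℝ) ^ (k : ℝ) := Real.rpow_le_rpow_of_exponent_le hL1 hk
    _ = (L : ℝ) ^ k := Real.rpow_natCast _ _
    _ < 2 ^ L := h3
    _ ≤ (b : ℝ) ^ L := by
        gcongr
        exact_mod_cast hb

end AltBAux

theorem altB (b : ℕ) (hb : 2 ≤ b) (A C : ℝ) : ∃ L0 : ℕ, ∀ L : ℕ, L0 ≤ L → ∀ a1 : ℕ, 1 ≤ a1 →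
    a1 < b → ∀ c : ℕ, c < b ^ 2 - 1 → c.Coprime (b ^ 2 - 1) → ∀ q : ℕ, 1 ≤ q →
    (q : ℝ) ≤ (L : ℝ) ^ C → ∀ a : ℤ, (∀ k : ℕ, ¬ (q : ℤ) ∣ a * ((b : ℤ) ^ 2 - 1) * (b : ℤ) ^ k) →
    ∀ β : ℝ, |β| ≤ (L : ℝ) ^ C / (b : ℝ) ^ L →
    ‖Hs b L a1 c ((a : ℝ) / q + β)‖ ≤ (b : ℝ) ^ L * (L : ℝ) ^ (-A) := by
  obtain ⟨c1, c2, hc1, hc2, L1, hkap⟩ := kap_bounds b hb
  set E : ℝ := max (A + C + 2) 0 with hE
  have hE0 : 0 ≤ E := le_max_right _ _
  have hE1 : A + C + 2 ≤ E := le_max_left _ _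
  obtain ⟨L2, hthm⟩ := thmB b hb (A + E + 1) C
  obtain ⟨L3, hlarge⟩ := AltBAux.exists_large b hb E
  obtain ⟨L4, hL4⟩ := exists_nat_ge (4 * b * (1 + c2))
  obtain ⟨L5, hL5⟩ := exists_nat_ge (4 * Real.pi * (b + c2))
  refine ⟨max (max (max L1 L2) (max L3 L4)) (max L5 1), ?_⟩
  intro L hL a1 ha1 ha1b c hc hcc q hq hqL a hqa β hβ
  have hLL1 : L1 ≤ L := by omega
  have hLL2 : L2 ≤ L := by omega
  have hLL3 : L3 ≤ L := by omega
  have hLL4 : L4 ≤ L := by omega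
  have hLL5 : L5 ≤ L := by omega
  have hL1 : 1 ≤ L := by omega
  have hLr : (1 : ℝ) ≤ L := by exact_mod_cast hL1
  have hLp : (0 : ℝ) < L := by linarith
  have hbr : (2 : ℝ) ≤ b := by exact_mod_cast hb
  obtain ⟨hk1, hk2⟩ := hkap L hLL1 a1 ha1 ha1b
  set κ := kap b L a1 with hκdef
  have hκ0 : 0 ≤ κ := by linarith
  have hLE : (1 : ℝ) ≤ (L : ℝ) ^ E := Real.one_le_rpow hLr hE0
  obtain ⟨K', hK1, hK2⟩ := exists_nat_pow_near hLE (show (1 : ℝ) < b by linarith)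
  set K := K' + 1 with hK
  have hKL : K ≤ L := by
    by_contra h
    have h1 : L ≤ K' := by omega
    have h2 : (b : ℝ) ^ L ≤ (b : ℝ) ^ K' := pow_le_pow_right₀ (by linarith) h1
    have h3 := hlarge L hLL3
    linarith
  have hm : 0 < b ^ 2 - 1 := by
    have : 2 ^ 2 ≤ b ^ 2 := Nat.pow_le_pow_left hb 2
    omega
  -- the classes
  have hcls : ∀ r ∈ range (b ^ K), ‖∑ n ∈ (SS b L a1 c).filter (fun n => n % b ^ K = r),
      ((ArithmeticFunction.vonMangoldt n - κ : ℝ) : ℂ) * ee ((a : ℝ) / q * revL b L n)‖ ≤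
      2 * (1 + c2) * ((b : ℝ) ^ L * (L : ℝ) ^ (-(A + E + 1))) := by
    intro r hr
    rw [mem_range] at hr
    have hD : (0 : ℝ) ≤ (b : ℝ) ^ L * (L : ℝ) ^ (-(A + E + 1)) := by positivity
    by_cases hrb : r.Coprime b
    · rw [AltBAux.filter_eq b hb L a1 c K r hL1 ha1b (by omega) hr hrb]
      have h1 := AltBAux.interval_bound b L ((a : ℝ) / q) κ _ hκ0 (hthm L hLL2 q hq hqL a hqa)
        (a1 * b ^ (L - 1)) ((a1 + 1) * b ^ (L - 1)) (by gcongr; omega) (by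
          have hbL : b ^ L = b * b ^ (L - 1) := by
            obtain ⟨L', rfl⟩ : ∃ L', L = L' + 1 := ⟨L - 1, by omega⟩
            rw [pow_succ, Nat.add_sub_cancel, mul_comm]
          rw [hbL]
          exact Nat.mul_le_mul_right _ ha1b)
      have h2 := AltBAux.class_bound _ _ _ h1 (b ^ 2 - 1) c hm hc
      have h3 := AltBAux.class_bound _ _ _ h2 (b ^ K) r (by positivity) hr 0
      simp only [zero_mul, ee_zero, mul_one] at h3
      refine h3.trans ?_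
      gcongr
    · rw [AltBAux.filter_empty b L a1 c K r (by omega) hr hrb]
      simp only [sum_empty, norm_zero]
      positivity
  have hbeta := beta b hb L K a1 c hKL ((a : ℝ) / q) β
    (fun n => ArithmeticFunction.vonMangoldt n - κ)
  have hw := AltBAux.weight_bound b hb L a1 c κ hκ0
  rw [Hs]
  refine hbeta.trans ?_
  have hT1 : ∑ r ∈ range (b ^ K), ‖∑ n ∈ (SS b L a1 c).filter (fun n => n % b ^ K = r),
      ((ArithmeticFunction.vonMangoldt n - κ : ℝ) : ℂ) * ee ((a : ℝ) / q * revL b L n)‖ ≤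
      (b : ℝ) ^ L * (L : ℝ) ^ (-A) / 2 := by
    refine (sum_le_sum hcls).trans ?_
    rw [sum_const, card_range, nsmul_eq_mul]
    have h1 : ((b ^ K : ℕ) : ℝ) ≤ b * (L : ℝ) ^ E := by
      push_cast
      rw [hK, pow_succ, mul_comm]
      gcongr
    have h2 : (L : ℝ) ^ (-(A + E + 1)) = (L : ℝ) ^ (-A) * ((L : ℝ) ^ E)⁻¹ * (L : ℝ)⁻¹ := by
      rw [← Real.rpow_neg hLp.le, ← Real.rpow_neg_one (L : ℝ), ← Real.rpow_add hLp,
        ← Real.rpow_add hLp]
      congr 1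
      ring
    have hEp : (0 : ℝ) < (L : ℝ) ^ E := by positivity
    calc ((b ^ K : ℕ) : ℝ) * (2 * (1 + c2) * ((b : ℝ) ^ L * (L : ℝ) ^ (-(A + E + 1))))
        ≤ (b * (L : ℝ) ^ E) * (2 * (1 + c2) * ((b : ℝ) ^ L * (L : ℝ) ^ (-(A + E + 1)))) := by
          gcongr
      _ = (b : ℝ) ^ L * (L : ℝ) ^ (-A) / 2 * ((4 * b * (1 + c2)) / L) := by
          rw [h2]
          field_simp
          ring
      _ ≤ (b : ℝ) ^ L * (L : ℝ) ^ (-A) / 2 * 1 := by
          gcongr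
          rw [div_le_one hLp]
          refine hL4.trans ?_
          exact_mod_cast hLL4
      _ = _ := mul_one _
  have hT2 : 2 * Real.pi * |β| * (b : ℝ) ^ (L - K) *
      ∑ n ∈ SS b L a1 c, |ArithmeticFunction.vonMangoldt n - κ| ≤
      (b : ℝ) ^ L * (L : ℝ) ^ (-A) / 2 := by
    have hbK : (b : ℝ) ^ (L - K) * (L : ℝ) ^ E ≤ (b : ℝ) ^ L := by
      have h1 : (b : ℝ) ^ (L - K) * (b : ℝ) ^ K = (b : ℝ) ^ L := by
        rw [← pow_add, Nat.sub_add_cancel hKL]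
      rw [← h1]
      gcongr
    have hw2 : ∑ n ∈ SS b L a1 c, |ArithmeticFunction.vonMangoldt n - κ| ≤
        (b : ℝ) ^ L * ((b + c2) * L) := by
      refine hw.trans ?_
      gcongr
      nlinarith
    have hbLp : (0 : ℝ) < (b : ℝ) ^ L := by positivity
    have h2 : (L : ℝ) ^ C * L ≤ (L : ℝ) ^ (-A) * (L : ℝ) ^ E * (L : ℝ)⁻¹ := by
      have h3 : (L : ℝ) ^ C * L = (L : ℝ) ^ (C + 1) := by
        rw [Real.rpow_add hLp, Real.rpow_one]
      rw [h3, ← Real.rpow_neg_one (L : ℝ), ← Real.rpow_add hLp, ← Real.rpow_add hLp]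
      apply Real.rpow_le_rpow_of_exponent_le hLr
      linarith
    calc 2 * Real.pi * |β| * (b : ℝ) ^ (L - K) *
        ∑ n ∈ SS b L a1 c, |ArithmeticFunction.vonMangoldt n - κ|
        ≤ 2 * Real.pi * ((L : ℝ) ^ C / (b : ℝ) ^ L) * (b : ℝ) ^ (L - K) *
          ((b : ℝ) ^ L * ((b + c2) * L)) := by gcongr
      _ = 2 * Real.pi * (b + c2) * (b : ℝ) ^ (L - K) * ((L : ℝ) ^ C * L) := by
          field_simp
      _ ≤ 2 * Real.pi * (b + c2) * (b : ℝ) ^ (L - K) *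
          ((L : ℝ) ^ (-A) * (L : ℝ) ^ E * (L : ℝ)⁻¹) := by gcongr
      _ = ((b : ℝ) ^ (L - K) * (L : ℝ) ^ E) * ((L : ℝ) ^ (-A) / 2 *
          ((4 * Real.pi * (b + c2)) / L)) := by
          field_simp
          ring
      _ ≤ (b : ℝ) ^ L * ((L : ℝ) ^ (-A) / 2 * 1) := by
          gcongr
          rw [div_le_one hLp]
          refine hL5.trans ?_
          exact_mod_cast hLL5
      _ = _ := by ring
  linarith

end Pool.Agent.H10.RP
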