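import Pool.Agent.H10.RP.Rev

/-!
# Reversed primes: major arcs where the primes have no main term (job RP-19c)

`Hs b L a1 c α = ∑_{n ∈ SS} (Λ n - kap) ee (α revL n)`. `m = b² - 1`.

PROOF of `altC` (`gcd (a, q) = 1`, `q ∤ b m`, `q ∣ m b ^ k` for some `k`). All prime factors of `q` divide `b m`, and
`q` is not squarefree (else `q ∣ b m`), so `expo_nonsq` with `R = b m` applies (`x = X ≥ b ^ L`, `log X ~ L log b`).
-/

set_option autoImplicit false

open Finset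

namespace Pool.Agent.H10.RP

private lemma altC_pow {b : ℕ} (hb : 2 ≤ b) {L X : ℕ} (hL : 4 ≤ L) (hX : b ^ L ≤ X) {e D : ℝ}
    (he : |e| ≤ D) : (L : ℝ) ^ e ≤ (Real.log X) ^ (2 * D) := by
  have hL1 : (1 : ℝ) ≤ L := by exact_mod_cast (by omega : 1 ≤ L)
  have hL4 : (4 : ℝ) ≤ L := by exact_mod_cast hL
  have hX1 : (2 : ℝ) ^ L ≤ X := by
    have h1 : 2 ^ L ≤ X := (Nat.pow_le_pow_left hb L).trans hX
    exact_mod_cast h1
  have hlog : (L : ℝ) * Real.log 2 ≤ Real.log X := by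
    have h1 := Real.log_le_log (by positivity) hX1
    rwa [Real.log_pow] at h1
  have hl2 := Real.log_two_gt_d9
  have hlog2 : (L : ℝ) / 2 ≤ Real.log X := by
    have h2 : (L : ℝ) / 2 ≤ L * Real.log 2 := by nlinarith
    linarith
  have h2 : (2 : ℝ) ≤ Real.log X := by linarith
  have hL2 : (L : ℝ) ≤ (Real.log X) ^ (2 : ℝ) := by
    rw [Real.rpow_two]
    nlinarith
  have hD : 0 ≤ D := (abs_nonneg e).trans he
  calc (L : ℝ) ^ e ≤ (L : ℝ) ^ D := Real.rpow_le_rpow_of_exponent_le hL1 ((le_abs_self e).trans he)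
    _ ≤ ((Real.log X) ^ (2 : ℝ)) ^ D := Real.rpow_le_rpow (by positivity) hL2 hD
    _ = (Real.log X) ^ (2 * D) := by rw [← Real.rpow_mul (by linarith)]

theorem altC (b : ℕ) (hb : 2 ≤ b) (A C : ℝ) : ∃ L0 : ℕ, ∀ L : ℕ, L0 ≤ L → ∀ X : ℕ, b ^ L ≤ X →
    X ≤ b ^ (L + 3) → ∀ q : ℕ, 1 ≤ q → (q : ℝ) ≤ (L : ℝ) ^ C → ¬ q ∣ b * (b ^ 2 - 1) →
    (∃ k : ℕ, q ∣ (b ^ 2 - 1) * b ^ k) → ∀ a : ℤ, IsCoprime a (q : ℤ) →
    ∀ β : ℝ, |β| ≤ (L : ℝ) ^ C / X →
    ‖∑ n ∈ range X, Lam n * ee (((a : ℝ) / q + β) * n)‖ ≤ X * (L : ℝ) ^ (-A) := by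
  have hb2 : 0 < b ^ 2 - 1 := by
    have : 2 ^ 2 ≤ b ^ 2 := Nat.pow_le_pow_left hb 2
    omega
  have hR : b * (b ^ 2 - 1) ≠ 0 := by
    have : 0 < b := by omega
    positivity
  obtain ⟨x0, hx0⟩ := expo_nonsq (b * (b ^ 2 - 1)) hR (2 * max |A| |C|)
  refine ⟨max x0 4, fun L hL X hX _ q hq hqC hnd hk a ha β hβ => ?_⟩
  have hL4 : 4 ≤ L := (le_max_right _ _).trans hL
  have hL0 : (0 : ℝ) < L := by exact_mod_cast (by omega : 0 < L)
  have hXL : L ≤ X := by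
    have h1 : L < 2 ^ L := Nat.lt_two_pow_self
    have h2 : 2 ^ L ≤ b ^ L := Nat.pow_le_pow_left hb L
    omega
  have hXpos : (0 : ℝ) < X := by exact_mod_cast (by omega : 0 < X)
  have hC := altC_pow hb hL4 hX (le_max_right |A| |C|)
  have hA := altC_pow hb hL4 hX (le_max_left |A| |C|)
  have hsub : q.primeFactors ⊆ (b * (b ^ 2 - 1)).primeFactors := by
    intro p hp
    obtain ⟨k, hk⟩ := hk
    have hpp := Nat.prime_of_mem_primeFactors hp
    have hpq := Nat.dvd_of_mem_primeFactors hp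
    refine Nat.mem_primeFactors.2 ⟨hpp, ?_, hR⟩
    rcases (Nat.Prime.dvd_mul hpp).1 (hpq.trans hk) with h | h
    · exact h.mul_left b
    · exact (hpp.dvd_of_dvd_pow h).mul_right _
  have hsq : ¬ Squarefree q := by
    intro h
    apply hnd
    rw [← Nat.prod_primeFactors_of_squarefree h]
    exact (Finset.prod_dvd_prod_of_subset _ _ _ hsub).trans (Nat.prod_primeFactors_dvd _)
  have hmain := hx0 X (((le_max_left _ _).trans hL).trans hXL) q hq (hqC.trans hC) hsub hsq a ha β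
    (hβ.trans (div_le_div_of_nonneg_right hC hXpos.le))
  refine hmain.trans (mul_le_mul_of_nonneg_left ?_ hXpos.le)
  have hlogpos : 0 ≤ Real.log X := Real.log_natCast_nonneg X
  rw [Real.rpow_neg hlogpos, Real.rpow_neg hL0.le]
  exact inv_anti₀ (Real.rpow_pos_of_pos hL0 _) hA


end Pool.Agent.H10.RP
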