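import Pool.Agent.H10.RP.AltA
import Pool.Agent.H10.RP.AltB
import Pool.Agent.H10.RP.AltC
import Pool.Agent.H10.RP.Vino

/-!
# Reversed primes: at every frequency one of the two exponential sums is small (job RP-19d)

`Hs b L a1 c α = ∑_{n ∈ SS} (Λ n - kap) ee (α revL n)`. `m = b² - 1`.

PROOF of `alt`. Let `Q = ⌈L ^ C⌉` with `C = 2 A + 30`, and `P = L ^ C`. Dirichlet
(`Real.exists_int_int_abs_mul_sub_le` or `exists_rat_abs_sub_le_and_den_le`): `q ≤ X / P`, `gcd (a, q) = 1`,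
`|α - a / q| ≤ P / (q X)`. If `q ≤ Q`: `β = α - a / q`, `|β| ≤ P / X`, and one of `altA`, `altB`, `altC`
applies (if `q ∣ a m b ^ k` then `q ∣ m b ^ k` by coprimality). If `q > Q`: `P / (q X) ≤ 1 / q²`, and `vinog` gives
`|∑ Λ ee| ≤ C' (X Q ^ (-1/2) + X ^ (5/6) + √(X * X / P)) (log X) ^ 12 ≤ X L ^ (-A)`.
-/

set_option autoImplicit false

open Finset

namespace Pool.Agent.H10.RP

theorem alt_growth (s c : ℝ) (hc : 0 < c) : ∃ L0 : ℕ, ∀ L : ℕ, L0 ≤ L →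
    (L : ℝ) ^ s ≤ Real.exp (c * L) := by
  have h := (tendsto_rpow_mul_exp_neg_mul_atTop_nhds_zero s c hc).comp
    (tendsto_natCast_atTop_atTop (R := ℝ))
  have h2 := h.eventually (gt_mem_nhds (zero_lt_one' ℝ))
  obtain ⟨L0, hL0⟩ := Filter.eventually_atTop.1 h2
  refine ⟨L0, fun L hL => ?_⟩
  have h3 := hL0 L hL
  simp only [Function.comp_apply] at h3
  have h4 : Real.exp (-c * L) = (Real.exp (c * L))⁻¹ := by
    rw [← Real.exp_neg]; ring_nf
  rw [h4, ← div_eq_mul_inv, div_lt_one (Real.exp_pos _)] at h3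
  exact h3.le

/-- the minor arcs -/
theorem alt_minor (b : ℕ) (hb : 2 ≤ b) (A : ℝ) : ∃ L0 : ℕ, ∀ L : ℕ, L0 ≤ L →
    ∀ X : ℕ, b ^ L ≤ X → X ≤ b ^ (L + 3) → ∀ (α : ℝ) (q : ℕ) (a : ℤ), IsCoprime a (q : ℤ) →
    (L : ℝ) ^ (2 * A + 30) < q → (q : ℝ) ≤ X / (L : ℝ) ^ (2 * A + 30) →
    |α - (a : ℝ) / q| ≤ 1 / (q : ℝ) ^ 2 →
    ‖∑ n ∈ range X, Lam n * ee (α * n)‖ ≤ X * (L : ℝ) ^ (-A) := by
  obtain ⟨V, hV0, hV⟩ := vinog
  have hb1 : (1 : ℝ) < b := by exact_mod_cast hb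
  have hlb : 0 < Real.log b := Real.log_pos hb1
  obtain ⟨L1, hL1⟩ := alt_growth (A + 15) (Real.log b / 6) (by positivity)
  obtain ⟨L2, hL2⟩ := exists_nat_ge (3 * V * (4 * Real.log b) ^ 12)
  refine ⟨L1 + L2 + 2, ?_⟩
  intro L hL X hX1 hX2 α q a haq hq1 hq2 hα
  have hLpos : (0 : ℝ) < L := by
    have : 0 < L := by omega
    exact_mod_cast this
  have hL1' : (1 : ℝ) ≤ L := by
    have : 1 ≤ L := by omega
    exact_mod_cast this
  have hXb : (b : ℝ) ^ L ≤ X := by exact_mod_cast hX1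
  have hX3 : 3 ≤ X := by
    have h1 : 2 ^ 2 ≤ b ^ L :=
      (Nat.pow_le_pow_left hb 2).trans (Nat.pow_le_pow_right (by omega) (by omega))
    omega
  have hXpos : (0 : ℝ) < X := by
    have : 0 < X := by omega
    exact_mod_cast this
  have hLP : 0 < (L : ℝ) ^ (2 * A + 30) := Real.rpow_pos_of_pos hLpos _
  have hqpos : (0 : ℝ) < q := hLP.trans hq1
  have hq1' : 1 ≤ q := by
    have : 0 < q := by exact_mod_cast hqpos
    omega
  have hv := hV X hX3 α q hq1' a haq hα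
  set D : ℝ := (L : ℝ) ^ (A + 15) with hD
  have hDpos : 0 < D := Real.rpow_pos_of_pos hLpos _
  have hDD : D ^ 2 = (L : ℝ) ^ (2 * A + 30) := by
    rw [hD, ← Real.rpow_natCast, ← Real.rpow_mul hLpos.le]
    congr 1
    push_cast
    ring
  -- the three terms
  have t1 : (X : ℝ) / Real.sqrt q ≤ X / D := by
    apply div_le_div_of_nonneg_left hXpos.le hDpos
    apply Real.le_sqrt_of_sq_le
    rw [hDD]
    exact hq1.le
  have t2 : (X : ℝ) ^ (5 / 6 : ℝ) ≤ X / D := by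
    have h1 : (X : ℝ) ^ (5 / 6 : ℝ) = X / (X : ℝ) ^ (1 / 6 : ℝ) := by
      rw [eq_div_iff (Real.rpow_pos_of_pos hXpos _).ne', ← Real.rpow_add hXpos]
      norm_num
    rw [h1]
    apply div_le_div_of_nonneg_left hXpos.le hDpos
    have h2 := hL1 L (by omega)
    refine h2.trans ?_
    have h3 : Real.exp (Real.log b / 6 * L) = ((b : ℝ) ^ L) ^ (1 / 6 : ℝ) := by
      rw [← Real.rpow_natCast, ← Real.rpow_mul (by positivity), Real.rpow_def_of_pos (by positivity)]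
      congr 1
      ring
    rw [h3]
    exact Real.rpow_le_rpow (by positivity) hXb (by norm_num)
  have t3 : Real.sqrt (X * q) ≤ X / D := by
    apply Real.sqrt_le_iff.2
    refine ⟨by positivity, ?_⟩
    rw [div_pow, hDD]
    calc (X : ℝ) * q ≤ X * (X / (L : ℝ) ^ (2 * A + 30)) :=
          mul_le_mul_of_nonneg_left hq2 hXpos.le
      _ = (X : ℝ) ^ 2 / (L : ℝ) ^ (2 * A + 30) := by ring
  have hlog : Real.log X ≤ 4 * Real.log b * L := by
    have h1 : Real.log X ≤ Real.log ((b : ℝ) ^ (L + 3)) := by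
      apply Real.log_le_log hXpos
      exact_mod_cast hX2
    rw [Real.log_pow] at h1
    push_cast at h1
    nlinarith
  have hlog0 : 0 ≤ Real.log X := Real.log_nonneg (by
    have : 1 ≤ X := by omega
    exact_mod_cast this)
  have hlog12 : (Real.log X) ^ 12 ≤ (4 * Real.log b) ^ 12 * (L : ℝ) ^ 12 := by
    rw [← mul_pow]
    exact pow_le_pow_left₀ hlog0 hlog 12
  have hsum : (X : ℝ) / Real.sqrt q + (X : ℝ) ^ (5 / 6 : ℝ) + Real.sqrt (X * q) ≤ 3 * (X / D) := by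
    linarith
  have hfin : V * (3 * (X / D)) * ((4 * Real.log b) ^ 12 * (L : ℝ) ^ 12) ≤ X * (L : ℝ) ^ (-A) := by
    have h1 : (L : ℝ) ^ (-A) = (L : ℝ) ^ 12 * (L : ℝ) ^ 3 / D := by
      rw [hD, eq_div_iff hDpos.ne', ← Real.rpow_add hLpos, ← pow_add, ← Real.rpow_natCast]
      congr 1
      push_cast
      ring
    rw [h1]
    have h2 : 3 * V * (4 * Real.log b) ^ 12 ≤ (L : ℝ) ^ 3 := by
      have h3 : (L2 : ℝ) ≤ L := by
        have : L2 ≤ L := by omega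
        exact_mod_cast this
      have h4 : (L : ℝ) ≤ (L : ℝ) ^ 3 := by
        have := pow_le_pow_right₀ hL1' (show 1 ≤ 3 by norm_num)
        simpa using this
      linarith
    have h5 : V * (3 * (X / D)) * ((4 * Real.log b) ^ 12 * (L : ℝ) ^ 12) =
        (3 * V * (4 * Real.log b) ^ 12) * (X * (L : ℝ) ^ 12 / D) := by ring
    have h6 : (X : ℝ) * ((L : ℝ) ^ 12 * (L : ℝ) ^ 3 / D) =
        (L : ℝ) ^ 3 * (X * (L : ℝ) ^ 12 / D) := by ring
    rw [h5, h6]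
    exact mul_le_mul_of_nonneg_right h2 (by positivity)
  calc ‖∑ n ∈ range X, Lam n * ee (α * n)‖
      ≤ V * (X / Real.sqrt q + (X : ℝ) ^ (5 / 6 : ℝ) + Real.sqrt (X * q)) * (Real.log X) ^ 12 := hv
    _ ≤ V * (3 * (X / D)) * ((4 * Real.log b) ^ 12 * (L : ℝ) ^ 12) := by
        apply mul_le_mul _ hlog12 (by positivity) (by positivity)
        exact mul_le_mul_of_nonneg_left hsum hV0.le
    _ ≤ X * (L : ℝ) ^ (-A) := hfin

theorem alt_nonneg (b : ℕ) (hb : 2 ≤ b) (A : ℝ) (_hA : 0 ≤ A) : ∃ L0 : ℕ, ∀ L : ℕ, L0 ≤ L →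
    ∀ a1 : ℕ, 1 ≤ a1 → a1 < b → ∀ c : ℕ, c < b ^ 2 - 1 → c.Coprime (b ^ 2 - 1) → ∀ X : ℕ,
    b ^ L ≤ X → X ≤ b ^ (L + 3) → ∀ α : ℝ, ‖Hs b L a1 c α‖ ≤ X * (L : ℝ) ^ (-A) ∨
      ‖∑ n ∈ range X, Lam n * ee (α * n)‖ ≤ X * (L : ℝ) ^ (-A) := by
  obtain ⟨LA, hLA⟩ := altA b hb A (2 * A + 30)
  obtain ⟨LB, hLB⟩ := altB b hb A (2 * A + 30)
  obtain ⟨LC, hLC⟩ := altC b hb A (2 * A + 30)
  obtain ⟨LM, hLM⟩ := alt_minor b hb A
  have hb1 : (1 : ℝ) < b := by exact_mod_cast hb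
  have hlb : 0 < Real.log b := Real.log_pos hb1
  obtain ⟨L1, hL1⟩ := alt_growth (2 * A + 30) (Real.log b) hlb
  refine ⟨LA + LB + LC + LM + L1 + 1, ?_⟩
  intro L hL a1 ha1 ha1b c hc hcc X hX1 hX2 α
  have hLpos : (0 : ℝ) < L := by
    have : 0 < L := by omega
    exact_mod_cast this
  have hXb : (b : ℝ) ^ L ≤ X := by exact_mod_cast hX1
  have hbL : (0 : ℝ) < (b : ℝ) ^ L := by positivity
  have hXpos : (0 : ℝ) < X := hbL.trans_le hXb
  set P : ℝ := (L : ℝ) ^ (2 * A + 30) with hP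
  have hPpos : 0 < P := Real.rpow_pos_of_pos hLpos _
  have hPX : P ≤ X := by
    refine le_trans (le_trans (hL1 L (by omega)) ?_) hXb
    apply le_of_eq
    rw [← Real.rpow_natCast, Real.rpow_def_of_pos (by positivity)]
  have hN : 0 < ⌊(X : ℝ) / P⌋₊ := Nat.floor_pos.2 ((one_le_div hPpos).2 hPX)
  obtain ⟨r, hr1, hr2⟩ := Real.exists_rat_abs_sub_le_and_den_le α hN
  have hden : 0 < r.den := r.den_pos
  have hdenR : (0 : ℝ) < r.den := by exact_mod_cast hden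
  have hr3 : (r.den : ℝ) ≤ X / P := by
    have h1 : (r.den : ℝ) ≤ (⌊(X : ℝ) / P⌋₊ : ℝ) := by exact_mod_cast hr2
    exact h1.trans (Nat.floor_le (by positivity))
  have hcast : ((r : ℚ) : ℝ) = (r.num : ℝ) / (r.den : ℝ) := by
    conv_lhs => rw [← Rat.num_div_den r]
    push_cast
    rfl
  rw [hcast] at hr1
  have hr4 : |α - (r.num : ℝ) / (r.den : ℝ)| ≤ P / (X * r.den) := by
    refine hr1.trans ?_
    rw [div_le_div_iff₀ (by positivity) (by positivity)]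
    have h1 : (X : ℝ) / P < (⌊(X : ℝ) / P⌋₊ : ℝ) + 1 := Nat.lt_floor_add_one _
    rw [div_lt_iff₀ hPpos] at h1
    nlinarith
  have hcop : IsCoprime r.num (r.den : ℤ) := by
    rw [Int.isCoprime_iff_gcd_eq_one]
    exact r.reduced
  by_cases hq : (r.den : ℝ) ≤ P
  · have hβ : |α - (r.num : ℝ) / (r.den : ℝ)| ≤ P / X := by
      refine hr4.trans ?_
      apply div_le_div_of_nonneg_left hPpos.le hXpos
      have h1 : (1 : ℝ) ≤ r.den := by exact_mod_cast hden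
      nlinarith
    have hβ' : |α - (r.num : ℝ) / (r.den : ℝ)| ≤ P / (b : ℝ) ^ L :=
      hβ.trans (div_le_div_of_nonneg_left hPpos.le hbL hXb)
    have hα : (r.num : ℝ) / (r.den : ℝ) + (α - (r.num : ℝ) / (r.den : ℝ)) = α := by ring
    have hup : (b : ℝ) ^ L * (L : ℝ) ^ (-A) ≤ X * (L : ℝ) ^ (-A) :=
      mul_le_mul_of_nonneg_right hXb (Real.rpow_nonneg hLpos.le _)
    by_cases h1 : r.den ∣ b * (b ^ 2 - 1)
    · left
      have h2 := hLA L (by omega) a1 ha1 ha1b c hc hcc r.den h1 r.num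
        (α - (r.num : ℝ) / (r.den : ℝ)) hβ'
      rw [hα] at h2
      exact h2.trans hup
    · by_cases h2 : ∃ k : ℕ, r.den ∣ (b ^ 2 - 1) * b ^ k
      · right
        have h3 := hLC L (by omega) X hX1 hX2 r.den hden hq h1 h2 r.num hcop
          (α - (r.num : ℝ) / (r.den : ℝ)) hβ
        rw [hα] at h3
        exact h3
      · left
        have h4 : ∀ k : ℕ, ¬ (r.den : ℤ) ∣ r.num * ((b : ℤ) ^ 2 - 1) * (b : ℤ) ^ k := by
          intro k hk
          apply h2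
          refine ⟨k, ?_⟩
          rw [mul_assoc] at hk
          have h5 : (r.den : ℤ) ∣ ((b : ℤ) ^ 2 - 1) * (b : ℤ) ^ k :=
            hcop.symm.dvd_of_dvd_mul_left hk
          have h6 : (((b ^ 2 - 1) * b ^ k : ℕ) : ℤ) = ((b : ℤ) ^ 2 - 1) * (b : ℤ) ^ k := by
            rw [Nat.cast_mul, Nat.cast_sub (Nat.one_le_pow _ _ (by omega))]
            push_cast
            ring
          rw [← h6] at h5
          exact_mod_cast h5
        have h3 := hLB L (by omega) a1 ha1 ha1b c hc hcc r.den hden hq r.num h4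
          (α - (r.num : ℝ) / (r.den : ℝ)) hβ'
        rw [hα] at h3
        exact h3.trans hup
  · right
    rw [not_le] at hq
    apply hLM L (by omega) X hX1 hX2 α r.den r.num hcop hq hr3
    refine hr4.trans ?_
    rw [div_le_div_iff₀ (by positivity) (by positivity)]
    have h1 : (r.den : ℝ) * P ≤ X := (le_div_iff₀ hPpos).1 hr3
    nlinarith

theorem alt (b : ℕ) (hb : 2 ≤ b) (A : ℝ) : ∃ L0 : ℕ, ∀ L : ℕ, L0 ≤ L → ∀ a1 : ℕ, 1 ≤ a1 →
    a1 < b → ∀ c : ℕ, c < b ^ 2 - 1 → c.Coprime (b ^ 2 - 1) → ∀ X : ℕ, b ^ L ≤ X →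
    X ≤ b ^ (L + 3) → ∀ α : ℝ, ‖Hs b L a1 c α‖ ≤ X * (L : ℝ) ^ (-A) ∨
      ‖∑ n ∈ range X, Lam n * ee (α * n)‖ ≤ X * (L : ℝ) ^ (-A) := by
  obtain ⟨L0, hL0⟩ := alt_nonneg b hb (max A 0) (le_max_right _ _)
  refine ⟨L0 + 1, ?_⟩
  intro L hL a1 ha1 ha1b c hc hcc X hX1 hX2 α
  have h1 : (1 : ℝ) ≤ L := by
    have : 1 ≤ L := by omega
    exact_mod_cast this
  have h2 : (X : ℝ) * (L : ℝ) ^ (-(max A 0)) ≤ X * (L : ℝ) ^ (-A) := by
    apply mul_le_mul_of_nonneg_left _ (Nat.cast_nonneg X)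
    apply Real.rpow_le_rpow_of_exponent_le h1
    have := le_max_left A 0
    linarith
  rcases hL0 L (by omega) a1 ha1 ha1b c hc hcc X hX1 hX2 α with h | h
  · exact Or.inl (h.trans h2)
  · exact Or.inr (h.trans h2)

end Pool.Agent.H10.RP
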