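import Pool.Agent.H10.RP.Rev

/-!
# Reversed primes: major arcs at divisors of `b (b² - 1)` (job RP-19a)

`Hs b L a1 c α = ∑_{n ∈ SS} (Λ n - kap) ee (α revL n)`. `m = b² - 1`.

PROOF of `altA` (`q ∣ b m`). `beta` with `γ = a / q`, `w n = Λ n - kap`, and `K` with `b ^ K` between `L ^ (A + C + 1)` and
`b L ^ (A + C + 1)`: on `SS` the residue of `revL n` mod `b m` is constant (`revL_modEq`, `revL_mod_b`,
`n / b ^ (L - 1) = a1`, `n % m = c`, `gcd (b, m) = 1`), so `ee (γ revL n)` is constant and the first sum is at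
most `b ^ K` times the bound of `equi` (large exponent). The second term is at most
`2π L ^ C / b ^ L * b ^ (L - K) * O(b ^ L)` (`kap_bounds`; Chebyshev).
-/

set_option autoImplicit false

open Finset

namespace Pool.Agent.H10.RP

theorem altA_const (b : ℕ) (hb : 2 ≤ b) (L : ℕ) (hL : 1 ≤ L) (a1 c q : ℕ)
    (hq : q ∣ b * (b ^ 2 - 1)) (a : ℤ) {n n' : ℕ} (hn : n ∈ SS b L a1 c)
    (hn' : n' ∈ SS b L a1 c) :
    ee ((a : ℝ) / q * revL b L n) = ee ((a : ℝ) / q * revL b L n') := by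
  obtain ⟨h1, h2, h3, -⟩ := (Finset.mem_filter.1 hn)
  obtain ⟨h1', h2', h3', -⟩ := (Finset.mem_filter.1 hn')
  rw [Finset.mem_range] at h1 h1'
  have hb2 : 3 ≤ b ^ 2 - 1 := by
    have : 2 ^ 2 ≤ b ^ 2 := Nat.pow_le_pow_left hb 2
    omega
  have hcop : Nat.Coprime b (b ^ 2 - 1) := by
    rw [Nat.coprime_comm]
    have h4 : 1 ≤ b ^ 2 := by omega
    have : Nat.Coprime (b ^ 2 - 1) (b ^ 2) := by
      have := Nat.coprime_self_sub_right (m := 1) (n := b ^ 2) h4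
      exact Nat.coprime_comm.1 (this.2 (by simp))
    exact Nat.Coprime.coprime_dvd_right (dvd_pow_self b (by norm_num)) this
  have e1 : revL b L n ≡ revL b L n' [MOD b] := by
    refine (revL_mod_b b hb L n h1 hL).trans ((?_ : _ ≡ _ [MOD b]).trans
      (revL_mod_b b hb L n' h1' hL).symm)
    rw [h2, h2']
  have e2 : revL b L n ≡ revL b L n' [MOD (b ^ 2 - 1)] := by
    refine (revL_modEq b hb L n h1 hL).trans ((?_ : _ ≡ _ [MOD (b ^ 2 - 1)]).trans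
      (revL_modEq b hb L n' h1' hL).symm)
    refine Nat.ModEq.mul_left _ ?_
    rw [Nat.ModEq, h3, h3']
  have e3 : revL b L n ≡ revL b L n' [MOD (b * (b ^ 2 - 1))] :=
    (Nat.modEq_and_modEq_iff_modEq_mul hcop).1 ⟨e1, e2⟩
  have e4 : revL b L n ≡ revL b L n' [MOD q] := e3.of_dvd hq
  have hq0 : (q : ℝ) ≠ 0 := by
    have : q ≠ 0 := by
      rintro rfl
      have h0 := Nat.eq_zero_of_zero_dvd hq
      have : 0 < b * (b ^ 2 - 1) := Nat.mul_pos (by omega) (by omega)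
      omega
    exact_mod_cast this
  obtain ⟨t, ht⟩ := (Nat.modEq_iff_dvd.1 e4.symm)
  refine ee_congr ⟨a * t, ?_⟩
  have ht' : (revL b L n : ℝ) - revL b L n' = q * t := by
    exact_mod_cast ht
  rw [← mul_sub, ht']
  push_cast
  field_simp

theorem altA_class (b : ℕ) (hb : 2 ≤ b) (L : ℕ) (hL : 1 ≤ L) (a1 c q : ℕ)
    (hq : q ∣ b * (b ^ 2 - 1)) (a : ℤ) (T : Finset ℕ) (hT : T ⊆ SS b L a1 c) (w : ℕ → ℝ) :
    ‖∑ n ∈ T, (w n : ℂ) * ee ((a : ℝ) / q * revL b L n)‖ = |∑ n ∈ T, w n| := by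
  rcases T.eq_empty_or_nonempty with rfl | ⟨n0, hn0⟩
  · simp
  · have : ∑ n ∈ T, (w n : ℂ) * ee ((a : ℝ) / q * revL b L n) =
        ((∑ n ∈ T, w n : ℝ) : ℂ) * ee ((a : ℝ) / q * revL b L n0) := by
      rw [Complex.ofReal_sum, Finset.sum_mul]
      refine Finset.sum_congr rfl fun n hn => ?_
      rw [altA_const b hb L hL a1 c q hq a (hT hn) (hT hn0)]
    rw [this, norm_mul, norm_ee, mul_one, Complex.norm_real, Real.norm_eq_abs]

theorem altA_abs (b : ℕ) (hb : 2 ≤ b) : ∃ c3 : ℝ, 0 < c3 ∧ ∃ L0 : ℕ, ∀ L : ℕ, L0 ≤ L →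
    ∀ a1 : ℕ, 1 ≤ a1 → a1 < b → ∀ c : ℕ,
    ∑ n ∈ SS b L a1 c, |ArithmeticFunction.vonMangoldt n - kap b L a1| ≤ c3 * (b : ℝ) ^ L := by
  obtain ⟨c1, c2, h1, h2, L0, h⟩ := kap_bounds b hb
  refine ⟨Real.log 4 + 4 + c2, by have := Real.log_pos (show (1 : ℝ) < 4 by norm_num); linarith,
    L0, fun L hL a1 ha1 ha1b c => ?_⟩
  obtain ⟨hk1, hk2⟩ := h L hL a1 ha1 ha1b
  have hk0 : 0 ≤ kap b L a1 := h1.le.trans hk1
  have hX : (0 : ℝ) ≤ (b : ℝ) ^ L := by positivity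
  have hpsi : ∑ n ∈ range (b ^ L), ArithmeticFunction.vonMangoldt n ≤
      (Real.log 4 + 4) * (b : ℝ) ^ L := by
    have := Chebyshev.psi_le_const_mul_self hX
    refine le_trans ?_ this
    rw [Chebyshev.psi]
    have e : ⌊(b : ℝ) ^ L⌋₊ = b ^ L := by
      rw [← Nat.cast_pow, Nat.floor_natCast]
    rw [e]
    have : range (b ^ L) ⊆ insert 0 (Ioc 0 (b ^ L)) := by
      intro n hn
      rw [Finset.mem_range] at hn
      rw [Finset.mem_insert, Finset.mem_Ioc]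
      omega
    refine (Finset.sum_le_sum_of_subset_of_nonneg this
      (fun _ _ _ => ArithmeticFunction.vonMangoldt_nonneg)).trans ?_
    rw [Finset.sum_insert (by simp)]
    simp
  calc ∑ n ∈ SS b L a1 c, |ArithmeticFunction.vonMangoldt n - kap b L a1|
      ≤ ∑ n ∈ SS b L a1 c, (ArithmeticFunction.vonMangoldt n + c2) := by
        refine Finset.sum_le_sum fun n _ => ?_
        have h3 : 0 ≤ ArithmeticFunction.vonMangoldt n := ArithmeticFunction.vonMangoldt_nonneg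
        rw [abs_le]
        constructor <;> linarith
    _ ≤ ∑ n ∈ range (b ^ L), (ArithmeticFunction.vonMangoldt n + c2) := by
        refine Finset.sum_le_sum_of_subset_of_nonneg (Finset.filter_subset _ _) fun n _ _ => ?_
        have h3 : 0 ≤ ArithmeticFunction.vonMangoldt n := ArithmeticFunction.vonMangoldt_nonneg
        linarith
    _ = ∑ n ∈ range (b ^ L), ArithmeticFunction.vonMangoldt n + (b : ℝ) ^ L * c2 := by
        rw [Finset.sum_add_distrib, Finset.sum_const, Finset.card_range, nsmul_eq_mul]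
        push_cast
        ring
    _ ≤ (Real.log 4 + 4 + c2) * (b : ℝ) ^ L := by nlinarith

theorem altA_K (b : ℕ) (hb : 2 ≤ b) (E : ℝ) (hE : 0 < E) : ∃ L0 : ℕ, 2 ≤ L0 ∧ ∀ L : ℕ, L0 ≤ L →
    ∃ K : ℕ, 1 ≤ K ∧ K ≤ L ∧ (L : ℝ) ^ E ≤ (b : ℝ) ^ K ∧ (b : ℝ) ^ K ≤ b * (L : ℝ) ^ E := by
  have hb1 : (1 : ℝ) < b := by exact_mod_cast (by omega : 1 < b)
  have hlog : 0 < Real.log b := Real.log_pos hb1
  have hT := (isLittleO_rpow_exp_pos_mul_atTop E hlog).bound (c := 1 / b) (by positivity)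
  have hT2 := tendsto_natCast_atTop_atTop (R := ℝ) |>.eventually hT
  obtain ⟨L1, hL1⟩ := Filter.eventually_atTop.1 hT2
  refine ⟨max L1 2, le_max_right _ _, fun L hL => ?_⟩
  have h2 : 2 ≤ L := (le_max_right _ _).trans hL
  have h3 := hL1 L ((le_max_left _ _).trans hL)
  have hLr : (2 : ℝ) ≤ L := by exact_mod_cast h2
  have hLE : 1 < (L : ℝ) ^ E := Real.one_lt_rpow (by linarith) hE
  have hex : ∃ K : ℕ, (L : ℝ) ^ E ≤ (b : ℝ) ^ K := by
    obtain ⟨K, hK⟩ := pow_unbounded_of_one_lt ((L : ℝ) ^ E) hb1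
    exact ⟨K, hK.le⟩
  classical
  set K := Nat.find hex with hKdef
  have hK1 : (L : ℝ) ^ E ≤ (b : ℝ) ^ K := Nat.find_spec hex
  have hK0 : 1 ≤ K := by
    rcases Nat.eq_zero_or_pos K with h0 | h0
    · rw [h0, pow_zero] at hK1
      linarith
    · exact h0
  have hK2 : (b : ℝ) ^ (K - 1) < (L : ℝ) ^ E := not_le.1 (Nat.find_min hex (by omega))
  have hK3 : (b : ℝ) ^ K ≤ b * (L : ℝ) ^ E := by
    have : (b : ℝ) ^ K = b * (b : ℝ) ^ (K - 1) := by
      rw [← pow_succ', Nat.sub_add_cancel hK0]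
    rw [this]
    exact mul_le_mul_of_nonneg_left hK2.le (by linarith)
  refine ⟨K, hK0, ?_, hK1, hK3⟩
  have h4 : b * (L : ℝ) ^ E ≤ (b : ℝ) ^ L := by
    have e : Real.exp (Real.log b * L) = (b : ℝ) ^ L := by
      rw [mul_comm, Real.exp_nat_mul, Real.exp_log (by linarith)]
    rw [Real.norm_of_nonneg (by positivity), Real.norm_of_nonneg (by positivity), e] at h3
    have hb0 : (0 : ℝ) < b := by linarith
    rw [one_div, inv_mul_eq_div, le_div_iff₀ hb0] at h3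
    linarith
  exact (pow_le_pow_iff_right₀ hb1).1 (hK3.trans h4)

theorem altA (b : ℕ) (hb : 2 ≤ b) (A C : ℝ) : ∃ L0 : ℕ, ∀ L : ℕ, L0 ≤ L → ∀ a1 : ℕ, 1 ≤ a1 →
    a1 < b → ∀ c : ℕ, c < b ^ 2 - 1 → c.Coprime (b ^ 2 - 1) → ∀ q : ℕ, q ∣ b * (b ^ 2 - 1) →
    ∀ (a : ℤ) (β : ℝ), |β| ≤ (L : ℝ) ^ C / (b : ℝ) ^ L →
    ‖Hs b L a1 c ((a : ℝ) / q + β)‖ ≤ (b : ℝ) ^ L * (L : ℝ) ^ (-A) := by
  set A' : ℝ := max A 0 with hA'
  set C' : ℝ := max C 0 with hC'
  have hA0 : 0 ≤ A' := le_max_right _ _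
  have hC0 : 0 ≤ C' := le_max_right _ _
  set E : ℝ := A' + C' + 1 with hE
  have hE0 : 0 < E := by linarith
  obtain ⟨c3, hc3, L1, h1⟩ := altA_abs b hb
  obtain ⟨L2, hL2, h2⟩ := altA_K b hb E hE0
  obtain ⟨L3, h3⟩ := equi b hb (E + A' + 1)
  obtain ⟨L4, h4⟩ := exists_nat_ge (max (2 * b : ℝ) (4 * Real.pi * c3))
  refine ⟨max (max L1 L2) (max L3 L4), fun L hL a1 ha1 ha1b c hc hcc q hq a β hβ => ?_⟩
  have g1 : L1 ≤ L := le_trans (le_trans (le_max_left _ _) (le_max_left _ _)) hL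
  have g2 : L2 ≤ L := le_trans (le_trans (le_max_right _ _) (le_max_left _ _)) hL
  have g3 : L3 ≤ L := le_trans (le_trans (le_max_left _ _) (le_max_right _ _)) hL
  have g4 : L4 ≤ L := le_trans (le_trans (le_max_right _ _) (le_max_right _ _)) hL
  have g4' : max (2 * b : ℝ) (4 * Real.pi * c3) ≤ L := h4.trans (by exact_mod_cast g4)
  have hLb : (2 * b : ℝ) ≤ L := (le_max_left _ _).trans g4'
  have hLc : 4 * Real.pi * c3 ≤ L := (le_max_right _ _).trans g4'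
  have hL1 : (1 : ℝ) ≤ L := by
    have : 1 ≤ L := by omega
    exact_mod_cast this
  have hL0 : (0 : ℝ) < L := by linarith
  obtain ⟨K, hK1, hKL, hK2, hK3⟩ := h2 L g2
  have hbr : (2 : ℝ) ≤ b := by exact_mod_cast hb
  have hX0 : (0 : ℝ) < (b : ℝ) ^ L := by positivity
  have hA'1 : (L : ℝ) ^ (-A') ≤ (L : ℝ) ^ (-A) :=
    Real.rpow_le_rpow_of_exponent_le hL1 (by have := le_max_left A 0; linarith)
  refine le_trans ?_ (mul_le_mul_of_nonneg_left hA'1 hX0.le)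
  have hKE : (b : ℝ) ^ K ≤ (L : ℝ) ^ (E + A' + 1) := by
    refine hK3.trans ?_
    have : (L : ℝ) ^ (E + A' + 1) = L * ((L : ℝ) ^ E * (L : ℝ) ^ A') := by
      rw [Real.rpow_add hL0, Real.rpow_add hL0, Real.rpow_one]; ring
    rw [this]
    have e1 : 1 ≤ (L : ℝ) ^ A' := Real.one_le_rpow hL1 hA0
    have e2 : 0 < (L : ℝ) ^ E := by positivity
    have e3 : (L : ℝ) ^ E ≤ (L : ℝ) ^ E * (L : ℝ) ^ A' := le_mul_of_one_le_right e2.le e1
    exact mul_le_mul (by linarith) e3 e2.le hL0.le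
  have hbeta := beta b hb L K a1 c hKL ((a : ℝ) / q) β
    (fun n => ArithmeticFunction.vonMangoldt n - kap b L a1)
  refine (show ‖Hs b L a1 c ((a : ℝ) / q + β)‖ ≤ _ from hbeta).trans ?_
  have hfirst : ∑ r ∈ range (b ^ K), ‖∑ n ∈ (SS b L a1 c).filter (fun n => n % b ^ K = r),
      ((ArithmeticFunction.vonMangoldt n - kap b L a1 : ℝ) : ℂ) *
        ee ((a : ℝ) / q * revL b L n)‖ ≤ (b : ℝ) ^ L * (L : ℝ) ^ (-A') / 2 := by
    have hr : ∀ r ∈ range (b ^ K),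
        ‖∑ n ∈ (SS b L a1 c).filter (fun n => n % b ^ K = r),
        ((ArithmeticFunction.vonMangoldt n - kap b L a1 : ℝ) : ℂ) *
          ee ((a : ℝ) / q * revL b L n)‖ ≤ (b : ℝ) ^ L * (L : ℝ) ^ (-(E + A' + 1)) := by
      intro r hr
      rw [altA_class b hb L (by omega) a1 c q hq a _ (Finset.filter_subset _ _)
        (fun n => ArithmeticFunction.vonMangoldt n - kap b L a1)]
      exact h3 L g3 a1 ha1 ha1b c hc hcc K hK1 hKE r (Finset.mem_range.1 hr)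
    refine (Finset.sum_le_sum hr).trans ?_
    rw [Finset.sum_const, Finset.card_range, nsmul_eq_mul, Nat.cast_pow]
    have e1 : (L : ℝ) ^ (-(E + A' + 1)) = (L : ℝ) ^ (-E) * ((L : ℝ) ^ (-A') * (L : ℝ)⁻¹) := by
      rw [← Real.rpow_neg_one, ← Real.rpow_add hL0, ← Real.rpow_add hL0]
      congr 1; ring
    have e2 : (L : ℝ) ^ E * (L : ℝ) ^ (-E) = 1 := by
      rw [← Real.rpow_add hL0]; simp
    have e3 : (b : ℝ) * (L : ℝ)⁻¹ ≤ 1 / 2 := by
      rw [← div_eq_mul_inv, div_le_iff₀ hL0]; linarith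
    have e4 : 0 < (L : ℝ) ^ (-A') := by positivity
    have e5 : 0 < (L : ℝ) ^ (-E) := by positivity
    calc (b : ℝ) ^ K * ((b : ℝ) ^ L * (L : ℝ) ^ (-(E + A' + 1)))
        ≤ (b * (L : ℝ) ^ E) * ((b : ℝ) ^ L * (L : ℝ) ^ (-(E + A' + 1))) :=
          mul_le_mul_of_nonneg_right hK3 (by positivity)
      _ = (b : ℝ) ^ L * (L : ℝ) ^ (-A') * ((b : ℝ) * (L : ℝ)⁻¹) *
          ((L : ℝ) ^ E * (L : ℝ) ^ (-E)) := by rw [e1]; ring
      _ = (b : ℝ) ^ L * (L : ℝ) ^ (-A') * ((b : ℝ) * (L : ℝ)⁻¹) := by rw [e2, mul_one]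
      _ ≤ (b : ℝ) ^ L * (L : ℝ) ^ (-A') * (1 / 2) :=
          mul_le_mul_of_nonneg_left e3 (by positivity)
      _ = _ := by ring
  have hsecond : 2 * Real.pi * |β| * (b : ℝ) ^ (L - K) *
      ∑ n ∈ SS b L a1 c, |ArithmeticFunction.vonMangoldt n - kap b L a1| ≤
      (b : ℝ) ^ L * (L : ℝ) ^ (-A') / 2 := by
    have hs := h1 L g1 a1 ha1 ha1b c
    have hβ' : |β| * (b : ℝ) ^ (L - K) ≤ (L : ℝ) ^ (-A') * (L : ℝ)⁻¹ := by
      have e1 : (L : ℝ) ^ C ≤ (L : ℝ) ^ C' :=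
        Real.rpow_le_rpow_of_exponent_le hL1 (le_max_left _ _)
      have e2 : (b : ℝ) ^ L = (b : ℝ) ^ (L - K) * (b : ℝ) ^ K := by
        rw [← pow_add, Nat.sub_add_cancel hKL]
      have e3 : |β| * (b : ℝ) ^ L ≤ (L : ℝ) ^ C' := by
        have := (le_div_iff₀ hX0).1 hβ
        exact this.trans e1
      have e4 : |β| * (b : ℝ) ^ (L - K) * (L : ℝ) ^ E ≤ (L : ℝ) ^ C' := by
        refine le_trans ?_ e3
        rw [e2, ← mul_assoc]
        exact mul_le_mul_of_nonneg_left hK2 (by positivity)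
      have e5 : (L : ℝ) ^ C' = (L : ℝ) ^ (-A') * (L : ℝ)⁻¹ * (L : ℝ) ^ E := by
        rw [← Real.rpow_neg_one, ← Real.rpow_add hL0, ← Real.rpow_add hL0]
        congr 1; rw [hE]; ring
      rw [e5] at e4
      exact le_of_mul_le_mul_right e4 (by positivity)
    have e6 : 0 < (L : ℝ) ^ (-A') := by positivity
    calc 2 * Real.pi * |β| * (b : ℝ) ^ (L - K) *
        ∑ n ∈ SS b L a1 c, |ArithmeticFunction.vonMangoldt n - kap b L a1|
        ≤ 2 * Real.pi * |β| * (b : ℝ) ^ (L - K) * (c3 * (b : ℝ) ^ L) :=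
          mul_le_mul_of_nonneg_left hs (by positivity)
      _ = 2 * Real.pi * c3 * (b : ℝ) ^ L * (|β| * (b : ℝ) ^ (L - K)) := by ring
      _ ≤ 2 * Real.pi * c3 * (b : ℝ) ^ L * ((L : ℝ) ^ (-A') * (L : ℝ)⁻¹) :=
          mul_le_mul_of_nonneg_left hβ' (by positivity)
      _ = (b : ℝ) ^ L * (L : ℝ) ^ (-A') * (4 * Real.pi * c3 * (L : ℝ)⁻¹) / 2 := by ring
      _ ≤ (b : ℝ) ^ L * (L : ℝ) ^ (-A') * 1 / 2 := by
          have : 4 * Real.pi * c3 * (L : ℝ)⁻¹ ≤ 1 := by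
            rw [← div_eq_mul_inv, div_le_one hL0]; exact hLc
          have := mul_le_mul_of_nonneg_left this (show 0 ≤ (b : ℝ) ^ L * (L : ℝ) ^ (-A') by
            positivity)
          linarith
      _ = _ := by ring
  linarith

end Pool.Agent.H10.RP
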