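import Pool.Agent.H10.RP.Sine

/-!
# Reversed primes: strictness at one level (job RP-9)

`str_base` (`b ≥ 3`). With `ψ(y) = |∑_{a < b} ee (a y)| / b` one has `Ps b (phi θ) i y = ψ(θ i - y)`, and for a
proper divisor `e` of `b` the function `Φ_e(y) = ∑ τ < e, (∑ t ≡ τ, ψ(y - t/b)) ^ 2` (note: replace `y` by
`θ i - y`) is continuous and 1-periodic, so it attains its maximum. It is enough that
`Φ_e(y) < b / e` for every `y` (finitely many `e`; take the largest ratio). Cauchy and Parseval give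
`≤`, and equality would force `t ↦ ψ(y - t/b)` to be constant on every class mod `e` (`b / e ≥ 2`
elements). But `ψ(y - t / b) = |sin π b y| / (b |sin π (y - t/b)|)`. If `b y` is not an integer, then
`|sin π (y - t/b)| = |sin π (y - (t + e)/b)|` for `t` and `t + 1` gives `2 y ≡ (2 t + e)/b` and
`2 y ≡ (2 t + 2 + e)/b` mod 1 (the other possibility `e / b ∈ ℤ` is excluded), hence `b ∣ 2`, a
contradiction. If `y = t0 / b` mod 1, then `ψ` is `1` at `t0` and `0` at the other `t`, not constant on the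
class of `t0`. (For `t = b - 1` read `t` mod `b`, everything is `b`-periodic in `t`.)

`str_four`. `Ps 4 (phi4 θ) i y = |cos π(θ(2i) - y)| |cos π(θ(2i+1) - 2y)|`. Proper divisors of `4`: `2`
(excluded) and `1`. For `e = 1`, with `z = π(θ(2i) - y)`, `u = π(θ(2i+1) - 2y)`: the sum over
`t = 0..3` is `|cos u| (|cos z| + |sin z|) + |sin u| (|cos (z - π/4)| + |sin (z - π/4)|)`, its square is
at most (Cauchy) `(|cos z| + |sin z|)² + (|cos (z - π/4)| + |sin (z - π/4)|)² =
2 + |sin 2z| + |cos 2z| ≤ 2 + √2 = κ * 4`.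

`fd_four`: two binary digits make one digit in base 4. `PP_four`: level `j` in base 4 is the
product of the levels `2 j` and `2 j + 1` in base 2:
`Ps 4 (phi4 θ) i y = Ps 2 (phi θ) (2 i) y * Ps 2 (phi θ) (2 i + 1) (2 y)`.
-/

set_option autoImplicit false

open Finset

namespace Pool.Agent.H10.RP

/-- linear phases in base `b` -/
noncomputable def phi (θ : ℕ → ℝ) (i a : ℕ) : ℂ := ee (θ i * a)

/-- pairs of binary digits -/
noncomputable def phi4 (θ : ℕ → ℝ) (i a : ℕ) : ℂ :=
  ee (θ (2 * i) * (a % 2 : ℕ) + θ (2 * i + 1) * (a / 2 : ℕ))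

theorem uni_phi (θ : ℕ → ℝ) : Uni (phi θ) := fun _ _ => norm_ee _

theorem uni_phi4 (θ : ℕ → ℝ) : Uni (phi4 θ) := fun _ _ => norm_ee _

/-- the normalised geometric sum -/
noncomputable def basePsi (b : ℕ) (y : ℝ) : ℝ := ‖∑ a ∈ range b, ee (a * y)‖ / b

theorem base_Ps_phi (b : ℕ) (θ : ℕ → ℝ) (i : ℕ) (y : ℝ) :
    Ps b (phi θ) i y = basePsi b (θ i - y) := by
  unfold Ps basePsi phi
  congr 2
  refine sum_congr rfl fun a _ => ?_
  rw [← ee_add]
  congr 1
  ring

theorem basePsi_nonneg (b : ℕ) (y : ℝ) : 0 ≤ basePsi b y := by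
  unfold basePsi
  positivity

theorem base_ee_pow (y : ℝ) (a : ℕ) : ee (a * y) = ee y ^ a := by
  unfold ee
  rw [← Complex.exp_nat_mul]
  congr 1
  push_cast
  ring

theorem base_norm_ee_sub_one (y : ℝ) : ‖ee y - 1‖ = 2 * |Real.sin (Real.pi * y)| := by
  have h := Complex.norm_exp_I_mul_ofReal_sub_one (2 * Real.pi * y)
  have e : ee y = Complex.exp (Complex.I * ((2 * Real.pi * y : ℝ) : ℂ)) := by
    unfold ee
    congr 1
    push_cast
    ring
  rw [e, h, Real.norm_eq_abs, abs_mul, abs_two]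
  congr 3
  ring

theorem basePsi_sin (b : ℕ) (hb : 0 < b) (y : ℝ) :
    b * basePsi b y * |Real.sin (Real.pi * y)| = |Real.sin (Real.pi * (b * y))| := by
  have hb' : (b : ℝ) ≠ 0 := by exact_mod_cast hb.ne'
  have h1 : (ee y - 1) * ∑ a ∈ range b, ee (a * y) = ee (b * y) - 1 := by
    simp_rw [base_ee_pow]
    rw [mul_geom_sum]
  have h2 := congrArg norm h1
  rw [norm_mul, base_norm_ee_sub_one, base_norm_ee_sub_one] at h2
  unfold basePsi
  have h3 : (b : ℝ) * (‖∑ a ∈ range b, ee (a * y)‖ / b) = ‖∑ a ∈ range b, ee (a * y)‖ :=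
    mul_div_cancel₀ _ hb'
  rw [h3]
  linarith

theorem basePsi_cont (b : ℕ) : Continuous (basePsi b) := by
  unfold basePsi ee
  fun_prop

theorem basePsi_int (b : ℕ) (y : ℝ) (n : ℤ) : basePsi b (y + n) = basePsi b y := by
  unfold basePsi
  congr 2
  refine sum_congr rfl fun a _ => ee_congr ⟨a * n, ?_⟩
  push_cast
  ring

theorem basePsi_parseval (b : ℕ) (hb : 2 ≤ b) (x : ℝ) :
    ∑ t ∈ range b, basePsi b (x - t / b) ^ 2 = 1 := by
  have h := Ps_parseval (phi (fun _ => x)) hb (uni_phi _) 0 0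
  simp_rw [base_Ps_phi, zero_add] at h
  exact h

/-- the sum over residue classes -/
noncomputable def basePhi (b e : ℕ) (x : ℝ) : ℝ :=
  ∑ τ ∈ range e, (∑ t ∈ (range b).filter (fun t => t % e = τ), basePsi b (x - t / b)) ^ 2

theorem basePhi_cont (b e : ℕ) : Continuous (basePhi b e) := by
  unfold basePhi
  refine continuous_finsetSum _ fun τ _ => Continuous.pow ?_ 2
  refine continuous_finsetSum _ fun t _ => ?_
  exact (basePsi_cont b).comp (continuous_id.sub continuous_const)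

theorem basePhi_int (b e : ℕ) (y : ℝ) (n : ℤ) : basePhi b e (y + n) = basePhi b e y := by
  unfold basePhi
  refine sum_congr rfl fun τ _ => ?_
  congr 1
  refine sum_congr rfl fun t _ => ?_
  rw [← basePsi_int b (y - t / b) n]
  congr 1
  ring

theorem base_cauchy {ι : Type*} (s : Finset ι) (w : ι → ℝ) :
    (∑ i ∈ s, w i) ^ 2 + (∑ i ∈ s, ∑ j ∈ s, (w i - w j) ^ 2) / 2 = s.card * ∑ i ∈ s, w i ^ 2 := by
  have h : ∑ i ∈ s, ∑ j ∈ s, (w i - w j) ^ 2 =
      2 * (s.card * ∑ i ∈ s, w i ^ 2) - 2 * (∑ i ∈ s, w i) ^ 2 := by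
    have e : ∀ i ∈ s, ∑ j ∈ s, (w i - w j) ^ 2 =
        s.card * w i ^ 2 - 2 * w i * (∑ j ∈ s, w j) + ∑ j ∈ s, w j ^ 2 := by
      intro i _
      rw [← nsmul_eq_mul, ← sum_const, mul_sum, ← sum_sub_distrib, ← sum_add_distrib]
      exact sum_congr rfl fun j _ => by ring
    rw [sum_congr rfl e, sum_add_distrib, sum_sub_distrib, ← mul_sum, sum_const, nsmul_eq_mul,
      ← sum_mul, ← mul_sum]
    ring
  rw [h]
  ring

/-- a class mod `e` has at most `b / e` elements -/
theorem base_card (b e τ : ℕ) (he : e ∣ b) (he0 : 0 < e) :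
    (((range b).filter (fun t => t % e = τ)).card : ℝ) ≤ (b : ℝ) / e := by
  obtain ⟨k, rfl⟩ := he
  have h1 : ((range (e * k)).filter (fun t => t % e = τ)).card ≤ (range k).card := by
    refine card_le_card_of_injOn (fun t => t / e) ?_ ?_
    · intro t ht
      have ht' := (mem_filter.1 ht).1
      exact mem_coe.2 (mem_range.2 (Nat.div_lt_of_lt_mul (mem_range.1 ht')))
    · intro s hs t ht hst
      have hs' := (mem_filter.1 hs).2
      have ht' := (mem_filter.1 ht).2
      have hst' : s / e = t / e := hst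
      rw [← Nat.div_add_mod s e, ← Nat.div_add_mod t e, hs', ht', hst']
  rw [card_range] at h1
  have he' : (e : ℝ) ≠ 0 := by exact_mod_cast he0.ne'
  rw [Nat.cast_mul, mul_div_cancel_left₀ _ he']
  exact_mod_cast h1

theorem base_filter_sum (b e : ℕ) (he0 : 0 < e) (f : ℕ → ℝ) :
    ∑ τ ∈ range e, ∑ t ∈ (range b).filter (fun t => t % e = τ), f t = ∑ t ∈ range b, f t :=
  sum_fiberwise_of_maps_to (fun t _ => mem_range.2 (Nat.mod_lt t he0)) f

/-- `w` is not constant on all classes mod `e` -/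
theorem base_not_const (b e : ℕ) (hb : 3 ≤ b) (he : e ∣ b) (he0 : 0 < e) (heb : e ≠ b) (x : ℝ) :
    ∃ s ∈ range b, ∃ t ∈ range b, s % e = t % e ∧
      basePsi b (x - s / b) ≠ basePsi b (x - t / b) := by
  by_contra hcon
  push Not at hcon
  have hpi := Real.pi_pos
  have hb0 : (0 : ℝ) < b := by exact_mod_cast (by omega : 0 < b)
  have h2e : 2 * e ≤ b := by
    obtain ⟨k, rfl⟩ := he
    have hk : 2 ≤ k := by
      by_contra hk
      have : k = 0 ∨ k = 1 := by omega
      rcases this with rfl | rfl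
      · omega
      · simp at heb
    nlinarith
  have hsin : ∀ t : ℕ, b * basePsi b (x - t / b) * |Real.sin (Real.pi * (x - t / b))| =
      |Real.sin (Real.pi * (b * x))| := by
    intro t
    rw [basePsi_sin b (by omega)]
    have e1 : Real.pi * (b * (x - t / b)) = Real.pi * (b * x) - t * Real.pi := by
      field_simp
    rw [e1, Real.sin_sub_nat_mul_pi, abs_mul, abs_pow, abs_neg, abs_one, one_pow, one_mul]
  by_cases hs : Real.sin (Real.pi * (b * x)) = 0
  · -- some value is nonzero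
    have hex : ∃ t ∈ range b, basePsi b (x - t / b) ≠ 0 := by
      by_contra h
      push Not at h
      have h1 := basePsi_parseval b (by omega) x
      rw [sum_congr rfl (fun t ht => by rw [h t ht])] at h1
      simp at h1
    obtain ⟨t, ht, htne⟩ := hex
    have hzero : ∀ t : ℕ, basePsi b (x - t / b) ≠ 0 → Real.sin (Real.pi * (x - t / b)) = 0 := by
      intro t h
      have h1 := hsin t
      rw [hs, abs_zero] at h1
      have h2 : (b : ℝ) * basePsi b (x - t / b) ≠ 0 := mul_ne_zero hb0.ne' h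
      exact abs_eq_zero.1 ((mul_eq_zero.1 h1).resolve_left h2)
    have hpair : ∀ s t : ℕ, s < t → t < b → Real.sin (Real.pi * (x - s / b)) = 0 →
        Real.sin (Real.pi * (x - t / b)) = 0 → False := by
      intro s t hst htb h1 h2
      have e1 : Real.pi * (((t : ℝ) - s) / b) =
          Real.pi * (x - s / b) - Real.pi * (x - t / b) := by
        field_simp
        ring
      have h3 : Real.sin (Real.pi * (((t : ℝ) - s) / b)) = 0 := by
        rw [e1, Real.sin_sub, h1, h2]
        ring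
      have hts : (0 : ℝ) < (t : ℝ) - s := by
        have : (s : ℝ) < t := by exact_mod_cast hst
        linarith
      have hts2 : (t : ℝ) - s < b := by
        have h4 : (t : ℝ) < b := by exact_mod_cast htb
        have h5 : (0 : ℝ) ≤ s := Nat.cast_nonneg s
        linarith
      have h4 : 0 < Real.pi * (((t : ℝ) - s) / b) := by positivity
      have h5 : Real.pi * (((t : ℝ) - s) / b) < Real.pi := by
        have : ((t : ℝ) - s) / b < 1 := by rwa [div_lt_one hb0]
        nlinarith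
      exact (Real.sin_pos_of_pos_of_lt_pi h4 h5).ne' h3
    have htb := mem_range.1 ht
    by_cases hte : t + e < b
    · have h1 := hcon t ht (t + e) (mem_range.2 hte) (by simp)
      exact hpair t (t + e) (by omega) hte (hzero t htne) (hzero (t + e) (h1 ▸ htne))
    · have h1 := hcon (t - e) (mem_range.2 (by omega)) t ht (by
        rw [← Nat.add_mod_right (t - e) e, Nat.sub_add_cancel (by omega)])
      exact hpair (t - e) t (by omega) htb (hzero (t - e) (h1 ▸ htne)) (hzero t htne)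
  · have hψ : ∀ t : ℕ, basePsi b (x - t / b) ≠ 0 := by
      intro t h
      have h1 := hsin t
      rw [h, mul_zero, zero_mul] at h1
      exact hs (abs_eq_zero.1 h1.symm)
    have hsq : ∀ s t : ℕ, basePsi b (x - s / b) = basePsi b (x - t / b) →
        Real.sin (Real.pi * (x - s / b)) ^ 2 = Real.sin (Real.pi * (x - t / b)) ^ 2 := by
      intro s t h
      have h1 := hsin s
      have h2 := hsin t
      rw [h, ← h2] at h1
      have h3 : (b : ℝ) * basePsi b (x - t / b) ≠ 0 := mul_ne_zero hb0.ne' (hψ t)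
      have h4 := mul_left_cancel₀ h3 h1
      rw [← sq_abs, h4, sq_abs]
    have h0 := hsq 0 e (hcon 0 (mem_range.2 (by omega)) e (mem_range.2 (by omega)) (by simp))
    have h1 := hsq 1 (1 + e) (hcon 1 (mem_range.2 (by omega)) (1 + e) (mem_range.2 (by omega))
      (by simp))
    -- `sin² A - sin² (A - δ) = sin (2 A - δ) sin δ`
    have key : ∀ A δ : ℝ, Real.sin A ^ 2 = Real.sin (A - δ) ^ 2 → Real.sin δ ≠ 0 →
        Real.sin (2 * A - δ) = 0 := by
      intro A δ h hδ
      have h2 : Real.sin (2 * A - δ) * Real.sin δ = Real.sin A ^ 2 - Real.sin (A - δ) ^ 2 := by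
        have e1 : 2 * A - δ = A + (A - δ) := by ring
        have e2 : Real.sin δ = Real.sin (A - (A - δ)) := by congr 1; ring
        rw [e2, e1, Real.sin_add, Real.sin_sub A (A - δ)]
        have c1 := Real.sin_sq_add_cos_sq A
        have c2 := Real.sin_sq_add_cos_sq (A - δ)
        linear_combination (Real.sin A ^ 2) * c2 - (Real.sin (A - δ) ^ 2) * c1
      rw [h, sub_self] at h2
      exact (mul_eq_zero.1 h2).resolve_right hδ
    have hδ : Real.sin (Real.pi * (e / b)) ≠ 0 := by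
      have he' : (0 : ℝ) < e := by exact_mod_cast he0
      have h3 : (e : ℝ) / b < 1 := by
        rw [div_lt_one hb0]
        exact_mod_cast (by omega : e < b)
      refine (Real.sin_pos_of_pos_of_lt_pi (by positivity) ?_).ne'
      nlinarith
    have k0 := key (Real.pi * (x - (0 : ℕ) / b)) (Real.pi * (e / b)) (by
      rw [h0]; congr 2; push_cast; ring) hδ
    have k1 := key (Real.pi * (x - (1 : ℕ) / b)) (Real.pi * (e / b)) (by
      rw [h1]; congr 2; push_cast; ring) hδ
    set B := 2 * (Real.pi * (x - (0 : ℕ) / b)) - Real.pi * (e / b) with hB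
    have e1 : 2 * (Real.pi * (x - (1 : ℕ) / b)) - Real.pi * (e / b) = B - 2 * Real.pi / b := by
      rw [hB]
      push_cast
      ring
    rw [e1, Real.sin_sub, k0, zero_mul, zero_sub, neg_eq_zero] at k1
    have hcos : Real.cos B ≠ 0 := by
      intro h
      have := Real.sin_sq_add_cos_sq B
      rw [k0, h] at this
      norm_num at this
    have hb3 : (3 : ℝ) ≤ b := by exact_mod_cast hb
    have h3 : Real.sin (2 * Real.pi / b) ≠ 0 := by
      refine (Real.sin_pos_of_pos_of_lt_pi (by positivity) ?_).ne'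
      rw [div_lt_iff₀ hb0]
      nlinarith
    exact (mul_ne_zero hcos h3) k1

theorem basePhi_lt (b e : ℕ) (hb : 3 ≤ b) (he : e ∣ b) (he0 : 0 < e) (heb : e ≠ b) (x : ℝ) :
    basePhi b e x < b / e := by
  obtain ⟨s, hs, t, ht, hst, hne⟩ := base_not_const b e hb he he0 heb x
  have hpar := basePsi_parseval b (by omega) x
  have hfil := base_filter_sum b e he0 (fun t => basePsi b (x - t / b) ^ 2)
  rw [hpar] at hfil
  have hle : ∀ τ ∈ range e,
      (∑ t ∈ (range b).filter (fun t => t % e = τ), basePsi b (x - t / b)) ^ 2 ≤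
        (b / e : ℝ) * ∑ t ∈ (range b).filter (fun t => t % e = τ), basePsi b (x - t / b) ^ 2 := by
    intro τ _
    have h1 := base_cauchy ((range b).filter (fun t => t % e = τ))
      (fun t : ℕ => basePsi b (x - t / b))
    have h2 : 0 ≤ ∑ i ∈ (range b).filter (fun t => t % e = τ),
        ∑ j ∈ (range b).filter (fun t => t % e = τ),
          (basePsi b (x - i / b) - basePsi b (x - j / b)) ^ 2 :=
      sum_nonneg fun _ _ => sum_nonneg fun _ _ => sq_nonneg _
    have h3 := base_card b e τ he he0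
    have h4 : 0 ≤ ∑ t ∈ (range b).filter (fun t => t % e = τ), basePsi b (x - t / b) ^ 2 :=
      sum_nonneg fun _ _ => sq_nonneg _
    nlinarith [mul_le_mul_of_nonneg_right h3 h4]
  have hlt : (∑ t ∈ (range b).filter (fun t => t % e = s % e), basePsi b (x - t / b)) ^ 2 <
        (b / e : ℝ) *
          ∑ t ∈ (range b).filter (fun t => t % e = s % e), basePsi b (x - t / b) ^ 2 := by
    have h1 := base_cauchy ((range b).filter (fun t => t % e = s % e))
      (fun t : ℕ => basePsi b (x - t / b))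
    have h2 : 0 < ∑ i ∈ (range b).filter (fun t => t % e = s % e),
        ∑ j ∈ (range b).filter (fun t => t % e = s % e),
          (basePsi b (x - i / b) - basePsi b (x - j / b)) ^ 2 := by
      refine sum_pos' (fun _ _ => sum_nonneg fun _ _ => sq_nonneg _)
        ⟨s, mem_filter.2 ⟨hs, rfl⟩, ?_⟩
      refine sum_pos' (fun _ _ => sq_nonneg _) ⟨t, mem_filter.2 ⟨ht, hst.symm⟩, ?_⟩
      have h3 : basePsi b (x - s / b) - basePsi b (x - t / b) ≠ 0 := sub_ne_zero.2 hne
      positivity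
    have h3 := base_card b e (s % e) he he0
    have h4 : 0 ≤ ∑ t ∈ (range b).filter (fun t => t % e = s % e), basePsi b (x - t / b) ^ 2 :=
      sum_nonneg fun _ _ => sq_nonneg _
    nlinarith [mul_le_mul_of_nonneg_right h3 h4]
  unfold basePhi
  calc ∑ τ ∈ range e, (∑ t ∈ (range b).filter (fun t => t % e = τ), basePsi b (x - t / b)) ^ 2
      < ∑ τ ∈ range e, (b / e : ℝ) *
          ∑ t ∈ (range b).filter (fun t => t % e = τ), basePsi b (x - t / b) ^ 2 :=
        sum_lt_sum hle ⟨s % e, mem_range.2 (Nat.mod_lt s he0), hlt⟩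
    _ = b / e := by rw [← mul_sum, hfil, mul_one]

theorem basePhi_sup (b e : ℕ) (hb : 3 ≤ b) (he : e ∣ b) (he0 : 0 < e) (heb : e ≠ b) :
    ∃ κ : ℝ, 0 ≤ κ ∧ κ < 1 ∧ ∀ x, basePhi b e x ≤ κ * (b / e) := by
  obtain ⟨x0, hx0, hmax⟩ := (isCompact_Icc (a := (0 : ℝ)) (b := 1)).exists_isMaxOn
    ⟨0, by simp⟩ (basePhi_cont b e).continuousOn
  have hpos : (0 : ℝ) < b / e := by
    have h1 : (0 : ℝ) < b := by exact_mod_cast (by omega : 0 < b)
    have h2 : (0 : ℝ) < e := by exact_mod_cast he0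
    positivity
  have h0 : 0 ≤ basePhi b e x0 := sum_nonneg fun _ _ => sq_nonneg _
  refine ⟨basePhi b e x0 / (b / e), by positivity, ?_, fun x => ?_⟩
  · rw [div_lt_one hpos]
    exact basePhi_lt b e hb he he0 heb x0
  · rw [div_mul_cancel₀ _ hpos.ne']
    have h1 : basePhi b e x = basePhi b e (Int.fract x) := by
      rw [← basePhi_int b e (Int.fract x) ⌊x⌋, Int.fract_add_floor]
    rw [h1]
    exact hmax ⟨Int.fract_nonneg x, (Int.fract_lt_one x).le⟩

theorem str_base (b : ℕ) (hb : 3 ≤ b) : ∃ κ : ℝ, 0 ≤ κ ∧ κ < 1 ∧ ∀ θ : ℕ → ℝ, Str b (phi θ) κ := by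
  have h : ∀ e : ℕ, ∃ κ : ℝ, 0 ≤ κ ∧ κ < 1 ∧ (e ∣ b → e ≠ b → ∀ x, basePhi b e x ≤ κ * (b / e)) := by
    intro e
    by_cases he : e ∣ b ∧ e ≠ b
    · have he0 : 0 < e := by
        rcases Nat.eq_zero_or_pos e with h0 | h0
        · rw [h0] at he
          have := Nat.eq_zero_of_zero_dvd he.1
          omega
        · exact h0
      obtain ⟨κ, h1, h2, h3⟩ := basePhi_sup b e hb he.1 he0 he.2
      exact ⟨κ, h1, h2, fun _ _ => h3⟩
    · exact ⟨0, le_refl _, one_pos, fun h1 h2 => absurd ⟨h1, h2⟩ he⟩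
  choose κ h0 h1 h2 using h
  have hne : (range (b + 1)).Nonempty := ⟨0, by simp⟩
  refine ⟨(range (b + 1)).sup' hne κ, ?_, ?_, ?_⟩
  · exact (h0 0).trans (le_sup' κ (by simp : 0 ∈ range (b + 1)))
  · rw [sup'_lt_iff]
    exact fun e _ => h1 e
  · intro θ e he heb
    right
    intro i y
    have hmem : e ∈ range (b + 1) := by
      have := Nat.le_of_dvd (by omega) he
      exact mem_range.2 (by omega)
    have h3 := h2 e he heb (θ i - y)
    have h4 : basePhi b e (θ i - y) = ∑ τ ∈ range e,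
        (∑ t ∈ (range b).filter (fun t => t % e = τ), Ps b (phi θ) i (y + t / b)) ^ 2 := by
      unfold basePhi
      refine sum_congr rfl fun τ _ => ?_
      congr 1
      refine sum_congr rfl fun t _ => ?_
      rw [base_Ps_phi]
      congr 1
      ring
    rw [← h4]
    refine h3.trans (mul_le_mul_of_nonneg_right (le_sup' κ hmem) ?_)
    positivity

theorem fd_four (θ : ℕ → ℝ) (J n : ℕ) : fd 4 (phi4 θ) J n = fd 2 (phi θ) (2 * J) n := by
  unfold fd
  induction J with
  | zero => simp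
  | succ J ih =>
    rw [prod_range_succ, ih, Nat.mul_succ, prod_range_succ, prod_range_succ, mul_assoc]
    congr 1
    unfold phi4 phi
    rw [← ee_add]
    have h1 : dg 4 J n % 2 = dg 2 (2 * J) n := by
      unfold dg
      rw [pow_mul]
      norm_num
    have h2 : dg 4 J n / 2 = dg 2 (2 * J + 1) n := by
      unfold dg
      rw [pow_succ, pow_mul, ← Nat.div_div_eq_div_mul]
      norm_num
      omega
    rw [h1, h2]

theorem Ps_four (θ : ℕ → ℝ) (i : ℕ) (y : ℝ) :
    Ps 4 (phi4 θ) i y = Ps 2 (phi θ) (2 * i) y * Ps 2 (phi θ) (2 * i + 1) (2 * y) := by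
  unfold Ps
  have h : ∑ a ∈ range 4, phi4 θ i a * ee (-(a * y)) =
      (∑ a ∈ range 2, phi θ (2 * i) a * ee (-(a * y))) *
        ∑ a ∈ range 2, phi θ (2 * i + 1) a * ee (-(a * (2 * y))) := by
    simp only [sum_range_succ, sum_range_zero, phi4, phi, ← ee_add, zero_add, add_mul, mul_add]
    norm_num
    ring_nf
  rw [h, norm_mul]
  push_cast
  ring

theorem base_Ps_two (θ : ℕ → ℝ) (i : ℕ) (y : ℝ) :
    Ps 2 (phi θ) i y = |Real.cos (Real.pi * (θ i - y))| := by
  rw [base_Ps_phi]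
  unfold basePsi
  have h : ∑ a ∈ range 2, ee (a * (θ i - y)) = 1 + ee (θ i - y) := by
    simp [sum_range_succ, ee_zero]
  rw [h]
  generalize θ i - y = z
  have h1 : (1 : ℂ) + ee z = ee (z / 2) * (2 * Complex.cos (Real.pi * z)) := by
    have h2 : ee (z / 2) = Complex.exp (Real.pi * z * Complex.I) := by
      unfold ee
      congr 1
      push_cast
      ring
    have h3 : ee z = Complex.exp (Real.pi * z * Complex.I) * Complex.exp (Real.pi * z * Complex.I) := by
      unfold ee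
      rw [← Complex.exp_add]
      congr 1
      ring
    rw [h2, h3, Complex.two_cos, mul_add, ← Complex.exp_add, ← Complex.exp_add]
    have h4 : (Real.pi * z * Complex.I : ℂ) + -(Real.pi * z) * Complex.I = 0 := by ring
    rw [h4, Complex.exp_zero]
    ring
  rw [h1, norm_mul, norm_ee, one_mul, norm_mul]
  have h5 : (Complex.cos (Real.pi * z) : ℂ) = ((Real.cos (Real.pi * z) : ℝ) : ℂ) := by
    push_cast
    rfl
  rw [h5, Complex.norm_real, Real.norm_eq_abs]
  norm_num

theorem str_four (θ : ℕ → ℝ) : Str 4 (phi4 θ) ((2 + Real.sqrt 2) / 4) := by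
  intro e he he4
  have he' : e = 1 ∨ e = 2 := by
    have h1 : e ≤ 4 := Nat.le_of_dvd (by norm_num) he
    interval_cases e <;> simp_all
  rcases he' with rfl | rfl
  swap
  · left
    exact ⟨rfl, rfl⟩
  right
  intro i y
  simp only [sum_range_succ, sum_range_zero, Nat.mod_one, filter_true, zero_add, Ps_four,
    base_Ps_two]
  set z := Real.pi * (θ (2 * i) - y) with hz
  set u := Real.pi * (θ (2 * i + 1) - 2 * y) with hu
  have z0 : Real.pi * (θ (2 * i) - (y + ((0 : ℕ) : ℝ) / ((4 : ℕ) : ℝ))) = z := by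
    rw [hz]; push_cast; ring
  have z1 : Real.pi * (θ (2 * i) - (y + ((1 : ℕ) : ℝ) / ((4 : ℕ) : ℝ))) = z - Real.pi / 4 := by
    rw [hz]; push_cast; ring
  have z2 : Real.pi * (θ (2 * i) - (y + ((2 : ℕ) : ℝ) / ((4 : ℕ) : ℝ))) = z - Real.pi / 2 := by
    rw [hz]; push_cast; ring
  have z3 : Real.pi * (θ (2 * i) - (y + ((3 : ℕ) : ℝ) / ((4 : ℕ) : ℝ))) =
      (z - Real.pi / 4) - Real.pi / 2 := by
    rw [hz]; push_cast; ring
  have u0 : Real.pi * (θ (2 * i + 1) - 2 * (y + ((0 : ℕ) : ℝ) / ((4 : ℕ) : ℝ))) = u := by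
    rw [hu]; push_cast; ring
  have u1 : Real.pi * (θ (2 * i + 1) - 2 * (y + ((1 : ℕ) : ℝ) / ((4 : ℕ) : ℝ))) =
      u - Real.pi / 2 := by
    rw [hu]; push_cast; ring
  have u2 : Real.pi * (θ (2 * i + 1) - 2 * (y + ((2 : ℕ) : ℝ) / ((4 : ℕ) : ℝ))) =
      u - Real.pi := by
    rw [hu]; push_cast; ring
  have u3 : Real.pi * (θ (2 * i + 1) - 2 * (y + ((3 : ℕ) : ℝ) / ((4 : ℕ) : ℝ))) =
      (u - Real.pi / 2) - Real.pi := by
    rw [hu]; push_cast; ring
  rw [z0, z1, z2, z3, u0, u1, u2, u3, Real.cos_sub_pi_div_two, Real.cos_sub_pi_div_two,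
    Real.cos_sub_pi_div_two, Real.cos_sub_pi, Real.cos_sub_pi, Real.cos_sub_pi_div_two,
    abs_neg, abs_neg]
  clear_value z u
  -- `2 z' = 2 z - π / 2`
  set z' := z - Real.pi / 4 with hz'
  have c1 : |Real.cos z| * |Real.sin z| = |Real.sin (2 * z)| / 2 := by
    rw [Real.sin_two_mul, abs_mul, abs_mul, abs_two]
    ring
  have c2 : |Real.cos z'| * |Real.sin z'| = |Real.cos (2 * z)| / 2 := by
    have : |Real.cos (2 * z)| = |Real.sin (2 * z')| := by
      have e1 : 2 * z' = 2 * z - Real.pi / 2 := by rw [hz']; ring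
      rw [e1, Real.sin_sub_pi_div_two, abs_neg]
    rw [this, Real.sin_two_mul, abs_mul, abs_mul, abs_two]
    ring
  have s1 := Real.sin_sq_add_cos_sq z
  have s2 := Real.sin_sq_add_cos_sq z'
  have s3 := Real.sin_sq_add_cos_sq u
  have s4 := Real.sin_sq_add_cos_sq (2 * z)
  rw [← sq_abs (Real.sin z), ← sq_abs (Real.cos z)] at s1
  rw [← sq_abs (Real.sin z'), ← sq_abs (Real.cos z')] at s2
  rw [← sq_abs (Real.sin u), ← sq_abs (Real.cos u)] at s3
  rw [← sq_abs (Real.sin (2 * z)), ← sq_abs (Real.cos (2 * z))] at s4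
  have hsum : |Real.sin (2 * z)| + |Real.cos (2 * z)| ≤ Real.sqrt 2 := by
    apply Real.le_sqrt_of_sq_le
    nlinarith [sq_nonneg (|Real.sin (2 * z)| - |Real.cos (2 * z)|)]
  generalize |Real.sin (2 * z)| = A at *
  generalize |Real.cos (2 * z)| = B at *
  generalize |Real.sin z| = a at *
  generalize |Real.cos z| = c at *
  generalize |Real.sin z'| = a' at *
  generalize |Real.cos z'| = c' at *
  generalize |Real.sin u| = p at *
  generalize |Real.cos u| = r at *
  have e1 : (c + a) ^ 2 = 1 + A := by nlinarith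
  have e2 : (c' + a') ^ 2 = 1 + B := by nlinarith
  have hC : (r * (c + a) + p * (c' + a')) ^ 2 ≤ (p ^ 2 + r ^ 2) * ((c + a) ^ 2 + (c' + a') ^ 2) := by
    nlinarith [sq_nonneg (r * (c' + a') - p * (c + a))]
  rw [s3, one_mul, e1, e2] at hC
  have e3 : (c * r + c' * p + a * r + a' * p) ^ 2 = (r * (c + a) + p * (c' + a')) ^ 2 := by ring
  rw [e3]
  push_cast
  nlinarith

theorem PP_four (θ : ℕ → ℝ) (lam δ c : ℕ) (h : δ ≤ lam) :
    PP 4 (phi4 θ) lam δ c = PP 2 (phi θ) (2 * lam) (2 * δ) c := by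
  unfold PP
  induction δ with
  | zero => simp
  | succ δ ih =>
    rw [prod_range_succ, ih (by omega), Nat.mul_succ, prod_range_succ, prod_range_succ, mul_assoc]
    congr 1
    rw [Ps_four, mul_comm]
    have e1 : 2 * (lam - 1 - δ) + 1 = 2 * lam - 1 - 2 * δ := by omega
    have e2 : 2 * (lam - 1 - δ) = 2 * lam - 1 - (2 * δ + 1) := by omega
    have e3 : 2 * ((c : ℝ) / ((4 : ℕ) : ℝ) ^ (δ + 1)) = c / ((2 : ℕ) : ℝ) ^ (2 * δ + 1) := by
      have : ((4 : ℕ) : ℝ) ^ (δ + 1) = 2 * ((2 : ℕ) : ℝ) ^ (2 * δ + 1) := by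
        push_cast
        rw [show (4 : ℝ) = 2 ^ 2 by norm_num, ← pow_mul, ← pow_succ']
        congr 1
      rw [this]
      field_simp
    have e4 : (c : ℝ) / ((4 : ℕ) : ℝ) ^ (δ + 1) = c / ((2 : ℕ) : ℝ) ^ (2 * δ + 1 + 1) := by
      have : ((4 : ℕ) : ℝ) ^ (δ + 1) = ((2 : ℕ) : ℝ) ^ (2 * δ + 1 + 1) := by
        push_cast
        rw [show (4 : ℝ) = 2 ^ 2 by norm_num, ← pow_mul]
        congr 1
      rw [this]
    rw [e1, e3, e2, e4]

theorem tw_phi (b : ℕ) (α : ℝ) (θ : ℕ → ℝ) :
    tw b α (phi θ) = phi (fun i => θ i + α * (b : ℝ) ^ i) := by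
  funext i a
  unfold tw phi
  rw [← ee_add]
  congr 1
  ring

theorem tw_phi4 (α : ℝ) (θ : ℕ → ℝ) :
    tw 4 α (phi4 θ) = phi4 (fun i => θ i + α * (2 : ℝ) ^ i) := by
  funext i a
  unfold tw phi4
  rw [← ee_add]
  congr 1
  have h : (a : ℝ) = (a % 2 : ℕ) + 2 * (a / 2 : ℕ) := by
    exact_mod_cast (Nat.mod_add_div a 2).symm
  have h4 : ((4 : ℕ) : ℝ) ^ i = 2 ^ (2 * i) := by
    push_cast
    rw [show (4 : ℝ) = 2 ^ 2 by norm_num, ← pow_mul]
  rw [h4]
  generalize (a % 2 : ℕ) = r at *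
  generalize (a / 2 : ℕ) = s at *
  rw [h]
  simp only [pow_succ]
  ring

end Pool.Agent.H10.RP
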