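import Pool.Agent.H10.RP.FT

/-!
# Reversed primes: the dispersion inequality (job RP-18)

PROOF. Work in `ℤ/Q`, `Q = 2 X` (`X ≥ 1`). As `E`, `V` are supported on `[0, X)`, for `M < Q` the number
`c M = ∑_{e ≤ M} E e V (M - e)` is the cyclic convolution of `E` and `V` mod `Q`, so with
`Ê k = ∑ E n ee (k n / Q)` etc. `∑_{M < Q} c M ee (k M / Q) = Ê k V̂ k` and by Parseval (orthogonality
`sum_ee_mod`) `∑_M |c M|² = (1/Q) ∑_{k < Q} |Ê k|² |V̂ k|²`. For each `k` one of the two factors is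
`≤ ε`, so this is at most `ε² (1/Q) ∑_k (|Ê k|² + |V̂ k|²) = ε² (∑ |E|² + ∑ |V|²)`.
-/

set_option autoImplicit false

open Finset

namespace Pool.Agent.H10.RP

private theorem disp_parseval (c : ℕ → ℂ) (Q : ℕ) (hQ : 0 < Q) :
    ∑ k ∈ range Q, ‖∑ n ∈ range Q, c n * ee ((k : ℝ) / Q * n)‖ ^ 2 =
      Q * ∑ n ∈ range Q, ‖c n‖ ^ 2 := by
  have h0 : ∀ z : ℂ, ((‖z‖ ^ 2 : ℝ) : ℂ) = z * (starRingEnd ℂ) z := by
    intro z
    rw [Complex.mul_conj, Complex.normSq_eq_norm_sq]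
  have h1 : ((∑ k ∈ range Q, ‖∑ n ∈ range Q, c n * ee ((k : ℝ) / Q * n)‖ ^ 2 : ℝ) : ℂ) =
      ((Q * ∑ n ∈ range Q, ‖c n‖ ^ 2 : ℝ) : ℂ) := by
    rw [Complex.ofReal_sum]
    have h2 : ∀ k ∈ range Q, ((‖∑ n ∈ range Q, c n * ee ((k : ℝ) / Q * n)‖ ^ 2 : ℝ) : ℂ) =
        ∑ n ∈ range Q, ∑ m ∈ range Q, c n * (starRingEnd ℂ) (c m) *
          ee ((k : ℝ) * (((n : ℤ) - (m : ℤ) : ℤ) : ℝ) / Q) := by
      intro k _
      rw [h0, map_sum, Finset.sum_mul_sum]
      refine Finset.sum_congr rfl fun n _ => Finset.sum_congr rfl fun m _ => ?_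
      rw [map_mul, conj_ee]
      have h3 : (k : ℝ) * (((n : ℤ) - (m : ℤ) : ℤ) : ℝ) / Q =
          (k : ℝ) / Q * n + -((k : ℝ) / Q * m) := by
        push_cast; ring
      rw [h3, ee_add]
      ring
    rw [Finset.sum_congr rfl h2, Finset.sum_comm, Complex.ofReal_mul, Complex.ofReal_sum,
      Complex.ofReal_natCast, Finset.mul_sum]
    refine Finset.sum_congr rfl fun n hn => ?_
    rw [Finset.sum_comm]
    have h4 : ∀ m ∈ range Q, ∑ k ∈ range Q, c n * (starRingEnd ℂ) (c m) *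
          ee ((k : ℝ) * (((n : ℤ) - (m : ℤ) : ℤ) : ℝ) / Q) =
        if m = n then (Q : ℂ) * ((‖c n‖ ^ 2 : ℝ) : ℂ) else 0 := by
      intro m hm
      rw [← Finset.mul_sum, sum_ee_mod Q hQ]
      rw [Finset.mem_range] at hn hm
      by_cases hmn : m = n
      · subst hmn
        rw [sub_self, if_pos (dvd_zero _), if_pos rfl]
        rw [h0 (c m)]
        ring
      · rw [if_neg hmn, if_neg, mul_zero]
        rintro ⟨t, ht⟩
        apply hmn
        have h5 : t = 0 := by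
          by_contra h
          have h6 : 1 ≤ |t| := Int.one_le_abs h
          have h7 : |(n : ℤ) - m| < Q := by
            rw [abs_lt]; constructor <;> omega
          rw [ht, abs_mul, Nat.abs_cast] at h7
          have h8 : (0 : ℤ) < Q := by exact_mod_cast hQ
          nlinarith
        rw [h5, mul_zero] at ht
        omega
    rw [Finset.sum_congr rfl h4, Finset.sum_ite_eq' (range Q) n, if_pos hn]
  exact_mod_cast h1

private theorem disp_ext (E : ℕ → ℂ) (X : ℕ) (hE : ∀ n, X ≤ n → E n = 0) (g : ℕ → ℂ) (Y : ℕ)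
    (hY : X ≤ Y) : ∑ n ∈ range Y, E n * g n = ∑ n ∈ range X, E n * g n := by
  symm
  refine Finset.sum_subset (Finset.range_mono hY) fun n _ hn => ?_
  rw [Finset.mem_range, not_lt] at hn
  rw [hE n hn, zero_mul]

private theorem disp_conv (E V : ℕ → ℂ) (X : ℕ) (hE : ∀ n, X ≤ n → E n = 0)
    (hV : ∀ n, X ≤ n → V n = 0) (α : ℝ) :
    ∑ M ∈ range (2 * X), (∑ e ∈ range (M + 1), E e * V (M - e)) * ee (α * M) =
      (∑ n ∈ range X, E n * ee (α * n)) * ∑ n ∈ range X, V n * ee (α * n) := by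
  have h1 : ∀ M ∈ range (2 * X), (∑ e ∈ range (M + 1), E e * V (M - e)) * ee (α * M) =
      ∑ e ∈ range (M + 1), E e * V (M - e) * ee (α * M) := fun M _ => Finset.sum_mul _ _ _
  rw [Finset.sum_congr rfl h1, Finset.sum_comm' (s := range (2 * X))
    (t := fun M => range (M + 1)) (t' := range (2 * X)) (s' := fun e => Finset.Ico e (2 * X))
    (fun M e => by simp only [Finset.mem_range, Finset.mem_Ico]; omega)]
  have h2 : ∀ e ∈ range (2 * X), ∑ M ∈ Finset.Ico e (2 * X), E e * V (M - e) * ee (α * M) =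
      E e * (ee (α * e) * ∑ n ∈ range X, V n * ee (α * n)) := by
    intro e he
    rcases lt_or_ge e X with h | h
    · rw [Finset.sum_Ico_eq_sum_range, ← disp_ext V X hV (fun n => ee (α * n)) (2 * X - e)
        (by omega), Finset.mul_sum, Finset.mul_sum]
      refine Finset.sum_congr rfl fun n _ => ?_
      have h3 : e + n - e = n := by omega
      rw [h3]
      have h4 : α * ((e + n : ℕ) : ℝ) = α * e + α * n := by push_cast; ring
      rw [h4, ee_add]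
      ring
    · rw [hE e h, zero_mul]
      refine Finset.sum_eq_zero fun M _ => ?_
      ring
  rw [Finset.sum_congr rfl h2, disp_ext E X hE (fun e => ee (α * e) *
    ∑ n ∈ range X, V n * ee (α * n)) (2 * X) (by omega), Finset.sum_mul]
  refine Finset.sum_congr rfl fun e _ => ?_
  ring

theorem disp (E V : ℕ → ℂ) (X : ℕ) (ε : ℝ) (hε : 0 ≤ ε) (hE : ∀ n, X ≤ n → E n = 0)
    (hV : ∀ n, X ≤ n → V n = 0)
    (h : ∀ α : ℝ, ‖∑ n ∈ range X, E n * ee (α * n)‖ ≤ ε ∨ ‖∑ n ∈ range X, V n * ee (α * n)‖ ≤ ε) :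
    ∑ M ∈ range (2 * X), ‖∑ e ∈ range (M + 1), E e * V (M - e)‖ ^ 2 ≤
      ε ^ 2 * (∑ n ∈ range X, ‖E n‖ ^ 2 + ∑ n ∈ range X, ‖V n‖ ^ 2) := by
  rcases Nat.eq_zero_or_pos X with hX | hX
  · subst hX; simp
  have hQ : 0 < 2 * X := by omega
  have hQ' : (0 : ℝ) < ((2 * X : ℕ) : ℝ) := by exact_mod_cast hQ
  have hp := disp_parseval (fun M => ∑ e ∈ range (M + 1), E e * V (M - e)) (2 * X) hQ
  have hpE := disp_parseval E (2 * X) hQ
  have hpV := disp_parseval V (2 * X) hQ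
  have hsq : ∀ W : ℕ → ℂ, (∀ n, X ≤ n → W n = 0) →
      ∑ n ∈ range (2 * X), ‖W n‖ ^ 2 = ∑ n ∈ range X, ‖W n‖ ^ 2 := by
    intro W hW
    symm
    refine Finset.sum_subset (Finset.range_mono (by omega)) fun n _ hn => ?_
    rw [Finset.mem_range, not_lt] at hn
    rw [hW n hn, norm_zero]
    norm_num
  rw [hsq E hE] at hpE
  rw [hsq V hV] at hpV
  have hk : ∀ k ∈ range (2 * X),
      ‖∑ M ∈ range (2 * X), (∑ e ∈ range (M + 1), E e * V (M - e)) *
        ee ((k : ℝ) / ((2 * X : ℕ) : ℝ) * M)‖ ^ 2 ≤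
      ε ^ 2 * (‖∑ n ∈ range (2 * X), E n * ee ((k : ℝ) / ((2 * X : ℕ) : ℝ) * n)‖ ^ 2 +
        ‖∑ n ∈ range (2 * X), V n * ee ((k : ℝ) / ((2 * X : ℕ) : ℝ) * n)‖ ^ 2) := by
    intro k _
    rw [disp_conv E V X hE hV, disp_ext E X hE (fun n => ee (_ * n)) (2 * X) (by omega),
      disp_ext V X hV (fun n => ee (_ * n)) (2 * X) (by omega), norm_mul, mul_pow]
    rcases h ((k : ℝ) / ((2 * X : ℕ) : ℝ)) with h | h
    · have h2 := pow_le_pow_left₀ (norm_nonneg _) h 2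
      nlinarith [mul_le_mul_of_nonneg_right h2 (sq_nonneg
        ‖∑ n ∈ range X, V n * ee ((k : ℝ) / ((2 * X : ℕ) : ℝ) * n)‖), mul_nonneg (sq_nonneg ε)
        (sq_nonneg ‖∑ n ∈ range X, E n * ee ((k : ℝ) / ((2 * X : ℕ) : ℝ) * n)‖)]
    · have h2 := pow_le_pow_left₀ (norm_nonneg _) h 2
      nlinarith [mul_le_mul_of_nonneg_left h2 (sq_nonneg
        ‖∑ n ∈ range X, E n * ee ((k : ℝ) / ((2 * X : ℕ) : ℝ) * n)‖), mul_nonneg (sq_nonneg ε)
        (sq_nonneg ‖∑ n ∈ range X, V n * ee ((k : ℝ) / ((2 * X : ℕ) : ℝ) * n)‖)]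
  have hsum := Finset.sum_le_sum hk
  rw [← Finset.mul_sum, Finset.sum_add_distrib, hp, hpE, hpV] at hsum
  have h5 : ((2 * X : ℕ) : ℝ) * ∑ M ∈ range (2 * X), ‖∑ e ∈ range (M + 1), E e * V (M - e)‖ ^ 2 ≤
      ((2 * X : ℕ) : ℝ) * (ε ^ 2 * (∑ n ∈ range X, ‖E n‖ ^ 2 + ∑ n ∈ range X, ‖V n‖ ^ 2)) := by
    refine hsum.trans (le_of_eq ?_)
    ring
  exact le_of_mul_le_mul_left h5 hQ'

end Pool.Agent.H10.RP
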