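import Mathlib

/-!
# Reversed primes: local solvability (job RP-22)

PROOF of `local_ok`. (i) `a1`: the `a` in `[0, b)` with `gcd (M - a, b) = 1` are `φ(b)` many; if `b ≥ 3` then `φ(b) ≥ 2`,
so one of them is not `0`; if `b = 2` then `M` is even and `a1 = 1`. (ii) `c`: with `m = b² - 1`, `u = b ^ (L - 1)` a unit
mod `m`: for every prime `p ∣ m` there is a residue `c_p ≠ 0` mod `p` with `M - u c_p ≠ 0` mod `p`: for `p ≥ 3`
because `p - 1 ≥ 2`; for `p = 2` (then `b` is odd, so `M` is even) `c_p = 1`. Chinese remainder theorem for the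
primes dividing `m`, then reduce mod `m`.
-/

set_option autoImplicit false

open Finset

namespace Pool.Agent.H10.RP

private theorem local_cop_add {x m k : ℤ} (h : IsCoprime x m) : IsCoprime (x + m * k) m := by
  exact (IsCoprime.add_mul_left_left_iff).2 h

private theorem local_cop_dvd {x y m : ℤ} (h : IsCoprime x m) (hd : m ∣ y - x) :
    IsCoprime y m := by
  obtain ⟨k, hk⟩ := hd
  have : y = x + m * k := by linarith
  rw [this]
  exact local_cop_add h

private theorem local_pick (M : ℤ) (m : ℕ) : m ≠ 0 → ((2 : ℤ) ∣ m → (2 : ℤ) ∣ M) →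
    ∃ v : ℤ, IsCoprime v m ∧ IsCoprime (M - v) m := by
  induction m using Nat.recOnPosPrimePosCoprime with
  | zero => intro h; exact absurd rfl h
  | one =>
    intro _ _
    exact ⟨1, by simp [isCoprime_one_left], by simpa using isCoprime_one_right⟩
  | prime_pow p n hp hn =>
    intro _ h2
    have key : ∃ v : ℤ, IsCoprime v (p : ℤ) ∧ IsCoprime (M - v) (p : ℤ) := by
      have hpz : Prime (p : ℤ) := Nat.prime_iff_prime_int.1 hp
      rcases eq_or_ne p 2 with rfl | hp2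
      · have hM : (2 : ℤ) ∣ M := by
          apply h2
          push_cast
          exact dvd_pow_self 2 (by omega)
        refine ⟨1, isCoprime_one_left, ?_⟩
        obtain ⟨k, hk⟩ := hM
        rw [hk]
        exact ⟨-1, k, by push_cast; ring⟩
      · by_cases hd : (p : ℤ) ∣ M - 1
        · obtain ⟨k, hk⟩ := hd
          refine ⟨2, ?_, ?_⟩
          · have h3 : Nat.Coprime 2 p := (Nat.coprime_primes Nat.prime_two hp).2 (Ne.symm hp2)
            exact_mod_cast Nat.isCoprime_iff_coprime.2 h3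
          · refine ⟨-1, k, ?_⟩
            linarith
        · refine ⟨1, isCoprime_one_left, ?_⟩
          exact (IsCoprime.symm ((Prime.coprime_iff_not_dvd hpz).2 hd))
    obtain ⟨v, hv1, hv2⟩ := key
    refine ⟨v, ?_, ?_⟩
    · push_cast
      exact hv1.pow_right
    · push_cast
      exact hv2.pow_right
  | coprime a b ha hb hab iha ihb =>
    intro _ h2
    obtain ⟨va, ha1, ha2⟩ := iha (by omega) (fun h => h2 (by push_cast; exact h.mul_right _))
    obtain ⟨vb, hb1, hb2⟩ := ihb (by omega) (fun h => h2 (by push_cast; exact h.mul_left _))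
    obtain ⟨x, y, hxy⟩ := Nat.isCoprime_iff_coprime.2 hab
    refine ⟨va * (y * b) + vb * (x * a), ?_, ?_⟩
    · push_cast
      refine IsCoprime.mul_right (local_cop_dvd ha1 ⟨(vb - va) * x, ?_⟩)
        (local_cop_dvd hb1 ⟨(va - vb) * y, ?_⟩)
      · have : (y : ℤ) * b = 1 - x * a := by linarith
        rw [this]; ring
      · have : (x : ℤ) * a = 1 - y * b := by linarith
        rw [this]; ring
    · push_cast
      refine IsCoprime.mul_right (local_cop_dvd ha2 ⟨(va - vb) * x, ?_⟩)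
        (local_cop_dvd hb2 ⟨(vb - va) * y, ?_⟩)
      · have : (y : ℤ) * b = 1 - x * a := by linarith
        rw [this]; ring
      · have : (x : ℤ) * a = 1 - y * b := by linarith
        rw [this]; ring

private theorem local_a1 (b : ℕ) (hb : 2 ≤ b) (M : ℕ) (h : (Odd b ∨ b = 2) → Even M) :
    ∃ a1 : ℕ, 1 ≤ a1 ∧ a1 < b ∧ IsCoprime ((M : ℤ) - a1) (b : ℤ) := by
  rcases Nat.lt_or_ge 2 b with hb3 | hb2
  · by_cases hc : Nat.Coprime M b
    · refine ⟨2 * M % b, ?_, Nat.mod_lt _ (by omega), ?_⟩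
      · rw [Nat.one_le_iff_ne_zero]
        intro h0
        have h1 : b ∣ 2 * M := Nat.dvd_of_mod_eq_zero h0
        have h2 : b ∣ 2 := (Nat.Coprime.symm hc).dvd_of_dvd_mul_right h1
        have := Nat.le_of_dvd (by omega) h2
        omega
      · have h3 : IsCoprime (-(M : ℤ)) (b : ℤ) := (Nat.isCoprime_iff_coprime.2 hc).neg_left
        refine local_cop_dvd h3 ⟨((2 * M / b : ℕ) : ℤ), ?_⟩
        have h4 := Nat.div_add_mod (2 * M) b
        have h5 : (b : ℤ) * ((2 * M / b : ℕ) : ℤ) + ((2 * M % b : ℕ) : ℤ) = 2 * M := by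
          exact_mod_cast h4
        linarith
    · have hM0 : ((M : ℤ) - 1) % b ≠ 0 := by
        intro h0
        apply hc
        obtain ⟨k, hk⟩ := Int.dvd_of_emod_eq_zero h0
        rw [← Nat.isCoprime_iff_coprime]
        exact local_cop_dvd (isCoprime_one_left) ⟨k, hk⟩
      have hpos : (0 : ℤ) < b := by omega
      have h1 := Int.emod_nonneg ((M : ℤ) - 1) hpos.ne'
      have h2 := Int.emod_lt_of_pos ((M : ℤ) - 1) hpos
      obtain ⟨a, ha⟩ := Int.eq_ofNat_of_zero_le h1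
      refine ⟨a, by omega, by omega, ?_⟩
      refine local_cop_dvd isCoprime_one_left ⟨((M : ℤ) - 1) / b, ?_⟩
      have h3 := Int.emod_add_mul_ediv ((M : ℤ) - 1) b
      rw [ha] at h3
      linarith
  · have hb' : b = 2 := by omega
    subst hb'
    refine ⟨1, le_rfl, by omega, ?_⟩
    obtain ⟨k, hk⟩ := h (Or.inr rfl)
    refine ⟨-1, k, ?_⟩
    rw [hk]
    push_cast
    ring

theorem local_ok (b : ℕ) (hb : 2 ≤ b) (L M : ℕ) (h : (Odd b ∨ b = 2) → Even M) :
    ∃ a1 c : ℕ, 1 ≤ a1 ∧ a1 < b ∧ c < b ^ 2 - 1 ∧ c.Coprime (b ^ 2 - 1) ∧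
      IsCoprime ((M : ℤ) - a1) (b : ℤ) ∧
      IsCoprime ((M : ℤ) - (b : ℤ) ^ (L - 1) * c) (((b ^ 2 - 1 : ℕ) : ℤ)) := by
  obtain ⟨a1, h1, h2, h3⟩ := local_a1 b hb M h
  have hm4 : 4 ≤ b ^ 2 := by nlinarith
  have hm0 : b ^ 2 - 1 ≠ 0 := by omega
  have hmz : ((b ^ 2 - 1 : ℕ) : ℤ) = (b : ℤ) ^ 2 - 1 := by
    push_cast [Nat.cast_sub (show 1 ≤ b ^ 2 by omega)]
    ring
  obtain ⟨v, hv1, hv2⟩ := local_pick M (b ^ 2 - 1) hm0 (by
    intro hd
    rw [hmz] at hd
    have hodd : Odd b := by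
      rw [← Nat.not_even_iff_odd]
      intro he
      obtain ⟨k, hk⟩ := he
      obtain ⟨l, hl⟩ := hd
      have h5 : (b : ℤ) = 2 * k := by rw [hk]; push_cast; ring
      rw [h5] at hl
      have h6 : (2 : ℤ) ∣ 1 := ⟨2 * k ^ 2 - l, by linarith⟩
      norm_num at h6
    obtain ⟨k, hk⟩ := h (Or.inl hodd)
    exact ⟨k, by rw [hk]; push_cast; ring⟩)
  have hmpos : (0 : ℤ) < ((b ^ 2 - 1 : ℕ) : ℤ) := by
    have : 0 < b ^ 2 - 1 := by omega
    exact_mod_cast this
  set m : ℤ := ((b ^ 2 - 1 : ℕ) : ℤ) with hm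
  set u : ℤ := (b : ℤ) ^ (L - 1) with hu
  have hu2 : m ∣ u ^ 2 - 1 := by
    rw [hmz, hu, ← pow_mul, mul_comm, pow_mul]
    have := sub_dvd_pow_sub_pow ((b : ℤ) ^ 2) 1 (L - 1)
    rwa [one_pow] at this
  obtain ⟨w, hw⟩ := hu2
  have hucop : IsCoprime u m := ⟨u, -w, by linarith⟩
  have h4 := Int.emod_nonneg (u * v) hmpos.ne'
  have h5 := Int.emod_lt_of_pos (u * v) hmpos
  obtain ⟨c, hc⟩ := Int.eq_ofNat_of_zero_le h4
  have h6 := Int.emod_add_mul_ediv (u * v) m
  rw [hc] at h6 h5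
  refine ⟨a1, c, h1, h2, ?_, ?_, h3, ?_⟩
  · rw [hm] at h5
    exact_mod_cast h5
  · rw [← Nat.isCoprime_iff_coprime]
    refine local_cop_dvd (hucop.mul_left hv1) ⟨-((u * v) / m), ?_⟩
    rw [← hm]
    linarith
  · refine local_cop_dvd hv2 ⟨u * (u * v / m) - w * v, ?_⟩
    have h7 : (c : ℤ) = u * v - m * (u * v / m) := by linarith
    rw [h7]
    have h8 : u ^ 2 = 1 + m * w := by linarith
    linear_combination (-v) * h8

end Pool.Agent.H10.RP
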