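import Pool.Agent.H10.RP.Rev

/-!
# Reversed primes: the main term (job RP-23)

PROOF of `main_lower`. The map `n ↦ e = revL b L n` is an injection of `SS` onto the set of `e < b ^ L` with
`e ≡ a1 mod b`, `e ≡ b ^ (L - 1) c mod m` and `e / b ^ (L - 1)` coprime to `b` (`revL_revL`, `revL_div`, `revL_modEq`,
`revL_mod_b`; for the inverse: `n = revL e` satisfies `n / b ^ (L-1) = e % b`, `n ≡ b ^ (L-1) e ≡ c`
because `b ^ (2 (L - 1)) ≡ 1 mod m`, `n % b = e / b ^ (L - 1)`). Keep only `e ∈ [b ^ (L - 1), 2 b ^ (L - 1))`: then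
`M - e` runs through the integers of an interval of length `b ^ (L - 1)` in a fixed class mod `b m`, which is a
unit class by the hypotheses. By the prime number theorem in progressions
(`Pool.Agent.H90.tendsto_residueClass_sum_div`, finitely many classes mod `b m`) the sum of `Λ (M - e)` is
`b ^ (L - 1) / φ(b m) + o(b ^ L)` uniformly for `b ^ L ≤ M ≤ b ^ (L + 3)`. Multiply by `kap ≥ c1`.
-/

set_option autoImplicit false

open Finset

namespace Pool.Agent.H10.RP

private lemma psi_unif_one (Q : ℕ) [NeZero Q] (ε : ℝ) (hε : 0 < ε) (a : ZMod Q) :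
    ∃ C0 : ℝ, 0 ≤ C0 ∧ (IsUnit a → ∀ x : ℕ,
      |∑ k ∈ Icc 1 x, ArithmeticFunction.vonMangoldt.residueClass a k - x / Q.totient| ≤
        ε * x + C0) := by
  by_cases ha : IsUnit a
  · have h := Pool.Agent.H90.tendsto_residueClass_sum_div Q a ha
    rw [Metric.tendsto_atTop] at h
    obtain ⟨N, hN⟩ := h ε hε
    refine ⟨∑ j ∈ range (⌈N⌉₊ + 1), |∑ k ∈ Icc 1 j,
      ArithmeticFunction.vonMangoldt.residueClass a k - j / Q.totient|,
      Finset.sum_nonneg fun _ _ => abs_nonneg _, fun _ x => ?_⟩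
    by_cases hx : x < ⌈N⌉₊ + 1
    · have h1 : |∑ k ∈ Icc 1 x, ArithmeticFunction.vonMangoldt.residueClass a k -
          x / Q.totient| ≤ ∑ j ∈ range (⌈N⌉₊ + 1), |∑ k ∈ Icc 1 j,
            ArithmeticFunction.vonMangoldt.residueClass a k - j / Q.totient| :=
        Finset.single_le_sum (f := fun j : ℕ => |∑ k ∈ Icc 1 j,
            ArithmeticFunction.vonMangoldt.residueClass a k - j / Q.totient|)
          (fun _ _ => abs_nonneg _) (Finset.mem_range.2 hx)
      have h2 : 0 ≤ ε * x := by positivity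
      linarith
    · push Not at hx
      have hx1 : (N : ℝ) ≤ x := by
        have h3 : N ≤ (⌈N⌉₊ : ℝ) := Nat.le_ceil N
        have h4 : ((⌈N⌉₊ + 1 : ℕ) : ℝ) ≤ x := by exact_mod_cast hx
        push_cast at h4
        linarith
      have hxp : (0 : ℝ) < x := by
        have : 1 ≤ x := le_trans (Nat.le_add_left 1 _) hx
        exact_mod_cast this
      have h5 := hN x hx1
      rw [Real.dist_eq, Nat.floor_natCast] at h5
      have h6 : ∑ k ∈ Icc 1 x, ArithmeticFunction.vonMangoldt.residueClass a k - x / Q.totient =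
          x * ((∑ k ∈ Icc 1 x, ArithmeticFunction.vonMangoldt.residueClass a k) / x -
            (Q.totient : ℝ)⁻¹) := by
        field_simp
      rw [h6, abs_mul, abs_of_pos hxp]
      have h7 : 0 ≤ ∑ j ∈ range (⌈N⌉₊ + 1), |∑ k ∈ Icc 1 j,
          ArithmeticFunction.vonMangoldt.residueClass a k - j / Q.totient| :=
        Finset.sum_nonneg fun _ _ => abs_nonneg _
      nlinarith
  · exact ⟨0, le_rfl, fun h => absurd h ha⟩

private lemma psi_unif (Q : ℕ) [NeZero Q] (ε : ℝ) (hε : 0 < ε) :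
    ∃ C0 : ℝ, 0 ≤ C0 ∧ ∀ a : ZMod Q, IsUnit a → ∀ x : ℕ,
      |∑ k ∈ Icc 1 x, ArithmeticFunction.vonMangoldt.residueClass a k - x / Q.totient| ≤
        ε * x + C0 := by
  choose C hC0 hC using psi_unif_one Q ε hε
  refine ⟨∑ a, C a, Finset.sum_nonneg fun a _ => hC0 a, fun a ha x => ?_⟩
  have h1 : C a ≤ ∑ a, C a := Finset.single_le_sum (fun a _ => hC0 a) (Finset.mem_univ a)
  have h2 := hC a ha x
  linarith

private lemma sq_pow_modEq (b : ℕ) (hb : 2 ≤ b) (j : ℕ) :
    b ^ j * b ^ j ≡ 1 [MOD (b ^ 2 - 1)] := by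
  have h1 : b ^ 2 ≡ 1 [MOD (b ^ 2 - 1)] := by
    have h2 : 1 ≤ b ^ 2 := Nat.one_le_pow _ _ (by omega)
    exact (Nat.modEq_iff_dvd' h2).2 (dvd_refl _) |>.symm
  have h3 := h1.pow j
  rw [one_pow, ← pow_mul, two_mul, pow_add] at h3
  exact h3

private lemma coprime_mod (b : ℕ) (hb : 2 ≤ b) : Nat.Coprime b (b ^ 2 - 1) := by
  have h2 : 1 ≤ b ^ 2 := Nat.one_le_pow _ _ (by omega)
  have h3 : Nat.Coprime (b ^ 2) (b ^ 2 - 1) := by
    have h4 : b ^ 2 = (b ^ 2 - 1) + 1 := by omega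
    rw [h4]
    simp
  exact Nat.Coprime.coprime_dvd_left (dvd_pow_self b two_ne_zero) h3

/-- the integers `n = revL e`, `e` in the lower half of the range, are in `SS` -/
private lemma mem_SS_of (b : ℕ) (hb : 2 ≤ b) (L : ℕ) (hL : 1 ≤ L) (a1 : ℕ) (ha1 : a1 < b) (c : ℕ)
    (hc : c < b ^ 2 - 1) (e : ℕ) (he1 : b ^ (L - 1) ≤ e) (he2 : e < 2 * b ^ (L - 1))
    (h1 : e ≡ a1 [MOD b]) (h2 : e ≡ b ^ (L - 1) * c [MOD (b ^ 2 - 1)]) :
    e < b ^ L ∧ revL b L e ∈ SS b L a1 c := by
  have hLL : b ^ L = b * b ^ (L - 1) := by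
    obtain ⟨K, rfl⟩ : ∃ K, L = K + 1 := ⟨L - 1, by omega⟩
    rw [pow_succ, Nat.add_sub_cancel, mul_comm]
  have hy : 0 < b ^ (L - 1) := by positivity
  have heL : e < b ^ L := by
    rw [hLL]
    exact lt_of_lt_of_le he2 (Nat.mul_le_mul_right _ hb)
  refine ⟨heL, ?_⟩
  unfold SS
  rw [Finset.mem_filter, Finset.mem_range]
  refine ⟨revL_lt b hb L e, ?_, ?_, ?_⟩
  · rw [revL_div b hb L e heL hL]
    have h3 : e % b = a1 % b := h1
    rw [h3, Nat.mod_eq_of_lt ha1]
  · have h3 := revL_modEq b hb L e heL hL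
    have h4 : b ^ (L - 1) * e ≡ b ^ (L - 1) * (b ^ (L - 1) * c) [MOD (b ^ 2 - 1)] :=
      Nat.ModEq.mul_left _ h2
    have h5 : b ^ (L - 1) * (b ^ (L - 1) * c) ≡ 1 * c [MOD (b ^ 2 - 1)] := by
      rw [← mul_assoc]
      exact (sq_pow_modEq b hb (L - 1)).mul_right c
    have h6 : revL b L e % (b ^ 2 - 1) = (1 * c) % (b ^ 2 - 1) := (h3.trans h4).trans h5
    rw [h6, one_mul, Nat.mod_eq_of_lt hc]
  · have h3 := revL_div b hb L (revL b L e) (revL_lt b hb L e) hL
    rw [revL_revL b hb L e heL] at h3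
    have h4 : e / b ^ (L - 1) = 1 := by
      rw [Nat.div_eq_iff (by positivity)]
      constructor
      · omega
      · omega
    rw [h4] at h3
    have h5 : Nat.gcd (revL b L e) b = 1 := by
      rw [Nat.gcd_comm, Nat.gcd_rec, ← h3]
      simp
    exact h5

theorem main_lower (b : ℕ) (hb : 2 ≤ b) : ∃ c0 : ℝ, 0 < c0 ∧ ∃ L0 : ℕ, ∀ L : ℕ, L0 ≤ L →
    ∀ a1 : ℕ, 1 ≤ a1 → a1 < b → ∀ c : ℕ, c < b ^ 2 - 1 → c.Coprime (b ^ 2 - 1) →
    ∀ M : ℕ, b ^ L ≤ M → M ≤ b ^ (L + 3) → IsCoprime ((M : ℤ) - a1) (b : ℤ) →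
    IsCoprime ((M : ℤ) - (b : ℤ) ^ (L - 1) * c) (((b ^ 2 - 1 : ℕ) : ℤ)) →
    c0 * (b : ℝ) ^ L ≤ kap b L a1 *
      ∑ n ∈ SS b L a1 c, ArithmeticFunction.vonMangoldt (M - revL b L n) := by
  obtain ⟨c1, c2, hc1, hc2, L1, hkap⟩ := kap_bounds b hb
  have hm : 0 < b ^ 2 - 1 := by
    have : 2 ^ 2 ≤ b ^ 2 := Nat.pow_le_pow_left hb 2
    omega
  set Q : ℕ := b * (b ^ 2 - 1) with hQ
  have hQ0 : 0 < Q := by positivity
  haveI : NeZero Q := ⟨hQ0.ne'⟩
  have hφ : (0 : ℝ) < Q.totient := by exact_mod_cast Nat.totient_pos.2 hQ0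
  have hb0 : (0 : ℝ) < b := by exact_mod_cast (by omega : 0 < b)
  have hb1 : (1 : ℝ) < b := by exact_mod_cast (by omega : 1 < b)
  obtain ⟨C0, hC0, hC⟩ := psi_unif Q (1 / (8 * Q.totient * (b : ℝ) ^ 4)) (by positivity)
  obtain ⟨L2, hL2⟩ := ((tendsto_pow_atTop_atTop_of_one_lt hb1).eventually_ge_atTop
    (8 * Q.totient * C0)).exists_forall_of_atTop
  refine ⟨c1 / (2 * Q.totient * b), by positivity, L1 + L2 + 1, ?_⟩
  intro L hL a1 ha1 ha1b c hc hcc M hM1 hM2 hMa hMc
  have hLL : b ^ L = b * b ^ (L - 1) := by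
    obtain ⟨K, rfl⟩ : ∃ K, L = K + 1 := ⟨L - 1, by omega⟩
    rw [pow_succ, Nat.add_sub_cancel, mul_comm]
  set y : ℕ := b ^ (L - 1) with hy
  have hy0 : 0 < y := by positivity
  have hMy : 2 * y ≤ M := by
    calc 2 * y ≤ b * y := Nat.mul_le_mul_right _ hb
      _ = b ^ L := hLL.symm
      _ ≤ M := hM1
  obtain ⟨e0, he0a, he0c⟩ := Nat.chineseRemainder (coprime_mod b hb) a1 (y * c)
  set a : ZMod Q := (((M : ℤ) - (e0 : ℤ) : ℤ) : ZMod Q) with hadef
  have hunit : IsUnit a := by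
    rw [hadef, ZMod.coe_int_isUnit_iff_isCoprime]
    apply IsCoprime.symm
    rw [hQ]
    push_cast
    apply IsCoprime.mul_right
    · have h1 : (b : ℤ) ∣ (e0 : ℤ) - a1 := by
        have := (Nat.modEq_iff_dvd.1 he0a.symm)
        exact this
      obtain ⟨t, ht⟩ := h1
      have h2 : (M : ℤ) - e0 = (M : ℤ) - a1 + (b : ℤ) * (-t) := by linarith
      rw [h2]
      exact (IsCoprime.add_mul_left_left hMa _)
    · have h1 : ((b ^ 2 - 1 : ℕ) : ℤ) ∣ (e0 : ℤ) - ((y * c : ℕ) : ℤ) := by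
        have := (Nat.modEq_iff_dvd.1 he0c.symm)
        exact this
      obtain ⟨t, ht⟩ := h1
      have h2 : (M : ℤ) - e0 = (M : ℤ) - (b : ℤ) ^ (L - 1) * c +
          ((b ^ 2 - 1 : ℕ) : ℤ) * (-t) := by
        rw [hy] at ht
        push_cast at ht ⊢
        linarith
      rw [h2]
      exact (IsCoprime.add_mul_left_left hMc _)
  -- the sum over the interval
  have hS : (y : ℝ) / (2 * Q.totient) ≤
      ∑ k ∈ Ioc (M - 2 * y) (M - y), ArithmeticFunction.vonMangoldt.residueClass a k := by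
    have h1 := abs_le.1 (hC a hunit (M - y))
    have h2 := abs_le.1 (hC a hunit (M - 2 * y))
    have h3 : ∑ k ∈ Icc 1 (M - y), ArithmeticFunction.vonMangoldt.residueClass a k =
        ∑ k ∈ Icc 1 (M - 2 * y), ArithmeticFunction.vonMangoldt.residueClass a k +
        ∑ k ∈ Ioc (M - 2 * y) (M - y), ArithmeticFunction.vonMangoldt.residueClass a k := by
      rw [← Finset.sum_union]
      · congr 1
        ext k
        simp only [Finset.mem_union, Finset.mem_Icc, Finset.mem_Ioc]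
        omega
      · rw [Finset.disjoint_left]
        intro k hk hk2
        simp only [Finset.mem_Icc, Finset.mem_Ioc] at hk hk2
        omega
    have h4 : ((M - y : ℕ) : ℝ) = M - y := by
      rw [Nat.cast_sub (by omega)]
    have h5 : ((M - 2 * y : ℕ) : ℝ) = M - 2 * y := by
      rw [Nat.cast_sub hMy]
      push_cast
      ring
    rw [h4] at h1
    rw [h5] at h2
    have h6 : (M : ℝ) ≤ (b : ℝ) ^ 4 * y := by
      have h7 : M ≤ b ^ 4 * y := by
        calc M ≤ b ^ (L + 3) := hM2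
          _ = b ^ 4 * y := by
            rw [hy, ← pow_add]
            congr 1
            omega
      exact_mod_cast h7
    have h8 : 8 * Q.totient * C0 ≤ (y : ℝ) := by
      have := hL2 (L - 1) (by omega)
      rw [hy]
      push_cast
      exact this
    have h9 : 1 / (8 * (Q.totient : ℝ) * (b : ℝ) ^ 4) * M ≤ (y : ℝ) / (8 * Q.totient) := by
      calc 1 / (8 * (Q.totient : ℝ) * (b : ℝ) ^ 4) * M ≤
          1 / (8 * (Q.totient : ℝ) * (b : ℝ) ^ 4) * ((b : ℝ) ^ 4 * y) := by gcongr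
        _ = (y : ℝ) / (8 * Q.totient) := by field_simp
    have h10 : C0 ≤ (y : ℝ) / (8 * Q.totient) := by
      rw [le_div_iff₀ (by positivity)]
      linarith
    have h11 : 0 ≤ 1 / (8 * (Q.totient : ℝ) * (b : ℝ) ^ 4) := by positivity
    have h12 : (0 : ℝ) ≤ y := by positivity
    have h13 : ((M : ℝ) - y) / Q.totient - (M - 2 * y) / Q.totient = y / Q.totient := by ring
    have h14 : (y : ℝ) / (2 * Q.totient) = y / Q.totient - 4 * (y / (8 * Q.totient)) := by
      field_simp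
      ring
    have h15 : 1 / (8 * (Q.totient : ℝ) * (b : ℝ) ^ 4) * ((M : ℝ) - y) ≤
        1 / (8 * (Q.totient : ℝ) * (b : ℝ) ^ 4) * M := by
      apply mul_le_mul_of_nonneg_left _ h11
      linarith
    have h16 : 1 / (8 * (Q.totient : ℝ) * (b : ℝ) ^ 4) * ((M : ℝ) - 2 * y) ≤
        1 / (8 * (Q.totient : ℝ) * (b : ℝ) ^ 4) * M := by
      apply mul_le_mul_of_nonneg_left _ h11
      linarith
    rw [h14]
    have e1 := h1.1
    have e2 := h2.2
    rw [h3] at e1
    linarith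
  -- comparison with the sum over `SS`
  have hcmp : ∑ k ∈ Ioc (M - 2 * y) (M - y), ArithmeticFunction.vonMangoldt.residueClass a k ≤
      ∑ n ∈ SS b L a1 c, ArithmeticFunction.vonMangoldt (M - revL b L n) := by
    have hkey : ∀ k ∈ (Ioc (M - 2 * y) (M - y)).filter (fun k : ℕ => (k : ZMod Q) = a),
        M - k < b ^ L ∧ revL b L (M - k) ∈ SS b L a1 c := by
      intro k hk
      rw [Finset.mem_filter, Finset.mem_Ioc] at hk
      obtain ⟨⟨hk1, hk2⟩, hk3⟩ := hk
      have hkM : k ≤ M := by omega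
      have h1 : ((M - k : ℕ) : ZMod Q) = (e0 : ZMod Q) := by
        rw [Nat.cast_sub hkM, hk3, hadef]
        push_cast
        ring
      have h2 : M - k ≡ e0 [MOD Q] := (ZMod.natCast_eq_natCast_iff _ _ _).1 h1
      have h3 : M - k ≡ a1 [MOD b] := (h2.of_mul_right _).trans he0a
      have h4 : M - k ≡ y * c [MOD (b ^ 2 - 1)] := by
        have h5 : M - k ≡ e0 [MOD (b ^ 2 - 1)] := by
          rw [hQ, mul_comm] at h2
          exact h2.of_mul_right _
        exact h5.trans he0c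
      exact mem_SS_of b hb L (by omega) a1 ha1b c hc (M - k) (by omega) (by omega) h3 h4
    have h1 : ∑ k ∈ Ioc (M - 2 * y) (M - y), ArithmeticFunction.vonMangoldt.residueClass a k =
        ∑ k ∈ (Ioc (M - 2 * y) (M - y)).filter (fun k : ℕ => (k : ZMod Q) = a),
          ArithmeticFunction.vonMangoldt (M - revL b L (revL b L (M - k))) := by
      rw [Finset.sum_filter]
      apply Finset.sum_congr rfl
      intro k hk
      by_cases hka : (k : ZMod Q) = a
      · rw [if_pos hka]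
        have h2 := hkey k (Finset.mem_filter.2 ⟨hk, hka⟩)
        rw [revL_revL b hb L (M - k) h2.1]
        have h3 : M - (M - k) = k := by
          rw [Finset.mem_Ioc] at hk
          omega
        rw [h3]
        simp [ArithmeticFunction.vonMangoldt.residueClass, hka]
      · rw [if_neg hka]
        simp [ArithmeticFunction.vonMangoldt.residueClass, hka]
    rw [h1]
    have hinj : Set.InjOn (fun k => revL b L (M - k))
        ((Ioc (M - 2 * y) (M - y)).filter (fun k : ℕ => (k : ZMod Q) = a) : Set ℕ) := by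
      intro k1 hk1 k2 hk2 h12
      have e1 := hkey k1 (by simpa using hk1)
      have e2 := hkey k2 (by simpa using hk2)
      have h3 : M - k1 = M - k2 := by
        rw [← revL_revL b hb L (M - k1) e1.1, ← revL_revL b hb L (M - k2) e2.1]
        exact congrArg (revL b L) h12
      have f1 : k1 ≤ M - y := by
        have := (Finset.mem_filter.1 (Finset.mem_coe.1 hk1)).1
        exact (Finset.mem_Ioc.1 this).2
      have f2 : k2 ≤ M - y := by
        have := (Finset.mem_filter.1 (Finset.mem_coe.1 hk2)).1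
        exact (Finset.mem_Ioc.1 this).2
      omega
    have h2 := Finset.sum_image (f := fun n => ArithmeticFunction.vonMangoldt (M - revL b L n))
      (g := fun k => revL b L (M - k)) hinj
    rw [← h2]
    apply Finset.sum_le_sum_of_subset_of_nonneg
    · intro n hn
      rw [Finset.mem_image] at hn
      obtain ⟨k, hk, rfl⟩ := hn
      exact (hkey k hk).2
    · intro n _ _
      exact ArithmeticFunction.vonMangoldt_nonneg
  have hk := (hkap L (by omega) a1 ha1 ha1b).1
  have h1 : (b : ℝ) ^ L = b * y := by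
    exact_mod_cast hLL
  have h2 : 0 ≤ (y : ℝ) / (2 * Q.totient) := by positivity
  calc c1 / (2 * Q.totient * b) * (b : ℝ) ^ L = c1 * ((y : ℝ) / (2 * Q.totient)) := by
        rw [h1]
        field_simp
    _ ≤ kap b L a1 * ((y : ℝ) / (2 * Q.totient)) := by gcongr
    _ ≤ kap b L a1 * ∑ n ∈ SS b L a1 c, ArithmeticFunction.vonMangoldt (M - revL b L n) := by
        apply mul_le_mul_of_nonneg_left _ (le_trans hc1.le hk)
        exact le_trans hS hcmp

end Pool.Agent.H10.RP
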