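import Pool.Agent.H10.RP.Alt
import Pool.Agent.H10.RP.Local
import Pool.Agent.H10.RP.MainT
import Pool.Agent.H10.RP.Disp

/-!
# Reversed primes: one dyadic block (job RP-24a)

PROOF of `block`. Let `X` be large, `L` the largest integer with `2 b ^ L ≤ X`, so `b ^ L ≤ X / 2 < b ^ (L + 1)` and
`L ~ log X / log b`. For `M ∈ (X / 2, X]`: `b ^ L ≤ M ≤ b ^ (L + 3)`. Fix one of the finitely many pairs `(a1, c)`.
`E e = ∑_{n ∈ SS, revL n = e} (Λ n - kap)`, `V n = Λ n` for `n ≤ X`, else `0`. `disp` with `X := X + 1`,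
`ε = (X + 1) L ^ (-A')` and `alt` (`∑ E n ee (α n) = Hs α`; `revL n < b ^ L ≤ X`). `∑ |E|² ≤ ∑_{n ∈ SS} (Λ n - kap)²
≤ C X L²`, `∑ |V|² ≤ X (log X)²`, so `∑_{M ≤ X} |∑_{n ∈ SS} (Λ n - kap) Λ(M - revL n)|² ≤ C X³ L ^ (2 - 2A')` (`M ≥ b ^ L > revL n`).
So for all but `O(X L ^ (2 - 2 A'))` of the `M` this inner sum is at most `c0 b ^ L / 2` in absolute value,
and if the coprimality conditions of `main_lower` hold for `M` and `(a1, c)`, then
`∑_{n ∈ SS} Λ n Λ(M - revL n) ≥ c0 b ^ L / 2`. By `local_ok` every admissible `M` has such a pair `(a1, c)`.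
In the last sum the terms where `n` or `M - revL n` is a prime power but not a prime contribute at most
`2 (log X)² * #{prime powers ≤ X, not prime} ≤ C √X (log X)³` (`revL` is injective), so there are at least
`(c0 b ^ L / 4) / (log X)²` primes `n ∈ SS` with `M - revL n` prime; `revL_digits`; `n < b ^ L ≤ M`; `b ∤ n` as
`n.Coprime b`, `b ≥ 2`.
-/

set_option autoImplicit false

open Finset

namespace Pool.Agent.H10.RP

/-- the number of primes `p < M`, `b ∤ p`, such that `M` minus the reversal of `p` is prime -/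
def repCount (b M : ℕ) : ℕ :=
  ((range M).filter (fun p => p.Prime ∧ ¬ b ∣ p ∧
    (M - Nat.ofDigits b (Nat.digits b p).reverse).Prime)).card

/-- the signal on the reversals -/
noncomputable def blockE (b L a1 c : ℕ) (e : ℕ) : ℂ :=
  if e < b ^ L ∧ revL b L e ∈ SS b L a1 c then
    ((ArithmeticFunction.vonMangoldt (revL b L e) - kap b L a1 : ℝ) : ℂ) else 0

/-- von Mangoldt below `Y` -/
noncomputable def blockV (Y : ℕ) (n : ℕ) : ℂ := if n < Y then Lam n else 0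

theorem block_mem_SS {b L a1 c n : ℕ} (h : n ∈ SS b L a1 c) :
    n < b ^ L ∧ n / b ^ (L - 1) = a1 ∧ n % (b ^ 2 - 1) = c ∧ n.Coprime b := by
  unfold SS at h
  rw [mem_filter, mem_range] at h
  exact h

theorem block_sum_E (b : ℕ) (hb : 2 ≤ b) (L a1 c : ℕ) (F : ℕ → ℂ) (N : ℕ) (hN : b ^ L ≤ N) :
    ∑ e ∈ range N, blockE b L a1 c e * F e =
      ∑ n ∈ SS b L a1 c, ((ArithmeticFunction.vonMangoldt n - kap b L a1 : ℝ) : ℂ) *
        F (revL b L n) := by
  classical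
  have h1 : ∑ e ∈ range N, blockE b L a1 c e * F e =
      ∑ e ∈ (range N).filter (fun e => e < b ^ L ∧ revL b L e ∈ SS b L a1 c),
        ((ArithmeticFunction.vonMangoldt (revL b L e) - kap b L a1 : ℝ) : ℂ) * F e := by
    rw [sum_filter]
    refine sum_congr rfl (fun e _ => ?_)
    unfold blockE
    split_ifs
    · rfl
    · rw [zero_mul]
  rw [h1]
  refine sum_nbij' (fun e => revL b L e) (fun n => revL b L n) ?_ ?_ ?_ ?_ ?_
  · intro e he
    rw [mem_filter] at he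
    exact he.2.2
  · intro n hn
    have h2 := block_mem_SS hn
    have h3 := revL_lt b hb L n
    rw [mem_filter, mem_range, revL_revL b hb L n h2.1]
    exact ⟨by omega, h3, hn⟩
  · intro e he
    rw [mem_filter] at he
    exact revL_revL b hb L e he.2.1
  · intro n hn
    exact revL_revL b hb L n (block_mem_SS hn).1
  · intro e he
    rw [mem_filter] at he
    rw [revL_revL b hb L e he.2.1]

theorem block_norm_E (b : ℕ) (hb : 2 ≤ b) (L a1 c : ℕ) (c2 : ℝ) (h0 : 0 ≤ kap b L a1)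
    (h2 : kap b L a1 ≤ c2) (e : ℕ) : ‖blockE b L a1 c e‖ ≤ L * Real.log b + c2 := by
  have hlog : (0 : ℝ) ≤ L * Real.log b :=
    mul_nonneg (Nat.cast_nonneg _) (Real.log_natCast_nonneg b)
  unfold blockE
  split_ifs with h
  · have h3 := revL_lt b hb L e
    have h4 : (0 : ℝ) ≤ ArithmeticFunction.vonMangoldt (revL b L e) :=
      ArithmeticFunction.vonMangoldt_nonneg
    have h5 : ArithmeticFunction.vonMangoldt (revL b L e) ≤ L * Real.log b := by
      refine ArithmeticFunction.vonMangoldt_le_log.trans ?_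
      rcases Nat.eq_zero_or_pos (revL b L e) with h6 | h6
      · rw [h6, Nat.cast_zero, Real.log_zero]
        exact hlog
      · rw [← Real.log_pow]
        refine Real.log_le_log (by exact_mod_cast h6) ?_
        exact_mod_cast h3.le
    rw [Complex.norm_real, Real.norm_eq_abs, abs_le]
    constructor <;> linarith
  · rw [norm_zero]
    linarith

theorem block_norm_V (Y : ℕ) (n : ℕ) : ‖blockV Y n‖ ≤ Real.log Y := by
  unfold blockV
  split_ifs with h
  · unfold Lam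
    rw [Complex.norm_real, Real.norm_of_nonneg ArithmeticFunction.vonMangoldt_nonneg]
    refine ArithmeticFunction.vonMangoldt_le_log.trans ?_
    rcases Nat.eq_zero_or_pos n with h6 | h6
    · rw [h6, Nat.cast_zero, Real.log_zero]
      exact Real.log_natCast_nonneg Y
    · refine Real.log_le_log (by exact_mod_cast h6) ?_
      exact_mod_cast h.le
  · rw [norm_zero]
    exact Real.log_natCast_nonneg Y

/-- the second moment -/
theorem block_moment (b : ℕ) (hb : 2 ≤ b) (L a1 c Y : ℕ) (c2 ε B : ℝ) (hε : 0 ≤ ε)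
    (h0 : 0 ≤ kap b L a1) (h2 : kap b L a1 ≤ c2) (hY : b ^ L ≤ Y)
    (hB1 : L * Real.log b + c2 ≤ B) (hB2 : Real.log Y ≤ B)
    (h : ∀ α : ℝ, ‖Hs b L a1 c α‖ ≤ ε ∨ ‖∑ n ∈ range Y, Lam n * ee (α * n)‖ ≤ ε) :
    ∑ M ∈ range (2 * Y), ‖∑ e ∈ range (M + 1), blockE b L a1 c e * blockV Y (M - e)‖ ^ 2 ≤
      ε ^ 2 * (2 * Y * B ^ 2) := by
  have hB0 : 0 ≤ B := (Real.log_natCast_nonneg Y).trans hB2
  refine (disp (blockE b L a1 c) (blockV Y) Y ε hε ?_ ?_ ?_).trans ?_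
  · intro n hn
    unfold blockE
    rw [if_neg]
    intro h3
    omega
  · intro n hn
    unfold blockV
    rw [if_neg (by omega)]
  · intro α
    rcases h α with h3 | h3
    · left
      rw [block_sum_E b hb L a1 c (fun n => ee (α * n)) Y hY]
      exact h3
    · right
      have h4 : ∑ n ∈ range Y, blockV Y n * ee (α * n) = ∑ n ∈ range Y, Lam n * ee (α * n) := by
        refine sum_congr rfl (fun n hn => ?_)
        unfold blockV
        rw [if_pos (mem_range.1 hn)]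
      rw [h4]
      exact h3
  · refine mul_le_mul_of_nonneg_left ?_ (sq_nonneg ε)
    have h3 : ∑ n ∈ range Y, ‖blockE b L a1 c n‖ ^ 2 ≤ Y * B ^ 2 := by
      calc ∑ n ∈ range Y, ‖blockE b L a1 c n‖ ^ 2 ≤ ∑ n ∈ range Y, B ^ 2 := by
            refine sum_le_sum (fun n _ => ?_)
            exact pow_le_pow_left₀ (norm_nonneg _)
              ((block_norm_E b hb L a1 c c2 h0 h2 n).trans hB1) 2
        _ = Y * B ^ 2 := by rw [sum_const, card_range, nsmul_eq_mul]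
    have h4 : ∑ n ∈ range Y, ‖blockV Y n‖ ^ 2 ≤ Y * B ^ 2 := by
      calc ∑ n ∈ range Y, ‖blockV Y n‖ ^ 2 ≤ ∑ n ∈ range Y, B ^ 2 := by
            refine sum_le_sum (fun n _ => ?_)
            exact pow_le_pow_left₀ (norm_nonneg _) ((block_norm_V Y n).trans hB2) 2
        _ = Y * B ^ 2 := by rw [sum_const, card_range, nsmul_eq_mul]
    linarith

/-- the exceptional integers for one pair `(a1, c)` -/
noncomputable def blockBad (b L a1 c Y : ℕ) (t : ℝ) : Finset ℕ :=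
  (range (2 * Y)).filter (fun M =>
    t < ‖∑ e ∈ range (M + 1), blockE b L a1 c e * blockV Y (M - e)‖)

theorem block_card_bad (b : ℕ) (hb : 2 ≤ b) (L a1 c Y : ℕ) (c2 ε B t : ℝ) (hε : 0 ≤ ε)
    (h0 : 0 ≤ kap b L a1) (h2 : kap b L a1 ≤ c2) (hY : b ^ L ≤ Y)
    (hB1 : L * Real.log b + c2 ≤ B) (hB2 : Real.log Y ≤ B) (ht : 0 ≤ t)
    (h : ∀ α : ℝ, ‖Hs b L a1 c α‖ ≤ ε ∨ ‖∑ n ∈ range Y, Lam n * ee (α * n)‖ ≤ ε) :
    ((blockBad b L a1 c Y t).card : ℝ) * t ^ 2 ≤ ε ^ 2 * (2 * Y * B ^ 2) := by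
  refine le_trans ?_ (block_moment b hb L a1 c Y c2 ε B hε h0 h2 hY hB1 hB2 h)
  calc ((blockBad b L a1 c Y t).card : ℝ) * t ^ 2 = ∑ M ∈ blockBad b L a1 c Y t, t ^ 2 := by
        rw [sum_const, nsmul_eq_mul]
    _ ≤ ∑ M ∈ blockBad b L a1 c Y t,
        ‖∑ e ∈ range (M + 1), blockE b L a1 c e * blockV Y (M - e)‖ ^ 2 := by
        refine sum_le_sum (fun M hM => ?_)
        unfold blockBad at hM
        rw [mem_filter] at hM
        exact pow_le_pow_left₀ ht hM.2.le 2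
    _ ≤ _ := by
        refine sum_le_sum_of_subset_of_nonneg ?_ (fun _ _ _ => sq_nonneg _)
        unfold blockBad
        exact filter_subset _ _

/-- the prime powers that are not prime are negligible -/
theorem block_np (X : ℕ) (hX : 1 ≤ X) :
    ∑ n ∈ (range (X + 1)).filter (fun n => ¬ n.Prime), ArithmeticFunction.vonMangoldt n ≤
      2 * √X * Real.log X := by
  have h1 := Chebyshev.psi_sub_theta_le (x := (X : ℝ)) (by exact_mod_cast hX)
  rw [Chebyshev.psi_sub_theta_eq_sum_not_prime, Nat.floor_natCast] at h1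
  refine le_trans (le_of_eq ?_) h1
  symm
  refine sum_subset ?_ ?_
  · intro n hn
    rw [mem_filter, mem_Ioc] at hn
    rw [mem_filter, mem_range]
    exact ⟨by omega, hn.2⟩
  · intro n hn hn'
    rw [mem_filter, mem_range] at hn
    rw [mem_filter, mem_Ioc] at hn'
    have h2 : n = 0 := by
      by_contra h3
      exact hn' ⟨⟨by omega, by omega⟩, hn.2⟩
    rw [h2]
    simp

theorem block_repCount (b : ℕ) (hb : 2 ≤ b) (L a1 c M : ℕ) (hL : 1 ≤ L) (ha1 : 1 ≤ a1)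
    (hM : b ^ L ≤ M) :
    ((SS b L a1 c).filter (fun n => n.Prime ∧ (M - revL b L n).Prime)).card ≤ repCount b M := by
  unfold repCount
  refine card_le_card (fun n hn => ?_)
  rw [mem_filter] at hn
  obtain ⟨h1, h2, h3⟩ := hn
  obtain ⟨h4, h5, h6, h7⟩ := block_mem_SS h1
  rw [mem_filter, mem_range]
  have h8 : b ^ (L - 1) ≤ n := by
    by_contra h9
    rw [Nat.div_eq_of_lt (by omega)] at h5
    omega
  refine ⟨by omega, h2, ?_, ?_⟩
  · intro h9
    have h10 : b ∣ Nat.gcd n b := Nat.dvd_gcd h9 dvd_rfl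
    rw [h7] at h10
    have := Nat.le_of_dvd one_pos h10
    omega
  · rw [← revL_digits b hb L n h8 h4 hL]
    exact h3

/-- primes versus von Mangoldt -/
theorem block_primes (b : ℕ) (hb : 2 ≤ b) (L a1 c M X : ℕ) (hL : 1 ≤ L) (ha1 : 1 ≤ a1)
    (hM : b ^ L ≤ M) (hMX : M ≤ X) :
    ∑ n ∈ SS b L a1 c, ArithmeticFunction.vonMangoldt n *
      ArithmeticFunction.vonMangoldt (M - revL b L n) ≤
        repCount b M * (Real.log X) ^ 2 + 4 * √X * (Real.log X) ^ 2 := by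
  classical
  have hX : 1 ≤ X := by
    have : 1 ≤ b ^ L := Nat.one_le_pow _ _ (by omega)
    omega
  have hlX : 0 ≤ Real.log X := Real.log_natCast_nonneg X
  have hΛ : ∀ m : ℕ, m ≤ X → ArithmeticFunction.vonMangoldt m ≤ Real.log X := by
    intro m hm
    refine ArithmeticFunction.vonMangoldt_le_log.trans ?_
    rcases Nat.eq_zero_or_pos m with h6 | h6
    · rw [h6, Nat.cast_zero, Real.log_zero]
      exact hlX
    · refine Real.log_le_log (by exact_mod_cast h6) ?_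
      exact_mod_cast hm
  have hnn : ∀ m : ℕ, (0 : ℝ) ≤ ArithmeticFunction.vonMangoldt m := fun m =>
    ArithmeticFunction.vonMangoldt_nonneg
  -- pointwise
  have hpt : ∀ n ∈ SS b L a1 c, ArithmeticFunction.vonMangoldt n *
      ArithmeticFunction.vonMangoldt (M - revL b L n) ≤
      (if n.Prime ∧ (M - revL b L n).Prime then (Real.log X) ^ 2 else 0) +
      Real.log X * (if ¬ n.Prime then ArithmeticFunction.vonMangoldt n else 0) +
      Real.log X * (if ¬ (M - revL b L n).Prime then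
        ArithmeticFunction.vonMangoldt (M - revL b L n) else 0) := by
    intro n hn
    have h1 := (block_mem_SS hn).1
    have h2 := hΛ n (by omega)
    have h3 := hΛ (M - revL b L n) (by omega)
    have h4 := hnn n
    have h5 := hnn (M - revL b L n)
    by_cases h6 : n.Prime
    · by_cases h7 : (M - revL b L n).Prime
      · rw [if_pos ⟨h6, h7⟩, if_neg (not_not.2 h6), if_neg (not_not.2 h7)]
        nlinarith
      · rw [if_neg (fun h => h7 h.2), if_neg (not_not.2 h6), if_pos h7]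
        nlinarith
    · rw [if_neg (fun h => h6 h.1), if_pos h6]
      have h8 : (0 : ℝ) ≤ Real.log X * (if ¬ (M - revL b L n).Prime then
        ArithmeticFunction.vonMangoldt (M - revL b L n) else 0) := by
        split_ifs
        · rw [mul_zero]
        · exact mul_nonneg hlX h5
      nlinarith
  refine (sum_le_sum hpt).trans ?_
  rw [sum_add_distrib, sum_add_distrib]
  have e1 : ∑ n ∈ SS b L a1 c,
      (if n.Prime ∧ (M - revL b L n).Prime then (Real.log X) ^ 2 else (0 : ℝ)) ≤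
      repCount b M * (Real.log X) ^ 2 := by
    rw [← sum_filter, sum_const, nsmul_eq_mul]
    refine mul_le_mul_of_nonneg_right ?_ (sq_nonneg _)
    exact_mod_cast block_repCount b hb L a1 c M hL ha1 hM
  have e2 : ∑ n ∈ SS b L a1 c, Real.log X * (if ¬ n.Prime then
      ArithmeticFunction.vonMangoldt n else 0) ≤ Real.log X * (2 * √X * Real.log X) := by
    rw [← mul_sum, ← sum_filter]
    refine mul_le_mul_of_nonneg_left (le_trans ?_ (block_np X hX)) hlX
    refine sum_le_sum_of_subset_of_nonneg ?_ (fun _ _ _ => hnn _)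
    intro n hn
    rw [mem_filter] at hn ⊢
    have := (block_mem_SS hn.1).1
    exact ⟨mem_range.2 (by omega), hn.2⟩
  have e3 : ∑ n ∈ SS b L a1 c, Real.log X * (if ¬ (M - revL b L n).Prime then
      ArithmeticFunction.vonMangoldt (M - revL b L n) else 0) ≤
      Real.log X * (2 * √X * Real.log X) := by
    rw [← mul_sum, ← sum_filter]
    refine mul_le_mul_of_nonneg_left (le_trans ?_ (block_np X hX)) hlX
    have hinj : Set.InjOn (fun n => M - revL b L n)
        (((SS b L a1 c).filter (fun n => ¬ (M - revL b L n).Prime) : Finset ℕ) : Set ℕ) := by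
      intro n hn n' hn' hnn'
      rw [mem_coe, mem_filter] at hn hn'
      have h1 := (block_mem_SS hn.1).1
      have h2 := (block_mem_SS hn'.1).1
      have h3 := revL_lt b hb L n
      have h4 := revL_lt b hb L n'
      beta_reduce at hnn'
      have h5 : revL b L n = revL b L n' := by omega
      rw [← revL_revL b hb L n h1, h5, revL_revL b hb L n' h2]
    rw [← sum_image (f := fun m => ArithmeticFunction.vonMangoldt m) hinj]
    refine sum_le_sum_of_subset_of_nonneg ?_ (fun _ _ _ => hnn _)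
    intro m hm
    rw [mem_image] at hm
    obtain ⟨n, hn, rfl⟩ := hm
    rw [mem_filter] at hn ⊢
    exact ⟨mem_range.2 (by omega), hn.2⟩
  nlinarith

/-- a good integer has many representations -/
theorem block_good (b : ℕ) (hb : 2 ≤ b) (L a1 c M X : ℕ) (c0 : ℝ) (hL : 1 ≤ L) (ha1 : 1 ≤ a1)
    (hM : b ^ L ≤ M) (hMX : M ≤ X)
    (hmain : c0 * (b : ℝ) ^ L ≤ kap b L a1 *
      ∑ n ∈ SS b L a1 c, ArithmeticFunction.vonMangoldt (M - revL b L n))
    (hgood : M ∉ blockBad b L a1 c (X + 1) (c0 * (b : ℝ) ^ L / 2)) :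
    c0 * (b : ℝ) ^ L / 2 ≤ repCount b M * (Real.log X) ^ 2 + 4 * √X * (Real.log X) ^ 2 := by
  refine le_trans ?_ (block_primes b hb L a1 c M X hL ha1 hM hMX)
  unfold blockBad at hgood
  rw [mem_filter, mem_range] at hgood
  have h1 : ‖∑ e ∈ range (M + 1), blockE b L a1 c e * blockV (X + 1) (M - e)‖ ≤
      c0 * (b : ℝ) ^ L / 2 := by
    by_contra h2
    exact hgood ⟨by omega, not_le.1 h2⟩
  rw [block_sum_E b hb L a1 c (fun e => blockV (X + 1) (M - e)) (M + 1) (by omega)] at h1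
  have h2 : ∑ n ∈ SS b L a1 c, ((ArithmeticFunction.vonMangoldt n - kap b L a1 : ℝ) : ℂ) *
      blockV (X + 1) (M - revL b L n) =
      ((∑ n ∈ SS b L a1 c, (ArithmeticFunction.vonMangoldt n - kap b L a1) *
        ArithmeticFunction.vonMangoldt (M - revL b L n) : ℝ) : ℂ) := by
    rw [Complex.ofReal_sum]
    refine sum_congr rfl (fun n _ => ?_)
    unfold blockV Lam
    rw [if_pos (by omega), Complex.ofReal_mul]
  rw [h2, Complex.norm_real, Real.norm_eq_abs, abs_le] at h1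
  have h3 : ∑ n ∈ SS b L a1 c, (ArithmeticFunction.vonMangoldt n - kap b L a1) *
        ArithmeticFunction.vonMangoldt (M - revL b L n) =
      ∑ n ∈ SS b L a1 c, ArithmeticFunction.vonMangoldt n *
        ArithmeticFunction.vonMangoldt (M - revL b L n) -
      kap b L a1 * ∑ n ∈ SS b L a1 c, ArithmeticFunction.vonMangoldt (M - revL b L n) := by
    rw [mul_sum, ← sum_sub_distrib]
    exact sum_congr rfl (fun n _ => by ring)
  rw [h3] at h1
  linarith [h1.1]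

/-- one pair: the exceptional set is small -/
theorem block_small (b : ℕ) (hb : 2 ≤ b) (c0 c2 : ℝ) (hc0 : 0 < c0) (hc2 : 0 < c2) (Ap : ℝ)
    (hAp : 0 ≤ Ap) (L X a1 c : ℕ) (hL : 1 ≤ L) (h1 : b ^ L ≤ X) (h2 : X + 1 ≤ b ^ (L + 2))
    (h3 : 0 ≤ kap b L a1) (h4 : kap b L a1 ≤ c2)
    (h : ∀ α : ℝ, ‖Hs b L a1 c α‖ ≤ (X + 1 : ℕ) * (L : ℝ) ^ (-(Ap + 3)) ∨
      ‖∑ n ∈ range (X + 1), Lam n * ee (α * n)‖ ≤ (X + 1 : ℕ) * (L : ℝ) ^ (-(Ap + 3))) :
    ((blockBad b L a1 c (X + 1) (c0 * (b : ℝ) ^ L / 2)).card : ℝ) ≤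
      16 * (4 * Real.log b + c2) ^ 2 * (b : ℝ) ^ 4 / c0 ^ 2 * X * ((L : ℝ) ^ (-Ap) / L) := by
  have hb0 : (0 : ℝ) < b := by positivity
  have hb1 : (1 : ℝ) ≤ b := by exact_mod_cast (by omega : 1 ≤ b)
  have hL1 : (1 : ℝ) ≤ L := by exact_mod_cast hL
  have hL0 : (0 : ℝ) < L := by linarith
  have hlogb : 0 < Real.log b := Real.log_pos (by exact_mod_cast (by omega : 1 < b))
  have hX1 : (1 : ℝ) ≤ X := by
    have h5 : 1 ≤ b ^ L := Nat.one_le_pow _ _ (by omega)
    exact_mod_cast h5.trans h1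
  have hXb : ((X + 1 : ℕ) : ℝ) ≤ (b : ℝ) ^ (L + 2) := by exact_mod_cast h2
  have hX0 : (0 : ℝ) < ((X + 1 : ℕ) : ℝ) := by positivity
  set K : ℝ := 4 * Real.log b + c2 with hK
  have hK0 : 0 < K := by positivity
  have hpow0 : (0 : ℝ) < (L : ℝ) ^ (-(Ap + 3)) := Real.rpow_pos_of_pos hL0 _
  have hbad := block_card_bad b hb L a1 c (X + 1) c2 ((X + 1 : ℕ) * (L : ℝ) ^ (-(Ap + 3)))
    (K * L) (c0 * (b : ℝ) ^ L / 2) (by positivity) h3 h4 (by omega) (by
      rw [hK]; nlinarith) (by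
      have h5 : Real.log ((X + 1 : ℕ) : ℝ) ≤ (L + 2) * Real.log b := by
        calc Real.log ((X + 1 : ℕ) : ℝ) ≤ Real.log ((b : ℝ) ^ (L + 2)) :=
              Real.log_le_log hX0 hXb
          _ = (L + 2) * Real.log b := by rw [Real.log_pow]; push_cast; ring
      rw [hK]; nlinarith) (by positivity) h
  have ht0 : (0 : ℝ) < (c0 * (b : ℝ) ^ L / 2) ^ 2 := by positivity
  rw [← le_div_iff₀ ht0] at hbad
  refine hbad.trans ?_
  rw [div_le_iff₀ ht0]
  -- the power of L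
  have hLpow : ((L : ℝ) ^ (-(Ap + 3))) ^ 2 * (L : ℝ) ^ 2 ≤ (L : ℝ) ^ (-Ap) / L := by
    have e1 : ((L : ℝ) ^ (-(Ap + 3))) ^ 2 * (L : ℝ) ^ 2 = (L : ℝ) ^ (-(2 * Ap) - 4) := by
      rw [← Real.rpow_natCast, ← Real.rpow_mul hL0.le, ← Real.rpow_natCast (L : ℝ) 2,
        ← Real.rpow_add hL0]
      congr 1
      push_cast
      ring
    have e2 : (L : ℝ) ^ (-Ap) / L = (L : ℝ) ^ (-Ap - 1) := by
      rw [Real.rpow_sub hL0, Real.rpow_one]
    rw [e1, e2]
    exact Real.rpow_le_rpow_of_exponent_le hL1 (by linarith)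
  have hXX : ((X + 1 : ℕ) : ℝ) ≤ 2 * X := by push_cast; linarith
  have hX2 : ((X + 1 : ℕ) : ℝ) ^ 2 ≤ (b : ℝ) ^ 4 * ((b : ℝ) ^ L) ^ 2 := by
    calc ((X + 1 : ℕ) : ℝ) ^ 2 ≤ ((b : ℝ) ^ (L + 2)) ^ 2 := pow_le_pow_left₀ hX0.le hXb 2
      _ = _ := by rw [pow_add]; ring
  set Y : ℝ := ((X + 1 : ℕ) : ℝ) with hY
  set P : ℝ := (L : ℝ) ^ (-(Ap + 3)) with hP
  set R : ℝ := (L : ℝ) ^ (-Ap) / L with hR
  set bL : ℝ := (b : ℝ) ^ L with hbL
  have hbL0 : 0 < bL := by positivity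
  have hR0 : 0 ≤ R := by positivity
  calc (Y * P) ^ 2 * (2 * Y * (K * L) ^ 2) = 2 * K ^ 2 * (Y ^ 2) * Y * (P ^ 2 * (L : ℝ) ^ 2) := by
        ring
    _ ≤ 2 * K ^ 2 * ((b : ℝ) ^ 4 * bL ^ 2) * (2 * X) * R := by gcongr
    _ = 16 * K ^ 2 * (b : ℝ) ^ 4 / c0 ^ 2 * X * R * (c0 * bL / 2) ^ 2 := by
        field_simp
        ring

theorem block (b : ℕ) (hb : 2 ≤ b) : ∃ c : ℝ, 0 < c ∧ ∀ A : ℝ, ∃ X0 : ℕ, ∀ X : ℕ, X0 ≤ X →
    (Nat.card {M : ℕ // X / 2 < M ∧ M ≤ X ∧ ((Odd b ∨ b = 2) → Even M) ∧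
      (repCount b M : ℝ) < c * M / (Real.log M) ^ 2} : ℝ) ≤ X * (Real.log X) ^ (-A) := by
  classical
  obtain ⟨c0, hc0, L1, hmain⟩ := main_lower b hb
  obtain ⟨c1, c2, hc1, hc2, L2, hkap⟩ := kap_bounds b hb
  have hb0 : (0 : ℝ) < b := by positivity
  have hb1 : (1 : ℝ) < b := by exact_mod_cast (by omega : 1 < b)
  have hlogb : 0 < Real.log b := Real.log_pos hb1
  refine ⟨c0 / (36 * (b : ℝ) ^ 2), by positivity, fun A => ?_⟩
  obtain ⟨Ap, hApdef⟩ : ∃ Ap : ℝ, Ap = max A 0 := ⟨_, rfl⟩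
  have hAp0 : 0 ≤ Ap := by rw [hApdef]; exact le_max_right _ _
  have hApA : A ≤ Ap := by rw [hApdef]; exact le_max_left _ _
  obtain ⟨L3, halt⟩ := alt b hb (Ap + 3)
  obtain ⟨D, hD⟩ : ∃ D : ℝ, D = (b : ℝ) ^ 3 *
    (16 * (4 * Real.log b + c2) ^ 2 * (b : ℝ) ^ 4 / c0 ^ 2) := ⟨_, rfl⟩
  have hD0 : 0 < D := by rw [hD]; positivity
  obtain ⟨L4, hL4⟩ := exists_nat_ge (D * (4 * Real.log b) ^ Ap)
  have hsqrt : 1 < √(b : ℝ) := by
    rw [Real.lt_sqrt (by norm_num)]
    linarith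
  have hev : ∀ᶠ L : ℕ in Filter.atTop, (L : ℝ) ^ 2 / (√(b : ℝ)) ^ L <
      c0 / (144 * b * (Real.log b) ^ 2) :=
    (tendsto_pow_const_div_const_pow_of_one_lt 2 hsqrt).eventually
      (gt_mem_nhds (by positivity))
  obtain ⟨L5, hL5⟩ := Filter.eventually_atTop.1 hev
  obtain ⟨Lm, hLm⟩ : ∃ Lm : ℕ, Lm = L1 + L2 + L3 + L4 + L5 + 1 := ⟨_, rfl⟩
  refine ⟨2 * b ^ Lm + 3, fun X hX => ?_⟩
  obtain ⟨L, hLdef⟩ : ∃ L : ℕ, L = Nat.log b (X / 2) := ⟨_, rfl⟩
  have hLLm : Lm ≤ L := by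
    rw [hLdef]
    exact Nat.le_log_of_pow_le (by omega) (by omega)
  have hX2 : X / 2 ≠ 0 := by omega
  have hbL : b ^ L ≤ X / 2 := by rw [hLdef]; exact Nat.pow_log_le_self b hX2
  have hbL' : X / 2 < b ^ (L + 1) := by rw [hLdef]; exact Nat.lt_pow_succ_log_self (by omega) _
  have hXb : X + 1 ≤ b ^ (L + 2) := by
    have h1 : 2 * b ^ (L + 1) ≤ b ^ (L + 2) := by
      rw [pow_succ b (L + 1), mul_comm]
      exact Nat.mul_le_mul_left _ hb
    omega
  have hXb3 : b ^ (L + 2) ≤ b ^ (L + 3) := Nat.pow_le_pow_right (by omega) (by omega)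
  have hL1' : 1 ≤ L := by omega
  have hLr : (1 : ℝ) ≤ L := by exact_mod_cast hL1'
  have hLr0 : (0 : ℝ) < L := by linarith
  have hX3 : 3 ≤ X := by omega
  have hX3' : (3 : ℝ) ≤ X := by exact_mod_cast hX3
  have hXr0 : (0 : ℝ) < X := by linarith
  have hlX1 : 1 ≤ Real.log X := by
    rw [← Real.log_exp 1]
    refine Real.log_le_log (Real.exp_pos 1) ?_
    have := Real.exp_one_lt_d9
    linarith
  have hlX : Real.log X ≤ (L + 2) * Real.log b := by
    calc Real.log X ≤ Real.log ((b : ℝ) ^ (L + 2)) := by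
          refine Real.log_le_log hXr0 ?_
          exact_mod_cast (by omega : X ≤ b ^ (L + 2))
      _ = (L + 2) * Real.log b := by rw [Real.log_pow]; push_cast; ring
  have hlX3 : Real.log X ≤ 3 * (L * Real.log b) := by nlinarith
  -- the pairs
  obtain ⟨Pr, hPr⟩ : ∃ Pr : Finset (ℕ × ℕ), Pr = (range b ×ˢ range (b ^ 2 - 1)).filter
    (fun p : ℕ × ℕ => 1 ≤ p.1 ∧ Nat.Coprime p.2 (b ^ 2 - 1)) := ⟨_, rfl⟩
  have hPrcard : ((Pr.card : ℕ) : ℝ) ≤ (b : ℝ) ^ 3 := by
    have h1 : Pr.card ≤ b * (b ^ 2 - 1) := by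
      rw [hPr]
      refine (card_filter_le _ _).trans ?_
      rw [card_product, card_range, card_range]
    have h2 : b * (b ^ 2 - 1) ≤ b ^ 3 := by
      calc b * (b ^ 2 - 1) ≤ b * b ^ 2 := Nat.mul_le_mul_left _ (Nat.sub_le _ _)
        _ = b ^ 3 := by ring
    exact_mod_cast h1.trans h2
  obtain ⟨t, ht⟩ : ∃ t : ℝ, t = c0 * (b : ℝ) ^ L / 2 := ⟨_, rfl⟩
  have hsub : {M : ℕ | X / 2 < M ∧ M ≤ X ∧ ((Odd b ∨ b = 2) → Even M) ∧
      (repCount b M : ℝ) < c0 / (36 * (b : ℝ) ^ 2) * M / (Real.log M) ^ 2} ⊆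
      ((Pr.biUnion (fun p => blockBad b L p.1 p.2 (X + 1) t) : Finset ℕ) : Set ℕ) := by
    rintro M ⟨hM1, hM2, hM3, hM4⟩
    obtain ⟨a1, c, ha1, ha1b, hcb, hcc, hco1, hco2⟩ := local_ok b hb L M hM3
    have hMb : b ^ L ≤ M := by omega
    rw [mem_coe, mem_biUnion]
    refine ⟨(a1, c), ?_, ?_⟩
    · rw [hPr, mem_filter, mem_product, mem_range, mem_range]
      exact ⟨⟨ha1b, hcb⟩, ha1, hcc⟩
    · by_contra hgood
      rw [ht] at hgood
      have hg := block_good b hb L a1 c M X c0 hL1' ha1 hMb hM2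
        (hmain L (by omega) a1 ha1 ha1b c hcb hcc M hMb (by omega) hco1 hco2) hgood
      have hMr : (b : ℝ) ^ L ≤ M := by exact_mod_cast hMb
      have hbLpos : (0 : ℝ) < (b : ℝ) ^ L := by positivity
      have hM0 : (0 : ℝ) < M := by linarith
      have hlM : L * Real.log b ≤ Real.log M := by
        rw [← Real.log_pow]
        exact Real.log_le_log hbLpos hMr
      have hlM0 : 0 < Real.log M := by
        have : 0 < L * Real.log b := by positivity
        linarith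
      have hMX : (M : ℝ) ≤ (b : ℝ) ^ 2 * (b : ℝ) ^ L := by
        rw [← pow_add, add_comm 2 L]
        exact_mod_cast (by omega : M ≤ b ^ (L + 2))
      have hl2 : (Real.log X) ^ 2 ≤ 9 * (Real.log M) ^ 2 := by
        have : Real.log X ≤ 3 * Real.log M := by linarith
        nlinarith
      have hl3 : (Real.log X) ^ 2 ≤ 9 * (L : ℝ) ^ 2 * (Real.log b) ^ 2 := by
        have h0 : 0 ≤ Real.log X := by linarith
        calc (Real.log X) ^ 2 ≤ (3 * (L * Real.log b)) ^ 2 := pow_le_pow_left₀ h0 hlX3 2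
          _ = _ := by ring
      -- the square root
      have hs : √(X : ℝ) ≤ b * (√(b : ℝ)) ^ L := by
        rw [Real.sqrt_le_left (by positivity)]
        have e1 : (b * (√(b : ℝ)) ^ L) ^ 2 = (b : ℝ) ^ 2 * (b : ℝ) ^ L := by
          rw [mul_pow, ← pow_mul, mul_comm L 2, pow_mul, Real.sq_sqrt hb0.le]
        rw [e1, ← pow_add, add_comm 2 L]
        exact_mod_cast (by omega : X ≤ b ^ (L + 2))
      have hsq : ((√(b : ℝ)) ^ L) ^ 2 = (b : ℝ) ^ L := by
        rw [← pow_mul, mul_comm L 2, pow_mul, Real.sq_sqrt hb0.le]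
      have h5 := hL5 L (by omega)
      have hspos : 0 < (√(b : ℝ)) ^ L := by positivity
      rw [div_lt_div_iff₀ hspos (by positivity)] at h5
      have h6 : 4 * √(X : ℝ) * (Real.log X) ^ 2 ≤ c0 * (b : ℝ) ^ L / 4 := by
        calc 4 * √(X : ℝ) * (Real.log X) ^ 2 ≤
            4 * (b * (√(b : ℝ)) ^ L) * (9 * (L : ℝ) ^ 2 * (Real.log b) ^ 2) := by gcongr
          _ = (L : ℝ) ^ 2 * (144 * b * (Real.log b) ^ 2) * (√(b : ℝ)) ^ L / 4 := by ring
          _ ≤ c0 * (√(b : ℝ)) ^ L * (√(b : ℝ)) ^ L / 4 := by gcongr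
          _ = c0 * ((√(b : ℝ)) ^ L) ^ 2 / 4 := by ring
          _ = c0 * (b : ℝ) ^ L / 4 := by rw [hsq]
      have hrep0 : (0 : ℝ) ≤ repCount b M := Nat.cast_nonneg _
      have h7 : c0 * (b : ℝ) ^ L / 4 ≤ repCount b M * (9 * (Real.log M) ^ 2) := by
        have h8 : (repCount b M : ℝ) * (Real.log X) ^ 2 ≤ repCount b M * (9 * (Real.log M) ^ 2) :=
          mul_le_mul_of_nonneg_left hl2 hrep0
        linarith
      have h9 : c0 / (36 * (b : ℝ) ^ 2) * M / (Real.log M) ^ 2 ≤ repCount b M := by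
        rw [div_le_iff₀ (by positivity), div_mul_eq_mul_div, div_le_iff₀ (by positivity)]
        have h10 : c0 * (M : ℝ) ≤ c0 * ((b : ℝ) ^ 2 * (b : ℝ) ^ L) :=
          mul_le_mul_of_nonneg_left hMX hc0.le
        have h11 : c0 * ((b : ℝ) ^ 2 * (b : ℝ) ^ L) ≤
            (4 * (b : ℝ) ^ 2) * (repCount b M * (9 * (Real.log M) ^ 2)) := by
          calc c0 * ((b : ℝ) ^ 2 * (b : ℝ) ^ L) = (4 * (b : ℝ) ^ 2) * (c0 * (b : ℝ) ^ L / 4) := by
                ring
            _ ≤ _ := by gcongr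
        linarith
      linarith
  have hcard : (Nat.card {M : ℕ // X / 2 < M ∧ M ≤ X ∧ ((Odd b ∨ b = 2) → Even M) ∧
      (repCount b M : ℝ) < c0 / (36 * (b : ℝ) ^ 2) * M / (Real.log M) ^ 2} : ℝ) ≤
      ∑ p ∈ Pr, ((blockBad b L p.1 p.2 (X + 1) t).card : ℝ) := by
    have h1 : Nat.card {M : ℕ // X / 2 < M ∧ M ≤ X ∧ ((Odd b ∨ b = 2) → Even M) ∧
      (repCount b M : ℝ) < c0 / (36 * (b : ℝ) ^ 2) * M / (Real.log M) ^ 2} ≤
      ∑ p ∈ Pr, (blockBad b L p.1 p.2 (X + 1) t).card := by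
      refine le_trans ?_ card_biUnion_le
      rw [← Set.ncard_coe_finset]
      exact Set.ncard_le_ncard hsub (Finset.finite_toSet _)
    exact_mod_cast h1
  refine hcard.trans ?_
  have hsum : ∑ p ∈ Pr, ((blockBad b L p.1 p.2 (X + 1) t).card : ℝ) ≤
      ∑ p ∈ Pr, (16 * (4 * Real.log b + c2) ^ 2 * (b : ℝ) ^ 4 / c0 ^ 2 * X *
        ((L : ℝ) ^ (-Ap) / L)) := by
    refine sum_le_sum (fun p hp => ?_)
    rw [hPr, mem_filter, mem_product, mem_range, mem_range] at hp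
    obtain ⟨⟨hp1, hp2⟩, hp3, hp4⟩ := hp
    obtain ⟨hk1, hk2⟩ := hkap L (by omega) p.1 hp3 hp1
    rw [ht]
    refine block_small b hb c0 c2 hc0 hc2 Ap hAp0 L X p.1 p.2 hL1' (by omega) hXb
      (hc1.le.trans hk1) hk2 (fun α => ?_)
    exact halt L (by omega) p.1 hp3 hp1 p.2 hp2 hp4 (X + 1) (by omega) (by omega) α
  refine hsum.trans ?_
  rw [sum_const, nsmul_eq_mul]
  have hLA : 0 < (L : ℝ) ^ (-Ap) := Real.rpow_pos_of_pos hLr0 _
  have hfin : D * ((L : ℝ) ^ (-Ap) / L) ≤ (Real.log X) ^ (-A) := by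
    have h1 : (Real.log X) ^ (-Ap) ≤ (Real.log X) ^ (-A) :=
      Real.rpow_le_rpow_of_exponent_le hlX1 (by linarith)
    refine le_trans ?_ h1
    have h2 : Real.log X ≤ (4 * Real.log b) * L := by nlinarith
    have h3 : ((4 * Real.log b) * L) ^ (-Ap) ≤ (Real.log X) ^ (-Ap) :=
      Real.rpow_le_rpow_of_nonpos (by linarith) h2 (by linarith)
    refine le_trans ?_ h3
    rw [Real.mul_rpow (by positivity) hLr0.le]
    have h4 : D * (4 * Real.log b) ^ Ap ≤ L := by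
      refine hL4.trans ?_
      exact_mod_cast (by omega : L4 ≤ L)
    have h5 : 0 < (4 * Real.log b) ^ Ap := Real.rpow_pos_of_pos (by positivity) _
    rw [Real.rpow_neg (by positivity : (0 : ℝ) ≤ 4 * Real.log b), mul_div_assoc',
      div_le_iff₀ hLr0]
    have h6 : D ≤ ((4 * Real.log b) ^ Ap)⁻¹ * L := by
      rw [inv_mul_eq_div, le_div_iff₀ h5]
      exact h4
    calc D * (L : ℝ) ^ (-Ap) ≤ ((4 * Real.log b) ^ Ap)⁻¹ * L * (L : ℝ) ^ (-Ap) := by gcongr
      _ = _ := by ring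
  calc ((Pr.card : ℕ) : ℝ) * (16 * (4 * Real.log b + c2) ^ 2 * (b : ℝ) ^ 4 / c0 ^ 2 * X *
        ((L : ℝ) ^ (-Ap) / L)) ≤ (b : ℝ) ^ 3 * (16 * (4 * Real.log b + c2) ^ 2 * (b : ℝ) ^ 4 /
        c0 ^ 2 * X * ((L : ℝ) ^ (-Ap) / L)) := by gcongr
    _ = X * (D * ((L : ℝ) ^ (-Ap) / L)) := by rw [hD]; ring
    _ ≤ X * (Real.log X) ^ (-A) := by gcongr

end Pool.Agent.H10.RP
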