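import Pool.Agent.H10.RP.FT

/-!
# Reversed primes: van der Corput's inequality and carries (job RP-5a)

PROOF of `vdc_family`. For one `m`: extend `z m` by zero outside `[0, N)` to all integers. Then
`H ∑_n z(n) = ∑_{k} ∑_{0 ≤ j < H} z(k + j)`, where `k` runs over the `N + H - 1` integers with
`-H < k < N`; Cauchy: `H² |∑ z|² ≤ (N + H) ∑_k |∑_{j < H} z(k + j)|²
= (N + H) ∑_{j, j' < H} ∑_n z(n + j - j') conj z(n)
= (N + H) (H ∑ |z|² + 2 ∑_{1 ≤ r < H} (H - r) Re ∑_n z(n + r) conj z(n))`. Sum over `m` before taking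
absolute values of the correlations, use `H - r ≤ H`, `Re w ≤ |w|` and divide by `H²`.

`carry_eq`: if `k % q ^ lam + s < q ^ lam` then `k` and `k + s` have the same quotient by
`q ^ lam`, hence the same digits at all positions `≥ lam`; these digits cancel because
`z conj z = 1`.

`carry_count`: write `j = m n / q ^ lam ≤ x / q ^ lam`. The condition says
`(j + 1) q ^ lam - m r ≤ m n < (j + 1) q ^ lam`, a half-open interval of length `r` for the real
number `n`, so it holds for at most `r` integers `n`, for each of the `x / q ^ lam + 1` values of `j`.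
-/

set_option autoImplicit false

open Finset
open scoped ComplexConjugate

namespace Pool.Agent.H10.RP

theorem carry_shift (g : ℕ → ℂ) (K N j : ℕ) (h : N + j ≤ K) :
    ∑ k ∈ range K, (if j ≤ k ∧ k - j < N then g (k - j) else 0) = ∑ n ∈ range N, g n := by
  rw [← Finset.sum_filter]
  symm
  refine Finset.sum_nbij (fun n => n + j) ?_ ?_ ?_ ?_
  · intro n hn
    rw [mem_range] at hn
    rw [mem_filter, mem_range]
    exact ⟨by omega, by omega, by omega⟩
  · intro a _ b _ hab
    exact Nat.add_right_cancel hab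
  · intro k hk
    rw [mem_coe, mem_filter, mem_range] at hk
    refine ⟨k - j, ?_, ?_⟩
    · rw [mem_coe, mem_range]
      exact hk.2.2
    · exact Nat.sub_add_cancel hk.2.1
  · intro n _
    rw [Nat.add_sub_cancel]

/-- the shifted sequence -/
noncomputable def carryZ (z : ℕ → ℂ) (N k j : ℕ) : ℂ := if j ≤ k ∧ k - j < N then z (k - j) else 0

theorem carryZ_corr (z : ℕ → ℂ) (N H j r : ℕ) (hj : j + r < H) :
    ∑ k ∈ range (N + H), carryZ z N k j * conj (carryZ z N k (j + r)) =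
      ∑ n ∈ range (N - r), z (n + r) * conj (z n) := by
  rw [← carry_shift (fun n => z (n + r) * conj (z n)) (N + H) (N - r) (j + r) (by omega)]
  refine Finset.sum_congr rfl fun k _ => ?_
  unfold carryZ
  by_cases h : j + r ≤ k ∧ k - (j + r) < N - r
  · have e1 : k - j = k - (j + r) + r := by omega
    rw [if_pos h, if_pos (by omega), if_pos (by omega), e1]
  · rw [if_neg h]
    by_cases h2 : j + r ≤ k ∧ k - (j + r) < N
    · rw [if_neg (by omega : ¬ (j ≤ k ∧ k - j < N)), zero_mul]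
    · rw [if_neg h2, map_zero, mul_zero]

/-- the absolute correlations of a family -/
noncomputable def carryD {ι : Type*} (M : Finset ι) (z : ι → ℕ → ℂ) (N r : ℕ) : ℝ :=
  ‖∑ m ∈ M, ∑ n ∈ range (N - r), z m (n + r) * conj (z m n)‖

theorem carry_corr_le {ι : Type*} (M : Finset ι) (z : ι → ℕ → ℂ) (N H j j' : ℕ) (hj : j < H)
    (hj' : j' < H) :
    ‖∑ m ∈ M, ∑ k ∈ range (N + H), carryZ (z m) N k j * conj (carryZ (z m) N k j')‖ =
      carryD M z N (j - j' + (j' - j)) := by
  rcases le_total j j' with h | h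
  · obtain ⟨r, rfl⟩ := Nat.exists_eq_add_of_le h
    have e1 : j - (j + r) + (j + r - j) = r := by omega
    rw [e1]
    unfold carryD
    congr 1
    exact Finset.sum_congr rfl fun m _ => carryZ_corr (z m) N H j r hj'
  · obtain ⟨r, rfl⟩ := Nat.exists_eq_add_of_le h
    have e1 : j' + r - j' + (j' - (j' + r)) = r := by omega
    rw [e1]
    unfold carryD
    rw [← Complex.norm_conj]
    congr 1
    rw [map_sum]
    refine Finset.sum_congr rfl fun m _ => ?_
    rw [← carryZ_corr (z m) N H j' r hj, map_sum]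
    refine Finset.sum_congr rfl fun k _ => ?_
    rw [map_mul, Complex.conj_conj, mul_comm]

theorem carryD_nonneg {ι : Type*} (M : Finset ι) (z : ι → ℕ → ℂ) (N r : ℕ) :
    0 ≤ carryD M z N r := norm_nonneg _

theorem carryD_row {D : ℕ → ℝ} (hD : ∀ r, 0 ≤ D r) (H j : ℕ) (hj : j < H) :
    ∑ j' ∈ range H, D (j - j' + (j' - j)) ≤ D 0 + 2 * ∑ r ∈ Ico 1 H, D r := by
  have h1 : ∑ j' ∈ range H, D (j - j' + (j' - j)) =
      ∑ j' ∈ range j, D (j - j') + D 0 + ∑ j' ∈ Ico (j + 1) H, D (j' - j) := by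
    rw [← Finset.sum_range_add_sum_Ico _ (show j + 1 ≤ H from hj), Finset.sum_range_succ]
    congr 1
    · congr 1
      · refine Finset.sum_congr rfl fun i hi => ?_
        rw [mem_range] at hi
        congr 1
        omega
      · congr 1
        omega
    · refine Finset.sum_congr rfl fun i hi => ?_
      rw [mem_Ico] at hi
      congr 1
      omega
  have h2 : ∑ j' ∈ range j, D (j - j') ≤ ∑ r ∈ Ico 1 H, D r := by
    rw [← Finset.sum_image (f := D) (g := fun j' => j - j') (s := range j) (by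
      intro a ha b hb hab
      rw [mem_coe, mem_range] at ha hb
      simp only at hab
      omega)]
    refine Finset.sum_le_sum_of_subset_of_nonneg ?_ (fun r _ _ => hD r)
    intro r hr
    rw [mem_image] at hr
    obtain ⟨a, ha, rfl⟩ := hr
    rw [mem_range] at ha
    rw [mem_Ico]
    omega
  have h3 : ∑ j' ∈ Ico (j + 1) H, D (j' - j) ≤ ∑ r ∈ Ico 1 H, D r := by
    rw [← Finset.sum_image (f := D) (g := fun j' => j' - j) (s := Ico (j + 1) H) (by
      intro a ha b hb hab
      rw [mem_coe, mem_Ico] at ha hb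
      simp only at hab
      omega)]
    refine Finset.sum_le_sum_of_subset_of_nonneg ?_ (fun r _ _ => hD r)
    intro r hr
    rw [mem_image] at hr
    obtain ⟨a, ha, rfl⟩ := hr
    rw [mem_Ico] at ha
    rw [mem_Ico]
    omega
  rw [h1]
  linarith

theorem carryD_zero {ι : Type*} (M : Finset ι) (z : ι → ℕ → ℂ) (N : ℕ) :
    carryD M z N 0 = ∑ m ∈ M, ∑ n ∈ range N, ‖z m n‖ ^ 2 := by
  unfold carryD
  have h1 : ∑ m ∈ M, ∑ n ∈ range (N - 0), z m (n + 0) * conj (z m n) =
      ((∑ m ∈ M, ∑ n ∈ range N, ‖z m n‖ ^ 2 : ℝ) : ℂ) := by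
    push_cast
    refine Finset.sum_congr rfl fun m _ => Finset.sum_congr rfl fun n _ => ?_
    rw [Nat.add_zero, Complex.mul_conj']
  rw [h1, Complex.norm_real, Real.norm_eq_abs, abs_of_nonneg]
  exact Finset.sum_nonneg fun m _ => Finset.sum_nonneg fun n _ => by positivity

theorem vdc_family {ι : Type*} (M : Finset ι) (z : ι → ℕ → ℂ) (N H : ℕ) (hH : 1 ≤ H) :
    ∑ m ∈ M, ‖∑ n ∈ range N, z m n‖ ^ 2 ≤ ((N : ℝ) + H) / H *
      (∑ m ∈ M, ∑ n ∈ range N, ‖z m n‖ ^ 2 +
        2 * ∑ r ∈ Ico 1 H, ‖∑ m ∈ M, ∑ n ∈ range (N - r), z m (n + r) * conj (z m n)‖) := by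
  have hH0 : (0 : ℝ) < H := by exact_mod_cast hH
  -- step 1
  have h1 : ∀ m, (H : ℝ) ^ 2 * ‖∑ n ∈ range N, z m n‖ ^ 2 ≤
      ((N : ℝ) + H) * ∑ k ∈ range (N + H), ‖∑ j ∈ range H, carryZ (z m) N k j‖ ^ 2 := by
    intro m
    have e1 : ∑ k ∈ range (N + H), ∑ j ∈ range H, carryZ (z m) N k j =
        (H : ℂ) * ∑ n ∈ range N, z m n := by
      rw [Finset.sum_comm]
      have e2 : ∀ j ∈ range H, ∑ k ∈ range (N + H), carryZ (z m) N k j = ∑ n ∈ range N, z m n := by
        intro j hj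
        rw [mem_range] at hj
        exact carry_shift (z m) (N + H) N j (by omega)
      rw [Finset.sum_congr rfl e2, Finset.sum_const, card_range, nsmul_eq_mul]
    have e3 : (H : ℝ) ^ 2 * ‖∑ n ∈ range N, z m n‖ ^ 2 =
        ‖∑ k ∈ range (N + H), ∑ j ∈ range H, carryZ (z m) N k j‖ ^ 2 := by
      rw [e1, norm_mul, Complex.norm_natCast, mul_pow]
    rw [e3]
    have e4 : ‖∑ k ∈ range (N + H), ∑ j ∈ range H, carryZ (z m) N k j‖ ^ 2 ≤
        (∑ k ∈ range (N + H), ‖∑ j ∈ range H, carryZ (z m) N k j‖) ^ 2 :=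
      pow_le_pow_left₀ (norm_nonneg _) (norm_sum_le _ _) 2
    refine e4.trans ?_
    have e5 := sq_sum_le_card_mul_sum_sq (s := range (N + H))
      (f := fun k => ‖∑ j ∈ range H, carryZ (z m) N k j‖)
    rw [card_range] at e5
    push_cast at e5
    exact e5
  -- step 2
  have h2 : ∑ m ∈ M, ∑ k ∈ range (N + H), ‖∑ j ∈ range H, carryZ (z m) N k j‖ ^ 2 ≤
      ∑ j ∈ range H, ∑ j' ∈ range H, carryD M z N (j - j' + (j' - j)) := by
    have e1 : ((∑ m ∈ M, ∑ k ∈ range (N + H), ‖∑ j ∈ range H, carryZ (z m) N k j‖ ^ 2 : ℝ) : ℂ) =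
        ∑ j ∈ range H, ∑ j' ∈ range H, ∑ m ∈ M, ∑ k ∈ range (N + H),
          carryZ (z m) N k j * conj (carryZ (z m) N k j') := by
      push_cast
      have e2 : ∀ m ∈ M, ∑ k ∈ range (N + H),
          ((‖∑ j ∈ range H, carryZ (z m) N k j‖ : ℂ)) ^ 2 =
          ∑ j ∈ range H, ∑ j' ∈ range H, ∑ k ∈ range (N + H),
            carryZ (z m) N k j * conj (carryZ (z m) N k j') := by
        intro m _
        have e3 : ∀ k ∈ range (N + H), ((‖∑ j ∈ range H, carryZ (z m) N k j‖ : ℂ)) ^ 2 =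
            ∑ j ∈ range H, ∑ j' ∈ range H, carryZ (z m) N k j * conj (carryZ (z m) N k j') := by
          intro k _
          rw [← Complex.mul_conj', map_sum, Finset.sum_mul_sum]
        rw [Finset.sum_congr rfl e3, Finset.sum_comm]
        refine Finset.sum_congr rfl fun j _ => ?_
        rw [Finset.sum_comm]
      rw [Finset.sum_congr rfl e2, Finset.sum_comm]
      refine Finset.sum_congr rfl fun j _ => ?_
      rw [Finset.sum_comm]
    have e4 : ∑ m ∈ M, ∑ k ∈ range (N + H), ‖∑ j ∈ range H, carryZ (z m) N k j‖ ^ 2 =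
        ‖((∑ m ∈ M, ∑ k ∈ range (N + H),
          ‖∑ j ∈ range H, carryZ (z m) N k j‖ ^ 2 : ℝ) : ℂ)‖ := by
      rw [Complex.norm_real, Real.norm_eq_abs, abs_of_nonneg]
      exact Finset.sum_nonneg fun m _ => Finset.sum_nonneg fun n _ => by positivity
    rw [e4, e1]
    refine (norm_sum_le _ _).trans (Finset.sum_le_sum fun j hj => ?_)
    refine (norm_sum_le _ _).trans (Finset.sum_le_sum fun j' hj' => ?_)
    exact (carry_corr_le M z N H j j' (mem_range.1 hj) (mem_range.1 hj')).le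
  have h3 : ∑ j ∈ range H, ∑ j' ∈ range H, carryD M z N (j - j' + (j' - j)) ≤
      (H : ℝ) * (carryD M z N 0 + 2 * ∑ r ∈ Ico 1 H, carryD M z N r) := by
    have e1 := Finset.sum_le_sum (s := range H)
      (fun j hj => carryD_row (carryD_nonneg M z N) H j (mem_range.1 hj))
    rw [Finset.sum_const, card_range, nsmul_eq_mul] at e1
    exact e1
  have h4 : (H : ℝ) ^ 2 * ∑ m ∈ M, ‖∑ n ∈ range N, z m n‖ ^ 2 ≤
      ((N : ℝ) + H) * ((H : ℝ) * (carryD M z N 0 + 2 * ∑ r ∈ Ico 1 H, carryD M z N r)) := by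
    rw [Finset.mul_sum]
    refine (Finset.sum_le_sum fun m _ => h1 m).trans ?_
    rw [← Finset.mul_sum]
    exact mul_le_mul_of_nonneg_left (h2.trans h3) (by positivity)
  rw [carryD_zero] at h4
  have h5 : ((N : ℝ) + H) / H *
      (∑ m ∈ M, ∑ n ∈ range N, ‖z m n‖ ^ 2 +
        2 * ∑ r ∈ Ico 1 H, ‖∑ m ∈ M, ∑ n ∈ range (N - r), z m (n + r) * conj (z m n)‖) =
      (((N : ℝ) + H) * ((H : ℝ) * (∑ m ∈ M, ∑ n ∈ range N, ‖z m n‖ ^ 2 +
        2 * ∑ r ∈ Ico 1 H, carryD M z N r))) / (H : ℝ) ^ 2 := by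
    unfold carryD
    field_simp
  rw [h5, le_div_iff₀ (by positivity), mul_comm]
  exact h4

variable {q : ℕ} (φ : ℕ → ℕ → ℂ)

theorem carry_dg (lam k s i : ℕ) (hq : 2 ≤ q) (hi : lam ≤ i)
    (h : k % q ^ lam + s < q ^ lam) : dg q i (k + s) = dg q i k := by
  have hQ : 0 < q ^ lam := pow_pos (by omega) _
  have h1 : (k + s) / q ^ lam = k / q ^ lam := by
    have e1 : k + s = q ^ lam * (k / q ^ lam) + (k % q ^ lam + s) := by
      have := Nat.div_add_mod k (q ^ lam)
      omega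
    rw [e1, Nat.mul_add_div hQ, Nat.div_eq_of_lt h, add_zero]
  obtain ⟨j, rfl⟩ := Nat.exists_eq_add_of_le hi
  unfold dg
  rw [pow_add, ← Nat.div_div_eq_div_mul, ← Nat.div_div_eq_div_mul, h1]

theorem carry_eq (hq : 2 ≤ q) (hφ : Uni φ) (J lam k s : ℕ) (hlam : lam ≤ J)
    (h : k % q ^ lam + s < q ^ lam) :
    fd q φ J (k + s) * conj (fd q φ J k) = fd q φ lam (k + s) * conj (fd q φ lam k) := by
  have h1 : ∀ n, fd q φ J n = fd q φ lam n * ∏ i ∈ Ico lam J, φ i (dg q i n) := by
    intro n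
    unfold fd
    rw [Finset.prod_range_mul_prod_Ico _ hlam]
  have h2 : ∏ i ∈ Ico lam J, φ i (dg q i (k + s)) = ∏ i ∈ Ico lam J, φ i (dg q i k) :=
    Finset.prod_congr rfl fun i hi => by rw [carry_dg lam k s i hq (mem_Ico.1 hi).1 h]
  rw [h1, h1, h2, map_mul]
  have h3 : (∏ i ∈ Ico lam J, φ i (dg q i k)) * conj (∏ i ∈ Ico lam J, φ i (dg q i k)) = 1 := by
    rw [Complex.mul_conj', norm_prod, Finset.prod_eq_one fun i _ => hφ i _]
    simp
  linear_combination (fd q φ lam (k + s) * conj (fd q φ lam k)) * h3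

theorem carry_count (hq : 2 ≤ q) (lam m r x N : ℕ) (hm : 1 ≤ m) :
    (((range N).filter (fun n => m * n < x ∧ q ^ lam ≤ (m * n) % q ^ lam + m * r)).card : ℝ) ≤
      ((x : ℝ) / (q : ℝ) ^ lam + 1) * r := by
  set Q := q ^ lam with hQdef
  have hQ : 0 < Q := pow_pos (by omega) _
  set s := (range N).filter (fun n => m * n < x ∧ Q ≤ (m * n) % Q + m * r) with hs
  have h1 : ∀ a ∈ s.image (fun n => m * n / Q), (s.filter (fun n => m * n / Q = a)).card ≤ r := by
    intro j _
    set n0 := ((j + 1) * Q + m - 1) / m with hn0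
    have h2 : s.filter (fun n => m * n / Q = j) ⊆ Ico (n0 - r) n0 := by
      intro n hn
      rw [mem_filter, hs, mem_filter] at hn
      obtain ⟨⟨_, _, h4⟩, h5⟩ := hn
      have h6 : m * n = Q * j + (m * n) % Q := by rw [← h5]; exact (Nat.div_add_mod _ _).symm
      have h7 : (m * n) % Q < Q := Nat.mod_lt _ hQ
      have h8 : m * n < (j + 1) * Q := by rw [h6]; nlinarith
      have h9 : (j + 1) * Q ≤ m * (n + r) := by rw [mul_add, h6]; nlinarith
      rw [mem_Ico]
      constructor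
      · have : n0 < n + r + 1 := by
          rw [hn0, Nat.div_lt_iff_lt_mul (by omega)]
          have : (n + r + 1) * m = m * (n + r) + m := by ring
          omega
        omega
      · rw [hn0, Nat.lt_iff_add_one_le, Nat.le_div_iff_mul_le (by omega)]
        have : (n + 1) * m = m * n + m := by ring
        omega
    calc _ ≤ (Ico (n0 - r) n0).card := card_le_card h2
      _ ≤ r := by rw [Nat.card_Ico]; omega
  have h2 := Finset.card_le_mul_card_image s r h1
  have h3 : s.image (fun n => m * n / Q) ⊆ range (x / Q + 1) := by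
    intro j hj
    rw [mem_image] at hj
    obtain ⟨n, hn, rfl⟩ := hj
    rw [hs, mem_filter] at hn
    rw [mem_range]
    exact Nat.lt_succ_of_le (Nat.div_le_div_right hn.2.1.le)
  have h4 := card_le_card h3
  rw [card_range] at h4
  have h5 : (s.card : ℝ) ≤ r * ((x / Q : ℕ) + 1 : ℝ) := by
    have : s.card ≤ r * (x / Q + 1) := h2.trans (Nat.mul_le_mul_left _ h4)
    exact_mod_cast this
  refine h5.trans ?_
  rw [mul_comm]
  refine mul_le_mul_of_nonneg_right ?_ (Nat.cast_nonneg _)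
  have h6 : ((x / Q : ℕ) : ℝ) ≤ (x : ℝ) / (Q : ℝ) := Nat.cast_div_le
  have h7 : (Q : ℝ) = (q : ℝ) ^ lam := by rw [hQdef]; push_cast; rfl
  rw [h7] at h6
  linarith

end Pool.Agent.H10.RP
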