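import Pool.Agent.H10.RP.Quad
import Pool.Agent.H10.RP.Defs

/-!
# Reversed primes: smooth character sums over primes, moduli with fixed prime factors (job RP-13a)

PROOF of `char_tent`. `smallS A 0 _ _ Y0` with `Y0 = 8 * ∏ p ∈ R.primeFactors, p`: then `q₁ ∤ N` (if `q₁ ∣ N`
then `q₁.primeFactors ⊆ R.primeFactors`, so `q₁ ∣ 8 ∏_{p ∣ R} p`, `q₁ ≤ Y0`). Apply `SmallProp` with
`W = N`, `D = {1}`, `B = 1` (for `A < 0` use `A := 0`, `ℓ ≥ 1`); `fam N 1` is the set of all nontrivial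
characters mod `N * 1`.
-/

set_option autoImplicit false

open Finset

namespace Pool.Agent.H10.RP

open Pool.Agent.H16

theorem char_tent (R : ℕ) (hR : R ≠ 0) (A : ℝ) : ∃ L0 : ℝ, ∀ ℓ : ℝ, L0 ≤ ℓ → ∀ N : ℕ, 1 ≤ N →
    Real.log N ≤ ℓ / (2 * (Real.log ℓ) ^ 2) → N.primeFactors ⊆ R.primeFactors →
    ∀ χ : DirichletCharacter ℂ N, χ ≠ 1 →
    ‖∑ n ∈ Icc 1 ⌊Real.exp ℓ⌋₊, χ (n : ℕ) * Lam n * ((tent (Real.exp ℓ / 3) n : ℝ) : ℂ)‖ ≤
      Real.exp ℓ * ℓ ^ (-A) := by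
  obtain ⟨L0, hL0⟩ := smallS (max A 0) 0 (le_max_right _ _) le_rfl
    (8 * ∏ p ∈ R.primeFactors, p)
  refine ⟨max L0 1, fun ℓ hℓ N hN hlog hsub χ hχ => ?_⟩
  have hℓ1 : 1 ≤ ℓ := (le_max_right _ _).trans hℓ
  obtain ⟨q₁, hq1, hq2, hS⟩ := hL0 ℓ ((le_max_left _ _).trans hℓ)
  have hRpos : 0 < 8 * ∏ p ∈ R.primeFactors, p :=
    Nat.mul_pos (by norm_num) (prod_pos fun p hp => (Nat.prime_of_mem_primeFactors hp).pos)
  have hnd : ¬ q₁ ∣ N := by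
    intro hd
    have h1 : q₁.primeFactors ⊆ R.primeFactors :=
      (Nat.primeFactors_mono hd (by omega)).trans hsub
    have h2 : ∏ p ∈ q₁.primeFactors, p ∣ ∏ p ∈ R.primeFactors, p :=
      prod_dvd_prod_of_subset _ _ _ h1
    have h3 : q₁ ∣ 8 * ∏ p ∈ R.primeFactors, p := hq2.trans (Nat.mul_dvd_mul_left 8 h2)
    exact absurd (Nat.le_of_dvd hRpos h3) (by omega)
  have hB0 : ∀ n : ℕ, Real.exp (0.74 * ℓ) < n → (1 : ArithmeticFunction ℂ) n = 0 := by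
    intro n hn
    have h1 : n ≠ 1 := by
      rintro rfl
      have h2 : (1 : ℝ) ≤ Real.exp (0.74 * ℓ) := Real.one_le_exp (by positivity)
      simp only [Nat.cast_one] at hn
      linarith
    exact ArithmeticFunction.one_apply_ne h1
  have hB1 : ∀ n : ℕ, ‖(1 : ArithmeticFunction ℂ) n‖ ≤ 1 := by
    intro n
    rw [ArithmeticFunction.one_apply]
    split_ifs
    · simp
    · simp
  have hD : ∀ d ∈ ({1} : Finset ℕ), 1 ≤ d ∧ (d : ℝ) ≤ ℓ ^ (0 : ℝ) ∧ Nat.Coprime d N ∧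
      ¬ q₁ ∣ N * d := by
    intro d hd
    rw [mem_singleton] at hd
    subst hd
    refine ⟨le_rfl, by simp, Nat.coprime_one_left _, by rwa [mul_one]⟩
  have hmain := hS N hN hlog {1} hD 1 hB1 hB0
  rw [sum_singleton, one_mul] at hmain
  have hA : Real.exp ℓ * ℓ ^ (-(max A 0)) ≤ Real.exp ℓ * ℓ ^ (-A) :=
    mul_le_mul_of_nonneg_left
      (Real.rpow_le_rpow_of_exponent_le hℓ1 (neg_le_neg (le_max_left _ _))) (Real.exp_pos _).le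
  have key : ∀ (M : ℕ) (hM : M = N * 1) (ψ : DirichletCharacter ℂ M), ψ ≠ 1 →
      ‖∑ n ∈ Icc 1 ⌊Real.exp ℓ⌋₊, ψ (n : ℕ) * Lam n * ((tent (Real.exp ℓ / 3) n : ℝ) : ℂ)‖ ≤
        Real.exp ℓ * ℓ ^ (-(max A 0)) := by
    intro M hM
    subst hM
    intro ψ hψ
    refine le_trans ?_ hmain
    have hmem : ψ ∈ fam N 1 := (mem_fam N 1 ψ).mpr ⟨hψ, one_dvd _⟩
    exact single_le_sum (f := fun ξ : DirichletCharacter ℂ (N * 1) =>
      ‖∑ n ∈ Icc 1 ⌊Real.exp ℓ⌋₊, (ξ (n : ℕ) * LamC n) *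
        ((tent (Real.exp ℓ / 3) n : ℝ) : ℂ)‖) (fun _ _ => norm_nonneg _) hmem
  exact (key N (mul_one N).symm χ hχ).trans hA

end Pool.Agent.H10.RP
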