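import Pool.Agent.H10.RP.Mink
import Pool.Agent.H10.RP.Sine

/-!
# Reversed primes: the main estimate for the type II sums (job RP-4)

PROOF of `core`. Put `m0 = q ^ lam`, `F = Fc q φ lam`, `P h = PP q φ lam lam h = |F h|`. By `fd_fourier`
(twice) the inner sum is `∑ h k < m0, F h conj (F k) ∑ m, ee (m ((h - k) n + h r) / m0)`, so by
`norm_geom_le` the left side is at most `∑ h k, P h P k ∑ n < N, gm K (((h - k) n + h r) / m0)`.
Let `g = gcd (h - k, m0)`, `w g h = gm K (nd (h r / g) * (g / m0)) ≤ K`, `B = 4 + 2 log m0`. By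
`sum_gm_le` the sum over `n` is at most `(N g / m0 + 1)(w g h + (m0 / g) B) ≤
(N g / m0) w g h + K + (N + m0) B`.

(1) `∑ h k, P h P k (K + (N + m0) B) = (K + (N + m0) B) AA lam lam 1 ≤
(K + (N + m0) B) m0 κ ^ (lam - 1)` (`mink` with `g = 1`, `δ0 = 0`).

(2) `∑ h k, P h P k (N g / m0) w g h ≤ N ∑_{g ∣ m0} (g / m0) ∑_{h ≡ k mod g} P h P k w g h`, and
`w g h` depends only on `h mod g`.
 (2a) if `¬ q ^ (lam - kp) ∣ g`: use `w ≤ K` and
   `∑_{h ≡ k mod g} P h P k = AA lam lam g`; `mink` with `δ0 = lam - kp - 1` gives the bound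
   `K κ ^ kp` for the `g`-term.
 (2b) if `q ^ (lam - kp) ∣ g`, put `δ = lam - kp`. For `c < g`: `∑_{h ≡ c mod g} P h ≤
   (m0 / g) PP q φ lam δ c` (`PP_anti`, `PP_mod`, `q ^ δ ∣ g`; there are `m0 / g` such `h`). So the
   `g`-term is at most `(g / m0) ∑_{c < g} w g c (m0 / g) ^ 2 PP(δ, c) ^ 2 =
   (m0 / g) ∑_{c < g} w g c PP(δ, c) ^ 2`, and `m0 / g ≤ q ^ kp`. If
   `2 K nd (c r / g) (g / m0) ≥ q ^ (3 kp)` then `w g c ≤ K / q ^ (3 kp)` (`gm_le_div`; note
   `nd (nd y * (g / m0)) = nd y * (g / m0)`); these `c` contribute at most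
   `K / q ^ (3 kp) * ∑_{c < g} PP(δ, c) ^ 2 = K / q ^ (3 kp) * g / q ^ δ ≤ K / q ^ (2 kp)`
   (`PP_parseval`). The number of the other `c < g` is at most
   `#{c < g : nd (c r / g) < ε} ≤ 2 ε g + r` with `ε = (m0 / g) q ^ (3 kp) / (2 K)`: with
   `r' = gcd (r, g) ≤ r` the residues `c r mod g` are the multiples `r' u`, `u < g / r'`, each taken `r'`
   times, and `nd (u / (g / r')) < ε` for at most `2 ε g / r' + 1` values of `u`. They contribute at
   most `K (m0 q ^ (3 kp) / K + r) S ^ 2`.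
   Altogether the `g`-term is at most `K / q ^ kp + q ^ kp (q ^ (3 kp) m0 + K r) S ^ 2`.
-/

set_option autoImplicit false

open Finset
open scoped ComplexConjugate

namespace Pool.Agent.H10.RP

variable {q : ℕ} (φ : ℕ → ℕ → ℂ)

/-- number of `c < g` with `c r / g` close to an integer -/
theorem core_count (g r : ℕ) (hg : 1 ≤ g) (hr : 1 ≤ r) (ε : ℝ) (hε : 0 ≤ ε) :
    (((range g).filter (fun c : ℕ => nd (((c : ℝ) * r) / g) < ε)).card : ℝ) ≤
      2 * ε * g + r := by
  classical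
  have hg0 : (0 : ℝ) < g := by exact_mod_cast hg
  have hr0 : (0 : ℝ) < r := by exact_mod_cast hr
  set A : ℕ → Finset ℤ := fun j =>
    Finset.Icc ⌈((j : ℝ) - ε) * g / r⌉ ⌊((j : ℝ) + ε) * g / r⌋ with hA
  set f : ℕ → ℤ := fun c => if round (((c : ℝ) * r) / g) = (r : ℤ) then (c : ℤ) - g else c with hf
  have hfmod : ∀ c ∈ range g, f c % (g : ℤ) = c := by
    intro c hc
    have hc' : c < g := mem_range.1 hc
    have h1 : (c : ℤ) % g = c := Int.emod_eq_of_lt (by positivity) (by exact_mod_cast hc')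
    simp only [hf]
    split_ifs
    · rw [Int.sub_emod_right, h1]
    · exact h1
  have hinj : Set.InjOn f ((range g).filter (fun c : ℕ => nd (((c : ℝ) * r) / g) < ε) : Set ℕ) := by
    intro c hc d hd hcd
    have hc1 := hfmod c (mem_filter.1 (mem_coe.1 hc)).1
    have hd1 := hfmod d (mem_filter.1 (mem_coe.1 hd)).1
    rw [hcd, hd1] at hc1
    exact_mod_cast hc1.symm
  have hmem : ∀ (z : ℤ) (j : ℕ), |(z : ℝ) * r / g - j| < ε → z ∈ A j := by
    intro z j hz
    rw [abs_lt] at hz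
    rw [hA, Finset.mem_Icc]
    constructor
    · rw [Int.ceil_le, div_le_iff₀ hr0]
      have h1 : ((j : ℝ) - ε) * g ≤ ((z : ℝ) * r / g) * g := by
        apply mul_le_mul_of_nonneg_right _ hg0.le
        linarith [hz.1]
      rwa [div_mul_cancel₀ _ hg0.ne'] at h1
    · rw [Int.le_floor, le_div_iff₀ hr0]
      have h1 : ((z : ℝ) * r / g) * g ≤ ((j : ℝ) + ε) * g := by
        apply mul_le_mul_of_nonneg_right _ hg0.le
        linarith [hz.2]
      rwa [div_mul_cancel₀ _ hg0.ne'] at h1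
  have hmaps : ∀ c ∈ (range g).filter (fun c : ℕ => nd (((c : ℝ) * r) / g) < ε),
      f c ∈ (range r).biUnion A := by
    intro c hc
    obtain ⟨hc1, hc2⟩ := mem_filter.1 hc
    have hc' : c < g := mem_range.1 hc1
    have hcg : ((c : ℝ) * r) / g < r := by
      rw [div_lt_iff₀ hg0, mul_comm]
      exact mul_lt_mul_of_pos_left (by exact_mod_cast hc') hr0
    have hc0 : 0 ≤ ((c : ℝ) * r) / g := by positivity
    have hround : |((c : ℝ) * r) / g - round (((c : ℝ) * r) / g)| < ε := hc2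
    have hrl : 0 ≤ round (((c : ℝ) * r) / g) := by
      rw [round_eq, Int.floor_nonneg]
      linarith
    have hru : round (((c : ℝ) * r) / g) ≤ r := by
      rw [round_eq]
      have h1 : ⌊((c : ℝ) * r) / g + 1 / 2⌋ < (r : ℤ) + 1 := by
        rw [Int.floor_lt]
        push_cast
        linarith
      omega
    rw [mem_biUnion]
    by_cases h : round (((c : ℝ) * r) / g) = (r : ℤ)
    · refine ⟨0, mem_range.2 hr, ?_⟩
      have hfc : f c = (c : ℤ) - g := by simp only [hf]; rw [if_pos h]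
      rw [hfc]
      apply hmem
      rw [h] at hround
      have h2 : (((c : ℤ) - g : ℤ) : ℝ) * r / g - ((0 : ℕ) : ℝ) = ((c : ℝ) * r) / g - ((r : ℤ) : ℝ) := by
        push_cast
        field_simp
        ring
      rw [h2]
      exact hround
    · have hfc : f c = (c : ℤ) := by simp only [hf]; rw [if_neg h]
      obtain ⟨j, hj⟩ := Int.eq_ofNat_of_zero_le hrl
      refine ⟨j, mem_range.2 ?_, ?_⟩
      · rw [hj] at hru h
        omega
      · rw [hfc]
        apply hmem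
        rw [hj] at hround
        have h3 : (((c : ℤ) : ℤ) : ℝ) = (c : ℝ) := by push_cast; rfl
        rw [h3]
        exact_mod_cast hround
  have hcardA : ∀ j, ((A j).card : ℝ) ≤ 2 * ε * g / r + 1 := by
    intro j
    have h0 : 0 ≤ 2 * ε * g / r + 1 := by positivity
    rw [hA]
    simp only
    rw [Int.card_Icc]
    by_cases h : 0 ≤ ⌊((j : ℝ) + ε) * g / r⌋ + 1 - ⌈((j : ℝ) - ε) * g / r⌉
    · have h1 : (((⌊((j : ℝ) + ε) * g / r⌋ + 1 - ⌈((j : ℝ) - ε) * g / r⌉).toNat : ℕ) : ℝ) =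
          ((⌊((j : ℝ) + ε) * g / r⌋ + 1 - ⌈((j : ℝ) - ε) * g / r⌉ : ℤ) : ℝ) := by
        have h2 := Int.toNat_of_nonneg h
        exact_mod_cast h2
      rw [h1]
      push_cast
      have h2 := Int.floor_le (((j : ℝ) + ε) * g / r)
      have h3 := Int.le_ceil (((j : ℝ) - ε) * g / r)
      have h4 : ((j : ℝ) + ε) * g / r - ((j : ℝ) - ε) * g / r = 2 * ε * g / r := by ring
      linarith
    · rw [Int.toNat_of_nonpos (by omega)]
      simpa using h0
  have h1 : ((range g).filter (fun c : ℕ => nd (((c : ℝ) * r) / g) < ε)).card ≤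
      ∑ j ∈ range r, (A j).card :=
    (Finset.card_le_card_of_injOn f hmaps hinj).trans card_biUnion_le
  calc (((range g).filter (fun c : ℕ => nd (((c : ℝ) * r) / g) < ε)).card : ℝ)
      ≤ ((∑ j ∈ range r, (A j).card : ℕ) : ℝ) := by exact_mod_cast h1
    _ = ∑ j ∈ range r, ((A j).card : ℝ) := by push_cast; rfl
    _ ≤ ∑ _j ∈ range r, (2 * ε * g / r + 1) := Finset.sum_le_sum fun j _ => hcardA j
    _ = 2 * ε * g + r := by
        rw [Finset.sum_const, card_range, nsmul_eq_mul]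
        field_simp

theorem core_nd_self {x : ℝ} (h0 : 0 ≤ x) (h1 : x ≤ 1 / 2) : nd x = x := by
  unfold nd
  apply le_antisymm
  · have h := round_le x 0
    simpa [abs_of_nonneg h0] using h
  · rcases le_or_gt (round x) 0 with h | h
    · have h2 : ((round x : ℤ) : ℝ) ≤ 0 := by exact_mod_cast h
      exact le_trans (by linarith) (le_abs_self _)
    · have h2 : (1 : ℝ) ≤ ((round x : ℤ) : ℝ) := by exact_mod_cast h
      rw [abs_sub_comm]
      exact le_trans (by linarith) (le_abs_self _)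

/-- the weight of the residue class of `h` modulo `g` -/
noncomputable def core_W (q lam r : ℕ) (K : ℝ) (g h : ℕ) : ℝ :=
  gm K (nd (((h : ℝ) * r) / g) * ((g : ℝ) / (q : ℝ) ^ lam))

theorem core_W_nonneg (q lam r : ℕ) {K : ℝ} (hK : 0 ≤ K) (g h : ℕ) : 0 ≤ core_W q lam r K g h :=
  gm_nonneg hK _

theorem core_W_le (q lam r : ℕ) {K : ℝ} (hK : 0 ≤ K) (g h : ℕ) : core_W q lam r K g h ≤ K :=
  gm_le hK _

theorem core_W_mod (q lam r : ℕ) (K : ℝ) (g h : ℕ) (hg : 1 ≤ g) :
    core_W q lam r K g (h % g) = core_W q lam r K g h := by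
  unfold core_W
  have hg0 : (g : ℝ) ≠ 0 := by positivity
  have h1 : ((h : ℝ) * r) / g = (((h % g : ℕ) : ℝ) * r) / g + (((h / g * r : ℕ) : ℤ) : ℝ) := by
    have h2 : (h : ℝ) = ((h % g : ℕ) : ℝ) + (g : ℝ) * ((h / g : ℕ) : ℝ) := by
      exact_mod_cast (Nat.mod_add_div h g).symm
    rw [Int.cast_natCast, Nat.cast_mul, h2]
    have h3 : (h : ℝ) / g = (((h % g : ℕ) : ℝ) + (g : ℝ) * ((h / g : ℕ) : ℝ)) / g := by rw [← h2]
    rw [← h2, mul_div_right_comm, h3]
    field_simp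
  rw [h1, nd_add_int]

theorem core_inner (hq : 2 ≤ q) (lam n r : ℕ) (K : ℝ) (hK : 0 ≤ K) (a c : ℕ)
    (hac : (c : ℝ) - a ≤ K) :
    ‖∑ m ∈ Ico a c, fd q φ lam (m * (n + r)) * conj (fd q φ lam (m * n))‖ ≤
      ∑ h ∈ range (q ^ lam), ∑ k ∈ range (q ^ lam), PP q φ lam lam h * PP q φ lam lam k *
        gm K (((((h : ℤ) - k : ℤ) : ℝ) * n + (((h : ℤ) * r : ℤ) : ℝ)) / ((q ^ lam : ℕ) : ℝ)) := by
  have h1 : ∀ m : ℕ, fd q φ lam (m * (n + r)) * conj (fd q φ lam (m * n)) =
      ∑ h ∈ range (q ^ lam), ∑ k ∈ range (q ^ lam), (Fc q φ lam h * conj (Fc q φ lam k)) *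
        ee (m * (((((h : ℤ) - k : ℤ) : ℝ) * n + (((h : ℤ) * r : ℤ) : ℝ)) / ((q ^ lam : ℕ) : ℝ))) := by
    intro m
    rw [fd_fourier φ hq lam (m * (n + r)), fd_fourier φ hq lam (m * n), map_sum, Finset.sum_mul_sum]
    refine Finset.sum_congr rfl fun h _ => Finset.sum_congr rfl fun k _ => ?_
    rw [map_mul, conj_ee]
    have h2 : ee (m * (((((h : ℤ) - k : ℤ) : ℝ) * n + (((h : ℤ) * r : ℤ) : ℝ)) /
        ((q ^ lam : ℕ) : ℝ))) = ee ((h : ℝ) * ((m * (n + r) : ℕ) : ℝ) / (q : ℝ) ^ lam) *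
          ee (-((k : ℝ) * ((m * n : ℕ) : ℝ) / (q : ℝ) ^ lam)) := by
      rw [← ee_add]
      congr 1
      push_cast
      ring
    rw [h2]
    ring
  simp only [h1]
  rw [Finset.sum_comm]
  refine (norm_sum_le _ _).trans (Finset.sum_le_sum fun h _ => ?_)
  rw [Finset.sum_comm]
  refine (norm_sum_le _ _).trans (Finset.sum_le_sum fun k _ => ?_)
  rw [← Finset.mul_sum, norm_mul, norm_mul, RCLike.norm_conj, norm_Fc φ hq, norm_Fc φ hq]
  exact mul_le_mul_of_nonneg_left (norm_geom_le K _ hK a c hac)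
    (mul_nonneg (PP_nonneg φ _ _ _) (PP_nonneg φ _ _ _))

theorem core_nsum (hq : 2 ≤ q) (lam r N : ℕ) (K : ℝ) (hK : 1 ≤ K) (h k : ℕ) :
    ∑ n ∈ range N, gm K (((((h : ℤ) - k : ℤ) : ℝ) * n + (((h : ℤ) * r : ℤ) : ℝ)) /
      ((q ^ lam : ℕ) : ℝ)) ≤
      N * (((Int.gcd ((h : ℤ) - k) ((q ^ lam : ℕ) : ℤ) : ℕ) : ℝ) / (q : ℝ) ^ lam *
        core_W q lam r K (Int.gcd ((h : ℤ) - k) ((q ^ lam : ℕ) : ℤ)) h) +
      (K + (N + (q : ℝ) ^ lam) * (4 + 2 * Real.log ((q : ℝ) ^ lam))) := by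
  have hm : 1 ≤ q ^ lam := Nat.one_le_pow _ _ (by omega)
  have hm0 : ((q ^ lam : ℕ) : ℝ) = (q : ℝ) ^ lam := by push_cast; rfl
  have hM1 : (1 : ℝ) ≤ (q : ℝ) ^ lam := by rw [← hm0]; exact_mod_cast hm
  have h1 := sum_gm_le (q ^ lam) hm ((h : ℤ) - k) ((h : ℤ) * r) K hK N
  set g : ℕ := Int.gcd ((h : ℤ) - k) ((q ^ lam : ℕ) : ℤ) with hg
  have hg1 : 1 ≤ g := by
    rw [hg]
    apply Nat.one_le_iff_ne_zero.2
    intro h0
    rw [Int.gcd_eq_zero_iff] at h0
    have := h0.2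
    omega
  have hg0 : (1 : ℝ) ≤ g := by exact_mod_cast hg1
  have hgm : (g : ℝ) ≤ (q : ℝ) ^ lam := by
    rw [← hm0]
    have h2 : (g : ℤ) ∣ ((q ^ lam : ℕ) : ℤ) := Int.gcd_dvd_right _ _
    have h3 : g ∣ q ^ lam := by exact_mod_cast h2
    exact_mod_cast Nat.le_of_dvd (by omega) h3
  refine h1.trans ?_
  have hW : gm K (nd ((((h : ℤ) * r : ℤ) : ℝ) / (g : ℝ)) * ((g : ℝ) / ((q ^ lam : ℕ) : ℝ))) =
      core_W q lam r K g h := by
    unfold core_W
    push_cast
    rfl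
  rw [hW, hm0]
  have hB : 0 ≤ 4 + 2 * Real.log ((q : ℝ) ^ lam) := by
    have := Real.log_nonneg hM1
    linarith
  set B : ℝ := 4 + 2 * Real.log ((q : ℝ) ^ lam) with hBdef
  set M : ℝ := (q : ℝ) ^ lam with hMdef
  have hw0 := core_W_nonneg q lam r (by linarith : (0 : ℝ) ≤ K) g h
  have hw1 := core_W_le q lam r (by linarith : (0 : ℝ) ≤ K) g h
  set w := core_W q lam r K g h with hwdef
  have hM0 : 0 < M := by linarith
  have e1 : ((N : ℝ) * g / M + 1) * (w + M / g * B) =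
      N * (g / M * w) + (w + N * B + M / g * B) := by
    have : (g : ℝ) ≠ 0 := by positivity
    field_simp
    ring
  rw [e1]
  have h4 : M / g * B ≤ M * B := by
    apply mul_le_mul_of_nonneg_right _ hB
    exact div_le_self hM0.le hg0
  nlinarith

theorem core_div (hq : 2 ≤ q) (lam r : ℕ) (K : ℝ) (hK : 0 ≤ K) (h k : ℕ) :
    ((Int.gcd ((h : ℤ) - k) ((q ^ lam : ℕ) : ℤ) : ℕ) : ℝ) / (q : ℝ) ^ lam *
        core_W q lam r K (Int.gcd ((h : ℤ) - k) ((q ^ lam : ℕ) : ℤ)) h ≤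
      ∑ g ∈ (q ^ lam).divisors, if h % g = k % g then
        ((g : ℝ) / (q : ℝ) ^ lam * core_W q lam r K g h) else 0 := by
  have hm : 1 ≤ q ^ lam := Nat.one_le_pow _ _ (by omega)
  set g : ℕ := Int.gcd ((h : ℤ) - k) ((q ^ lam : ℕ) : ℤ) with hg
  have h2 : (g : ℤ) ∣ ((q ^ lam : ℕ) : ℤ) := Int.gcd_dvd_right _ _
  have h3 : g ∣ q ^ lam := by exact_mod_cast h2
  have h4 : (g : ℤ) ∣ (h : ℤ) - k := Int.gcd_dvd_left _ _
  have h5 : h % g = k % g := by
    have : (k : ℤ) ≡ h [ZMOD g] := (Int.modEq_iff_dvd).2 h4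
    have h6 : k ≡ h [MOD g] := (Int.natCast_modEq_iff).1 this
    exact h6.symm
  have h6 := Finset.single_le_sum (s := (q ^ lam).divisors)
    (f := fun g => if h % g = k % g then
        ((g : ℝ) / (q : ℝ) ^ lam * core_W q lam r K g h) else 0)
    (fun g _ => by
      split_ifs
      · exact mul_nonneg (by positivity) (core_W_nonneg q lam r hK g h)
      · exact le_rfl) (Nat.mem_divisors.2 ⟨h3, by omega⟩)
  simp only [if_pos h5] at h6
  exact h6

theorem core_T (g lam r : ℕ) (K : ℝ) (hg : 1 ≤ g) (P : ℕ → ℝ) (R : Finset ℕ) (x : ℝ) :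
    ∑ h ∈ R, ∑ k ∈ R, P h * P k * (if h % g = k % g then (x * core_W q lam r K g h) else 0) =
      x * ∑ c ∈ range g, core_W q lam r K g c *
        (∑ h ∈ R.filter (fun h => h % g = c), P h) ^ 2 := by
  have h1 : ∀ c ∈ range g, core_W q lam r K g c *
        (∑ h ∈ R.filter (fun h => h % g = c), P h) ^ 2 =
      ∑ h ∈ R, ∑ k ∈ R, core_W q lam r K g c *
        ((if h % g = c then P h else 0) * (if k % g = c then P k else 0)) := by
    intro c _
    rw [sq, Finset.sum_filter, Finset.sum_mul_sum, Finset.mul_sum]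
    refine Finset.sum_congr rfl fun h _ => ?_
    rw [Finset.mul_sum]
  rw [Finset.sum_congr rfl h1]
  conv_rhs => rw [Finset.sum_comm, Finset.mul_sum]
  refine Finset.sum_congr rfl fun h _ => ?_
  conv_rhs => rw [Finset.sum_comm, Finset.mul_sum]
  refine Finset.sum_congr rfl fun k _ => ?_
  rw [Finset.sum_eq_single_of_mem (h % g) (mem_range.2 (Nat.mod_lt _ hg)), if_pos rfl,
    core_W_mod q lam r K g h hg]
  · by_cases hk : h % g = k % g
    · rw [if_pos hk, if_pos hk.symm]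
      ring
    · rw [if_neg hk, if_neg (fun h' => hk h'.symm)]
      ring
  · intro c _ hc
    rw [if_neg (fun h' => hc h'.symm)]
    ring

theorem core_T_sup (lam g r : ℕ) (K : ℝ) (hK : 0 ≤ K) (x : ℝ) (hx : 0 ≤ x) :
    x * ∑ c ∈ range g, core_W q lam r K g c *
        (∑ h ∈ (range (q ^ lam)).filter (fun h => h % g = c), PP q φ lam lam h) ^ 2 ≤
      K * (x * AA q φ lam lam g) := by
  have h1 : ∑ c ∈ range g, core_W q lam r K g c *
        (∑ h ∈ (range (q ^ lam)).filter (fun h => h % g = c), PP q φ lam lam h) ^ 2 ≤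
      K * AA q φ lam lam g := by
    unfold AA
    rw [Finset.mul_sum]
    refine Finset.sum_le_sum fun c _ => ?_
    exact mul_le_mul_of_nonneg_right (core_W_le q lam r hK g c) (sq_nonneg _)
  calc _ ≤ x * (K * AA q φ lam lam g) := mul_le_mul_of_nonneg_left h1 hx
    _ = _ := by ring

theorem core_card (g t c : ℕ) :
    ((range (g * t)).filter (fun h => h % g = c)).card ≤ t := by
  have h1 : (range (g * t)).filter (fun h => h % g = c) ⊆ (range t).image (fun j => c + g * j) := by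
    intro h hh
    obtain ⟨h1, h2⟩ := mem_filter.1 hh
    rw [mem_image]
    refine ⟨h / g, mem_range.2 (Nat.div_lt_of_lt_mul (mem_range.1 h1)), ?_⟩
    rw [← h2]
    exact Nat.mod_add_div h g
  calc _ ≤ ((range t).image (fun j => c + g * j)).card := card_le_card h1
    _ ≤ (range t).card := card_image_le
    _ = t := card_range t

theorem core_period (m t : ℕ) (f : ℕ → ℝ) (hf : ∀ c, f (c % m) = f c) :
    ∑ c ∈ range (m * t), f c = t * ∑ c ∈ range m, f c := by
  induction t with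
  | zero => simp
  | succ t ih =>
    rw [Nat.mul_succ, Finset.sum_range_add, ih]
    have h1 : ∑ x ∈ range m, f (m * t + x) = ∑ x ∈ range m, f x := by
      refine Finset.sum_congr rfl fun x _ => ?_
      rw [← hf (m * t + x), Nat.mul_add_mod, hf]
    rw [h1]
    push_cast
    ring

theorem core_class (hq : 2 ≤ q) (hφ : Uni φ) (lam δ g t c : ℕ) (hδ : δ ≤ lam)
    (hgt : q ^ lam = g * t) (hgδ : q ^ δ ∣ g) :
    ∑ h ∈ (range (q ^ lam)).filter (fun h => h % g = c), PP q φ lam lam h ≤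
      t * PP q φ lam δ c := by
  have h1 : ∀ h ∈ (range (q ^ lam)).filter (fun h => h % g = c),
      PP q φ lam lam h ≤ PP q φ lam δ c := by
    intro h hh
    obtain ⟨_, h2⟩ := mem_filter.1 hh
    refine (PP_anti φ hφ lam hδ h).trans ?_
    rw [← PP_mod φ hq lam δ h, ← PP_mod φ hq lam δ c, ← h2, Nat.mod_mod_of_dvd _ hgδ]
  calc _ ≤ ∑ _h ∈ (range (q ^ lam)).filter (fun h => h % g = c), PP q φ lam δ c :=
        Finset.sum_le_sum h1
    _ = (((range (q ^ lam)).filter (fun h => h % g = c)).card : ℝ) * PP q φ lam δ c := by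
        rw [Finset.sum_const, nsmul_eq_mul]
    _ ≤ t * PP q φ lam δ c := by
        apply mul_le_mul_of_nonneg_right _ (PP_nonneg φ _ _ _)
        rw [hgt]
        exact_mod_cast core_card g t c

/-- the `g`-term, case (2b) -/
theorem core_term_b (hq : 2 ≤ q) (hφ : Uni φ) (lam r kp g : ℕ) (K S : ℝ) (hK : 1 ≤ K)
    (hkp : kp < lam) (hr : 1 ≤ r) (hsup : ∀ c, PP q φ lam (lam - kp) c ≤ S)
    (hg : g ∣ q ^ lam) (hgδ : q ^ (lam - kp) ∣ g) :
    (g : ℝ) / (q : ℝ) ^ lam * ∑ c ∈ range g, core_W q lam r K g c *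
        (∑ h ∈ (range (q ^ lam)).filter (fun h => h % g = c), PP q φ lam lam h) ^ 2 ≤
      K / (q : ℝ) ^ kp +
        (q : ℝ) ^ kp * ((q : ℝ) ^ (4 * kp) * (q : ℝ) ^ lam + K * r) * S ^ 2 := by
  classical
  have hqpos : 0 < q := by omega
  have hm : 1 ≤ q ^ lam := Nat.one_le_pow _ _ hqpos
  obtain ⟨t, ht⟩ := hg
  have hg1 : 1 ≤ g := by
    rcases Nat.eq_zero_or_pos g with h | h
    · rw [h] at ht; simp at ht; omega
    · exact h
  have ht1 : 1 ≤ t := by
    rcases Nat.eq_zero_or_pos t with h | h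
    · rw [h] at ht; simp at ht; omega
    · exact h
  set δ := lam - kp with hδ
  have hlam : lam = δ + kp := by omega
  obtain ⟨u, hu⟩ := hgδ
  have hu1 : 1 ≤ u := by
    rcases Nat.eq_zero_or_pos u with h | h
    · rw [h] at hu; simp at hu; omega
    · exact h
  have hq1 : (1 : ℝ) ≤ q := by exact_mod_cast hqpos
  have hqk : (1 : ℝ) ≤ (q : ℝ) ^ kp := one_le_pow₀ hq1
  have hK0 : 0 < K := by linarith
  have hgR : (0 : ℝ) < g := by exact_mod_cast hg1
  have htR : (0 : ℝ) < t := by exact_mod_cast ht1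
  have huR : (1 : ℝ) ≤ u := by exact_mod_cast hu1
  have hMR : (q : ℝ) ^ lam = g * t := by exact_mod_cast ht
  have hgu : (g : ℝ) = (q : ℝ) ^ δ * u := by exact_mod_cast hu
  have hqδ : (0 : ℝ) < (q : ℝ) ^ δ := by positivity
  have htk : (t : ℝ) * u = (q : ℝ) ^ kp := by
    have h1 : (q : ℝ) ^ lam = (q : ℝ) ^ δ * (q : ℝ) ^ kp := by rw [hlam, pow_add]
    rw [hMR, hgu] at h1
    have h2 : (q : ℝ) ^ δ * ((t : ℝ) * u) = (q : ℝ) ^ δ * (q : ℝ) ^ kp := by linarith
    exact mul_left_cancel₀ hqδ.ne' h2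
  have htk' : (t : ℝ) ≤ (q : ℝ) ^ kp := by
    rw [← htk]
    nlinarith
  -- reduction to `PP δ`
  have hstep1 : (g : ℝ) / (q : ℝ) ^ lam * ∑ c ∈ range g, core_W q lam r K g c *
        (∑ h ∈ (range (q ^ lam)).filter (fun h => h % g = c), PP q φ lam lam h) ^ 2 ≤
      t * ∑ c ∈ range g, core_W q lam r K g c * PP q φ lam δ c ^ 2 := by
    have h1 : ∑ c ∈ range g, core_W q lam r K g c *
        (∑ h ∈ (range (q ^ lam)).filter (fun h => h % g = c), PP q φ lam lam h) ^ 2 ≤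
        ∑ c ∈ range g, core_W q lam r K g c * ((t : ℝ) * PP q φ lam δ c) ^ 2 := by
      refine Finset.sum_le_sum fun c _ => ?_
      apply mul_le_mul_of_nonneg_left _ (core_W_nonneg q lam r hK0.le g c)
      exact pow_le_pow_left₀ (Finset.sum_nonneg fun h _ => PP_nonneg φ _ _ _)
        (core_class φ hq hφ lam δ g t c (by omega) ht ⟨u, hu⟩) 2
    have h2 : ∑ c ∈ range g, core_W q lam r K g c * ((t : ℝ) * PP q φ lam δ c) ^ 2 =
        (t : ℝ) ^ 2 * ∑ c ∈ range g, core_W q lam r K g c * PP q φ lam δ c ^ 2 := by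
      rw [Finset.mul_sum]
      refine Finset.sum_congr rfl fun c _ => ?_
      ring
    rw [h2] at h1
    calc _ ≤ (g : ℝ) / (q : ℝ) ^ lam * ((t : ℝ) ^ 2 *
          ∑ c ∈ range g, core_W q lam r K g c * PP q φ lam δ c ^ 2) :=
          mul_le_mul_of_nonneg_left h1 (by positivity)
      _ = _ := by
          rw [hMR]
          field_simp
  refine hstep1.trans ?_
  -- splitting
  set ε : ℝ := (t : ℝ) * (q : ℝ) ^ (3 * kp) / (2 * K) with hε
  have hε0 : 0 ≤ ε := by positivity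
  have hterm : ∀ c ∈ range g, core_W q lam r K g c * PP q φ lam δ c ^ 2 ≤
      K / (q : ℝ) ^ (3 * kp) * PP q φ lam δ c ^ 2 +
        (if nd (((c : ℝ) * r) / g) < ε then K * S ^ 2 else 0) := by
    intro c _
    split_ifs with hc
    · have h1 : core_W q lam r K g c * PP q φ lam δ c ^ 2 ≤ K * S ^ 2 := by
        apply mul_le_mul (core_W_le q lam r hK0.le g c) _ (sq_nonneg _) hK0.le
        exact pow_le_pow_left₀ (PP_nonneg φ _ _ _) (hsup c) 2
      have h2 : 0 ≤ K / (q : ℝ) ^ (3 * kp) * PP q φ lam δ c ^ 2 := by positivity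
      linarith
    · rw [add_zero]
      apply mul_le_mul_of_nonneg_right _ (sq_nonneg _)
      apply gm_le_div hK0 (one_le_pow₀ hq1)
      push Not at hc
      have hn0 := nd_nonneg (((c : ℝ) * r) / g)
      have hn1 := nd_le_half (((c : ℝ) * r) / g)
      have hgM : (g : ℝ) / (q : ℝ) ^ lam = 1 / t := by
        rw [hMR]
        field_simp
      have ht1R : (1 : ℝ) ≤ t := by exact_mod_cast ht1
      have hle : nd (((c : ℝ) * r) / g) * ((g : ℝ) / (q : ℝ) ^ lam) ≤ 1 / 2 := by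
        rw [hgM]
        have : (1 : ℝ) / t ≤ 1 := by
          rw [div_le_one htR]
          exact ht1R
        calc nd (((c : ℝ) * r) / g) * (1 / t) ≤ 1 / 2 * 1 :=
              mul_le_mul hn1 this (by positivity) (by norm_num)
          _ = 1 / 2 := by norm_num
      rw [core_nd_self (mul_nonneg hn0 (by positivity)) hle, hgM]
      have h3 : 2 * K * (ε * (1 / t)) = (q : ℝ) ^ (3 * kp) := by
        rw [hε]
        field_simp
      rw [← h3]
      apply mul_le_mul_of_nonneg_left _ (by positivity)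
      exact mul_le_mul_of_nonneg_right hc (by positivity)
  have hsum : ∑ c ∈ range g, core_W q lam r K g c * PP q φ lam δ c ^ 2 ≤
      K / (q : ℝ) ^ (3 * kp) * u + (2 * ε * g + r) * (K * S ^ 2) := by
    refine (Finset.sum_le_sum hterm).trans ?_
    rw [Finset.sum_add_distrib, ← Finset.mul_sum, ← Finset.sum_filter, Finset.sum_const,
      nsmul_eq_mul]
    have h1 : ∑ c ∈ range g, PP q φ lam δ c ^ 2 = u := by
      rw [hu, core_period (q ^ δ) u (fun c => PP q φ lam δ c ^ 2)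
        (fun c => by rw [PP_mod φ hq]), PP_parseval φ hq hφ, mul_one]
    rw [h1]
    have h2 := core_count g r hg1 hr ε hε0
    have h3 : 0 ≤ K * S ^ 2 := by positivity
    linarith [mul_le_mul_of_nonneg_right h2 h3]
  have hfin : (t : ℝ) * (K / (q : ℝ) ^ (3 * kp) * u + (2 * ε * g + r) * (K * S ^ 2)) ≤
      K / (q : ℝ) ^ kp +
        (q : ℝ) ^ kp * ((q : ℝ) ^ (4 * kp) * (q : ℝ) ^ lam + K * r) * S ^ 2 := by
    have e1 : (t : ℝ) * (K / (q : ℝ) ^ (3 * kp) * u) ≤ K / (q : ℝ) ^ kp := by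
      have h1 : (t : ℝ) * (K / (q : ℝ) ^ (3 * kp) * u) = K / ((q : ℝ) ^ kp * (q : ℝ) ^ kp) := by
        have h2 : (q : ℝ) ^ (3 * kp) = (q : ℝ) ^ kp * ((q : ℝ) ^ kp * (q : ℝ) ^ kp) := by
          rw [← pow_add, ← pow_add]
          congr 1
          ring
        rw [h2]
        calc (t : ℝ) * (K / ((q : ℝ) ^ kp * ((q : ℝ) ^ kp * (q : ℝ) ^ kp)) * u) =
              ((t : ℝ) * u) * (K / ((q : ℝ) ^ kp * ((q : ℝ) ^ kp * (q : ℝ) ^ kp))) := by ring
          _ = _ := by
              rw [htk]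
              field_simp
      rw [h1]
      apply div_le_div_of_nonneg_left hK0.le (by positivity)
      nlinarith
    have e2 : (2 * ε * g + r) * (K * S ^ 2) = ((q : ℝ) ^ lam * (q : ℝ) ^ (3 * kp) + K * r) * S ^ 2 := by
      rw [hε, hMR]
      field_simp
    have e3 : (t : ℝ) * ((2 * ε * g + r) * (K * S ^ 2)) ≤
        (q : ℝ) ^ kp * ((q : ℝ) ^ (4 * kp) * (q : ℝ) ^ lam + K * r) * S ^ 2 := by
      rw [e2, mul_assoc]
      apply mul_le_mul htk' _ (by positivity) (by positivity)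
      apply mul_le_mul_of_nonneg_right _ (sq_nonneg _)
      have h3 : (q : ℝ) ^ (3 * kp) ≤ (q : ℝ) ^ (4 * kp) := pow_le_pow_right₀ hq1 (by omega)
      have h4 : (0 : ℝ) ≤ (q : ℝ) ^ lam := by positivity
      nlinarith
    rw [mul_add]
    linarith
  exact (mul_le_mul_of_nonneg_left hsum htR.le).trans hfin

/-- the `g`-term -/
theorem core_term (hq : 2 ≤ q) (hφ : Uni φ) (κ : ℝ) (hκ0 : 0 ≤ κ) (hκ1 : κ ≤ 1) (hS : Str q φ κ)
    (lam r kp g : ℕ) (K S : ℝ) (hK : 1 ≤ K) (hkp : kp < lam) (hr : 1 ≤ r) (hS0 : 0 ≤ S)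
    (hsup : ∀ c, PP q φ lam (lam - kp) c ≤ S) (hg : g ∣ q ^ lam) :
    (g : ℝ) / (q : ℝ) ^ lam * ∑ c ∈ range g, core_W q lam r K g c *
        (∑ h ∈ (range (q ^ lam)).filter (fun h => h % g = c), PP q φ lam lam h) ^ 2 ≤
      K * κ ^ kp + K / (q : ℝ) ^ kp +
        (q : ℝ) ^ kp * ((q : ℝ) ^ (4 * kp) * (q : ℝ) ^ lam + K * r) * S ^ 2 := by
  have hK0 : 0 < K := by linarith
  by_cases hgδ : q ^ (lam - kp) ∣ g
  · have h1 := core_term_b φ hq hφ lam r kp g K S hK hkp hr hsup hg hgδ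
    have h2 : 0 ≤ K * κ ^ kp := by positivity
    linarith
  · have h1 := core_T_sup (q := q) φ lam g r K hK0.le ((g : ℝ) / (q : ℝ) ^ lam) (by positivity)
    have hne : lam - kp - 1 + 1 = lam - kp := by omega
    have h2 := mink φ hq hφ κ hκ0 hκ1 hS lam lam g hg (lam - kp - 1) (by rw [hne]; exact hgδ)
    have h3 : lam - (lam - kp - 1) - 1 = kp := by omega
    rw [h3] at h2
    have h4 : 0 ≤ K / (q : ℝ) ^ kp +
        (q : ℝ) ^ kp * ((q : ℝ) ^ (4 * kp) * (q : ℝ) ^ lam + K * r) * S ^ 2 := by positivity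
    have h5 := mul_le_mul_of_nonneg_left h2 hK0.le
    linarith

theorem core (hq : 2 ≤ q) (hφ : Uni φ) (κ : ℝ) (hκ0 : 0 ≤ κ) (hκ1 : κ ≤ 1) (hS : Str q φ κ)
    (lam N r kp : ℕ) (K S : ℝ) (hK : 1 ≤ K) (hkp : kp < lam) (hr : 1 ≤ r) (hS0 : 0 ≤ S)
    (hsup : ∀ c, PP q φ lam (lam - kp) c ≤ S) (a c : ℕ → ℕ) (hac : ∀ n, (c n : ℝ) - a n ≤ K) :
    ∑ n ∈ range N, ‖∑ m ∈ Ico (a n) (c n),
      fd q φ lam (m * (n + r)) * conj (fd q φ lam (m * n))‖ ≤
    (K + (N + (q : ℝ) ^ lam) * (4 + 2 * Real.log ((q : ℝ) ^ lam))) * (q : ℝ) ^ lam * κ ^ (lam - 1) +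
    N * ((q ^ lam).divisors.card : ℝ) *
      (K * κ ^ kp + K / (q : ℝ) ^ kp +
        (q : ℝ) ^ kp * ((q : ℝ) ^ (4 * kp) * (q : ℝ) ^ lam + K * r) * S ^ 2) := by
  have hK0 : 0 < K := by linarith
  have hq1 : (1 : ℝ) ≤ q := by exact_mod_cast (by omega : 1 ≤ q)
  have hM1 : (1 : ℝ) ≤ (q : ℝ) ^ lam := one_le_pow₀ hq1
  have hlog := Real.log_nonneg hM1
  set C : ℝ := K + (N + (q : ℝ) ^ lam) * (4 + 2 * Real.log ((q : ℝ) ^ lam)) with hC
  have hC0 : 0 ≤ C := by positivity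
  set E : ℝ := K * κ ^ kp + K / (q : ℝ) ^ kp +
        (q : ℝ) ^ kp * ((q : ℝ) ^ (4 * kp) * (q : ℝ) ^ lam + K * r) * S ^ 2 with hE
  set P : ℕ → ℝ := fun h => PP q φ lam lam h with hP
  have hP0 : ∀ h, 0 ≤ P h := fun h => PP_nonneg φ _ _ _
  set R := range (q ^ lam) with hR
  -- the sum over n
  have h1 : ∑ n ∈ range N, ‖∑ m ∈ Ico (a n) (c n),
      fd q φ lam (m * (n + r)) * conj (fd q φ lam (m * n))‖ ≤
      ∑ h ∈ R, ∑ k ∈ R, P h * P k * (N * (∑ g ∈ (q ^ lam).divisors, if h % g = k % g then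
        ((g : ℝ) / (q : ℝ) ^ lam * core_W q lam r K g h) else 0) + C) := by
    calc _ ≤ ∑ n ∈ range N, ∑ h ∈ R, ∑ k ∈ R, P h * P k *
          gm K (((((h : ℤ) - k : ℤ) : ℝ) * n + (((h : ℤ) * r : ℤ) : ℝ)) / ((q ^ lam : ℕ) : ℝ)) :=
          Finset.sum_le_sum fun n _ => core_inner φ hq lam n r K hK0.le (a n) (c n) (hac n)
      _ = ∑ h ∈ R, ∑ k ∈ R, P h * P k * ∑ n ∈ range N,
          gm K (((((h : ℤ) - k : ℤ) : ℝ) * n + (((h : ℤ) * r : ℤ) : ℝ)) / ((q ^ lam : ℕ) : ℝ)) := by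
          rw [Finset.sum_comm]
          refine Finset.sum_congr rfl fun h _ => ?_
          rw [Finset.sum_comm]
          refine Finset.sum_congr rfl fun k _ => ?_
          rw [Finset.mul_sum]
      _ ≤ _ := by
          refine Finset.sum_le_sum fun h _ => Finset.sum_le_sum fun k _ => ?_
          apply mul_le_mul_of_nonneg_left _ (mul_nonneg (hP0 h) (hP0 k))
          refine (core_nsum hq lam r N K hK h k).trans ?_
          have h2 := mul_le_mul_of_nonneg_left (core_div hq lam r K hK0.le h k)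
            (Nat.cast_nonneg N : (0 : ℝ) ≤ N)
          linarith
  refine h1.trans ?_
  have h2 : ∑ h ∈ R, ∑ k ∈ R, P h * P k * (N * (∑ g ∈ (q ^ lam).divisors, if h % g = k % g then
        ((g : ℝ) / (q : ℝ) ^ lam * core_W q lam r K g h) else 0) + C) =
      C * (∑ h ∈ R, ∑ k ∈ R, P h * P k) +
      N * ∑ g ∈ (q ^ lam).divisors, ∑ h ∈ R, ∑ k ∈ R, P h * P k * (if h % g = k % g then
        ((g : ℝ) / (q : ℝ) ^ lam * core_W q lam r K g h) else 0) := by
    have h3 : ∑ g ∈ (q ^ lam).divisors, ∑ h ∈ R, ∑ k ∈ R, P h * P k * (if h % g = k % g then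
        ((g : ℝ) / (q : ℝ) ^ lam * core_W q lam r K g h) else 0) =
        ∑ h ∈ R, ∑ k ∈ R, P h * P k * ∑ g ∈ (q ^ lam).divisors, (if h % g = k % g then
        ((g : ℝ) / (q : ℝ) ^ lam * core_W q lam r K g h) else 0) := by
      rw [Finset.sum_comm]
      refine Finset.sum_congr rfl fun h _ => ?_
      rw [Finset.sum_comm]
      refine Finset.sum_congr rfl fun k _ => ?_
      rw [Finset.mul_sum]
    rw [h3, Finset.mul_sum, Finset.mul_sum, ← Finset.sum_add_distrib]
    refine Finset.sum_congr rfl fun h _ => ?_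
    rw [Finset.mul_sum, Finset.mul_sum, ← Finset.sum_add_distrib]
    refine Finset.sum_congr rfl fun k _ => ?_
    ring
  rw [h2]
  -- part (1)
  have h4 : ∑ h ∈ R, ∑ k ∈ R, P h * P k ≤ (q : ℝ) ^ lam * κ ^ (lam - 1) := by
    have h5 := mink φ hq hφ κ hκ0 hκ1 hS lam lam 1 (one_dvd _) 0 (by
      intro h
      have := Nat.le_of_dvd one_pos h
      simp at this
      omega)
    have h6 : AA q φ lam lam 1 = ∑ h ∈ R, ∑ k ∈ R, P h * P k := by
      unfold AA
      rw [Finset.sum_range_one, ← Finset.sum_mul_sum, ← sq]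
      congr 1
      refine Finset.sum_congr ?_ fun _ _ => rfl
      rw [Finset.filter_true_of_mem]
      intro x _
      exact Nat.mod_one x
    rw [h6] at h5
    rw [Nat.cast_one, Nat.sub_zero, one_div, inv_mul_le_iff₀ (by positivity)] at h5
    exact h5
  -- part (2)
  have h7 : ∑ g ∈ (q ^ lam).divisors, ∑ h ∈ R, ∑ k ∈ R, P h * P k * (if h % g = k % g then
        ((g : ℝ) / (q : ℝ) ^ lam * core_W q lam r K g h) else 0) ≤
      ((q ^ lam).divisors.card : ℝ) * E := by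
    rw [← nsmul_eq_mul]
    apply Finset.sum_le_card_nsmul
    intro g hg
    obtain ⟨hg1, hg2⟩ := Nat.mem_divisors.1 hg
    have hgpos : 1 ≤ g := Nat.pos_of_dvd_of_pos hg1 (Nat.pos_of_ne_zero hg2)
    rw [core_T g lam r K hgpos P R]
    exact core_term φ hq hφ κ hκ0 hκ1 hS lam r kp g K S hK hkp hr hS0 hsup hg1
  have h8 := mul_le_mul_of_nonneg_left h4 hC0
  have h9 := mul_le_mul_of_nonneg_left h7 (Nat.cast_nonneg N : (0 : ℝ) ≤ N)
  calc _ ≤ C * ((q : ℝ) ^ lam * κ ^ (lam - 1)) + N * (((q ^ lam).divisors.card : ℝ) * E) :=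
        add_le_add h8 h9
    _ = _ := by ring

/-- number of divisors of `q ^ lam` -/
theorem card_divisors_pow_le (hq : 2 ≤ q) (lam : ℕ) :
    ((q ^ lam).divisors.card : ℝ) ≤ ((q : ℝ) * (lam + 1)) ^ q := by
  have h0 : q ^ lam ≠ 0 := pow_ne_zero _ (by omega)
  have hb : 1 ≤ q * (lam + 1) := Nat.mul_pos (by omega) (by omega)
  have h1 : (q ^ lam).divisors.card ≤ (q * (lam + 1)) ^ q := by
    rw [Nat.card_divisors h0]
    calc ∏ x ∈ (q ^ lam).primeFactors, ((q ^ lam).factorization x + 1)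
        ≤ ∏ _x ∈ (q ^ lam).primeFactors, (q * (lam + 1)) := by
          refine Finset.prod_le_prod' fun x _ => ?_
          rw [Nat.factorization_pow]
          have h2 : q.factorization x ≤ q := (Nat.factorization_lt x (by omega)).le
          have h3 : (lam • q.factorization) x = lam * q.factorization x := rfl
          rw [h3]
          nlinarith
      _ = (q * (lam + 1)) ^ (q ^ lam).primeFactors.card := by rw [Finset.prod_const]
      _ ≤ (q * (lam + 1)) ^ q := by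
          apply Nat.pow_le_pow_right hb
          calc (q ^ lam).primeFactors.card ≤ q.primeFactors.card := by
                apply card_le_card
                rcases Nat.eq_zero_or_pos lam with h | h
                · rw [h, pow_zero, Nat.primeFactors_one]
                  exact Finset.empty_subset _
                · rw [Nat.primeFactors_pow q (by omega)]
            _ ≤ (range q).card := by
                apply Finset.card_le_card_of_injOn (fun p => p - 1)
                · intro p hp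
                  have hp' := Nat.mem_primeFactors.1 (mem_coe.1 hp)
                  have h5 := Nat.le_of_dvd (by omega) hp'.2.1
                  have h6 := hp'.1.two_le
                  simp only [coe_range, Set.mem_Iio]
                  omega
                · intro a ha b hb' hab
                  have ha' := (Nat.mem_primeFactors.1 (mem_coe.1 ha)).1.two_le
                  have hb'' := (Nat.mem_primeFactors.1 (mem_coe.1 hb')).1.two_le
                  simp only at hab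
                  omega
            _ = q := card_range q
  calc ((q ^ lam).divisors.card : ℝ) ≤ (((q * (lam + 1)) ^ q : ℕ) : ℝ) := by exact_mod_cast h1
    _ = _ := by push_cast; rfl

end Pool.Agent.H10.RP
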