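import Pool.Agent.H10.RP.APs
import Pool.Agent.H90.PNT

/-!
# Reversed primes: the primes with fixed first digit (job RP-20)

Notation `m = b ^ 2 - 1` (natural subtraction, `≥ 3`), `y = b ^ (L - 1)`, `I = [a1 y, (a1 + 1) y)`.

PROOF of `kap_bounds`: by the prime number theorem (`Pool.Agent.H90.tendsto_psi_div`)
`∑_{n ∈ I} Λ n = ψ((a1 + 1) y) - ψ(a1 y) + O(log) = y + o(y)`, uniformly in the finitely many `a1`.

PROOF of `equi`. `r` not coprime to `b`: the set is empty. Otherwise for `n % b ^ K = r` (`K ≥ 1`) the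
condition `n.Coprime b` holds. With `N = m b ^ K` (`m`, `b` coprime; `N ≤ b² L ^ A`) the two conditions
`n ≡ c mod m`, `n ≡ r mod b ^ K` are one condition mod `N` (a unit class), and `primes_ap`
(`R = b (b² - 1)`) at `x = (a1 + 1) y` and `x = a1 y` gives `∑ Λ n = (∑_{n ∈ I} Λ n) / φ(N) + error`. The number of `n`
in `I` in the class is `y / N + O(1)`, and `kap * y / N = (∑_{n ∈ I} Λ n) / (φ(m) φ(b ^ K))` because
`φ(b ^ K) = b ^ K φ(b) / b`.
-/

set_option autoImplicit false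

open Finset

namespace Pool.Agent.H10.RP

/-- integers with `L` digits, first digit `a1`, in the class `c` mod `b² - 1`, coprime to `b` -/
def SS (b L a1 c : ℕ) : Finset ℕ :=
  (range (b ^ L)).filter (fun n => n / b ^ (L - 1) = a1 ∧ n % (b ^ 2 - 1) = c ∧ n.Coprime b)

/-- the density of the primes in `SS` (von Mangoldt weights) -/
noncomputable def kap (b L a1 : ℕ) : ℝ :=
  (b : ℝ) / b.totient * (((b ^ 2 - 1 : ℕ) : ℝ) / (b ^ 2 - 1).totient) *
    (∑ n ∈ Ico (a1 * b ^ (L - 1)) ((a1 + 1) * b ^ (L - 1)), ArithmeticFunction.vonMangoldt n) /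
      (b : ℝ) ^ (L - 1)

theorem equi_psi (x : ℕ) : Chebyshev.psi (x : ℝ) =
    ∑ n ∈ range (x + 1), ArithmeticFunction.vonMangoldt n := by
  unfold Chebyshev.psi
  rw [Nat.floor_natCast]
  refine sum_subset ?_ ?_
  · intro n hn
    rw [mem_Ioc] at hn
    exact mem_range.mpr (by omega)
  · intro n hn hn'
    rw [mem_range] at hn
    rw [mem_Ioc] at hn'
    have : n = 0 := by omega
    rw [this]
    simp

theorem equi_pnt (ε : ℝ) (hε : 0 < ε) : ∃ X0 : ℕ, ∀ x : ℕ, X0 ≤ x →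
    |∑ n ∈ range x, ArithmeticFunction.vonMangoldt n - x| ≤ ε * x := by
  have h := Pool.Agent.H90.tendsto_psi_div
  rw [Metric.tendsto_atTop] at h
  obtain ⟨N, hN⟩ := h (ε / 2) (by positivity)
  refine ⟨⌈|N|⌉₊ + ⌈2 / ε⌉₊ + 2, fun x hx => ?_⟩
  obtain ⟨z, rfl⟩ : ∃ z, x = z + 1 := ⟨x - 1, by omega⟩
  have hz1 : ⌈|N|⌉₊ + ⌈2 / ε⌉₊ + 1 ≤ z := by omega
  have hz1' : ((⌈|N|⌉₊ : ℝ) + ⌈2 / ε⌉₊ + 1) ≤ z := by exact_mod_cast hz1
  have h1 : |N| ≤ ⌈|N|⌉₊ := Nat.le_ceil _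
  have h2 : 2 / ε ≤ ⌈2 / ε⌉₊ := Nat.le_ceil _
  have h3 := le_abs_self N
  have h4 : (0 : ℝ) ≤ 2 / ε := by positivity
  have h5 : N ≤ (z : ℝ) := by linarith
  have hz0 : (1 : ℝ) ≤ z := by
    have := abs_nonneg N
    linarith
  have h6 := hN z h5
  rw [Real.dist_eq, equi_psi] at h6
  set S := ∑ n ∈ range (z + 1), ArithmeticFunction.vonMangoldt n with hS
  have h7 : |S - z| ≤ ε / 2 * z := by
    have e : S - z = (S / z - 1) * z := by field_simp
    rw [e, abs_mul, abs_of_pos (by linarith : (0 : ℝ) < z)]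
    exact mul_le_mul_of_nonneg_right h6.le (by linarith)
  have h8 : 1 ≤ ε / 2 * z := by
    have h9 : 2 / ε ≤ z := by
      have := abs_nonneg N
      linarith
    rw [div_le_iff₀ hε] at h9
    linarith
  have e2 : ((z + 1 : ℕ) : ℝ) = z + 1 := by push_cast; ring
  rw [e2]
  have h10 : |S - (z + 1)| ≤ |S - z| + 1 := by
    have e3 : S - (z + 1) = (S - z) + (-1) := by ring
    rw [e3]
    refine (abs_add_le _ _).trans ?_
    simp
  nlinarith

/-- the interval -/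
theorem equi_S (b : ℕ) (hb : 2 ≤ b) : ∃ L0 : ℕ, ∀ L : ℕ, L0 ≤ L → ∀ a1 : ℕ, 1 ≤ a1 → a1 < b →
    |∑ n ∈ Ico (a1 * b ^ (L - 1)) ((a1 + 1) * b ^ (L - 1)), ArithmeticFunction.vonMangoldt n -
      (b : ℝ) ^ (L - 1)| ≤ (b : ℝ) ^ (L - 1) / 2 := by
  have hb0 : (2 : ℝ) ≤ b := by exact_mod_cast hb
  obtain ⟨X0, hX0⟩ := equi_pnt (1 / (4 * b)) (by positivity)
  refine ⟨X0 + 1, fun L hL a1 h1 h2 => ?_⟩
  have hy : X0 ≤ b ^ (L - 1) := by
    have h3 : L - 1 < b ^ (L - 1) := Nat.lt_pow_self (by omega)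
    omega
  have hx1 : X0 ≤ a1 * b ^ (L - 1) := hy.trans (Nat.le_mul_of_pos_left _ (by omega))
  have hx2 : X0 ≤ (a1 + 1) * b ^ (L - 1) := hy.trans (Nat.le_mul_of_pos_left _ (by omega))
  have e1 := hX0 _ hx1
  have e2 := hX0 _ hx2
  rw [sum_Ico_eq_sub _ (Nat.mul_le_mul_right _ (Nat.le_succ a1))]
  set S1 := ∑ n ∈ range (a1 * b ^ (L - 1)), ArithmeticFunction.vonMangoldt n
  set S2 := ∑ n ∈ range ((a1 + 1) * b ^ (L - 1)), ArithmeticFunction.vonMangoldt n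
  push_cast at e1 e2
  set y : ℝ := (b : ℝ) ^ (L - 1) with hy'
  have hy0 : 0 < y := by positivity
  have ha1 : (a1 : ℝ) + 1 ≤ b := by exact_mod_cast h2
  have e3 : S2 - S1 - y = (S2 - (a1 + 1) * y) - (S1 - a1 * y) := by ring
  rw [e3]
  refine (abs_sub _ _).trans ?_
  have h5 : 1 / (4 * (b : ℝ)) * (((a1 : ℝ) + 1) * y) ≤ y / 4 := by
    have h7 : ((a1 : ℝ) + 1) * y ≤ b * y := mul_le_mul_of_nonneg_right ha1 hy0.le
    have h8 : 1 / (4 * (b : ℝ)) * (((a1 : ℝ) + 1) * y) ≤ 1 / (4 * (b : ℝ)) * (b * y) :=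
      mul_le_mul_of_nonneg_left h7 (by positivity)
    have h9 : 1 / (4 * (b : ℝ)) * (b * y) = y / 4 := by field_simp
    linarith
  have h6 : 1 / (4 * (b : ℝ)) * ((a1 : ℝ) * y) ≤ y / 4 := by
    have h7 : (a1 : ℝ) * y ≤ (a1 + 1) * y := mul_le_mul_of_nonneg_right (by linarith) hy0.le
    have h8 : 1 / (4 * (b : ℝ)) * ((a1 : ℝ) * y) ≤ 1 / (4 * (b : ℝ)) * (((a1 : ℝ) + 1) * y) :=
      mul_le_mul_of_nonneg_left h7 (by positivity)
    linarith
  linarith

theorem kap_bounds (b : ℕ) (hb : 2 ≤ b) : ∃ c1 c2 : ℝ, 0 < c1 ∧ 0 < c2 ∧ ∃ L0 : ℕ, ∀ L : ℕ,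
    L0 ≤ L → ∀ a1 : ℕ, 1 ≤ a1 → a1 < b → c1 ≤ kap b L a1 ∧ kap b L a1 ≤ c2 := by
  obtain ⟨L0, hL0⟩ := equi_S b hb
  have hb0 : (0 : ℝ) < b := by exact_mod_cast (by omega : 0 < b)
  have hφ : (0 : ℝ) < b.totient := by exact_mod_cast Nat.totient_pos.mpr (by omega)
  have hm : 0 < b ^ 2 - 1 := by
    have : 2 ^ 2 ≤ b ^ 2 := Nat.pow_le_pow_left hb 2
    omega
  have hm0 : (0 : ℝ) < ((b ^ 2 - 1 : ℕ) : ℝ) := by exact_mod_cast hm
  have hφm : (0 : ℝ) < (b ^ 2 - 1).totient := by exact_mod_cast Nat.totient_pos.mpr hm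
  set κ : ℝ := (b : ℝ) / b.totient * (((b ^ 2 - 1 : ℕ) : ℝ) / (b ^ 2 - 1).totient) with hκ
  have hκ0 : 0 < κ := by positivity
  refine ⟨κ * (1 / 2), κ * (3 / 2), by positivity, by positivity, L0, fun L hL a1 h1 h2 => ?_⟩
  have h := hL0 L hL a1 h1 h2
  have hy0 : (0 : ℝ) < (b : ℝ) ^ (L - 1) := by positivity
  unfold kap
  rw [← hκ]
  clear_value κ
  set S := ∑ n ∈ Ico (a1 * b ^ (L - 1)) ((a1 + 1) * b ^ (L - 1)),
    ArithmeticFunction.vonMangoldt n
  rw [abs_le] at h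
  constructor
  · rw [le_div_iff₀ hy0, mul_assoc]
    exact mul_le_mul_of_nonneg_left (by linarith) hκ0.le
  · rw [div_le_iff₀ hy0, mul_assoc]
    exact mul_le_mul_of_nonneg_left (by linarith) hκ0.le

theorem equi_count (N v x : ℕ) (hN : 0 < N) :
    |(#((range x).filter (fun n => n % N = v % N)) : ℝ) - x / N| ≤ 1 := by
  have h := Nat.count_modEq_card x hN v
  rw [Nat.count_eq_card_filter_range] at h
  have h1 : #((range x).filter (fun n => n % N = v % N)) =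
      x / N + if v % N < x % N then 1 else 0 := h
  rw [h1]
  have hN0 : (0 : ℝ) < N := by exact_mod_cast hN
  have h2 : (x : ℝ) = N * (x / N : ℕ) + (x % N : ℕ) := by
    exact_mod_cast (Nat.div_add_mod x N).symm
  have h3 : ((x % N : ℕ) : ℝ) < N := by exact_mod_cast Nat.mod_lt x hN
  have h3' : (0 : ℝ) ≤ ((x % N : ℕ) : ℝ) := Nat.cast_nonneg _
  have h4 : (x : ℝ) / N = (x / N : ℕ) + ((x % N : ℕ) : ℝ) / N := by
    field_simp
    linarith
  have h5 : ((x % N : ℕ) : ℝ) / N < 1 := by rwa [div_lt_one hN0]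
  have h6 : 0 ≤ ((x % N : ℕ) : ℝ) / N := by positivity
  rw [h4, abs_le]
  push_cast
  split_ifs <;> constructor <;> linarith

theorem equi_Ico (p : ℕ → Prop) [DecidablePred p] (f : ℕ → ℝ) (x1 x2 : ℕ) (h : x1 ≤ x2) :
    ∑ n ∈ (Ico x1 x2).filter p, f n =
      ∑ n ∈ (range x2).filter p, f n - ∑ n ∈ (range x1).filter p, f n := by
  rw [sum_filter, sum_filter, sum_filter, sum_Ico_eq_sub _ h]

theorem equi_totient (b K : ℕ) : (b ^ (K + 1)).totient = b ^ K * b.totient := by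
  have h1 := Nat.totient_eq_mul_prod_factors (b ^ (K + 1))
  have h2 := Nat.totient_eq_mul_prod_factors b
  rw [Nat.primeFactors_pow b (Nat.succ_ne_zero K)] at h1
  have h3 : (((b ^ (K + 1)).totient : ℕ) : ℚ) = ((b ^ K * b.totient : ℕ) : ℚ) := by
    rw [h1]
    push_cast
    rw [h2]
    ring
  exact_mod_cast h3

theorem equi_large (A c : ℝ) (hc : 0 ≤ c) : ∃ L0 : ℕ, ∀ L : ℕ, L0 ≤ L →
    c * (L : ℝ) ^ A ≤ 2 ^ L := by
  have h := tendsto_pow_const_div_const_pow_of_one_lt ⌈A⌉₊ (by norm_num : (1 : ℝ) < 2)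
  have h2 := h.eventually (gt_mem_nhds (show (0 : ℝ) < 1 / (c + 1) by positivity))
  obtain ⟨L0, hL0⟩ := Filter.eventually_atTop.mp h2
  refine ⟨L0 + 1, fun L hL => ?_⟩
  have h3 := hL0 L (by omega)
  have hL1 : (1 : ℝ) ≤ L := by exact_mod_cast (by omega : 1 ≤ L)
  have h4 : (L : ℝ) ^ A ≤ (L : ℝ) ^ (⌈A⌉₊ : ℝ) :=
    Real.rpow_le_rpow_of_exponent_le hL1 (Nat.le_ceil A)
  rw [Real.rpow_natCast] at h4
  have hp : (0 : ℝ) < 2 ^ L := by positivity
  rw [div_lt_div_iff₀ hp (by positivity), one_mul] at h3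
  have h5 : 0 ≤ (L : ℝ) ^ ⌈A⌉₊ := by positivity
  nlinarith

theorem equi (b : ℕ) (hb : 2 ≤ b) (A : ℝ) : ∃ L0 : ℕ, ∀ L : ℕ, L0 ≤ L → ∀ a1 : ℕ, 1 ≤ a1 →
    a1 < b → ∀ c : ℕ, c < b ^ 2 - 1 → c.Coprime (b ^ 2 - 1) → ∀ K : ℕ, 1 ≤ K →
    ((b : ℝ) ^ K ≤ (L : ℝ) ^ A) → ∀ r : ℕ, r < b ^ K →
    |∑ n ∈ (SS b L a1 c).filter (fun n => n % b ^ K = r),
      (ArithmeticFunction.vonMangoldt n - kap b L a1)| ≤ (b : ℝ) ^ L * (L : ℝ) ^ (-A) := by
  have hb0 : (2 : ℝ) ≤ b := by exact_mod_cast hb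
  have hm : 0 < b ^ 2 - 1 := by
    have : 2 ^ 2 ≤ b ^ 2 := Nat.pow_le_pow_left hb 2
    omega
  have hR : b * (b ^ 2 - 1) ≠ 0 := Nat.mul_ne_zero (by omega) (by omega)
  obtain ⟨c1, c2, hc1, hc2, L1, hκ⟩ := kap_bounds b hb
  obtain ⟨x0, hap⟩ := primes_ap (b * (b ^ 2 - 1)) hR (A + 1)
  obtain ⟨L2, hL2⟩ := equi_large A (4 * c2) (by positivity)
  obtain ⟨L3, hL3⟩ := exists_nat_ge ((b : ℝ) ^ 2 * 3 ^ (A + 1) + 4 * 3 ^ (A + 1))
  refine ⟨L1 + L2 + L3 + x0 + 4, fun L hL a1 h1 h2 c hc hcm K hK hKA r hr => ?_⟩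
  have hLr : (4 : ℝ) ≤ L := by exact_mod_cast (by omega : 4 ≤ L)
  have hL0 : (0 : ℝ) < L := by linarith
  have hκL := hκ L (by omega) a1 h1 h2
  have hA0 : 0 ≤ A := by
    by_contra hneg
    push Not at hneg
    have h3 : (L : ℝ) ^ A ≤ 1 := Real.rpow_le_one_of_one_le_of_nonpos (by linarith) hneg.le
    have h4 : (b : ℝ) ^ 1 ≤ (b : ℝ) ^ K := pow_le_pow_right₀ (by linarith) hK
    rw [pow_one] at h4
    linarith
  have h3pos : (0 : ℝ) < 3 ^ (A + 1) := by positivity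
  have hLbig : (b : ℝ) ^ 2 * 3 ^ (A + 1) ≤ L ∧ 4 * (3 : ℝ) ^ (A + 1) ≤ L := by
    have h5 : (L3 : ℝ) ≤ L := by exact_mod_cast (by omega : L3 ≤ L)
    have h6 : 0 < (b : ℝ) ^ 2 * 3 ^ (A + 1) := by positivity
    constructor <;> linarith
  have hrhs0 : 0 ≤ (b : ℝ) ^ L * (L : ℝ) ^ (-A) := by positivity
  by_cases hrb : r.Coprime b
  swap
  · have hempty : (SS b L a1 c).filter (fun n => n % b ^ K = r) = ∅ := by
      rw [filter_eq_empty_iff]
      intro n hn hnr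
      unfold SS at hn
      rw [mem_filter] at hn
      apply hrb
      have h5 : n ≡ r [MOD b] := by
        have h6 : n ≡ r [MOD b ^ K] := by
          unfold Nat.ModEq
          rw [hnr, Nat.mod_eq_of_lt hr]
        exact h6.of_dvd (dvd_pow_self b (by omega))
      have h7 := h5.gcd_eq
      unfold Nat.Coprime
      rw [← h7]
      exact hn.2.2.2
    rw [hempty, sum_empty, abs_zero]
    exact hrhs0
  -- main case
  have hco1 : Nat.Coprime (b ^ 2 - 1) b := by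
    have h5 : b ^ 2 = (b ^ 2 - 1) + 1 := by omega
    have h6 : Nat.Coprime (b ^ 2 - 1) (b ^ 2) := by
      rw [h5, Nat.add_sub_cancel]
      exact Nat.coprime_self_add_right.mpr (Nat.coprime_one_right _)
    exact Nat.Coprime.coprime_dvd_right (dvd_pow_self b (by norm_num)) h6
  have hco : Nat.Coprime (b ^ 2 - 1) (b ^ K) := hco1.pow_right K
  obtain ⟨v, hv1, hv2⟩ := Nat.chineseRemainder hco c r
  set N : ℕ := (b ^ 2 - 1) * b ^ K with hN
  have hbK : 0 < b ^ K := by positivity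
  have hN0 : 0 < N := Nat.mul_pos hm hbK
  have hNr : (0 : ℝ) < N := by exact_mod_cast hN0
  set y : ℕ := b ^ (L - 1) with hy
  have hy0 : 0 < y := by positivity
  have hyr : (0 : ℝ) < y := by exact_mod_cast hy0
  have hbL : b ^ L = b * y := by
    rw [hy, ← pow_succ']
    congr 1
    omega
  have hset : (SS b L a1 c).filter (fun n => n % b ^ K = r) =
      (Ico (a1 * y) ((a1 + 1) * y)).filter (fun n => n % N = v % N) := by
    ext n
    unfold SS
    rw [mem_filter, mem_filter, mem_filter, mem_range, mem_Ico]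
    have hiff : n % N = v % N ↔ n % (b ^ 2 - 1) = c ∧ n % b ^ K = r := by
      have h5 : (n ≡ v [MOD b ^ 2 - 1] ∧ n ≡ v [MOD b ^ K]) ↔ n ≡ v [MOD N] :=
        Nat.modEq_and_modEq_iff_modEq_mul hco
      have h6 : n % N = v % N ↔ n ≡ v [MOD N] := Iff.rfl
      have hv1' : v % (b ^ 2 - 1) = c := by
        have : v % (b ^ 2 - 1) = c % (b ^ 2 - 1) := hv1
        rw [this, Nat.mod_eq_of_lt hc]
      have hv2' : v % b ^ K = r := by
        have : v % b ^ K = r % b ^ K := hv2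
        rw [this, Nat.mod_eq_of_lt hr]
      rw [h6, ← h5]
      unfold Nat.ModEq
      rw [hv1', hv2']
    rw [hiff]
    have hdiv : n / y = a1 ↔ a1 * y ≤ n ∧ n < (a1 + 1) * y := by
      rw [Nat.div_eq_iff hy0]
      have e5 : (a1 + 1) * y = y * a1 + y := by ring
      have e6 : a1 * y = y * a1 := by ring
      rw [e5, e6]
      constructor
      · rintro ⟨h7, h8⟩
        exact ⟨by linarith, by omega⟩
      · rintro ⟨h7, h8⟩
        exact ⟨by linarith, by omega⟩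
    constructor
    · rintro ⟨⟨h5, h6, h7, h8⟩, h9⟩
      exact ⟨hdiv.mp h6, h7, h9⟩
    · rintro ⟨h5, h6, h7⟩
      refine ⟨⟨?_, hdiv.mpr h5, h6, ?_⟩, h7⟩
      · rw [hbL]
        exact h5.2.trans_le (Nat.mul_le_mul_right _ (by omega))
      · have h8 : n ≡ r [MOD b] := by
          have h9 : n ≡ r [MOD b ^ K] := by
            unfold Nat.ModEq
            rw [h7, Nat.mod_eq_of_lt hr]
          exact h9.of_dvd (dvd_pow_self b (by omega))
        have h10 := h8.gcd_eq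
        unfold Nat.Coprime
        rw [h10]
        exact hrb
  have hvN : v.Coprime N := by
    refine Nat.Coprime.mul_right ?_ (Nat.Coprime.pow_right K ?_)
    · unfold Nat.Coprime
      rw [hv1.gcd_eq]
      exact hcm
    · unfold Nat.Coprime
      have h9 : v ≡ r [MOD b] := hv2.of_dvd (dvd_pow_self b (by omega))
      rw [h9.gcd_eq]
      exact hrb
  have hsub : N.primeFactors ⊆ (b * (b ^ 2 - 1)).primeFactors := by
    intro p hp
    have hpp := Nat.prime_of_mem_primeFactors hp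
    have hpd := Nat.dvd_of_mem_primeFactors hp
    rw [Nat.mem_primeFactors]
    refine ⟨hpp, ?_, hR⟩
    rcases (hpp.dvd_mul).mp hpd with h5 | h5
    · exact h5.mul_left b
    · exact (hpp.dvd_of_dvd_pow h5).mul_right _
  -- size of the logarithms
  have hlog2 : (0.69 : ℝ) ≤ Real.log 2 := by
    have := Real.log_two_gt_d9
    linarith
  have hyL : ((L : ℝ) - 1) * Real.log 2 ≤ Real.log y := by
    rw [hy]
    push_cast
    rw [Real.log_pow]
    have e5 : ((L - 1 : ℕ) : ℝ) = (L : ℝ) - 1 := by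
      rw [Nat.cast_sub (by omega)]
      simp
    rw [e5]
    exact mul_le_mul_of_nonneg_left (Real.log_le_log (by norm_num) hb0) (by linarith)
  have hyL3 : (L : ℝ) / 3 ≤ Real.log y := by nlinarith
  have hyx0 : x0 ≤ y := by
    have h5 : L - 1 < b ^ (L - 1) := Nat.lt_pow_self (by omega)
    omega
  have hL30 : (0 : ℝ) < (L : ℝ) / 3 := by positivity
  have hNle : (N : ℝ) ≤ ((L : ℝ) / 3) ^ (A + 1) := by
    have h5 : (N : ℝ) ≤ (b : ℝ) ^ 2 * (L : ℝ) ^ A := by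
      rw [hN]
      push_cast
      have h6 : (((b ^ 2 - 1 : ℕ) : ℝ)) ≤ (b : ℝ) ^ 2 := by
        exact_mod_cast Nat.sub_le _ _
      exact mul_le_mul h6 hKA (by positivity) (by positivity)
    rw [Real.div_rpow hL0.le (by norm_num), le_div_iff₀ h3pos, Real.rpow_add hL0, Real.rpow_one]
    have hLA : 0 < (L : ℝ) ^ A := by positivity
    calc (N : ℝ) * 3 ^ (A + 1) ≤ ((b : ℝ) ^ 2 * (L : ℝ) ^ A) * 3 ^ (A + 1) :=
          mul_le_mul_of_nonneg_right h5 h3pos.le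
      _ = (L : ℝ) ^ A * ((b : ℝ) ^ 2 * 3 ^ (A + 1)) := by ring
      _ ≤ (L : ℝ) ^ A * L := mul_le_mul_of_nonneg_left hLbig.1 hLA.le
  have hx : ∀ x : ℕ, y ≤ x → x ≤ b ^ L →
      |∑ n ∈ (range x).filter (fun n => n % N = v % N), ArithmeticFunction.vonMangoldt n -
        (∑ n ∈ range x, ArithmeticFunction.vonMangoldt n) / N.totient| ≤
        (b : ℝ) ^ L * ((L : ℝ) / 3) ^ (-(A + 1)) := by
    intro x hx1 hx2
    have h5 : (L : ℝ) / 3 ≤ Real.log x :=
      hyL3.trans (Real.log_le_log hyr (by exact_mod_cast hx1))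
    have h6 : (N : ℝ) ≤ (Real.log x) ^ (A + 1) :=
      hNle.trans (Real.rpow_le_rpow hL30.le h5 (by linarith))
    refine (hap x (hyx0.trans hx1) N hN0 h6 hsub v hvN).trans ?_
    have h7 : (Real.log x) ^ (-(A + 1)) ≤ ((L : ℝ) / 3) ^ (-(A + 1)) :=
      Real.rpow_le_rpow_of_nonpos hL30 h5 (by linarith)
    have h8 : (x : ℝ) ≤ (b : ℝ) ^ L := by exact_mod_cast hx2
    exact mul_le_mul h8 h7 (Real.rpow_nonneg (hL30.le.trans h5) _) (by positivity)
  have hx1 : y ≤ a1 * y := Nat.le_mul_of_pos_left _ (by omega)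
  have hx12 : a1 * y ≤ (a1 + 1) * y := Nat.mul_le_mul_right _ (by omega)
  have hx2 : (a1 + 1) * y ≤ b ^ L := by
    rw [hbL]
    exact Nat.mul_le_mul_right _ (by omega)
  have E1 := hx (a1 * y) hx1 (hx12.trans hx2)
  have E2 := hx ((a1 + 1) * y) (hx1.trans hx12) hx2
  have C1 := equi_count N v (a1 * y) hN0
  have C2 := equi_count N v ((a1 + 1) * y) hN0
  rw [hset, sum_sub_distrib, sum_const, nsmul_eq_mul, equi_Ico _ _ _ _ hx12]
  have hcard : (#((Ico (a1 * y) ((a1 + 1) * y)).filter (fun n => n % N = v % N)) : ℝ) =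
      #((range ((a1 + 1) * y)).filter (fun n => n % N = v % N)) -
        #((range (a1 * y)).filter (fun n => n % N = v % N)) := by
    have h5 := equi_Ico (fun n => n % N = v % N) (fun _ => (1 : ℝ)) _ _ hx12
    simp only [sum_const, nsmul_eq_mul, mul_one] at h5
    exact h5
  rw [hcard]
  -- the density
  have hkap : kap b L a1 * (y / N) =
      (∑ n ∈ range ((a1 + 1) * y), ArithmeticFunction.vonMangoldt n) / N.totient -
        (∑ n ∈ range (a1 * y), ArithmeticFunction.vonMangoldt n) / N.totient := by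
    rw [← sub_div]
    unfold kap
    rw [sum_Ico_eq_sub _ hx12]
    set S := ∑ n ∈ range ((a1 + 1) * y), ArithmeticFunction.vonMangoldt n -
      ∑ n ∈ range (a1 * y), ArithmeticFunction.vonMangoldt n
    have e5 : N.totient = (b ^ 2 - 1).totient * (b ^ (K - 1) * b.totient) := by
      rw [hN, Nat.totient_mul hco]
      congr 1
      obtain ⟨K', rfl⟩ : ∃ K', K = K' + 1 := ⟨K - 1, by omega⟩
      rw [Nat.add_sub_cancel]
      exact equi_totient b K'
    have e6 : (N : ℝ) = ((b ^ 2 - 1 : ℕ) : ℝ) * ((b : ℝ) ^ (K - 1) * b) := by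
      rw [hN]
      push_cast
      congr 1
      rw [← pow_succ]
      congr 1
      omega
    have e7 : ((b : ℝ)) ^ (L - 1) = y := by rw [hy]; push_cast; rfl
    have hφ : (0 : ℝ) < b.totient := by exact_mod_cast Nat.totient_pos.mpr (by omega)
    have hφm : (0 : ℝ) < (b ^ 2 - 1).totient := by exact_mod_cast Nat.totient_pos.mpr hm
    have hm0 : (0 : ℝ) < ((b ^ 2 - 1 : ℕ) : ℝ) := by exact_mod_cast hm
    have hb1 : (0 : ℝ) < b := by linarith
    rw [e5, e6, e7]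
    push_cast
    field_simp
  set P2 := ∑ n ∈ (range ((a1 + 1) * y)).filter (fun n => n % N = v % N),
    ArithmeticFunction.vonMangoldt n
  set P1 := ∑ n ∈ (range (a1 * y)).filter (fun n => n % N = v % N),
    ArithmeticFunction.vonMangoldt n
  set Q2 := (∑ n ∈ range ((a1 + 1) * y), ArithmeticFunction.vonMangoldt n) / N.totient
  set Q1 := (∑ n ∈ range (a1 * y), ArithmeticFunction.vonMangoldt n) / N.totient
  set D2 : ℝ := (#((range ((a1 + 1) * y)).filter (fun n => n % N = v % N)) : ℝ)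
  set D1 : ℝ := (#((range (a1 * y)).filter (fun n => n % N = v % N)) : ℝ)
  set E : ℝ := (b : ℝ) ^ L * ((L : ℝ) / 3) ^ (-(A + 1)) with hE
  push_cast at C1 C2
  have e8 : ((a1 : ℝ) + 1) * y / N = (a1 : ℝ) * y / N + y / N := by ring
  rw [e8] at C2
  have hdecomp : P2 - P1 - (D2 - D1) * kap b L a1 =
      (P2 - Q2) - (P1 - Q1) - ((D2 - ((a1 : ℝ) * y / N + y / N)) -
        (D1 - (a1 : ℝ) * y / N)) * kap b L a1 := by
    have e9 : Q2 = Q1 + kap b L a1 * (y / N) := by rw [hkap]; ring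
    rw [e9]
    ring
  rw [hdecomp]
  have hkp : 0 ≤ kap b L a1 := hc1.le.trans hκL.1
  have hfin1 : |(P2 - Q2) - (P1 - Q1) - ((D2 - ((a1 : ℝ) * y / N + y / N)) -
        (D1 - (a1 : ℝ) * y / N)) * kap b L a1| ≤ 2 * E + 2 * c2 := by
    refine (abs_sub _ _).trans ?_
    have h5 : |(P2 - Q2) - (P1 - Q1)| ≤ 2 * E := by
      refine (abs_sub _ _).trans ?_
      linarith
    have h6 : |((D2 - ((a1 : ℝ) * y / N + y / N)) - (D1 - (a1 : ℝ) * y / N)) * kap b L a1| ≤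
        2 * c2 := by
      rw [abs_mul, abs_of_nonneg hkp]
      refine mul_le_mul ?_ hκL.2 hkp (by norm_num)
      refine (abs_sub _ _).trans ?_
      linarith
    linarith
  refine hfin1.trans ?_
  -- final inequality
  have hLA : (L : ℝ) ^ (-(A + 1)) = (L : ℝ) ^ (-A) / L := by
    rw [show -(A + 1) = -A - 1 by ring, Real.rpow_sub hL0, Real.rpow_one]
  have hE2 : 2 * E ≤ (b : ℝ) ^ L * (L : ℝ) ^ (-A) / 2 := by
    rw [hE, Real.div_rpow hL0.le (by norm_num), Real.rpow_neg (by norm_num : (0 : ℝ) ≤ 3), hLA]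
    have e9 : 2 * ((b : ℝ) ^ L * ((L : ℝ) ^ (-A) / L / ((3 : ℝ) ^ (A + 1))⁻¹)) =
        (b : ℝ) ^ L * (L : ℝ) ^ (-A) * (2 * 3 ^ (A + 1) / L) := by
      field_simp
    rw [e9, div_eq_mul_inv ((b : ℝ) ^ L * (L : ℝ) ^ (-A))]
    refine mul_le_mul_of_nonneg_left ?_ hrhs0
    rw [div_le_iff₀ hL0]
    linarith [hLbig.2]
  have hc22 : 2 * c2 ≤ (b : ℝ) ^ L * (L : ℝ) ^ (-A) / 2 := by
    have h5 := hL2 L (by omega)
    have h6 : (2 : ℝ) ^ L ≤ (b : ℝ) ^ L := pow_le_pow_left₀ (by norm_num) hb0 L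
    have h7 : 4 * c2 * (L : ℝ) ^ A ≤ (b : ℝ) ^ L := h5.trans h6
    have h8 : 0 < (L : ℝ) ^ A := by positivity
    rw [Real.rpow_neg hL0.le]
    have h9 : 4 * c2 ≤ (b : ℝ) ^ L * ((L : ℝ) ^ A)⁻¹ := by
      rw [← div_eq_mul_inv, le_div_iff₀ h8]
      exact h7
    linarith
  linarith

end Pool.Agent.H10.RP
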