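import Pool.Agent.H10.RP.Block

/-!
# Reversed primes: the theorem (job RP-24b)

PROOF of `almost_all`. For `X ≥ X0²` cut `(√X, X]` into the blocks `(X / 2 ^ (i + 1), X / 2 ^ i]` (natural division
is fine: `X' = X / 2 ^ i`, blocks `(X' / 2, X']`), use `block` with `A` (and `log X' ≥ (log X) / 2`), and count all
`M ≤ √X + 1`. Small `X`: choose `C` large. (`A < 0`: reduce to `A = 0`; `M = 1`: `log 1 = 0`, `1 / 0 = 0`.)
-/

set_option autoImplicit false

open Finset

namespace Pool.Agent.H10.RP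

/-- the exceptional set -/
def finalBad (b : ℕ) (c : ℝ) (X : ℕ) : Set ℕ :=
  {M : ℕ | M ≤ X ∧ ((Odd b ∨ b = 2) → Even M) ∧ (repCount b M : ℝ) < c * M / (Real.log M) ^ 2}

theorem final_finite (b : ℕ) (c : ℝ) (X : ℕ) : (finalBad b c X).Finite :=
  (Set.finite_Iic X).subset fun _ h => h.1

theorem final_trivial (b : ℕ) (c : ℝ) (X : ℕ) : (finalBad b c X).ncard ≤ X + 1 := by
  have h1 := Set.ncard_le_ncard (t := Set.Iic X) (s := finalBad b c X) (fun _ h => h.1)
    (Set.finite_Iic X)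
  refine h1.trans (le_of_eq ?_)
  rw [Set.ncard_eq_toFinset_card']
  simp

theorem final_step (b : ℕ) (c : ℝ) (X : ℕ) : (finalBad b c X).ncard ≤
    (finalBad b c (X / 2)).ncard + Nat.card {M : ℕ // X / 2 < M ∧ M ≤ X ∧
      ((Odd b ∨ b = 2) → Even M) ∧ (repCount b M : ℝ) < c * M / (Real.log M) ^ 2} := by
  have h1 : Nat.card {M : ℕ // X / 2 < M ∧ M ≤ X ∧
      ((Odd b ∨ b = 2) → Even M) ∧ (repCount b M : ℝ) < c * M / (Real.log M) ^ 2} =
      ({M : ℕ | X / 2 < M ∧ M ≤ X ∧ ((Odd b ∨ b = 2) → Even M) ∧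
        (repCount b M : ℝ) < c * M / (Real.log M) ^ 2} : Set ℕ).ncard := rfl
  rw [h1]
  refine le_trans (Set.ncard_le_ncard ?_ ?_) (Set.ncard_union_le _ _)
  · intro M hM
    rcases le_or_gt M (X / 2) with h2 | h2
    · exact Or.inl ⟨h2, hM.2⟩
    · exact Or.inr ⟨h2, hM⟩
  · refine (final_finite b c (X / 2)).union ?_
    exact (Set.finite_Iic X).subset fun _ h => h.2.1

theorem final_pos (b : ℕ) (c : ℝ) (hblock : ∀ A : ℝ, ∃ X0 : ℕ, ∀ X : ℕ, X0 ≤ X →
    (Nat.card {M : ℕ // X / 2 < M ∧ M ≤ X ∧ ((Odd b ∨ b = 2) → Even M) ∧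
      (repCount b M : ℝ) < c * M / (Real.log M) ^ 2} : ℝ) ≤ X * (Real.log X) ^ (-A))
    {A : ℝ} (hA : 0 ≤ A) : ∃ C : ℝ, 0 ≤ C ∧ ∀ X : ℕ, 2 ≤ X →
      ((finalBad b c X).ncard : ℝ) ≤ C * X * (Real.log X) ^ (-A) := by
  obtain ⟨X0, hX0⟩ := hblock A
  set θ : ℝ := (2 / 3 : ℝ) ^ (1 / (A + 1)) with hθ
  have hA1 : 0 < A + 1 := by linarith
  have hθ0 : 0 < θ := Real.rpow_pos_of_pos (by norm_num) _
  have hθ1 : θ < 1 := Real.rpow_lt_one (by norm_num) (by norm_num) (by positivity)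
  have hθA : θ ^ (-A) ≤ 3 / 2 := by
    rw [hθ, ← Real.rpow_mul (by norm_num)]
    have h1 : (1 / (A + 1)) * -A = -(A / (A + 1)) := by ring
    rw [h1, Real.rpow_neg (by norm_num), ← Real.inv_rpow (by norm_num)]
    have h2 : ((2 / 3 : ℝ))⁻¹ = 3 / 2 := by norm_num
    rw [h2]
    have h3 : A / (A + 1) ≤ 1 := by
      rw [div_le_one hA1]
      linarith
    calc (3 / 2 : ℝ) ^ (A / (A + 1)) ≤ (3 / 2 : ℝ) ^ (1 : ℝ) :=
          Real.rpow_le_rpow_of_exponent_le (by norm_num) h3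
      _ = 3 / 2 := Real.rpow_one _
  obtain ⟨n1, hn1⟩ := exists_nat_ge (Real.exp (Real.log 4 / (1 - θ)))
  set X1 : ℕ := max (max X0 n1) 8 with hX1
  have hX1log : 0 < Real.log X1 := by
    refine Real.log_pos ?_
    have : (8 : ℕ) ≤ X1 := le_max_right _ _
    have h2 : ((8 : ℕ) : ℝ) ≤ X1 := by exact_mod_cast this
    push_cast at h2
    linarith
  set C : ℝ := max 4 (((X1 : ℝ) + 1) * (Real.log X1) ^ A) with hC
  have hC4 : 4 ≤ C := le_max_left _ _
  refine ⟨C, by linarith, ?_⟩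
  intro X
  induction X using Nat.strong_induction_on with
  | _ X ih =>
  intro hX2
  have hX2' : (2 : ℝ) ≤ X := by exact_mod_cast hX2
  have hlogX : 0 < Real.log X := Real.log_pos (by linarith)
  rcases lt_or_ge X X1 with hlt | hge
  · -- small X
    have h1 : ((finalBad b c X).ncard : ℝ) ≤ X1 + 1 := by
      have h2 := final_trivial b c X
      have h3 : (finalBad b c X).ncard ≤ X1 + 1 := h2.trans (by omega)
      exact_mod_cast h3
    have h4 : (X1 : ℝ) + 1 ≤ C * (Real.log X) ^ (-A) := by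
      have h5 : ((X1 : ℝ) + 1) * (Real.log X1) ^ A ≤ C := le_max_right _ _
      have h6 : (Real.log X1) ^ (-A) ≤ (Real.log X) ^ (-A) := by
        refine Real.rpow_le_rpow_of_nonpos hlogX ?_ (by linarith)
        exact Real.log_le_log (by linarith) (by exact_mod_cast hlt.le)
      have h7 : (Real.log X1) ^ A * (Real.log X1) ^ (-A) = 1 := by
        rw [← Real.rpow_add hX1log, add_neg_cancel, Real.rpow_zero]
      calc (X1 : ℝ) + 1 = ((X1 : ℝ) + 1) * (Real.log X1) ^ A * (Real.log X1) ^ (-A) := by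
            rw [mul_assoc, h7, mul_one]
        _ ≤ C * (Real.log X1) ^ (-A) :=
            mul_le_mul_of_nonneg_right h5 (Real.rpow_nonneg hX1log.le _)
        _ ≤ C * (Real.log X) ^ (-A) := mul_le_mul_of_nonneg_left h6 (by linarith)
    calc ((finalBad b c X).ncard : ℝ) ≤ X1 + 1 := h1
      _ ≤ C * (Real.log X) ^ (-A) := h4
      _ ≤ C * (Real.log X) ^ (-A) * X := by
          refine le_mul_of_one_le_right ?_ (by linarith)
          exact mul_nonneg (by linarith) (Real.rpow_nonneg hlogX.le _)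
      _ = C * X * (Real.log X) ^ (-A) := by ring
  · -- large X
    have hX0X : X0 ≤ X := ((le_max_left X0 n1).trans (le_max_left _ 8)).trans hge
    have hn1X : n1 ≤ X := ((le_max_right X0 n1).trans (le_max_left _ 8)).trans hge
    have h8X : 8 ≤ X := (le_max_right _ 8).trans hge
    have h8X' : (8 : ℝ) ≤ X := by exact_mod_cast h8X
    have hblk := hX0 X hX0X
    have hhalf := ih (X / 2) (by omega) (by omega)
    have hstep : ((finalBad b c X).ncard : ℝ) ≤ ((finalBad b c (X / 2)).ncard : ℝ) +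
        (Nat.card {M : ℕ // X / 2 < M ∧ M ≤ X ∧ ((Odd b ∨ b = 2) → Even M) ∧
          (repCount b M : ℝ) < c * M / (Real.log M) ^ 2} : ℝ) := by
      exact_mod_cast final_step b c X
    have hq : (X : ℝ) / 4 ≤ ((X / 2 : ℕ) : ℝ) := by
      have h1 : X ≤ 4 * (X / 2) := by omega
      have h2 : (X : ℝ) ≤ 4 * ((X / 2 : ℕ) : ℝ) := by exact_mod_cast h1
      linarith
    have hq2 : ((X / 2 : ℕ) : ℝ) ≤ (X : ℝ) / 2 := Nat.cast_div_le
    have hlog : θ * Real.log X ≤ Real.log ((X / 2 : ℕ) : ℝ) := by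
      have h1 : Real.log ((X : ℝ) / 4) ≤ Real.log ((X / 2 : ℕ) : ℝ) :=
        Real.log_le_log (by linarith) hq
      have h2 : Real.log ((X : ℝ) / 4) = Real.log X - Real.log 4 :=
        Real.log_div (by linarith) (by norm_num)
      have h3 : Real.log 4 / (1 - θ) ≤ Real.log X := by
        have h4 : Real.exp (Real.log 4 / (1 - θ)) ≤ X := hn1.trans (by exact_mod_cast hn1X)
        rw [← Real.log_exp (Real.log 4 / (1 - θ))]
        exact Real.log_le_log (Real.exp_pos _) h4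
      have h5 : Real.log 4 ≤ Real.log X * (1 - θ) := (div_le_iff₀ (by linarith)).1 h3
      linarith
    have hpow : (Real.log ((X / 2 : ℕ) : ℝ)) ^ (-A) ≤ 3 / 2 * (Real.log X) ^ (-A) := by
      calc (Real.log ((X / 2 : ℕ) : ℝ)) ^ (-A) ≤ (θ * Real.log X) ^ (-A) :=
            Real.rpow_le_rpow_of_nonpos (mul_pos hθ0 hlogX) hlog (by linarith)
        _ = θ ^ (-A) * (Real.log X) ^ (-A) := Real.mul_rpow hθ0.le hlogX.le
        _ ≤ 3 / 2 * (Real.log X) ^ (-A) :=
            mul_le_mul_of_nonneg_right hθA (Real.rpow_nonneg hlogX.le _)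
    have hL : 0 ≤ (Real.log X) ^ (-A) := Real.rpow_nonneg hlogX.le _
    have h6 : ((finalBad b c (X / 2)).ncard : ℝ) ≤
        C * (X / 2) * (3 / 2 * (Real.log X) ^ (-A)) := by
      refine hhalf.trans ?_
      refine mul_le_mul ?_ hpow ?_ ?_
      · exact mul_le_mul_of_nonneg_left hq2 (by linarith)
      · refine Real.rpow_nonneg (Real.log_nonneg ?_) _
        have h7 : (1 : ℕ) ≤ X / 2 := by omega
        exact_mod_cast h7
      · exact mul_nonneg (by linarith) (by linarith)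
    have h8 : (X : ℝ) * (Real.log X) ^ (-A) ≤ C / 4 * (X * (Real.log X) ^ (-A)) :=
      le_mul_of_one_le_left (mul_nonneg (by linarith) hL) (by linarith)
    calc ((finalBad b c X).ncard : ℝ) ≤ _ := hstep
      _ ≤ C * (X / 2) * (3 / 2 * (Real.log X) ^ (-A)) + X * (Real.log X) ^ (-A) :=
          add_le_add h6 hblk
      _ ≤ C * (X / 2) * (3 / 2 * (Real.log X) ^ (-A)) + C / 4 * (X * (Real.log X) ^ (-A)) := by
          linarith
      _ = C * X * (Real.log X) ^ (-A) := by ring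

theorem almost_all (b : ℕ) (hb : 2 ≤ b) : ∃ c : ℝ, 0 < c ∧ ∀ A : ℝ, ∃ C : ℝ, ∀ X : ℕ, 2 ≤ X →
    (Nat.card {M : ℕ // M ≤ X ∧ ((Odd b ∨ b = 2) → Even M) ∧
      (repCount b M : ℝ) < c * M / (Real.log M) ^ 2} : ℝ) ≤ C * X * (Real.log X) ^ (-A) := by
  obtain ⟨c, hc, hblock⟩ := block b hb
  refine ⟨c, hc, fun A => ?_⟩
  rcases le_total 0 A with hA | hA
  · obtain ⟨C, -, hC⟩ := final_pos b c hblock hA
    exact ⟨C, hC⟩
  · obtain ⟨C, hC0, hC⟩ := final_pos b c hblock (le_refl (0 : ℝ))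
    have hl2 : 0 < Real.log 2 := Real.log_pos (by norm_num)
    refine ⟨C * (Real.log 2) ^ A, fun X hX => ?_⟩
    refine (hC X hX).trans ?_
    rw [neg_zero, Real.rpow_zero, mul_one]
    have hX2' : (2 : ℝ) ≤ X := by exact_mod_cast hX
    have h1 : (Real.log 2) ^ (-A) ≤ (Real.log X) ^ (-A) :=
      Real.rpow_le_rpow hl2.le (Real.log_le_log (by norm_num) hX2') (by linarith)
    have h2 : (Real.log 2) ^ A * (Real.log 2) ^ (-A) = 1 := by
      rw [← Real.rpow_add hl2, add_neg_cancel, Real.rpow_zero]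
    calc C * (X : ℝ) = C * X * ((Real.log 2) ^ A * (Real.log 2) ^ (-A)) := by rw [h2, mul_one]
      _ ≤ C * X * ((Real.log 2) ^ A * (Real.log X) ^ (-A)) := by
          refine mul_le_mul_of_nonneg_left ?_ (mul_nonneg hC0 (by linarith))
          exact mul_le_mul_of_nonneg_left h1 (Real.rpow_nonneg hl2.le _)
      _ = C * (Real.log 2) ^ A * X * (Real.log X) ^ (-A) := by ring

end Pool.Agent.H10.RP
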