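import Pool.Agent.H10.RP.FT

/-!
# Reversed primes: sums over residue classes (job RP-2)

PROOF of `mink`. Write `a(e) = sup` of the left side of `Str` (`≤ q / e` always, by Cauchy
(`q / e` terms in each class) and `Ps_parseval`; `≤ κ q / e` for good `e`).

Step (*): let `g ∣ q ^ (δ + 1)`, `g' = gcd (g, q ^ δ)`, `e = g / g'`. Then `e ∣ q`, `g' ∣ q ^ δ` and
`AA (δ + 1) g ≤ a(e) * AA δ g'` (here `AA _ g` means `AA q φ lam _ g`), where `a(e)` is any bound
for `∑ τ < e, (∑ t < q, t ≡ τ mod e, Ps q φ i (y + t / q)) ^ 2` for all `i y`.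
Proof of (*): every `h < q ^ (δ + 1)` is `h' + q ^ δ t`, `h' < q ^ δ`, `t < q`, and
`PP (δ + 1) h = PP δ h' * Ps _ _ (h' / q ^ (δ + 1) + t / q)` (`PP_succ`, `PP_mod`). Let `c < g`,
`c' = c % g'`. If `h ≡ c mod g` then `h' ≡ c' mod g'`. For `h' ≡ c' mod g'` the condition
`h' + q ^ δ t ≡ c mod g` reads `(q ^ δ / g') t ≡ (c - h') / g' mod e`, and `q ^ δ / g'` is a unit
mod `e = g / g'`, so it says `t ≡ τ(c, h') mod e` for one residue `τ(c, h')`, and for fixed `h'`
the map `c ↦ τ(c, h')` is a bijection from `{c < g : c ≡ c' mod g'}` to the residues mod `e`. So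
`∑ h ≡ c, PP (δ + 1) h = ∑ h' ≡ c', PP δ h' * G h' (τ(c, h'))` with
`G h' τ = ∑ t ≡ τ mod e, Ps _ _ (h' / q ^ (δ + 1) + t / q)`. Minkowski's inequality in `ℓ²` of the
`c` over a given `c'`: `(∑ c, (∑ h', x h' c) ^ 2) ^ (1/2) ≤ ∑ h', (∑ c, (x h' c) ^ 2) ^ (1/2)
≤ √a(e) ∑ h', PP δ h'`. (Instead of Minkowski one may expand the square and use Cauchy's
inequality for each pair `h'_1, h'_2`: `∑ c, G h'_1 (τ c) G h'_2 (τ c) ≤ a(e)`.)

Induction on `δ` with `B δ g = g / q ^ δ * AA δ g`: `B (δ + 1) g ≤ (e / q) a(e) B δ g'`.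
`B 0 1 = 1`. All exponents are natural subtractions.
* `e = q`: then `q ^ (δ + 1) ∣ g` (compare valuations: `v_p (gcd (g, q ^ (δ + 1))) -
  v_p (gcd (g, q ^ δ)) = v_p q` forces `v_p g ≥ (δ + 1) v_p q`; or: `q g' = g` and
  `gcd (g, q ^ δ) = g'` give `gcd (q, q ^ δ / g') = 1`, and `q ^ δ / g' ∣ q ^ δ`, so
  `q ^ δ / g' = 1`). So `δ0 + 1 > δ + 1` and the exponent is `0`; `B (δ + 1) g ≤ B δ g' ≤ 1` by
  Parseval.
* `e ≠ q` good: `B (δ + 1) g ≤ κ B δ g' ≤ κ * κ ^ (δ - δ0 - 1) ≤ κ ^ (δ + 1 - δ0 - 1)`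
  (`¬ q ^ (δ0 + 1) ∣ g'` because `g' ∣ g`).
* `q = 4`, `e = 2`: then `g' = 4 ^ δ ∣ g` (powers of `2`), so `δ0 + 1 > δ` and the exponent
  `δ + 1 - δ0 - 1` is `0`; `B (δ + 1) g ≤ 1 * B δ g' ≤ 1`.
-/

set_option autoImplicit false

open Finset

namespace Pool.Agent.H10.RP

variable {q : ℕ} (φ : ℕ → ℕ → ℂ)

theorem AA_nonneg (lam δ g : ℕ) : 0 ≤ AA q φ lam δ g := by
  unfold AA
  exact Finset.sum_nonneg (fun c _ => sq_nonneg _)

/-- expansion of a sum of squares over the fibres of a map -/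
theorem mink_dbl (T : Finset ℕ) (g : ℕ) (F : ℕ → ℕ) (hF : ∀ t ∈ T, F t < g) (p : ℕ → ℝ) :
    ∑ c ∈ range g, (∑ t ∈ T.filter (fun t => F t = c), p t) ^ 2 =
      ∑ t ∈ T, ∑ s ∈ T.filter (fun s => F s = F t), p t * p s := by
  rw [← Finset.sum_fiberwise_of_maps_to (s := T) (t := range g) (g := F)
    (fun t ht => Finset.mem_range.2 (hF t ht))]
  refine Finset.sum_congr rfl (fun c _ => ?_)
  rw [sq, Finset.sum_mul_sum]
  refine Finset.sum_congr rfl (fun t ht => ?_)
  rw [Finset.mem_filter] at ht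
  rw [ht.2]

theorem mink_AA (lam δ g : ℕ) (hg : 0 < g) : AA q φ lam δ g =
    ∑ h ∈ range (q ^ δ), ∑ h2 ∈ (range (q ^ δ)).filter (fun h2 => h2 % g = h % g),
      PP q φ lam δ h * PP q φ lam δ h2 := by
  unfold AA
  exact mink_dbl (range (q ^ δ)) g (fun h => h % g) (fun h _ => Nat.mod_lt h hg) _

theorem mink_range (m n : ℕ) (f : ℕ → ℝ) :
    ∑ h ∈ range (m * n), f h = ∑ h ∈ range m, ∑ t ∈ range n, f (h + m * t) := by
  rw [Finset.sum_comm]
  induction n with
  | zero => simp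
  | succ n ih =>
    rw [Finset.sum_range_succ, ← ih, Nat.mul_succ, Finset.sum_range_add]
    congr 1
    exact Finset.sum_congr rfl (fun h _ => by rw [add_comm])

/-- the inner sum -/
noncomputable def minkY (q : ℕ) (φ : ℕ → ℕ → ℂ) (lam δ g h c : ℕ) : ℝ :=
  ∑ t ∈ (range q).filter (fun t => (h + q ^ δ * t) % g = c),
    Ps q φ (lam - 1 - δ) ((h : ℝ) / (q : ℝ) ^ (δ + 1) + t / q)

theorem minkY_nonneg (lam δ g h c : ℕ) : 0 ≤ minkY q φ lam δ g h c :=
  Finset.sum_nonneg (fun _ _ => Ps_nonneg φ _ _)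

theorem mink_X (hq : 2 ≤ q) (lam δ g c : ℕ) :
    ∑ h ∈ (range (q ^ (δ + 1))).filter (fun h => h % g = c), PP q φ lam (δ + 1) h =
      ∑ h ∈ range (q ^ δ), PP q φ lam δ h * minkY q φ lam δ g h c := by
  have hq0 : (q : ℝ) ≠ 0 := by
    have : q ≠ 0 := by omega
    exact_mod_cast this
  rw [Finset.sum_filter, pow_succ, mink_range]
  refine Finset.sum_congr rfl (fun h hh => ?_)
  rw [Finset.mem_range] at hh
  unfold minkY
  rw [Finset.mul_sum, Finset.sum_filter]
  refine Finset.sum_congr rfl (fun t _ => ?_)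
  split_ifs
  · rw [PP_succ]
    congr 1
    · rw [← PP_mod φ hq lam δ (h + q ^ δ * t), Nat.add_mul_mod_self_left, Nat.mod_eq_of_lt hh]
    · congr 1
      push_cast
      rw [pow_succ]
      field_simp
  · rfl

theorem mink_modeq {g' e m h t s : ℕ} (hg' : 0 < g') (hem : Nat.Coprime e m) :
    (h + g' * m * t) % (g' * e) = (h + g' * m * s) % (g' * e) ↔ t % e = s % e := by
  have h1 : h + g' * m * t ≡ h + g' * m * s [MOD g' * e] ↔ t ≡ s [MOD e] := by
    rw [mul_assoc, mul_assoc]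
    constructor
    · intro h2
      have h3 := Nat.ModEq.add_left_cancel' h h2
      rw [Nat.ModEq.mul_left_cancel_iff' (by omega)] at h3
      exact Nat.ModEq.cancel_left_of_coprime hem h3
    · intro h2
      refine Nat.ModEq.add_left h ?_
      rw [Nat.ModEq.mul_left_cancel_iff' (by omega)]
      exact h2.mul_left m
  exact h1

theorem minkY_sq {lam δ g g' e m : ℕ} (hg' : 0 < g') (he : 0 < e) (hge : g = g' * e)
    (hm : q ^ δ = g' * m) (hem : Nat.Coprime e m) {a : ℝ}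
    (ha : ∀ (i : ℕ) (y : ℝ), ∑ τ ∈ range e,
      (∑ t ∈ (range q).filter (fun t => t % e = τ), Ps q φ i (y + t / q)) ^ 2 ≤ a) (h : ℕ) :
    ∑ c ∈ range g, minkY q φ lam δ g h c ^ 2 ≤ a := by
  unfold minkY
  have hg : 0 < g := by rw [hge]; positivity
  rw [mink_dbl (range q) g (fun t => (h + q ^ δ * t) % g) (fun t _ => Nat.mod_lt _ hg)]
  refine le_trans (le_of_eq ?_) (ha (lam - 1 - δ) ((h : ℝ) / (q : ℝ) ^ (δ + 1)))
  rw [mink_dbl (range q) e (fun t => t % e) (fun t _ => Nat.mod_lt _ he)]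
  refine Finset.sum_congr rfl (fun t _ => ?_)
  refine Finset.sum_congr (Finset.filter_congr (fun s _ => ?_)) (fun _ _ => rfl)
  rw [hge, hm]
  exact mink_modeq hg' hem

theorem minkY_zero {lam δ g g' m h c : ℕ} (hgg : g' ∣ g) (hm : q ^ δ = g' * m)
    (hne : minkY q φ lam δ g h c ≠ 0) : h % g' = c % g' := by
  unfold minkY at hne
  obtain ⟨t, ht, _⟩ := Finset.exists_ne_zero_of_sum_ne_zero hne
  rw [Finset.mem_filter] at ht
  rw [← ht.2, Nat.mod_mod_of_dvd _ hgg, hm, mul_assoc, Nat.add_mul_mod_self_left]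

theorem mink_step (hq : 2 ≤ q) {lam δ g g' e m : ℕ} (hg' : 0 < g') (he : 0 < e)
    (hge : g = g' * e) (hm : q ^ δ = g' * m) (hem : Nat.Coprime e m) {a : ℝ}
    (ha : ∀ (i : ℕ) (y : ℝ), ∑ τ ∈ range e,
      (∑ t ∈ (range q).filter (fun t => t % e = τ), Ps q φ i (y + t / q)) ^ 2 ≤ a) :
    AA q φ lam (δ + 1) g ≤ a * AA q φ lam δ g' := by
  have e1 : AA q φ lam (δ + 1) g = ∑ c ∈ range g,
      (∑ h ∈ range (q ^ δ), PP q φ lam δ h * minkY q φ lam δ g h c) ^ 2 := by
    unfold AA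
    exact Finset.sum_congr rfl (fun c _ => by rw [mink_X φ hq])
  have e2 : AA q φ lam (δ + 1) g = ∑ h ∈ range (q ^ δ), ∑ h2 ∈ range (q ^ δ),
      PP q φ lam δ h * PP q φ lam δ h2 *
        ∑ c ∈ range g, minkY q φ lam δ g h c * minkY q φ lam δ g h2 c := by
    rw [e1]
    simp only [sq, Finset.sum_mul_sum]
    rw [Finset.sum_comm]
    refine Finset.sum_congr rfl (fun h _ => ?_)
    rw [Finset.sum_comm]
    refine Finset.sum_congr rfl (fun h2 _ => ?_)
    rw [Finset.mul_sum]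
    exact Finset.sum_congr rfl (fun c _ => by ring)
  rw [e2, mink_AA φ lam δ g' hg', Finset.mul_sum]
  refine Finset.sum_le_sum (fun h _ => ?_)
  rw [Finset.mul_sum, Finset.sum_filter]
  refine Finset.sum_le_sum (fun h2 _ => ?_)
  have hPP : 0 ≤ PP q φ lam δ h * PP q φ lam δ h2 :=
    mul_nonneg (PP_nonneg φ lam δ h) (PP_nonneg φ lam δ h2)
  split_ifs with hh
  · have h1 : ∑ c ∈ range g, minkY q φ lam δ g h c * minkY q φ lam δ g h2 c ≤ a := by
      have h3 := minkY_sq φ (lam := lam) hg' he hge hm hem ha h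
      have h4 := minkY_sq φ (lam := lam) hg' he hge hm hem ha h2
      have h5 : ∑ c ∈ range g, minkY q φ lam δ g h c * minkY q φ lam δ g h2 c ≤
          ∑ c ∈ range g, (minkY q φ lam δ g h c ^ 2 + minkY q φ lam δ g h2 c ^ 2) / 2 :=
        Finset.sum_le_sum (fun c _ => by
          nlinarith [sq_nonneg (minkY q φ lam δ g h c - minkY q φ lam δ g h2 c)])
      rw [← Finset.sum_div, Finset.sum_add_distrib] at h5
      linarith
    have h2' := mul_le_mul_of_nonneg_left h1 hPP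
    linarith
  · refine le_of_eq ?_
    rw [Finset.sum_eq_zero, mul_zero]
    intro c _
    by_contra hne
    have hn1 : minkY q φ lam δ g h c ≠ 0 := fun h0 => hne (by rw [h0, zero_mul])
    have hn2 : minkY q φ lam δ g h2 c ≠ 0 := fun h0 => hne (by rw [h0, mul_zero])
    have hgg : g' ∣ g := ⟨e, hge⟩
    exact hh ((minkY_zero φ hgg hm hn2).trans (minkY_zero φ hgg hm hn1).symm)

theorem mink_card {e : ℕ} (he : 0 < e) (heq : e ∣ q) (τ : ℕ) :
    ((range q).filter (fun t => t % e = τ)).card ≤ q / e := by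
  obtain ⟨m, rfl⟩ := heq
  rw [Nat.mul_div_cancel_left m he]
  have h1 : ((range (e * m)).filter (fun t => t % e = τ)).card ≤ (range m).card := by
    refine Finset.card_le_card_of_injOn (fun t => t / e) ?_ ?_
    · intro t ht
      simp only [Finset.coe_filter, Finset.mem_range, Set.mem_ofPred_eq] at ht
      simp only [Finset.coe_range, Set.mem_Iio]
      exact Nat.div_lt_of_lt_mul ht.1
    · intro t ht s hs hts
      simp only [Finset.coe_filter, Finset.mem_range, Set.mem_ofPred_eq] at ht hs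
      have h2 : t / e = s / e := hts
      rw [← Nat.div_add_mod t e, ← Nat.div_add_mod s e, h2, ht.2, hs.2]
  simpa using h1

/-- the trivial bound -/
theorem mink_triv (hq : 2 ≤ q) (hφ : Uni φ) {e : ℕ} (he : 0 < e) (heq : e ∣ q) (i : ℕ) (y : ℝ) :
    ∑ τ ∈ range e, (∑ t ∈ (range q).filter (fun t => t % e = τ), Ps q φ i (y + t / q)) ^ 2 ≤
      (q : ℝ) / e := by
  have h1 : ∀ τ ∈ range e, (∑ t ∈ (range q).filter (fun t => t % e = τ),
      Ps q φ i (y + t / q)) ^ 2 ≤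
      (q : ℝ) / e * ∑ t ∈ (range q).filter (fun t => t % e = τ), Ps q φ i (y + t / q) ^ 2 := by
    intro τ _
    refine (sq_sum_le_card_mul_sum_sq).trans ?_
    refine mul_le_mul_of_nonneg_right ?_ (Finset.sum_nonneg (fun _ _ => sq_nonneg _))
    have h2 : (((range q).filter (fun t => t % e = τ)).card : ℝ) ≤ ((q / e : ℕ) : ℝ) := by
      exact_mod_cast mink_card he heq τ
    refine h2.trans ?_
    exact Nat.cast_div_le
  refine (Finset.sum_le_sum h1).trans ?_
  rw [← Finset.mul_sum, Finset.sum_fiberwise_of_maps_to (s := range q) (t := range e)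
    (g := fun t => t % e) (fun t _ => Finset.mem_range.2 (Nat.mod_lt t he)),
    Ps_parseval φ hq hφ, mul_one]

theorem mink_split {δ g : ℕ} (hq : 0 < q) (hg : g ∣ q ^ (δ + 1)) :
    ∃ g' e m : ℕ, 0 < g' ∧ 0 < e ∧ g = g' * e ∧ q ^ δ = g' * m ∧ Nat.Coprime e m ∧ e ∣ q := by
  have hgp : 0 < g := Nat.pos_of_dvd_of_pos hg (by positivity)
  obtain ⟨g', e, m, hg', hcop, h1, h2⟩ := Nat.exists_coprime' (m := g) (n := q ^ δ)
    (Nat.gcd_pos_of_pos_left _ hgp)
  refine ⟨g', e, m, hg', ?_, by rw [h1, mul_comm], by rw [h2, mul_comm], hcop, ?_⟩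
  · rcases Nat.eq_zero_or_pos e with h0 | h0
    · rw [h0, zero_mul] at h1
      omega
    · exact h0
  · rw [pow_succ, h1, h2] at hg
    have h3 : e ∣ m * q := by
      have h4 : g' * e ∣ g' * (m * q) := by
        convert hg using 1 <;> ring
      exact Nat.dvd_of_mul_dvd_mul_left hg' h4
    exact hcop.dvd_of_dvd_mul_left h3

theorem mink (hq : 2 ≤ q) (hφ : Uni φ) (κ : ℝ) (hκ0 : 0 ≤ κ) (hκ1 : κ ≤ 1) (hS : Str q φ κ)
    (lam δ g : ℕ) (hg : g ∣ q ^ δ) (δ0 : ℕ) (h0 : ¬ q ^ (δ0 + 1) ∣ g) :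
    (g : ℝ) / (q : ℝ) ^ δ * AA q φ lam δ g ≤ κ ^ (δ - δ0 - 1) := by
  have hq0 : 0 < q := by omega
  have hqR : (0 : ℝ) < q := by exact_mod_cast hq0
  induction δ generalizing g with
  | zero =>
    rw [pow_zero, Nat.dvd_one] at hg
    subst hg
    have h1 : AA q φ lam 0 1 = 1 := by
      have h2 : (range 1).filter (fun h => h % 1 = 0) = range 1 := by decide
      unfold AA
      rw [pow_zero, Finset.sum_range_one, h2, Finset.sum_range_one]
      simp [PP]
    rw [h1]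
    simp
  | succ δ ih =>
    obtain ⟨g', e, m, hg', he, hge, hm, hem, heq⟩ := mink_split hq0 hg
    have h0' : ¬ q ^ (δ0 + 1) ∣ g' := fun hc => h0 (hc.trans ⟨e, hge⟩)
    have ih' := ih g' ⟨m, hm⟩ h0'
    have heR : (0 : ℝ) < e := by exact_mod_cast he
    have hAA := AA_nonneg (q := q) φ lam δ g'
    have hfac : ∀ a : ℝ, (g : ℝ) / (q : ℝ) ^ (δ + 1) * (a * AA q φ lam δ g') =
        (e : ℝ) / q * a * ((g' : ℝ) / (q : ℝ) ^ δ * AA q φ lam δ g') := by
      intro a
      rw [hge]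
      push_cast
      rw [pow_succ]
      field_simp
    have hcoef : 0 ≤ (g : ℝ) / (q : ℝ) ^ (δ + 1) := by positivity
    have htriv : (g : ℝ) / (q : ℝ) ^ (δ + 1) * AA q φ lam (δ + 1) g ≤ κ ^ (δ - δ0 - 1) := by
      have h1 := mink_step φ hq (lam := lam) hg' he hge hm hem (mink_triv φ hq hφ he heq)
      have h2 := mul_le_mul_of_nonneg_left h1 hcoef
      rw [hfac] at h2
      have h3 : (e : ℝ) / q * (q / e) = 1 := by field_simp
      rw [h3, one_mul] at h2
      exact h2.trans ih'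
    have hm1 : ∀ (n : ℕ), m ∣ n → Nat.Coprime n m → m = 1 := by
      intro n h1 h2
      have h3 : m ∣ Nat.gcd n m := Nat.dvd_gcd h1 dvd_rfl
      rw [h2.gcd_eq_one] at h3
      exact Nat.dvd_one.1 h3
    have hzero : δ + 1 - δ0 - 1 = 0 →
        (g : ℝ) / (q : ℝ) ^ (δ + 1) * AA q φ lam (δ + 1) g ≤ κ ^ (δ + 1 - δ0 - 1) := by
      intro hz
      rw [hz, pow_zero]
      exact htriv.trans (pow_le_one₀ hκ0 hκ1)
    by_cases heq2 : e = q
    · subst heq2
      have h1 : m = 1 := hm1 (e ^ δ) ⟨g', by rw [hm, mul_comm]⟩ (hem.pow_left δ)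
      rw [h1, mul_one] at hm
      have h2 : g = e ^ (δ + 1) := by rw [hge, ← hm, pow_succ]
      apply hzero
      by_contra hc
      exact h0 (h2 ▸ pow_dvd_pow e (by omega))
    · rcases hS e heq heq2 with ⟨hq4, he2⟩ | hgood
      · have h1 : m = 1 := by
          refine hm1 (q ^ δ) ⟨g', by rw [hm, mul_comm]⟩ ?_
          rw [hq4, show (4 : ℕ) = 2 ^ 2 by norm_num]
          rw [he2] at hem
          exact (hem.pow_left 2).pow_left δ
        rw [h1, mul_one] at hm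
        apply hzero
        by_contra hc
        refine h0 ((pow_dvd_pow q (show δ0 + 1 ≤ δ by omega)).trans ?_)
        rw [hm, hge]
        exact Dvd.intro e rfl
      · have h1 := mink_step φ hq (lam := lam) hg' he hge hm hem hgood
        have h2 := mul_le_mul_of_nonneg_left h1 hcoef
        rw [hfac] at h2
        have h3 : (e : ℝ) / q * (κ * (q / e)) = κ := by field_simp
        rw [h3] at h2
        refine h2.trans ?_
        refine (mul_le_mul_of_nonneg_left ih' hκ0).trans ?_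
        rw [← pow_succ']
        exact pow_le_pow_of_le_one hκ0 hκ1 (by omega)

end Pool.Agent.H10.RP
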