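import Pool.Agent.H10.RP.Equi

/-!
# Reversed primes: elementary properties of the reversal (job RP-21a)

`revL_modEq`: mod `b² - 1` one has `b ^ (L - 1 - i) ≡ b ^ (L - 1) b ^ i` (as `b² ≡ 1`), and `n = ∑ dg b i n b ^ i`.
`revL_mod_b`: only `i = L - 1` contributes mod `b`, and `dg b (L - 1) n = n / b ^ (L - 1)` for `n < b ^ L`.
`revL_low`: `revL b L n = (∑_{i < K} dg b i n b ^ (L - 1 - i)) + (∑_{K ≤ i < L} ...)`, the first sum depends only on
`n % b ^ K` and the second is `< b ^ (L - K)`. `revL_revL`, `revL_lt`: clear. `revL_digits`: for an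
integer `n` with exactly `L` digits `revL b L n` is the number with the reversed list of digits.
`beta`: split `SS` into the classes mod `b ^ K`; on each class `|ee (β revL n) - ee (β R)| ≤ 2π|β| b ^ (L - K)`
(`norm_ee_sub_le`).
-/

set_option autoImplicit false

open Finset

namespace Pool.Agent.H10.RP

theorem rev_dg_succ (b i n : ℕ) : dg b (i + 1) n = dg b i (n / b) := by
  unfold dg
  rw [pow_succ', Nat.div_div_eq_div_mul]

theorem rev_dg_add (b K i n : ℕ) : dg b (K + i) n = dg b i (n / b ^ K) := by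
  unfold dg
  rw [pow_add, Nat.div_div_eq_div_mul]

theorem rev_dg_mod (b L i n : ℕ) (hi : i < L) : dg b i (n % b ^ L) = dg b i n := by
  unfold dg
  obtain ⟨k, rfl⟩ := Nat.exists_eq_add_of_lt hi
  have e : b ^ (i + k + 1) = b ^ i * b ^ (k + 1) := by rw [← pow_add]; rfl
  rw [e, Nat.mod_mul_right_div_self]
  exact Nat.mod_mod_of_dvd _ (dvd_pow_self b (Nat.succ_ne_zero k))

theorem rev_dg_lt (b : ℕ) (hb : 2 ≤ b) (i n : ℕ) : dg b i n < b := Nat.mod_lt _ (by omega)

theorem rev_sum_dg (b L n : ℕ) : ∑ i ∈ range L, dg b i n * b ^ i = n % b ^ L := by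
  induction L with
  | zero => simp [Nat.mod_one]
  | succ L ih =>
    rw [sum_range_succ, ih, Nat.mod_pow_succ]
    unfold dg
    ring

/-- lowest digit first -/
theorem rev_succ (b L n : ℕ) : revL b (L + 1) n = n % b * b ^ L + revL b L (n / b) := by
  unfold revL
  rw [sum_range_succ']
  have h : ∀ i ∈ range L, dg b (i + 1) n * b ^ (L + 1 - 1 - (i + 1)) =
      dg b i (n / b) * b ^ (L - 1 - i) := by
    intro i _
    rw [rev_dg_succ]
    congr 2
    omega
  rw [sum_congr rfl h]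
  unfold dg
  simp
  ring

/-- highest digit last -/
theorem rev_succ' (b L n : ℕ) : revL b (L + 1) n = b * revL b L n + dg b L n := by
  unfold revL
  rw [sum_range_succ, mul_sum]
  have h : ∀ i ∈ range L, dg b i n * b ^ (L + 1 - 1 - i) =
      b * (dg b i n * b ^ (L - 1 - i)) := by
    intro i hi
    have hi' := mem_range.mp hi
    have e : L + 1 - 1 - i = (L - 1 - i) + 1 := by omega
    rw [e, pow_succ]
    ring
  rw [sum_congr rfl h]
  simp

theorem rev_mod (b L n : ℕ) : revL b L (n % b ^ L) = revL b L n := by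
  unfold revL
  exact sum_congr rfl fun i hi => by rw [rev_dg_mod b L i n (mem_range.mp hi)]

theorem revL_lt (b : ℕ) (hb : 2 ≤ b) (L n : ℕ) : revL b L n < b ^ L := by
  induction L generalizing n with
  | zero => simp [revL]
  | succ L ih =>
    rw [rev_succ, pow_succ]
    have h1 := ih (n / b)
    have h2 : n % b < b := Nat.mod_lt _ (by omega)
    have h3 : n % b * b ^ L + b ^ L ≤ b * b ^ L := by
      have : (n % b + 1) * b ^ L ≤ b * b ^ L := Nat.mul_le_mul_right _ h2
      linarith [this]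
    rw [mul_comm (b ^ L) b]
    omega

theorem rev_div' (b : ℕ) (hb : 2 ≤ b) (L n : ℕ) : revL b (L + 1) n / b ^ L = n % b := by
  rw [rev_succ, mul_comm, Nat.mul_add_div (by positivity), Nat.div_eq_of_lt (revL_lt b hb L _),
    add_zero]

theorem rev_mod' (b : ℕ) (hb : 2 ≤ b) (L n : ℕ) : revL b (L + 1) n % b ^ L = revL b L (n / b) := by
  rw [rev_succ, mul_comm, Nat.mul_add_mod, Nat.mod_eq_of_lt (revL_lt b hb L _)]

theorem revL_revL (b : ℕ) (hb : 2 ≤ b) (L n : ℕ) (hn : n < b ^ L) : revL b L (revL b L n) = n := by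
  induction L generalizing n with
  | zero =>
    simp only [pow_zero] at hn
    have : n = 0 := by omega
    subst this
    simp [revL]
  | succ L ih =>
    rw [rev_succ' b L (revL b (L + 1) n), ← rev_mod b L (revL b (L + 1) n), rev_mod' b hb]
    have h1 : n / b < b ^ L := by
      rw [Nat.div_lt_iff_lt_mul (by omega), ← pow_succ]
      exact hn
    rw [ih (n / b) h1]
    unfold dg
    rw [rev_div' b hb, Nat.mod_mod]
    exact Nat.div_add_mod n b

theorem revL_modEq (b : ℕ) (hb : 2 ≤ b) (L n : ℕ) (hn : n < b ^ L) (hL : 1 ≤ L) :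
    revL b L n ≡ b ^ (L - 1) * n [MOD (b ^ 2 - 1)] := by
  have hb2 : b ^ 2 ≡ 1 [MOD (b ^ 2 - 1)] := by
    have h4 : 1 ≤ b ^ 2 := Nat.one_le_pow _ _ (by omega)
    obtain ⟨m, hm⟩ : ∃ m, b ^ 2 = m + 1 := ⟨b ^ 2 - 1, by omega⟩
    rw [hm, Nat.add_sub_cancel]
    unfold Nat.ModEq
    rw [Nat.add_mod_left]
  have hn' : n = ∑ i ∈ range L, dg b i n * b ^ i := by
    rw [rev_sum_dg, Nat.mod_eq_of_lt hn]
  have h : b ^ (L - 1) * n = ∑ i ∈ range L, dg b i n * (b ^ (L - 1) * b ^ i) := by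
    conv_lhs => rw [hn']
    rw [mul_sum]
    exact sum_congr rfl fun i _ => by ring
  rw [h]
  unfold revL
  refine Nat.ModEq.sum fun i hi => ?_
  have hi' := mem_range.mp hi
  have e : b ^ (L - 1) * b ^ i = b ^ (L - 1 - i) * (b ^ 2) ^ i := by
    rw [← pow_mul, ← pow_add, ← pow_add]
    congr 1
    omega
  rw [e]
  refine Nat.ModEq.mul_left _ ?_
  have h5 : (b ^ 2) ^ i ≡ 1 [MOD (b ^ 2 - 1)] := by
    have := hb2.pow i
    rwa [one_pow] at this
  have h6 := (h5.mul_left (b ^ (L - 1 - i))).symm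
  rwa [mul_one] at h6

theorem revL_mod_b (b : ℕ) (hb : 2 ≤ b) (L n : ℕ) (hn : n < b ^ L) (hL : 1 ≤ L) :
    revL b L n ≡ n / b ^ (L - 1) [MOD b] := by
  obtain ⟨L', rfl⟩ : ∃ L', L = L' + 1 := ⟨L - 1, by omega⟩
  rw [rev_succ', Nat.add_sub_cancel]
  unfold dg Nat.ModEq
  rw [Nat.mul_add_mod, Nat.mod_mod]

/-- the first digit of the reversal is the last digit -/
theorem revL_div (b : ℕ) (hb : 2 ≤ b) (L n : ℕ) (hn : n < b ^ L) (hL : 1 ≤ L) :
    revL b L n / b ^ (L - 1) = n % b := by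
  obtain ⟨L', rfl⟩ : ∃ L', L = L' + 1 := ⟨L - 1, by omega⟩
  rw [Nat.add_sub_cancel, rev_div' b hb]

theorem revL_low (b : ℕ) (hb : 2 ≤ b) (L K : ℕ) (hK : K ≤ L) (r : ℕ) : ∃ R : ℕ, ∀ n : ℕ,
    n % b ^ K = r → R ≤ revL b L n ∧ revL b L n < R + b ^ (L - K) := by
  refine ⟨∑ i ∈ range K, dg b i r * b ^ (L - 1 - i), fun n hn => ?_⟩
  obtain ⟨M, rfl⟩ := Nat.exists_eq_add_of_le hK
  have h1 : revL b (K + M) n = ∑ i ∈ range K, dg b i r * b ^ (K + M - 1 - i) +
      revL b M (n / b ^ K) := by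
    unfold revL
    rw [sum_range_add]
    congr 1
    · refine sum_congr rfl fun i hi => ?_
      rw [← hn, rev_dg_mod b K i n (mem_range.mp hi)]
    · refine sum_congr rfl fun i _ => ?_
      rw [rev_dg_add]
      congr 2
      omega
  have h2 := revL_lt b hb M (n / b ^ K)
  rw [h1, Nat.add_sub_cancel_left]
  exact ⟨Nat.le_add_right _ _, by omega⟩

theorem rev_digits_aux (b : ℕ) (hb : 2 ≤ b) (L n : ℕ) (h : (Nat.digits b n).length = L) :
    revL b L n = Nat.ofDigits b (Nat.digits b n).reverse := by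
  induction L generalizing n with
  | zero =>
    have h0 : Nat.digits b n = [] := List.length_eq_zero_iff.mp h
    rw [h0]
    simp [revL]
  | succ L ih =>
    have hn : n ≠ 0 := by
      rintro rfl
      simp at h
    have h1 : Nat.digits b n = (n % b) :: Nat.digits b (n / b) :=
      Nat.digits_def' (by omega) (Nat.pos_of_ne_zero hn)
    have h2 : (Nat.digits b (n / b)).length = L := by
      rw [h1, List.length_cons] at h
      omega
    rw [h1, List.reverse_cons, Nat.ofDigits_append, List.length_reverse, h2, ← ih _ h2, rev_succ]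
    simp [Nat.ofDigits_singleton]
    ring

theorem revL_digits (b : ℕ) (hb : 2 ≤ b) (L n : ℕ) (h1 : b ^ (L - 1) ≤ n) (h2 : n < b ^ L)
    (hL : 1 ≤ L) : revL b L n = Nat.ofDigits b (Nat.digits b n).reverse := by
  apply rev_digits_aux b hb
  have hn : n ≠ 0 := by
    have : 0 < b ^ (L - 1) := by positivity
    omega
  have h3 : Nat.log b n = L - 1 := by
    rw [Nat.log_eq_iff (Or.inr ⟨by omega, hn⟩)]
    refine ⟨h1, ?_⟩
    rwa [Nat.sub_add_cancel hL]
  rw [Nat.length_digits b n (by omega) hn, h3]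
  omega

theorem beta (b : ℕ) (hb : 2 ≤ b) (L K a1 c : ℕ) (hK : K ≤ L) (γ β : ℝ) (w : ℕ → ℝ) :
    ‖∑ n ∈ SS b L a1 c, (w n : ℂ) * ee ((γ + β) * revL b L n)‖ ≤
      ∑ r ∈ range (b ^ K), ‖∑ n ∈ (SS b L a1 c).filter (fun n => n % b ^ K = r),
        (w n : ℂ) * ee (γ * revL b L n)‖ +
      2 * Real.pi * |β| * (b : ℝ) ^ (L - K) * ∑ n ∈ SS b L a1 c, |w n| := by
  have hbK : 0 < b ^ K := by positivity
  have hmaps : ∀ n ∈ SS b L a1 c, n % b ^ K ∈ range (b ^ K) := fun n _ =>
    mem_range.mpr (Nat.mod_lt _ hbK)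
  rw [← sum_fiberwise_of_maps_to hmaps]
  have hw : ∑ n ∈ SS b L a1 c, |w n| = ∑ r ∈ range (b ^ K),
      ∑ n ∈ (SS b L a1 c).filter (fun n => n % b ^ K = r), |w n| :=
    (sum_fiberwise_of_maps_to hmaps _).symm
  rw [hw, mul_sum, ← sum_add_distrib]
  refine (norm_sum_le _ _).trans (sum_le_sum fun r _ => ?_)
  obtain ⟨R, hR⟩ := revL_low b hb L K hK r
  have h1 : ∑ n ∈ (SS b L a1 c).filter (fun n => n % b ^ K = r),
      (w n : ℂ) * ee ((γ + β) * revL b L n) =
      (∑ n ∈ (SS b L a1 c).filter (fun n => n % b ^ K = r),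
        (w n : ℂ) * ee (γ * revL b L n)) * ee (β * R) +
      ∑ n ∈ (SS b L a1 c).filter (fun n => n % b ^ K = r),
        (w n : ℂ) * ee (γ * revL b L n) * (ee (β * revL b L n) - ee (β * R)) := by
    rw [sum_mul, ← sum_add_distrib]
    refine sum_congr rfl fun n _ => ?_
    rw [add_mul, ee_add]
    ring
  rw [h1]
  refine (norm_add_le _ _).trans (add_le_add ?_ ?_)
  · rw [norm_mul, norm_ee, mul_one]
  · refine (norm_sum_le _ _).trans ?_
    rw [mul_sum]
    refine sum_le_sum fun n hn => ?_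
    obtain ⟨h2, h3⟩ := hR n (mem_filter.mp hn).2
    rw [norm_mul, norm_mul, norm_ee, mul_one, Complex.norm_real, Real.norm_eq_abs]
    have h4 : ‖ee (β * revL b L n) - ee (β * R)‖ ≤
        2 * Real.pi * |β| * (b : ℝ) ^ (L - K) := by
      refine (norm_ee_sub_le _ _).trans ?_
      rw [← mul_sub, abs_mul, ← mul_assoc]
      refine mul_le_mul_of_nonneg_left ?_ (by positivity)
      have h5 : (R : ℝ) ≤ revL b L n := by exact_mod_cast h2
      have h6 : (revL b L n : ℝ) < R + (b : ℝ) ^ (L - K) := by exact_mod_cast h3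
      rw [abs_of_nonneg (by linarith)]
      linarith
    calc |w n| * ‖ee (β * revL b L n) - ee (β * R)‖
        ≤ |w n| * (2 * Real.pi * |β| * (b : ℝ) ^ (L - K)) :=
          mul_le_mul_of_nonneg_left h4 (abs_nonneg _)
      _ = 2 * Real.pi * |β| * (b : ℝ) ^ (L - K) * |w n| := mul_comm _ _

/-- the exponential sum of the primes in `SS` minus their expected density, at the reversals -/
noncomputable def Hs (b L a1 c : ℕ) (α : ℝ) : ℂ :=
  ∑ n ∈ SS b L a1 c, ((ArithmeticFunction.vonMangoldt n - kap b L a1 : ℝ) : ℂ) *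
    ee (α * revL b L n)

end Pool.Agent.H10.RP
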