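import Pool.Agent.H10.RP.TypeI
import Pool.Agent.H16.VN

/-!
# Reversed primes: Vaughan's identity (job RP-7)

PROOF of `vaughan_bound`. Use `Pool.Agent.H16.vaughan U U` (`mvf (vcut U) = μ 1_{≤ U}`,
`LamLo U = Λ 1_{≤ U}`, `LamHi U = Λ 1_{> U}`, `rf (vcut U) = 1 - ζ * μ 1_{≤ U}`, `|rf n| ≤ τ(n)`
(`norm_rf_le`), `rf n = 0` for `n ≤ U` (`rf_apply_zero_of_le`)).
Split `∑_{n < x} Λ(n) f(n)` accordingly.
* `LamLo U`: at most `U log X`.
* `mvf * logC`: `∑_{d ≤ U} μ(d) ∑_{d n < x} log n f(d n)`, at most `2 log X * B1` (`typeI_log`).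
* `LamLo U * mvf * zC`: `∑_{d ≤ U²} c_d ∑_{n ≥ 1, d n < x} f(d n)`, `|c_d| ≤ ∑_{e ∣ d} Λ(e) = log d`
  (only `d < X` matter). By `hg` (minus the term `n = 0`: `|f 0| ≤ 1 ≤ g d`), at most
  `log X * 2 B1`.
* `rf * LamHi U`: `∑ rf(n) Λ(m) f(m n)` over `m, n > U`, `m n < x`. Region `m² ≤ X`: split
  `m` into dyadic blocks `(K, 2K]`, `K = 2^i U`, `K² ≤ X` (at most `Nat.log 2 X + 1` values of `i`; `U ≥ 1`),
  with coefficients `a m = Λ(m) 1[U < m, m² ≤ X]`, `b n = rf(n)` (automatically `n < X / K + 1`).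
  Region `m² > X`: then `n² < X`; the same with the roles exchanged: blocks for `n`, `a n = rf(n) 1[n > U]`,
  `b m = Λ(m) 1[m > U, m² > X]`. Each block is at most `B2` by `TIIB` (`Λ ≤ log X`, `rf ≤ τ`, `log X ≥ 1`).
  (For the bounds on the coefficients at `n ≥ X` truncate them: only `n < X` matter.)
-/

set_option autoImplicit false

open Finset
open scoped ComplexConjugate

namespace Pool.Agent.H10.RP

/-- type II bound for `f` at all dyadic scales between `U` and `√X` -/
def TIIB (f : ℕ → ℂ) (X U : ℕ) (B : ℝ) : Prop :=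
  ∀ a b : ℕ → ℂ, (∀ n, ‖a n‖ ≤ Real.log X * (n.divisors.card : ℝ)) →
    (∀ n, ‖b n‖ ≤ Real.log X * (n.divisors.card : ℝ)) →
    ∀ x : ℕ, x ≤ X → ∀ K : ℕ, U ≤ K → K * K ≤ X →
      ‖∑ m ∈ Ioc K (2 * K), ∑ n ∈ (range (X / K + 1)).filter (fun n => m * n < x),
        a m * b n * f (m * n)‖ ≤ B

open Pool.Agent.H16 in
/-- opening a convolution -/
private theorem conv_sum (A B : ArithmeticFunction ℂ) (f : ℕ → ℂ) (X x : ℕ) (hx : x ≤ X) :
    ∑ n ∈ range x, (A * B) n * f n =
      ∑ m ∈ range X, ∑ n ∈ (range X).filter (fun n => m * n < x), A m * B n * f (m * n) := by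
  have h1 : ∑ m ∈ range X, ∑ n ∈ (range X).filter (fun n => m * n < x), A m * B n * f (m * n) =
      ∑ p ∈ (range X ×ˢ range X).filter (fun p => p.1 * p.2 < x ∧ p.1 * p.2 ≠ 0),
        A p.1 * B p.2 * f (p.1 * p.2) := by
    rw [Finset.sum_filter, Finset.sum_product]
    refine Finset.sum_congr rfl fun m _ => ?_
    rw [Finset.sum_filter]
    refine Finset.sum_congr rfl fun n _ => ?_
    by_cases h0 : m * n = 0
    · have hz : A m * B n = 0 := by
        rcases Nat.mul_eq_zero.mp h0 with h | h
        · rw [h]; simp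
        · rw [h]; simp
      rw [hz]
      simp
    · simp [h0]
  rw [h1]
  have h2 : ∀ p ∈ (range X ×ˢ range X).filter (fun p => p.1 * p.2 < x ∧ p.1 * p.2 ≠ 0),
      p.1 * p.2 ∈ range x := by
    intro p hp
    simp only [Finset.mem_filter] at hp
    exact Finset.mem_range.mpr hp.2.1
  rw [← Finset.sum_fiberwise_of_maps_to h2]
  refine Finset.sum_congr rfl fun n hn => ?_
  have hn' := Finset.mem_range.mp hn
  rw [ArithmeticFunction.mul_apply, Finset.sum_mul]
  have h3 : ((range X ×ˢ range X).filter (fun p => p.1 * p.2 < x ∧ p.1 * p.2 ≠ 0)).filter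
      (fun p => p.1 * p.2 = n) = n.divisorsAntidiagonal := by
    ext p
    simp only [Finset.mem_filter, Finset.mem_product, Finset.mem_range,
      Nat.mem_divisorsAntidiagonal]
    constructor
    · rintro ⟨⟨_, _, h⟩, rfl⟩
      exact ⟨rfl, h⟩
    · rintro ⟨rfl, h⟩
      have h4 : p.1 ≠ 0 := fun h' => h (by rw [h']; simp)
      have h5 : p.2 ≠ 0 := fun h' => h (by rw [h']; simp)
      refine ⟨⟨⟨?_, ?_⟩, hn', h⟩, rfl⟩
      · have := Nat.le_mul_of_pos_right p.1 (Nat.pos_of_ne_zero h5)
        omega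
      · have := Nat.le_mul_of_pos_left p.2 (Nat.pos_of_ne_zero h4)
        omega
  rw [h3]
  refine Finset.sum_congr rfl fun p hp => ?_
  rw [(Nat.mem_divisorsAntidiagonal.mp hp).1]

/-- telescoping of dyadic blocks -/
private theorem sum_blocks (F : ℕ → ℂ) (U L : ℕ) :
    ∑ i ∈ range L, ∑ m ∈ Ioc (2 ^ i * U) (2 * (2 ^ i * U)), F m = ∑ m ∈ Ioc U (2 ^ L * U), F m := by
  induction L with
  | zero => simp
  | succ L ih =>
    rw [Finset.sum_range_succ, ih]
    have e : 2 ^ (L + 1) * U = 2 * (2 ^ L * U) := by ring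
    rw [e]
    have h1 : U ≤ 2 ^ L * U := Nat.le_mul_of_pos_left U (by positivity)
    exact Finset.sum_Ioc_consecutive F h1 (by omega)

/-- dyadic decomposition of a bilinear sum -/
private theorem dyadic (f : ℕ → ℂ) (X U : ℕ) (B2 : ℝ) (hB2 : 0 ≤ B2) (h2 : TIIB f X U B2)
    (hU : 1 ≤ U) (hX : 3 ≤ X) (x : ℕ) (hx : x ≤ X) (a b : ℕ → ℂ)
    (ha : ∀ n, ‖a n‖ ≤ Real.log X * (n.divisors.card : ℝ))
    (hb : ∀ n, ‖b n‖ ≤ Real.log X * (n.divisors.card : ℝ))
    (ha1 : ∀ n, n ≤ U → a n = 0) (ha2 : ∀ n, X < n * n → a n = 0) :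
    ‖∑ m ∈ range X, ∑ n ∈ (range X).filter (fun n => m * n < x), a m * b n * f (m * n)‖ ≤
      (Nat.log 2 X + 1) * B2 := by
  set F : ℕ → ℂ := fun m => ∑ n ∈ (range X).filter (fun n => m * n < x), a m * b n * f (m * n)
    with hF
  have F1 : ∀ m, m ≤ U → F m = 0 := fun m hm => by
    simp only [hF]
    refine Finset.sum_eq_zero fun n _ => ?_
    rw [ha1 m hm]; simp
  have F2 : ∀ m, X < m * m → F m = 0 := fun m hm => by
    simp only [hF]
    refine Finset.sum_eq_zero fun n _ => ?_
    rw [ha2 m hm]; simp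
  set L := Nat.log 2 X + 1 with hL
  have hLX : X < 2 ^ L := Nat.lt_pow_succ_log_self (by norm_num) X
  have hLU : 2 ^ L ≤ 2 ^ L * U := Nat.le_mul_of_pos_right _ hU
  have e1 : ∑ m ∈ range X, F m = ∑ m ∈ Ioc U (2 ^ L * U), F m := by
    have e2 : ∑ m ∈ range X, F m = ∑ m ∈ range (2 ^ L * U + 1), F m := by
      refine Finset.sum_subset (Finset.range_mono (by omega)) fun m _ hm => F2 m ?_
      have : X ≤ m := by simpa using hm
      nlinarith
    have e3 : ∑ m ∈ Ioc U (2 ^ L * U), F m = ∑ m ∈ range (2 ^ L * U + 1), F m := by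
      refine Finset.sum_subset ?_ fun m hm hm' => F1 m ?_
      · intro m hm
        have := (Finset.mem_Ioc.mp hm).2
        exact Finset.mem_range.mpr (by omega)
      · by_contra hc
        exact hm' (Finset.mem_Ioc.mpr ⟨by omega, by have := Finset.mem_range.mp hm; omega⟩)
    rw [e2, e3]
  rw [e1, ← sum_blocks]
  have hblock : ∀ i, ‖∑ m ∈ Ioc (2 ^ i * U) (2 * (2 ^ i * U)), F m‖ ≤ B2 := by
    intro i
    set K := 2 ^ i * U with hK
    have hUK : U ≤ K := Nat.le_mul_of_pos_left U (by positivity)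
    by_cases hKX : K * K ≤ X
    · have h3 := h2 a b ha hb x hx K hUK hKX
      refine le_trans (le_of_eq ?_) h3
      congr 1
      refine Finset.sum_congr rfl fun m hm => ?_
      have hm1 := (Finset.mem_Ioc.mp hm).1
      simp only [hF]
      refine Finset.sum_congr ?_ fun _ _ => rfl
      ext n
      simp only [Finset.mem_filter, Finset.mem_range]
      constructor
      · rintro ⟨_, h5⟩
        refine ⟨?_, h5⟩
        have h6 : n ≤ X / K := by
          rw [Nat.le_div_iff_mul_le (by omega)]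
          nlinarith
        omega
      · rintro ⟨_, h5⟩
        refine ⟨?_, h5⟩
        nlinarith
    · rw [Finset.sum_eq_zero]
      · simpa using hB2
      · intro m hm
        have hm1 := (Finset.mem_Ioc.mp hm).1
        exact F2 m (by nlinarith)
  calc ‖∑ i ∈ range L, ∑ m ∈ Ioc (2 ^ i * U) (2 * (2 ^ i * U)), F m‖ ≤
      ∑ i ∈ range L, ‖∑ m ∈ Ioc (2 ^ i * U) (2 * (2 ^ i * U)), F m‖ := norm_sum_le _ _
    _ ≤ ∑ _i ∈ range L, B2 := Finset.sum_le_sum fun i _ => hblock i
    _ = (Nat.log 2 X + 1) * B2 := by simp [hL]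

theorem vaughan_bound (f : ℕ → ℂ) (X U : ℕ) (B1 B2 : ℝ) (hf : ∀ n, ‖f n‖ ≤ 1) (g : ℕ → ℝ)
    (hg1 : ∀ m, 1 ≤ g m) (hg : ∀ m : ℕ, 1 ≤ m → m ≤ U * U → ∀ x : ℕ, x ≤ X →
      ‖∑ n ∈ (range X).filter (fun n => m * n < x), f (m * n)‖ ≤ g m)
    (hB1 : ∑ m ∈ Icc 1 (U * U), g m ≤ B1) (hB2 : 0 ≤ B2) (h2 : TIIB f X U B2) (hU : 1 ≤ U)
    (hX : 3 ≤ X) (x : ℕ) (hx : x ≤ X) :
    ‖∑ n ∈ range x, Lam n * f n‖ ≤
      U * Real.log X + 4 * Real.log X * B1 + 2 * (Nat.log 2 X + 1) * B2 := by
  have hlogX : 1 ≤ Real.log X := by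
    rw [Real.le_log_iff_exp_le (by positivity)]
    have h3 : (3 : ℝ) ≤ X := by exact_mod_cast hX
    have := Real.exp_one_lt_three
    linarith
  have hlogX0 : 0 ≤ Real.log X := by linarith
  have hlam : ∀ n : ℕ, ‖Pool.Agent.H16.LamC n‖ ≤ Real.log n := by
    intro n
    rw [Pool.Agent.H16.LamC_apply, Complex.norm_real,
      Real.norm_of_nonneg ArithmeticFunction.vonMangoldt_nonneg]
    exact ArithmeticFunction.vonMangoldt_le_log
  have hlogmono : ∀ n : ℕ, n ≤ X → Real.log n ≤ Real.log X := by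
    intro n hn
    rcases Nat.eq_zero_or_pos n with h | h
    · subst h; simpa using hlogX0
    · exact Real.log_le_log (by exact_mod_cast h) (by exact_mod_cast hn)
  have hdiv1 : ∀ n : ℕ, 1 ≤ n → (1 : ℝ) ≤ (n.divisors.card : ℝ) := by
    intro n hn
    exact_mod_cast Finset.card_pos.mpr ⟨1, Nat.mem_divisors.mpr ⟨one_dvd _, by omega⟩⟩
  have hmv : ∀ n, ‖Pool.Agent.H16.mvf (Pool.Agent.H16.vcut U) n‖ ≤ 1 := fun n =>
    Pool.Agent.H16.norm_mvf_le _ (Pool.Agent.H16.vcut_nonneg U) (Pool.Agent.H16.vcut_le_one U) n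
  have hmv0 : ∀ n, U < n → Pool.Agent.H16.mvf (Pool.Agent.H16.vcut U) n = 0 := fun n hn => by
    rw [Pool.Agent.H16.mvf_apply, Pool.Agent.H16.vcut_eq_zero U n hn]; simp
  have hg0 : ∀ m, 0 ≤ g m := fun m => by linarith [hg1 m]
  have hB10 : 0 ≤ B1 := (Finset.sum_nonneg fun m _ => hg0 m).trans hB1
  -- Vaughan
  have hsplit : ∑ n ∈ range x, Lam n * f n =
      ∑ n ∈ range x, (Pool.Agent.H16.mvf (Pool.Agent.H16.vcut U) * Pool.Agent.H16.logC) n * f n +
      ∑ n ∈ range x, Pool.Agent.H16.LamLo U n * f n -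
      ∑ n ∈ range x, (Pool.Agent.H16.LamLo U * Pool.Agent.H16.mvf (Pool.Agent.H16.vcut U) *
        Pool.Agent.H16.zC) n * f n +
      ∑ n ∈ range x, (Pool.Agent.H16.rf (Pool.Agent.H16.vcut U) * Pool.Agent.H16.LamHi U) n *
        f n := by
    rw [← Finset.sum_add_distrib, ← Finset.sum_sub_distrib, ← Finset.sum_add_distrib]
    refine Finset.sum_congr rfl fun n _ => ?_
    have h := congrArg (fun F : ArithmeticFunction ℂ => F n) (Pool.Agent.H16.vaughan U U)
    simp only [sub_eq_add_neg, ArithmeticFunction.add_apply, ArithmeticFunction.neg_apply] at h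
    have h' : Lam n = Pool.Agent.H16.LamC n := rfl
    rw [h', h]
    ring
  -- term 1
  have t1 : ‖∑ n ∈ range x, (Pool.Agent.H16.mvf (Pool.Agent.H16.vcut U) *
      Pool.Agent.H16.logC) n * f n‖ ≤ 2 * Real.log X * B1 := by
    rw [conv_sum _ _ f X x hx]
    have hterm : ∀ m ∈ range X, ‖∑ n ∈ (range X).filter (fun n => m * n < x),
        Pool.Agent.H16.mvf (Pool.Agent.H16.vcut U) m * Pool.Agent.H16.logC n * f (m * n)‖ ≤
          if m ∈ Icc 1 (U * U) then 2 * Real.log X * g m else 0 := by
      intro m _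
      by_cases hm0 : m = 0
      · subst hm0
        simp
      by_cases hmU : m ≤ U
      · have hmUU : m ≤ U * U := hmU.trans (Nat.le_mul_of_pos_left U hU)
        rw [if_pos (Finset.mem_Icc.mpr ⟨by omega, hmUU⟩)]
        have e : ∑ n ∈ (range X).filter (fun n => m * n < x),
            Pool.Agent.H16.mvf (Pool.Agent.H16.vcut U) m * Pool.Agent.H16.logC n * f (m * n) =
            Pool.Agent.H16.mvf (Pool.Agent.H16.vcut U) m *
              ∑ n ∈ (range X).filter (fun n => m * n < x), ((Real.log n : ℝ) : ℂ) * f (m * n) := by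
          rw [Finset.mul_sum]
          refine Finset.sum_congr rfl fun n _ => ?_
          rw [Pool.Agent.H16.logC_apply]; ring
        rw [e, norm_mul]
        have h3 := typeI_log f X (g m) m (by omega) (by omega) (hg m (by omega) hmUU) x hx
        calc ‖Pool.Agent.H16.mvf (Pool.Agent.H16.vcut U) m‖ * _ ≤ 1 * (2 * Real.log X * g m) :=
              mul_le_mul (hmv m) h3 (norm_nonneg _) zero_le_one
          _ = _ := one_mul _
      · rw [Finset.sum_eq_zero]
        · rw [norm_zero]
          split_ifs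
          · exact mul_nonneg (by positivity) (hg0 m)
          · exact le_rfl
        · intro n _
          rw [hmv0 m (by omega)]; simp
    refine (norm_sum_le _ _).trans ((Finset.sum_le_sum hterm).trans ?_)
    rw [← Finset.sum_filter]
    calc ∑ m ∈ (range X).filter (fun m => m ∈ Icc 1 (U * U)), 2 * Real.log X * g m ≤
        ∑ m ∈ Icc 1 (U * U), 2 * Real.log X * g m := by
          refine Finset.sum_le_sum_of_subset_of_nonneg ?_ fun m _ _ =>
            mul_nonneg (by positivity) (hg0 m)
          intro m hm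
          exact (Finset.mem_filter.mp hm).2
      _ = 2 * Real.log X * ∑ m ∈ Icc 1 (U * U), g m := by rw [Finset.mul_sum]
      _ ≤ _ := mul_le_mul_of_nonneg_left hB1 (by positivity)
  -- term 2
  have t2 : ‖∑ n ∈ range x, Pool.Agent.H16.LamLo U n * f n‖ ≤ U * Real.log X := by
    have hterm : ∀ n ∈ range x, ‖Pool.Agent.H16.LamLo U n * f n‖ ≤
        if n ∈ Icc 1 U then Real.log X else 0 := by
      intro n hn
      have hn' := Finset.mem_range.mp hn
      rw [norm_mul, Pool.Agent.H16.LamLo_apply]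
      by_cases h0 : n = 0
      · subst h0; simp
      by_cases hnU : n ≤ U
      · rw [if_pos hnU, if_pos (Finset.mem_Icc.mpr ⟨by omega, hnU⟩)]
        calc ‖Pool.Agent.H16.LamC n‖ * ‖f n‖ ≤ Real.log X * 1 :=
              mul_le_mul ((hlam n).trans (hlogmono n (by omega))) (hf n) (norm_nonneg _) hlogX0
          _ = _ := mul_one _
      · rw [if_neg hnU, norm_zero, zero_mul]
        split_ifs
        · exact hlogX0
        · exact le_rfl
    refine (norm_sum_le _ _).trans ((Finset.sum_le_sum hterm).trans ?_)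
    rw [← Finset.sum_filter]
    calc ∑ m ∈ (range x).filter (fun m => m ∈ Icc 1 U), Real.log X ≤
        ∑ m ∈ Icc 1 U, Real.log X := by
          refine Finset.sum_le_sum_of_subset_of_nonneg ?_ fun m _ _ => hlogX0
          intro m hm
          exact (Finset.mem_filter.mp hm).2
      _ = U * Real.log X := by simp
  -- term 3
  have hc1 : ∀ d, ‖(Pool.Agent.H16.LamLo U * Pool.Agent.H16.mvf (Pool.Agent.H16.vcut U)) d‖ ≤
      Real.log d := by
    intro d
    rw [ArithmeticFunction.mul_apply]
    refine (norm_sum_le _ _).trans ?_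
    calc ∑ p ∈ d.divisorsAntidiagonal, ‖Pool.Agent.H16.LamLo U p.1 *
          Pool.Agent.H16.mvf (Pool.Agent.H16.vcut U) p.2‖ ≤
        ∑ p ∈ d.divisorsAntidiagonal, ArithmeticFunction.vonMangoldt p.1 := by
          refine Finset.sum_le_sum fun p _ => ?_
          rw [norm_mul]
          have h1 : ‖Pool.Agent.H16.LamLo U p.1‖ ≤ ArithmeticFunction.vonMangoldt p.1 := by
            rw [Pool.Agent.H16.LamLo_apply]
            split_ifs
            · rw [Pool.Agent.H16.LamC_apply, Complex.norm_real,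
                Real.norm_of_nonneg ArithmeticFunction.vonMangoldt_nonneg]
            · rw [norm_zero]; exact ArithmeticFunction.vonMangoldt_nonneg
          calc _ ≤ ArithmeticFunction.vonMangoldt p.1 * 1 :=
                mul_le_mul h1 (hmv _) (norm_nonneg _) ArithmeticFunction.vonMangoldt_nonneg
            _ = _ := mul_one _
      _ = ∑ e ∈ d.divisors, ArithmeticFunction.vonMangoldt e :=
          Nat.sum_divisorsAntidiagonal (fun e _ => ArithmeticFunction.vonMangoldt e)
      _ = Real.log d := ArithmeticFunction.vonMangoldt_sum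
  have hc2 : ∀ d, U * U < d →
      (Pool.Agent.H16.LamLo U * Pool.Agent.H16.mvf (Pool.Agent.H16.vcut U)) d = 0 := by
    intro d hd
    rw [ArithmeticFunction.mul_apply]
    refine Finset.sum_eq_zero fun p hp => ?_
    have hp' := (Nat.mem_divisorsAntidiagonal.mp hp).1
    by_cases h1 : U < p.1
    · rw [Pool.Agent.H16.LamLo_apply, if_neg (by omega), zero_mul]
    · by_cases h2 : U < p.2
      · rw [hmv0 _ h2, mul_zero]
      · exfalso
        have := Nat.mul_le_mul (not_lt.mp h1) (not_lt.mp h2)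
        omega
  have t3 : ‖∑ n ∈ range x, (Pool.Agent.H16.LamLo U * Pool.Agent.H16.mvf
      (Pool.Agent.H16.vcut U) * Pool.Agent.H16.zC) n * f n‖ ≤ 2 * Real.log X * B1 := by
    rw [conv_sum _ _ f X x hx]
    have hterm : ∀ m ∈ range X, ‖∑ n ∈ (range X).filter (fun n => m * n < x),
        (Pool.Agent.H16.LamLo U * Pool.Agent.H16.mvf (Pool.Agent.H16.vcut U)) m *
          Pool.Agent.H16.zC n * f (m * n)‖ ≤
          if m ∈ Icc 1 (U * U) then 2 * Real.log X * g m else 0 := by
      intro m hmX
      have hmX' := Finset.mem_range.mp hmX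
      by_cases hm0 : m = 0
      · subst hm0
        simp
      by_cases hmU : m ≤ U * U
      · rw [if_pos (Finset.mem_Icc.mpr ⟨by omega, hmU⟩)]
        have e : ∑ n ∈ (range X).filter (fun n => m * n < x),
            (Pool.Agent.H16.LamLo U * Pool.Agent.H16.mvf (Pool.Agent.H16.vcut U)) m *
              Pool.Agent.H16.zC n * f (m * n) =
            (Pool.Agent.H16.LamLo U * Pool.Agent.H16.mvf (Pool.Agent.H16.vcut U)) m *
              (∑ n ∈ (range X).filter (fun n => m * n < x), f (m * n) -
                (if 0 < x then f 0 else 0)) := by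
          have e0 : (if 0 < x then f 0 else 0) =
              ∑ n ∈ (range X).filter (fun n => m * n < x), if n = 0 then f 0 else 0 := by
            rw [Finset.sum_ite_eq' ]
            by_cases hx0 : 0 < x
            · rw [if_pos hx0, if_pos]
              simp only [Finset.mem_filter, Finset.mem_range, mul_zero]
              omega
            · rw [if_neg hx0, if_neg]
              simp only [Finset.mem_filter, Finset.mem_range, mul_zero]
              omega
          rw [e0, ← Finset.sum_sub_distrib, Finset.mul_sum]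
          refine Finset.sum_congr rfl fun n _ => ?_
          by_cases hn : n = 0
          · subst hn; simp
          · rw [if_neg hn, Pool.Agent.H16.zC_apply n hn]; ring
        rw [e, norm_mul]
        have h3 := hg m (by omega) hmU x hx
        have h4 : ‖(if 0 < x then f 0 else 0 : ℂ)‖ ≤ 1 := by
          split_ifs
          · exact hf 0
          · simp
        have h5 : ‖∑ n ∈ (range X).filter (fun n => m * n < x), f (m * n) -
            (if 0 < x then f 0 else 0)‖ ≤ 2 * g m := by
          refine (norm_sub_le _ _).trans ?_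
          have := hg1 m
          linarith
        calc _ ≤ Real.log X * (2 * g m) :=
              mul_le_mul ((hc1 m).trans (hlogmono m hmX'.le)) h5 (norm_nonneg _) hlogX0
          _ = _ := by ring
      · rw [Finset.sum_eq_zero]
        · rw [norm_zero]
          split_ifs
          · exact mul_nonneg (by positivity) (hg0 m)
          · exact le_rfl
        · intro n _
          rw [hc2 m (by omega)]; simp
    refine (norm_sum_le _ _).trans ((Finset.sum_le_sum hterm).trans ?_)
    rw [← Finset.sum_filter]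
    calc ∑ m ∈ (range X).filter (fun m => m ∈ Icc 1 (U * U)), 2 * Real.log X * g m ≤
        ∑ m ∈ Icc 1 (U * U), 2 * Real.log X * g m := by
          refine Finset.sum_le_sum_of_subset_of_nonneg ?_ fun m _ _ =>
            mul_nonneg (by positivity) (hg0 m)
          intro m hm
          exact (Finset.mem_filter.mp hm).2
      _ = 2 * Real.log X * ∑ m ∈ Icc 1 (U * U), g m := by rw [Finset.mul_sum]
      _ ≤ _ := mul_le_mul_of_nonneg_left hB1 (by positivity)
  -- term 4
  have hrf : ∀ n, ‖Pool.Agent.H16.rf (Pool.Agent.H16.vcut U) n‖ ≤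
      Real.log X * (n.divisors.card : ℝ) := by
    intro n
    rcases Nat.eq_zero_or_pos n with h | h
    · subst h; simp
    · have h1 := Pool.Agent.H16.norm_rf_le (Pool.Agent.H16.vcut U)
        (Pool.Agent.H16.vcut_nonneg U) (Pool.Agent.H16.vcut_le_one U)
        (Pool.Agent.H16.vcut_eq_one U 1 hU) n h
      have h2 : Pool.Agent.H16.tauR n = (n.divisors.card : ℝ) := rfl
      rw [h2] at h1
      refine h1.trans ?_
      have h3 : (0 : ℝ) ≤ (n.divisors.card : ℝ) := by positivity
      nlinarith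
  have hrf0 : ∀ n, n ≤ U → Pool.Agent.H16.rf (Pool.Agent.H16.vcut U) n = 0 := fun n hn =>
    Pool.Agent.H16.rf_apply_zero_of_le _ U (fun k hk => Pool.Agent.H16.vcut_eq_one U k hk) n hn
  have hHi : ∀ n, n ≤ X → ‖Pool.Agent.H16.LamHi U n‖ ≤ Real.log X * (n.divisors.card : ℝ) := by
    intro n hn
    rcases Nat.eq_zero_or_pos n with h | h
    · subst h; simp
    · have h1 : ‖Pool.Agent.H16.LamHi U n‖ ≤ Real.log X := by
        rw [Pool.Agent.H16.LamHi_apply]
        split_ifs
        · simpa using hlogX0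
        · exact (hlam n).trans (hlogmono n hn)
      have h2 := hdiv1 n h
      nlinarith
  have hHi0 : ∀ n, n ≤ U → Pool.Agent.H16.LamHi U n = 0 := fun n hn => by
    rw [Pool.Agent.H16.LamHi_apply, if_pos hn]
  have hsqle : ∀ n : ℕ, n * n ≤ X → n ≤ X := fun n hn => by
    rcases Nat.eq_zero_or_pos n with h | h
    · omega
    · nlinarith
  have t4 : ‖∑ n ∈ range x, (Pool.Agent.H16.rf (Pool.Agent.H16.vcut U) *
      Pool.Agent.H16.LamHi U) n * f n‖ ≤ 2 * (Nat.log 2 X + 1) * B2 := by
    rw [conv_sum _ _ f X x hx]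
    set A := Pool.Agent.H16.rf (Pool.Agent.H16.vcut U) with hA
    set Hi := Pool.Agent.H16.LamHi U with hHi'
    set b1 : ℕ → ℂ := fun n => if n * n ≤ X then Hi n else 0 with hb1
    set a2 : ℕ → ℂ := fun n => if n * n ≤ X then A n else 0 with ha2
    set b2 : ℕ → ℂ := fun n => if n ≤ X ∧ X < n * n then Hi n else 0 with hb2
    have hs : ∑ m ∈ range X, ∑ n ∈ (range X).filter (fun n => m * n < x), A m * Hi n * f (m * n) =
        ∑ n ∈ range X, ∑ m ∈ (range X).filter (fun m => n * m < x), b1 n * A m * f (n * m) +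
        ∑ m ∈ range X, ∑ n ∈ (range X).filter (fun n => m * n < x), a2 m * b2 n * f (m * n) := by
      have hc : ∑ n ∈ range X, ∑ m ∈ (range X).filter (fun m => n * m < x),
          b1 n * A m * f (n * m) =
          ∑ m ∈ range X, ∑ n ∈ (range X).filter (fun n => m * n < x),
            A m * b1 n * f (m * n) := by
        simp only [Finset.sum_filter]
        rw [Finset.sum_comm]
        refine Finset.sum_congr rfl fun m _ => Finset.sum_congr rfl fun n _ => ?_
        rw [mul_comm n m, mul_comm (b1 n) (A m)]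
      rw [hc, ← Finset.sum_add_distrib]
      refine Finset.sum_congr rfl fun m _ => ?_
      rw [← Finset.sum_add_distrib]
      refine Finset.sum_congr rfl fun n hn => ?_
      obtain ⟨hn1, hn2⟩ := Finset.mem_filter.mp hn
      have hn1 := Finset.mem_range.mp hn1
      by_cases h1 : n * n ≤ X
      · have e1 : b1 n = Hi n := by simp only [hb1]; rw [if_pos h1]
        have e2 : b2 n = 0 := by simp only [hb2]; rw [if_neg (by omega)]
        rw [e1, e2]; ring
      · have e1 : b1 n = 0 := by simp only [hb1]; rw [if_neg h1]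
        have e2 : b2 n = Hi n := by simp only [hb2]; rw [if_pos ⟨by omega, by omega⟩]
        have h3 : m * m ≤ X := by
          by_contra hcon
          push Not at h1 hcon
          have h4 : m * n < X := lt_of_lt_of_le hn2 hx
          have h5 : (m * m) * (n * n) < X * X := by
            calc (m * m) * (n * n) = (m * n) * (m * n) := by ring
              _ < X * X := Nat.mul_lt_mul'' h4 h4
          have h6 := Nat.mul_lt_mul'' hcon h1
          omega
        have e3 : a2 m = A m := by simp only [ha2]; rw [if_pos h3]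
        rw [e1, e2, e3]; ring
    rw [hs]
    have d1 := dyadic f X U B2 hB2 h2 hU hX x hx b1 A (by
      intro n
      simp only [hb1]
      split_ifs with h
      · exact hHi n (hsqle n h)
      · rw [norm_zero]; positivity) hrf (by
      intro n hn
      simp only [hb1]
      split_ifs
      · exact hHi0 n hn
      · rfl) (by
      intro n hn
      simp only [hb1]
      rw [if_neg (by omega)])
    have d2 := dyadic f X U B2 hB2 h2 hU hX x hx a2 b2 (by
      intro n
      simp only [ha2]
      split_ifs with h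
      · exact hrf n
      · rw [norm_zero]; positivity) (by
      intro n
      simp only [hb2]
      split_ifs with h
      · exact hHi n h.1
      · rw [norm_zero]; positivity) (by
      intro n hn
      simp only [ha2]
      split_ifs
      · exact hrf0 n hn
      · rfl) (by
      intro n hn
      simp only [ha2]
      rw [if_neg (by omega)])
    refine (norm_add_le _ _).trans ?_
    linarith
  rw [hsplit]
  refine (norm_add_le _ _).trans ?_
  have h5 := (norm_sub_le (∑ n ∈ range x, (Pool.Agent.H16.mvf (Pool.Agent.H16.vcut U) *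
      Pool.Agent.H16.logC) n * f n + ∑ n ∈ range x, Pool.Agent.H16.LamLo U n * f n)
      (∑ n ∈ range x, (Pool.Agent.H16.LamLo U * Pool.Agent.H16.mvf (Pool.Agent.H16.vcut U) *
        Pool.Agent.H16.zC) n * f n))
  have h6 := (norm_add_le (∑ n ∈ range x, (Pool.Agent.H16.mvf (Pool.Agent.H16.vcut U) *
      Pool.Agent.H16.logC) n * f n) (∑ n ∈ range x, Pool.Agent.H16.LamLo U n * f n))
  linarith

end Pool.Agent.H10.RP
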