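import Pool.Agent.H10.RP.TypeII
import Pool.Agent.H10.RP.Core
import Pool.Agent.H10.RP.Vau
import Pool.Agent.H10.RP.Tau

/-!
# Reversed primes: the type II bound at all scales (job RP-8a)

PROOF of `tii_explicit`. Let `X = q ^ J`, `G = 1 + log X`, `H = q ^ kp`, `K` with `U ≤ K`, `K² ≤ X`,
`N = X / K + 1`, `lam` the least integer with `K q ^ (2 kp) ≤ q ^ lam` (`Nat.clog`), so
`D := q ^ lam < K q ^ (2 kp + 1)`. From `4 kp + 2 ≤ J`: `q ^ (2 kp + 1) ≤ √X`, so `D ≤ X` (`lam ≤ J`) and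
`q ^ (2 kp + 1) ≤ N`; `K ≤ N`, `K N ≤ 2 X`. `lam - 1 ≥ Nat.log q U` and `lam - kp ≥ Nat.log q U`
(as `1 ≤ kp`), `kp < lam`, `(lam : ℝ) ≤ J`.
`core` with `S = (1 - c) ^ (Nat.log q U / w)` (`hsup`, antitone in the exponent) and
`card_divisors_pow_le` gives for `r < H` the bound `Tb ≤ N K σ`:
 `K + (N + D)(4 + 2 log D) ≤ N (1 + (1 + q ^ (2 kp + 1))(4 + 2 log X)) ≤ 3 N q ^ (2 kp + 1) (4 + 2 log X)`,
 `D ≤ K q ^ (2 kp + 1)`, `κ ^ (lam - 1) ≤ κ ^ Nat.log q U`;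
 `q ^ (4 kp) D + K r ≤ 2 K q ^ (6 kp + 1)`.
`typeII` with `∑ |a m|² ≤ 2 K G ^ 6`, `∑ |b n|² ≤ N G ^ 6`, `∑ |b n|⁴ ≤ N G ^ 20` (`sum_tau2`, `sum_tau4`,
`2 K ≤ X` since `2 ≤ U ≤ K`) and `H (x / D + 1) ≤ 2 N / H` (`D ≥ K H²`, `x ≤ X ≤ N K`, `D ≤ N K`):
 `|S|² ≤ 2 K G ^ 6 (2 N / H)(K N G ^ 6 + 2 H N K G ^ 10 √(2 σ + 16 / H))
 ≤ (K N)² G ^ 16 (4 / H + 8 √(2 σ + 16 / H))`.
-/

set_option autoImplicit false

open Finset
open scoped ComplexConjugate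

namespace Pool.Agent.H10.RP

/-- the saving in the type II estimate -/
noncomputable def sig (q J kp w U : ℕ) (κ c : ℝ) : ℝ :=
  3 * (q : ℝ) ^ (4 * kp + 2) * (4 + 2 * Real.log ((q : ℝ) ^ J)) * κ ^ (Nat.log q U) +
    ((q : ℝ) * (J + 1)) ^ q * (κ ^ kp + 1 / (q : ℝ) ^ kp +
      2 * (q : ℝ) ^ (7 * kp + 1) * ((1 - c) ^ (Nat.log q U / w)) ^ 2)

variable {q : ℕ} (φ : ℕ → ℕ → ℂ)

theorem scale_core (hq : 2 ≤ q) (hφ : Uni φ) (κ c : ℝ) (hκ0 : 0 ≤ κ) (hκ1 : κ ≤ 1)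
    (hS : Str q φ κ) (hc0 : 0 ≤ c) (hc1 : c ≤ 1) (J kp w U K N lam : ℕ) (hkp : 1 ≤ kp)
    (hsup : ∀ lam δ c' : ℕ, lam ≤ J → δ ≤ lam → PP q φ lam δ c' ≤ (1 - c) ^ (δ / w))
    (hlamJ : lam ≤ J) (hK1 : 1 ≤ K) (hKN : K ≤ N)
    (hD : (q : ℝ) ^ lam ≤ K * (q : ℝ) ^ (2 * kp + 1))
    (hlam : Nat.log q U + 2 * kp ≤ lam)
    (r : ℕ) (hr : 1 ≤ r) (hrH : r < q ^ kp) (a c' : ℕ → ℕ) (hac : ∀ n, (c' n : ℝ) - a n ≤ K) :
    ∑ n ∈ range N, ‖∑ m ∈ Ico (a n) (c' n),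
      fd q φ lam (m * (n + r)) * conj (fd q φ lam (m * n))‖ ≤
      N * K * sig q J kp w U κ c := by
  have hq1 : (1 : ℝ) ≤ q := by
    have : 1 ≤ q := by omega
    exact_mod_cast this
  have hq0 : (0 : ℝ) < q := by linarith
  have hS0 : 0 ≤ (1 - c) ^ (Nat.log q U / w) := pow_nonneg (by linarith) _
  have hsup' : ∀ c'', PP q φ lam (lam - kp) c'' ≤ (1 - c) ^ (Nat.log q U / w) := by
    intro c''
    refine (hsup lam (lam - kp) c'' hlamJ (Nat.sub_le _ _)).trans ?_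
    apply pow_le_pow_of_le_one (by linarith) (by linarith)
    apply Nat.div_le_div_right
    omega
  have h1 := core φ hq hφ κ hκ0 hκ1 hS lam N r kp (K : ℝ) _ (by exact_mod_cast hK1) (by omega)
    hr hS0 hsup' a c' hac
  refine h1.trans ?_
  set S := (1 - c) ^ (Nat.log q U / w) with hSdef
  have hdiv : ((q ^ lam).divisors.card : ℝ) ≤ ((q : ℝ) * (J + 1)) ^ q := by
    refine (card_divisors_pow_le hq lam).trans ?_
    have : (lam : ℝ) ≤ J := by exact_mod_cast hlamJ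
    gcongr
  have hlogD : Real.log ((q : ℝ) ^ lam) ≤ Real.log ((q : ℝ) ^ J) :=
    Real.log_le_log (by positivity) (pow_le_pow_right₀ hq1 hlamJ)
  have hlogD0 : 0 ≤ Real.log ((q : ℝ) ^ lam) := Real.log_nonneg (one_le_pow₀ hq1)
  set B := 4 + 2 * Real.log ((q : ℝ) ^ J) with hB
  have hB4 : 4 ≤ B := by linarith
  have hK1' : (1 : ℝ) ≤ K := by exact_mod_cast hK1
  have hKN' : (K : ℝ) ≤ N := by exact_mod_cast hKN
  have hr' : (r : ℝ) ≤ (q : ℝ) ^ kp := by exact_mod_cast hrH.le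
  set Q := (q : ℝ) ^ (2 * kp + 1) with hQ
  have hQ1 : 1 ≤ Q := one_le_pow₀ hq1
  have hNQ : (N : ℝ) ≤ N * Q := le_mul_of_one_le_right (by linarith) hQ1
  have hDNQ : (q : ℝ) ^ lam ≤ N * Q := hD.trans (mul_le_mul_of_nonneg_right hKN' (by linarith))
  have hD0 : (0 : ℝ) < (q : ℝ) ^ lam := by positivity
  -- first part
  have hA1 : (K : ℝ) + (N + (q : ℝ) ^ lam) * (4 + 2 * Real.log ((q : ℝ) ^ lam)) ≤ 3 * (N * Q * B) := by
    have e1 : (N + (q : ℝ) ^ lam) * (4 + 2 * Real.log ((q : ℝ) ^ lam)) ≤ (2 * (N * Q)) * B := by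
      apply mul_le_mul (by linarith) (by linarith) (by linarith) (by positivity)
    have e2 : (N : ℝ) * Q ≤ N * Q * B := le_mul_of_one_le_right (by positivity) (by linarith)
    linarith
  have hA : ((K : ℝ) + (N + (q : ℝ) ^ lam) * (4 + 2 * Real.log ((q : ℝ) ^ lam))) * (q : ℝ) ^ lam *
      κ ^ (lam - 1) ≤ 3 * (N * Q * B) * (K * Q) * κ ^ (Nat.log q U) := by
    apply mul_le_mul
    · exact mul_le_mul hA1 hD hD0.le (by positivity)
    · exact pow_le_pow_of_le_one hκ0 hκ1 (by omega)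
    · positivity
    · positivity
  -- second part
  have hB1 : (q : ℝ) ^ kp * ((q : ℝ) ^ (4 * kp) * (q : ℝ) ^ lam + K * r) ≤
      K * (2 * (q : ℝ) ^ (7 * kp + 1)) := by
    have e1 : (q : ℝ) ^ kp * ((q : ℝ) ^ (4 * kp) * (q : ℝ) ^ lam + K * r) ≤
        (q : ℝ) ^ kp * ((q : ℝ) ^ (4 * kp) * (K * Q) + K * (q : ℝ) ^ kp) := by
      gcongr
    have e2 : (q : ℝ) ^ kp * ((q : ℝ) ^ (4 * kp) * (K * Q)) = K * (q : ℝ) ^ (7 * kp + 1) := by
      rw [hQ]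
      have : (q : ℝ) ^ (7 * kp + 1) = (q : ℝ) ^ kp * ((q : ℝ) ^ (4 * kp) * (q : ℝ) ^ (2 * kp + 1)) := by
        rw [← pow_add, ← pow_add]
        congr 1
        omega
      rw [this]
      ring
    have e3 : (q : ℝ) ^ kp * (K * (q : ℝ) ^ kp) ≤ K * (q : ℝ) ^ (7 * kp + 1) := by
      have : (q : ℝ) ^ kp * (q : ℝ) ^ kp ≤ (q : ℝ) ^ (7 * kp + 1) := by
        rw [← pow_add]
        exact pow_le_pow_right₀ hq1 (by omega)
      calc (q : ℝ) ^ kp * (K * (q : ℝ) ^ kp) = K * ((q : ℝ) ^ kp * (q : ℝ) ^ kp) := by ring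
        _ ≤ K * (q : ℝ) ^ (7 * kp + 1) := mul_le_mul_of_nonneg_left this (by linarith)
    have e4 : (q : ℝ) ^ kp * ((q : ℝ) ^ (4 * kp) * (K * Q) + K * (q : ℝ) ^ kp) =
        (q : ℝ) ^ kp * ((q : ℝ) ^ (4 * kp) * (K * Q)) + (q : ℝ) ^ kp * (K * (q : ℝ) ^ kp) := by ring
    rw [e4, e2] at e1
    linarith
  have hB2 : (K : ℝ) * κ ^ kp + K / (q : ℝ) ^ kp +
      (q : ℝ) ^ kp * ((q : ℝ) ^ (4 * kp) * (q : ℝ) ^ lam + K * r) * S ^ 2 ≤
      K * (κ ^ kp + 1 / (q : ℝ) ^ kp + 2 * (q : ℝ) ^ (7 * kp + 1) * S ^ 2) := by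
    have e1 : (q : ℝ) ^ kp * ((q : ℝ) ^ (4 * kp) * (q : ℝ) ^ lam + K * r) * S ^ 2 ≤
        K * (2 * (q : ℝ) ^ (7 * kp + 1)) * S ^ 2 := mul_le_mul_of_nonneg_right hB1 (by positivity)
    calc _ ≤ (K : ℝ) * κ ^ kp + K / (q : ℝ) ^ kp + K * (2 * (q : ℝ) ^ (7 * kp + 1)) * S ^ 2 := by
          linarith
      _ = _ := by ring
  have hB0 : 0 ≤ (K : ℝ) * κ ^ kp + K / (q : ℝ) ^ kp +
      (q : ℝ) ^ kp * ((q : ℝ) ^ (4 * kp) * (q : ℝ) ^ lam + K * r) * S ^ 2 := by positivity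
  have hBB : (N : ℝ) * ((q ^ lam).divisors.card : ℝ) *
      ((K : ℝ) * κ ^ kp + K / (q : ℝ) ^ kp +
      (q : ℝ) ^ kp * ((q : ℝ) ^ (4 * kp) * (q : ℝ) ^ lam + K * r) * S ^ 2) ≤
      N * ((q : ℝ) * (J + 1)) ^ q *
        (K * (κ ^ kp + 1 / (q : ℝ) ^ kp + 2 * (q : ℝ) ^ (7 * kp + 1) * S ^ 2)) := by
    apply mul_le_mul (mul_le_mul_of_nonneg_left hdiv (by linarith)) hB2 hB0 (by positivity)
  have hQQ : (q : ℝ) ^ (4 * kp + 2) = Q * Q := by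
    rw [hQ, ← pow_add]
    congr 1
    omega
  have hfin : (N : ℝ) * K * sig q J kp w U κ c =
      3 * (N * Q * B) * (K * Q) * κ ^ (Nat.log q U) + N * ((q : ℝ) * (J + 1)) ^ q *
        (K * (κ ^ kp + 1 / (q : ℝ) ^ kp + 2 * (q : ℝ) ^ (7 * kp + 1) * S ^ 2)) := by
    rw [sig, hQQ, ← hB, ← hSdef]
    ring
  rw [hfin]
  exact add_le_add hA hBB

theorem scale_norm_sum {p : ℕ} {L : ℝ} (hL : 0 ≤ L) (a : ℕ → ℂ)
    (ha : ∀ n, ‖a n‖ ≤ L * (n.divisors.card : ℝ)) (s : Finset ℕ) (M : ℕ) (hs : s ⊆ range (M + 1)) :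
    ∑ n ∈ s, ‖a n‖ ^ p ≤ L ^ p * ∑ n ∈ range (M + 1), ((n.divisors.card : ℝ)) ^ p := by
  rw [Finset.mul_sum]
  calc ∑ n ∈ s, ‖a n‖ ^ p ≤ ∑ n ∈ s, L ^ p * ((n.divisors.card : ℝ)) ^ p := by
        apply Finset.sum_le_sum
        intro n _
        rw [← mul_pow]
        exact pow_le_pow_left₀ (norm_nonneg _) (ha n) p
    _ ≤ ∑ n ∈ range (M + 1), L ^ p * ((n.divisors.card : ℝ)) ^ p := by
        apply Finset.sum_le_sum_of_subset_of_nonneg hs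
        intro n _ _
        positivity

theorem scale_tau2 {L G : ℝ} {M : ℕ} (hM : 1 ≤ M) (hL : 0 ≤ L) (hLG : L ≤ G)
    (hG : 1 + Real.log M ≤ G) :
    L ^ 2 * ∑ n ∈ range (M + 1), ((n.divisors.card : ℝ)) ^ 2 ≤ M * G ^ 6 := by
  have e1 := sum_tau2 M hM
  have e2 : 0 ≤ Real.log M := Real.log_natCast_nonneg _
  have e3 : (1 + Real.log M) ^ 4 ≤ G ^ 4 := pow_le_pow_left₀ (by linarith) hG 4
  have e4 : L ^ 2 ≤ G ^ 2 := pow_le_pow_left₀ hL hLG 2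
  have hM0 : (0 : ℝ) ≤ M := Nat.cast_nonneg _
  have e5 : ∑ n ∈ range (M + 1), ((n.divisors.card : ℝ)) ^ 2 ≤ M * G ^ 4 :=
    e1.trans (mul_le_mul_of_nonneg_left e3 hM0)
  have e6 : 0 ≤ ∑ n ∈ range (M + 1), ((n.divisors.card : ℝ)) ^ 2 :=
    Finset.sum_nonneg fun _ _ => by positivity
  calc L ^ 2 * ∑ n ∈ range (M + 1), ((n.divisors.card : ℝ)) ^ 2
      ≤ G ^ 2 * (M * G ^ 4) := mul_le_mul e4 e5 e6 (sq_nonneg _)
    _ = M * G ^ 6 := by ring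

theorem scale_tau4 {L G : ℝ} {M : ℕ} (hM : 1 ≤ M) (hL : 0 ≤ L) (hLG : L ≤ G)
    (hG : 1 + Real.log M ≤ G) :
    L ^ 4 * ∑ n ∈ range (M + 1), ((n.divisors.card : ℝ)) ^ 4 ≤ M * G ^ 20 := by
  have e1 := sum_tau4 M hM
  have e2 : 0 ≤ Real.log M := Real.log_natCast_nonneg _
  have e3 : (1 + Real.log M) ^ 16 ≤ G ^ 16 := pow_le_pow_left₀ (by linarith) hG 16
  have e4 : L ^ 4 ≤ G ^ 4 := pow_le_pow_left₀ hL hLG 4
  have hM0 : (0 : ℝ) ≤ M := Nat.cast_nonneg _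
  have e5 : ∑ n ∈ range (M + 1), ((n.divisors.card : ℝ)) ^ 4 ≤ M * G ^ 16 :=
    e1.trans (mul_le_mul_of_nonneg_left e3 hM0)
  have e6 : 0 ≤ ∑ n ∈ range (M + 1), ((n.divisors.card : ℝ)) ^ 4 :=
    Finset.sum_nonneg fun _ _ => by positivity
  calc L ^ 4 * ∑ n ∈ range (M + 1), ((n.divisors.card : ℝ)) ^ 4
      ≤ G ^ 4 * (M * G ^ 16) := mul_le_mul e4 e5 e6 (by positivity)
    _ = M * G ^ 20 := by ring

theorem scale_sqrt {A Bq : ℝ} (hA : 0 ≤ A) {x : ℝ} (h : x ≤ A ^ 2 * Bq) :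
    Real.sqrt x ≤ A * Real.sqrt Bq := by
  refine (Real.sqrt_le_sqrt h).trans (le_of_eq ?_)
  rw [Real.sqrt_mul (by positivity), Real.sqrt_sq hA]

theorem scale_final (k n h σ G a2 b2 b4 s2 T : ℝ) (hk : 1 ≤ k) (hn : 1 ≤ n) (hh : 1 ≤ h)
    (hG : 1 ≤ G) (hσ : 0 ≤ σ) (ha2 : a2 ≤ 2 * k * G ^ 6) (ha20 : 0 ≤ a2) (hb2 : b2 ≤ n * G ^ 6)
    (hb4 : b4 ≤ n * G ^ 20)
    (hT : T ≤ k ^ 2 * n * (2 * σ + 16 / h)) (hT0 : 0 ≤ T)
    (hs : s2 ≤ a2 * (2 * n / h) * (k * b2 + 2 * h * Real.sqrt (b4 * T))) :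
    s2 ≤ (k * n) ^ 2 * G ^ 16 * (4 / h + 8 * Real.sqrt (2 * σ + 16 / h)) := by
  have e1 : Real.sqrt (b4 * T) ≤ (n * k * G ^ 10) * Real.sqrt (2 * σ + 16 / h) := by
    apply scale_sqrt (by positivity)
    calc b4 * T ≤ (n * G ^ 20) * (k ^ 2 * n * (2 * σ + 16 / h)) :=
          mul_le_mul hb4 hT hT0 (by positivity)
      _ = (n * k * G ^ 10) ^ 2 * (2 * σ + 16 / h) := by ring
  set R := Real.sqrt (2 * σ + 16 / h) with hR
  have hR0 : 0 ≤ R := Real.sqrt_nonneg _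
  have e2 : k * b2 + 2 * h * Real.sqrt (b4 * T) ≤
      k * (n * G ^ 6) + 2 * h * ((n * k * G ^ 10) * R) := by
    have f1 : k * b2 ≤ k * (n * G ^ 6) := mul_le_mul_of_nonneg_left hb2 (by linarith)
    have f2 : 2 * h * Real.sqrt (b4 * T) ≤ 2 * h * ((n * k * G ^ 10) * R) :=
      mul_le_mul_of_nonneg_left e1 (by linarith)
    linarith
  have e3 : a2 * (2 * n / h) ≤ 2 * k * G ^ 6 * (2 * n / h) :=
    mul_le_mul_of_nonneg_right ha2 (by positivity)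
  have hG6 : G ^ 12 ≤ G ^ 16 := pow_le_pow_right₀ hG (by norm_num)
  calc s2 ≤ a2 * (2 * n / h) * (k * b2 + 2 * h * Real.sqrt (b4 * T)) := hs
    _ ≤ a2 * (2 * n / h) * (k * (n * G ^ 6) + 2 * h * ((n * k * G ^ 10) * R)) :=
        mul_le_mul_of_nonneg_left e2 (by positivity)
    _ ≤ 2 * k * G ^ 6 * (2 * n / h) * (k * (n * G ^ 6) + 2 * h * ((n * k * G ^ 10) * R)) :=
        mul_le_mul_of_nonneg_right e3 (by positivity)
    _ = (k * n) ^ 2 * (4 / h * G ^ 12 + 8 * R * G ^ 16 * (h / h)) := by ring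
    _ = (k * n) ^ 2 * (4 / h * G ^ 12 + 8 * R * G ^ 16) := by
        rw [div_self (by linarith : h ≠ 0), mul_one]
    _ ≤ (k * n) ^ 2 * (4 / h * G ^ 16 + 8 * R * G ^ 16) := by
        have : 4 / h * G ^ 12 ≤ 4 / h * G ^ 16 := mul_le_mul_of_nonneg_left hG6 (by positivity)
        apply mul_le_mul_of_nonneg_left _ (by positivity)
        linarith
    _ = (k * n) ^ 2 * G ^ 16 * (4 / h + 8 * R) := by ring

theorem sig_nonneg (J kp w U : ℕ) (κ c : ℝ) (hq : 2 ≤ q) (hκ0 : 0 ≤ κ) :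
    0 ≤ sig q J kp w U κ c := by
  have hq1 : (1 : ℝ) ≤ q := by
    have : 1 ≤ q := by omega
    exact_mod_cast this
  have h1 : 0 ≤ Real.log ((q : ℝ) ^ J) := Real.log_nonneg (one_le_pow₀ hq1)
  unfold sig
  positivity

theorem tii_explicit (hq : 2 ≤ q) (hφ : Uni φ) (κ c : ℝ) (hκ0 : 0 ≤ κ) (hκ1 : κ ≤ 1)
    (hS : Str q φ κ) (hc0 : 0 ≤ c) (hc1 : c ≤ 1) (J kp w U : ℕ) (hw : 1 ≤ w) (hkp : 1 ≤ kp)
    (hkJ : 4 * kp + 2 ≤ J) (hU : 2 ≤ U)
    (hsup : ∀ lam δ c' : ℕ, lam ≤ J → δ ≤ lam → PP q φ lam δ c' ≤ (1 - c) ^ (δ / w)) :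
    TIIB (fd q φ J) (q ^ J) U (2 * (q : ℝ) ^ J * (1 + Real.log ((q : ℝ) ^ J)) ^ 8 *
      Real.sqrt (4 / (q : ℝ) ^ kp +
        8 * Real.sqrt (2 * sig q J kp w U κ c + 16 / (q : ℝ) ^ kp))) := by
  intro a b ha hb x hx K hUK hKK
  set X := q ^ J with hX
  set N := X / K + 1 with hN
  set lam := Nat.clog q (K * q ^ (2 * kp)) with hlamdef
  have hq1 : 1 < q := by omega
  have hqr : (1 : ℝ) ≤ q := by exact_mod_cast hq1.le
  have hK2 : 2 ≤ K := hU.trans hUK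
  have hX0 : 0 < X := by positivity
  have hXr : ((X : ℕ) : ℝ) = (q : ℝ) ^ J := by rw [hX]; push_cast; rfl
  have hqkp : 1 ≤ q ^ (2 * kp) := Nat.one_le_pow _ _ (by omega)
  -- `lam`
  have hD1 : K * q ^ (2 * kp) ≤ q ^ lam := Nat.le_pow_clog hq1 _
  have hlam1 : 1 ≤ lam := by
    rw [hlamdef]
    apply Nat.clog_pos hq1
    nlinarith
  have hD2 : q ^ (lam - 1) < K * q ^ (2 * kp) := by
    apply Nat.pow_pred_clog_lt_self hq1
    nlinarith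
  have hD3 : q ^ lam ≤ K * q ^ (2 * kp + 1) := by
    have h1 : q ^ lam = q ^ (lam - 1) * q := by
      rw [← pow_succ]
      congr 1
      omega
    rw [h1, pow_succ, ← mul_assoc]
    exact Nat.mul_le_mul_right _ hD2.le
  have hlamJ : lam ≤ J := by
    apply Nat.clog_le_of_le_pow
    have h1 : (K * q ^ (2 * kp)) * (K * q ^ (2 * kp)) ≤ X * X := by
      calc (K * q ^ (2 * kp)) * (K * q ^ (2 * kp)) = (K * K) * q ^ (4 * kp) := by
            rw [show 4 * kp = 2 * kp + 2 * kp by ring, pow_add]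
            ring
        _ ≤ X * X := Nat.mul_le_mul hKK (Nat.pow_le_pow_right (by omega) (by omega))
    exact Nat.mul_self_le_mul_self_iff.1 h1
  have hlogU : Nat.log q U + 2 * kp ≤ lam := by
    have h1 : q ^ (Nat.log q U + 2 * kp) ≤ q ^ lam := by
      rw [pow_add]
      refine le_trans (Nat.mul_le_mul_right _ ?_) hD1
      exact (Nat.pow_log_le_self q (by omega)).trans hUK
    exact (Nat.pow_le_pow_iff_right hq1).1 h1
  -- `N`
  have hKX : K ≤ X / K := (Nat.le_div_iff_mul_le (by omega)).2 hKK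
  have hKN : K ≤ N := by omega
  have hNK : X ≤ N * K := by
    have := Nat.lt_div_mul_add (a := X) (b := K) (by omega)
    rw [hN, Nat.add_mul, Nat.one_mul]
    exact this.le
  have hKN2 : K * N ≤ 2 * X := by
    have h1 : K * (X / K) ≤ X := Nat.mul_div_le X K
    have h2 : K ≤ X := by nlinarith
    rw [hN, Nat.mul_add, Nat.mul_one]
    omega
  have hqN : q ^ (2 * kp + 1) ≤ N := by
    have h1 : q ^ (2 * kp + 1) * q ^ (2 * kp + 1) ≤ N * N := by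
      calc q ^ (2 * kp + 1) * q ^ (2 * kp + 1) = q ^ (4 * kp + 2) := by
            rw [← pow_add]
            congr 1
            omega
        _ ≤ X := Nat.pow_le_pow_right (by omega) hkJ
        _ ≤ N * K := hNK
        _ ≤ N * N := Nat.mul_le_mul_left _ hKN
    exact Nat.mul_self_le_mul_self_iff.1 h1
  have hHN : q ^ kp ≤ N :=
    (Nat.pow_le_pow_right (by omega) (by omega)).trans hqN
  have h2K : 2 * K ≤ X := by nlinarith
  -- casts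
  have hk1 : (1 : ℝ) ≤ K := by
    have : 1 ≤ K := by omega
    exact_mod_cast this
  have hn1 : (1 : ℝ) ≤ N := by
    have : 1 ≤ N := by omega
    exact_mod_cast this
  have hh1 : (1 : ℝ) ≤ (q : ℝ) ^ kp := one_le_pow₀ hqr
  have hX1 : (1 : ℝ) ≤ X := by exact_mod_cast hX0
  have hL0 : 0 ≤ Real.log X := Real.log_nonneg hX1
  set G := 1 + Real.log X with hG
  have hG1 : 1 ≤ G := by linarith
  have hLG : Real.log X ≤ G := by linarith
  have hσ := sig_nonneg (q := q) J kp w U κ c hq hκ0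
  have hD3' : (q : ℝ) ^ lam ≤ K * (q : ℝ) ^ (2 * kp + 1) := by exact_mod_cast hD3
  -- the type II inequality
  have h1 := typeII φ hq hφ J lam N x (q ^ kp) K (N * K * sig q J kp w U κ c) hlamJ
    (Nat.one_le_pow _ _ (by omega)) hHN (by omega)
    (fun r hr hrH a' c' hac => scale_core φ hq hφ κ c hκ0 hκ1 hS hc0 hc1 J kp w U K N lam hkp hsup
      hlamJ (by omega) hKN hD3' hlogU r hr hrH a' c' hac) a b
  -- the sums over the coefficients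
  have ha2 : ∑ m ∈ Ioc K (2 * K), ‖a m‖ ^ 2 ≤ 2 * K * G ^ 6 := by
    refine (scale_norm_sum hL0 a ha (Ioc K (2 * K)) (2 * K) ?_).trans ?_
    · intro m hm
      have := Finset.mem_Ioc.1 hm
      exact Finset.mem_range.2 (by omega)
    · have e2 : Real.log ((2 * K : ℕ) : ℝ) ≤ Real.log X := by
        apply Real.log_le_log
        · have : 0 < 2 * K := by omega
          exact_mod_cast this
        · exact_mod_cast h2K
      refine (scale_tau2 (by omega) hL0 hLG (by linarith)).trans (le_of_eq ?_)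
      push_cast
      ring
  have hXK1 : 1 ≤ X / K := by omega
  have hXKX : ((X / K : ℕ) : ℝ) ≤ N := by
    rw [hN]
    push_cast
    linarith
  have elog : Real.log ((X / K : ℕ) : ℝ) ≤ Real.log X := by
    apply Real.log_le_log
    · exact_mod_cast hXK1
    · exact_mod_cast Nat.div_le_self X K
  have elog0 : 0 ≤ Real.log ((X / K : ℕ) : ℝ) := Real.log_natCast_nonneg _
  have hb2 : ∑ n ∈ range N, ‖b n‖ ^ 2 ≤ N * G ^ 6 := by
    refine (scale_norm_sum hL0 b hb (range N) (X / K) (Finset.Subset.refl _)).trans ?_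
    exact (scale_tau2 hXK1 hL0 hLG (by linarith)).trans
      (mul_le_mul_of_nonneg_right hXKX (by positivity))
  have hb4 : ∑ n ∈ range N, ‖b n‖ ^ 4 ≤ N * G ^ 20 := by
    refine (scale_norm_sum hL0 b hb (range N) (X / K) (Finset.Subset.refl _)).trans ?_
    exact (scale_tau4 hXK1 hL0 hLG (by linarith)).trans
      (mul_le_mul_of_nonneg_right hXKX (by positivity))
  -- the error terms
  have hT : 2 * (K : ℝ) * (N * K * sig q J kp w U κ c) +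
      8 * (K : ℝ) ^ 2 * (q : ℝ) ^ kp * ((x : ℝ) / (q : ℝ) ^ lam + 1) ≤
      (K : ℝ) ^ 2 * N * (2 * sig q J kp w U κ c + 16 / (q : ℝ) ^ kp) := by
    have hD1' : (K : ℝ) * (q : ℝ) ^ (2 * kp) ≤ (q : ℝ) ^ lam := by exact_mod_cast hD1
    have hxNK : (x : ℝ) ≤ N * K := by
      have : x ≤ N * K := hx.trans hNK
      exact_mod_cast this
    have hH2 : (q : ℝ) ^ (2 * kp) = (q : ℝ) ^ kp * (q : ℝ) ^ kp := by
      rw [← pow_add]
      congr 1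
      omega
    have hH2N : (q : ℝ) ^ (2 * kp) ≤ N := by
      have : q ^ (2 * kp) ≤ N := (Nat.pow_le_pow_right (by omega) (by omega)).trans hqN
      exact_mod_cast this
    set h := (q : ℝ) ^ kp with hh
    have hh0 : 0 < h := by linarith
    have hx1 : (x : ℝ) / (q : ℝ) ^ lam ≤ N / (h * h) := by
      rw [div_le_div_iff₀ (by positivity) (by positivity), ← hH2]
      calc (x : ℝ) * (q : ℝ) ^ (2 * kp) ≤ (N * K) * (q : ℝ) ^ (2 * kp) :=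
            mul_le_mul_of_nonneg_right hxNK (by positivity)
        _ = N * (K * (q : ℝ) ^ (2 * kp)) := by ring
        _ ≤ N * (q : ℝ) ^ lam := mul_le_mul_of_nonneg_left hD1' (by linarith)
    have hx2 : (1 : ℝ) ≤ N / (h * h) := by
      rw [le_div_iff₀ (by positivity), one_mul, ← hH2]
      exact hH2N
    have hx3 : h * ((x : ℝ) / (q : ℝ) ^ lam + 1) ≤ 2 * N / h := by
      calc h * ((x : ℝ) / (q : ℝ) ^ lam + 1) ≤ h * (2 * (N / (h * h))) :=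
            mul_le_mul_of_nonneg_left (by linarith) hh0.le
        _ = 2 * N / h := by
            field_simp
    calc 2 * (K : ℝ) * (N * K * sig q J kp w U κ c) +
          8 * (K : ℝ) ^ 2 * h * ((x : ℝ) / (q : ℝ) ^ lam + 1)
        = 2 * (K : ℝ) ^ 2 * N * sig q J kp w U κ c +
          8 * (K : ℝ) ^ 2 * (h * ((x : ℝ) / (q : ℝ) ^ lam + 1)) := by ring
      _ ≤ 2 * (K : ℝ) ^ 2 * N * sig q J kp w U κ c + 8 * (K : ℝ) ^ 2 * (2 * N / h) := by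
          have := mul_le_mul_of_nonneg_left hx3 (by positivity : (0 : ℝ) ≤ 8 * (K : ℝ) ^ 2)
          linarith
      _ = (K : ℝ) ^ 2 * N * (2 * sig q J kp w U κ c + 16 / h) := by ring
  have hcast : ((q ^ kp : ℕ) : ℝ) = (q : ℝ) ^ kp := Nat.cast_pow q kp
  rw [hcast] at h1
  have hA20 : 0 ≤ ∑ m ∈ Ioc K (2 * K), ‖a m‖ ^ 2 := Finset.sum_nonneg fun _ _ => sq_nonneg _
  have hT0 : 0 ≤ 2 * (K : ℝ) * (N * K * sig q J kp w U κ c) +
      8 * (K : ℝ) ^ 2 * (q : ℝ) ^ kp * ((x : ℝ) / (q : ℝ) ^ lam + 1) := by positivity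
  have h2 := scale_final (K : ℝ) N ((q : ℝ) ^ kp) (sig q J kp w U κ c) G _ _ _ _ _ hk1 hn1
    hh1 hG1 hσ ha2 hA20 hb2 hb4 hT hT0 h1
  clear h1 ha2 hb2 hb4 hT hT0 hA20
  have h3 : ‖∑ m ∈ Ioc K (2 * K), ∑ n ∈ (range N).filter (fun n => m * n < x),
      a m * b n * fd q φ J (m * n)‖ ≤ (K * N * G ^ 8) * Real.sqrt (4 / (q : ℝ) ^ kp +
        8 * Real.sqrt (2 * sig q J kp w U κ c + 16 / (q : ℝ) ^ kp)) := by
    rw [← Real.sqrt_sq (norm_nonneg (∑ m ∈ Ioc K (2 * K),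
      ∑ n ∈ (range N).filter (fun n => m * n < x), a m * b n * fd q φ J (m * n)))]
    apply scale_sqrt (by positivity)
    refine h2.trans (le_of_eq ?_)
    ring
  refine h3.trans ?_
  apply mul_le_mul_of_nonneg_right _ (Real.sqrt_nonneg _)
  rw [← hXr]
  apply mul_le_mul_of_nonneg_right _ (by positivity)
  exact_mod_cast hKN2

end Pool.Agent.H10.RP
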