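import Pool.Agent.H10.RP.Carry

/-!
# Reversed primes: type II sums (job RP-5)

PROOF of `typeII`. Let `f = fd q φ J`, `D = q ^ lam`. Cauchy over `m`:
`|S|² ≤ (∑ |a m|²) ∑_m |∑_n z m n|²` with `z m n = if m * n < x then b n * f (m n) else 0`.
`vdc_family` (and `(N + H) / H ≤ 2 N / H`, `|f| = 1`):
`∑_m |∑_n z m n|² ≤ (2 N / H) (K ∑ |b n|² + 2 ∑_{1 ≤ r < H} W r)`,
`W r = |∑_{n < N - r} b (n + r) conj (b n) ∑_{K < m ≤ 2K, m (n + r) < x} f (m (n + r)) conj (f (m n))|`.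
Let `U n = |∑_{K < m ≤ 2K, m (n + r) < x} fd lam (m (n + r)) conj (fd lam (m n))|` (an interval
of `m`: `Ico (K + 1) (c n)` with `c n - (K + 1) ≤ K`, e.g. `c n = min (2 K + 1) ((x - 1) / (n + r) + 1)`,
for `x ≥ 1`; `x = 0` is trivial) and
`E n = #{m ∈ (K, 2K] : m n < x, D ≤ (m n) % D + m r}`. By `carry_eq` (`m (n + r) = m n + m r`) the inner
sum is at most `U n + 2 E n`. By Cauchy
`W r ≤ ∑ |b (n + r) b n| (U n + 2 E n) ≤ (∑ |b n|⁴)^(1/2) (∑ (U n + 2 E n)²)^(1/2)` and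
`(U + 2E)² ≤ 2 U² + 8 E² ≤ 2 K U + 8 K E` as `U, E ≤ K`; `∑_n U n ≤ Tb` (hypothesis `hT`; `fd lam` and
`range N`), `∑_n E n ≤ ∑_m (x / D + 1) r ≤ K (x / D + 1) H` (`carry_count`). (`∑_n |b (n + r)|² |b n|² ≤
∑ |b n|⁴` by Cauchy or AM-GM.)
-/

set_option autoImplicit false

open Finset
open scoped ComplexConjugate

namespace Pool.Agent.H10.RP

variable {q : ℕ} (φ : ℕ → ℕ → ℂ)

/-- the cut off -/
def t2c (K x r n : ℕ) : ℕ := min (2 * K + 1) ((x - 1) / (n + r) + 1)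

theorem t2c_eq (K x r n : ℕ) (hr : 1 ≤ r) :
    (Ioc K (2 * K)).filter (fun m => m * (n + r) < x) = Ico (K + 1) (t2c K x r n) := by
  ext m
  simp only [mem_filter, mem_Ioc, mem_Ico, t2c, lt_min_iff]
  have hnr : 0 < n + r := by omega
  rcases Nat.eq_zero_or_pos x with hx | hx
  · subst hx
    simp only [Nat.not_lt_zero, and_false, false_iff, not_and]
    intro h1
    simp
    omega
  · have h1 : m * (n + r) < x ↔ m < (x - 1) / (n + r) + 1 := by
      rw [Nat.lt_succ_iff, Nat.le_div_iff_mul_le hnr]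
      omega
    rw [h1]
    omega

/-- number of bad m -/
def t2E (q : ℕ) (K lam x r n : ℕ) : ℕ :=
  ((Ioc K (2 * K)).filter (fun m => m * n < x ∧ q ^ lam ≤ (m * n) % q ^ lam + m * r)).card

theorem t2E_le (K lam x r n : ℕ) : t2E q K lam x r n ≤ K := by
  unfold t2E
  refine (card_filter_le _ _).trans ?_
  rw [Nat.card_Ioc]
  omega

theorem t2E_sum (hq : 2 ≤ q) (K lam x r N H : ℕ) (hrH : r < H) :
    ∑ n ∈ range N, (t2E q K lam x r n : ℝ) ≤ K * (((x : ℝ) / (q : ℝ) ^ lam + 1) * H) := by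
  have h1 : ∑ n ∈ range N, (t2E q K lam x r n : ℝ) =
      ∑ m ∈ Ioc K (2 * K), (((range N).filter
        (fun n => m * n < x ∧ q ^ lam ≤ (m * n) % q ^ lam + m * r)).card : ℝ) := by
    unfold t2E
    simp only [card_filter]
    push_cast
    rw [sum_comm]
  rw [h1]
  have h2 : ∀ m ∈ Ioc K (2 * K), (((range N).filter
        (fun n => m * n < x ∧ q ^ lam ≤ (m * n) % q ^ lam + m * r)).card : ℝ) ≤
        ((x : ℝ) / (q : ℝ) ^ lam + 1) * H := by
    intro m hm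
    have hm1 : 1 ≤ m := by
      have := (mem_Ioc.1 hm).1
      omega
    refine (carry_count hq lam m r x N hm1).trans ?_
    apply mul_le_mul_of_nonneg_left
    · exact_mod_cast hrH.le
    · positivity
  refine (sum_le_sum h2).trans ?_
  rw [sum_const, Nat.card_Ioc, nsmul_eq_mul]
  have : 2 * K - K = K := by omega
  rw [this]

theorem t2_inner (hq : 2 ≤ q) (hφ : Uni φ) (J lam K x r n : ℕ) (hlam : lam ≤ J) (hK : 1 ≤ K)
    (hr : 1 ≤ r) :
    ‖∑ m ∈ (Ioc K (2 * K)).filter (fun m => m * (n + r) < x),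
        fd q φ J (m * (n + r)) * conj (fd q φ J (m * n))‖ ≤
      ‖∑ m ∈ Ico (K + 1) (t2c K x r n),
        fd q φ lam (m * (n + r)) * conj (fd q φ lam (m * n))‖ + 2 * t2E q K lam x r n := by
  rw [← t2c_eq K x r n hr]
  set M := (Ioc K (2 * K)).filter (fun m => m * (n + r) < x) with hM
  have hdiff : ∑ m ∈ M, fd q φ J (m * (n + r)) * conj (fd q φ J (m * n)) =
      ∑ m ∈ M, fd q φ lam (m * (n + r)) * conj (fd q φ lam (m * n)) +
      ∑ m ∈ M.filter (fun m => q ^ lam ≤ (m * n) % q ^ lam + m * r),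
        (fd q φ J (m * (n + r)) * conj (fd q φ J (m * n)) -
          fd q φ lam (m * (n + r)) * conj (fd q φ lam (m * n))) := by
    rw [sum_filter (s := M), ← sum_add_distrib]
    refine sum_congr rfl fun m _ => ?_
    split_ifs with h
    · ring
    · push Not at h
      have h1 := carry_eq φ hq hφ J lam (m * n) (m * r) hlam h
      rw [← mul_add] at h1
      rw [h1, add_zero]
  rw [hdiff]
  refine (norm_add_le _ _).trans (add_le_add le_rfl ?_)
  refine (norm_sum_le _ _).trans ?_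
  have h2 : ∀ m ∈ M.filter (fun m => q ^ lam ≤ (m * n) % q ^ lam + m * r),
      ‖fd q φ J (m * (n + r)) * conj (fd q φ J (m * n)) -
          fd q φ lam (m * (n + r)) * conj (fd q φ lam (m * n))‖ ≤ 2 := by
    intro m _
    refine (norm_sub_le _ _).trans ?_
    rw [norm_mul, norm_mul, RCLike.norm_conj, RCLike.norm_conj, norm_fd φ hφ, norm_fd φ hφ,
      norm_fd φ hφ, norm_fd φ hφ]
    norm_num
  refine (sum_le_sum h2).trans ?_
  rw [sum_const, nsmul_eq_mul, mul_comm]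
  apply mul_le_mul_of_nonneg_left _ (by norm_num)
  have h3 : M.filter (fun m => q ^ lam ≤ (m * n) % q ^ lam + m * r) ⊆
      (Ioc K (2 * K)).filter (fun m => m * n < x ∧ q ^ lam ≤ (m * n) % q ^ lam + m * r) := by
    intro m hm
    simp only [hM, mem_filter] at hm ⊢
    refine ⟨hm.1.1, ?_, hm.2⟩
    refine lt_of_le_of_lt ?_ hm.1.2
    exact Nat.mul_le_mul_left m (by omega)
  exact_mod_cast card_le_card h3

theorem t2_U_le (hφ : Uni φ) (K lam x r n : ℕ) :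
    ‖∑ m ∈ Ico (K + 1) (t2c K x r n),
        fd q φ lam (m * (n + r)) * conj (fd q φ lam (m * n))‖ ≤ K := by
  refine (norm_sum_le _ _).trans ?_
  have h2 : ∀ m ∈ Ico (K + 1) (t2c K x r n),
      ‖fd q φ lam (m * (n + r)) * conj (fd q φ lam (m * n))‖ ≤ 1 := by
    intro m _
    rw [norm_mul, RCLike.norm_conj, norm_fd φ hφ, norm_fd φ hφ]
    norm_num
  refine (sum_le_sum h2).trans ?_
  rw [sum_const, nsmul_eq_mul, mul_one, Nat.card_Ico]
  have : t2c K x r n - (K + 1) ≤ K := by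
    unfold t2c
    omega
  exact_mod_cast this

/-- the bound for one shift -/
theorem t2_shift (hq : 2 ≤ q) (hφ : Uni φ) (J lam N x H K r : ℕ) (Tb : ℝ) (hlam : lam ≤ J)
    (hK : 1 ≤ K) (hr : 1 ≤ r) (hrH : r < H)
    (hT : ∀ a c : ℕ → ℕ, (∀ n, (c n : ℝ) - a n ≤ K) →
      ∑ n ∈ range N, ‖∑ m ∈ Ico (a n) (c n),
        fd q φ lam (m * (n + r)) * conj (fd q φ lam (m * n))‖ ≤ Tb)
    (b : ℕ → ℂ) :
    ‖∑ m ∈ Ioc K (2 * K), ∑ n ∈ range (N - r),
      (if m * (n + r) < x then b (n + r) * fd q φ J (m * (n + r)) else 0) *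
        conj (if m * n < x then b n * fd q φ J (m * n) else 0)‖ ≤
      Real.sqrt ((∑ n ∈ range N, ‖b n‖ ^ 4) *
        (2 * K * Tb + 8 * (K : ℝ) ^ 2 * H * ((x : ℝ) / (q : ℝ) ^ lam + 1))) := by
  set U : ℕ → ℝ := fun n => ‖∑ m ∈ Ico (K + 1) (t2c K x r n),
        fd q φ lam (m * (n + r)) * conj (fd q φ lam (m * n))‖ with hU
  have h1 : ∑ m ∈ Ioc K (2 * K), ∑ n ∈ range (N - r),
      (if m * (n + r) < x then b (n + r) * fd q φ J (m * (n + r)) else 0) *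
        conj (if m * n < x then b n * fd q φ J (m * n) else 0) =
      ∑ n ∈ range (N - r), (b (n + r) * conj (b n)) *
        ∑ m ∈ (Ioc K (2 * K)).filter (fun m => m * (n + r) < x),
          fd q φ J (m * (n + r)) * conj (fd q φ J (m * n)) := by
    rw [sum_comm]
    refine sum_congr rfl fun n _ => ?_
    rw [mul_sum, sum_filter]
    refine sum_congr rfl fun m _ => ?_
    by_cases hc : m * (n + r) < x
    · have hc' : m * n < x := lt_of_le_of_lt (Nat.mul_le_mul_left m (by omega)) hc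
      rw [if_pos hc, if_pos hc', if_pos hc, map_mul]
      ring
    · rw [if_neg hc, if_neg hc, zero_mul]
  rw [h1]
  have h2 : ‖∑ n ∈ range (N - r), (b (n + r) * conj (b n)) *
        ∑ m ∈ (Ioc K (2 * K)).filter (fun m => m * (n + r) < x),
          fd q φ J (m * (n + r)) * conj (fd q φ J (m * n))‖ ≤
      ∑ n ∈ range (N - r), (‖b (n + r)‖ * ‖b n‖) * (U n + 2 * t2E q K lam x r n) := by
    refine (norm_sum_le _ _).trans (sum_le_sum fun n _ => ?_)
    rw [norm_mul, norm_mul, RCLike.norm_conj]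
    apply mul_le_mul_of_nonneg_left (t2_inner φ hq hφ J lam K x r n hlam hK hr) (by positivity)
  refine h2.trans ?_
  have h3 := sum_mul_sq_le_sq_mul_sq (range (N - r)) (fun n => ‖b (n + r)‖ * ‖b n‖)
    (fun n => U n + 2 * t2E q K lam x r n)
  have hS0 : 0 ≤ ∑ n ∈ range (N - r), (‖b (n + r)‖ * ‖b n‖) * (U n + 2 * t2E q K lam x r n) := by
    refine sum_nonneg fun n _ => ?_
    have : 0 ≤ U n := norm_nonneg _
    positivity
  -- the fourth moment
  have h4 : ∑ n ∈ range (N - r), (‖b (n + r)‖ * ‖b n‖) ^ 2 ≤ ∑ n ∈ range N, ‖b n‖ ^ 4 := by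
    have h5 : ∀ n ∈ range (N - r), (‖b (n + r)‖ * ‖b n‖) ^ 2 ≤
        (‖b (n + r)‖ ^ 4 + ‖b n‖ ^ 4) / 2 := by
      intro n _
      nlinarith [sq_nonneg (‖b (n + r)‖ ^ 2 - ‖b n‖ ^ 2)]
    refine (sum_le_sum h5).trans ?_
    rw [← sum_div, sum_add_distrib]
    have h6 : ∑ n ∈ range (N - r), ‖b n‖ ^ 4 ≤ ∑ n ∈ range N, ‖b n‖ ^ 4 :=
      sum_le_sum_of_subset_of_nonneg (range_subset_range.2 (Nat.sub_le _ _))
        (fun n _ _ => by positivity)
    have h7 : ∑ n ∈ range (N - r), ‖b (n + r)‖ ^ 4 ≤ ∑ n ∈ range N, ‖b n‖ ^ 4 := by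
      by_cases hrN : r ≤ N
      · have h8 := sum_range_add (fun n => ‖b n‖ ^ 4) r (N - r)
        have h9 : r + (N - r) = N := by omega
        rw [h9] at h8
        have h10 : 0 ≤ ∑ n ∈ range r, ‖b n‖ ^ 4 := sum_nonneg fun n _ => by positivity
        have h11 : ∑ n ∈ range (N - r), ‖b (n + r)‖ ^ 4 = ∑ n ∈ range (N - r), ‖b (r + n)‖ ^ 4 :=
          sum_congr rfl fun n _ => by rw [add_comm]
        linarith
      · have : N - r = 0 := by omega
        rw [this, range_zero, sum_empty]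
        exact sum_nonneg fun n _ => by positivity
    linarith
  have h5 : ∑ n ∈ range (N - r), (U n + 2 * t2E q K lam x r n) ^ 2 ≤
      2 * K * Tb + 8 * (K : ℝ) ^ 2 * H * ((x : ℝ) / (q : ℝ) ^ lam + 1) := by
    have h6 : ∀ n, (U n + 2 * t2E q K lam x r n) ^ 2 ≤
        2 * K * U n + 8 * K * t2E q K lam x r n := by
      intro n
      have hU0 : 0 ≤ U n := norm_nonneg _
      have hUK : U n ≤ K := t2_U_le φ hφ K lam x r n
      have hE0 : (0 : ℝ) ≤ t2E q K lam x r n := Nat.cast_nonneg _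
      have hEK : (t2E q K lam x r n : ℝ) ≤ K := by exact_mod_cast t2E_le K lam x r n
      nlinarith [sq_nonneg (U n - 2 * t2E q K lam x r n), mul_le_mul_of_nonneg_left hUK hU0,
        mul_le_mul_of_nonneg_left hEK hE0]
    have h7 : ∑ n ∈ range (N - r), (U n + 2 * t2E q K lam x r n) ^ 2 ≤
        ∑ n ∈ range N, (U n + 2 * t2E q K lam x r n) ^ 2 :=
      sum_le_sum_of_subset_of_nonneg (range_subset_range.2 (Nat.sub_le _ _))
        (fun n _ _ => by positivity)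
    refine h7.trans ((sum_le_sum fun n _ => h6 n).trans ?_)
    rw [sum_add_distrib, ← mul_sum, ← mul_sum]
    have h8 : ∑ n ∈ range N, U n ≤ Tb := by
      apply hT (fun _ => K + 1) (fun n => t2c K x r n)
      intro n
      have : t2c K x r n ≤ 2 * K + 1 := min_le_left _ _
      have h9 : (t2c K x r n : ℝ) ≤ 2 * K + 1 := by exact_mod_cast this
      push_cast
      linarith
    have h9 := t2E_sum hq K lam x r N H hrH
    have hK0 : (0 : ℝ) ≤ K := Nat.cast_nonneg _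
    have h10 := mul_le_mul_of_nonneg_left h8 (by positivity : (0 : ℝ) ≤ 2 * K)
    have h11 := mul_le_mul_of_nonneg_left h9 (by positivity : (0 : ℝ) ≤ 8 * K)
    have h12 : 8 * (K : ℝ) * (K * (((x : ℝ) / (q : ℝ) ^ lam + 1) * H)) =
      8 * (K : ℝ) ^ 2 * H * ((x : ℝ) / (q : ℝ) ^ lam + 1) := by ring
    linarith
  apply Real.le_sqrt_of_sq_le
  refine h3.trans (mul_le_mul h4 h5 (sum_nonneg fun n _ => sq_nonneg _) ?_)
  exact sum_nonneg fun n _ => by positivity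

theorem typeII (hq : 2 ≤ q) (hφ : Uni φ) (J lam N x H K : ℕ) (Tb : ℝ) (hlam : lam ≤ J)
    (hH : 1 ≤ H) (hHN : H ≤ N) (hK : 1 ≤ K)
    (hT : ∀ r : ℕ, 1 ≤ r → r < H → ∀ a c : ℕ → ℕ, (∀ n, (c n : ℝ) - a n ≤ K) →
      ∑ n ∈ range N, ‖∑ m ∈ Ico (a n) (c n),
        fd q φ lam (m * (n + r)) * conj (fd q φ lam (m * n))‖ ≤ Tb)
    (a b : ℕ → ℂ) :
    ‖∑ m ∈ Ioc K (2 * K), ∑ n ∈ (range N).filter (fun n => m * n < x),
      a m * b n * fd q φ J (m * n)‖ ^ 2 ≤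
    (∑ m ∈ Ioc K (2 * K), ‖a m‖ ^ 2) * (2 * N / H) *
      (K * ∑ n ∈ range N, ‖b n‖ ^ 2 + 2 * H * Real.sqrt ((∑ n ∈ range N, ‖b n‖ ^ 4) *
        (2 * K * Tb + 8 * (K : ℝ) ^ 2 * H * ((x : ℝ) / (q : ℝ) ^ lam + 1)))) := by
  set z : ℕ → ℕ → ℂ := fun m n => if m * n < x then b n * fd q φ J (m * n) else 0 with hz
  have hS : ∑ m ∈ Ioc K (2 * K), ∑ n ∈ (range N).filter (fun n => m * n < x),
      a m * b n * fd q φ J (m * n) = ∑ m ∈ Ioc K (2 * K), a m * ∑ n ∈ range N, z m n := by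
    refine sum_congr rfl fun m _ => ?_
    rw [mul_sum, sum_filter]
    refine sum_congr rfl fun n _ => ?_
    simp only [hz]
    split_ifs
    · ring
    · rw [mul_zero]
  rw [hS]
  have hCS : ‖∑ m ∈ Ioc K (2 * K), a m * ∑ n ∈ range N, z m n‖ ^ 2 ≤
      (∑ m ∈ Ioc K (2 * K), ‖a m‖ ^ 2) * ∑ m ∈ Ioc K (2 * K), ‖∑ n ∈ range N, z m n‖ ^ 2 := by
    have h1 : ‖∑ m ∈ Ioc K (2 * K), a m * ∑ n ∈ range N, z m n‖ ≤
        ∑ m ∈ Ioc K (2 * K), ‖a m‖ * ‖∑ n ∈ range N, z m n‖ := by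
      refine (norm_sum_le _ _).trans (sum_le_sum fun m _ => ?_)
      rw [norm_mul]
    refine (pow_le_pow_left₀ (norm_nonneg _) h1 2).trans ?_
    exact sum_mul_sq_le_sq_mul_sq _ _ _
  refine hCS.trans ?_
  rw [mul_assoc]
  apply mul_le_mul_of_nonneg_left _ (sum_nonneg fun m _ => by positivity)
  refine (vdc_family (Ioc K (2 * K)) z N H hH).trans ?_
  have hHpos : (0 : ℝ) < H := by exact_mod_cast hH
  have hHN' : (H : ℝ) ≤ N := by exact_mod_cast hHN
  have h1 : ((N : ℝ) + H) / H ≤ 2 * N / H := by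
    apply div_le_div_of_nonneg_right _ hHpos.le
    linarith
  have h2 : ∑ m ∈ Ioc K (2 * K), ∑ n ∈ range N, ‖z m n‖ ^ 2 ≤ K * ∑ n ∈ range N, ‖b n‖ ^ 2 := by
    have h3 : ∀ m ∈ Ioc K (2 * K), ∑ n ∈ range N, ‖z m n‖ ^ 2 ≤ ∑ n ∈ range N, ‖b n‖ ^ 2 := by
      intro m _
      refine sum_le_sum fun n _ => ?_
      simp only [hz]
      split_ifs
      · rw [norm_mul, norm_fd φ hφ, mul_one]
      · rw [norm_zero, zero_pow two_ne_zero]
        positivity
    refine (sum_le_sum h3).trans ?_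
    rw [sum_const, Nat.card_Ioc, nsmul_eq_mul]
    have : 2 * K - K = K := by omega
    rw [this]
  have h3 : ∑ r ∈ Ico 1 H, ‖∑ m ∈ Ioc K (2 * K), ∑ n ∈ range (N - r),
      z m (n + r) * conj (z m n)‖ ≤ H * Real.sqrt ((∑ n ∈ range N, ‖b n‖ ^ 4) *
        (2 * K * Tb + 8 * (K : ℝ) ^ 2 * H * ((x : ℝ) / (q : ℝ) ^ lam + 1))) := by
    have h4 : ∀ r ∈ Ico 1 H, ‖∑ m ∈ Ioc K (2 * K), ∑ n ∈ range (N - r),
      z m (n + r) * conj (z m n)‖ ≤ Real.sqrt ((∑ n ∈ range N, ‖b n‖ ^ 4) *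
        (2 * K * Tb + 8 * (K : ℝ) ^ 2 * H * ((x : ℝ) / (q : ℝ) ^ lam + 1))) := by
      intro r hr
      obtain ⟨hr1, hr2⟩ := mem_Ico.1 hr
      exact t2_shift φ hq hφ J lam N x H K r Tb hlam hK hr1 hr2 (hT r hr1 hr2) b
    refine (sum_le_sum h4).trans ?_
    rw [sum_const, Nat.card_Ico, nsmul_eq_mul]
    apply mul_le_mul_of_nonneg_right _ (Real.sqrt_nonneg _)
    exact_mod_cast Nat.sub_le _ _
  have h4 : 0 ≤ ∑ m ∈ Ioc K (2 * K), ∑ n ∈ range N, ‖z m n‖ ^ 2 :=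
    sum_nonneg fun m _ => sum_nonneg fun n _ => by positivity
  have h5 : 0 ≤ ∑ r ∈ Ico 1 H, ‖∑ m ∈ Ioc K (2 * K), ∑ n ∈ range (N - r),
      z m (n + r) * conj (z m n)‖ := sum_nonneg fun r _ => norm_nonneg _
  refine mul_le_mul h1 ?_ (by linarith) (by positivity)
  linarith

end Pool.Agent.H10.RP
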